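import Pool.Agent.Helper54.OC.LnPar

/-!
# OC-27: normal `p`-subgroups of the stabilizer of a totally isotropic line

PROOF.  Let `R = {g ∈ GG | g W ⊆ W}`, `W = sp x1 x2`; `g O g⁻¹ ≤ O` for `g ∈ R`.
(1) `O` acts trivially on `W`: the fixed vectors of the `p`-group `O` in `W` form a subspace `≠ 0`, invariant under `R`, and `R` contains the group `SL_2(F)` of `exists_delta`
    (CL/PiFour.lean) acting on `W` as `SL_2(F)` on `F²` (`!![1, t; 0, 1]`, `!![1, 0; t, 1]`); so it is `W`.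
(2) Let `T = perp4`, `W^⊥ = W + T`.  For `o ∈ O` let `ō` be the isometry `a ↦ p4 (o a)` of `T` (form `restr4`); `o ↦ ō` is a homomorphism (`o a ∈ p4 (o a) + W`), its image
    `Ō` is a `p`-group.  If `Ō = 1`, then `O ≤ RW W`.  Suppose `Ō ≠ 1`.  The span of all `ō a - a` is not zero, and contains a fixed vector `z ≠ 0` of `Ō`, which is
    isotropic (as in `ln_syl`).  `finrank_ge_three` (for `restr4`, an element `≠ 1` of `Ō`): `dim T ≥ 3`.  Let `w ∈ T` be a partner of `z` in `T`.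
    `Y = {a ∈ T | Ō a = a}` is invariant under `g ∈ UU w'` for `w' ∈ T` isotropic, if `g = E w' e t` with `e ∈ T` (`g ∈ GG`, `g` is trivial on `W`, maps `T` to `T`;
    so `g ∈ R`).  There is `e ∈ T`, `e ⊥ z, w`, `B e e ≠ 0` (`exists_nonsing` for `restr4`).  `E w e t z = z + e + t w`, `E w (-e) t z = z - e + t w`, with
    `t = - B e e / 2 ≠ 0`; so `e ∈ Y`, `w ∈ Y`.  For every `a ∈ T`, `a ⊥ z, w`: `E w a t' z = z + a + t' w ∈ Y`, so `a ∈ Y`.  So `Y = T`, `Ō = 1`, a contradiction.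
-/

set_option autoImplicit false

namespace Pool.Agent.Helper54.OC

open Pool.Agent.Helper54.CL

section
variable {p : ℕ} [Fact p.Prime] {F V : Type} [Field F] [AddCommGroup V] [Module F V]

/-- a `p`-group has a nonzero fixed vector in an invariant subspace which is not zero -/
private theorem lnp_fixed_sub [CharP F p] [Finite V] {Q : Subgroup (V ≃ₗ[F] V)}
    (hQ : IsPGroup p Q) (Y : Submodule F V) (hY : ∀ q ∈ Q, ∀ v ∈ Y, q v ∈ Y)
    {v : V} (hv : v ∈ Y) (hv0 : v ≠ 0) : ∃ z ∈ Y, z ≠ 0 ∧ ∀ q ∈ Q, q z = z := by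
  let _ : MulAction Q Y :=
    { smul := fun q v => ⟨(q : V ≃ₗ[F] V) (v : V), hY q q.2 v v.2⟩
      one_smul := fun v => Subtype.ext rfl
      mul_smul := fun a b v => Subtype.ext rfl }
  have hcard : p ∣ Nat.card Y := by
    let y : Y := ⟨v, hv⟩
    have hy : y ≠ 0 := fun h0 => hv0 (congrArg Subtype.val h0)
    have hy2 : p • y = 0 := by
      rw [← Nat.cast_smul_eq_nsmul F, CharP.cast_eq_zero, zero_smul]
    rw [← addOrderOf_eq_prime hy2 hy]
    exact addOrderOf_dvd_natCard y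
  obtain ⟨z, hz, hz0⟩ := hQ.exists_fixed_point_of_prime_dvd_card_of_fixed_point Y hcard
    (a := (0 : Y)) (fun q => Subtype.ext (map_zero (q : V ≃ₗ[F] V)))
  exact ⟨z, z.2, fun h0 => hz0 (Subtype.ext h0.symm),
    fun q hq => congrArg Subtype.val (hz ⟨q, hq⟩)⟩

/-- a `p`-group of isometries which is not trivial has an isotropic fixed vector -/
private theorem lnp_fixed [CharP F p] [Finite V] (h : HF F V) {Q : Subgroup (V ≃ₗ[F] V)}
    (hQ : IsPGroup p Q) (hQI : Q ≤ h.Iso) (hne : ∃ q ∈ Q, q ≠ 1) :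
    ∃ z : V, z ≠ 0 ∧ h.B z z = 0 ∧ ∀ q ∈ Q, q z = z := by
  let Y : Submodule F V := Submodule.span F {w | ∃ q ∈ Q, ∃ v, w = q v - v}
  have hY : ∀ q ∈ Q, ∀ v ∈ Y, q v ∈ Y := by
    intro q hq v hv
    induction hv using Submodule.span_induction with
    | mem w hw =>
      obtain ⟨q', hq', v', rfl⟩ := hw
      have e1 : q (q' v' - v') = ((q * q') v' - v') - (q v' - v') := by
        rw [map_sub]
        show q (q' v') - q v' = (q (q' v') - v') - (q v' - v')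
        abel
      rw [e1]
      exact Submodule.sub_mem _ (Submodule.subset_span ⟨q * q', Q.mul_mem hq hq', v', rfl⟩)
        (Submodule.subset_span ⟨q, hq, v', rfl⟩)
    | zero => rw [map_zero]; exact Submodule.zero_mem _
    | add a b _ _ ha hb => rw [map_add]; exact Submodule.add_mem _ ha hb
    | smul c a _ ha => rw [map_smul]; exact Submodule.smul_mem _ _ ha
  obtain ⟨q, hq, hq1⟩ := hne
  obtain ⟨v, hv⟩ : ∃ v, q v ≠ v := by
    by_contra hcon
    push Not at hcon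
    exact hq1 (LinearEquiv.ext hcon)
  obtain ⟨z, hzY, hz0, hzq⟩ := lnp_fixed_sub hQ Y hY
    (Submodule.subset_span ⟨q, hq, v, rfl⟩ : q v - v ∈ Y) (fun h0 => hv (sub_eq_zero.1 h0))
  have hzY' : ∀ v ∈ Y, h.B (z : V) v = 0 := by
    intro v hv
    induction hv using Submodule.span_induction with
    | mem w hw =>
      obtain ⟨q', hq', v', rfl⟩ := hw
      exact h.fixed_perp (hQI hq') (hzq q' hq') v'
    | zero => exact h.zero_right _
    | add a b _ _ ha hb => rw [h.add_right, ha, hb, add_zero]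
    | smul c a _ ha => rw [h.smul_right, ha, mul_zero]
  exact ⟨z, hz0, hzY' _ hzY, hzq⟩

/-- a `p`-group of isometries whose fixed space is invariant under `GG p` is trivial -/
private theorem lnp_core [CharP F p] [Finite V] (hp3 : 3 ≤ p) (h : HF F V) (hO : h.IsO)
    {Q : Subgroup (V ≃ₗ[F] V)} (hQ : IsPGroup p Q) (hQI : Q ≤ h.Iso)
    (hinv : ∀ g ∈ h.GG p, ∀ v, (∀ q ∈ Q, q v = v) → ∀ q ∈ Q, q (g v) = g v) :
    ∀ q ∈ Q, q = 1 := by
  by_contra hcon
  have hne : ∃ q ∈ Q, q ≠ 1 := by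
    push Not at hcon
    exact hcon
  have h22 : (2 : F) ≠ 0 := HF.two_ne hp3
  obtain ⟨z, hz0, hzz, hz⟩ := lnp_fixed h hQ hQI hne
  obtain ⟨w, hw⟩ := h.exists_partner h22 hz0 hzz
  obtain ⟨q, hq, hq1⟩ := hne
  have hfd : FiniteDimensional F V := Module.Finite.of_finite
  have hd3 : 3 ≤ Module.finrank F V := by
    obtain ⟨n, hn⟩ := hQ ⟨q, hq⟩
    exact h.finrank_ge_three hp3 hO (hQI hq) (congrArg Subtype.val hn) hq1
  obtain ⟨e, he1, he2, hee⟩ := h.exists_nonsing h22 hO hd3 hw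
  have hε : h.ε = 1 := hO.2
  have hσ : ∀ c, h.σ c = c := hO.1
  have hwz : h.B w z = 1 := by rw [hw.yx, hε]
  have hw' : h.Pair w z := ⟨hw.yy, hw.xx, hwz⟩
  let Y : Submodule F V :=
    { carrier := {v | ∀ q ∈ Q, q v = v}
      add_mem' := fun {a b} ha hb q hq => by rw [map_add, ha q hq, hb q hq]
      zero_mem' := fun q hq => map_zero q
      smul_mem' := fun c a ha q hq => by rw [map_smul, ha q hq] }
  have hzY : z ∈ Y := hz
  have hE : ∀ (a : V) (t : F), h.B w a = 0 → h.B a z = 0 → h.Adm a t →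
      z + a + t • w ∈ Y := by
    intro a t ha hb ht
    obtain ⟨u, hu, hu2⟩ := h.exists_E hw.yy ha ht
    have h3 : u z ∈ Y := hinv u (h.UU_le_GG hp3 hw' hu) z hz
    rw [hu2] at h3
    unfold HF.E at h3
    rw [hwz, hb, mul_zero, zero_smul, sub_zero, one_smul, mul_one] at h3
    exact h3
  have hwY : w ∈ Y := by
    obtain ⟨t, ht⟩ := h.adm_exists h22 e
    have ht' : h.Adm (-e) t := by
      unfold HF.Adm at ht ⊢
      rw [h.neg_left, h.neg_right, neg_neg, ht]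
    have ht0 : t ≠ 0 := by
      rintro rfl
      unfold HF.Adm at ht
      rw [mul_zero, map_zero, add_zero, eq_comm, neg_eq_zero] at ht
      exact hee ht
    have h3 := hE e t he2 (h.B_symm_zero he1) ht
    have h4 := hE (-e) t (by rw [h.neg_right, he2, neg_zero])
      (by rw [h.neg_left, h.B_symm_zero he1, neg_zero]) ht'
    have h5 := Y.sub_mem (Y.add_mem h3 h4) (Y.smul_mem (2 : F) hzY)
    have h6 : z + e + t • w + (z + -e + t • w) - (2 : F) • z = (2 * t) • w := by module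
    rw [h6] at h5
    exact (Submodule.smul_mem_iff Y (mul_ne_zero h22 ht0)).1 h5
  have haY : ∀ a, h.B w a = 0 → h.B a z = 0 → a ∈ Y := by
    intro a ha hb
    obtain ⟨t, ht⟩ := h.adm_exists h22 a
    have h3 := hE a t ha hb ht
    have h4 := Y.sub_mem (Y.sub_mem h3 (Y.smul_mem t hwY)) hzY
    rw [add_sub_cancel_right, add_sub_cancel_left] at h4
    exact h4
  apply hq1
  apply LinearEquiv.ext
  intro v
  have h3 : h.p1 z w v ∈ Y := haY _ (h.p1_y hw v) (h.B_symm_zero (h.p1_x hw v))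
  have h4 : v ∈ Y := by
    have h5 : v = h.p1 z w v + (h.ε * h.B w v) • z + h.B z v • w := by
      unfold HF.p1
      module
    rw [h5]
    exact Y.add_mem (Y.add_mem h3 (Y.smul_mem _ hzY)) (Y.smul_mem _ hwY)
  exact h4 q hq

variable (h : HF F V) {x y : V} (hp : h.Pair x y)

private noncomputable def lnpIm (O : Subgroup (V ≃ₗ[F] V)) : Subgroup (h.perp2 x y ≃ₗ[F] h.perp2 x y) :=
  (O.subgroupOf (h.stabX x)).map (h.psi hp)

omit [Fact p.Prime] in
private theorem lnpIm_p {O : Subgroup (V ≃ₗ[F] V)} (hO : IsPGroup p O) :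
    IsPGroup p (lnpIm h hp O) := by
  rintro ⟨_, o, ho, rfl⟩
  obtain ⟨n, hn⟩ := hO ⟨(o : V ≃ₗ[F] V), Subgroup.mem_subgroupOf.1 ho⟩
  refine ⟨n, ?_⟩
  apply Subtype.ext
  show (h.psi hp o) ^ p ^ n = 1
  rw [← map_pow]
  have h5 : (o : V ≃ₗ[F] V) ^ p ^ n = 1 := congrArg Subtype.val hn
  have h3 : o ^ p ^ n = 1 := Subtype.ext h5
  rw [h3, map_one]

private theorem lnpIm_iso {O : Subgroup (V ≃ₗ[F] V)} : lnpIm h hp O ≤ (h.restr hp).Iso := by
  rintro _ ⟨o, ho, rfl⟩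
  exact h.psi_iso hp o

private theorem lnpIm_mem {O : Subgroup (V ≃ₗ[F] V)} (o : h.stabX x)
    (ho : (o : V ≃ₗ[F] V) ∈ O) : h.psi hp o ∈ lnpIm h hp O :=
  ⟨o, Subgroup.mem_subgroupOf.2 ho, rfl⟩

private theorem lnpIm_conj {O : Subgroup (V ≃ₗ[F] V)} {k : h.perp2 x y ≃ₗ[F] h.perp2 x y}
    (hk : k ∈ (h.restr hp).Iso)
    (hN : ∀ o ∈ O, (h.ext hp k)⁻¹ * o * h.ext hp k ∈ O) :
    ∀ q ∈ lnpIm h hp O, k⁻¹ * q * k ∈ lnpIm h hp O := by
  rintro _ ⟨o, ho, rfl⟩
  have h4 := lnpIm_mem h hp (O := O) ((⟨h.ext hp k, h.ext_stabX hp hk⟩ : h.stabX x)⁻¹ * o *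
        (⟨h.ext hp k, h.ext_stabX hp hk⟩ : h.stabX x)) (hN _ (Subgroup.mem_subgroupOf.1 ho))
  rw [map_mul, map_mul, map_inv, h.psi_ext hp hk] at h4
  exact h4

end

theorem ln_op {p : ℕ} [Fact p.Prime] (hp3 : 3 ≤ p) {F V : Type} [Field F] [Finite F] [CharP F p]
    [AddCommGroup V] [Module F V] [Finite V] {h : HF F V} {x1 x2 y1 y2 : V}
    {π : Matrix.SpecialLinearGroup (Fin 2) F →* (V ≃ₗ[F] V)} (hD : LnD h p x1 x2 y1 y2 π)
    {O : Subgroup (V ≃ₗ[F] V)} (hO : IsPGroup p O) (hOG : O ≤ h.GG p)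
    (h1 : ∀ o ∈ O, ∀ w ∈ sp F x1 x2, o w ∈ sp F x1 x2)
    (h2 : ∀ g ∈ h.GG p, (∀ w ∈ sp F x1 x2, g w ∈ sp F x1 x2) → ∀ o ∈ O, g * o * g⁻¹ ∈ O) :
    O ≤ h.RW (sp F x1 x2) (quad_ti hD.q) := by
  have hq := hD.q
  have hO' := hD.o
  have hε : h.ε = 1 := hO'.2
  have hx10 : x1 ≠ 0 := hq.p1.x_ne
  have hx1W : x1 ∈ sp F x1 x2 := mem_sp.2 ⟨1, 0, by module⟩
  have hx2W : x2 ∈ sp F x1 x2 := mem_sp.2 ⟨0, 1, by module⟩
  -- the group acts trivially on the plane
  have hfix : ∀ o ∈ O, ∀ w ∈ sp F x1 x2, o w = w := by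
    obtain ⟨z, hzW, hz0, hz⟩ := lnp_fixed_sub hO (sp F x1 x2) h1 hx1W hx10
    obtain ⟨δ, hδG, hδ, -⟩ := h.exists_delta hp3 hq
    let Y : Submodule F V :=
      { carrier := {v | ∀ q ∈ O, q v = v}
        add_mem' := fun {a b} ha hb q hq => by rw [map_add, ha q hq, hb q hq]
        zero_mem' := fun q hq => map_zero q
        smul_mem' := fun c a ha q hq => by rw [map_smul, ha q hq] }
    have hzY : z ∈ Y := hz
    have hinv : ∀ m : Matrix.SpecialLinearGroup (Fin 2) F, ∀ v ∈ Y, δ m v ∈ Y := by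
      intro m v hv q hq'
      have hpres : ∀ w ∈ sp F x1 x2, δ m⁻¹ w ∈ sp F x1 x2 := by
        intro w hw
        obtain ⟨a, b, rfl⟩ := mem_sp.1 hw
        obtain ⟨h3, h4, -, -⟩ := hδ m⁻¹ _ _ _ _ (Matrix.eta_fin_two _)
        rw [map_add, map_smul, map_smul, h3, h4]
        exact Submodule.add_mem _
          (Submodule.smul_mem _ _ (mem_sp.2 ⟨_, _, rfl⟩))
          (Submodule.smul_mem _ _ (mem_sp.2 ⟨_, _, rfl⟩))
      have h3 := h2 _ (hδG ⟨m⁻¹, rfl⟩) hpres q hq'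
      have h4 : (δ m⁻¹ * q * (δ m⁻¹)⁻¹) v = v := hv _ h3
      rw [map_inv, inv_inv] at h4
      have h5 : (δ m)⁻¹ (q (δ m v)) = v := h4
      have h6 : δ m ((δ m)⁻¹ (q (δ m v))) = q (δ m v) := (δ m).apply_symm_apply _
      rw [← h6, h5]
    have hup : ∀ v ∈ Y, ∀ a b : F, v = a • x1 + b • x2 → b • x1 ∈ Y ∧ a • x2 ∈ Y := by
      intro v hv a b hab
      obtain ⟨h3, h4, -, -⟩ := hδ (up 1) 1 1 0 1 rfl
      obtain ⟨h5, h6, -, -⟩ := hδ (lo 1) 1 0 1 1 rfl
      have h7 := Y.sub_mem (hinv (up 1) v hv) hv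
      have h8 := Y.sub_mem (hinv (lo 1) v hv) hv
      have h9 : δ (up 1) v - v = b • x1 := by
        rw [hab, map_add, map_smul, map_smul, h3, h4]
        module
      have h10 : δ (lo 1) v - v = a • x2 := by
        rw [hab, map_add, map_smul, map_smul, h5, h6]
        module
      rw [h9] at h7
      rw [h10] at h8
      exact ⟨h7, h8⟩
    obtain ⟨a, b, hab⟩ := mem_sp.1 hzW
    have hx1Y : x1 ∈ Y := by
      by_cases hb : b = 0
      · subst hb
        rw [zero_smul, add_zero] at hab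
        have ha : a ≠ 0 := by
          rintro rfl
          rw [zero_smul] at hab
          exact hz0 hab
        rw [hab] at hzY
        exact (Submodule.smul_mem_iff Y ha).1 hzY
      · exact (Submodule.smul_mem_iff Y hb).1 (hup z hzY a b hab).1
    have hx2Y : x2 ∈ Y := by
      have h3 := (hup x1 hx1Y 1 0 (by module)).2
      rwa [one_smul] at h3
    intro o ho w hw
    obtain ⟨a, b, rfl⟩ := mem_sp.1 hw
    rw [map_add, map_smul, map_smul, hx1Y o ho, hx2Y o ho]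
  -- two reductions
  have hp1 := hq.p1
  let X2 : h.perp2 x1 y1 := ⟨x2, hq.vv, hq.wv⟩
  let Y2 : h.perp2 x1 y1 := ⟨y2, hq.vw, hq.ww⟩
  have hp2 : (h.restr hp1).Pair X2 Y2 := ⟨hq.p2.xx, hq.p2.yy, hq.p2.xy⟩
  have hst : ∀ o ∈ O, o ∈ h.stabX x1 := fun o ho => ⟨h.GG_le p (hOG ho), hfix o ho x1 hx1W⟩
  have hst2 : ∀ q ∈ lnpIm h hp1 O, q ∈ (h.restr hp1).stabX X2 := by
    intro q hq'
    refine ⟨lnpIm_iso h hp1 hq', ?_⟩
    obtain ⟨o, ho, rfl⟩ := hq'
    obtain ⟨c, hc⟩ := h.psi_apply hp1 o X2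
    have h3 : (o : V ≃ₗ[F] V) (X2 : V) = x2 := hfix o (Subgroup.mem_subgroupOf.1 ho) x2 hx2W
    rw [h3] at hc
    have h4 : h.B y1 ((h.psi hp1 o X2 : h.perp2 x1 y1) : V) = 0 := (h.psi hp1 o X2).2.2
    rw [hc, h.add_right, h.smul_right, hq.wv, zero_add, hp1.yx, hε, mul_one] at h4
    rw [h4, zero_smul, add_zero] at hc
    exact Subtype.ext hc
  have hcore : ∀ q ∈ lnpIm (h.restr hp1) hp2 (lnpIm h hp1 O), q = 1 := by
    apply lnp_core hp3 ((h.restr hp1).restr hp2) hO'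
    · exact lnpIm_p _ hp2 (lnpIm_p _ hp1 hO)
    · exact lnpIm_iso _ hp2
    · intro g hg v hv q hq'
      have hgI : g ∈ ((h.restr hp1).restr hp2).Iso := ((h.restr hp1).restr hp2).GG_le p hg
      have hg1 := (h.restr hp1).ext_GG hp2 hg
      have hg1I : (h.restr hp1).ext hp2 g ∈ (h.restr hp1).Iso := (h.restr hp1).GG_le p hg1
      have hg2 := h.ext_GG hp1 hg1
      have hgx1 := h.ext_x hp1 ((h.restr hp1).ext hp2 g)
      have hgx2 : h.ext hp1 ((h.restr hp1).ext hp2 g) x2 = x2 := by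
        have h3 := h.ext_perp hp1 ((h.restr hp1).ext hp2 g) X2
        rw [(h.restr hp1).ext_x hp2 g] at h3
        exact h3
      have hinvx : ∀ u, h.ext hp1 ((h.restr hp1).ext hp2 g) u = u →
          (h.ext hp1 ((h.restr hp1).ext hp2 g))⁻¹ u = u := by
        intro u hu
        have h3 : (h.ext hp1 ((h.restr hp1).ext hp2 g))⁻¹
          (h.ext hp1 ((h.restr hp1).ext hp2 g) u) = u :=
            (h.ext hp1 ((h.restr hp1).ext hp2 g)).symm_apply_apply u
        rwa [hu] at h3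
      have hN : ∀ o ∈ O, (h.ext hp1 ((h.restr hp1).ext hp2 g))⁻¹ * o *
          h.ext hp1 ((h.restr hp1).ext hp2 g) ∈ O := by
        intro o ho
        have h3 := h2 _ (inv_mem hg2) (by
          intro w hw
          obtain ⟨a, b, rfl⟩ := mem_sp.1 hw
          rw [map_add, map_smul, map_smul, hinvx x1 hgx1, hinvx x2 hgx2]
          exact hw) o ho
        rwa [inv_inv] at h3
      have h3 := lnpIm_conj h hp1 hg1I hN
      have h4 := lnpIm_conj (h.restr hp1) hp2 hgI h3 q hq'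
      have h5 : g⁻¹ (q (g v)) = v := hv _ h4
      have h6 : g (g⁻¹ (q (g v))) = q (g v) := g.apply_symm_apply _
      rw [← h6, h5]
  intro o ho
  refine ⟨h.GG_le p (hOG ho), hfix o ho, ?_⟩
  intro v hv
  have hm1 : h.psi hp1 ⟨o, hst o ho⟩ ∈ lnpIm h hp1 O := lnpIm_mem h hp1 ⟨o, hst o ho⟩ ho
  have hm2 := hcore _ (lnpIm_mem (h.restr hp1) hp2 ⟨_, hst2 _ hm1⟩ hm1)
  have hm3 := ((h.restr hp1).psi_ker hp2 _).1 hm2
  have hv1 : h.B x1 v = 0 := hv x1 hx1W
  have hv2 : h.B x2 v = 0 := hv x2 hx2W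
  let a : h.perp2 x1 y1 := ⟨h.p1 x1 y1 v, h.p1_x hp1 v, h.p1_y hp1 v⟩
  have ha2 : (h.restr hp1).B X2 a = 0 := by
    show h.B x2 (h.p1 x1 y1 v) = 0
    unfold HF.p1
    rw [h.sub_right, h.sub_right, h.smul_right, h.smul_right, hv2, h.B_symm_zero hq.vv,
      h.B_symm_zero hq.wv]
    ring
  obtain ⟨c, hc⟩ := hm3.2.2 a ha2
  obtain ⟨d, hd⟩ := h.psi_apply hp1 ⟨o, hst o ho⟩ a
  have hc' := congrArg (Subtype.val : h.perp2 x1 y1 → V) hc
  have h3 : ((h.psi hp1 ⟨o, hst o ho⟩ a : h.perp2 x1 y1) : V) = h.p1 x1 y1 v + c • x2 := hc'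
  rw [h3] at hd
  have hd' : h.p1 x1 y1 v + c • x2 = o (h.p1 x1 y1 v) + d • x1 := hd
  have h4 : v = h.p1 x1 y1 v + (h.ε * h.B y1 v) • x1 := by
    unfold HF.p1
    rw [hv1]
    module
  have h5 : o v = o (h.p1 x1 y1 v) + (h.ε * h.B y1 v) • x1 := by
    conv_lhs => rw [h4]
    rw [map_add, map_smul, hfix o ho x1 hx1W]
  have h6 : o v - v = (-d) • x1 + c • x2 := by
    have h7 : o (h.p1 x1 y1 v) = h.p1 x1 y1 v + c • x2 - d • x1 := by
      rw [hd']; abel
    rw [h5, h7]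
    conv_lhs => rw [h4]
    have h8 : h.p1 x1 y1 (h.p1 x1 y1 v + (h.ε * h.B y1 v) • x1) = h.p1 x1 y1 v := by
      rw [← h4]
    have h9 : h.p1 x1 y1 v + (h.ε * h.B y1 v) • x1 = v := h4.symm
    simp only [h9]
    have h10 : h.p1 x1 y1 v = v - (h.ε * h.B y1 v) • x1 := eq_sub_of_add_eq h9
    rw [h10]
    module
  rw [h6]
  exact mem_sp.2 ⟨_, _, rfl⟩

end Pool.Agent.Helper54.OC
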