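import Pool.Agent.Helper54.OC.Defs

/-!
# OC-05: the field automorphism defined by an automorphism of `S` which maps `U` to `U`

PROOF.
* `hc` has values in `nm U` (`hc_U`, `mem_nm_of_finite`).  `nm U` normalizes `Z = {z t}` (the center of `U`).  `hc_one`, `hc_inv` from `hc_mul`.
* `comm_mul`: (class 2) `[x y, b] = x [y, b] x⁻¹ [x, b] = [y, b] [x, b]`.
* `fixU`: if `hc c` commutes with `u`, then for `u' ∈ U`, `[u, u'] = z t`: `z t = z (c t)` by `hc_comm`, `c ≠ 1`, so `t = 0`; so `u = z s` (`z_cen`) and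
  `z (c² s) = z s`, `s = 0`.  `fixV`: `V = w U w⁻¹`, `w⁻¹ (hc c) w = hc c⁻¹`.
* `exists_tau`: `α (z t)` commutes with `α U = U` (finite), so `α (z t) = z (θ t)`, `θ : K → K` additive and injective.  For `c ≠ 0`:
  `α (hc c) ∈ nm U` acts on `Z` by a scalar `d`: `z (θ (c² t)) = α (hc c * z t * (hc c)⁻¹) = z (d θ t)`.  Every element of `K` is a sum of two
  squares (`FiniteField.isSumSq` or `FiniteField.exists_root_sum_quadratic`; every `a` is of the form `b^2 + c^2`; if the characteristic is `2` every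
  element is a square), so for every `a` there is `D a` with
  `θ (a t) = (D a) (θ t)` for all `t`, `D a = θ a / θ 1`; `D` is a ring homomorphism `τ`; `l = θ 1`.
  For `c : Kˣ` let `r = (hc (τ c))⁻¹ * α (hc c) ∈ nm U`.  For `u, u' ∈ U` with `[u, u'] = z t`, `a = α u`, `b = α u'`: `[a, b] = z (l τ t)`,
  `[α (hc c) a (α (hc c))⁻¹, b] = α (z (c t)) = z (l τ c τ t)` and `[hc (τ c) a (hc (τ c))⁻¹, b] = z (τ c l τ t)`, the same.  So
  `α (hc c) a (α (hc c))⁻¹` and `hc (τ c) a (hc (τ c))⁻¹` differ by an element of `U` which commutes with all `b ∈ U` (`comm_mul`), i.e. of `Z`, and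
  `r` acts trivially on `U / Z`.  On `Z`: `α (hc c) (z (θ t)) (α (hc c))⁻¹ = z (θ (c² t)) = z ((τ c)² θ t)`, so `r` acts trivially on `Z` (`θ` is
  surjective).  By `faith` `r ∈ U`, and `α (hc c) (hc (τ c))⁻¹ = hc (τ c) r (hc (τ c))⁻¹ ∈ U`.
  If `α^n = 1`: `α^n (z t) = z (l' τ^n t)` (induction on `n`), `t = 1` gives `l' = 1`, so `τ^n t = t`.
-/

set_option autoImplicit false

namespace Pool.Agent.Helper54.OC

section
variable {p : ℕ} {K : Type} [Field K] {X : Type} [Group X] {C U V : Subgroup X} {z : K → X}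
  {hc : Kˣ → X}

private theorem tau_hc_one (hP : Par p K C U V z hc) : hc 1 = 1 := by
  have h := hP.hc_mul 1 1
  rw [one_mul] at h
  exact left_eq_mul.1 h

private theorem tau_hc_inv (hP : Par p K C U V z hc) (c : Kˣ) : hc c⁻¹ = (hc c)⁻¹ := by
  have h := hP.hc_mul c⁻¹ c
  rw [inv_mul_cancel, tau_hc_one hP] at h
  exact eq_inv_of_mul_eq_one_left h.symm

private theorem tau_z_zero (hP : Par p K C U V z hc) : z 0 = 1 := by
  have h := hP.z_add 0 0
  rw [add_zero] at h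
  exact left_eq_mul.1 h

private theorem tau_z_inj (hP : Par p K C U V z hc) {s t : K} (h : z s = z t) : s = t := by
  have h1 := hP.z_add (s - t) t
  rw [sub_add_cancel, h] at h1
  exact sub_eq_zero.1 (hP.z_inj _ (right_eq_mul.1 h1))

theorem Par.hc_nm [Finite X] (hP : Par p K C U V z hc) (c : Kˣ) : hc c ∈ nm U :=
  mem_nm_of_finite (hP.hc_U c)

theorem Par.hc_nmV [Finite X] (hP : Par p K C U V z hc) (c : Kˣ) : hc c ∈ nm V := by
  obtain ⟨w, hw, hw'⟩ := hP.w
  rw [← hw, nm_cj, mem_cj]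
  have h1 := hw' c⁻¹
  rw [inv_inv] at h1
  have h2 : w⁻¹ * hc c * w = hc c⁻¹ := by rw [← h1]; group
  rw [h2]
  exact hP.hc_nm _

theorem Par.hc_zpow (hP : Par p K C U V z hc) (c : Kˣ) (n : ℤ) : hc (c ^ n) = hc c ^ n :=
  map_zpow ({ toFun := hc, map_one' := tau_hc_one hP, map_mul' := hP.hc_mul } : Kˣ →* X) c n

theorem Par.z_conj (hP : Par p K C U V z hc) {r : X} (hr : r ∈ nm U) (t : K) :
    ∃ s, r * z t * r⁻¹ = z s := by
  obtain ⟨c, hc⟩ := hP.scal r hr
  exact ⟨c * t, hc t⟩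

theorem Par.comm_mul (hP : Par p K C U V z hc) {x y b : X} (hx : x ∈ U) (hy : y ∈ U)
    (hb : b ∈ U) : (x * y) * b * (x * y)⁻¹ * b⁻¹ = (x * b * x⁻¹ * b⁻¹) * (y * b * y⁻¹ * b⁻¹) := by
  obtain ⟨t, ht⟩ := hP.comm y hy b hb
  have h1 : (x * y) * b * (x * y)⁻¹ * b⁻¹ = x * (y * b * y⁻¹ * b⁻¹) * (b * x⁻¹ * b⁻¹) := by group
  have h2 : x * b * x⁻¹ * b⁻¹ ∈ U :=
    U.mul_mem (U.mul_mem (U.mul_mem hx hb) (U.inv_mem hx)) (U.inv_mem hb)
  rw [h1, ht, ← hP.z_comm t x hx, ← hP.z_comm t _ h2]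
  group

theorem Par.fixU (hP : Par p K C U V z hc) {c : Kˣ} (h2 : (c : K) * (c : K) ≠ 1) {u : X}
    (hu : u ∈ U) (h : hc c * u = u * hc c) : u = 1 := by
  have hc1 : (c : K) ≠ 1 := by
    intro h1
    rw [h1, one_mul] at h2
    exact h2 rfl
  have hfix : hc c * u * (hc c)⁻¹ = u := by rw [h, mul_inv_cancel_right]
  have hcomm : ∀ u' ∈ U, u * u' = u' * u := by
    intro u' hu'
    obtain ⟨t, ht⟩ := hP.comm u hu u' hu'
    have h3 := hP.hc_comm c t u hu u' hu' ht
    rw [hfix, ht] at h3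
    have h4 : t = (c : K) * t := tau_z_inj hP h3
    have h5 : t = 0 := by
      have h6 : ((c : K) - 1) * t = 0 := by linear_combination -h4
      rcases mul_eq_zero.1 h6 with h7 | h7
      · exact absurd (sub_eq_zero.1 h7) hc1
      · exact h7
    rw [h5, tau_z_zero hP] at ht
    have h8 : u * u' = u' * u := by
      have h9 : u * u' * u⁻¹ = u' := by rwa [mul_inv_eq_one] at ht
      rwa [mul_inv_eq_iff_eq_mul] at h9
    exact h8
  obtain ⟨s, hs⟩ := hP.z_cen u hu hcomm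
  have h3 := hP.hc_z c s
  rw [← hs, hfix, hs] at h3
  have h4 : s = (c : K) * c * s := tau_z_inj hP h3
  have h5 : s = 0 := by
    have h6 : ((c : K) * c - 1) * s = 0 := by linear_combination -h4
    rcases mul_eq_zero.1 h6 with h7 | h7
    · exact absurd (sub_eq_zero.1 h7) h2
    · exact h7
  rw [hs, h5, tau_z_zero hP]

theorem Par.fixV (hP : Par p K C U V z hc) {c : Kˣ} (h2 : (c : K) * (c : K) ≠ 1) {v : X}
    (hv : v ∈ V) (h : hc c * v = v * hc c) : v = 1 := by
  obtain ⟨w, hw, hw'⟩ := hP.w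
  rw [← hw, mem_cj] at hv
  have h1 := hw' c⁻¹
  rw [inv_inv] at h1
  have h3 : hc c⁻¹ = w⁻¹ * hc c * w := by rw [← h1]; group
  have h4 : hc c⁻¹ * (w⁻¹ * v * w) = (w⁻¹ * v * w) * hc c⁻¹ := by
    rw [h3]
    have e1 : w⁻¹ * hc c * w * (w⁻¹ * v * w) = w⁻¹ * (hc c * v) * w := by group
    have e2 : w⁻¹ * v * w * (w⁻¹ * hc c * w) = w⁻¹ * (v * hc c) * w := by group
    rw [e1, e2, h]
  have h5 : ((c⁻¹ : Kˣ) : K) * ((c⁻¹ : Kˣ) : K) ≠ 1 := by
    intro h6
    apply h2
    have h7 : (c : K) * ((c⁻¹ : Kˣ) : K) = 1 := Units.mul_inv c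
    calc (c : K) * c = (c : K) * c * (((c⁻¹ : Kˣ) : K) * ((c⁻¹ : Kˣ) : K)) := by rw [h6, mul_one]
      _ = ((c : K) * ((c⁻¹ : Kˣ) : K)) * ((c : K) * ((c⁻¹ : Kˣ) : K)) := by ring
      _ = 1 := by rw [h7, mul_one]
  have h6 := hP.fixU h5 hv h4
  have h7 : v = w * (w⁻¹ * v * w) * w⁻¹ := by group
  rw [h7, h6]
  group

end

private theorem tau_two_sq {K : Type} [Field K] [Finite K] (a : K) :
    ∃ b c : K, a = b * b + c * c := by
  have := Fintype.ofFinite K
  by_cases h : ringChar K = 2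
  · obtain ⟨b, hb⟩ := FiniteField.isSquare_of_char_two h a
    exact ⟨b, 0, by rw [hb]; ring⟩
  · have hodd := FiniteField.odd_card_of_char_ne_two h
    obtain ⟨b, c, hbc⟩ := FiniteField.exists_root_sum_quadratic (R := K)
      (f := Polynomial.X ^ 2) (g := Polynomial.X ^ 2 - Polynomial.C a)
      (Polynomial.degree_X_pow 2) (Polynomial.degree_X_pow_sub_C (by decide) _) hodd
    refine ⟨b, c, ?_⟩
    simp only [Polynomial.eval_pow, Polynomial.eval_X, Polynomial.eval_sub,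
      Polynomial.eval_C] at hbc
    linear_combination -hbc

theorem exists_tau {p : ℕ} {K : Type} [Field K] [Finite K] {S : Type} [Group S] [Finite S]
    {U V : Subgroup S} {z : K → S} {hc : Kˣ → S} (hP : Par p K ⊥ U V z hc) (α : MulAut S)
    (hαU : ∀ u ∈ U, α u ∈ U) :
    ∃ (τ : K →+* K) (l : K), l ≠ 0 ∧ (∀ t, α (z t) = z (l * τ t)) ∧
      (∀ c : Kˣ, α (hc c) * (hc (Units.map (τ : K →* K) c))⁻¹ ∈ U) ∧
      ∀ n : ℕ, α ^ n = 1 → ∀ t, τ^[n] t = t := by
  -- (a)
  have hsurj : ∀ b ∈ U, ∃ b' ∈ U, α b' = b := by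
    intro b hb
    have hinj : Function.Injective (fun u : U => (⟨α u.1, hαU u.1 u.2⟩ : U)) := fun x y hxy =>
      Subtype.ext (α.injective (congrArg Subtype.val hxy))
    obtain ⟨y, hy⟩ := Finite.surjective_of_injective hinj ⟨b, hb⟩
    exact ⟨y.1, y.2, congrArg Subtype.val hy⟩
  -- (b)
  have hθ : ∀ t, ∃ s, α (z t) = z s := by
    intro t
    refine hP.z_cen _ (hαU _ (hP.z_mem t)) fun u hu => ?_
    obtain ⟨u', hu', rfl⟩ := hsurj u hu
    rw [← map_mul, ← map_mul, hP.z_comm t u' hu']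
  choose θ hθ using hθ
  -- (c)
  have θadd : ∀ s t, θ (s + t) = θ s + θ t := by
    intro s t
    apply tau_z_inj hP
    rw [← hθ, hP.z_add, map_mul, hθ, hθ, ← hP.z_add]
  have θinj : Function.Injective θ := by
    intro s t hst
    apply tau_z_inj hP
    apply α.injective
    rw [hθ, hθ, hst]
  have θsurj : Function.Surjective θ := Finite.surjective_of_injective θinj
  have θzero : θ 0 = 0 := by
    have := θadd 0 0
    rw [add_zero] at this
    exact left_eq_add.1 this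
  have θ1 : θ 1 ≠ 0 := fun h => one_ne_zero (θinj (h.trans θzero.symm))
  -- (d)
  have hαnm : ∀ c : Kˣ, α (hc c) ∈ nm U := by
    intro c
    refine mem_nm_of_finite fun u hu => ?_
    obtain ⟨u', hu', rfl⟩ := hsurj u hu
    rw [← map_inv, ← map_mul, ← map_mul]
    exact hαU _ (hP.hc_U c u' hu')
  have hconjz : ∀ (c : Kˣ) (t : K), α (hc c) * z (θ t) * (α (hc c))⁻¹ =
      z (θ ((c : K) * c * t)) := by
    intro c t
    rw [← hθ, ← map_inv, ← map_mul, ← map_mul, hP.hc_z, hθ]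
  have hsq : ∀ b : K, ∃ d : K, ∀ t, θ (b * b * t) = d * θ t := by
    intro b
    by_cases hb : b = 0
    · exact ⟨0, fun t => by rw [hb, zero_mul, zero_mul, zero_mul, θzero]⟩
    · obtain ⟨d, hd⟩ := hP.scal _ (hαnm (Units.mk0 b hb))
      refine ⟨d, fun t => ?_⟩
      have h1 := hconjz (Units.mk0 b hb) t
      rw [hd] at h1
      exact (tau_z_inj hP h1).symm
  -- (e)
  have hD : ∀ a : K, ∃ d : K, ∀ t, θ (a * t) = d * θ t := by
    intro a
    obtain ⟨b, c, rfl⟩ := tau_two_sq a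
    obtain ⟨d1, h1⟩ := hsq b
    obtain ⟨d2, h2⟩ := hsq c
    exact ⟨d1 + d2, fun t => by rw [add_mul, θadd, h1, h2, add_mul]⟩
  choose D hD using hD
  have hD1 : ∀ a, θ a = D a * θ 1 := fun a => by
    have := hD a 1
    rwa [mul_one] at this
  let τ : K →+* K :=
    { toFun := D
      map_one' := by
        have := hD1 1
        exact mul_right_cancel₀ θ1 (by rw [one_mul]; exact this.symm)
      map_mul' := fun a b => by
        apply mul_right_cancel₀ θ1
        rw [← hD1, hD, hD1 b, mul_assoc]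
      map_zero' := by
        apply mul_right_cancel₀ θ1
        rw [← hD1, θzero, zero_mul]
      map_add' := fun a b => by
        apply mul_right_cancel₀ θ1
        rw [← hD1, θadd, hD1 a, hD1 b, add_mul] }
  have hτ : ∀ a t, θ (a * t) = τ a * θ t := hD
  have hτ1 : ∀ t, θ t = θ 1 * τ t := fun t => by
    rw [mul_comm]
    exact hD1 t
  have hz : ∀ t, α (z t) = z (θ 1 * τ t) := fun t => by rw [hθ, ← hτ1]
  refine ⟨τ, θ 1, θ1, hz, ?_, ?_⟩
  · intro c
    set e : Kˣ := Units.map (τ : K →* K) c with he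
    have hec : (e : K) = τ (c : K) := rfl
    have hrnm : (hc e)⁻¹ * α (hc c) ∈ nm U :=
      (nm U).mul_mem ((nm U).inv_mem (hP.hc_nm e)) (hαnm c)
    -- conjugation by (hc e)⁻¹
    have hinvz : ∀ t, (hc e)⁻¹ * z ((e : K) * e * t) * hc e = z t := by
      intro t
      rw [← hP.hc_z]
      group
    have h2 : ∀ t, ((hc e)⁻¹ * α (hc c)) * z t * ((hc e)⁻¹ * α (hc c))⁻¹ = z t := by
      intro t
      obtain ⟨t', rfl⟩ := θsurj t
      have e1 : ((hc e)⁻¹ * α (hc c)) * z (θ t') * ((hc e)⁻¹ * α (hc c))⁻¹ =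
          (hc e)⁻¹ * (α (hc c) * z (θ t') * (α (hc c))⁻¹) * hc e := by group
      rw [e1, hconjz, hτ, map_mul, ← hec]
      exact hinvz _
    have h1 : ∀ a ∈ U, ∃ t, ((hc e)⁻¹ * α (hc c)) * a * ((hc e)⁻¹ * α (hc c))⁻¹ * a⁻¹ = z t := by
      intro a ha
      obtain ⟨u, hu, rfl⟩ := hsurj a ha
      have hA1 : α (hc c) * α u * (α (hc c))⁻¹ ∈ U := (mem_nm'.1 (hαnm c) _).1 ha
      have hA2 : hc e * α u * (hc e)⁻¹ ∈ U := hP.hc_U e _ ha
      have hcen : ∀ b ∈ U, ((α (hc c) * α u * (α (hc c))⁻¹) * (hc e * α u * (hc e)⁻¹)⁻¹) * b =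
          b * ((α (hc c) * α u * (α (hc c))⁻¹) * (hc e * α u * (hc e)⁻¹)⁻¹) := by
        intro b hb
        obtain ⟨u', hu', rfl⟩ := hsurj b hb
        obtain ⟨t, ht⟩ := hP.comm u hu u' hu'
        have q1 : (α (hc c) * α u * (α (hc c))⁻¹) * α u' * (α (hc c) * α u * (α (hc c))⁻¹)⁻¹ *
            (α u')⁻¹ = z (θ 1 * τ ((c : K) * t)) := by
          have := congrArg α (hP.hc_comm c t u hu u' hu' ht)
          rw [hz] at this
          rw [← this]
          simp only [map_mul, map_inv]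
        have q2 : α u * α u' * (α u)⁻¹ * (α u')⁻¹ = z (θ 1 * τ t) := by
          have := congrArg α ht
          rw [hz] at this
          rw [← this]
          simp only [map_mul, map_inv]
        have q3 := hP.hc_comm e _ (α u) ha (α u') hb q2
        have q4 : (e : K) * (θ 1 * τ t) = θ 1 * τ ((c : K) * t) := by
          rw [map_mul, hec]
          ring
        rw [q4, ← q1] at q3
        have q5 := hP.comm_mul (U.mul_mem hA1 (U.inv_mem hA2)) hA2 hb
        rw [inv_mul_cancel_right, q3] at q5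
        have q6 := right_eq_mul.1 q5
        rw [mul_inv_eq_one, mul_inv_eq_iff_eq_mul] at q6
        exact q6
      obtain ⟨s, hs⟩ := hP.z_cen _ (U.mul_mem hA1 (U.inv_mem hA2)) hcen
      obtain ⟨s', hs'⟩ := hP.z_conj ((nm U).inv_mem (hP.hc_nm e)) s
      refine ⟨s', ?_⟩
      rw [← hs', ← hs]
      group
    have h3 := hP.faith _ hrnm h1 h2
    rw [sup_bot_eq] at h3
    have h4 := hP.hc_U e _ h3
    have h5 : hc e * ((hc e)⁻¹ * α (hc c)) * (hc e)⁻¹ = α (hc c) * (hc e)⁻¹ := by group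
    rwa [h5] at h4
  · intro n hn t
    have key : ∀ m : ℕ, ∃ lm : K, ∀ t, (α ^ m) (z t) = z (lm * τ^[m] t) := by
      intro m
      induction m with
      | zero => exact ⟨1, fun t => by simp⟩
      | succ m ih =>
        obtain ⟨lm, hlm⟩ := ih
        refine ⟨θ 1 * τ lm, fun t => ?_⟩
        rw [pow_succ', MulAut.mul_apply, hlm, hz, map_mul, Function.iterate_succ_apply', mul_assoc]
    obtain ⟨ln, hln⟩ := key n
    have h1 : ∀ t, t = ln * τ^[n] t := by
      intro t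
      apply tau_z_inj hP
      rw [← hln, hn]
      rfl
    have h2 := h1 1
    rw [iterate_map_one, mul_one] at h2
    have h3 := h1 t
    rw [← h2, one_mul] at h3
    exact h3.symm

end Pool.Agent.Helper54.OC
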