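import Pool.Agent.Helper54.OC.Count
import Pool.Agent.Helper54.OC.Tau

/-!
# OC-08: an automorphism which is trivial on `U / Z` and on `Z` is inner

PROOF.  Let `h = hc 2` (`2 * 2 ≠ 1` in `K`, so `fixU`).
(1) Let `γ` be an automorphism with `γ U ≤ U`, `γ u ∈ u Z` for `u ∈ U` and `γ (z t) = z t`.  For `r ∈ nm U`: `γ r ∈ nm U`, and `r⁻¹ γ r ∈ U`:
    `γ (r u r⁻¹) = (γ r) (γ u) (γ r)⁻¹`, and modulo `Z` (`z_conj`) this says `r u r⁻¹ ≡ (γ r) u (γ r)⁻¹`; on `Z`: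
    `r (z t) r⁻¹ = γ (r (z t) r⁻¹) = (γ r) (z t) (γ r)⁻¹`; `faith`.
(2) `α h ∈ h U = U h`, so `α h = u1 h u1⁻¹`, `u1 ∈ U` (`conj_coset`).  `β = conj (u1⁻¹) * α`; `β h = h`, and `β` satisfies the conditions in (1) (`comm`, `z_comm`).
(3) `β` is trivial on `nm U`: if `l ∈ nm U` commutes with `h`, then `l⁻¹ β l ∈ U` commutes with `h`, so `β l = l`.  For `u ∈ U`, `β u = u (z δ)`;
    `h u h⁻¹ = u² (z s)` for some `s` (both `[h u h⁻¹, u']` and `[u², u']` are `z (2 t)` if `[u, u'] = z t`; `comm_mul`, `z_cen`), so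
    `β (h u h⁻¹) = (u (z δ))² (z s)`, and it is `h (u (z δ)) h⁻¹ = u² (z s) (z (4 δ))`: `2 δ = 4 δ`, `δ = 0`.  For `r ∈ nm U`: `h r h⁻¹ r⁻¹ ∈ U` (`cent`), so
    `r h r⁻¹ ∈ U h`, `r h r⁻¹ = v h v⁻¹`, and `v⁻¹ r` commutes with `h`.
(4) `β V = V`: `V = cj w U`, `β V = cj (β w) U`, `U ∩ nm (β V) = β (U ∩ nm V) = 1`, so `β V = cj u0 V`, `u0 ∈ U` (`opp`).  `h ∈ nm V` and `h = β h ∈ nm (β V)`, so
    `u0⁻¹ h u0 ∈ nm V`, `h⁻¹ u0⁻¹ h u0 ∈ nm V ∩ U = 1`, `u0 = 1`.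
(5) Let `cj v U = cj u V` (`uv`).  `cj (β v) U = cj u V = cj v U`, so `v⁻¹ β v ∈ nm U ∩ V = 1`: `β v = v`.  `s = u⁻¹ v`, `β s = s`, `cj s U = V`; so
    `β` is trivial on `V`; `gen`: `β = 1`, `α = conj u1`.
-/

set_option autoImplicit false
open scoped Pointwise

namespace Pool.Agent.Helper54.OC

private theorem step1 {p : ℕ} {K : Type} [Field K] {S : Type} [Group S] [Finite S]
    {U V : Subgroup S} {z : K → S} {hc : Kˣ → S} (hP : Par p K ⊥ U V z hc) {γ : MulAut S}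
    (hγU : ∀ u ∈ U, ∃ t, γ u * u⁻¹ = z t) (hγz : ∀ t, γ (z t) = z t) {r : S} (hr : r ∈ nm U) :
    r⁻¹ * γ r ∈ U := by
  have z0 : z 0 = 1 := by
    have := hP.z_add 0 0
    rw [add_zero] at this
    exact (mul_eq_left.mp this.symm)
  have zneg : ∀ t, z (-t) * z t = 1 := by
    intro t
    rw [← hP.z_add, neg_add_cancel, z0]
  have hU : ∀ u ∈ U, γ u ∈ U := by
    intro u hu
    obtain ⟨t, ht⟩ := hγU u hu
    have : γ u = z t * u := by rw [← ht]; group
    rw [this]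
    exact U.mul_mem (hP.z_mem t) hu
  have pre : ∀ u ∈ U, ∃ t, γ (z t * u) = u := by
    intro u hu
    obtain ⟨t, ht⟩ := hγU u hu
    have h1 : γ u = z t * u := by rw [← ht]; group
    refine ⟨-t, ?_⟩
    rw [map_mul, hγz, h1, ← mul_assoc, zneg, one_mul]
  have hri : r⁻¹ ∈ nm U := (nm U).inv_mem hr
  have conjU : ∀ {g : S}, g ∈ nm U → ∀ u ∈ U, g * u * g⁻¹ ∈ U := by
    intro g hg u hu
    exact (mem_nm'.mp hg u).mp hu
  have main : ∀ u ∈ U, ∃ s, γ r * u * (γ r)⁻¹ = z s * (r * u * r⁻¹) := by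
    intro u hu
    obtain ⟨t, ht⟩ := pre u hu
    have hu' : z t * u ∈ U := U.mul_mem (hP.z_mem t) hu
    obtain ⟨s, hs⟩ := hγU _ (conjU hr _ hu')
    obtain ⟨s', hs'⟩ := hP.z_conj hr t
    refine ⟨s + s', ?_⟩
    have h1 : γ r * u * (γ r)⁻¹ = γ (r * (z t * u) * r⁻¹) := by
      rw [map_mul, map_mul, ht, map_inv]
    have h2 : γ (r * (z t * u) * r⁻¹) = z s * (r * (z t * u) * r⁻¹) := by
      rw [← hs]; group
    have h3 : r * (z t * u) * r⁻¹ = (r * z t * r⁻¹) * (r * u * r⁻¹) := by group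
    rw [h1, h2, h3, hs', hP.z_add]
    group
  have hγr : γ r ∈ nm U := by
    refine mem_nm_of_finite fun u hu => ?_
    obtain ⟨s, hs⟩ := main u hu
    rw [hs]
    exact U.mul_mem (hP.z_mem s) (conjU hr u hu)
  have hmem : r⁻¹ * γ r ∈ U ⊔ ⊥ := by
    refine hP.faith _ ((nm U).mul_mem hri hγr) ?_ ?_
    · intro u hu
      obtain ⟨s, hs⟩ := main u hu
      obtain ⟨s', hs'⟩ := hP.z_conj hri s
      refine ⟨s', ?_⟩
      have h1 : r⁻¹ * γ r * u * (r⁻¹ * γ r)⁻¹ * u⁻¹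
          = r⁻¹ * (γ r * u * (γ r)⁻¹) * r * u⁻¹ := by group
      rw [h1, hs]
      rw [← hs']
      group
    · intro t
      obtain ⟨s, hs⟩ := hP.z_conj hr t
      have h1 : γ r * z t * (γ r)⁻¹ = r * z t * r⁻¹ := by
        have : γ (r * z t * r⁻¹) = r * z t * r⁻¹ := by rw [hs, hγz]
        rw [← this, map_mul, map_mul, hγz, map_inv]
      have h2 : r⁻¹ * γ r * z t * (r⁻¹ * γ r)⁻¹ = r⁻¹ * (γ r * z t * (γ r)⁻¹) * r := by group
      rw [h2, h1]
      group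
  rwa [sup_bot_eq] at hmem

private theorem step3 {p : ℕ} {K : Type} [Field K] {S : Type} [Group S] [Finite S]
    {U V : Subgroup S} {z : K → S} {hc : Kˣ → S} (hP : Par p K ⊥ U V z hc) (c : Kˣ)
    (h2 : (c : K) = 2) (h20 : (2 : K) ≠ 0) (h3 : (c : K) * c ≠ 1) {β : MulAut S}
    (hβU : ∀ u ∈ U, ∃ t, β u * u⁻¹ = z t) (hβz : ∀ t, β (z t) = z t) (hh : β (hc c) = hc c) :
    ∀ r ∈ nm U, β r = r := by
  have hnm := hP.hc_nm c
  have com : ∀ l ∈ nm U, hc c * l = l * hc c → β l = l := by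
    intro l hl hcom
    have h1 := step1 hP hβU hβz hl
    have h4 : hc c * β l = β l * hc c := by
      have := congrArg β hcom
      rwa [map_mul, map_mul, hh] at this
    have h5 : hc c * (l⁻¹ * β l) = (l⁻¹ * β l) * hc c := by
      have h6 : hc c * l⁻¹ = l⁻¹ * hc c := by
        have : l⁻¹ * (hc c * l) * l⁻¹ = l⁻¹ * (l * hc c) * l⁻¹ := by rw [hcom]
        have e1 : l⁻¹ * (hc c * l) * l⁻¹ = l⁻¹ * hc c := by group
        have e2 : l⁻¹ * (l * hc c) * l⁻¹ = hc c * l⁻¹ := by group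
        rw [e1, e2] at this
        exact this.symm
      rw [← mul_assoc, h6, mul_assoc, h4, mul_assoc]
    have h7 := hP.fixU h3 h1 h5
    have h8 : β l = l * (l⁻¹ * β l) := by group
    rw [h8, h7, mul_one]
  have onU : ∀ u ∈ U, β u = u := by
    intro u hu
    obtain ⟨δ, hδ⟩ := hβU u hu
    have hb : β u = z δ * u := by rw [← hδ]; group
    set x := hc c * u * (hc c)⁻¹ with hx
    have hxU : x ∈ U := hP.hc_U c u hu
    have hyU : u * u ∈ U := U.mul_mem hu hu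
    obtain ⟨s, hs⟩ : ∃ s, (u * u)⁻¹ * x = z s := by
      refine hP.z_cen _ (U.mul_mem (U.inv_mem hyU) hxU) ?_
      intro u' hu'
      obtain ⟨t, ht⟩ := hP.comm u hu u' hu'
      have e1 : x * u' * x⁻¹ * u'⁻¹ = z ((c : K) * t) := hP.hc_comm c t u hu u' hu' ht
      have e2 : (u * u) * u' * (u * u)⁻¹ * u'⁻¹ = z (t + t) := by
        rw [hP.comm_mul hu hu hu', ht, hP.z_add]
      have e3 : x * u' * x⁻¹ = (u * u) * u' * (u * u)⁻¹ := by
        have : x * u' * x⁻¹ * u'⁻¹ = (u * u) * u' * (u * u)⁻¹ * u'⁻¹ := by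
          rw [e1, e2, h2, two_mul]
        exact mul_right_cancel this
      have e4 : (u * u)⁻¹ * (x * u' * x⁻¹) * x = u' * ((u * u)⁻¹ * x) := by
        rw [e3]; group
      rw [← e4]
      group
    have hxe : x = u * u * z s := by rw [← hs]; group
    have k1 : β x = z ((c : K) * c * δ) * x := by
      rw [hx, map_mul, map_mul, map_inv, hh, hb]
      have : hc c * (z δ * u) * (hc c)⁻¹ = (hc c * z δ * (hc c)⁻¹) * (hc c * u * (hc c)⁻¹) := by
        group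
      rw [this, hP.hc_z]
    have k2 : β x = z (δ + δ) * x := by
      have e5 : β x = (z δ * u) * (z δ * u) * z s := by
        rw [hxe, map_mul, map_mul, hβz, hb]
      rw [e5, hxe, hP.z_add]
      have e6 := hP.z_comm δ u hu
      calc z δ * u * (z δ * u) * z s = z δ * (u * z δ) * u * z s := by group
        _ = z δ * (z δ * u) * u * z s := by rw [← e6]
        _ = z δ * z δ * (u * u * z s) := by group
    have k3 : z ((c : K) * c * δ) = z (δ + δ) := mul_right_cancel (k1.symm.trans k2)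
    have k4 : z ((c : K) * c * δ - (δ + δ)) = 1 := by
      have : z ((c : K) * c * δ - (δ + δ)) * z (δ + δ) = z (δ + δ) := by
        rw [← hP.z_add, sub_add_cancel, k3]
      exact mul_eq_right.mp this
    have k5 := hP.z_inj _ k4
    have k6 : δ = 0 := by
      rw [h2] at k5
      have : (2 : K) * δ = 0 := by linear_combination k5
      rcases mul_eq_zero.mp this with h | h
      · exact absurd h h20
      · exact h
    have z0 : z 0 = 1 := by
      have := hP.z_add 0 0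
      rw [add_zero] at this
      exact (mul_eq_left.mp this.symm)
    rw [hb, k6, z0, one_mul]
  intro r hr
  have h4 := hP.cent r hr c
  rw [sup_bot_eq] at h4
  have h5 : r * hc c * r⁻¹ * (hc c)⁻¹ ∈ U := by
    have := U.inv_mem h4
    have e : (hc c * r * (hc c)⁻¹ * r⁻¹)⁻¹ = r * hc c * r⁻¹ * (hc c)⁻¹ := by group
    rwa [e] at this
  obtain ⟨v, hv, hve⟩ := conj_coset (hP.hc_U c) (fun u hu h => hP.fixU h3 hu h) h5
  have hl : v⁻¹ * r ∈ nm U := (nm U).mul_mem ((nm U).inv_mem (le_nm U hv)) hr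
  have hcom : hc c * (v⁻¹ * r) = (v⁻¹ * r) * hc c := by
    have : v⁻¹ * (r * hc c * r⁻¹) * r = v⁻¹ * (v * hc c * v⁻¹) * r := by rw [hve]
    have e1 : v⁻¹ * (r * hc c * r⁻¹) * r = (v⁻¹ * r) * hc c := by group
    have e2 : v⁻¹ * (v * hc c * v⁻¹) * r = hc c * (v⁻¹ * r) := by group
    rw [e1, e2] at this
    exact this.symm
  have h6 := com _ hl hcom
  rw [map_mul, map_inv, onU v hv] at h6
  exact mul_left_cancel h6

theorem inner_of_triv {p : ℕ} [Fact p.Prime] (hp5 : 5 ≤ p) {K : Type} [Field K] [Finite K]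
    [CharP K p] {S : Type} [Group S] [Finite S] {U V : Subgroup S} {z : K → S} {hc : Kˣ → S}
    (hP : Par p K ⊥ U V z hc) {α : MulAut S} (hαU : ∀ u ∈ U, ∃ t, α u * u⁻¹ = z t)
    (hαz : ∀ t, α (z t) = z t) : ∃ s : S, α = MulAut.conj s := by
  have h20 : (2 : K) ≠ 0 := by
    intro h
    have : ((2 : ℕ) : K) = 0 := by exact_mod_cast h
    rw [CharP.cast_eq_zero_iff K p] at this
    have := Nat.le_of_dvd (by norm_num) this
    omega
  have h30 : (3 : K) ≠ 0 := by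
    intro h
    have : ((3 : ℕ) : K) = 0 := by exact_mod_cast h
    rw [CharP.cast_eq_zero_iff K p] at this
    have := Nat.le_of_dvd (by norm_num) this
    omega
  set c : Kˣ := Units.mk0 2 h20 with hcdef
  have h2 : (c : K) = 2 := rfl
  have h3 : (c : K) * c ≠ 1 := by
    rw [h2]
    intro h
    apply h30
    linear_combination h
  set h := hc c with hh
  have hnm : h ∈ nm U := hP.hc_nm c
  have hnmV : h ∈ nm V := hP.hc_nmV c
  have s1 := step1 hP hαU hαz hnm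
  have s2 : α h * h⁻¹ ∈ U := by
    have := hP.hc_U c _ s1
    have e : hc c * (h⁻¹ * α h) * (hc c)⁻¹ = α h * h⁻¹ := by rw [← hh]; group
    rwa [e] at this
  obtain ⟨u1, hu1, hu1e⟩ := conj_coset (hP.hc_U c) (fun u hu h => hP.fixU h3 hu h) s2
  set β : MulAut S := MulAut.conj u1⁻¹ * α with hβ
  have βap : ∀ x, β x = u1⁻¹ * α x * u1 := by
    intro x
    rw [hβ, MulAut.mul_apply, MulAut.conj_apply, inv_inv]
  have βh : β h = h := by
    rw [βap, hu1e, ← hh]; group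
  have βU : ∀ u ∈ U, ∃ t, β u * u⁻¹ = z t := by
    intro u hu
    obtain ⟨t, ht⟩ := hαU u hu
    obtain ⟨t', ht'⟩ := hP.comm u1⁻¹ (U.inv_mem hu1) u hu
    refine ⟨t + t', ?_⟩
    have e1 : α u = z t * u := by rw [← ht]; group
    rw [βap, e1, hP.z_add, ← ht', inv_inv]
    have e2 := hP.z_comm t u1⁻¹ (U.inv_mem hu1)
    calc u1⁻¹ * (z t * u) * u1 * u⁻¹ = (u1⁻¹ * z t) * u * u1 * u⁻¹ := by group
      _ = z t * (u1⁻¹ * u * u1 * u⁻¹) := by rw [← e2]; group
  have βz : ∀ t, β (z t) = z t := by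
    intro t
    have e2 := hP.z_comm t u1 hu1
    rw [βap, hαz, mul_assoc, e2]
    group
  have βnm := step3 hP c h2 h20 h3 βU βz βh
  have βfix : ∀ u ∈ U, β u = u := fun u hu => βnm u (le_nm U hu)
  have memU : ∀ x, β x ∈ U ↔ x ∈ U := by
    intro x
    constructor
    · intro hx
      have := βfix _ hx
      have e : β x = x := β.injective this
      rwa [e] at hx
    · intro hx
      rw [βfix x hx]
      exact hx
  obtain ⟨w, hwV, hwc⟩ := hP.w
  have hVW : ∀ x, β x ∈ cj (β w) U ↔ x ∈ V := by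
    intro x
    rw [mem_cj, ← map_inv, ← map_mul, ← map_mul, memU, ← hwV, mem_cj]
  have surj : ∀ x, ∃ y, β y = x := fun x => β.surjective x
  have hopp : ∀ u ∈ U, u ∈ nm (cj (β w) U) → u = 1 := by
    intro u hu hn
    apply hP.iU u hu
    rw [mem_nm'] at hn ⊢
    intro x
    rw [← hVW, hn (β x), ← hVW (u * x * u⁻¹), map_mul, map_mul, map_inv, βfix u hu]
  obtain ⟨u0, hu0, hu0e⟩ := hP.opp (β w) hopp
  have hW : h ∈ nm (cj (β w) U) := by
    rw [mem_nm']
    intro x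
    obtain ⟨y, rfl⟩ := surj x
    rw [hVW, (mem_nm'.mp hnmV) y, ← hVW (h * y * h⁻¹), map_mul, map_mul, map_inv, βh]
  rw [hu0e, nm_cj, mem_cj] at hW
  have k1 : h⁻¹ * (u0⁻¹ * h * u0) ∈ nm V := (nm V).mul_mem ((nm V).inv_mem hnmV) hW
  have k2 : h⁻¹ * (u0⁻¹ * h * u0) ∈ U := by
    have e : h⁻¹ * (u0⁻¹ * h * u0) = (h⁻¹ * u0⁻¹ * h⁻¹⁻¹) * u0 := by group
    rw [e]
    refine U.mul_mem ?_ hu0
    exact (mem_nm'.mp ((nm U).inv_mem hnm) _).mp (U.inv_mem hu0)
  have k3 := hP.iU _ k2 k1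
  have k4 : hc c * u0 = u0 * hc c := by
    rw [← hh]
    have e : u0 * (h * (h⁻¹ * (u0⁻¹ * h * u0))) = h * u0 := by group
    rw [← e, k3, mul_one]
  have k5 : u0 = 1 := hP.fixU h3 hu0 k4
  rw [k5, cj_one] at hu0e
  have hV : ∀ x, β x ∈ V ↔ x ∈ V := by
    intro x
    have := hVW x
    rwa [hu0e] at this
  obtain ⟨u, hu, v, hv, huv⟩ := hP.uv
  have m1 : cj (β v) U = cj v U := by
    ext x
    obtain ⟨y, rfl⟩ := surj x
    rw [mem_cj, ← map_inv, ← map_mul, ← map_mul, memU, ← mem_cj, huv, mem_cj, mem_cj, ← hV,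
      map_mul, map_mul, map_inv, βfix u hu]
  have m2 : v⁻¹ * β v ∈ nm U := by
    rw [mem_nm, ← cj_cj, m1, cj_cj, inv_mul_cancel, cj_one]
  have m3 : v⁻¹ * β v ∈ V := V.mul_mem (V.inv_mem hv) ((hV v).mpr hv)
  have m4 := hP.iV _ m3 m2
  have m5 : β v = v := by
    have e : β v = v * (v⁻¹ * β v) := by group
    rw [e, m4, mul_one]
  have m6 : ∀ x ∈ V, β x = x := by
    intro x hx
    have hs : cj (u⁻¹ * v) U = V := by
      rw [← cj_cj, huv, cj_cj, inv_mul_cancel, cj_one]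
    rw [← hs, mem_cj] at hx
    set y := (u⁻¹ * v)⁻¹ * x * (u⁻¹ * v) with hy
    have e : x = (u⁻¹ * v) * y * (u⁻¹ * v)⁻¹ := by rw [hy]; group
    have e2 : β (u⁻¹ * v) = u⁻¹ * v := by rw [map_mul, map_inv, βfix u hu, m5]
    rw [e, map_mul, map_mul, map_inv, e2, βfix y hx]
  have m7 : ∀ x, β x = x := by
    have hle : U ⊔ V ≤ MonoidHom.eqLocus β.toMonoidHom (MonoidHom.id S) := by
      refine sup_le ?_ ?_
      · intro x hx
        exact βfix x hx
      · intro x hx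
        exact m6 x hx
    rw [hP.gen] at hle
    intro x
    exact hle (Subgroup.mem_top x)
  refine ⟨u1, ?_⟩
  ext x
  have := m7 x
  rw [βap] at this
  rw [MulAut.conj_apply]
  have e : α x = u1 * (u1⁻¹ * α x * u1) * u1⁻¹ := by group
  rw [e, this]

end Pool.Agent.Helper54.OC
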