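import Pool.Agent.Helper54.OC.Tau

/-!
# OC-10: passing to the quotient by the central subgroup `C`

PROOF.  `q : X → X ⧸ C` (`QuotientGroup.mk' C`).  `U ∩ C = 1` (orders); more generally if `x, y ∈ X` have `p`-power order and `x = y c` with `c ∈ C` then
`c = 1` (`c` is central, `|C|` prime to `p`).  So `q g ∈ nm (q U)` iff `g ∈ nm U`, in the same way for `V` and for `cj g U` (all are `p`-groups).
* `z_cen`, `comm`, `hc_comm`: commutators of elements of `U` are in `U`, so an equation modulo `C` between such elements is an equation.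
* `faith`: `q r ∈ nm (q U)` gives `r ∈ nm U`, `r u r⁻¹ u⁻¹ ∈ (z t) C ∩ U`, `r (z t) r⁻¹ ∈ (z t) C ∩ U`.
* `opp`: if `u ∈ U ∩ nm (cj g U)` then `q u = 1`, so `u ∈ U ∩ C = 1`.
* `syl`: the image of a Sylow subgroup is a Sylow subgroup (`Sylow.mapSurjective`).  `nz`: `g (z t) g⁻¹ = (z s) c`, `c = 1`.
* `op`: for `O ≤ X ⧸ C` let `O'` be the set of elements of `p`-power order of the preimage of `O`: a subgroup, since `C` is central of order prime to `p`
  and `O` is a `p`-group (or: a Sylow `p`-subgroup of the preimage; it is normal in the preimage and characteristic).  `O'` maps onto `O`;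
  `O' ≤ nm U`, `nm U ≤ nm O'`.
* `ts`: `U ≃* q U`; transport `φ`.
-/

set_option autoImplicit false
open scoped Pointwise

namespace Pool.Agent.Helper54.OC

section
variable {p : ℕ} {X : Type} [Group X]

/-- the order of `x` is a power of `p` -/
private def pel (p : ℕ) {X : Type} [Group X] (x : X) : Prop := ∃ n : ℕ, x ^ (p ^ n) = 1

private theorem pel_one : pel p (1 : X) := ⟨0, one_pow _⟩

private theorem pel_conj {x : X} (h : pel p x) (g : X) : pel p (g * x * g⁻¹) := by
  obtain ⟨n, hn⟩ := h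
  exact ⟨n, by rw [conj_pow, hn, mul_one, mul_inv_cancel]⟩

private theorem pel_of {P : Subgroup X} (h : IsPGroup p P) {x : X} (hx : x ∈ P) : pel p x := by
  obtain ⟨n, hn⟩ := h ⟨x, hx⟩
  exact ⟨n, congrArg Subtype.val hn⟩

private theorem pel_cj {P : Subgroup X} (h : ∀ x ∈ P, pel p x) (g : X) : ∀ x ∈ cj g P, pel p x := by
  intro x hx
  rw [mem_cj] at hx
  have h1 := pel_conj (h _ hx) g
  have h2 : g * (g⁻¹ * x * g) * g⁻¹ = x := by group
  rwa [h2] at h1

private theorem q_inj [Fact p.Prime] [Finite X] {C : Subgroup X} [C.Normal]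
    (hC : C ≤ Subgroup.center X) (hp : ¬ p ∣ Nat.card C) {x y : X} (hx : pel p x) (hy : pel p y)
    (h : QuotientGroup.mk' C x = QuotientGroup.mk' C y) : x = y := by
  have h1 : y⁻¹ * x ∈ C := by
    rw [← QuotientGroup.eq]
    exact h.symm
  obtain ⟨n, hn⟩ := hx
  obtain ⟨m, hm⟩ := hy
  have hcm : Commute y (y⁻¹ * x) := by
    have h2 := Subgroup.mem_center_iff.1 (hC h1) y
    exact h2
  have h3 : (y⁻¹ * x) ^ (p ^ (n + m)) = 1 := by
    have h4 : x = y * (y⁻¹ * x) := by group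
    have h5 : x ^ (p ^ (n + m)) = 1 := by
      rw [pow_add, pow_mul, hn, one_pow]
    have h6 : y ^ (p ^ (n + m)) = 1 := by
      rw [add_comm, pow_add, pow_mul, hm, one_pow]
    have h7 : (y * (y⁻¹ * x)) ^ (p ^ (n + m)) = 1 := by rw [← h4]; exact h5
    rw [hcm.mul_pow, h6, one_mul] at h7
    exact h7
  have h8 : orderOf (y⁻¹ * x) ∣ p ^ (n + m) := orderOf_dvd_of_pow_eq_one h3
  have h9 : orderOf (y⁻¹ * x) ∣ Nat.card C := by
    have h10 : orderOf (⟨y⁻¹ * x, h1⟩ : C) ∣ Nat.card C := orderOf_dvd_natCard _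
    rwa [← Subgroup.orderOf_coe] at h10
  have h11 : Nat.Coprime (p ^ (n + m)) (Nat.card C) :=
    Nat.Coprime.pow_left _ ((Nat.Prime.coprime_iff_not_dvd (Fact.out : p.Prime)).2 hp)
  have h12 : orderOf (y⁻¹ * x) = 1 := Nat.eq_one_of_dvd_coprimes h11 h8 h9
  rw [orderOf_eq_one_iff] at h12
  exact (inv_mul_eq_one.1 h12).symm

private theorem q_cj {C : Subgroup X} [C.Normal] (g : X) (P : Subgroup X) :
    cj (QuotientGroup.mk' C g) (P.map (QuotientGroup.mk' C)) =
      (cj g P).map (QuotientGroup.mk' C) := by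
  unfold cj
  rw [Subgroup.map_map, Subgroup.map_map]
  rfl

private theorem q_nm_of {C : Subgroup X} [C.Normal] [Finite X] {g : X} {P : Subgroup X}
    (h : g ∈ nm P) : QuotientGroup.mk' C g ∈ nm (P.map (QuotientGroup.mk' C)) := by
  rw [mem_nm, q_cj, mem_nm.1 h]

private theorem q_nm_iff [Fact p.Prime] [Finite X] {C : Subgroup X} [C.Normal]
    (hC : C ≤ Subgroup.center X) (hp : ¬ p ∣ Nat.card C) {P : Subgroup X}
    (hP : ∀ x ∈ P, pel p x) {g : X} :
    QuotientGroup.mk' C g ∈ nm (P.map (QuotientGroup.mk' C)) ↔ g ∈ nm P := by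
  constructor
  · intro h
    apply mem_nm_of_finite
    intro u hu
    have h1 := (mem_nm'.1 h (QuotientGroup.mk' C u)).1 (Subgroup.mem_map_of_mem _ hu)
    rw [← map_inv, ← map_mul, ← map_mul] at h1
    obtain ⟨u', hu', h2⟩ := h1
    have h3 := q_inj hC hp (hP _ hu') (pel_conj (hP _ hu) g) h2
    rw [← h3]
    exact hu'
  · exact q_nm_of

end

theorem par_quot {p : ℕ} [Fact p.Prime] {K : Type} [Field K] {X : Type} [Group X] [Finite X]
    {C U V : Subgroup X} {z : K → X} {hc : Kˣ → X} [C.Normal] (hP : Par p K C U V z hc) :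
    Par p K (⊥ : Subgroup (X ⧸ C)) (U.map (QuotientGroup.mk' C)) (V.map (QuotientGroup.mk' C))
      (fun t => QuotientGroup.mk' C (z t)) (fun c => QuotientGroup.mk' C (hc c)) := by
  have hU : ∀ x ∈ U, pel p x := fun x hx => pel_of hP.pU hx
  have hV : ∀ x ∈ V, pel p x := by
    obtain ⟨w, hw, _⟩ := hP.w
    rw [← hw]
    exact pel_cj hU w
  have hinj : ∀ {x y : X}, pel p x → pel p y → QuotientGroup.mk' C x = QuotientGroup.mk' C y →
      x = y := fun hx hy h => q_inj hP.cen hP.cp hx hy h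
  have hsurj : Function.Surjective (QuotientGroup.mk' C) := QuotientGroup.mk'_surjective C
  have hnmU : ∀ {g : X}, QuotientGroup.mk' C g ∈ nm (U.map (QuotientGroup.mk' C)) ↔ g ∈ nm U :=
    fun {g} => q_nm_iff hP.cen hP.cp hU
  have hnmV : ∀ {g : X}, QuotientGroup.mk' C g ∈ nm (V.map (QuotientGroup.mk' C)) ↔ g ∈ nm V :=
    fun {g} => q_nm_iff hP.cen hP.cp hV
  have hconj : ∀ {r u : X}, r ∈ nm U → u ∈ U → r * u * r⁻¹ ∈ U :=
    fun {r u} hr hu => (mem_nm'.1 hr u).1 hu
  have hCbot : C.map (QuotientGroup.mk' C) = ⊥ := by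
    rw [Subgroup.map_eq_bot_iff, QuotientGroup.ker_mk']
  have hsup : ∀ {x : X}, x ∈ U ⊔ C → QuotientGroup.mk' C x ∈
      U.map (QuotientGroup.mk' C) ⊔ (⊥ : Subgroup (X ⧸ C)) := by
    intro x hx
    rw [← hCbot, ← Subgroup.map_sup]
    exact Subgroup.mem_map_of_mem _ hx
  have hmul : ∀ a b : X, QuotientGroup.mk' C (a * b) =
      QuotientGroup.mk' C a * QuotientGroup.mk' C b := map_mul _
  have hinv : ∀ a : X, QuotientGroup.mk' C a⁻¹ = (QuotientGroup.mk' C a)⁻¹ := map_inv _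
  refine
    { cen := bot_le
      cp := ?_
      pU := hP.pU.map _
      z_add := ?_
      z_inj := ?_
      z_mem := fun t => Subgroup.mem_map_of_mem _ (hP.z_mem t)
      z_comm := ?_
      z_cen := ?_
      comm := ?_
      hc_mul := ?_
      hc_z := ?_
      hc_U := ?_
      hc_comm := ?_
      faith := ?_
      scal := ?_
      cent := ?_
      w := ?_
      iU := ?_
      iV := ?_
      opp := ?_
      uv := ?_
      gen := ?_
      syl := ?_
      nz := ?_
      op := ?_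
      ts := ?_ }
  · rw [Subgroup.card_bot]
    exact fun h => (Fact.out : p.Prime).one_lt.ne' (Nat.dvd_one.1 h)
  · intro s t
    show QuotientGroup.mk' C (z (s + t)) = _
    rw [hP.z_add, hmul]
  · intro t h
    apply hP.z_inj
    exact hinj (hU _ (hP.z_mem t)) pel_one (by rw [h, map_one])
  · rintro t _ ⟨u, hu, rfl⟩
    show QuotientGroup.mk' C (z t) * QuotientGroup.mk' C u = _
    rw [← hmul, hP.z_comm t u hu, hmul]
  · rintro _ ⟨u, hu, rfl⟩ h
    obtain ⟨t, ht⟩ := hP.z_cen u hu (by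
      intro u' hu'
      have h1 := h _ (Subgroup.mem_map_of_mem _ hu')
      rw [← hmul, ← hmul] at h1
      exact hinj (hU _ (U.mul_mem hu hu')) (hU _ (U.mul_mem hu' hu)) h1)
    exact ⟨t, by rw [ht]⟩
  · rintro _ ⟨u, hu, rfl⟩ _ ⟨u', hu', rfl⟩
    obtain ⟨t, ht⟩ := hP.comm u hu u' hu'
    exact ⟨t, by rw [← hinv, ← hinv, ← hmul, ← hmul, ← hmul, ht]⟩
  · intro c d
    show QuotientGroup.mk' C (hc (c * d)) = _
    rw [hP.hc_mul, hmul]
  · intro c t
    show QuotientGroup.mk' C (hc c) * QuotientGroup.mk' C (z t) * (QuotientGroup.mk' C (hc c))⁻¹ = _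
    rw [← hinv, ← hmul, ← hmul, hP.hc_z]
  · rintro c _ ⟨u, hu, rfl⟩
    rw [← hinv, ← hmul, ← hmul]
    exact Subgroup.mem_map_of_mem _ (hP.hc_U c u hu)
  · rintro c t _ ⟨u, hu, rfl⟩ _ ⟨u', hu', rfl⟩ h
    have h1 : u * u' * u⁻¹ * u'⁻¹ = z t := by
      apply hinj _ (hU _ (hP.z_mem t))
      · rw [hmul, hmul, hmul, hinv, hinv]
        exact h
      · exact hU _ (U.mul_mem (U.mul_mem (U.mul_mem hu hu') (U.inv_mem hu)) (U.inv_mem hu'))
    have h2 := congrArg (QuotientGroup.mk' C) (hP.hc_comm c t u hu u' hu' h1)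
    simp only [hmul, hinv] at h2
    exact h2
  · intro r' hr' h1 h2
    obtain ⟨r, rfl⟩ := hsurj r'
    have hr := hnmU.1 hr'
    apply hsup
    apply hP.faith r hr
    · intro u hu
      obtain ⟨t, ht⟩ := h1 _ (Subgroup.mem_map_of_mem _ hu)
      refine ⟨t, hinj (hU _ (U.mul_mem (hconj hr hu) (U.inv_mem hu))) (hU _ (hP.z_mem t)) ?_⟩
      rw [hmul, hmul, hmul, hinv, hinv]
      exact ht
    · intro t
      refine hinj (hU _ (hconj hr (hP.z_mem t))) (hU _ (hP.z_mem t)) ?_
      rw [hmul, hmul, hinv]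
      exact h2 t
  · intro r' hr'
    obtain ⟨r, rfl⟩ := hsurj r'
    obtain ⟨c, hc'⟩ := hP.scal r (hnmU.1 hr')
    refine ⟨c, fun t => ?_⟩
    show QuotientGroup.mk' C r * QuotientGroup.mk' C (z t) * (QuotientGroup.mk' C r)⁻¹ = _
    rw [← hinv, ← hmul, ← hmul, hc']
  · intro r' hr' c
    obtain ⟨r, rfl⟩ := hsurj r'
    have h1 := hsup (hP.cent r (hnmU.1 hr') c)
    rw [hmul, hmul, hmul, hinv, hinv] at h1
    exact h1
  · obtain ⟨w, hw, hw'⟩ := hP.w
    refine ⟨QuotientGroup.mk' C w, by rw [q_cj, hw], fun c => ?_⟩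
    show QuotientGroup.mk' C w * QuotientGroup.mk' C (hc c) * (QuotientGroup.mk' C w)⁻¹ = _
    rw [← hinv, ← hmul, ← hmul, hw']
  · rintro _ ⟨u, hu, rfl⟩ h
    rw [hP.iU u hu (hnmV.1 h), map_one]
  · rintro _ ⟨v, hv, rfl⟩ h
    rw [hP.iV v hv (hnmU.1 h), map_one]
  · intro g' h
    obtain ⟨g, rfl⟩ := hsurj g'
    obtain ⟨u, hu, h1⟩ := hP.opp g (by
      intro u hu hu'
      have h2 := h _ (Subgroup.mem_map_of_mem _ hu) (by
        rw [q_cj]
        exact q_nm_of hu')
      exact hinj (hU _ hu) pel_one (by rw [h2, map_one]))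
    exact ⟨_, Subgroup.mem_map_of_mem _ hu, by rw [q_cj, q_cj, h1]⟩
  · obtain ⟨u, hu, v, hv, h⟩ := hP.uv
    exact ⟨_, Subgroup.mem_map_of_mem _ hu, _, Subgroup.mem_map_of_mem _ hv,
      by rw [q_cj, q_cj, h]⟩
  · rw [← Subgroup.map_sup, hP.gen]
    exact Subgroup.map_top_of_surjective _ hsurj
  · obtain ⟨Q, h1, h2⟩ := hP.syl
    refine ⟨Q.mapSurjective hsurj, ?_, ?_⟩
    · rw [Sylow.coe_mapSurjective]
      exact Subgroup.map_mono h1
    · rw [Sylow.coe_mapSurjective]
      rintro _ ⟨x, hx, rfl⟩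
      exact hnmU.2 (h2 hx)
  · intro g' h
    obtain ⟨g, rfl⟩ := hsurj g'
    apply hnmU.2
    apply hP.nz
    intro t
    obtain ⟨s, hs⟩ := h t
    refine ⟨s, hinj (pel_conj (hU _ (hP.z_mem t)) g) (hU _ (hP.z_mem s)) ?_⟩
    rw [hmul, hmul, hinv]
    exact hs
  · intro O hO h1 h2
    set M : Subgroup X := O.comap (QuotientGroup.mk' C) with hM
    obtain ⟨P⟩ : Nonempty (Sylow p M) := inferInstance
    have hfs : Function.Surjective ((QuotientGroup.mk' C).subgroupComap O) :=
      MonoidHom.subgroupComap_surjective_of_surjective _ _ hsurj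
    have hPtop : ((P.mapSurjective hfs : Sylow p O) : Subgroup O) = ⊤ := by
      have h3 : IsPGroup p (⊤ : Subgroup O) := hO.to_subgroup _
      exact ((P.mapSurjective hfs).is_maximal' h3 le_top).symm
    rw [Sylow.coe_mapSurjective] at hPtop
    set O' : Subgroup X := (P : Subgroup M).map M.subtype with hO'
    have hO'p : IsPGroup p O' := P.isPGroup'.map _
    have hpel : ∀ x ∈ O', pel p x := fun x hx => pel_of hO'p hx
    have hO'M : ∀ x ∈ O', QuotientGroup.mk' C x ∈ O := by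
      rintro _ ⟨x, _, rfl⟩
      exact x.2
    have hlift : ∀ o ∈ O, ∃ x ∈ O', QuotientGroup.mk' C x = o := by
      intro o ho
      have h3 : (⟨o, ho⟩ : O) ∈ (P : Subgroup M).map ((QuotientGroup.mk' C).subgroupComap O) := by
        rw [hPtop]
        exact Subgroup.mem_top _
      obtain ⟨x, hx, h4⟩ := h3
      exact ⟨x, ⟨x, hx, rfl⟩, congrArg Subtype.val h4⟩
    have h5 : O' ≤ U := by
      apply hP.op O' hO'p
      · intro x hx
        exact hnmU.1 (h1 (hO'M x hx))
      · intro g hg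
        apply mem_nm_of_finite
        intro x hx
        have h6 := h2 (hnmU.2 hg)
        have h7 := (mem_nm'.1 h6 _).1 (hO'M x hx)
        rw [← hinv, ← hmul, ← hmul] at h7
        obtain ⟨y, hy, h8⟩ := hlift _ h7
        have h9 := hinj (hpel y hy) (pel_conj (hpel x hx) g) h8
        rw [← h9]
        exact hy
    intro o ho
    obtain ⟨x, hx, rfl⟩ := hlift o ho
    exact Subgroup.mem_map_of_mem _ (h5 hx)
  · intro φ hφ h1 h2
    have hei : Function.Injective ((QuotientGroup.mk' C).subgroupMap U) := by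
      intro a b hab
      apply Subtype.ext
      exact hinj (hU _ a.2) (hU _ b.2) (congrArg Subtype.val hab)
    set e : U ≃* U.map (QuotientGroup.mk' C) := MulEquiv.ofBijective
      ((QuotientGroup.mk' C).subgroupMap U) ⟨hei, MonoidHom.subgroupMap_surjective _ _⟩ with he
    have hev : ∀ u : U, ((e u : U.map (QuotientGroup.mk' C)) : X ⧸ C) =
      QuotientGroup.mk' C (u : X) := fun u => rfl
    set ψ : MulAut U := (MulAut.congr e).symm φ with hψ
    have hψe : ∀ u : U, e (ψ u) = φ (e u) := by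
      intro u
      show e (e.symm (φ (e u))) = _
      rw [MulEquiv.apply_symm_apply]
    have hψv : ∀ u : U, QuotientGroup.mk' C ((ψ u : U) : X) =
        ((φ (e u) : U.map (QuotientGroup.mk' C)) : X ⧸ C) := by
      intro u
      rw [← hψe, hev]
    obtain ⟨s, hs, h3, h4⟩ := hP.ts ψ (by rw [hψ, ← map_pow, hφ, map_one]) (by
      intro t
      apply e.injective
      rw [hψe]
      exact h1 t) (by
      intro r hr
      obtain ⟨r'', hr'', h5⟩ := h2 (QuotientGroup.mk' C r) (hnmU.2 hr)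
      obtain ⟨r2, rfl⟩ := hsurj r''
      refine ⟨r2, hnmU.1 hr'', fun u v huv => ?_⟩
      have h6 := h5 (e u) (e v) (by rw [hev, hev, huv, hmul, hmul, hinv])
      apply hinj (hU _ (ψ v).2) (hU _ (hconj (hnmU.1 hr'') (ψ u).2))
      rw [hmul, hmul, hinv, hψv, hψv]
      exact h6)
    refine ⟨QuotientGroup.mk' C s, hnmU.2 hs, ?_, ?_⟩
    · intro u'
      obtain ⟨u, rfl⟩ := e.surjective u'
      obtain ⟨t, ht⟩ := h3 u
      refine ⟨t, ?_⟩
      show QuotientGroup.mk' C s * ((φ (e u) : U.map (QuotientGroup.mk' C)) : X ⧸ C) *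
        (QuotientGroup.mk' C s)⁻¹ * (QuotientGroup.mk' C (u : X))⁻¹ = QuotientGroup.mk' C (z t)
      rw [← hψv, ← hinv, ← hinv, ← hmul, ← hmul, ← hmul, ht]
    · intro t
      show QuotientGroup.mk' C s * QuotientGroup.mk' C (z t) * (QuotientGroup.mk' C s)⁻¹ = _
      rw [← hinv, ← hmul, ← hmul, h4]

end Pool.Agent.Helper54.OC
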