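import Pool.Agent.Helper54.OC.Tau

/-!
# OC-09: an automorphism of order `p` normalizes a conjugate of `U`

PROOF.  `Q` as in `syl`.
* `center_syl`: `x ∈ Q` commutes with `Q` iff `x = z t` for some `t`: if it commutes with `U ≤ Q`, then it is in `U` (`faith`, with `C = ⊥`;
  `r u r⁻¹ u⁻¹ = 1 = z 0`) and `z_cen`.  Conversely `r ∈ Q` acts on `Z` by a scalar `c` (`scal`), `r^(p^n) = 1` gives `c^(p^n) = 1`, `c = 1` in characteristic `p`.
* `exists_fix`: `MulAut S` acts on `Sylow p S`; the group `zpowers α` is a `p`-group and `card (Sylow p S) ≡ 1` modulo `p` (`card_sylow_modEq_one`), so there is a fixed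
  Sylow subgroup (`IsPGroup.nonempty_fixed_point_of_prime_not_dvd_card`), it is `g Q g⁻¹`.  `β = (conj g)⁻¹ α (conj g)` maps `Q` to `Q`, so `β` maps
  `Z = {z t}` to `Z`, and `nm U = {g | g Z g⁻¹ ⊆ Z}` (`nz`, `z_conj`) to itself.  `O = β U` is a `p`-group, `O ≤ β (nm U) = nm U`,
  `nm U = β (nm U) ≤ nm O`.  By `op`, `O ≤ U`.
-/

set_option autoImplicit false
open scoped Pointwise

namespace Pool.Agent.Helper54.OC

private theorem center_syl {p : ℕ} [Fact p.Prime] {K : Type} [Field K] [CharP K p]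
    {S : Type} [Group S] [Finite S] {U V : Subgroup S} {z : K → S} {hc : Kˣ → S}
    (hP : Par p K ⊥ U V z hc) (Q : Sylow p S) (hUQ : U ≤ (Q : Subgroup S))
    (hQn : (Q : Subgroup S) ≤ nm U) (x : S) :
    (x ∈ (Q : Subgroup S) ∧ ∀ y ∈ (Q : Subgroup S), x * y = y * x) ↔ ∃ t, x = z t := by
  have z0 : z 0 = 1 := by
    have := hP.z_add 0 0
    rw [add_zero] at this
    exact (mul_eq_left.mp this.symm)
  constructor
  · rintro ⟨hx, hcom⟩
    have h1 : x ∈ U ⊔ ⊥ := by
      refine hP.faith x (hQn hx) ?_ ?_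
      · intro u hu
        refine ⟨0, ?_⟩
        rw [z0, hcom u (hUQ hu)]
        group
      · intro t
        rw [hcom _ (hUQ (hP.z_mem t))]
        group
    rw [sup_bot_eq] at h1
    exact hP.z_cen x h1 fun u' hu' => hcom u' (hUQ hu')
  · rintro ⟨t, rfl⟩
    refine ⟨hUQ (hP.z_mem t), ?_⟩
    intro r hr
    obtain ⟨c, hcc⟩ := hP.scal r (hQn hr)
    have hpow : ∀ n : ℕ, ∀ t, r ^ n * z t * (r ^ n)⁻¹ = z (c ^ n * t) := by
      intro n
      induction n with
      | zero => intro t; simp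
      | succ n ih =>
        intro t
        have e : r ^ (n + 1) * z t * (r ^ (n + 1))⁻¹ = r ^ n * (r * z t * r⁻¹) * (r ^ n)⁻¹ := by
          rw [pow_succ]; group
        rw [e, hcc, ih, pow_succ, mul_assoc]
    obtain ⟨k, hk⟩ := Q.2 ⟨r, hr⟩
    have hk' : r ^ p ^ k = 1 := by
      have := congrArg Subtype.val hk
      simpa using this
    have h1 := hpow (p ^ k) 1
    rw [hk', one_mul, inv_one, mul_one, mul_one] at h1
    have h2 : z (c ^ p ^ k - 1) = 1 := by
      have : z (c ^ p ^ k - 1) * z 1 = z 1 := by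
        rw [← hP.z_add, sub_add_cancel, ← h1]
      exact mul_eq_right.mp this
    have h3 := hP.z_inj _ h2
    have h4 : (c - 1) ^ p ^ k = 0 := by
      rw [sub_pow_char_pow, one_pow, h3]
    have h5 : c = 1 := sub_eq_zero.mp (eq_zero_of_pow_eq_zero h4)
    have h6 := hcc t
    rw [h5, one_mul] at h6
    calc z t * r = (r * z t * r⁻¹) * r := by rw [h6]
      _ = r * z t := by group

theorem exists_fix {p : ℕ} [Fact p.Prime] {K : Type} [Field K] [Finite K] [CharP K p]
    {S : Type} [Group S] [Finite S] {U V : Subgroup S} {z : K → S} {hc : Kˣ → S}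
    (hP : Par p K ⊥ U V z hc) {α : MulAut S} (hα : α ^ p = 1) :
    ∃ g : S, ∀ u ∈ U, ((MulAut.conj g)⁻¹ * α * MulAut.conj g) u ∈ U := by
  obtain ⟨Q, hUQ, hQn⟩ := hP.syl
  have hpg : IsPGroup p (Subgroup.zpowers α) := by
    rintro ⟨x, hx⟩
    obtain ⟨k, rfl⟩ := Subgroup.mem_zpowers_iff.mp hx
    refine ⟨1, ?_⟩
    apply Subtype.ext
    show (α ^ k) ^ p ^ 1 = 1
    rw [pow_one, ← zpow_natCast, ← zpow_mul, mul_comm, zpow_mul, zpow_natCast, hα, one_zpow]
  obtain ⟨R, hR⟩ := hpg.nonempty_fixed_point_of_prime_not_dvd_card (Sylow p S)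
    (not_dvd_card_sylow p S)
  have hR' : α • R = R := hR ⟨α, Subgroup.mem_zpowers α⟩
  obtain ⟨g, hg⟩ := MulAction.exists_smul_eq S Q R
  refine ⟨g, ?_⟩
  set β : MulAut S := (MulAut.conj g)⁻¹ * α * MulAut.conj g with hβ
  have βap : ∀ x, β x = g⁻¹ * α (g * x * g⁻¹) * g := by
    intro x
    rw [hβ, MulAut.mul_apply, MulAut.mul_apply, MulAut.conj_apply, ← map_inv, MulAut.conj_apply,
      inv_inv]
  have memR : ∀ x, g * x * g⁻¹ ∈ (R : Subgroup S) ↔ x ∈ (Q : Subgroup S) := by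
    intro x
    rw [← hg, Sylow.smul_def, Sylow.pointwise_smul_def, Subgroup.mem_pointwise_smul_iff_inv_smul_mem]
    have : (MulAut.conj g)⁻¹ • (g * x * g⁻¹) = x := by
      rw [← map_inv, MulAut.smul_def, MulAut.conj_apply]
      group
    rw [this]
  have memα : ∀ x, α x ∈ (R : Subgroup S) ↔ x ∈ (R : Subgroup S) := by
    intro x
    have h1 : (R : Subgroup S) = α • (R : Subgroup S) := by
      conv_lhs => rw [← hR']
      rfl
    conv_lhs => rw [h1]
    rw [Subgroup.mem_pointwise_smul_iff_inv_smul_mem]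
    have : α⁻¹ • α x = x := by
      rw [MulAut.smul_def]
      simp
    rw [this]
  have memQ : ∀ x, β x ∈ (Q : Subgroup S) ↔ x ∈ (Q : Subgroup S) := by
    intro x
    rw [← memR, ← memR x, ← memα (g * x * g⁻¹), βap]
    have : g * (g⁻¹ * α (g * x * g⁻¹) * g) * g⁻¹ = α (g * x * g⁻¹) := by group
    rw [this]
  have surj : ∀ x, ∃ y, β y = x := fun x => β.surjective x
  have memZ : ∀ x, (∃ t, β x = z t) ↔ ∃ t, x = z t := by
    intro x
    rw [← center_syl hP Q hUQ hQn, ← center_syl hP Q hUQ hQn, memQ]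
    refine and_congr_right fun _ => ?_
    constructor
    · intro h y hy
      have := h (β y) ((memQ y).mpr hy)
      rw [← map_mul, ← map_mul] at this
      exact β.injective this
    · intro h y hy
      obtain ⟨y', rfl⟩ := surj y
      rw [← map_mul, ← map_mul, h y' ((memQ y').mp hy)]
  have memN : ∀ x, β x ∈ nm U ↔ x ∈ nm U := by
    intro x
    constructor
    · intro hx
      refine hP.nz x fun t => ?_
      obtain ⟨t', ht'⟩ := (memZ (z t)).mpr ⟨t, rfl⟩
      obtain ⟨s, hs⟩ := hP.z_conj hx t'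
      rw [← memZ]
      refine ⟨s, ?_⟩
      rw [map_mul, map_mul, map_inv, ht', hs]
    · intro hx
      refine hP.nz _ fun t => ?_
      obtain ⟨y, hy⟩ := surj (z t)
      obtain ⟨t', ht'⟩ := (memZ y).mp ⟨t, hy⟩
      obtain ⟨s, hs⟩ := hP.z_conj hx t'
      obtain ⟨s', hs'⟩ := (memZ (z s)).mpr ⟨s, rfl⟩
      refine ⟨s', ?_⟩
      rw [← hy, ht', ← map_inv, ← map_mul, ← map_mul, hs, hs']
  have hO := hP.op (U.map β.toMonoidHom) (hP.pU.map _) ?_ ?_
  · intro u hu
    exact hO ⟨u, hu, rfl⟩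
  · rintro _ ⟨u, hu, rfl⟩
    exact (memN u).mpr (le_nm U hu)
  · intro x hx
    refine mem_nm_of_finite ?_
    rintro _ ⟨u, hu, rfl⟩
    obtain ⟨y, rfl⟩ := surj x
    have hy := (memN y).mp hx
    refine ⟨y * u * y⁻¹, (mem_nm'.mp hy u).mp hu, ?_⟩
    show β (y * u * y⁻¹) = β y * β u * (β y)⁻¹
    rw [map_mul, map_mul, map_inv]

end Pool.Agent.Helper54.OC
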