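import Pool.Agent.Helper54.OC.Field
import Pool.Agent.Helper54.OC.Inner
import Pool.Agent.Helper54.OC.Syl
import Pool.Agent.Helper54.OC.Quot
import Pool.Agent.Helper54.AN.Inner

/-!
# OC-11: `AA k α` for all automorphisms `α` of order `p`

PROOF.
* `aa_conj`: `γ = conj g`; the automorphism `x ↦ γ x γ⁻¹` of `MulAut S` maps `range conj ⊔ zpowers β` to `range conj ⊔ zpowers (γ β γ⁻¹)`
  (both contain `γ`, so it maps `range conj ⊔ zpowers β` to itself); `ra_iso`.
* `aa_par`: by `exists_fix` and `aa_conj` we may assume `α U ≤ U`.  `exists_tau`.  If `τ ≠ 1`: `aa_field`.  If `τ t = t` for all `t`: `α (z t) = z (l t)`, `α^p = 1`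
  gives `l^p = 1`, so `l = 1` (characteristic `p`).  `φ` = restriction of `α` to `U` (`φ^p = 1`), `ts` with `r' = α r`: `s ∈ nm U`.  `α' = conj s * α` satisfies
  the hypotheses of `inner_of_triv`, so `α' = conj s'` and `α = conj (s⁻¹ s')`; `MulAut.conj` is injective, so `orderOf (s⁻¹ s') = p`;
  `aa_of_inner` (AN/Inner.lean) and `hwin`.
* `aa_par_quot`: `par_quot`, `aa_par`; transport along `e`: `ra_aut` (RT/Bridge.lean).
-/

set_option autoImplicit false
open scoped Pointwise
open Pool.Agent.Helper54.PW Pool.Agent.Helper54.RT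

namespace Pool.Agent.Helper54.OC

theorem aa_conj {k : Type} [Field k] {S : Type} [Group S] (g : S) (β : MulAut S)
    (h : AA k β) : AA k (MulAut.conj g * β * (MulAut.conj g)⁻¹) := by
  refine (ra_aut (MulAut.conj g) β (MulAut.conj g * β * (MulAut.conj g)⁻¹) ?_).1 h
  intro x
  rw [MulAut.mul_apply, MulAut.mul_apply, MulAut.inv_apply_self]

private theorem ocp_conj_inj {S : Type} [Group S] (hcen : Subgroup.center S = ⊥) :
    Function.Injective (MulAut.conj : S →* MulAut S) := by
  intro x y hxy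
  have h1 : y⁻¹ * x ∈ Subgroup.center S := by
    rw [Subgroup.mem_center_iff]
    intro g
    have h2 : MulAut.conj x g = MulAut.conj y g := by rw [hxy]
    rw [MulAut.conj_apply, MulAut.conj_apply] at h2
    have h3 : x * g = y * g * y⁻¹ * x := by rw [← h2]; group
    calc g * (y⁻¹ * x) = y⁻¹ * (y * g * y⁻¹ * x) := by group
      _ = y⁻¹ * (x * g) := by rw [h3]
      _ = y⁻¹ * x * g := by group
  rw [hcen, Subgroup.mem_bot] at h1
  exact (inv_mul_eq_one.1 h1).symm

section
variable {p : ℕ} [Fact p.Prime] (hp5 : 5 ≤ p) {k : Type} [Field k] [IsAlgClosed k]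
  [CharP k p] {K : Type} [Field K] [Finite K] [CharP K p]
include hp5

private theorem ocp_fix {S : Type} [Group S] [Finite S]
    (hcen : Subgroup.center S = ⊥) {U V : Subgroup S} {z : K → S} {hc : Kˣ → S}
    (hP : Par p K ⊥ U V z hc) (hwin : ∀ s : S, orderOf s = p → RealAct k (Subgroup.zpowers s))
    {α : MulAut S} (hα : orderOf α = p) (hαU : ∀ u ∈ U, α u ∈ U) : AA k α := by
  have hp1 : α ^ p = 1 := by rw [← hα]; exact pow_orderOf_eq_one α
  obtain ⟨τ, l, hl, hz, hh, hn⟩ := exists_tau hP α hαU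
  by_cases hτ : ∃ t, τ t ≠ t
  · exact aa_field (by omega) hcen hP hα hαU hτ (hn p hp1) hh
  push Not at hτ
  have hz' : ∀ t, α (z t) = z (l * t) := fun t => by rw [hz, hτ]
  have hpow : ∀ n : ℕ, ∀ t, (α ^ n) (z t) = z (l ^ n * t) := by
    intro n
    induction n with
    | zero => intro t; rw [pow_zero, pow_zero, one_mul]; rfl
    | succ n ih =>
      intro t
      rw [pow_succ, MulAut.mul_apply, hz', ih, pow_succ, mul_assoc]
  have hl1 : l = 1 := by
    have h1 := hpow p 1
    rw [hp1, MulAut.one_apply, mul_one] at h1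
    have h2 : z (l ^ p - 1) = 1 := by
      have h3 : z (l ^ p - 1) * z 1 = z 1 := by rw [← hP.z_add, sub_add_cancel, ← h1]
      exact mul_eq_right.mp h3
    have h3 := hP.z_inj _ h2
    have h4 : (l - 1) ^ p = 0 := by rw [sub_pow_char, one_pow, h3]
    exact sub_eq_zero.1 (eq_zero_of_pow_eq_zero h4)
  have hzz : ∀ t, α (z t) = z t := fun t => by rw [hz', hl1, one_mul]
  let f : U →* U := (((α : S ≃* S).toMonoidHom).comp U.subtype).codRestrict U
    (fun u => hαU u.1 u.2)
  have hfi : Function.Injective f := fun x y hxy =>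
    Subtype.ext (α.injective (congrArg Subtype.val hxy))
  have hf : Function.Bijective f := Finite.injective_iff_bijective.1 hfi
  obtain ⟨φ, hφ⟩ : ∃ φ : MulAut U, ∀ u : U, ((φ u : U) : S) = α u :=
    ⟨MulEquiv.ofBijective f hf, fun u => rfl⟩
  have hsurj : ∀ u ∈ U, ∃ u' ∈ U, α u' = u := by
    intro u hu
    obtain ⟨y, hy⟩ := hf.2 ⟨u, hu⟩
    exact ⟨y.1, y.2, congrArg Subtype.val hy⟩
  have hφn : ∀ (n : ℕ) (u : U), (((φ ^ n) u : U) : S) = (α ^ n) u := by
    intro n
    induction n with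
    | zero => intro u; rw [pow_zero, pow_zero]; rfl
    | succ n ih =>
      intro u
      rw [pow_succ, pow_succ, MulAut.mul_apply, MulAut.mul_apply, ih, hφ]
  have hφp : φ ^ p = 1 := by
    ext u
    rw [hφn, hp1]
    rfl
  obtain ⟨s, hs, hsu, hst⟩ := hP.ts φ hφp (fun t => Subtype.ext (by rw [hφ]; exact hzz t)) (by
    intro r hr
    refine ⟨α r, ?_, ?_⟩
    · refine mem_nm_of_finite fun u hu => ?_
      obtain ⟨u', hu', rfl⟩ := hsurj u hu
      rw [← map_inv, ← map_mul, ← map_mul]
      exact hαU _ ((mem_nm'.1 hr u').1 hu')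
    · intro u v huv
      rw [hφ, hφ, huv, map_mul, map_mul, map_inv])
  obtain ⟨s', hs'⟩ := inner_of_triv hp5 hP (α := MulAut.conj s * α) (by
    intro u hu
    obtain ⟨t, ht⟩ := hsu ⟨u, hu⟩
    refine ⟨t, ?_⟩
    rw [hφ] at ht
    rw [MulAut.mul_apply, MulAut.conj_apply]
    exact ht) (by
    intro t
    rw [MulAut.mul_apply, MulAut.conj_apply, hzz]
    exact hst t)
  have h1 : α = MulAut.conj (s⁻¹ * s') := by
    rw [map_mul, map_inv, ← hs']
    group
  rw [h1] at hα ⊢
  refine aa_of_inner hcen _ (hwin _ ?_)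
  rw [← hα]
  exact (orderOf_injective (MulAut.conj : S →* MulAut S) (ocp_conj_inj hcen) _).symm

theorem aa_par {S : Type} [Group S] [Finite S]
    (hcen : Subgroup.center S = ⊥) {U V : Subgroup S} {z : K → S} {hc : Kˣ → S}
    (hP : Par p K ⊥ U V z hc) (hwin : ∀ s : S, orderOf s = p → RealAct k (Subgroup.zpowers s))
    {α : MulAut S} (hα : orderOf α = p) : AA k α := by
  have hp1 : α ^ p = 1 := by rw [← hα]; exact pow_orderOf_eq_one α
  obtain ⟨g, hg⟩ := exists_fix hP hp1
  obtain ⟨β, hβ⟩ : ∃ β : MulAut S, β = (MulAut.conj g)⁻¹ * α * MulAut.conj g := ⟨_, rfl⟩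
  rw [← hβ] at hg
  have hαβ : α = MulAut.conj g * β * (MulAut.conj g)⁻¹ := by rw [hβ]; group
  have hβo : orderOf β = p := by
    have h1 := orderOf_injective (MulAut.conj (MulAut.conj g)).toMonoidHom
      (MulAut.conj (MulAut.conj g)).injective β
    rw [← h1, ← hα, hαβ]
    rfl
  rw [hαβ]
  exact aa_conj g β (ocp_fix hp5 hcen hP hwin hβo hg)

/-- the form which is used: `S ≃ X / C` with trivial center -/
theorem aa_par_quot {X : Type} [Group X] [Finite X] {C U V : Subgroup X} [C.Normal] {z : K → X}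
    {hc : Kˣ → X} (hP : Par p K C U V z hc) {S : Type} [Group S] [Finite S]
    (hcen : Subgroup.center S = ⊥) (e : S ≃* X ⧸ C)
    (hwin : ∀ s : X ⧸ C, orderOf s = p → RealAct k (Subgroup.zpowers s)) {α : MulAut S}
    (hα : orderOf α = p) : AA k α := by
  have hcen' : Subgroup.center (X ⧸ C) = ⊥ := by
    rw [eq_bot_iff]
    intro x hx
    rw [Subgroup.mem_center_iff] at hx
    have h1 : e.symm x ∈ Subgroup.center S := by
      rw [Subgroup.mem_center_iff]
      intro g
      apply e.injective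
      rw [map_mul, map_mul, e.apply_symm_apply]
      exact hx _
    rw [hcen, Subgroup.mem_bot] at h1
    rw [Subgroup.mem_bot, ← e.apply_symm_apply x, h1, map_one]
  obtain ⟨α', hα'⟩ : ∃ α' : MulAut (X ⧸ C), α' = MulAut.congr e α := ⟨_, rfl⟩
  have h1 : ∀ g, e (α g) = α' (e g) := by
    intro g
    rw [hα']
    show e (α g) = e (α (e.symm (e g)))
    rw [e.symm_apply_apply]
  have h2 : orderOf α' = p := by
    rw [hα', ← hα]
    exact orderOf_injective (MulAut.congr e).toMonoidHom (MulAut.congr e).injective α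
  exact (ra_aut e α α' h1).2 (aa_par hp5 hcen' (par_quot hP) hwin h2)

end

end Pool.Agent.Helper54.OC
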