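import Pool.Agent.Helper54.OC.PtDefs

/-!
# OC-20: symplectic and unitary groups, the stabilizer of an isotropic point, second part

PROOF.
* `pt_faith`: `c σ c = 1` (`pt_act_z` for `t = 1`; `x ≠ 0`, `κ ≠ 0`) and `σ c • p1 (r a) = a` for all `a ⊥ x, y` (`pt_act`, `pt_surj`).  `g = c⁻¹ r` is an isometry,
  `g x = x`, `g a ∈ a + ⟨x⟩`: `g ∈ UU x` (`mem_UU`; a vector `v ⊥ x` is `p1 v + α x`).
* `pt_cent`: `mem_UU`; `π (dg c')` maps `x` to `c' x` and `v ⊥ x` into `v + ⟨x⟩`; `r` maps `x^⊥` to `x^⊥`.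
* `pt_opp`: if `B x (g x) = 0`, then `u = π (up 1)` fixes `g x` and is not `1`.  So `B x (g x) ≠ 0`; `UU_trans`.
* `pt_uv`: `π (up 1) y = y + κ x`, `π (lo 1) x = x + κ⁻¹ y`.
* `pt_syl`: `Q ≠ 1`.  Let `Y` be the span of all `q v - v`, `q ∈ Q`.  It is invariant under `Q` (`q' (q v - v) = (q' q v - v) - (q' v - v)`) and not zero, so it contains a vector
  `z ≠ 0` fixed by the `p`-group `Q` (`IsPGroup.exists_fixed_point_of_prime_dvd_card_of_fixed_point`).  `z ⊥ Y` (`fixed_perp`), so `B z z = 0`.  `π (up 1) z = z`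
  gives `B x z = 0`; `E x a t z = z` for all `a ⊥ x, y` gives `B a z = 0`, so `p1 x y z = 0` and `z ∈ ⟨x⟩`.
* `pt_op`: `o x = c x` with `c^(p^n) = 1`, `c = 1` in characteristic `p`.  `Ō` = the image of `O` under `psi` (CL/Restr.lean), a `p`-group of isometries of `perp2 x y`
  (form `restr`).  If it is trivial, then `O ≤ UU x` (`psi_ker`).  Otherwise there is as in `pt_syl` an isotropic vector `z ≠ 0` of `perp2 x y` fixed by `Ō`;
  let `Pair z w` in `perp2 x y` (`exists_partner` for `restr`).  `Y = {v ∈ perp2 | Ō v = v}` is a subspace; it is invariant under `psi g`, `g = ext g1`,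
  `g1 ∈ (restr).GG p` (`O` is normalized by `g = ext g1 ∈ GG`, `g x = x`).  `E w 0 κ ∈ UU w`, `z + κ ε w ∈ Y`, so `w ∈ Y`.  For `a ⊥ z, w` and `Adm a t`:
  `E w a t z = z + ε a + t ε w ∈ Y`, so `a ∈ Y`.  So `Y = perp2 x y`, and `Ō = 1`, a contradiction.
* `pt_card`: a central element of `GG p` is a scalar `c` (`gg_center`); if its order is `p`, `c^p = 1`, `c = 1`.  (Cauchy.)
-/

set_option autoImplicit false

namespace Pool.Agent.Helper54.OC

open Pool.Agent.Helper54.CL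

section
variable {p : ℕ} [Fact p.Prime] {F V : Type} [Field F] [AddCommGroup V] [Module F V]

private theorem ptp_one [CharP F p] {c : F} {n : ℕ} (hc : c ^ p ^ n = 1) : c = 1 := by
  have h1 : (c - 1) ^ p ^ n = 0 := by
    rw [sub_pow_char_pow, hc, one_pow, sub_self]
  exact sub_eq_zero.1 (pow_eq_zero_iff (pow_ne_zero n (Fact.out : p.Prime).ne_zero) |>.1 h1)

private theorem ptp_pow {g : V ≃ₗ[F] V} {x : V} {c : F} (hx : g x = c • x) (n : ℕ) :
    (g ^ n) x = c ^ n • x := by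
  induction n with
  | zero => simp
  | succ n ih =>
    rw [pow_succ']
    show g ((g ^ n) x) = _
    rw [ih, map_smul, hx, smul_smul, pow_succ]

/-- a `p`-group of isometries which is not trivial has an isotropic fixed vector -/
private theorem ptp_fixed [CharP F p] [Finite V] (h : HF F V) {Q : Subgroup (V ≃ₗ[F] V)}
    (hQ : IsPGroup p Q) (hQI : Q ≤ h.Iso) (hne : ∃ q ∈ Q, q ≠ 1) :
    ∃ z : V, z ≠ 0 ∧ h.B z z = 0 ∧ ∀ q ∈ Q, q z = z := by
  let Y : Submodule F V := Submodule.span F {w | ∃ q ∈ Q, ∃ v, w = q v - v}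
  have hY : ∀ q ∈ Q, ∀ v ∈ Y, q v ∈ Y := by
    intro q hq v hv
    induction hv using Submodule.span_induction with
    | mem w hw =>
      obtain ⟨q', hq', v', rfl⟩ := hw
      have e1 : q (q' v' - v') = ((q * q') v' - v') - (q v' - v') := by
        rw [map_sub]
        show q (q' v') - q v' = (q (q' v') - v') - (q v' - v')
        abel
      rw [e1]
      exact Submodule.sub_mem _ (Submodule.subset_span ⟨q * q', Q.mul_mem hq hq', v', rfl⟩)
        (Submodule.subset_span ⟨q, hq, v', rfl⟩)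
    | zero => rw [map_zero]; exact Submodule.zero_mem _
    | add a b _ _ ha hb => rw [map_add]; exact Submodule.add_mem _ ha hb
    | smul c a _ ha => rw [map_smul]; exact Submodule.smul_mem _ _ ha
  let _ : MulAction Q Y :=
    { smul := fun q v => ⟨(q : V ≃ₗ[F] V) (v : V), hY q q.2 v v.2⟩
      one_smul := fun v => Subtype.ext rfl
      mul_smul := fun a b v => Subtype.ext rfl }
  obtain ⟨q, hq, hq1⟩ := hne
  obtain ⟨v, hv⟩ : ∃ v, q v ≠ v := by
    by_contra hcon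
    push Not at hcon
    exact hq1 (LinearEquiv.ext hcon)
  have hcard : p ∣ Nat.card Y := by
    let y : Y := ⟨q v - v, Submodule.subset_span ⟨q, hq, v, rfl⟩⟩
    have hy : y ≠ 0 := by
      intro h0
      have h1 : q v - v = 0 := congrArg Subtype.val h0
      exact hv (sub_eq_zero.1 h1)
    have hy2 : p • y = 0 := by
      rw [← Nat.cast_smul_eq_nsmul F, CharP.cast_eq_zero, zero_smul]
    rw [← addOrderOf_eq_prime hy2 hy]
    exact addOrderOf_dvd_natCard y
  obtain ⟨z, hz, hz0⟩ := hQ.exists_fixed_point_of_prime_dvd_card_of_fixed_point Y hcard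
    (a := (0 : Y)) (fun q => Subtype.ext (map_zero (q : V ≃ₗ[F] V)))
  have hzq : ∀ q ∈ Q, q (z : V) = z := fun q hq => congrArg Subtype.val (hz ⟨q, hq⟩)
  have hzY : ∀ v ∈ Y, h.B (z : V) v = 0 := by
    intro v hv
    induction hv using Submodule.span_induction with
    | mem w hw =>
      obtain ⟨q', hq', v', rfl⟩ := hw
      exact h.fixed_perp (hQI hq') (hzq q' hq') v'
    | zero => exact h.zero_right _
    | add a b _ _ ha hb => rw [h.add_right, ha, hb, add_zero]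
    | smul c a _ ha => rw [h.smul_right, ha, mul_zero]
  exact ⟨z, fun h0 => hz0 (Subtype.ext h0.symm), hzY _ z.2, hzq⟩

end

section
variable {p : ℕ} [Fact p.Prime] {F V : Type} [Field F] [Finite F] [CharP F p] [AddCommGroup V]
  [Module F V] [Finite V] {h : HF F V} {x y : V} {κ : F}
  {π : Matrix.SpecialLinearGroup (Fin 2) h.F0 →* (V ≃ₗ[F] V)}

omit [Finite F] [Finite V] in
private theorem ptp_dec (x y v : V) :
    v = h.p1 x y v + (h.ε * h.B y v) • x + h.B x v • y := by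
  unfold HF.p1
  module

omit [Fact p.Prime] [Finite F] [CharP F p] [Finite V] in
private theorem ptp_up_y (hD : PtD h p x y κ π) (t : h.F0) :
    π (up t) y = y + ((t : F) * κ) • x := by
  rw [pt_up hD, hD.pair.xy, mul_one]

theorem pt_faith (hp3 : 3 ≤ p) (hD : PtD h p x y κ π) {r : V ≃ₗ[F] V} (hr : r ∈ h.Iso) {c : F}
    (hx : r x = c • x) (h1 : ∀ u ∈ h.UU x, pa h x y (r * u * r⁻¹) = pa h x y u)
    (h2 : ∀ t, r * π (up t) * r⁻¹ = π (up t)) :
    ∃ u ∈ h.UU x, ∃ l : F, l ≠ 0 ∧ ∀ v, r v = l • u v := by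
  have hx0 := hD.pair.x_ne
  obtain ⟨s, hs, hs2⟩ := pt_act_z hD hr hx 1
  have hs1 : c * h.σ c = 1 := by
    rw [h2] at hs2
    have h3 : π (up 1) y = π (up s) y := by rw [hs2]
    rw [ptp_up_y hD, ptp_up_y hD] at h3
    have h4 : (((1 : h.F0) : F) * κ - (s : F) * κ) • x = 0 := by
      rw [sub_smul]
      exact sub_eq_zero.2 (add_left_cancel h3)
    rcases smul_eq_zero.1 h4 with h5 | h5
    · rw [← sub_mul] at h5
      rcases mul_eq_zero.1 h5 with h6 | h6
      · have h7 : ((1 : h.F0) : F) = 1 := rfl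
        rw [h7] at h6 hs
        rw [mul_one] at hs
        rw [← hs]
        exact (sub_eq_zero.1 h6).symm
      · exact absurd h6 hD.k0
    · exact absurd h5 hx0
  have hc0 : c ≠ 0 := by
    rintro rfl
    rw [zero_mul] at hs1
    exact zero_ne_one hs1
  have hsc0 : h.σ c ≠ 0 := (map_ne_zero h.σ).2 hc0
  have hsc : h.σ c⁻¹ = c := by
    rw [map_inv₀]
    exact inv_eq_of_mul_eq_one_left hs1
  have hact : ∀ a, h.B x a = 0 → h.B y a = 0 → h.σ c • h.p1 x y (r a) = a := by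
    intro a ha hb
    obtain ⟨u, hu, hua⟩ := pt_surj hp3 hD ha hb
    have h3 := pt_act hD hr hx hu
    rw [h1 u hu, hua] at h3
    exact h3.symm
  have hg : ∀ v, (LinearEquiv.smulOfNeZero F V c⁻¹ (inv_ne_zero hc0) * r) v = c⁻¹ • r v :=
    fun v => rfl
  refine ⟨LinearEquiv.smulOfNeZero F V c⁻¹ (inv_ne_zero hc0) * r, ⟨?_, ?_, ?_⟩, c, hc0, ?_⟩
  · intro v w
    rw [hg, hg, h.smul_left, h.smul_right, hr, hsc, ← mul_assoc, mul_inv_cancel₀ hc0, one_mul]
  · rw [hg, hx, smul_smul, inv_mul_cancel₀ hc0, one_smul]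
  · intro v hv
    have hrx : ∀ a, h.B x a = 0 → h.B x (r a) = 0 := by
      intro a ha
      have h3 := hr x a
      rw [hx, h.smul_left, ha] at h3
      rcases mul_eq_zero.1 h3 with h4 | h4
      · exact absurd h4 hsc0
      · exact h4
    have e1 := hact (h.p1 x y v) (h.p1_x hD.pair v) (h.p1_y hD.pair v)
    have e2 := ptp_dec (h := h) x y (r (h.p1 x y v))
    rw [hrx _ (h.p1_x hD.pair v), zero_smul, add_zero] at e2
    have e3 : h.p1 x y (r (h.p1 x y v)) = c • h.p1 x y v := by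
      conv_rhs => rw [← e1]
      rw [smul_smul, hs1, one_smul]
    rw [e3] at e2
    have e4 := ptp_dec (h := h) x y v
    rw [hv, zero_smul, add_zero] at e4
    obtain ⟨m, hm⟩ : ∃ m, m = h.ε * h.B y (r (h.p1 x y v)) := ⟨_, rfl⟩
    obtain ⟨n, hn⟩ : ∃ n, n = h.ε * h.B y v := ⟨_, rfl⟩
    obtain ⟨v1, hv1⟩ : ∃ v1, v1 = h.p1 x y v := ⟨_, rfl⟩
    rw [← hm, ← hv1] at e2
    rw [← hn, ← hv1] at e4
    refine ⟨c⁻¹ * m, ?_⟩
    rw [hg, e4, map_add, map_smul, hx, e2, smul_add, smul_add, smul_smul c⁻¹ c,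
      inv_mul_cancel₀ hc0, one_smul, smul_smul, smul_smul, smul_smul]
    have e5 : c⁻¹ * n * c = n := by field_simp
    rw [e5]
    abel
  · intro v
    rw [hg, smul_smul, mul_inv_cancel₀ hc0, one_smul]

theorem pt_cent (hD : PtD h p x y κ π) {r : V ≃ₗ[F] V} (hr : r ∈ h.Iso) {c : F}
    (hx : r x = c • x) (c' : (h.F0)ˣ) : π (dg c') * r * (π (dg c'))⁻¹ * r⁻¹ ∈ h.UU x := by
  have hx0 := hD.pair.x_ne
  have hc0 : c ≠ 0 := by
    rintro rfl
    rw [zero_smul] at hx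
    exact hx0 (r.map_eq_zero_iff.1 hx)
  have hsc0 : h.σ c ≠ 0 := (map_ne_zero h.σ).2 hc0
  have hDI : π (dg c') ∈ h.Iso := h.GG_le p (hD.le ⟨_, rfl⟩)
  have hr1 : ∀ v, r (r⁻¹ v) = v := fun v => r.apply_symm_apply v
  have hr2 : ∀ v, r⁻¹ (r v) = v := fun v => r.symm_apply_apply v
  have hD1 : ∀ v, π (dg c') ((π (dg c'))⁻¹ v) = v := fun v => (π (dg c')).apply_symm_apply v
  have hD2 : ∀ v, (π (dg c'))⁻¹ (π (dg c') v) = v := fun v => (π (dg c')).symm_apply_apply v
  have e2 := h.eps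
  obtain ⟨d, hd⟩ : ∃ d : F, d = ((c' : h.F0) : F) := ⟨_, rfl⟩
  have hd0 : d ≠ 0 := by
    rw [hd]
    intro h0
    exact c'.ne_zero (Subtype.ext h0)
  have hDx : π (dg c') x = d • x := by
    rw [pt_dg hD, hD.pair.xx, hD.pair.yx, e2, mul_zero, zero_smul, add_zero, ← hd]
    module
  have hDx' : (π (dg c'))⁻¹ x = d⁻¹ • x := by
    rw [← hD2 (d⁻¹ • x), map_smul, hDx, smul_smul, inv_mul_cancel₀ hd0, one_smul]
  have hrx' : r⁻¹ x = c⁻¹ • x := by
    rw [← hr2 (c⁻¹ • x), map_smul, hx, smul_smul, inv_mul_cancel₀ hc0, one_smul]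
  have hDv : ∀ v, h.B x v = 0 → ∃ α : F, π (dg c') v = v + α • x := by
    intro v hv
    have h3 := pt_dg hD c' v
    rw [hv, mul_zero, zero_smul, add_zero] at h3
    exact ⟨_, h3⟩
  have hDv' : ∀ v, h.B x v = 0 → ∃ α : F, (π (dg c'))⁻¹ v = v + α • x := by
    intro v hv
    obtain ⟨α, hα⟩ := hDv v hv
    refine ⟨- (α * d⁻¹), ?_⟩
    have h3 : v = π (dg c') (v + (- (α * d⁻¹)) • x) := by
      rw [map_add, map_smul, hα, hDx, smul_smul]
      have : -(α * d⁻¹) * d = - α := by field_simp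
      rw [this]
      module
    conv_lhs => rw [h3]
    rw [hD2]
  refine ⟨h.Iso.mul_mem (h.Iso.mul_mem (h.Iso.mul_mem hDI hr) (h.Iso.inv_mem hDI))
    (h.Iso.inv_mem hr), ?_, ?_⟩
  · show π (dg c') (r ((π (dg c'))⁻¹ (r⁻¹ x))) = x
    rw [hrx', map_smul, hDx', map_smul, map_smul, map_smul, map_smul, hx, map_smul, hDx,
      smul_smul, smul_smul, smul_smul]
    have : c⁻¹ * d⁻¹ * c * d = 1 := by field_simp
    rw [this, one_smul]
  · intro v hv
    have hw : h.B x (r⁻¹ v) = 0 := by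
      have h3 := hr x (r⁻¹ v)
      rw [hr1, hx, h.smul_left, hv, mul_zero] at h3
      exact h3.symm
    obtain ⟨α, hα⟩ := hDv' _ hw
    obtain ⟨β, hβ⟩ := hDv v hv
    refine ⟨β + α * c * d, ?_⟩
    show π (dg c') (r ((π (dg c'))⁻¹ (r⁻¹ v))) = _
    rw [hα, map_add, hr1, map_smul, hx, map_add, map_smul, map_smul, hDx, hβ]
    module

theorem pt_opp (hD : PtD h p x y κ π) {g : V ≃ₗ[F] V} (hg : g ∈ h.Iso)
    (hu : ∀ u ∈ h.UU x, (∃ c : F, u (g x) = c • g x) → u = 1) :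
    ∃ u ∈ h.UU x, ∃ c : F, c ≠ 0 ∧ u y = c • g x := by
  have hx0 := hD.pair.x_ne
  have h1 : h.B x (g x) ≠ 0 := by
    intro h0
    have h2 := hu _ (pt_up_mem hD 1) ⟨1, by rw [pt_up hD, h0, mul_zero, zero_smul, add_zero,
      one_smul]⟩
    have h3 := ptp_up_y hD 1
    rw [h2] at h3
    have h4 : (1 : V ≃ₗ[F] V) y = y := rfl
    rw [h4, left_eq_add] at h3
    rcases smul_eq_zero.1 h3 with h5 | h5
    · have h7 : ((1 : h.F0) : F) = 1 := rfl
      rw [h7, one_mul] at h5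
      exact hD.k0 h5
    · exact hx0 h5
  exact h.UU_trans hD.pair (by rw [hg, hD.pair.xx]) h1

theorem pt_uv (hD : PtD h p x y κ π) : π (up 1) y = κ • π (lo 1) x := by
  have e2 := h.eps
  have h7 : ((1 : h.F0) : F) = 1 := rfl
  rw [ptp_up_y hD, pt_lo hD, hD.pair.yx, e2, h7, smul_add, smul_smul, one_mul, one_mul, mul_one,
    mul_inv_cancel₀ hD.k0, one_smul, add_comm]

theorem pt_syl (hp3 : 3 ≤ p) (hD : PtD h p x y κ π) {Q : Subgroup (V ≃ₗ[F] V)}
    (hQ : IsPGroup p Q) (hQI : Q ≤ h.Iso) (hUQ : h.UU x ≤ Q) : ∀ q ∈ Q, q x = x := by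
  have hx0 := hD.pair.x_ne
  have h7 : ((1 : h.F0) : F) = 1 := rfl
  have hne : ∃ q ∈ Q, q ≠ 1 := by
    refine ⟨_, hUQ (pt_up_mem hD 1), ?_⟩
    intro h2
    have h3 := ptp_up_y hD 1
    rw [h2] at h3
    have h4 : (1 : V ≃ₗ[F] V) y = y := rfl
    rw [h4, left_eq_add] at h3
    rcases smul_eq_zero.1 h3 with h5 | h5
    · rw [h7, one_mul] at h5
      exact hD.k0 h5
    · exact hx0 h5
  obtain ⟨z, hz0, hzz, hz⟩ := ptp_fixed h hQ hQI hne
  have hxz : h.B x z = 0 := by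
    have h1 := hz _ (hUQ (pt_up_mem hD 1))
    rw [pt_up hD, h7, one_mul, add_eq_left] at h1
    rcases smul_eq_zero.1 h1 with h5 | h5
    · exact (mul_eq_zero.1 h5).resolve_left hD.k0
    · exact absurd h5 hx0
  have haz : ∀ a, h.B x a = 0 → h.B y a = 0 → h.B a z = 0 := by
    intro a ha hb
    obtain ⟨t, ht⟩ := h.adm_exists (HF.two_ne hp3) a
    obtain ⟨u, hu, hu2⟩ := h.exists_E hD.pair.xx ha ht
    have h1 := hz u (hUQ hu)
    rw [hu2] at h1
    unfold HF.E at h1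
    rw [hxz, mul_zero, zero_smul, zero_smul, add_zero, add_zero, sub_eq_self] at h1
    rcases smul_eq_zero.1 h1 with h5 | h5
    · exact (mul_eq_zero.1 h5).resolve_left h.eps_ne
    · exact absurd h5 hx0
  have hp1 : h.p1 x y z = 0 := by
    have h1 := h.perp2_nondeg hD.pair ⟨h.p1 x y z, h.p1_x hD.pair z, h.p1_y hD.pair z⟩ ?_
    · exact congrArg Subtype.val h1
    · intro w
      apply h.B_symm_zero
      show h.B (w : V) (h.p1 x y z) = 0
      unfold HF.p1
      rw [h.sub_right, h.sub_right, h.smul_right, h.smul_right, haz _ w.2.1 w.2.2,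
        h.B_symm_zero w.2.1, h.B_symm_zero w.2.2]
      ring
  have hzx := ptp_dec (h := h) x y z
  rw [hp1, hxz, zero_smul, add_zero, zero_add] at hzx
  have hb0 : h.ε * h.B y z ≠ 0 := by
    intro h0
    rw [h0, zero_smul] at hzx
    exact hz0 hzx
  intro q hq
  have h1 := hz q hq
  rw [hzx, map_smul] at h1
  exact smul_right_injective V hb0 h1

theorem pt_op (hp3 : 3 ≤ p) (hD : PtD h p x y κ π) {O : Subgroup (V ≃ₗ[F] V)}
    (hO : IsPGroup p O) (hOG : O ≤ h.GG p) (h1 : ∀ o ∈ O, ∃ c : F, o x = c • x)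
    (h2 : ∀ g ∈ h.GG p, (∃ c : F, g x = c • x) → ∀ o ∈ O, g * o * g⁻¹ ∈ O) : O ≤ h.UU x := by
  have hx0 := hD.pair.x_ne
  have hp := hD.pair
  have h22 : (2 : F) ≠ 0 := HF.two_ne hp3
  have hfix : ∀ o ∈ O, o x = x := by
    intro o ho
    obtain ⟨c, hc⟩ := h1 o ho
    obtain ⟨n, hn⟩ := hO ⟨o, ho⟩
    have hn' : o ^ p ^ n = 1 := congrArg Subtype.val hn
    have h3 := ptp_pow hc (p ^ n)
    rw [hn'] at h3
    have h4 : (1 : V ≃ₗ[F] V) x = x := rfl
    rw [h4] at h3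
    have h5 : c ^ p ^ n = 1 := by
      have h6 : (1 - c ^ p ^ n) • x = 0 := by rw [sub_smul, one_smul, ← h3, sub_self]
      rcases smul_eq_zero.1 h6 with h7 | h7
      · exact (sub_eq_zero.1 h7).symm
      · exact absurd h7 hx0
    rw [hc, ptp_one h5, one_smul]
  have hst : ∀ o ∈ O, o ∈ h.stabX x := fun o ho => ⟨h.GG_le p (hOG ho), hfix o ho⟩
  let Ob : Subgroup (h.perp2 x y ≃ₗ[F] h.perp2 x y) :=
    (O.subgroupOf (h.stabX x)).map (h.psi hp)
  have hObm : ∀ o : h.stabX x, (o : V ≃ₗ[F] V) ∈ O → h.psi hp o ∈ Ob := fun o ho =>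
    ⟨o, Subgroup.mem_subgroupOf.2 ho, rfl⟩
  have hOb1 : IsPGroup p Ob := by
    rintro ⟨_, o, ho, rfl⟩
    obtain ⟨n, hn⟩ := hO ⟨(o : V ≃ₗ[F] V), Subgroup.mem_subgroupOf.1 ho⟩
    refine ⟨n, ?_⟩
    apply Subtype.ext
    show (h.psi hp o) ^ p ^ n = 1
    rw [← map_pow]
    have h5 : (o : V ≃ₗ[F] V) ^ p ^ n = 1 := congrArg Subtype.val hn
    have h3 : o ^ p ^ n = 1 := Subtype.ext h5
    rw [h3, map_one]
  have hObI : Ob ≤ (h.restr hp).Iso := by
    rintro _ ⟨o, ho, rfl⟩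
    exact h.psi_iso hp o
  by_cases hne : ∃ q ∈ Ob, q ≠ 1
  · exfalso
    obtain ⟨z, hz0, hzz, hz⟩ := ptp_fixed (h.restr hp) hOb1 hObI hne
    obtain ⟨w, hw⟩ := (h.restr hp).exists_partner h22 hz0 hzz
    have hε2 := h.eps
    have hεr : (h.restr hp).ε = h.ε := rfl
    have hwz : (h.restr hp).B w z = h.ε := hw.yx
    have hw' : (h.restr hp).Pair w (h.ε • z) := by
      refine ⟨hw.yy, ?_, ?_⟩
      · rw [(h.restr hp).smul_left, (h.restr hp).smul_right, hw.xx, mul_zero, mul_zero]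
      · rw [(h.restr hp).smul_right, hwz, hε2]
    let Y : Submodule F (h.perp2 x y) :=
      { carrier := {v | ∀ q ∈ Ob, q v = v}
        add_mem' := fun {a b} ha hb q hq => by rw [map_add, ha q hq, hb q hq]
        zero_mem' := fun q hq => map_zero q
        smul_mem' := fun c a ha q hq => by rw [map_smul, ha q hq] }
    have hYm : ∀ v, v ∈ Y ↔ ∀ q ∈ Ob, q v = v := fun v => Iff.rfl
    have hYg : ∀ g ∈ (h.restr hp).GG p, ∀ v ∈ Y, g v ∈ Y := by
      intro g hg v hv q hq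
      obtain ⟨o, ho, rfl⟩ := hq
      have hgI : g ∈ (h.restr hp).Iso := (h.restr hp).GG_le p hg
      have hgG := h.ext_GG hp hg
      have hgx := h.ext_x hp g
      have hgx' : (h.ext hp g)⁻¹ x = x := by
        have h3 : (h.ext hp g)⁻¹ (h.ext hp g x) = x := (h.ext hp g).symm_apply_apply x
        rwa [hgx] at h3
      have h3 := h2 _ (inv_mem hgG) ⟨1, by rw [hgx', one_smul]⟩ o (Subgroup.mem_subgroupOf.1 ho)
      have h4 := hObm ((⟨h.ext hp g, h.ext_stabX hp hgI⟩ : h.stabX x)⁻¹ * o *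
        (⟨h.ext hp g, h.ext_stabX hp hgI⟩ : h.stabX x)⁻¹⁻¹) h3
      have h5 := hv _ h4
      rw [inv_inv, map_mul, map_mul, map_inv, h.psi_ext hp hgI] at h5
      have h6 : g⁻¹ (h.psi hp o (g v)) = v := h5
      have h7 : g (g⁻¹ (h.psi hp o (g v))) = h.psi hp o (g v) := g.apply_symm_apply _
      rw [← h7, h6]
    have hzY : z ∈ Y := hz
    have hE : ∀ (a : h.perp2 x y) (t : F), (h.restr hp).B w a = 0 → (h.restr hp).B a z = 0 →
        (h.restr hp).Adm a t → z + h.ε • a + (t * h.ε) • w ∈ Y := by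
      intro a t ha hb ht
      obtain ⟨u, hu, hu2⟩ := (h.restr hp).exists_E hw.yy ha ht
      have h3 := hYg u ((h.restr hp).UU_le_GG hp3 hw' hu) z hzY
      rw [hu2] at h3
      unfold HF.E at h3
      rw [hwz, hb, mul_zero, zero_smul, sub_zero] at h3
      exact h3
    have hwY : w ∈ Y := by
      have h3 := hE 0 κ ((h.restr hp).zero_right w) ((h.restr hp).zero_left z) (by
        unfold HF.Adm
        rw [(h.restr hp).zero_left, neg_zero]
        exact hD.kk)
      rw [smul_zero, add_zero] at h3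
      have h4 := Y.sub_mem h3 hzY
      rw [add_sub_cancel_left] at h4
      have h5 : κ * h.ε ≠ 0 := mul_ne_zero hD.k0 h.eps_ne
      exact (Submodule.smul_mem_iff Y h5).1 h4
    have haY : ∀ a, (h.restr hp).B w a = 0 → (h.restr hp).B a z = 0 → a ∈ Y := by
      intro a ha hb
      obtain ⟨t, ht⟩ := (h.restr hp).adm_exists h22 a
      have h3 := hE a t ha hb ht
      have h4 := Y.sub_mem (Y.sub_mem h3 (Y.smul_mem (t * h.ε) hwY)) hzY
      rw [add_sub_cancel_right, add_sub_cancel_left] at h4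
      exact (Submodule.smul_mem_iff Y h.eps_ne).1 h4
    obtain ⟨q, hq, hq1⟩ := hne
    apply hq1
    apply LinearEquiv.ext
    intro v
    have h3 : (h.restr hp).p1 z w v ∈ Y := by
      apply haY
      · exact (h.restr hp).p1_y hw v
      · exact (h.restr hp).B_symm_zero ((h.restr hp).p1_x hw v)
    have h4 : v ∈ Y := by
      have h5 : v = (h.restr hp).p1 z w v + ((h.restr hp).ε * (h.restr hp).B w v) • z +
          (h.restr hp).B z v • w := by
        unfold HF.p1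
        module
      rw [h5]
      exact Y.add_mem (Y.add_mem h3 (Y.smul_mem _ hzY)) (Y.smul_mem _ hwY)
    exact h4 q hq
  · push Not at hne
    intro o ho
    have h3 := hne _ (hObm ⟨o, hst o ho⟩ ho)
    exact (h.psi_ker hp _).1 h3

theorem pt_card (h : HF F V) (hp5 : 5 ≤ p) (hok : h.Ok) :
    ¬ p ∣ Nat.card (Subgroup.center (h.GG p)) := by
  intro hdvd
  obtain ⟨g, hg⟩ := exists_prime_orderOf_dvd_card' p hdvd
  have hgc := g.2
  rw [Subgroup.mem_center_iff] at hgc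
  obtain ⟨c, hc⟩ := h.gg_center hp5 hok (h.GG_le p (g : h.GG p).2) (fun e he =>
    (congrArg Subtype.val (hgc ⟨e, he⟩)).symm)
  have hgp : ((g : h.GG p) : V ≃ₗ[F] V) ^ p = 1 := by
    have h1 : g ^ p = 1 := orderOf_dvd_iff_pow_eq_one.1 (dvd_of_eq hg)
    exact congrArg (fun z : Subgroup.center (h.GG p) => ((z : h.GG p) : V ≃ₗ[F] V)) h1
  obtain ⟨⟨v, hv0, -⟩, -⟩ := hok
  have h3 := ptp_pow (hc v) p
  rw [hgp] at h3
  have h4 : (1 : V ≃ₗ[F] V) v = v := rfl
  rw [h4] at h3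
  have h5 : c ^ p ^ 1 = 1 := by
    rw [pow_one]
    have h6 : (1 - c ^ p) • v = 0 := by rw [sub_smul, one_smul, ← h3, sub_self]
    rcases smul_eq_zero.1 h6 with h7 | h7
    · exact (sub_eq_zero.1 h7).symm
    · exact absurd h7 hv0
  have h6 : g = 1 := by
    apply Subtype.ext
    apply Subtype.ext
    apply LinearEquiv.ext
    intro v
    rw [hc v, ptp_one h5, one_smul]
    rfl
  rw [h6, orderOf_one] at hg
  exact (Fact.out : p.Prime).one_lt.ne hg

end

end Pool.Agent.Helper54.OC
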