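import Pool.Agent.Helper54.OC.LnTs
import Pool.Agent.Helper54.OC.LnOp
import Pool.Agent.Helper54.OC.ParMain
import Pool.Agent.Helper54.OC.PtPar
import Pool.Agent.Helper54.CL.Win

/-!
# OC-31: automorphisms of order `p` of simple orthogonal groups

PROOF.  Let `Q` be a Sylow `p`-subgroup of `X = h.GG p`; `ln_syl` gives `Quad x1 x2 y1 y2` with `Q W ⊆ W`; `π` from `exists_pi4`: `LnD h p x1 x2 y1 y2 π`.
`C = center X`, `U` = `(h.RW W _).subgroupOf X`, `V` = `(h.RW W' _).subgroupOf X`, `W = sp x1 x2`, `W' = sp y1 y2`, `z t = π (up t)`, `hc c = π (dg c)`.  `RW W ≤ GG p` (`RW_pow`).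
For `g ∈ X`: `g ∈ nm U` iff `g W ⊆ W` (`ln_line`, `ln_nm`; `nm U` normalizes the center `{z t}` of `U` by `ln_cen`); `cj g U` consists of the elements of `X` in `RW (g W)`, so it depends on `g W`
only (`g W = g' W` iff `g⁻¹ g' ∈ nm U`).
`z_add`, `hc_mul`, `hc_z`: `up_add`, `dg_mul`, `dg_up`.  `z_inj`: `ln_up`.  `w = π (ww _)`: `w W = W'` (`ln_ww`), `ww_dg`.
`hc_comm`: `ln_comm`, `ln_act` with `m11 = m22 = c`, `m12 = m21 = 0` (`ln_dg`; `p4 a = a` and `π (dg c) a = a` for `a ∈ T`).  `faith`: the scalar `l` of `ln_faith` is `r u⁻¹ ∈ GG`, central.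
`opp`: `ln_opp` (`u W' ⊆ g W` and the dimensions agree); `uv`: `ln_uv`;
`gen`: `ln_gen`; `syl`: `Q ≤ nm U`, and `U` is a `p`-group normalized by `Q`, so `U ≤ Q`; `nz`: `ln_line`; `op`: `ln_op`; `ts`: `ln_ts`, transported
from `U` to `h.RW W`.  `cp`: a central element is a scalar (`gg_center`); if its order is `p`, `c^p = 1`, `c = 1`.
`aa_ln`: `aa_par_quot` and `win_classical` (CL/Win.lean).
-/

set_option autoImplicit false
open scoped Pointwise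

namespace Pool.Agent.Helper54.OC

open Pool.Agent.Helper54.CL
open Pool.Agent.Helper54.PW Pool.Agent.Helper54.RT

section
variable {F V : Type} [Field F] [AddCommGroup V] [Module F V]

/-- totally isotropic -/
private def TI (h : HF F V) (W : Submodule F V) : Prop := ∀ v ∈ W, ∀ w ∈ W, h.B v w = 0

private theorem TI_map {h : HF F V} {W : Submodule F V} (hW : TI h W) {g : V ≃ₗ[F] V}
    (hg : g ∈ h.Iso) : TI h (W.map (g : V →ₗ[F] V)) := by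
  rintro _ ⟨v, hv, rfl⟩ _ ⟨w, hw, rfl⟩
  show h.B (g v) (g w) = 0
  rw [hg v w, hW v hv w hw]

private theorem RW_map {h : HF F V} {W : Submodule F V} (hW : TI h W) {g e : V ≃ₗ[F] V}
    (hg : g ∈ h.Iso) (he : e ∈ h.RW W hW) :
    g * e * g⁻¹ ∈ h.RW (W.map (g : V →ₗ[F] V)) (TI_map hW hg) := by
  obtain ⟨hI, h1, h2⟩ := he
  have k1 : ∀ z, g⁻¹ (g z) = z := fun z => g.symm_apply_apply z
  have k2 : ∀ z, g (g⁻¹ z) = z := fun z => g.apply_symm_apply z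
  refine ⟨h.Iso.mul_mem (h.Iso.mul_mem hg hI) (h.Iso.inv_mem hg), ?_, ?_⟩
  · rintro _ ⟨w, hw, rfl⟩
    show g (e (g⁻¹ (g w))) = g w
    rw [k1, h1 w hw]
  · intro v hv
    refine ⟨e (g⁻¹ v) - g⁻¹ v, h2 _ ?_, ?_⟩
    · intro w hw
      rw [← hg w (g⁻¹ v), k2]
      exact hv _ ⟨w, hw, rfl⟩
    · show g (e (g⁻¹ v) - g⁻¹ v) = g (e (g⁻¹ v)) - v
      rw [map_sub, k2]

/-- `RW W` as a subgroup of `GG p` -/
private def RS (p : ℕ) (h : HF F V) (W : Submodule F V) (hW : TI h W) : Subgroup (h.GG p) :=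
  (h.RW W hW).subgroupOf (h.GG p)

private theorem mem_RS {p : ℕ} {h : HF F V} {W : Submodule F V} {hW : TI h W} {g : h.GG p} :
    g ∈ RS p h W hW ↔ (g : V ≃ₗ[F] V) ∈ h.RW W hW := Subgroup.mem_subgroupOf

private theorem RS_congr {p : ℕ} {h : HF F V} {W W' : Submodule F V} {hW : TI h W}
    {hW' : TI h W'} (e : W = W') : RS p h W hW = RS p h W' hW' := by
  subst e; rfl

private theorem cj_RS {p : ℕ} {h : HF F V} {W : Submodule F V} (hW : TI h W) (g : h.GG p) :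
    cj g (RS p h W hW) = RS p h (W.map ((g : V ≃ₗ[F] V) : V →ₗ[F] V))
      (TI_map hW (h.GG_le p g.2)) := by
  have hg : (g : V ≃ₗ[F] V) ∈ h.Iso := h.GG_le p g.2
  ext w
  rw [mem_cj, mem_RS, mem_RS]
  constructor
  · intro hw
    have h1 := RW_map hW hg hw
    have h2 : (g : V ≃ₗ[F] V) * ((g⁻¹ * w * g : h.GG p) : V ≃ₗ[F] V) * (g : V ≃ₗ[F] V)⁻¹ = w := by
      push_cast; group
    rwa [h2] at h1
  · intro hw
    have h1 := RW_map (TI_map hW hg) (h.Iso.inv_mem hg) hw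
    have h2 : (g : V ≃ₗ[F] V)⁻¹ * (w : V ≃ₗ[F] V) * ((g : V ≃ₗ[F] V)⁻¹)⁻¹ =
        ((g⁻¹ * w * g : h.GG p) : V ≃ₗ[F] V) := by
      push_cast; group
    rw [h2] at h1
    have h3 : (W.map ((g : V ≃ₗ[F] V) : V →ₗ[F] V)).map
        (((g : V ≃ₗ[F] V)⁻¹ : V ≃ₗ[F] V) : V →ₗ[F] V) = W := by
      ext v
      constructor
      · rintro ⟨_, ⟨u, hu, rfl⟩, rfl⟩
        have h4 : ((g : V ≃ₗ[F] V)⁻¹ : V ≃ₗ[F] V) ((g : V ≃ₗ[F] V) u) = u :=
          (g : V ≃ₗ[F] V).symm_apply_apply u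
        show ((g : V ≃ₗ[F] V)⁻¹ : V ≃ₗ[F] V) ((g : V ≃ₗ[F] V) u) ∈ W
        rw [h4]; exact hu
      · intro hv
        exact ⟨_, ⟨v, hv, rfl⟩, (g : V ≃ₗ[F] V).symm_apply_apply v⟩
    have h5 : ∀ (W1 : Submodule F V) (hW1 : TI h W1), W1 = W →
        (((g⁻¹ * w * g : h.GG p) : V ≃ₗ[F] V) ∈ h.RW W1 hW1 →
          ((g⁻¹ * w * g : h.GG p) : V ≃ₗ[F] V) ∈ h.RW W hW) := by
      rintro W1 hW1 rfl hh
      exact hh
    exact h5 _ _ h3 h1

end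

section
variable {p : ℕ} [Fact p.Prime] {F V : Type} [Field F] [Finite F] [CharP F p] [AddCommGroup V]
  [Module F V] [Finite V] {h : HF F V} {x1 x2 y1 y2 : V}
  {π : Matrix.SpecialLinearGroup (Fin 2) F →* (V ≃ₗ[F] V)}

omit [Finite F] [Finite V] in
private theorem RW_le_GG {W : Submodule F V} (hW : TI h W) : h.RW W hW ≤ h.GG p := by
  intro g hg
  exact Subgroup.subset_closure ⟨hg.1, 2, h.RW_pow hg⟩

/-- the group `U` -/
private def US (hD : LnD h p x1 x2 y1 y2 π) : Subgroup (h.GG p) :=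
  RS p h (sp F x1 x2) (quad_ti hD.q)

/-- the group `V` -/
private def VS (hD : LnD h p x1 x2 y1 y2 π) : Subgroup (h.GG p) :=
  RS p h (sp F y1 y2) (quad_ti' hD.q)

/-- `z t` -/
private def pz (hD : LnD h p x1 x2 y1 y2 π) (t : F) : h.GG p := ⟨π (up t), hD.le ⟨up t, rfl⟩⟩

private def pl (hD : LnD h p x1 x2 y1 y2 π) (t : F) : h.GG p := ⟨π (lo t), hD.le ⟨lo t, rfl⟩⟩

private def ph (hD : LnD h p x1 x2 y1 y2 π) (c : Fˣ) : h.GG p := ⟨π (dg c), hD.le ⟨dg c, rfl⟩⟩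

private def pw (hD : LnD h p x1 x2 y1 y2 π) : h.GG p := ⟨π (ww _), hD.le ⟨ww _, rfl⟩⟩

omit [Fact p.Prime] [Finite F] [CharP F p] [Finite V] in
private theorem pz_mem (hD : LnD h p x1 x2 y1 y2 π) (t : F) : pz hD t ∈ US hD :=
  mem_RS.2 (ln_up_mem hD t)

omit [Fact p.Prime] [Finite F] [CharP F p] [Finite V] in
private theorem pl_mem (hD : LnD h p x1 x2 y1 y2 π) (t : F) : pl hD t ∈ VS hD :=
  mem_RS.2 (ln_lo_mem hD t)

omit [Fact p.Prime] [Finite F] [CharP F p] [Finite V] in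
private theorem x1_mem : x1 ∈ sp F x1 x2 := mem_sp.2 ⟨1, 0, by simp⟩

omit [Fact p.Prime] [Finite F] [CharP F p] [Finite V] in
private theorem x2_mem : x2 ∈ sp F x1 x2 := mem_sp.2 ⟨0, 1, by simp⟩

omit [Fact p.Prime] [Finite F] [CharP F p] [Finite V] in
private theorem p4_x1 (hD : LnD h p x1 x2 y1 y2 π) : p4 h x1 x2 y1 y2 x1 = 0 := by
  have e1 : h.B y1 x1 = 1 := by rw [hD.q.p1.yx, hD.o.2]
  have e2 : h.B y2 x1 = 0 := h.B_symm_zero hD.q.vw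
  have e3 : h.B x1 x1 = 0 := hD.q.p1.xx
  have e4 : h.B x2 x1 = 0 := h.B_symm_zero hD.q.vv
  simp [p4, e1, e2, e3, e4]

omit [Fact p.Prime] [Finite F] [CharP F p] [Finite V] in
private theorem p4_x2 (hD : LnD h p x1 x2 y1 y2 π) : p4 h x1 x2 y1 y2 x2 = 0 := by
  have e1 : h.B y2 x2 = 1 := by rw [hD.q.p2.yx, hD.o.2]
  have e2 : h.B y1 x2 = 0 := hD.q.wv
  have e3 : h.B x1 x2 = 0 := hD.q.vv
  have e4 : h.B x2 x2 = 0 := hD.q.p2.xx
  simp [p4, e1, e2, e3, e4]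

omit [Fact p.Prime] [Finite F] [CharP F p] [Finite V] in
private theorem p4_y1 (hD : LnD h p x1 x2 y1 y2 π) : p4 h x1 x2 y1 y2 y1 = 0 := by
  have e1 : h.B y1 y1 = 0 := hD.q.p1.yy
  have e2 : h.B y2 y1 = 0 := h.B_symm_zero hD.q.ww
  have e3 : h.B x1 y1 = 1 := hD.q.p1.xy
  have e4 : h.B x2 y1 = 0 := h.B_symm_zero hD.q.wv
  simp [p4, e1, e2, e3, e4]

omit [Fact p.Prime] [Finite F] [CharP F p] [Finite V] in
private theorem p4_y2 (hD : LnD h p x1 x2 y1 y2 π) : p4 h x1 x2 y1 y2 y2 = 0 := by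
  have e1 : h.B y2 y2 = 0 := hD.q.p2.yy
  have e2 : h.B y1 y2 = 0 := hD.q.ww
  have e3 : h.B x1 y2 = 0 := hD.q.vw
  have e4 : h.B x2 y2 = 1 := hD.q.p2.xy
  simp [p4, e1, e2, e3, e4]

omit [Fact p.Prime] [Finite F] [CharP F p] [Finite V] in
private theorem p4_add (v w : V) :
    p4 h x1 x2 y1 y2 (v + w) = p4 h x1 x2 y1 y2 v + p4 h x1 x2 y1 y2 w := by
  simp only [p4, h.add_right]; module

omit [Fact p.Prime] [Finite F] [CharP F p] [Finite V] in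
private theorem p4_smul (c : F) (v : V) :
    p4 h x1 x2 y1 y2 (c • v) = c • p4 h x1 x2 y1 y2 v := by
  simp only [p4, h.smul_right]; module

omit [Fact p.Prime] [Finite F] [CharP F p] [Finite V] in
private theorem p4_of_mem {a : V} (ha : a ∈ perp4 h x1 x2 y1 y2) : p4 h x1 x2 y1 y2 a = a := by
  obtain ⟨e1, e2, e3, e4⟩ := (mem_perp4 h).1 ha
  simp [p4, e1, e2, e3, e4]

omit [Fact p.Prime] [Finite F] [CharP F p] [Finite V] in
private theorem la_up (hD : LnD h p x1 x2 y1 y2 π) (t : F) :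
    la1 h x1 x2 y1 y2 (π (up t)) = 0 ∧ la2 h x1 x2 y1 y2 (π (up t)) = 0 := by
  have e3 : h.B x1 y1 = 1 := hD.q.p1.xy
  have e4 : h.B x2 y1 = 0 := h.B_symm_zero hD.q.wv
  have e5 : h.B x1 y2 = 0 := hD.q.vw
  have e6 : h.B x2 y2 = 1 := hD.q.p2.xy
  constructor
  · unfold la1
    have e : π (up t) y1 = y1 + t • x2 := by rw [ln_up hD, e3, e4]; simp
    rw [e, p4_add, p4_smul, p4_y1 hD, p4_x2 hD]; simp
  · unfold la2
    have e : π (up t) y2 = y2 + (-t) • x1 := by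
      rw [ln_up hD, e5, e6]; simp [sub_eq_add_neg]
    rw [e, p4_add, p4_smul, p4_y2 hD, p4_x1 hD]; simp

omit [Fact p.Prime] [Finite F] [CharP F p] [Finite V] in
private theorem la_one (hD : LnD h p x1 x2 y1 y2 π) :
    la1 h x1 x2 y1 y2 1 = 0 ∧ la2 h x1 x2 y1 y2 1 = 0 := ⟨p4_y1 hD, p4_y2 hD⟩

omit [Fact p.Prime] [Finite F] [CharP F p] [Finite V] in
private theorem la_inv (hD : LnD h p x1 x2 y1 y2 π) {u : V ≃ₗ[F] V}
    (hu : u ∈ h.RW (sp F x1 x2) (quad_ti hD.q)) :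
    la1 h x1 x2 y1 y2 u⁻¹ = - la1 h x1 x2 y1 y2 u ∧
    la2 h x1 x2 y1 y2 u⁻¹ = - la2 h x1 x2 y1 y2 u := by
  have h1 := ln_mul hD hu ((h.RW _ _).inv_mem hu)
  rw [mul_inv_cancel, (la_one hD).1, (la_one hD).2] at h1
  constructor
  · rw [eq_comm, neg_eq_iff_add_eq_zero]; exact h1.1.symm
  · rw [eq_comm, neg_eq_iff_add_eq_zero]; exact h1.2.symm

omit [Fact p.Prime] [Finite F] [CharP F p] [Finite V] in
private theorem up_inj' (hD : LnD h p x1 x2 y1 y2 π) {s t : F} (e : π (up s) = π (up t)) :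
    s = t := by
  have h1 := congrArg (fun f : V ≃ₗ[F] V => h.B y2 (f y1)) e
  have e1 : h.B y2 x2 = 1 := by rw [hD.q.p2.yx, hD.o.2]
  have e4 : h.B x2 y1 = 0 := h.B_symm_zero hD.q.wv
  simp only [ln_up hD, h.add_right, h.sub_right, h.smul_right, hD.q.p1.xy, e4, e1, mul_one,
    mul_zero, zero_mul, sub_zero] at h1
  exact add_left_cancel h1

omit [Finite F] [Finite V] in
private theorem up_comm (hp3 : 3 ≤ p) (hD : LnD h p x1 x2 y1 y2 π) (t : F) {u : V ≃ₗ[F] V}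
    (hu : u ∈ h.RW (sp F x1 x2) (quad_ti hD.q)) : π (up t) * u = u * π (up t) := by
  have hs := ln_comm hp3 hD (ln_up_mem hD t) hu
  rw [(la_up hD t).1, (la_up hD t).2, h.zero_left, h.zero_left, sub_zero, up_zero, map_one] at hs
  rw [mul_inv_eq_one, mul_inv_eq_iff_eq_mul] at hs
  exact hs

private theorem nm_US (hp3 : 3 ≤ p) (hD : LnD h p x1 x2 y1 y2 π) {g : h.GG p} :
    g ∈ nm (US hD) ↔ ∀ w ∈ sp F x1 x2, (g : V ≃ₗ[F] V) w ∈ sp F x1 x2 := by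
  have hgI : (g : V ≃ₗ[F] V) ∈ h.Iso := h.GG_le p g.2
  constructor
  · intro hg
    rw [mem_nm'] at hg
    obtain ⟨s, hs⟩ := ln_cen hp3 hD (u := (g : V ≃ₗ[F] V) * π (up 1) * (g : V ≃ₗ[F] V)⁻¹)
      (mem_RS.1 ((hg (pz hD 1)).1 (pz_mem hD 1))) (by
        intro u' hu'
        have hu2 : u' ∈ h.GG p := RW_le_GG (quad_ti hD.q) hu'
        have h1 : (⟨u', hu2⟩ : h.GG p) = g * (g⁻¹ * ⟨u', hu2⟩ * g) * g⁻¹ := by group
        have h2 : g⁻¹ * ⟨u', hu2⟩ * g ∈ US hD := by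
          rw [hg, ← h1]; exact mem_RS.2 hu'
        have h3 := up_comm hp3 hD 1 (mem_RS.1 h2)
        push_cast at h3
        calc (g : V ≃ₗ[F] V) * π (up 1) * (g : V ≃ₗ[F] V)⁻¹ * u'
            = g * (π (up 1) * ((g : V ≃ₗ[F] V)⁻¹ * u' * g)) * (g : V ≃ₗ[F] V)⁻¹ := by group
          _ = g * (((g : V ≃ₗ[F] V)⁻¹ * u' * g) * π (up 1)) * (g : V ≃ₗ[F] V)⁻¹ := by rw [h3]
          _ = u' * ((g : V ≃ₗ[F] V) * π (up 1) * (g : V ≃ₗ[F] V)⁻¹) := by group)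
    exact ln_line hD hgI ⟨s, hs⟩
  · intro hw
    rw [mem_nm']
    intro u
    have := ln_nm hD hgI hw (u : V ≃ₗ[F] V)
    constructor
    · intro hu
      exact mem_RS.2 (this.1 (mem_RS.1 hu))
    · intro hu
      exact mem_RS.2 (this.2 (mem_RS.1 hu))

private theorem nm_cjU (hp3 : 3 ≤ p) (hD : LnD h p x1 x2 y1 y2 π) {g g0 : h.GG p} :
    g ∈ nm (cj g0 (US hD)) ↔ ∀ w ∈ sp F x1 x2, ∃ w' ∈ sp F x1 x2,
      (g : V ≃ₗ[F] V) ((g0 : V ≃ₗ[F] V) w) = (g0 : V ≃ₗ[F] V) w' := by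
  rw [nm_cj, mem_cj, nm_US hp3 hD]
  have k1 : ∀ z, (g0 : V ≃ₗ[F] V)⁻¹ ((g0 : V ≃ₗ[F] V) z) = z := fun z =>
    (g0 : V ≃ₗ[F] V).symm_apply_apply z
  have k2 : ∀ z, (g0 : V ≃ₗ[F] V) ((g0 : V ≃ₗ[F] V)⁻¹ z) = z := fun z =>
    (g0 : V ≃ₗ[F] V).apply_symm_apply z
  have e : ∀ w, ((g0⁻¹ * g * g0 : h.GG p) : V ≃ₗ[F] V) w =
      (g0 : V ≃ₗ[F] V)⁻¹ ((g : V ≃ₗ[F] V) ((g0 : V ≃ₗ[F] V) w)) := by
    intro w; push_cast; rfl
  constructor
  · intro hw w hwm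
    refine ⟨_, hw w hwm, ?_⟩
    rw [e, k2]
  · intro hw w hwm
    obtain ⟨w', hw', hww⟩ := hw w hwm
    rw [e, hww, k1]
    exact hw'

omit [Fact p.Prime] [Finite F] [CharP F p] [Finite V] in
private theorem map_ww (hD : LnD h p x1 x2 y1 y2 π) :
    (sp F x1 x2).map ((π (ww F) : V ≃ₗ[F] V) : V →ₗ[F] V) = sp F y1 y2 := by
  obtain ⟨e1, e2, -, -⟩ := ln_ww hD
  ext v
  constructor
  · rintro ⟨w, hw, rfl⟩
    obtain ⟨a, b, rfl⟩ := mem_sp.1 hw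
    refine mem_sp.2 ⟨-b, a, ?_⟩
    show π (ww F) (a • x1 + b • x2) = _
    rw [map_add, map_smul, map_smul, e1, e2]
    module
  · intro hv
    obtain ⟨a, b, rfl⟩ := mem_sp.1 hv
    refine ⟨b • x1 + (-a) • x2, mem_sp.2 ⟨_, _, rfl⟩, ?_⟩
    show π (ww F) (b • x1 + (-a) • x2) = _
    rw [map_add, map_smul, map_smul, e1, e2]
    module

omit [Fact p.Prime] [Finite F] [CharP F p] [Finite V] in
private theorem pw_US (hD : LnD h p x1 x2 y1 y2 π) : cj (pw hD) (US hD) = VS hD := by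
  unfold US VS
  rw [cj_RS]
  exact RS_congr (map_ww hD)

private theorem nm_VS (hp3 : 3 ≤ p) (hD : LnD h p x1 x2 y1 y2 π) {g : h.GG p}
    (hg : g ∈ nm (VS hD)) : ∀ w ∈ sp F y1 y2, (g : V ≃ₗ[F] V) w ∈ sp F y1 y2 := by
  rw [← pw_US hD, nm_cjU hp3 hD] at hg
  intro w hw
  rw [← map_ww hD] at hw ⊢
  obtain ⟨w0, hw0, rfl⟩ := hw
  obtain ⟨w', hw', hww⟩ := hg w0 hw0
  exact ⟨w', hw', hww.symm⟩

omit [Fact p.Prime] [Finite F] [CharP F p] in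
private theorem eq_map (hD : LnD h p x1 x2 y1 y2 π) {u g : V ≃ₗ[F] V}
    (hw : ∀ w ∈ sp F y1 y2, ∃ w' ∈ sp F x1 x2, u w = g w') :
    (sp F y1 y2).map (u : V →ₗ[F] V) = (sp F x1 x2).map (g : V →ₗ[F] V) := by
  have hfin : FiniteDimensional F V := inferInstance
  apply Submodule.eq_of_le_of_finrank_eq
  · rintro _ ⟨w, hwm, rfl⟩
    obtain ⟨w', hw', hww⟩ := hw w hwm
    exact ⟨w', hw', hww.symm⟩
  · rw [LinearEquiv.finrank_map_eq, LinearEquiv.finrank_map_eq, ← map_ww hD,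
      LinearEquiv.finrank_map_eq]

omit [Fact p.Prime] [Finite F] [CharP F p] [Finite V] in
private theorem exists_mat (hD : LnD h p x1 x2 y1 y2 π) {g : V ≃ₗ[F] V}
    (hw : ∀ w ∈ sp F x1 x2, g w ∈ sp F x1 x2) :
    ∃ m11 m12 m21 m22 : F, g x1 = m11 • x1 + m21 • x2 ∧ g x2 = m12 • x1 + m22 • x2 := by
  obtain ⟨a, b, h1⟩ := mem_sp.1 (hw x1 x1_mem)
  obtain ⟨c, d, h2⟩ := mem_sp.1 (hw x2 x2_mem)
  exact ⟨a, c, b, d, h1, h2⟩

private theorem ts_aux (hp5 : 5 ≤ p) (hD : LnD h p x1 x2 y1 y2 π)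
    (h5 : 5 ≤ Module.finrank F V) :
    ∀ φ : MulAut (US hD), φ ^ p = 1 →
      (∀ t, φ ⟨pz hD t, pz_mem hD t⟩ = ⟨pz hD t, pz_mem hD t⟩) →
    (∀ r ∈ nm (US hD), ∃ r' ∈ nm (US hD), ∀ u v : US hD, (v : h.GG p) = r * u * r⁻¹ →
      (φ v : h.GG p) = r' * φ u * r'⁻¹) →
    ∃ s ∈ nm (US hD), (∀ u : US hD, ∃ t, s * φ u * s⁻¹ * (u : h.GG p)⁻¹ = pz hD t) ∧
      ∀ t, s * pz hD t * s⁻¹ = pz hD t := by
  intro φ hφ hz hr
  have hp3 : 3 ≤ p := by omega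
  have hle : h.RW (sp F x1 x2) (quad_ti hD.q) ≤ h.GG p := RW_le_GG (quad_ti hD.q)
  let e : US hD ≃* h.RW (sp F x1 x2) (quad_ti hD.q) := Subgroup.subgroupOfEquivOfLe hle
  have he : ∀ u : US hD, ((e u : h.RW (sp F x1 x2) (quad_ti hD.q)) : V ≃ₗ[F] V) =
      ((u : h.GG p) : V ≃ₗ[F] V) := fun u => rfl
  have he' : ∀ u : h.RW (sp F x1 x2) (quad_ti hD.q),
      (((e.symm u : US hD) : h.GG p) : V ≃ₗ[F] V) = (u : V ≃ₗ[F] V) := by
    intro u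
    rw [← he, e.apply_symm_apply]
  let φ' : MulAut (h.RW (sp F x1 x2) (quad_ti hD.q)) := MulAut.congr e φ
  have hφ1 : ∀ u : h.RW (sp F x1 x2) (quad_ti hD.q), φ' u = e (φ (e.symm u)) := fun u => rfl
  have hφ' : φ' ^ p = 1 := by
    show (MulAut.congr e φ) ^ p = 1
    rw [← map_pow, hφ, map_one]
  obtain ⟨s, hs, hsx, hsz, hs'⟩ := ln_ts hp5 hD h5 φ' hφ' (by
      intro t
      rw [hφ1, he]
      have h1 : e.symm ⟨π (up t), ln_up_mem hD t⟩ = ⟨pz hD t, pz_mem hD t⟩ := by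
        apply e.injective
        rw [e.apply_symm_apply]
        rfl
      rw [h1, hz]
      rfl) (by
      intro r hrG hrx
      obtain ⟨r', hr', hr2⟩ := hr ⟨r, hrG⟩ ((nm_US hp3 hD).2 hrx)
      refine ⟨r', r'.2, (nm_US hp3 hD).1 hr', ?_⟩
      intro u v huv
      have h1 := hr2 (e.symm u) (e.symm v) (by
        apply Subtype.ext
        rw [he', huv]
        push_cast
        rw [he'])
      have h2 := congrArg (fun g : h.GG p => (g : V ≃ₗ[F] V)) h1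
      rw [hφ1, hφ1, he, he, h2]
      push_cast
      rfl)
  have hsI : s ∈ h.Iso := h.GG_le p hs
  refine ⟨⟨s, hs⟩, (nm_US hp3 hD).2 hsx, ?_, ?_⟩
  · intro u
    have hu : ((u : h.GG p) : V ≃ₗ[F] V) ∈ h.RW (sp F x1 x2) (quad_ti hD.q) := mem_RS.1 u.2
    have h1 := hs' (e u)
    rw [hφ1, e.symm_apply_apply, he, he] at h1
    have hfu : (((φ u : US hD) : h.GG p) : V ≃ₗ[F] V) ∈ h.RW (sp F x1 x2) (quad_ti hD.q) :=
      mem_RS.1 (φ u).2
    have h2 : s * (((φ u : US hD) : h.GG p) : V ≃ₗ[F] V) * s⁻¹ ∈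
        h.RW (sp F x1 x2) (quad_ti hD.q) := (ln_nm hD hsI hsx _).1 hfu
    have h3 := ln_mul hD h2 ((h.RW _ _).inv_mem hu)
    rw [(la_inv hD hu).1, (la_inv hD hu).2, h1.1, h1.2, add_neg_cancel, add_neg_cancel] at h3
    obtain ⟨t, ht⟩ := ln_ker hp3 hD ((h.RW _ _).mul_mem h2 ((h.RW _ _).inv_mem hu)) h3.1 h3.2
    refine ⟨t, ?_⟩
    apply Subtype.ext
    push_cast
    exact ht
  · intro t
    apply Subtype.ext
    push_cast
    exact hsz t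

private theorem op_aux (hp3 : 3 ≤ p) (hD : LnD h p x1 x2 y1 y2 π) (O : Subgroup (h.GG p))
    (hO : IsPGroup p O) (h1 : O ≤ nm (US hD)) (h2 : nm (US hD) ≤ nm O) :
    O ≤ US hD := by
  have key := ln_op hp3 hD (O := O.map (h.GG p).subtype) (hO.map _) (by
      rintro _ ⟨o, -, rfl⟩
      exact o.2) (by
      rintro _ ⟨o, ho, rfl⟩
      exact (nm_US hp3 hD).1 (h1 ho)) (by
      rintro g hg hgx _ ⟨o, ho, rfl⟩
      have h3 := mem_nm'.1 (h2 ((nm_US hp3 hD (g := ⟨g, hg⟩)).2 hgx)) o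
      exact ⟨_, h3.1 ho, rfl⟩)
  intro o ho
  exact mem_RS.2 (key ⟨o, ho, rfl⟩)

private theorem faith_aux (hp3 : 3 ≤ p) (hD : LnD h p x1 x2 y1 y2 π)
    (h5 : 5 ≤ Module.finrank F V) {r : h.GG p}
    (hr : r ∈ nm (US hD)) (h1 : ∀ u ∈ US hD, ∃ t, r * u * r⁻¹ * u⁻¹ = pz hD t)
    (h2 : ∀ t, r * pz hD t * r⁻¹ = pz hD t) :
    r ∈ US hD ⊔ Subgroup.center (h.GG p) := by
  have hw := (nm_US hp3 hD).1 hr
  obtain ⟨u, hu, l, hl, hrl⟩ := ln_faith hp3 hD h5 (h.GG_le p r.2) hw (by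
      intro u hu
      have hu2 : u ∈ h.GG p := RW_le_GG (quad_ti hD.q) hu
      obtain ⟨t, ht⟩ := h1 ⟨u, hu2⟩ (mem_RS.2 hu)
      have h3 := congrArg (fun g : h.GG p => (g : V ≃ₗ[F] V)) ht
      push_cast at h3
      have h4 : (r : V ≃ₗ[F] V) * u * (r : V ≃ₗ[F] V)⁻¹ = π (up t) * u := by
        rw [← mul_inv_eq_iff_eq_mul]; exact h3
      have h6 := ln_mul hD (ln_up_mem hD t) hu
      rw [h4, h6.1, h6.2, (la_up hD t).1, (la_up hD t).2, zero_add, zero_add]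
      exact ⟨rfl, rfl⟩) (by
      intro t
      have h3 := congrArg (fun g : h.GG p => (g : V ≃ₗ[F] V)) (h2 t)
      push_cast at h3
      exact h3)
  have hu2 : u ∈ h.GG p := RW_le_GG (quad_ti hD.q) hu
  have h5 : r = ⟨u, hu2⟩ * ((⟨u, hu2⟩ : h.GG p)⁻¹ * r) := by group
  rw [h5]
  refine Subgroup.mul_mem_sup (mem_RS.2 hu) ?_
  have h6 : ∀ v, (((⟨u, hu2⟩ : h.GG p)⁻¹ * r : h.GG p) : V ≃ₗ[F] V) v = l • v := by
    intro v
    push_cast
    show u⁻¹ ((r : V ≃ₗ[F] V) v) = l • v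
    rw [hrl, map_smul]
    congr 1
    exact u.symm_apply_apply v
  rw [Subgroup.mem_center_iff]
  intro g
  apply Subtype.ext
  ext v
  show (g : V ≃ₗ[F] V) ((((⟨u, hu2⟩ : h.GG p)⁻¹ * r : h.GG p) : V ≃ₗ[F] V) v) =
    (((⟨u, hu2⟩ : h.GG p)⁻¹ * r : h.GG p) : V ≃ₗ[F] V) ((g : V ≃ₗ[F] V) v)
  rw [h6, h6, map_smul]

omit [Fact p.Prime] [Finite F] [CharP F p] [Finite V] in
private theorem dg_sp (hD : LnD h p x1 x2 y1 y2 π) (c : Fˣ) :
    ∀ w ∈ sp F x1 x2, π (dg c) w ∈ sp F x1 x2 := by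
  intro w hw
  obtain ⟨a, b, rfl⟩ := mem_sp.1 hw
  obtain ⟨e1, e2, -, -⟩ := ln_dg hD c
  refine mem_sp.2 ⟨a * c, b * c, ?_⟩
  rw [map_add, map_smul, map_smul, e1, e2]
  module

private theorem hc_comm_aux (hp3 : 3 ≤ p) (hD : LnD h p x1 x2 y1 y2 π) (c : Fˣ) (t : F)
    {u u' : V ≃ₗ[F] V} (hu : u ∈ h.RW (sp F x1 x2) (quad_ti hD.q))
    (hu' : u' ∈ h.RW (sp F x1 x2) (quad_ti hD.q))
    (e : u * u' * u⁻¹ * u'⁻¹ = π (up t)) :
    (π (dg c) * u * (π (dg c))⁻¹) * u' * (π (dg c) * u * (π (dg c))⁻¹)⁻¹ * u'⁻¹ =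
      π (up ((c : F) * t)) := by
  have hI : π (dg c) ∈ h.Iso := h.GG_le p (hD.le ⟨dg c, rfl⟩)
  have hu2 : π (dg c) * u * (π (dg c))⁻¹ ∈ h.RW (sp F x1 x2) (quad_ti hD.q) :=
    (ln_nm hD hI (dg_sp hD c) u).1 hu
  have ht0 := ln_comm hp3 hD hu hu'
  have ht2 := ln_comm hp3 hD hu2 hu'
  have h0 := up_inj' hD (ht0.symm.trans e)
  obtain ⟨e1, e2, -, -⟩ := ln_dg hD c
  have hact := ln_act hD hI (m11 := (c : F)) (m12 := 0) (m21 := 0) (m22 := (c : F))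
    (by rw [e1]; simp) (by rw [e2]; simp) hu
  have fx : ∀ a ∈ perp4 h x1 x2 y1 y2, p4 h x1 x2 y1 y2 (π (dg c) a) = a := by
    intro a ha
    obtain ⟨f1, f2, f3, f4⟩ := (mem_perp4 h).1 ha
    rw [hD.fx (dg c) a f1 f2 f3 f4, p4_of_mem ha]
  have a1 : la1 h x1 x2 y1 y2 u ∈ perp4 h x1 x2 y1 y2 := p4_mem hD.o hD.q _
  have a2 : la2 h x1 x2 y1 y2 u ∈ perp4 h x1 x2 y1 y2 := p4_mem hD.o hD.q _
  rw [fx _ a1, fx _ a2, zero_smul, zero_smul, add_zero, zero_add] at hact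
  rw [ht2, hact.1, hact.2, h.smul_left, h.smul_left, hD.o.1]
  congr 2
  rw [← h0]; ring

end

theorem ln_par {p : ℕ} [Fact p.Prime] (hp5 : 5 ≤ p) {F V : Type} [Field F] [Finite F]
    [CharP F p] [AddCommGroup V] [Module F V] [Finite V] (h : HF F V) (hO : h.IsO)
    (h5 : 5 ≤ Module.finrank F V) :
    ∃ (U W : Subgroup (h.GG p)) (z : F → h.GG p) (hc : Fˣ → h.GG p),
      Par p F (Subgroup.center (h.GG p)) U W z hc := by
  have hp3 : 3 ≤ p := by omega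
  obtain ⟨Q⟩ : Nonempty (Sylow p (h.GG p)) := inferInstance
  obtain ⟨x1, x2, y1, y2, hq, hQ⟩ := ln_syl (p := p) hp3 hO h5
    (Q := (Q : Subgroup (h.GG p)).map (h.GG p).subtype) (Q.2.map _) (by
      rintro _ ⟨o, -, rfl⟩
      exact h.GG_le p o.2)
  obtain ⟨π, hle, hap, hfx⟩ := h.exists_pi4 (p := p) hp3 hO hq
  have hD : LnD h p x1 x2 y1 y2 π := ⟨hq, hO, hle, hap, hfx⟩
  have hok : h.Ok := ⟨⟨x1, hq.p1.x_ne, hq.p1.xx⟩, fun _ => Or.inr h5⟩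
  have hUG : h.RW (sp F x1 x2) (quad_ti hD.q) ≤ h.GG p := RW_le_GG (quad_ti hD.q)
  have hVG : h.RW (sp F y1 y2) (quad_ti' hD.q) ≤ h.GG p := RW_le_GG (quad_ti' hD.q)
  have hpU : IsPGroup p (US hD) := by
    rintro ⟨u, hu⟩
    refine ⟨2, ?_⟩
    apply Subtype.ext
    apply Subtype.ext
    push_cast
    exact h.RW_pow (mem_RS.1 hu)
  have hQn : (Q : Subgroup (h.GG p)) ≤ nm (US hD) := by
    intro q hq'
    exact (nm_US hp3 hD).2 (hQ q ⟨q, hq', rfl⟩)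
  refine ⟨US hD, VS hD, pz hD, ph hD, ?_⟩
  refine
    { cen := le_rfl
      cp := pt_card h hp5 hok
      pU := hpU
      z_add := ?_
      z_inj := ?_
      z_mem := pz_mem hD
      z_comm := ?_
      z_cen := ?_
      comm := ?_
      hc_mul := ?_
      hc_z := ?_
      hc_U := ?_
      hc_comm := ?_
      faith := ?_
      scal := ?_
      cent := ?_
      w := ?_
      iU := ?_
      iV := ?_
      opp := ?_
      uv := ?_
      gen := ?_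
      syl := ?_
      nz := ?_
      op := fun O hO h1 h2 => op_aux hp3 hD O hO h1 h2
      ts := ts_aux hp5 hD h5 }
  · intro s t
    apply Subtype.ext
    show π (up (s + t)) = π (up s) * π (up t)
    rw [up_add, map_mul]
  · intro t ht
    apply up_inj' hD
    rw [up_zero, map_one]
    exact congrArg Subtype.val ht
  · intro t u hu
    apply Subtype.ext
    exact up_comm hp3 hD t (mem_RS.1 hu)
  · intro u hu hc
    obtain ⟨t, ht⟩ := ln_cen hp3 hD (mem_RS.1 hu) (by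
      intro u' hu'
      exact congrArg Subtype.val (hc ⟨u', hUG hu'⟩ (mem_RS.2 hu')))
    exact ⟨t, Subtype.ext ht⟩
  · intro u hu u' hu'
    exact ⟨_, Subtype.ext (ln_comm hp3 hD (mem_RS.1 hu) (mem_RS.1 hu'))⟩
  · intro c d
    apply Subtype.ext
    show π (dg (c * d)) = π (dg c) * π (dg d)
    rw [dg_mul, map_mul]
  · intro c t
    apply Subtype.ext
    show π (dg c) * π (up t) * (π (dg c))⁻¹ = π (up ((c : F) * (c : F) * t))
    rw [← dg_up, map_mul, map_mul, map_inv]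
  · intro c u hu
    have hI : π (dg c) ∈ h.Iso := h.GG_le p (hD.le ⟨dg c, rfl⟩)
    exact mem_RS.2 ((ln_nm hD hI (dg_sp hD c) _).1 (mem_RS.1 hu))
  · intro c t u hu u' hu' e
    apply Subtype.ext
    exact hc_comm_aux hp3 hD c t (mem_RS.1 hu) (mem_RS.1 hu') (congrArg Subtype.val e)
  · intro r hr h1 h2
    exact faith_aux hp3 hD h5 hr h1 h2
  · intro r hr
    obtain ⟨m11, m12, m21, m22, h1, h2⟩ := exists_mat hD ((nm_US hp3 hD).1 hr)
    refine ⟨m11 * m22 - m12 * m21, ?_⟩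
    intro t
    apply Subtype.ext
    exact ln_act_z hD (h.GG_le p r.2) h1 h2 t
  · intro r hr c
    apply Subgroup.mem_sup_left
    exact mem_RS.2 (ln_cent hp3 hD (h.GG_le p r.2) ((nm_US hp3 hD).1 hr) c)
  · refine ⟨pw hD, pw_US hD, ?_⟩
    intro c
    apply Subtype.ext
    show π (ww _) * π (dg c) * (π (ww _))⁻¹ = π (dg c⁻¹)
    rw [← ww_dg, map_mul, map_mul, map_inv]
  · intro u hu hun
    exact Subtype.ext (ln_iU hD (mem_RS.1 hu) (nm_VS hp3 hD hun))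
  · intro v hv hvn
    exact Subtype.ext (ln_iV hD (mem_RS.1 hv) ((nm_US hp3 hD).1 hvn))
  · intro g hg
    obtain ⟨u, hu, huw⟩ := ln_opp hp3 hD (h.GG_le p g.2) (by
      intro u hu hw
      have h1 := hg ⟨u, hUG hu⟩ (mem_RS.2 hu) ((nm_cjU hp3 hD).2 hw)
      exact congrArg Subtype.val h1)
    refine ⟨⟨u, hUG hu⟩, mem_RS.2 hu, ?_⟩
    unfold US VS
    rw [cj_RS, cj_RS]
    exact RS_congr (eq_map hD huw).symm
  · refine ⟨pz hD 1, pz_mem hD 1, pl hD 1, pl_mem hD 1, ?_⟩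
    unfold US VS
    rw [cj_RS, cj_RS]
    exact RS_congr (eq_map hD (ln_uv hD)).symm
  · have h1 := ln_gen hp5 hD h5 (M := (US hD ⊔ VS hD).map (h.GG p).subtype)
      (fun u hu => ⟨⟨u, hUG hu⟩, Subgroup.mem_sup_left (mem_RS.2 hu), rfl⟩)
      (fun u hu => ⟨⟨u, hVG hu⟩, Subgroup.mem_sup_right (mem_RS.2 hu), rfl⟩)
    rw [eq_top_iff]
    intro g _
    obtain ⟨g', hg', hgg⟩ := h1 g.2
    have h3 : g' = g := Subtype.ext hgg
    rwa [← h3]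
  · refine ⟨Q, ?_, hQn⟩
    have h1 : IsPGroup p ((Q : Subgroup (h.GG p)) ⊔ US hD : Subgroup (h.GG p)) :=
      IsPGroup.to_sup_of_normal_right' Q.2 hpU hQn
    have h2 := Q.is_maximal' h1 le_sup_left
    calc US hD ≤ (Q : Subgroup (h.GG p)) ⊔ US hD := le_sup_right
      _ = Q := h2
  · intro g hg
    obtain ⟨s, hs⟩ := hg 1
    exact (nm_US hp3 hD).2 (ln_line hD (h.GG_le p g.2) ⟨s, congrArg Subtype.val hs⟩)

theorem aa_ln {p : ℕ} [Fact p.Prime] (hp5 : 5 ≤ p) {k : Type} [Field k] [IsAlgClosed k]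
    [CharP k p] {F V : Type} [Field F] [Finite F]
    [CharP F p] [AddCommGroup V] [Module F V] [Finite V] (h : HF F V) (hO : h.IsO)
    (h5 : 5 ≤ Module.finrank F V) {S : Type} [Group S] [Finite S] [IsSimpleGroup S]
    (hna : ∃ a b : S, a * b ≠ b * a) (e : S ≃* h.GG p ⧸ Subgroup.center (h.GG p))
    {α : MulAut S} (hα : orderOf α = p) : AA k α := by
  have hp3 : 3 ≤ p := by omega
  obtain ⟨U, W, z, hc, hP⟩ := ln_par hp5 h hO h5
  have hok : h.Ok := by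
    obtain ⟨x1, x2, y1, y2, hq, -⟩ := ln_syl (p := p) hp3 hO h5
      (Q := (⊥ : Subgroup (V ≃ₗ[F] V))) IsPGroup.of_bot bot_le
    exact ⟨⟨x1, hq.p1.x_ne, hq.p1.xx⟩, fun _ => Or.inr h5⟩
  have hcen : Subgroup.center S = ⊥ := by
    have hn : (Subgroup.center S).Normal := inferInstance
    rcases hn.eq_bot_or_eq_top with h1 | h1
    · exact h1
    · exfalso
      obtain ⟨a, b, hab⟩ := hna
      apply hab
      have h2 : b ∈ Subgroup.center S := by rw [h1]; exact Subgroup.mem_top b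
      exact Subgroup.mem_center_iff.1 h2 a
  exact aa_par_quot hp5 hP hcen e (fun s hs => win_classical hp5 h hok s hs) hα

end Pool.Agent.Helper54.OC
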