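import Pool.Agent.Helper54.OC.PtTs
import Pool.Agent.Helper54.OC.ParMain
import Pool.Agent.Helper54.CL.Win

/-!
# OC-24: automorphisms of order `p` of simple symplectic and unitary groups

PROOF.  Let `x ≠ 0` be isotropic, `Pair x y` (`ok_pair`), `κ` from `exists_kappa`, `π` from `exists_pi2`: `PtD h p x y κ π`.
`X = h.GG p`, `C = center X`, `U = (h.UU x).subgroupOf X`, `V = (h.UU y).subgroupOf X`, `z t = π (up t)`, `hc c = π (dg c)` (elements of `X` by `PtD.le`).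
`UU x, UU y ≤ GG p` (`UU_le_GG`).  For `g ∈ X`: `g ∈ nm U` iff `g x ∈ ⟨x⟩` (`pt_line`, `pt_nm`; `nm U` normalizes the center `{z t}` of `U`); `cj g U` is the group of
`UU (g x)` (`UU_conj` for `g` and `g⁻¹`), so it depends on the point `⟨g x⟩` only (`UU_smul`).
`z_add`, `hc_mul`, `hc_z`: `up_add`, `dg_mul`, `dg_up`.  `z_inj`: `π (up t) y = y + t κ x`.  `w = π (ww _)`: `w x = - κ⁻¹ y`, `ww_dg`.
`hc_comm`: `pt_comm`, `pt_act` with `c = σ c ∈ F0` (`p1 x y a = a`).  `faith`: the scalar `l` of `pt_faith` is `r u⁻¹ ∈ GG`, central.  `opp`: `pt_opp`; `uv`: `pt_uv`;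
`gen`: `GG_le_two`; `syl`: `Q` a Sylow subgroup of `X` containing `U` (`IsPGroup.exists_le_sylow`), `pt_syl`; `nz`: `pt_line`; `op`: `pt_op`; `ts`: `pt_ts`, transported
from `U` to `h.UU x`.  `cp`: `pt_card`.
`aa_pt`: `aa_par_quot` and `win_classical` (CL/Win.lean).
-/

set_option autoImplicit false
open scoped Pointwise

namespace Pool.Agent.Helper54.OC

open Pool.Agent.Helper54.CL
open Pool.Agent.Helper54.PW Pool.Agent.Helper54.RT

section
variable {p : ℕ} [Fact p.Prime] {F V : Type} [Field F] [Finite F] [CharP F p] [AddCommGroup V]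
  [Module F V] [Finite V] {h : HF F V} {x y : V} {κ : F}
  {π : Matrix.SpecialLinearGroup (Fin 2) h.F0 →* (V ≃ₗ[F] V)}

/-- `UU x` as a subgroup of `GG p` -/
private def US (p : ℕ) (h : HF F V) (x : V) : Subgroup (h.GG p) := (h.UU x).subgroupOf (h.GG p)

omit [Fact p.Prime] [Finite F] [CharP F p] [Finite V] in
private theorem mem_US {g : h.GG p} {v : V} : g ∈ US p h v ↔ (g : V ≃ₗ[F] V) ∈ h.UU v :=
  Subgroup.mem_subgroupOf

omit [Fact p.Prime] [Finite F] [CharP F p] [Finite V] in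
private theorem cj_US (g : h.GG p) (v : V) :
    cj g (US p h v) = US p h ((g : V ≃ₗ[F] V) v) := by
  ext w
  rw [mem_cj, mem_US, mem_US]
  have hg : (g : V ≃ₗ[F] V) ∈ h.Iso := h.GG_le p g.2
  constructor
  · intro hw
    have h1 := h.UU_conj hg v hw
    have h2 : (g : V ≃ₗ[F] V) * ((g⁻¹ * w * g : h.GG p) : V ≃ₗ[F] V) * (g : V ≃ₗ[F] V)⁻¹ = w := by
      push_cast; group
    rwa [h2] at h1
  · intro hw
    have h1 := h.UU_conj (h.Iso.inv_mem hg) _ hw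
    have h2 : (g : V ≃ₗ[F] V)⁻¹ * (w : V ≃ₗ[F] V) * ((g : V ≃ₗ[F] V)⁻¹)⁻¹ =
        ((g⁻¹ * w * g : h.GG p) : V ≃ₗ[F] V) := by
      push_cast; group
    have h3 : (g : V ≃ₗ[F] V)⁻¹ ((g : V ≃ₗ[F] V) v) = v := (g : V ≃ₗ[F] V).symm_apply_apply v
    rwa [h2, h3] at h1

omit [Fact p.Prime] [Finite F] [CharP F p] [Finite V] in
private theorem US_smul {c : F} (hc : c ≠ 0) (v : V) : US p h (c • v) = US p h v := by
  unfold US; rw [h.UU_smul hc]

/-- `z t` -/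
private def pz (hD : PtD h p x y κ π) (t : h.F0) : h.GG p := ⟨π (up t), hD.le ⟨up t, rfl⟩⟩

private def pl (hD : PtD h p x y κ π) (t : h.F0) : h.GG p := ⟨π (lo t), hD.le ⟨lo t, rfl⟩⟩

private def ph (hD : PtD h p x y κ π) (c : (h.F0)ˣ) : h.GG p := ⟨π (dg c), hD.le ⟨dg c, rfl⟩⟩

private def pw (hD : PtD h p x y κ π) : h.GG p := ⟨π (ww _), hD.le ⟨ww _, rfl⟩⟩

omit [Fact p.Prime] [Finite F] [CharP F p] [Finite V] in
private theorem pz_mem (hD : PtD h p x y κ π) (t : h.F0) : pz hD t ∈ US p h x := pt_up_mem hD t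

omit [Fact p.Prime] [Finite F] [CharP F p] [Finite V] in
private theorem pl_mem (hD : PtD h p x y κ π) (t : h.F0) : pl hD t ∈ US p h y := pt_lo_mem hD t

omit [Fact p.Prime] [Finite F] [CharP F p] [Finite V] in
private theorem dg_x (hD : PtD h p x y κ π) (c : (h.F0)ˣ) :
    π (dg c) x = ((c : h.F0) : F) • x := by
  rw [pt_dg hD, hD.pair.yx, hD.pair.xx, h.eps, mul_zero, zero_smul, add_zero, mul_one, sub_smul,
    one_smul]
  abel

omit [Fact p.Prime] [Finite F] [CharP F p] [Finite V] in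
private theorem p1_y_zero (hD : PtD h p x y κ π) : h.p1 x y y = 0 := by
  simp [HF.p1, hD.pair.yy, hD.pair.xy]

omit [Fact p.Prime] [Finite F] [CharP F p] [Finite V] in
private theorem pa_one (hD : PtD h p x y κ π) : pa h x y 1 = 0 := p1_y_zero hD

omit [Fact p.Prime] [Finite F] [CharP F p] [Finite V] in
private theorem pa_up (hD : PtD h p x y κ π) (t : h.F0) : pa h x y (π (up t)) = 0 := by
  unfold pa
  rw [pt_up hD, hD.pair.xy]
  simp only [HF.p1, h.add_right, h.smul_right, hD.pair.yy, hD.pair.xy, hD.pair.yx, hD.pair.xx]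
  have e := h.eps
  have e2 : h.ε * (0 + (t : F) * κ * 1 * h.ε) = (t : F) * κ := by
    linear_combination (t : F) * κ * e
  rw [e2]
  module

omit [Fact p.Prime] [Finite F] [CharP F p] [Finite V] in
private theorem pa_inv (hD : PtD h p x y κ π) {u : V ≃ₗ[F] V} (hu : u ∈ h.UU x) :
    pa h x y u⁻¹ = - pa h x y u := by
  have h1 := pt_mul hD hu ((h.UU x).inv_mem hu)
  rw [mul_inv_cancel, pa_one hD] at h1
  rw [eq_comm, neg_eq_iff_add_eq_zero]
  exact h1.symm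

omit [Fact p.Prime] [Finite F] [CharP F p] [Finite V] in
private theorem up_inj' (hD : PtD h p x y κ π) {s t : h.F0} (e : π (up s) = π (up t)) :
    s = t := by
  have h1 := congrArg (fun f : V ≃ₗ[F] V => f y) e
  simp only [pt_up hD, hD.pair.xy, mul_one] at h1
  have h2 := add_left_cancel h1
  have h3 : ((s : F) * κ - (t : F) * κ) • x = 0 := by rw [sub_smul, h2, sub_self]
  rcases smul_eq_zero.1 h3 with h4 | h4
  · have h5 : ((s : F) - t) * κ = 0 := by rw [sub_mul]; exact h4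
    rcases mul_eq_zero.1 h5 with h6 | h6
    · exact Subtype.ext (sub_eq_zero.1 h6)
    · exact absurd h6 hD.k0
  · exact absurd h4 hD.pair.x_ne

omit [Fact p.Prime] [Finite F] [CharP F p] [Finite V] in
private theorem up_comm (hD : PtD h p x y κ π) (t : h.F0) {u : V ≃ₗ[F] V} (hu : u ∈ h.UU x) :
    π (up t) * u = u * π (up t) := by
  obtain ⟨s, hs, hs'⟩ := pt_comm hD (pt_up_mem hD t) hu
  rw [pa_up hD, h.zero_left, map_zero, mul_zero, sub_zero] at hs'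
  have h0 : s = 0 := by
    rcases mul_eq_zero.1 hs' with h1 | h1
    · exact Subtype.ext h1
    · exact absurd h1 hD.k0
  rw [h0, up_zero, map_one] at hs
  rw [mul_inv_eq_one, mul_inv_eq_iff_eq_mul] at hs
  exact hs

omit [Fact p.Prime] [Finite F] [CharP F p] [Finite V] in
private theorem g_mul_eq {c : F} {g : V ≃ₗ[F] V} {v : V} (hv : v ≠ 0) (hg : g v = c • v) :
    c ≠ 0 := by
  rintro rfl
  rw [zero_smul] at hg
  exact hv (g.map_eq_zero_iff.1 hg)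

omit [Finite F] [Finite V] in
private theorem nm_US (hp3 : 3 ≤ p) (hD : PtD h p x y κ π) {g : h.GG p} :
    g ∈ nm (US p h x) ↔ ∃ c : F, (g : V ≃ₗ[F] V) x = c • x := by
  constructor
  · intro hg
    rw [mem_nm'] at hg
    have hgI : (g : V ≃ₗ[F] V) ∈ h.Iso := h.GG_le p g.2
    obtain ⟨s, hs⟩ := pt_cen hp3 hD (u := (g : V ≃ₗ[F] V) * π (up 1) * (g : V ≃ₗ[F] V)⁻¹)
      (mem_US.1 ((hg (pz hD 1)).1 (pz_mem hD 1))) (by
        intro u' hu'
        have hu2 : u' ∈ h.GG p := h.UU_le_GG hp3 hD.pair hu'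
        have h1 : (⟨u', hu2⟩ : h.GG p) = g * (g⁻¹ * ⟨u', hu2⟩ * g) * g⁻¹ := by group
        have h2 : g⁻¹ * ⟨u', hu2⟩ * g ∈ US p h x := by
          rw [hg, ← h1]; exact mem_US.2 hu'
        have h3 := up_comm hD 1 (mem_US.1 h2)
        push_cast at h3
        have h4 : u' = (g : V ≃ₗ[F] V) * ((g : V ≃ₗ[F] V)⁻¹ * u' * g) * (g : V ≃ₗ[F] V)⁻¹ := by
          group
        calc (g : V ≃ₗ[F] V) * π (up 1) * (g : V ≃ₗ[F] V)⁻¹ * u'
            = g * (π (up 1) * ((g : V ≃ₗ[F] V)⁻¹ * u' * g)) * (g : V ≃ₗ[F] V)⁻¹ := by group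
          _ = g * (((g : V ≃ₗ[F] V)⁻¹ * u' * g) * π (up 1)) * (g : V ≃ₗ[F] V)⁻¹ := by rw [h3]
          _ = u' * ((g : V ≃ₗ[F] V) * π (up 1) * (g : V ≃ₗ[F] V)⁻¹) := by group)
    obtain ⟨c, -, hc⟩ := pt_line hD hgI ⟨s, hs⟩
    exact ⟨c, hc⟩
  · rintro ⟨c, hc⟩
    rw [mem_nm, cj_US, hc, US_smul (g_mul_eq hD.pair.x_ne hc)]

omit [Finite F] [Finite V] in
private theorem nm_US' (hp3 : 3 ≤ p) (hD : PtD h p x y κ π) {g g0 : h.GG p}
    (hg : g ∈ nm (US p h ((g0 : V ≃ₗ[F] V) x))) :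
    ∃ c : F, (g : V ≃ₗ[F] V) ((g0 : V ≃ₗ[F] V) x) = c • (g0 : V ≃ₗ[F] V) x := by
  rw [← cj_US, nm_cj, mem_cj, nm_US hp3 hD] at hg
  obtain ⟨c, hc⟩ := hg
  refine ⟨c, ?_⟩
  have h1 := congrArg (g0 : V ≃ₗ[F] V) hc
  rw [map_smul] at h1
  rw [← h1]
  have h2 : ((g0⁻¹ * g * g0 : h.GG p) : V ≃ₗ[F] V) x =
      (g0 : V ≃ₗ[F] V)⁻¹ ((g : V ≃ₗ[F] V) ((g0 : V ≃ₗ[F] V) x)) := by
    push_cast; rfl
  rw [h2]
  exact ((g0 : V ≃ₗ[F] V).apply_symm_apply _).symm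

omit [Fact p.Prime] [Finite F] [CharP F p] [Finite V] in
private theorem pw_US (hD : PtD h p x y κ π) : cj (pw hD) (US p h x) = US p h y := by
  rw [cj_US]
  have h1 : ((pw hD : h.GG p) : V ≃ₗ[F] V) x = (-κ⁻¹) • y := by
    rw [neg_smul]; exact (pt_ww hD).1
  rw [h1, US_smul (neg_ne_zero.2 (inv_ne_zero hD.k0))]

omit [Finite F] [Finite V] in
private theorem nm_USy (hp3 : 3 ≤ p) (hD : PtD h p x y κ π) {g : h.GG p}
    (hg : g ∈ nm (US p h y)) : ∃ c : F, (g : V ≃ₗ[F] V) y = c • y := by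
  have h1 : ((pw hD : h.GG p) : V ≃ₗ[F] V) x = (-κ⁻¹) • y := by
    rw [neg_smul]; exact (pt_ww hD).1
  have hk : (-κ⁻¹ : F) ≠ 0 := neg_ne_zero.2 (inv_ne_zero hD.k0)
  have h2 : US p h y = US p h (((pw hD : h.GG p) : V ≃ₗ[F] V) x) := by
    rw [h1, US_smul hk]
  rw [h2] at hg
  obtain ⟨c, hc⟩ := nm_US' hp3 hD hg
  rw [h1, map_smul, smul_comm] at hc
  exact ⟨c, smul_right_injective V hk hc⟩

omit [Finite F] [Finite V] in
private theorem iV_aux (hD : PtD h p x y κ π) {v : V ≃ₗ[F] V} (hv : v ∈ h.UU y)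
    (hvG : v ∈ h.GG p) {c : F} (hx : v x = c • x) : v = 1 := by
  set w : V ≃ₗ[F] V := π (ww _) with hw
  have e1 : w y = κ • x := (pt_ww hD).2.1
  have h1 : w⁻¹ * v * w ∈ h.UU x := by
    have h2 : (pw hD)⁻¹ * ⟨v, hvG⟩ * pw hD ∈ US p h x := by
      rw [← mem_cj, pw_US hD]; exact mem_US.2 hv
    have h3 := mem_US.1 h2
    push_cast at h3
    exact h3
  have h4 : (w⁻¹ * v * w) y = c • y := by
    show w⁻¹ (v (w y)) = c • y
    rw [e1, map_smul, hx, smul_comm, ← e1, map_smul]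
    congr 1
    exact w.symm_apply_apply y
  have h5 := pt_iU hD h1 h4
  have h6 : v = w * (w⁻¹ * v * w) * w⁻¹ := by group
  rw [h6, h5]; group

end

section
variable {p : ℕ} [Fact p.Prime] {F V : Type} [Field F] [Finite F] [CharP F p] [AddCommGroup V]
  [Module F V] [Finite V] {h : HF F V} {x y : V} {κ : F}
  {π : Matrix.SpecialLinearGroup (Fin 2) h.F0 →* (V ≃ₗ[F] V)}

private theorem ts_aux (hp5 : 5 ≤ p) (hD : PtD h p x y κ π) :
    ∀ φ : MulAut (US p h x), φ ^ p = 1 →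
      (∀ t, φ ⟨pz hD t, pz_mem hD t⟩ = ⟨pz hD t, pz_mem hD t⟩) →
    (∀ r ∈ nm (US p h x), ∃ r' ∈ nm (US p h x), ∀ u v : US p h x, (v : h.GG p) = r * u * r⁻¹ →
      (φ v : h.GG p) = r' * φ u * r'⁻¹) →
    ∃ s ∈ nm (US p h x), (∀ u : US p h x, ∃ t, s * φ u * s⁻¹ * (u : h.GG p)⁻¹ = pz hD t) ∧
      ∀ t, s * pz hD t * s⁻¹ = pz hD t := by
  intro φ hφ hz hr
  have hp3 : 3 ≤ p := by omega
  have hle : h.UU x ≤ h.GG p := h.UU_le_GG hp3 hD.pair
  let e : US p h x ≃* h.UU x := Subgroup.subgroupOfEquivOfLe hle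
  have he : ∀ u : US p h x, ((e u : h.UU x) : V ≃ₗ[F] V) = ((u : h.GG p) : V ≃ₗ[F] V) :=
    fun u => rfl
  have he' : ∀ u : h.UU x, (((e.symm u : US p h x) : h.GG p) : V ≃ₗ[F] V) = (u : V ≃ₗ[F] V) := by
    intro u
    rw [← he, e.apply_symm_apply]
  let φ' : MulAut (h.UU x) := MulAut.congr e φ
  have hφ1 : ∀ u : h.UU x, φ' u = e (φ (e.symm u)) := fun u => rfl
  have hφ' : φ' ^ p = 1 := by
    show (MulAut.congr e φ) ^ p = 1
    rw [← map_pow, hφ, map_one]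
  obtain ⟨s, hs, hsx, hs'⟩ := pt_ts hp5 hD φ' hφ' (by
      intro t
      rw [hφ1, he]
      have h1 : e.symm ⟨π (up t), pt_up_mem hD t⟩ = ⟨pz hD t, pz_mem hD t⟩ := by
        apply e.injective
        rw [e.apply_symm_apply]
        rfl
      rw [h1, hz]
      rfl) (by
      intro r hrG hrx
      obtain ⟨r', hr', hr2⟩ := hr ⟨r, hrG⟩ ((nm_US hp3 hD).2 hrx)
      refine ⟨r', r'.2, (nm_US hp3 hD).1 hr', ?_⟩
      intro u v huv
      have h1 := hr2 (e.symm u) (e.symm v) (by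
        apply Subtype.ext
        rw [he', huv]
        push_cast
        rw [he'])
      have h2 := congrArg (fun g : h.GG p => (g : V ≃ₗ[F] V)) h1
      rw [hφ1, hφ1, he, he, h2]
      push_cast
      rfl)
  have hsI : s ∈ h.Iso := h.GG_le p hs
  have hsx1 : s x = (1 : F) • x := by rw [hsx, one_smul]
  refine ⟨⟨s, hs⟩, (nm_US hp3 hD).2 ⟨1, hsx1⟩, ?_, ?_⟩
  · intro u
    have hu : ((u : h.GG p) : V ≃ₗ[F] V) ∈ h.UU x := mem_US.1 u.2
    have h1 := hs' (e u)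
    rw [hφ1, e.symm_apply_apply, he, he] at h1
    have hfu : (((φ u : US p h x) : h.GG p) : V ≃ₗ[F] V) ∈ h.UU x := mem_US.1 (φ u).2
    have h2 : s * (((φ u : US p h x) : h.GG p) : V ≃ₗ[F] V) * s⁻¹ ∈ h.UU x :=
      (pt_nm hD hsI one_ne_zero hsx1 _).1 hfu
    have h3 : pa h x y (s * (((φ u : US p h x) : h.GG p) : V ≃ₗ[F] V) * s⁻¹ *
        ((u : h.GG p) : V ≃ₗ[F] V)⁻¹) = 0 := by
      rw [pt_mul hD h2 ((h.UU x).inv_mem hu), pa_inv hD hu, h1, add_neg_cancel]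
    obtain ⟨t, ht⟩ := pt_ker hD ((h.UU x).mul_mem h2 ((h.UU x).inv_mem hu)) h3
    refine ⟨t, ?_⟩
    apply Subtype.ext
    push_cast
    exact ht
  · intro t
    obtain ⟨s', hs1, hs2⟩ := pt_act_z hD hsI hsx1 t
    have h1 : s' = t := by
      apply Subtype.ext
      rw [hs1, map_one, one_mul, one_mul]
    apply Subtype.ext
    push_cast
    rw [h1] at hs2
    exact hs2

private theorem op_aux (hp3 : 3 ≤ p) (hD : PtD h p x y κ π) (O : Subgroup (h.GG p))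
    (hO : IsPGroup p O) (h1 : O ≤ nm (US p h x)) (h2 : nm (US p h x) ≤ nm O) :
    O ≤ US p h x := by
  have key := pt_op hp3 hD (O := O.map (h.GG p).subtype) (hO.map _) (by
      rintro _ ⟨o, -, rfl⟩
      exact o.2) (by
      rintro _ ⟨o, ho, rfl⟩
      exact (nm_US hp3 hD).1 (h1 ho)) (by
      rintro g hg hgx _ ⟨o, ho, rfl⟩
      have h3 := mem_nm'.1 (h2 ((nm_US hp3 hD (g := ⟨g, hg⟩)).2 hgx)) o
      exact ⟨_, h3.1 ho, rfl⟩)
  intro o ho
  exact mem_US.2 (key ⟨o, ho, rfl⟩)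

private theorem syl_aux (hp3 : 3 ≤ p) (hD : PtD h p x y κ π) (hU : IsPGroup p (US p h x)) :
    ∃ Q : Sylow p (h.GG p), US p h x ≤ (Q : Subgroup (h.GG p)) ∧
      (Q : Subgroup (h.GG p)) ≤ nm (US p h x) := by
  obtain ⟨Q, hQ⟩ := hU.exists_le_sylow
  refine ⟨Q, hQ, ?_⟩
  have key := pt_syl hp3 hD (Q := (Q : Subgroup (h.GG p)).map (h.GG p).subtype)
    (Q.2.map _) (by
      rintro _ ⟨o, -, rfl⟩
      exact h.GG_le p o.2) (by
      intro u hu
      have hu2 : u ∈ h.GG p := h.UU_le_GG hp3 hD.pair hu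
      exact ⟨⟨u, hu2⟩, hQ (mem_US.2 hu), rfl⟩)
  intro q hq
  exact (nm_US hp3 hD).2 ⟨1, by rw [one_smul]; exact key q ⟨q, hq, rfl⟩⟩

private theorem faith_aux (hp3 : 3 ≤ p) (hD : PtD h p x y κ π) {r : h.GG p}
    (hr : r ∈ nm (US p h x)) (h1 : ∀ u ∈ US p h x, ∃ t, r * u * r⁻¹ * u⁻¹ = pz hD t)
    (h2 : ∀ t, r * pz hD t * r⁻¹ = pz hD t) :
    r ∈ US p h x ⊔ Subgroup.center (h.GG p) := by
  obtain ⟨c, hc⟩ := (nm_US hp3 hD).1 hr
  obtain ⟨u, hu, l, hl, hrl⟩ := pt_faith hp3 hD (h.GG_le p r.2) hc (by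
      intro u hu
      have hu2 : u ∈ h.GG p := h.UU_le_GG hp3 hD.pair hu
      obtain ⟨t, ht⟩ := h1 ⟨u, hu2⟩ (mem_US.2 hu)
      have h3 := congrArg (fun g : h.GG p => (g : V ≃ₗ[F] V)) ht
      push_cast at h3
      have h4 : (r : V ≃ₗ[F] V) * u * (r : V ≃ₗ[F] V)⁻¹ = π (up t) * u := by
        rw [← mul_inv_eq_iff_eq_mul]; exact h3
      rw [h4, pt_mul hD (pt_up_mem hD t) hu, pa_up hD, zero_add]) (by
      intro t
      have h3 := congrArg (fun g : h.GG p => (g : V ≃ₗ[F] V)) (h2 t)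
      push_cast at h3
      exact h3)
  have hu2 : u ∈ h.GG p := h.UU_le_GG hp3 hD.pair hu
  have h5 : r = ⟨u, hu2⟩ * ((⟨u, hu2⟩ : h.GG p)⁻¹ * r) := by group
  rw [h5]
  refine Subgroup.mul_mem_sup (mem_US.2 hu) ?_
  have h6 : ∀ v, (((⟨u, hu2⟩ : h.GG p)⁻¹ * r : h.GG p) : V ≃ₗ[F] V) v = l • v := by
    intro v
    push_cast
    show u⁻¹ ((r : V ≃ₗ[F] V) v) = l • v
    rw [hrl, map_smul]
    congr 1
    exact u.symm_apply_apply v
  rw [Subgroup.mem_center_iff]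
  intro g
  apply Subtype.ext
  ext v
  show (g : V ≃ₗ[F] V) ((((⟨u, hu2⟩ : h.GG p)⁻¹ * r : h.GG p) : V ≃ₗ[F] V) v) =
    (((⟨u, hu2⟩ : h.GG p)⁻¹ * r : h.GG p) : V ≃ₗ[F] V) ((g : V ≃ₗ[F] V) v)
  rw [h6, h6, map_smul]

private theorem hc_comm_aux (hD : PtD h p x y κ π) (c : (h.F0)ˣ) (t : h.F0)
    {u u' : V ≃ₗ[F] V} (hu : u ∈ h.UU x) (hu' : u' ∈ h.UU x)
    (e : u * u' * u⁻¹ * u'⁻¹ = π (up t)) :
    (π (dg c) * u * (π (dg c))⁻¹) * u' * (π (dg c) * u * (π (dg c))⁻¹)⁻¹ * u'⁻¹ =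
      π (up ((c : h.F0) * t)) := by
  have hI : π (dg c) ∈ h.Iso := h.GG_le p (hD.le ⟨dg c, rfl⟩)
  have hc0 : (((c : h.F0) : F)) ≠ 0 := by
    intro h0
    exact c.ne_zero (Subtype.ext h0)
  have hu2 : π (dg c) * u * (π (dg c))⁻¹ ∈ h.UU x := (pt_nm hD hI hc0 (dg_x hD c) u).1 hu
  obtain ⟨t0, ht0, ht0'⟩ := pt_comm hD hu hu'
  obtain ⟨t2, ht2, ht2'⟩ := pt_comm hD hu2 hu'
  have h0 : t0 = t := up_inj' hD (by rw [← ht0, e])
  subst h0
  obtain ⟨hax, hay, -⟩ := pt_form hD hu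
  have hσ : h.σ ((c : h.F0) : F) = ((c : h.F0) : F) := (c : h.F0).2
  have h1 : pa h x y (π (dg c) * u * (π (dg c))⁻¹) = ((c : h.F0) : F) • pa h x y u := by
    rw [pt_act hD hI (dg_x hD c) hu, hσ, pt_dg hD, hax, hay]
    congr 1
    simp [HF.p1, hax, hay]
  rw [ht2]
  congr 2
  apply Subtype.ext
  apply mul_right_cancel₀ hD.k0
  rw [ht2', h1, h.smul_left, hσ, map_mul, hσ]
  show _ = ((c : h.F0) : F) * ((t0 : h.F0) : F) * κ
  linear_combination -((c : h.F0) : F) * ht0'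

end

theorem pt_par {p : ℕ} [Fact p.Prime] (hp5 : 5 ≤ p) {F V : Type} [Field F] [Finite F]
    [CharP F p] [AddCommGroup V] [Module F V] [Finite V] (h : HF F V) (hok : h.Ok)
    (hO : ¬ h.IsO) :
    ∃ (U W : Subgroup (h.GG p)) (z : h.F0 → h.GG p) (hc : (h.F0)ˣ → h.GG p),
      Par p h.F0 (Subgroup.center (h.GG p)) U W z hc := by
  have hp3 : 3 ≤ p := by omega
  have hF2 : (2 : F) ≠ 0 := HF.two_ne (p := p) (by omega)
  obtain ⟨x, y, hp⟩ := h.ok_pair hF2 hok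
  obtain ⟨κ, hk0, hkk⟩ := h.exists_kappa (p := p) hp3 hO
  obtain ⟨π, hle, hap, -⟩ := h.exists_pi2 (p := p) hp3 hp hk0 hkk
  have hD : PtD h p x y κ π := ⟨hp, hk0, hkk, hle, hap⟩
  have hUG : h.UU x ≤ h.GG p := h.UU_le_GG hp3 hp
  have hpy : h.Pair y (h.ε • x) := by
    refine ⟨hp.yy, ?_, ?_⟩
    · rw [h.smul_left, h.smul_right, hp.xx, mul_zero, mul_zero]
    · rw [h.smul_right, hp.yx, h.eps]
  have hVG : h.UU y ≤ h.GG p := h.UU_le_GG hp3 hpy
  have hpU : IsPGroup p (US p h x) := by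
    rintro ⟨u, hu⟩
    refine ⟨1, ?_⟩
    apply Subtype.ext
    apply Subtype.ext
    push_cast
    rw [pow_one]
    exact h.UU_pow hp3 hp (mem_US.1 hu)
  refine ⟨US p h x, US p h y, pz hD, ph hD, ?_⟩
  refine
    { cen := le_rfl
      cp := pt_card h hp5 hok
      pU := hpU
      z_add := ?_
      z_inj := ?_
      z_mem := pz_mem hD
      z_comm := ?_
      z_cen := ?_
      comm := ?_
      hc_mul := ?_
      hc_z := ?_
      hc_U := ?_
      hc_comm := ?_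
      faith := ?_
      scal := ?_
      cent := ?_
      w := ?_
      iU := ?_
      iV := ?_
      opp := ?_
      uv := ?_
      gen := ?_
      syl := syl_aux hp3 hD hpU
      nz := ?_
      op := fun O hO h1 h2 => op_aux hp3 hD O hO h1 h2
      ts := ts_aux hp5 hD }
  · intro s t
    apply Subtype.ext
    show π (up (s + t)) = π (up s) * π (up t)
    rw [up_add, map_mul]
  · intro t ht
    apply up_inj' hD
    rw [up_zero, map_one]
    exact congrArg Subtype.val ht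
  · intro t u hu
    apply Subtype.ext
    exact up_comm hD t (mem_US.1 hu)
  · intro u hu hc
    obtain ⟨t, ht⟩ := pt_cen hp3 hD (mem_US.1 hu) (by
      intro u' hu'
      exact congrArg Subtype.val (hc ⟨u', hUG hu'⟩ (mem_US.2 hu')))
    exact ⟨t, Subtype.ext ht⟩
  · intro u hu u' hu'
    obtain ⟨t, ht, -⟩ := pt_comm hD (mem_US.1 hu) (mem_US.1 hu')
    exact ⟨t, Subtype.ext ht⟩
  · intro c d
    apply Subtype.ext
    show π (dg (c * d)) = π (dg c) * π (dg d)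
    rw [dg_mul, map_mul]
  · intro c t
    apply Subtype.ext
    show π (dg c) * π (up t) * (π (dg c))⁻¹ = π (up ((c : h.F0) * (c : h.F0) * t))
    rw [← dg_up, map_mul, map_mul, map_inv]
  · intro c u hu
    have hI : π (dg c) ∈ h.Iso := h.GG_le p (hD.le ⟨dg c, rfl⟩)
    have hc0 : (((c : h.F0) : F)) ≠ 0 := by
      intro h0
      exact c.ne_zero (Subtype.ext h0)
    exact mem_US.2 ((pt_nm hD hI hc0 (dg_x hD c) _).1 (mem_US.1 hu))
  · intro c t u hu u' hu' e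
    apply Subtype.ext
    exact hc_comm_aux hD c t (mem_US.1 hu) (mem_US.1 hu') (congrArg Subtype.val e)
  · intro r hr h1 h2
    exact faith_aux hp3 hD hr h1 h2
  · intro r hr
    obtain ⟨c, hc⟩ := (nm_US hp3 hD).1 hr
    refine ⟨⟨c * h.σ c, ?_⟩, ?_⟩
    · show h.σ (c * h.σ c) = c * h.σ c
      rw [map_mul, h.invol, mul_comm]
    · intro t
      obtain ⟨s, hs, hs'⟩ := pt_act_z hD (h.GG_le p r.2) hc t
      apply Subtype.ext
      show (r : V ≃ₗ[F] V) * π (up t) * (r : V ≃ₗ[F] V)⁻¹ = π (up _)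
      rw [hs']
      congr 2
      apply Subtype.ext
      rw [hs]
      rfl
  · intro r hr c
    obtain ⟨c', hc'⟩ := (nm_US hp3 hD).1 hr
    apply Subgroup.mem_sup_left
    exact mem_US.2 (pt_cent hD (h.GG_le p r.2) hc' c)
  · refine ⟨pw hD, pw_US hD, ?_⟩
    intro c
    apply Subtype.ext
    show π (ww _) * π (dg c) * (π (ww _))⁻¹ = π (dg c⁻¹)
    rw [← ww_dg, map_mul, map_mul, map_inv]
  · intro u hu hun
    obtain ⟨c, hc⟩ := nm_USy hp3 hD hun
    exact Subtype.ext (pt_iU hD (mem_US.1 hu) hc)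
  · intro v hv hvn
    obtain ⟨c, hc⟩ := (nm_US hp3 hD).1 hvn
    exact Subtype.ext (iV_aux hD (mem_US.1 hv) v.2 hc)
  · intro g hg
    rw [cj_US] at hg
    obtain ⟨u, hu, c, hc, huc⟩ := pt_opp hD (h.GG_le p g.2) (by
      rintro u hu ⟨c, hc⟩
      have h1 := hg ⟨u, hUG hu⟩ (mem_US.2 hu) (by
        have hgx : (g : V ≃ₗ[F] V) x ≠ 0 := by
          intro h0
          exact hp.x_ne ((g : V ≃ₗ[F] V).map_eq_zero_iff.1 h0)
        have hc0 : c ≠ 0 := g_mul_eq hgx hc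
        rw [mem_nm, cj_US]
        show US p h (u ((g : V ≃ₗ[F] V) x)) = _
        rw [hc, US_smul hc0])
      exact congrArg Subtype.val h1)
    refine ⟨⟨u, hUG hu⟩, mem_US.2 hu, ?_⟩
    rw [cj_US, cj_US]
    show _ = US p h (u y)
    rw [huc, US_smul hc]
  · refine ⟨pz hD 1, pz_mem hD 1, pl hD 1, pl_mem hD 1, ?_⟩
    rw [cj_US, cj_US]
    show US p h (π (lo 1) x) = US p h (π (up 1) y)
    rw [pt_uv hD, US_smul hk0]
  · have h1 := h.GG_le_two (p := p) hp3 hp.xx hp.yy (by rw [hp.xy]; exact one_ne_zero)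
      (M := (US p h x ⊔ US p h y).map (h.GG p).subtype)
      (fun u hu => ⟨⟨u, hUG hu⟩, Subgroup.mem_sup_left (mem_US.2 hu), rfl⟩)
      (fun u hu => ⟨⟨u, hVG hu⟩, Subgroup.mem_sup_right (mem_US.2 hu), rfl⟩)
    rw [eq_top_iff]
    intro g _
    obtain ⟨g', hg', hgg⟩ := h1 g.2
    have h3 : g' = g := Subtype.ext hgg
    rwa [← h3]
  · intro g hg
    obtain ⟨s, hs⟩ := hg 1
    obtain ⟨c, -, hc⟩ := pt_line hD (h.GG_le p g.2) ⟨s, congrArg Subtype.val hs⟩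
    exact (nm_US hp3 hD).2 ⟨c, hc⟩

theorem aa_pt {p : ℕ} [Fact p.Prime] (hp5 : 5 ≤ p) {k : Type} [Field k] [IsAlgClosed k]
    [CharP k p] {F V : Type} [Field F] [Finite F]
    [CharP F p] [AddCommGroup V] [Module F V] [Finite V] (h : HF F V) (hok : h.Ok)
    (hO : ¬ h.IsO) {S : Type} [Group S] [Finite S] [IsSimpleGroup S]
    (hna : ∃ a b : S, a * b ≠ b * a) (e : S ≃* h.GG p ⧸ Subgroup.center (h.GG p))
    {α : MulAut S} (hα : orderOf α = p) : AA k α := by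
  obtain ⟨U, W, z, hc, hP⟩ := pt_par hp5 h hok hO
  have hcen : Subgroup.center S = ⊥ := by
    have hn : (Subgroup.center S).Normal := inferInstance
    rcases hn.eq_bot_or_eq_top with h1 | h1
    · exact h1
    · exfalso
      obtain ⟨a, b, hab⟩ := hna
      apply hab
      have h2 : b ∈ Subgroup.center S := by rw [h1]; exact Subgroup.mem_top b
      exact Subgroup.mem_center_iff.1 h2 a
  exact aa_par_quot hp5 hP hcen e (fun s hs => win_classical hp5 h hok s hs) hα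

end Pool.Agent.Helper54.OC
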