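import Mathlib

/-!
# OC-15: invariant subspaces of `W^* × W`

PROOF.  `r = dim W`; `r = 0` is trivial.  Let `E1 = W^* × 0`, `E2 = 0 × W`.  If `B` is contained in the union of `E1` and `E2` it is contained in one of them (subspaces).
Otherwise there is `(f, x) ∈ B` with `f ≠ 0` and `x ≠ 0`.  Let `γ` be a generator of `Fˣ`; `|F| ≥ 5`, so `γ² ≠ 1`, `γ³ ≠ 1`.
For `y ∈ W` with `f y = 1` take `g = 1 + (γ - 1) y f` (`v ↦ v + (γ - 1) (f v) y`, determinant `γ`), `α = γ`, `β = γ⁻²`: `f ↦ γ f ∘ g⁻¹ = f` (`f ∘ g = γ f`) and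
`x ↦ γ² (x + (γ - 1) (f x) y)`.  If `f x = 0`, this is `γ² x ≠ x`; if `f x ≠ 0` choose `y = x / (f x)`: it is `γ³ x ≠ x`.  The difference gives
`(0, x'') ∈ B`, `x'' ≠ 0`.  With `g = 1 + y ψ` (determinant one), `ψ x'' = 1`, `ψ y = 0`, `α = β = 1`: `(0, y) ∈ B`; so `E2 ⊆ B` (if `r = 1` clear; every `y` which is
not a multiple of `x''` is in `ker ψ` for some `ψ` with `ψ x'' = 1`).
In the same way, for `ψ` with `ψ x = 1`, `g = 1 + (γ - 1) x ψ`, `β = γ`, `α = γ⁻²`: `x ↦ β⁻¹ g x = x`, and `f ↦ γ⁻² f ∘ g⁻¹`, `f ∘ g⁻¹ = f + (γ⁻¹ - 1) (f x) ψ`.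
If `f x = 0` it is `γ⁻² f ≠ f`; otherwise choose `ψ = f / (f x)`, it is `γ⁻³ f ≠ f`.  So `(f'', 0) ∈ B`, `f'' ≠ 0`, and with `g = 1 + y ψ`, `ψ y = 0`, `f'' y = 1`:
`f'' ∘ g⁻¹ = f'' - ψ`, so `(ψ, 0) ∈ B` for all `ψ` with `ψ y = 0` for some `y` with `f'' y = 1`; `E1 ⊆ B`.  Then `B = ⊤`, `dim B = 2 r > r`, a contradiction.
-/

set_option autoImplicit false

namespace Pool.Agent.Helper54.OC

private theorem is_unit_exists {F : Type} [Field F] [Finite F] (hF : 5 ≤ Nat.card F) :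
    ∃ γ : Fˣ, γ ^ 2 ≠ 1 ∧ γ ^ 3 ≠ 1 := by
  obtain ⟨γ, hγ⟩ := IsCyclic.exists_generator (α := Fˣ)
  have hc : orderOf γ = Nat.card Fˣ := orderOf_eq_card_of_forall_mem_zpowers hγ
  have hc2 : Nat.card Fˣ = Nat.card F - 1 := Nat.card_units F
  refine ⟨γ, fun h => ?_, fun h => ?_⟩
  · have := Nat.le_of_dvd (by norm_num) (orderOf_dvd_of_pow_eq_one h)
    omega
  · have := Nat.le_of_dvd (by norm_num) (orderOf_dvd_of_pow_eq_one h)
    omega

section isaux
variable {F W : Type} [Field F] [AddCommGroup W] [Module F W]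

private theorem is_dual {x y : W} (hx : x ≠ 0) (hy : ∀ c : F, y ≠ c • x) :
    ∃ ψ : Module.Dual F W, ψ x = 1 ∧ ψ y = 0 := by
  have h1 : x ∉ Submodule.span F {y} := by
    intro h
    obtain ⟨c, hc⟩ := Submodule.mem_span_singleton.1 h
    have hc0 : c ≠ 0 := by
      rintro rfl
      rw [zero_smul] at hc
      exact hx hc.symm
    apply hy c⁻¹
    rw [← hc, inv_smul_smul₀ hc0]
  obtain ⟨f, hf, hk⟩ := Submodule.exists_le_ker_of_notMem h1
  refine ⟨(f x)⁻¹ • f, ?_, ?_⟩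
  · rw [LinearMap.smul_apply, smul_eq_mul, inv_mul_cancel₀ hf]
  · have h2 : f y = 0 := hk (Submodule.mem_span_singleton_self y)
    rw [LinearMap.smul_apply, h2, smul_zero]

private theorem is_predual {f ψ : Module.Dual F W} (hψ : ψ ≠ 0) (hf : ∀ c : F, f ≠ c • ψ) :
    ∃ y : W, f y = 1 ∧ ψ y = 0 := by
  by_contra hcon
  push Not at hcon
  obtain ⟨y0, hy0⟩ : ∃ y, ψ y ≠ 0 := by
    by_contra h
    push Not at h
    exact hψ (LinearMap.ext h)
  apply hf (f y0 * (ψ y0)⁻¹)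
  apply LinearMap.ext
  intro v
  rw [LinearMap.smul_apply, smul_eq_mul]
  have h1 : ψ (v - (ψ v * (ψ y0)⁻¹) • y0) = 0 := by
    rw [map_sub, map_smul, smul_eq_mul]
    field_simp
    ring
  have h2 : f (v - (ψ v * (ψ y0)⁻¹) • y0) = 0 := by
    by_contra h3
    refine hcon ((f (v - (ψ v * (ψ y0)⁻¹) • y0))⁻¹ • (v - (ψ v * (ψ y0)⁻¹) • y0)) ?_ ?_
    · rw [map_smul, smul_eq_mul, inv_mul_cancel₀ h3]
    · rw [map_smul, h1, smul_zero]
  rw [map_sub, map_smul, smul_eq_mul, sub_eq_zero] at h2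
  rw [h2]
  ring

variable [FiniteDimensional F W] (B : Submodule F (Module.Dual F W × W))

private theorem is_E2
    (hB : ∀ (g : W ≃ₗ[F] W) (α β : Fˣ), (α : F) * β * LinearMap.det (g : W →ₗ[F] W) = 1 →
      ∀ e ∈ B, ((α : F) • (e.1 ∘ₗ (g.symm : W →ₗ[F] W)), ((β⁻¹ : Fˣ) : F) • g e.2) ∈ B)
    {x : W} (hx : x ≠ 0) (hxB : ((0 : Module.Dual F W), x) ∈ B) (y : W) :
    ((0 : Module.Dual F W), y) ∈ B := by
  by_cases hy : ∃ c : F, y = c • x
  · obtain ⟨c, rfl⟩ := hy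
    have h1 := B.smul_mem c hxB
    rwa [Prod.smul_mk, smul_zero] at h1
  · push Not at hy
    obtain ⟨ψ, h1, h2⟩ := is_dual hx hy
    have h3 := hB (LinearEquiv.transvection h2) 1 1 (by
      rw [LinearEquiv.transvection.coe_toLinearMap, LinearMap.transvection.det, h2]
      simp) _ hxB
    have h4 := B.sub_mem h3 hxB
    have h5 : (((1 : Fˣ) : F) • (((0 : Module.Dual F W), x).1 ∘ₗ
        ((LinearEquiv.transvection h2).symm : W →ₗ[F] W)),
        (((1 : Fˣ)⁻¹ : Fˣ) : F) • (LinearEquiv.transvection h2) ((0 : Module.Dual F W), x).2) -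
        ((0 : Module.Dual F W), x) = (0, y) := by
      apply Prod.ext
      · simp
      · rw [Prod.snd_sub]
        simp only [inv_one, Units.val_one, one_smul]
        rw [LinearEquiv.transvection.apply, h1, one_smul]
        abel
    rwa [h5] at h4

private theorem is_E1
    (hB : ∀ (g : W ≃ₗ[F] W) (α β : Fˣ), (α : F) * β * LinearMap.det (g : W →ₗ[F] W) = 1 →
      ∀ e ∈ B, ((α : F) • (e.1 ∘ₗ (g.symm : W →ₗ[F] W)), ((β⁻¹ : Fˣ) : F) • g e.2) ∈ B)
    {f : Module.Dual F W} (hf : f ≠ 0) (hfB : (f, (0 : W)) ∈ B) (ψ : Module.Dual F W) :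
    (ψ, (0 : W)) ∈ B := by
  by_cases hψ0 : ψ = 0
  · rw [hψ0]
    exact B.zero_mem
  by_cases hψ : ∃ c : F, f = c • ψ
  · obtain ⟨c, hc⟩ := hψ
    have hc0 : c ≠ 0 := by
      rintro rfl
      rw [zero_smul] at hc
      exact hf hc
    have h1 := B.smul_mem c⁻¹ hfB
    rwa [Prod.smul_mk, smul_zero, hc, inv_smul_smul₀ hc0] at h1
  · push Not at hψ
    obtain ⟨y, h1, h2⟩ := is_predual hψ0 hψ
    have h3 := hB (LinearEquiv.transvection h2) 1 1 (by
      rw [LinearEquiv.transvection.coe_toLinearMap, LinearMap.transvection.det, h2]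
      simp) _ hfB
    have h4 := B.sub_mem hfB h3
    have h5 : (f, (0 : W)) - (((1 : Fˣ) : F) • ((f, (0 : W)).1 ∘ₗ
        ((LinearEquiv.transvection h2).symm : W →ₗ[F] W)),
        (((1 : Fˣ)⁻¹ : Fˣ) : F) • (LinearEquiv.transvection h2) (f, (0 : W)).2) = (ψ, 0) := by
      apply Prod.ext
      · rw [Prod.fst_sub]
        simp only [Units.val_one, one_smul]
        apply LinearMap.ext
        intro v
        obtain ⟨w, rfl⟩ := (LinearEquiv.transvection h2).surjective v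
        rw [LinearMap.sub_apply, LinearMap.comp_apply, LinearEquiv.coe_coe,
          LinearEquiv.symm_apply_apply, LinearEquiv.transvection.apply, map_add, map_add, map_smul,
          map_smul, h1, h2]
        simp
      · rw [Prod.snd_sub]
        simp
    rwa [h5] at h4

private theorem is_step2
    (hB : ∀ (g : W ≃ₗ[F] W) (α β : Fˣ), (α : F) * β * LinearMap.det (g : W →ₗ[F] W) = 1 →
      ∀ e ∈ B, ((α : F) • (e.1 ∘ₗ (g.symm : W →ₗ[F] W)), ((β⁻¹ : Fˣ) : F) • g e.2) ∈ B)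
    {γ : Fˣ} (h2 : γ ^ 2 ≠ 1) (h3 : γ ^ 3 ≠ 1) {f : Module.Dual F W} {x : W} (hf : f ≠ 0)
    (hx : x ≠ 0) (hfx : (f, x) ∈ B) : ∃ x' : W, x' ≠ 0 ∧ ((0 : Module.Dual F W), x') ∈ B := by
  obtain ⟨y, hy1, hy2⟩ : ∃ y : W, f y = 1 ∧ (f x ≠ 0 → y = (f x)⁻¹ • x) := by
    by_cases h : f x = 0
    · obtain ⟨y0, hy0⟩ : ∃ y, f y ≠ 0 := by
        by_contra h
        push Not at h
        exact hf (LinearMap.ext h)
      refine ⟨(f y0)⁻¹ • y0, ?_, fun h' => absurd h h'⟩
      rw [map_smul, smul_eq_mul, inv_mul_cancel₀ hy0]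
    · refine ⟨(f x)⁻¹ • x, ?_, fun _ => rfl⟩
      rw [map_smul, smul_eq_mul, inv_mul_cancel₀ h]
  have hdet : (1 : F) + f (((γ : F) - 1) • y) = γ := by
    rw [map_smul, smul_eq_mul, hy1]
    ring
  have hun : IsUnit ((1 : F) + f (((γ : F) - 1) • y)) := by
    rw [hdet]
    exact γ.isUnit
  have h4 := hB (LinearEquiv.dilatransvection hun) γ (γ ^ 2)⁻¹ (by
    rw [LinearEquiv.dilatransvection.coe_toLinearMap, LinearMap.transvection.det, hdet]
    have h5 : γ * (γ ^ 2)⁻¹ * γ = 1 := by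
      rw [mul_right_comm, ← pow_two, mul_inv_cancel]
    have h6 := congrArg (fun u : Fˣ => (u : F)) h5
    simpa using h6) _ hfx
  have h5 : (γ : F) • (f ∘ₗ ((LinearEquiv.dilatransvection hun).symm : W →ₗ[F] W)) = f := by
    apply LinearMap.ext
    intro v
    obtain ⟨w, rfl⟩ := (LinearEquiv.dilatransvection hun).surjective v
    rw [LinearMap.smul_apply, LinearMap.comp_apply, LinearEquiv.coe_coe,
      LinearEquiv.symm_apply_apply, LinearEquiv.dilatransvection.apply, map_add, map_smul,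
      map_smul, hy1]
    simp only [smul_eq_mul]
    ring
  have h6 := B.sub_mem h4 hfx
  refine ⟨(((γ ^ 2)⁻¹⁻¹ : Fˣ) : F) • (LinearEquiv.dilatransvection hun) x - x, ?_, ?_⟩
  · rw [LinearEquiv.dilatransvection.apply, inv_inv]
    by_cases h : f x = 0
    · rw [h, zero_smul, add_zero]
      intro h7
      have h8 : (((γ ^ 2 : Fˣ) : F) - 1) • x = 0 := by rw [sub_smul, one_smul]; exact h7
      rcases smul_eq_zero.1 h8 with h9 | h9
      · exact h2 (Units.ext (sub_eq_zero.1 h9))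
      · exact hx h9
    · rw [hy2 h]
      intro h7
      have h8 : (((γ ^ 3 : Fˣ) : F) - 1) • x = 0 := by
        rw [← h7, smul_smul, smul_smul]
        have h9 : f x * ((γ : F) - 1) * (f x)⁻¹ = (γ : F) - 1 := by field_simp
        rw [h9, sub_smul, sub_smul, one_smul, Units.val_pow_eq_pow_val,
          Units.val_pow_eq_pow_val, smul_add, smul_sub, smul_smul]
        rw [pow_succ (γ : F) 2]
        abel
      rcases smul_eq_zero.1 h8 with h9 | h9
      · exact h3 (Units.ext (sub_eq_zero.1 h9))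
      · exact hx h9
  · have h7 : ((γ : F) • ((f, x).1 ∘ₗ ((LinearEquiv.dilatransvection hun).symm : W →ₗ[F] W)),
        (((γ ^ 2)⁻¹⁻¹ : Fˣ) : F) • (LinearEquiv.dilatransvection hun) (f, x).2) - (f, x) =
        (0, (((γ ^ 2)⁻¹⁻¹ : Fˣ) : F) • (LinearEquiv.dilatransvection hun) x - x) := by
      apply Prod.ext
      · rw [Prod.fst_sub]
        show (γ : F) • (f ∘ₗ ((LinearEquiv.dilatransvection hun).symm : W →ₗ[F] W)) - f = 0
        rw [h5, sub_self]
      · rfl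
    rwa [h7] at h6

private theorem is_step1
    (hB : ∀ (g : W ≃ₗ[F] W) (α β : Fˣ), (α : F) * β * LinearMap.det (g : W →ₗ[F] W) = 1 →
      ∀ e ∈ B, ((α : F) • (e.1 ∘ₗ (g.symm : W →ₗ[F] W)), ((β⁻¹ : Fˣ) : F) • g e.2) ∈ B)
    {γ : Fˣ} (h2 : γ ^ 2 ≠ 1) (h3 : γ ^ 3 ≠ 1) {f : Module.Dual F W} {x : W} (hf : f ≠ 0)
    (hx : x ≠ 0) (hfx : (f, x) ∈ B) : ∃ f' : Module.Dual F W, f' ≠ 0 ∧ (f', (0 : W)) ∈ B := by
  obtain ⟨ψ, hy1, hy2⟩ : ∃ ψ : Module.Dual F W, ψ x = 1 ∧ (f x ≠ 0 → ψ = (f x)⁻¹ • f) := by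
    by_cases h : f x = 0
    · obtain ⟨ψ, h1⟩ : ∃ ψ : Module.Dual F W, ψ x ≠ 0 := by
        by_contra h
        push Not at h
        exact hx ((Module.forall_dual_apply_eq_zero_iff F x).1 h)
      refine ⟨(ψ x)⁻¹ • ψ, ?_, fun h' => absurd h h'⟩
      rw [LinearMap.smul_apply, smul_eq_mul, inv_mul_cancel₀ h1]
    · refine ⟨(f x)⁻¹ • f, ?_, fun _ => rfl⟩
      rw [LinearMap.smul_apply, smul_eq_mul, inv_mul_cancel₀ h]
  have hdet : (1 : F) + ψ (((γ : F) - 1) • x) = γ := by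
    rw [map_smul, smul_eq_mul, hy1]
    ring
  have hun : IsUnit ((1 : F) + ψ (((γ : F) - 1) • x)) := by
    rw [hdet]
    exact γ.isUnit
  have h4 := hB (LinearEquiv.dilatransvection hun) (γ ^ 2)⁻¹ γ (by
    rw [LinearEquiv.dilatransvection.coe_toLinearMap, LinearMap.transvection.det, hdet]
    have h5 : (γ ^ 2)⁻¹ * γ * γ = 1 := by
      rw [mul_assoc, ← pow_two, inv_mul_cancel]
    have h6 := congrArg (fun u : Fˣ => (u : F)) h5
    simpa using h6) _ hfx
  have h5 : ((γ⁻¹ : Fˣ) : F) • (LinearEquiv.dilatransvection hun) x = x := by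
    rw [LinearEquiv.dilatransvection.apply, hy1, one_smul, sub_smul, one_smul]
    have h6 : x + ((γ : F) • x - x) = (γ : F) • x := by abel
    rw [h6, smul_smul, Units.inv_mul, one_smul]
  have h6 := B.sub_mem h4 hfx
  refine ⟨(((γ ^ 2)⁻¹ : Fˣ) : F) •
    (f ∘ₗ ((LinearEquiv.dilatransvection hun).symm : W →ₗ[F] W)) - f, ?_, ?_⟩
  · intro h7
    by_cases h : f x = 0
    · have h8 : f ∘ₗ ((LinearEquiv.dilatransvection hun).symm : W →ₗ[F] W) = f := by
        apply LinearMap.ext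
        intro v
        obtain ⟨w, rfl⟩ := (LinearEquiv.dilatransvection hun).surjective v
        rw [LinearMap.comp_apply, LinearEquiv.coe_coe, LinearEquiv.symm_apply_apply,
          LinearEquiv.dilatransvection.apply, map_add, map_smul, map_smul, h]
        simp
      rw [h8] at h7
      have h9 : ((((γ ^ 2)⁻¹ : Fˣ) : F) - 1) • f = 0 := by
        apply LinearMap.ext
        intro v
        have h := congrArg (fun l : Module.Dual F W => l v) h7
        simp only [LinearMap.sub_apply, LinearMap.smul_apply, LinearMap.zero_apply,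
          smul_eq_mul] at h ⊢
        linear_combination h
      rcases smul_eq_zero.1 h9 with h10 | h10
      · have h11 : (γ ^ 2)⁻¹ = 1 := Units.ext (sub_eq_zero.1 h10)
        exact h2 (inv_eq_one.1 h11)
      · exact hf h10
    · have h8 : (γ : F) • (f ∘ₗ ((LinearEquiv.dilatransvection hun).symm : W →ₗ[F] W)) = f := by
        apply LinearMap.ext
        intro v
        obtain ⟨w, rfl⟩ := (LinearEquiv.dilatransvection hun).surjective v
        rw [LinearMap.smul_apply, LinearMap.comp_apply, LinearEquiv.coe_coe,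
          LinearEquiv.symm_apply_apply, LinearEquiv.dilatransvection.apply, map_add, map_smul,
          map_smul, hy2 h, LinearMap.smul_apply]
        simp only [smul_eq_mul]
        field_simp
        ring
      have h9 : ((γ ^ 3 : Fˣ) : F) • ((((γ ^ 2)⁻¹ : Fˣ) : F) •
          (f ∘ₗ ((LinearEquiv.dilatransvection hun).symm : W →ₗ[F] W))) = f := by
        rw [smul_smul]
        have h10 : ((γ ^ 3 : Fˣ) : F) * (((γ ^ 2)⁻¹ : Fˣ) : F) = γ := by
          rw [← Units.val_mul]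
          congr 1
          rw [pow_succ, mul_comm (γ ^ 2) γ, mul_assoc, mul_inv_cancel, mul_one]
        rw [h10]
        exact h8
      rw [sub_eq_zero.1 h7] at h9
      have h10 : (((γ ^ 3 : Fˣ) : F) - 1) • f = 0 := by
        apply LinearMap.ext
        intro v
        have h := congrArg (fun l : Module.Dual F W => l v) h9
        simp only [LinearMap.smul_apply, LinearMap.zero_apply, smul_eq_mul] at h ⊢
        linear_combination h
      rcases smul_eq_zero.1 h10 with h11 | h11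
      · exact h3 (Units.ext (sub_eq_zero.1 h11))
      · exact hf h11
  · have h7 : ((((γ ^ 2)⁻¹ : Fˣ) : F) •
        ((f, x).1 ∘ₗ ((LinearEquiv.dilatransvection hun).symm : W →ₗ[F] W)),
        ((γ⁻¹ : Fˣ) : F) • (LinearEquiv.dilatransvection hun) (f, x).2) - (f, x) =
        ((((γ ^ 2)⁻¹ : Fˣ) : F) •
          (f ∘ₗ ((LinearEquiv.dilatransvection hun).symm : W →ₗ[F] W)) - f, 0) := by
      apply Prod.ext
      · rfl
      · rw [Prod.snd_sub]
        show ((γ⁻¹ : Fˣ) : F) • (LinearEquiv.dilatransvection hun) x - x = 0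
        rw [h5, sub_self]
    rwa [h7] at h6

end isaux

theorem inv_sub {F W : Type} [Field F] [Finite F] [AddCommGroup W] [Module F W]
    [FiniteDimensional F W] (hF : 5 ≤ Nat.card F) (B : Submodule F (Module.Dual F W × W))
    (hB : ∀ (g : W ≃ₗ[F] W) (α β : Fˣ), (α : F) * β * LinearMap.det (g : W →ₗ[F] W) = 1 →
      ∀ e ∈ B, ((α : F) • (e.1 ∘ₗ (g.symm : W →ₗ[F] W)), ((β⁻¹ : Fˣ) : F) • g e.2) ∈ B)
    (hdim : Module.finrank F B = Module.finrank F W) :
    (∀ e ∈ B, e.2 = 0) ∨ ∀ e ∈ B, e.1 = 0 := by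
  by_contra hcon
  push Not at hcon
  obtain ⟨⟨e1, he1, he1'⟩, ⟨e2, he2, he2'⟩⟩ := hcon
  obtain ⟨f, x, hf, hx, hfx⟩ : ∃ (f : Module.Dual F W) (x : W), f ≠ 0 ∧ x ≠ 0 ∧ (f, x) ∈ B := by
    by_cases h1 : e1.1 = 0
    · by_cases h2 : e2.2 = 0
      · refine ⟨e2.1, e1.2, he2', he1', ?_⟩
        have h3 := B.add_mem he1 he2
        have h4 : e1 + e2 = (e2.1, e1.2) := by
          apply Prod.ext
          · rw [Prod.fst_add, h1, zero_add]
          · rw [Prod.snd_add, h2, add_zero]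
        rwa [h4] at h3
      · exact ⟨e2.1, e2.2, he2', h2, he2⟩
    · exact ⟨e1.1, e1.2, h1, he1', he1⟩
  obtain ⟨γ, h2, h3⟩ := is_unit_exists hF
  obtain ⟨x', hx', hx'B⟩ := is_step2 B hB h2 h3 hf hx hfx
  obtain ⟨f', hf', hf'B⟩ := is_step1 B hB h2 h3 hf hx hfx
  have htop : B = ⊤ := by
    rw [eq_top_iff]
    rintro ⟨ψ, y⟩ _
    have h4 := B.add_mem (is_E1 B hB hf' hf'B ψ) (is_E2 B hB hx' hx'B y)
    rwa [Prod.mk_add_mk, add_zero, zero_add] at h4
  rw [htop, finrank_top, Module.finrank_prod, Subspace.dual_finrank_eq] at hdim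
  have h4 : Module.finrank F W = 0 := by omega
  have h5 : Subsingleton W := Module.finrank_zero_iff.1 h4
  exact hx (Subsingleton.elim _ _)

end Pool.Agent.Helper54.OC
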