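import Pool.Agent.Helper54.OC.SLPar
import Pool.Agent.Helper54.OC.SLInv

/-!
# OC-16: the condition `ts` of `Par` for `SL_m(F)`

PROOF.  If `m = 2` then `U = {slZ t}` and `s = 1`.  Let `m ≥ 3`.  `W = {v : Fin m → F | v a = 0, v b = 0}`, of dimension `r = m - 2 ≥ 1`.  For `u ∈ U` let
`x_u ∈ W` be the part of `u e_b - e_b` in `W` and `f_u : W → F` the linear form with `u v = v + (f_u v) e_a` for `v ∈ W`.  `u ↦ (f_u, x_u)` is a surjective homomorphism
`U → W^* × W` with kernel `{slZ t}`, and `[u, u'] = slZ (f_u x_{u'} - f_{u'} x_u)` (`slU_comm`); write `ω` for this form on `E = W^* × W`.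
(a) `φ` induces an additive bijection `φ'` of `E`, `ω (φ' e) (φ' e') = ω e e'` since `φ` is trivial on the `slZ t`; `φ'` is `F`-linear, because `ω (c e) e' = c ω e e'`
    and `ω` is nondegenerate.  `φ'^p = 1`.
(b) `r ∈ nm U` acts on `E`: if `r e_a = α e_a`, `(r v) b = β v b` and `g` is the map of `W = H / ⟨e_a⟩`, then `(f, x) ↦ (α f ∘ g⁻¹, β⁻¹ g x)`.  All `g, α, β` with
    `α β det g = 1` occur (block diagonal matrices).  `φ'` maps subspaces
    invariant under `nm U` to such subspaces (the hypothesis for `φ^(p-1) = φ⁻¹`).  `E1 = W^* × 0`, `E2 = 0 × W` are invariant.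
(c) `inv_sub` (OC/SLInv.lean) for `B = φ' E1` and `B = φ' E2`: `φ'` permutes `{E1, E2}`, and since `φ'^p = 1`, `p` odd, `φ' E1 = E1`, `φ' E2 = E2`.
(d) Let `κ` be the restriction to `E2 = W`; by `ω`, `φ' f = f ∘ κ⁻¹` for
    `f ∈ E1`.  `κ^p = 1`, so `(det κ)^p = 1`, `det κ = 1`.  Let `s ∈ SL_m(F)` be `κ⁻¹` on `W` and the identity on `e_a`, `e_b`.
-/

set_option autoImplicit false
open scoped Pointwise Matrix

namespace Pool.Agent.Helper54.OC

section tsaux
variable {m : ℕ} {F : Type} [Field F]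

private theorem ts_ee_self (i : Fin m) : (ee F i) i = 1 := by
  unfold ee
  rw [Pi.single_eq_same]

private theorem ts_ee_ne {i j : Fin m} (h : i ≠ j) : (ee F i) j = 0 := by
  unfold ee
  rw [Pi.single_eq_of_ne h.symm]

private theorem ts_ap_sub (g : Matrix.SpecialLinearGroup (Fin m) F) (v w : Fin m → F) :
    ap g (v - w) = ap g v - ap g w := Matrix.mulVec_sub _ _ _

/-- the special linear group element of a linear map of determinant one -/
private noncomputable def tsSL (f : (Fin m → F) →ₗ[F] (Fin m → F)) (h : LinearMap.det f = 1) :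
    Matrix.SpecialLinearGroup (Fin m) F :=
  ⟨LinearMap.toMatrix' f, by rw [LinearMap.det_toMatrix', h]⟩

private theorem tsSL_ap (f : (Fin m → F) →ₗ[F] (Fin m → F)) (h : LinearMap.det f = 1)
    (v : Fin m → F) : ap (tsSL f h) v = f v := by
  unfold ap tsSL
  exact LinearMap.toMatrix'_mulVec f v

/-- the complement of the two coordinate lines -/
private def tsW (F : Type) [Field F] {m : ℕ} (a b : Fin m) : Submodule F (Fin m → F) where
  carrier := {v | v a = 0 ∧ v b = 0}
  add_mem' := by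
    rintro v w ⟨h1, h2⟩ ⟨h3, h4⟩
    refine ⟨?_, ?_⟩
    · rw [Pi.add_apply, h1, h3, add_zero]
    · rw [Pi.add_apply, h2, h4, add_zero]
  zero_mem' := ⟨rfl, rfl⟩
  smul_mem' := by
    rintro c v ⟨h1, h2⟩
    refine ⟨?_, ?_⟩
    · rw [Pi.smul_apply, h1, smul_zero]
    · rw [Pi.smul_apply, h2, smul_zero]

/-- the projection -/
private def tsP {a b : Fin m} (hab : a ≠ b) : (Fin m → F) →ₗ[F] tsW F a b where
  toFun v := ⟨v - v a • ee F a - v b • ee F b, by
    refine ⟨?_, ?_⟩
    · rw [Pi.sub_apply, Pi.sub_apply, Pi.smul_apply, Pi.smul_apply, ts_ee_self, ts_ee_ne hab.symm,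
        smul_eq_mul, smul_eq_mul]
      ring
    · rw [Pi.sub_apply, Pi.sub_apply, Pi.smul_apply, Pi.smul_apply, ts_ee_self, ts_ee_ne hab,
        smul_eq_mul, smul_eq_mul]
      ring⟩
  map_add' v w := by
    apply Subtype.ext
    change (v + w) - (v + w) a • ee F a - (v + w) b • ee F b =
      (v - v a • ee F a - v b • ee F b) + (w - w a • ee F a - w b • ee F b)
    rw [Pi.add_apply, Pi.add_apply, add_smul, add_smul]
    abel
  map_smul' c v := by
    apply Subtype.ext
    change (c • v) - (c • v) a • ee F a - (c • v) b • ee F b =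
      c • (v - v a • ee F a - v b • ee F b)
    rw [Pi.smul_apply, Pi.smul_apply, smul_sub, smul_sub, smul_eq_mul, smul_eq_mul, mul_smul,
      mul_smul]

private theorem tsP_coe {a b : Fin m} (hab : a ≠ b) (v : Fin m → F) :
    ((tsP hab v : tsW F a b) : Fin m → F) = v - v a • ee F a - v b • ee F b := rfl

private theorem ts_dec {a b : Fin m} (hab : a ≠ b) (v : Fin m → F) :
    v = v a • ee F a + v b • ee F b + (tsP hab v : tsW F a b) := by
  rw [tsP_coe]
  abel

private theorem tsP_W {a b : Fin m} (hab : a ≠ b) (w : tsW F a b) :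
    tsP hab (w : Fin m → F) = w := by
  apply Subtype.ext
  rw [tsP_coe, w.2.1, w.2.2, zero_smul, zero_smul, sub_zero, sub_zero]

private theorem tsP_a {a b : Fin m} (hab : a ≠ b) : tsP hab (ee F a) = 0 := by
  apply Subtype.ext
  rw [tsP_coe, ts_ee_self, ts_ee_ne hab, zero_smul, one_smul, sub_self, sub_zero]
  rfl

private theorem tsP_b {a b : Fin m} (hab : a ≠ b) : tsP hab (ee F b) = 0 := by
  apply Subtype.ext
  rw [tsP_coe, ts_ee_self, ts_ee_ne hab.symm, zero_smul, one_smul, sub_zero, sub_self]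
  rfl

/-- the decomposition -/
private def tsE {a b : Fin m} (hab : a ≠ b) : (Fin m → F) ≃ₗ[F] (F × F) × tsW F a b where
  toFun v := ((v a, v b), tsP hab v)
  map_add' v w := by rw [map_add]; rfl
  map_smul' c v := by rw [map_smul]; rfl
  invFun e := e.1.1 • ee F a + e.1.2 • ee F b + (e.2 : Fin m → F)
  left_inv v := (ts_dec hab v).symm
  right_inv e := by
    obtain ⟨⟨x, y⟩, w⟩ := e
    apply Prod.ext
    · apply Prod.ext
      · change (x • ee F a + y • ee F b + (w : Fin m → F)) a = x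
        rw [Pi.add_apply, Pi.add_apply, Pi.smul_apply, Pi.smul_apply, ts_ee_self,
          ts_ee_ne hab.symm, w.2.1, smul_zero, smul_eq_mul, mul_one, add_zero, add_zero]
      · change (x • ee F a + y • ee F b + (w : Fin m → F)) b = y
        rw [Pi.add_apply, Pi.add_apply, Pi.smul_apply, Pi.smul_apply, ts_ee_self,
          ts_ee_ne hab, w.2.2, smul_zero, smul_eq_mul, mul_one, add_zero, zero_add]
    · change tsP hab (x • ee F a + y • ee F b + (w : Fin m → F)) = w
      rw [map_add, map_add, map_smul, map_smul, tsP_a, tsP_b, tsP_W, smul_zero, smul_zero,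
        add_zero, zero_add]

/-- a block diagonal linear map -/
private def tsG {a b : Fin m} (hab : a ≠ b) (g : tsW F a b →ₗ[F] tsW F a b) (α β : F) :
    (Fin m → F) →ₗ[F] (Fin m → F) :=
  (tsE hab).symm.toLinearMap ∘ₗ
    (((α • LinearMap.id : F →ₗ[F] F).prodMap (β • LinearMap.id : F →ₗ[F] F)).prodMap g) ∘ₗ
      (tsE hab).toLinearMap

private theorem tsG_ap {a b : Fin m} (hab : a ≠ b) (g : tsW F a b →ₗ[F] tsW F a b) (α β : F)
    (v : Fin m → F) : tsG hab g α β v =
      (α * v a) • ee F a + (β * v b) • ee F b + (g (tsP hab v) : tsW F a b) := rfl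

private theorem tsG_det {a b : Fin m} (hab : a ≠ b) (g : tsW F a b →ₗ[F] tsW F a b) (α β : F) :
    LinearMap.det (tsG hab g α β) = α * β * LinearMap.det g := by
  have h := LinearMap.det_conj
    ((((α • LinearMap.id : F →ₗ[F] F).prodMap (β • LinearMap.id : F →ₗ[F] F)).prodMap g))
    (tsE hab).symm
  have h1 : tsG hab g α β = (tsE hab).symm.toLinearMap ∘ₗ
    (((α • LinearMap.id : F →ₗ[F] F).prodMap (β • LinearMap.id : F →ₗ[F] F)).prodMap g) ∘ₗ
      (tsE hab).symm.symm.toLinearMap := rfl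
  rw [h1, h, LinearMap.det_prodMap, LinearMap.det_prodMap, LinearMap.det_smul, LinearMap.det_smul,
    LinearMap.det_id]
  simp

/-- the coordinates of an element of the unipotent radical -/
private def tsq {a b : Fin m} (hab : a ≠ b) (u : Matrix.SpecialLinearGroup (Fin m) F) :
    Module.Dual F (tsW F a b) × tsW F a b :=
  ({ toFun := fun w => (ap u (w : Fin m → F)) a
     map_add' := fun v w => by rw [Submodule.coe_add, ap_add, Pi.add_apply]
     map_smul' := fun c v => by
       rw [Submodule.coe_smul, ap_smul, Pi.smul_apply, RingHom.id_apply] },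
    tsP hab (ap u (ee F b)))

private theorem tsq1 {a b : Fin m} (hab : a ≠ b) (u : Matrix.SpecialLinearGroup (Fin m) F)
    (w : tsW F a b) : (tsq hab u).1 w = (ap u (w : Fin m → F)) a := rfl

private theorem tsq2 {a b : Fin m} (hab : a ≠ b) (u : Matrix.SpecialLinearGroup (Fin m) F) :
    (tsq hab u).2 = tsP hab (ap u (ee F b)) := rfl

private theorem ts_apW {a b : Fin m} (hab : a ≠ b) {u : Matrix.SpecialLinearGroup (Fin m) F}
    (hu : u ∈ slU F a b) (w : tsW F a b) :
    ap u (w : Fin m → F) = (w : Fin m → F) + (tsq hab u).1 w • ee F a := by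
  obtain ⟨c, hc⟩ := hu.2.2 w w.2.2
  have h : (tsq hab u).1 w = c := by
    rw [tsq1, hc, Pi.add_apply, Pi.smul_apply, ts_ee_self, w.2.1, smul_eq_mul, mul_one, zero_add]
  rw [h]
  exact hc

private theorem ts_apb {a b : Fin m} (hab : a ≠ b) {u : Matrix.SpecialLinearGroup (Fin m) F}
    (hu : u ∈ slU F a b) :
    ap u (ee F b) = ee F b + ((tsq hab u).2 : tsW F a b) + (ap u (ee F b)) a • ee F a := by
  rw [tsq2, tsP_coe, hu.2.1, ts_ee_self, one_smul]
  abel

private theorem ts_form {a b : Fin m} (hab : a ≠ b) {u : Matrix.SpecialLinearGroup (Fin m) F}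
    (hu : u ∈ slU F a b) (v : Fin m → F) :
    ap u v = v + v b • ((tsq hab u).2 : tsW F a b) +
      ((tsq hab u).1 (tsP hab v) + v b * (ap u (ee F b)) a) • ee F a := by
  have h := ts_dec hab v
  have h1 : ap u v = v a • ee F a + v b • ap u (ee F b) +
      ap u ((tsP hab v : tsW F a b) : Fin m → F) := by
    conv_lhs => rw [h]
    rw [ap_add, ap_add, ap_smul, ap_smul, hu.1]
  have h3 := ts_apb hab hu
  rw [h1, ts_apW hab hu]
  generalize (ap u (ee F b)) a = t at h3 ⊢
  rw [h3]
  generalize (((tsq hab u).2 : tsW F a b) : Fin m → F) = X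
  generalize (tsq hab u).1 (tsP hab v) = c
  generalize ((tsP hab v : tsW F a b) : Fin m → F) = Y at h ⊢
  linear_combination (norm := module) (-1 : F) • h

private theorem tsq_mul {a b : Fin m} (hab : a ≠ b) {u u' : Matrix.SpecialLinearGroup (Fin m) F}
    (hu : u ∈ slU F a b) (hu' : u' ∈ slU F a b) :
    tsq hab (u * u') = tsq hab u + tsq hab u' := by
  apply Prod.ext
  · apply LinearMap.ext
    intro w
    rw [tsq1, ap_mul, ts_apW hab hu', ap_add, ap_smul, hu.1, ts_apW hab hu]
    change _ = (tsq hab u).1 w + (tsq hab u').1 w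
    rw [Pi.add_apply, Pi.add_apply, Pi.smul_apply, Pi.smul_apply, ts_ee_self, w.2.1,
      smul_eq_mul, smul_eq_mul, mul_one, mul_one, zero_add]
  · rw [tsq2, ap_mul, ts_apb hab hu', ap_add, ap_add, ap_smul, hu.1, ts_apW hab hu, map_add,
      map_add, map_add, map_smul, map_smul, tsP_a, tsP_W, smul_zero, smul_zero, add_zero,
      add_zero]
    rfl

private theorem tsq_ker {a b : Fin m} (hab : a ≠ b) {u : Matrix.SpecialLinearGroup (Fin m) F}
    (hu : u ∈ slU F a b) (h : tsq hab u = 0) : u = slZ hab ((ap u (ee F b)) a) := by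
  apply ap_ext
  intro v
  have h1 := ts_form hab hu v
  have h2 : (tsq hab u).1 = 0 := by rw [h]; rfl
  have h3 : (tsq hab u).2 = 0 := by rw [h]; rfl
  rw [h2, h3] at h1
  rw [h1, slZ_ap]
  simp [mul_comm]

private theorem tsq_Z {a b : Fin m} (hab : a ≠ b) (t : F) : tsq hab (slZ hab t) = 0 := by
  apply Prod.ext
  · apply LinearMap.ext
    intro w
    rw [tsq1, slZ_ap, w.2.2, mul_zero, zero_smul, add_zero, w.2.1]
    rfl
  · rw [tsq2, slZ_ap, map_add, map_smul, tsP_a, tsP_b, smul_zero, add_zero]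
    rfl

private theorem tsq_inv {a b : Fin m} (hab : a ≠ b) {u : Matrix.SpecialLinearGroup (Fin m) F}
    (hu : u ∈ slU F a b) : tsq hab u⁻¹ = - tsq hab u := by
  have h := tsq_mul hab hu ((slU F a b).inv_mem hu)
  rw [mul_inv_cancel] at h
  have h1 : tsq hab (1 : Matrix.SpecialLinearGroup (Fin m) F) = 0 := by
    have := tsq_Z hab (0 : F)
    have h2 : slZ hab (0 : F) = 1 := by
      apply ap_ext
      intro v
      rw [slZ_ap, zero_mul, zero_smul, add_zero, ap_one]
    rwa [h2] at this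
  rw [h1] at h
  exact (neg_eq_of_add_eq_zero_right h.symm).symm

private theorem tsq_comm {a b : Fin m} (hab : a ≠ b) {u u' : Matrix.SpecialLinearGroup (Fin m) F}
    (hu : u ∈ slU F a b) (hu' : u' ∈ slU F a b) :
    u * u' * u⁻¹ * u'⁻¹ = slZ hab ((tsq hab u).1 (tsq hab u').2 - (tsq hab u').1 (tsq hab u).2) := by
  have key : ∀ u u' : Matrix.SpecialLinearGroup (Fin m) F, u ∈ slU F a b → u' ∈ slU F a b →
      (ap u (ap u' (ee F b) - ee F b)) a - (ap u' (ee F b) - ee F b) a =
        (tsq hab u).1 (tsq hab u').2 := by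
    intro u u' hu hu'
    have h1 : ap u' (ee F b) - ee F b =
        ((tsq hab u').2 : tsW F a b) + (ap u' (ee F b)) a • ee F a := by
      have h := ts_apb hab hu'
      generalize (ap u' (ee F b)) a = t at h ⊢
      rw [h]
      abel
    rw [h1, ap_add, ap_smul, hu.1, ts_apW hab hu]
    simp only [Pi.add_apply, Pi.smul_apply, ts_ee_self, smul_eq_mul, mul_one]
    ring
  rw [slU_comm hab hu hu', key u u' hu hu', key u' u hu' hu]

private theorem tsq_surj {a b : Fin m} (hab : a ≠ b) (e : Module.Dual F (tsW F a b) × tsW F a b) :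
    ∃ u ∈ slU F a b, tsq hab u = e := by
  obtain ⟨f, x⟩ := e
  have hdet1 : LinearMap.det (LinearMap.transvection (f ∘ₗ tsP hab) (ee F a)) = 1 := by
    rw [LinearMap.transvection.det, LinearMap.comp_apply, tsP_a, map_zero, add_zero]
  have hdet2 : LinearMap.det (LinearMap.transvection (LinearMap.proj b : (Fin m → F) →ₗ[F] F)
      (x : Fin m → F)) = 1 := by
    rw [LinearMap.transvection.det, LinearMap.proj_apply, x.2.2, add_zero]
  have h1 : ∀ v, ap (tsSL _ hdet1 * tsSL _ hdet2) v =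
      v + v b • (x : Fin m → F) + (f (tsP hab v) + v b * f x) • ee F a := by
    intro v
    rw [ap_mul, tsSL_ap, tsSL_ap, LinearMap.transvection.apply, LinearMap.transvection.apply,
      LinearMap.proj_apply, LinearMap.comp_apply, map_add, map_smul, tsP_W, map_add, map_smul,
      smul_eq_mul]
  refine ⟨tsSL _ hdet1 * tsSL _ hdet2, ⟨?_, ?_, ?_⟩, ?_⟩
  · rw [h1, ts_ee_ne hab, tsP_a, map_zero, zero_smul, zero_mul, add_zero, add_zero, zero_smul,
      add_zero]
  · intro v
    rw [h1, Pi.add_apply, Pi.add_apply, Pi.smul_apply, Pi.smul_apply, x.2.2, ts_ee_ne hab,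
      smul_zero, smul_zero, add_zero, add_zero]
  · intro v hv
    refine ⟨f (tsP hab v), ?_⟩
    rw [h1, hv, zero_smul, zero_mul, add_zero, add_zero]
  · apply Prod.ext
    · apply LinearMap.ext
      intro w
      rw [tsq1, h1, w.2.2, tsP_W, zero_smul, zero_mul, add_zero, add_zero, Pi.add_apply,
        Pi.smul_apply, ts_ee_self, w.2.1, smul_eq_mul, mul_one, zero_add]
    · rw [tsq2, h1, ts_ee_self, tsP_b, map_zero, one_smul, map_add, map_add, map_smul, tsP_a,
        tsP_b, tsP_W, smul_zero, add_zero, zero_add]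

end tsaux

section tsaux2
variable {m : ℕ} {F : Type} [Field F]

private theorem ts_Zinj {a b : Fin m} (hab : a ≠ b) {s t : F} (h : slZ hab s = slZ hab t) :
    s = t := by
  have h1 : ap (slZ hab s) (ee F b) = ap (slZ hab t) (ee F b) := by rw [h]
  have h2 := congrFun h1 a
  rw [slZ_ap, slZ_ap, Pi.add_apply, Pi.add_apply, Pi.smul_apply, Pi.smul_apply, ts_ee_self,
    ts_ee_self, ts_ee_ne hab.symm] at h2
  simpa using h2

private theorem ts_inv1 {a b : Fin m} (hab : a ≠ b) {r x : Matrix.SpecialLinearGroup (Fin m) F}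
    (hr : r ∈ nm (slU F a b)) (hx : x ∈ slU F a b) (h : (tsq hab x).2 = 0) :
    (tsq hab (r * x * r⁻¹)).2 = 0 := by
  obtain ⟨⟨α, hα⟩, -⟩ := (sl_nm hab).1 hr
  have h1 := ts_form hab hx (ap r⁻¹ (ee F b))
  rw [h, Submodule.coe_zero, smul_zero, add_zero] at h1
  rw [tsq2, ap_mul, ap_mul, h1, ap_add, ap_ap_inv, ap_smul, hα, map_add, map_smul, map_smul,
    tsP_a, tsP_b, smul_zero, smul_zero, add_zero]

private theorem ts_inv2 {a b : Fin m} (hab : a ≠ b) {r x : Matrix.SpecialLinearGroup (Fin m) F}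
    (hr : r ∈ nm (slU F a b)) (hx : x ∈ slU F a b) (h : (tsq hab x).1 = 0) :
    (tsq hab (r * x * r⁻¹)).1 = 0 := by
  obtain ⟨-, β, hβ⟩ := (sl_nm hab).1 ((nm (slU F a b)).inv_mem hr)
  apply LinearMap.ext
  intro w
  have h1 := ts_form hab hx (ap r⁻¹ (w : Fin m → F))
  rw [hβ, w.2.2, mul_zero, zero_smul, zero_mul, h, LinearMap.zero_apply, add_zero, add_zero,
    zero_smul, add_zero] at h1
  rw [tsq1, ap_mul, ap_mul, h1, ap_ap_inv, w.2.1]
  rfl

private theorem tsG_b {a b : Fin m} (hab : a ≠ b) (g : tsW F a b →ₗ[F] tsW F a b) (α β : F)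
    (v : Fin m → F) : (tsG hab g α β v) b = β * v b := by
  rw [tsG_ap]
  simp only [Pi.add_apply, Pi.smul_apply, ts_ee_self, ts_ee_ne hab, smul_eq_mul, mul_zero,
    mul_one, (g (tsP hab v)).2.2, add_zero, zero_add]

private theorem tsG_a {a b : Fin m} (hab : a ≠ b) (g : tsW F a b →ₗ[F] tsW F a b) (α β : F) :
    tsG hab g α β (ee F a) = α • ee F a := by
  rw [tsG_ap, tsP_a, map_zero, ts_ee_self, ts_ee_ne hab, mul_zero, zero_smul, mul_one,
    Submodule.coe_zero, add_zero, add_zero]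

private theorem tsG_nm {a b : Fin m} (hab : a ≠ b) (g : tsW F a b →ₗ[F] tsW F a b) (α β : F)
    (h : LinearMap.det (tsG hab g α β) = 1) : tsSL (tsG hab g α β) h ∈ nm (slU F a b) := by
  rw [sl_nm hab]
  refine ⟨⟨α, ?_⟩, β, fun v => ?_⟩
  · rw [tsSL_ap, tsG_a]
  · rw [tsSL_ap, tsG_b]

private theorem tsG_conj {a b : Fin m} (hab : a ≠ b) (g : tsW F a b ≃ₗ[F] tsW F a b) (α β : Fˣ)
    (h : LinearMap.det (tsG hab (g : tsW F a b →ₗ[F] tsW F a b) (α : F) (β : F)) = 1)
    {u : Matrix.SpecialLinearGroup (Fin m) F} (hu : u ∈ slU F a b) :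
    tsq hab (tsSL (tsG hab (g : tsW F a b →ₗ[F] tsW F a b) (α : F) (β : F)) h * u *
      (tsSL (tsG hab (g : tsW F a b →ₗ[F] tsW F a b) (α : F) (β : F)) h)⁻¹) =
      ((α : F) • ((tsq hab u).1 ∘ₗ (g.symm : tsW F a b →ₗ[F] tsW F a b)),
        ((β⁻¹ : Fˣ) : F) • g (tsq hab u).2) := by
  generalize hs : tsSL (tsG hab (g : tsW F a b →ₗ[F] tsW F a b) (α : F) (β : F)) h = s
  have hs1 : ∀ v, ap s v = ((α : F) * v a) • ee F a + ((β : F) * v b) • ee F b +
      (g (tsP hab v) : tsW F a b) := by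
    intro v
    rw [← hs, tsSL_ap, tsG_ap]
    rfl
  have hsa : ap s (ee F a) = (α : F) • ee F a := by rw [← hs, tsSL_ap, tsG_a]
  have hsW : ∀ w : tsW F a b, ap s (w : Fin m → F) = (g w : tsW F a b) := by
    intro w
    rw [hs1, w.2.1, w.2.2, tsP_W, mul_zero, mul_zero, zero_smul, zero_smul, zero_add, zero_add]
  have hiW : ∀ w : tsW F a b, ap s⁻¹ (w : Fin m → F) = (g.symm w : tsW F a b) := by
    intro w
    have h1 := hsW (g.symm w)
    rw [g.apply_symm_apply] at h1
    rw [← h1, ap_inv_ap]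
  have hsb : ap s (ee F b) = (β : F) • ee F b := by
    rw [hs1, tsP_b, map_zero, ts_ee_self, ts_ee_ne hab.symm, mul_zero, zero_smul, mul_one,
      Submodule.coe_zero, add_zero, zero_add]
  have hib : ap s⁻¹ (ee F b) = ((β⁻¹ : Fˣ) : F) • ee F b := by
    have h1 : ap s (((β⁻¹ : Fˣ) : F) • ee F b) = ee F b := by
      rw [ap_smul, hsb, smul_smul, Units.inv_mul, one_smul]
    have h2 := ap_inv_ap s (((β⁻¹ : Fˣ) : F) • ee F b)
    rwa [h1] at h2
  apply Prod.ext
  · apply LinearMap.ext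
    intro w
    rw [tsq1, ap_mul, ap_mul, hiW, ts_apW hab hu, ap_add, ap_smul, hsa, hsW, g.apply_symm_apply,
      Pi.add_apply, Pi.smul_apply, Pi.smul_apply, ts_ee_self, w.2.1]
    change _ = (α : F) * (tsq hab u).1 (g.symm w)
    simp only [smul_eq_mul, mul_one, zero_add]
    ring
  · rw [tsq2, ap_mul, ap_mul, hib, ap_smul, ts_apb hab hu, ap_smul, ap_add, ap_add, ap_smul, hsa,
      hsb, hsW]
    simp only [map_add, map_smul, tsP_a, tsP_b, tsP_W, smul_zero, add_zero, zero_add]

end tsaux2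

section tslin
variable {F W : Type} [Field F] [AddCommGroup W] [Module F W]

/-- the symplectic form -/
private def tsom (e e' : Module.Dual F W × W) : F := e.1 e'.2 - e'.1 e.2

private theorem tsom_nd {e : Module.Dual F W × W} (h : ∀ e', tsom e e' = 0) : e = 0 := by
  apply Prod.ext
  · apply LinearMap.ext
    intro y
    have h1 := h (0, y)
    unfold tsom at h1
    simpa using h1
  · change e.2 = 0
    rw [← Module.forall_dual_apply_eq_zero_iff F]
    intro f
    have h1 := h (f, 0)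
    unfold tsom at h1
    simpa using h1

private theorem ts_lin {p : ℕ} [Fact p.Prime] (hp5 : 5 ≤ p) [Finite F] [CharP F p]
    [FiniteDimensional F W] (Φ : Module.Dual F W × W → Module.Dual F W × W)
    (hadd : ∀ e e', Φ (e + e') = Φ e + Φ e') (hω : ∀ e e', tsom (Φ e) (Φ e') = tsom e e')
    (hp : ∀ e, Φ^[p] e = e)
    (hi1 : ∀ (g : W ≃ₗ[F] W) (α β : Fˣ), (α : F) * β * LinearMap.det (g : W →ₗ[F] W) = 1 →
      ∀ e, e.2 = 0 → ∃ e', e'.2 = 0 ∧
        ((α : F) • ((Φ e).1 ∘ₗ (g.symm : W →ₗ[F] W)), ((β⁻¹ : Fˣ) : F) • g (Φ e).2) = Φ e')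
    (hi2 : ∀ (g : W ≃ₗ[F] W) (α β : Fˣ), (α : F) * β * LinearMap.det (g : W →ₗ[F] W) = 1 →
      ∀ e, e.1 = 0 → ∃ e', e'.1 = 0 ∧
        ((α : F) • ((Φ e).1 ∘ₗ (g.symm : W →ₗ[F] W)), ((β⁻¹ : Fˣ) : F) • g (Φ e).2) = Φ e') :
    ∃ κ : W ≃ₗ[F] W, LinearMap.det (κ : W →ₗ[F] W) = 1 ∧
      ∀ e, Φ e = (e.1 ∘ₗ (κ.symm : W →ₗ[F] W), κ e.2) := by
  have hpp : p.Prime := Fact.out
  have hF : 5 ≤ Nat.card F := by
    have := Fintype.ofFinite F
    have h1 : p ∣ Fintype.card F := by
      rw [← CharP.cast_eq_zero_iff F p, Nat.cast_card_eq_zero]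
    rw [Nat.card_eq_fintype_card]
    exact hp5.trans (Nat.le_of_dvd Fintype.card_pos h1)
  have hpre : ∀ e, Φ (Φ^[p - 1] e) = e := by
    intro e
    rw [← Function.iterate_succ_apply' Φ, Nat.succ_eq_add_one, Nat.sub_add_cancel hpp.one_le]
    exact hp e
  have hsmul : ∀ (c : F) e, Φ (c • e) = c • Φ e := by
    intro c e
    rw [← sub_eq_zero]
    apply tsom_nd
    intro e'
    have h1 : tsom (Φ (c • e) - c • Φ e) e' = tsom (Φ (c • e)) e' - c * tsom (Φ e) e' := by
      unfold tsom
      simp only [Prod.fst_sub, Prod.snd_sub, Prod.smul_fst, Prod.smul_snd, LinearMap.sub_apply,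
        LinearMap.smul_apply, map_sub, map_smul, smul_eq_mul]
      ring
    rw [h1, ← hpre e', hω, hω]
    unfold tsom
    simp only [Prod.smul_fst, Prod.smul_snd, LinearMap.smul_apply, map_smul, smul_eq_mul]
    ring
  let L : (Module.Dual F W × W) →ₗ[F] (Module.Dual F W × W) :=
    { toFun := Φ, map_add' := hadd, map_smul' := hsmul }
  have hL : ∀ e, L e = Φ e := fun e => rfl
  have hLp : L ^ p = 1 := by
    apply LinearMap.ext
    intro e
    rw [Module.End.pow_apply]
    exact hp e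
  have hinj : Function.Injective L := by
    have h1 : L ^ (p - 1) * L = 1 := by
      rw [← pow_succ, Nat.sub_add_cancel hpp.one_le, hLp]
    intro x y hxy
    have h2 : (L ^ (p - 1) * L) x = (L ^ (p - 1) * L) y := by
      rw [Module.End.mul_apply, Module.End.mul_apply, hxy]
    rwa [h1] at h2
  have hfr : Module.finrank F (Module.Dual F W × W) =
      Module.finrank F W + Module.finrank F W := by
    rw [Module.finrank_prod, Subspace.dual_finrank_eq]
  have hd1 : Module.finrank F (Submodule.map L (LinearMap.ker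
      (LinearMap.snd F (Module.Dual F W) W))) = Module.finrank F W := by
    rw [← (Submodule.equivMapOfInjective L hinj (LinearMap.ker
      (LinearMap.snd F (Module.Dual F W) W))).finrank_eq]
    have h1 := LinearMap.finrank_range_add_finrank_ker (LinearMap.snd F (Module.Dual F W) W)
    rw [Submodule.range_snd, finrank_top, hfr] at h1
    omega
  have hd2 : Module.finrank F (Submodule.map L (LinearMap.ker
      (LinearMap.fst F (Module.Dual F W) W))) = Module.finrank F W := by
    rw [← (Submodule.equivMapOfInjective L hinj (LinearMap.ker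
      (LinearMap.fst F (Module.Dual F W) W))).finrank_eq]
    have h1 := LinearMap.finrank_range_add_finrank_ker (LinearMap.fst F (Module.Dual F W) W)
    rw [Submodule.range_fst, finrank_top, hfr, Subspace.dual_finrank_eq] at h1
    omega
  have hc1 := inv_sub hF (Submodule.map L (LinearMap.ker (LinearMap.snd F (Module.Dual F W) W)))
    (by
      rintro g α β hg _ ⟨e, he, rfl⟩
      obtain ⟨e', he', h1⟩ := hi1 g α β hg e he
      exact ⟨e', he', h1.symm⟩) hd1
  have hc2 := inv_sub hF (Submodule.map L (LinearMap.ker (LinearMap.fst F (Module.Dual F W) W)))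
    (by
      rintro g α β hg _ ⟨e, he, rfl⟩
      obtain ⟨e', he', h1⟩ := hi2 g α β hg e he
      exact ⟨e', he', h1.symm⟩) hd2
  have htriv : (∀ x : W, x = 0) → ∀ e : Module.Dual F W × W, e = 0 := by
    intro h e
    apply Prod.ext
    · apply LinearMap.ext
      intro x
      rw [h x, map_zero, map_zero]
    · exact h e.2
  have htriv' : (∀ f : Module.Dual F W, f = 0) → ∀ x : W, x = 0 := by
    intro h x
    rw [← Module.forall_dual_apply_eq_zero_iff F]
    intro f
    rw [h f]
    rfl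
  have hPP : (∀ e : Module.Dual F W × W, e.2 = 0 → (L e).2 = 0) ∧
      (∀ e : Module.Dual F W × W, e.1 = 0 → (L e).1 = 0) := by
    have htriv2 : (∀ x : W, x = 0) → (∀ e : Module.Dual F W × W, e.2 = 0 → (L e).2 = 0) ∧
      (∀ e : Module.Dual F W × W, e.1 = 0 → (L e).1 = 0) := by
      intro h
      refine ⟨fun e _ => ?_, fun e _ => ?_⟩
      · rw [htriv h (L e)]
        rfl
      · rw [htriv h (L e)]
        rfl
    have hsplit : ∀ e : Module.Dual F W × W, L e = L (e.1, 0) + L (0, e.2) := by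
      intro e
      rw [← map_add]
      congr 1
      apply Prod.ext
      · exact (add_zero _).symm
      · exact (zero_add _).symm
    rcases hc1 with hP1 | hQ1
    · have hP1' : ∀ e : Module.Dual F W × W, e.2 = 0 → (L e).2 = 0 :=
        fun e he => hP1 _ ⟨e, he, rfl⟩
      rcases hc2 with hQ2 | hP2
      · apply htriv2
        intro x
        have h1 : L ((L ^ (p - 1)) (0, x)) = (0, x) := by
          rw [Module.End.pow_apply]
          exact hpre (0, x)
        have h2 := hsplit ((L ^ (p - 1)) (0, x))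
        rw [h1] at h2
        have h3 := congrArg Prod.snd h2
        rw [Prod.snd_add, hP1' _ rfl, hQ2 _ ⟨_, rfl, rfl⟩, add_zero] at h3
        exact h3
      · exact ⟨hP1', fun e he => hP2 _ ⟨e, he, rfl⟩⟩
    · rcases hc2 with hQ2 | hP2
      · have hQ1' : ∀ e : Module.Dual F W × W, e.2 = 0 → (L e).1 = 0 :=
          fun e he => hQ1 _ ⟨e, he, rfl⟩
        have hQ2' : ∀ e : Module.Dual F W × W, e.1 = 0 → (L e).2 = 0 :=
          fun e he => hQ2 _ ⟨e, he, rfl⟩
        have hev : ∀ k : ℕ, ∀ e : Module.Dual F W × W, e.2 = 0 → ((L ^ (2 * k)) e).2 = 0 := by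
          intro k
          induction k with
          | zero =>
            intro e he
            rw [mul_zero, pow_zero]
            exact he
          | succ k ih =>
            intro e he
            have h1 : L ^ (2 * (k + 1)) = L ^ (2 * k) * (L * L) := by
              rw [← pow_two, ← pow_add, mul_add, mul_one]
            rw [h1, Module.End.mul_apply, Module.End.mul_apply]
            exact ih _ (hQ2' _ (hQ1' _ he))
        have hodd : Odd p := hpp.odd_of_ne_two (by omega)
        obtain ⟨k, hk⟩ := hodd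
        have hLL : L = L ^ (2 * (k + 1)) := by
          have h1 : 2 * (k + 1) = p + 1 := by omega
          rw [h1, pow_succ, hLp, one_mul]
        apply htriv2
        apply htriv'
        intro f
        have h1 : (L (f, 0)).2 = 0 := by
          rw [hLL]
          exact hev (k + 1) (f, 0) rfl
        have h2 : (L (f, 0)).1 = 0 := hQ1' (f, 0) rfl
        have h3 : L (f, 0) = L 0 := by
          rw [map_zero]
          exact Prod.ext h2 h1
        exact congrArg Prod.fst (hinj h3)
      · apply htriv2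
        apply htriv'
        intro f
        have h1 : L ((L ^ (p - 1)) (f, 0)) = (f, 0) := by
          rw [Module.End.pow_apply]
          exact hpre (f, 0)
        have h2 := hsplit ((L ^ (p - 1)) (f, 0))
        rw [h1] at h2
        have h3 := congrArg Prod.fst h2
        rw [Prod.fst_add, hQ1 _ ⟨_, rfl, rfl⟩, hP2 _ ⟨_, rfl, rfl⟩, add_zero] at h3
        exact h3
  obtain ⟨hP1, hP2⟩ := hPP
  let κ : W →ₗ[F] W := (LinearMap.snd F (Module.Dual F W) W) ∘ₗ L ∘ₗ
    (LinearMap.inr F (Module.Dual F W) W)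
  have hκ : ∀ x, L (0, x) = (0, κ x) := by
    intro x
    exact Prod.ext (hP2 (0, x) rfl) rfl
  have hκk : ∀ (k : ℕ) x, (L ^ k) (0, x) = (0, (κ ^ k) x) := by
    intro k
    induction k with
    | zero => intro x; rfl
    | succ k ih =>
      intro x
      rw [pow_succ, pow_succ, Module.End.mul_apply, Module.End.mul_apply, hκ, ih]
  have hκp : κ ^ p = 1 := by
    apply LinearMap.ext
    intro x
    have h1 := hκk p x
    rw [hLp] at h1
    exact (congrArg Prod.snd h1).symm
  have hκinj : Function.Injective κ := by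
    intro x y hxy
    have h1 : L (0, x) = L (0, y) := by rw [hκ, hκ, hxy]
    exact congrArg Prod.snd (hinj h1)
  have hdet : LinearMap.det κ = 1 := by
    have h1 : LinearMap.det κ ^ p = 1 := by rw [← map_pow, hκp, map_one]
    have h2 : frobenius F p (LinearMap.det κ) = frobenius F p 1 := by
      rw [frobenius_def, frobenius_def, h1, one_pow]
    exact frobenius_inj F p h2
  refine ⟨LinearEquiv.ofInjectiveEndo κ hκinj, ?_, ?_⟩
  · have h1 : ((LinearEquiv.ofInjectiveEndo κ hκinj : W ≃ₗ[F] W) : W →ₗ[F] W) = κ :=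
      LinearMap.ext fun x => rfl
    rw [h1, hdet]
  · intro e
    have h1 : Φ e = L (e.1, 0) + L (0, e.2) := by
      rw [← map_add, ← hL]
      congr 1
      apply Prod.ext
      · exact (add_zero _).symm
      · exact (zero_add _).symm
    rw [h1, hκ]
    apply Prod.ext
    · rw [Prod.fst_add, add_zero]
      apply LinearMap.ext
      intro x
      have h2 := hω (e.1, 0) (0, (LinearEquiv.ofInjectiveEndo κ hκinj).symm x)
      rw [← hL, ← hL, hκ] at h2
      unfold tsom at h2
      have h3 : κ ((LinearEquiv.ofInjectiveEndo κ hκinj).symm x) = x :=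
        (LinearEquiv.ofInjectiveEndo κ hκinj).apply_symm_apply x
      rw [h3] at h2
      simpa using h2
    · rw [Prod.snd_add, hP1 (e.1, 0) rfl, zero_add]
      rfl

end tslin

theorem sl_ts {p : ℕ} [Fact p.Prime] (hp5 : 5 ≤ p) {m : ℕ} {F : Type} [Field F] [Finite F]
    [CharP F p] {a b : Fin m} (hab : a ≠ b) (φ : MulAut (slU F a b)) (hφ : φ ^ p = 1)
    (hz : ∀ t, φ ⟨slZ hab t, slZ_mem hab t⟩ = ⟨slZ hab t, slZ_mem hab t⟩)
    (hr : ∀ r ∈ nm (slU F a b), ∃ r' ∈ nm (slU F a b), ∀ u v : slU F a b,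
      (v : Matrix.SpecialLinearGroup (Fin m) F) = r * (u : Matrix.SpecialLinearGroup (Fin m) F) * r⁻¹ →
      (φ v : Matrix.SpecialLinearGroup (Fin m) F) =
        r' * (φ u : Matrix.SpecialLinearGroup (Fin m) F) * r'⁻¹) :
    ∃ s ∈ nm (slU F a b), (∀ u : slU F a b, ∃ t,
      s * (φ u : Matrix.SpecialLinearGroup (Fin m) F) * s⁻¹ *
        (u : Matrix.SpecialLinearGroup (Fin m) F)⁻¹ = slZ hab t) ∧
      ∀ t, s * slZ hab t * s⁻¹ = slZ hab t := by
  classical
  have hpp : p.Prime := Fact.out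
  choose sec hsec1 hsec2 using tsq_surj (F := F) hab
  let S : Module.Dual F (tsW F a b) × tsW F a b → slU F a b := fun e => ⟨sec e, hsec1 e⟩
  have hS : ∀ e, tsq hab (S e : Matrix.SpecialLinearGroup (Fin m) F) = e := hsec2
  let Φ : Module.Dual F (tsW F a b) × tsW F a b → Module.Dual F (tsW F a b) × tsW F a b :=
    fun e => tsq hab (φ (S e) : Matrix.SpecialLinearGroup (Fin m) F)
  have key : ∀ u : slU F a b, tsq hab (φ u : Matrix.SpecialLinearGroup (Fin m) F) =
      Φ (tsq hab (u : Matrix.SpecialLinearGroup (Fin m) F)) := by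
    intro u
    set w : slU F a b := (S (tsq hab (u : Matrix.SpecialLinearGroup (Fin m) F)))⁻¹ * u with hw
    have h1 : tsq hab (w : Matrix.SpecialLinearGroup (Fin m) F) = 0 := by
      rw [hw, Subgroup.coe_mul, Subgroup.coe_inv, tsq_mul hab ((slU F a b).inv_mem (S _).2) u.2,
        tsq_inv hab (S _).2, hS, neg_add_cancel]
    have h2 := tsq_ker hab w.2 h1
    have h3 : w = ⟨slZ hab ((ap (w : Matrix.SpecialLinearGroup (Fin m) F) (ee F b)) a),
        slZ_mem hab _⟩ := Subtype.ext h2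
    have h4 : φ w = w := by
      rw [h3]
      exact hz _
    have h5 : u = S (tsq hab (u : Matrix.SpecialLinearGroup (Fin m) F)) * w := by
      rw [hw, mul_inv_cancel_left]
    have h6 : φ u = φ (S (tsq hab (u : Matrix.SpecialLinearGroup (Fin m) F))) * w := by
      conv_lhs => rw [h5]
      rw [map_mul, h4]
    rw [h6, Subgroup.coe_mul, tsq_mul hab (φ _).2 w.2, h1, add_zero]
  have hadd : ∀ e e', Φ (e + e') = Φ e + Φ e' := by
    intro e e'
    have h1 : tsq hab ((S e * S e' : slU F a b) : Matrix.SpecialLinearGroup (Fin m) F) =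
        e + e' := by
      rw [Subgroup.coe_mul, tsq_mul hab (S e).2 (S e').2, hS, hS]
    rw [← h1, ← key, map_mul, Subgroup.coe_mul, tsq_mul hab (φ _).2 (φ _).2]
  have hω : ∀ e e', tsom (Φ e) (Φ e') = tsom e e' := by
    intro e e'
    have h1 := tsq_comm hab (φ (S e)).2 (φ (S e')).2
    have h2 := tsq_comm hab (S e).2 (S e').2
    rw [hS, hS] at h2
    have h3 : S e * S e' * (S e)⁻¹ * (S e')⁻¹ = ⟨slZ hab (e.1 e'.2 - e'.1 e.2),
        slZ_mem hab _⟩ := Subtype.ext h2
    have h4 : φ (S e) * φ (S e') * (φ (S e))⁻¹ * (φ (S e'))⁻¹ =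
        ⟨slZ hab (e.1 e'.2 - e'.1 e.2), slZ_mem hab _⟩ := by
      rw [← hz, ← h3, map_mul, map_mul, map_mul, map_inv, map_inv]
    have h5 := congrArg (Subtype.val) h4
    exact ts_Zinj hab (h1.symm.trans h5)
  have hpow : ∀ (k : ℕ) (u : slU F a b),
      tsq hab ((φ ^ k) u : Matrix.SpecialLinearGroup (Fin m) F) =
        Φ^[k] (tsq hab (u : Matrix.SpecialLinearGroup (Fin m) F)) := by
    intro k
    induction k with
    | zero => intro u; rfl
    | succ k ih =>
      intro u
      rw [pow_succ', MulAut.mul_apply, key, ih, Function.iterate_succ_apply']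
  have hp : ∀ e, Φ^[p] e = e := by
    intro e
    have h1 := hpow p (S e)
    rw [hφ, hS] at h1
    rw [← h1]
    exact hS e
  have hrk : ∀ (k : ℕ), ∀ r ∈ nm (slU F a b), ∃ r' ∈ nm (slU F a b), ∀ u v : slU F a b,
      (v : Matrix.SpecialLinearGroup (Fin m) F) =
        r * (u : Matrix.SpecialLinearGroup (Fin m) F) * r⁻¹ →
      ((φ ^ k) v : Matrix.SpecialLinearGroup (Fin m) F) =
        r' * ((φ ^ k) u : Matrix.SpecialLinearGroup (Fin m) F) * r'⁻¹ := by
    intro k
    induction k with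
    | zero => intro r hr'; exact ⟨r, hr', fun u v h => h⟩
    | succ k ih =>
      intro r hr'
      obtain ⟨r1, hr1, h1⟩ := ih r hr'
      obtain ⟨r2, hr2, h2⟩ := hr r1 hr1
      refine ⟨r2, hr2, fun u v h => ?_⟩
      have h3 := h2 ((φ ^ k) u) ((φ ^ k) v) (h1 u v h)
      rw [pow_succ', MulAut.mul_apply, MulAut.mul_apply]
      exact h3
  have hstep : ∀ (g : tsW F a b ≃ₗ[F] tsW F a b) (α β : Fˣ),
      (α : F) * β * LinearMap.det (g : tsW F a b →ₗ[F] tsW F a b) = 1 →
      ∀ e, ∃ r' ∈ nm (slU F a b),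
        ((α : F) • ((Φ e).1 ∘ₗ (g.symm : tsW F a b →ₗ[F] tsW F a b)),
          ((β⁻¹ : Fˣ) : F) • g (Φ e).2) =
            Φ (tsq hab (r' * (S e : Matrix.SpecialLinearGroup (Fin m) F) * r'⁻¹)) := by
    intro g α β hg e
    have hdet : LinearMap.det (tsG hab (g : tsW F a b →ₗ[F] tsW F a b) (α : F) (β : F)) = 1 := by
      rw [tsG_det]
      exact hg
    have hrn := tsG_nm hab (g : tsW F a b →ₗ[F] tsW F a b) (α : F) (β : F) hdet
    have hconj := tsG_conj hab g α β hdet (φ (S e)).2
    generalize tsSL (tsG hab (g : tsW F a b →ₗ[F] tsW F a b) (α : F) (β : F)) hdet = r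
      at hrn hconj
    obtain ⟨r', hr', h1⟩ := hrk (p - 1) r hrn
    have hv : r * (φ (S e) : Matrix.SpecialLinearGroup (Fin m) F) * r⁻¹ ∈ slU F a b :=
      ((mem_nm'.1 hrn) _).1 (φ (S e)).2
    have h2 := h1 (φ (S e)) ⟨_, hv⟩ rfl
    have h3 : (φ ^ (p - 1)) (φ (S e)) = S e := by
      rw [← MulAut.mul_apply, ← pow_succ, Nat.sub_add_cancel hpp.one_le, hφ]
      rfl
    rw [h3] at h2
    refine ⟨r', hr', ?_⟩
    rw [← h2, ← key, ← MulAut.mul_apply, ← pow_succ', Nat.sub_add_cancel hpp.one_le, hφ]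
    exact hconj.symm
  obtain ⟨κ, hκ1, hκ2⟩ := ts_lin hp5 Φ hadd hω hp
    (by
      intro g α β hg e he
      obtain ⟨r', hr', h1⟩ := hstep g α β hg e
      refine ⟨_, ts_inv1 hab hr' (S e).2 ?_, h1⟩
      rw [hS]
      exact he)
    (by
      intro g α β hg e he
      obtain ⟨r', hr', h1⟩ := hstep g α β hg e
      refine ⟨_, ts_inv2 hab hr' (S e).2 ?_, h1⟩
      rw [hS]
      exact he)
  have hκ3 : LinearMap.det (κ.symm : tsW F a b →ₗ[F] tsW F a b) = 1 := by
    have h1 : LinearMap.det ((κ.symm : tsW F a b →ₗ[F] tsW F a b) ∘ₗ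
        (κ : tsW F a b →ₗ[F] tsW F a b)) = 1 := by
      have h2 : (κ.symm : tsW F a b →ₗ[F] tsW F a b) ∘ₗ (κ : tsW F a b →ₗ[F] tsW F a b) =
          LinearMap.id := LinearMap.ext fun x => κ.symm_apply_apply x
      rw [h2, LinearMap.det_id]
    rw [LinearMap.det_comp, hκ1, mul_one] at h1
    exact h1
  have hdet : LinearMap.det (tsG hab (κ.symm : tsW F a b →ₗ[F] tsW F a b)
      ((1 : Fˣ) : F) ((1 : Fˣ) : F)) = 1 := by
    rw [tsG_det, hκ3, Units.val_one, mul_one, mul_one]
  have hsn := tsG_nm hab (κ.symm : tsW F a b →ₗ[F] tsW F a b) ((1 : Fˣ) : F) ((1 : Fˣ) : F) hdet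
  refine ⟨_, hsn, fun u => ?_, fun t => ?_⟩
  · have hconj := tsG_conj hab κ.symm 1 1 hdet (φ u).2
    rw [key, hκ2] at hconj
    have h1 := ((mem_nm'.1 hsn) _).1 (φ u).2
    refine ⟨_, tsq_ker hab ((slU F a b).mul_mem h1 ((slU F a b).inv_mem u.2)) ?_⟩
    rw [tsq_mul hab h1 ((slU F a b).inv_mem u.2), tsq_inv hab u.2, hconj, ← sub_eq_add_neg,
      sub_eq_zero]
    apply Prod.ext
    · apply LinearMap.ext
      intro w
      change ((1 : Fˣ) : F) * (tsq hab (u : Matrix.SpecialLinearGroup (Fin m) F)).1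
        (κ.symm (κ.symm.symm w)) = _
      rw [LinearEquiv.symm_symm, κ.symm_apply_apply, Units.val_one, one_mul]
    · change ((1⁻¹ : Fˣ) : F) • κ.symm (κ (tsq hab
        (u : Matrix.SpecialLinearGroup (Fin m) F)).2) = _
      rw [κ.symm_apply_apply, inv_one, Units.val_one, one_smul]
  · apply ap_ext
    intro v
    have h1 : ∀ v, (ap (tsSL (tsG hab (κ.symm : tsW F a b →ₗ[F] tsW F a b)
        ((1 : Fˣ) : F) ((1 : Fˣ) : F)) hdet) v) b = v b := by
      intro v
      rw [tsSL_ap, tsG_b, Units.val_one, one_mul]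
    have h2 : ap (tsSL (tsG hab (κ.symm : tsW F a b →ₗ[F] tsW F a b)
        ((1 : Fˣ) : F) ((1 : Fˣ) : F)) hdet) (ee F a) = ee F a := by
      rw [tsSL_ap, tsG_a, Units.val_one, one_smul]
    generalize tsSL (tsG hab (κ.symm : tsW F a b →ₗ[F] tsW F a b)
        ((1 : Fˣ) : F) ((1 : Fˣ) : F)) hdet = s at h1 h2
    have h3 : (ap s⁻¹ v) b = v b := by
      rw [← h1 (ap s⁻¹ v), ap_ap_inv]
    rw [ap_mul, ap_mul, slZ_ap, slZ_ap, ap_add, ap_smul, ap_ap_inv, h2, h3]

end Pool.Agent.Helper54.OC
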