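import Pool.Agent.Helper54.OC.SLSyl
import Pool.Agent.Helper54.OC.SLTs
import Pool.Agent.Helper54.OC.ParMain
import Pool.Agent.Helper54.PR.SLDef

/-!
# OC-17: automorphisms of order `p` of `PSL_m(F)`, `F` of characteristic `p`

PROOF.  `sl_par`: collect OC-12 .. OC-16 (`slC` is normal; `sl_cent` gives `mem_sup_left`).  `aa_psl_def`: `aa_par_quot` with `a = 0`, `b = 1` and
`win_sl_def` (PR/SLDef.lean).  `Subgroup.center S = ⊥`: `S` is simple and not abelian.
-/

set_option autoImplicit false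
open scoped Pointwise Matrix
open Pool.Agent.Helper54.PW Pool.Agent.Helper54.RT Pool.Agent.Helper54.PR

namespace Pool.Agent.Helper54.OC

private theorem slm_ee_self {m : ℕ} {F : Type} [Field F] (i : Fin m) : (ee F i) i = 1 := by
  unfold ee
  rw [Pi.single_eq_same]

private theorem slm_ee_ne {m : ℕ} {F : Type} [Field F] {i j : Fin m} (h : i ≠ j) :
    (ee F i) j = 0 := by
  unfold ee
  rw [Pi.single_eq_of_ne h.symm]

private theorem slm_cen {m : ℕ} {F : Type} [Field F] {a b : Fin m} (hab : a ≠ b) (t : F)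
    {u : Matrix.SpecialLinearGroup (Fin m) F} (hu : u ∈ slU F a b) :
    slZ hab t * u = u * slZ hab t := by
  apply ap_ext
  intro v
  rw [ap_mul, ap_mul, slZ_ap, slZ_ap, ap_add, ap_smul, hu.1, hu.2.1]

private theorem slm_inj {m : ℕ} {F : Type} [Field F] {a b : Fin m} (hab : a ≠ b) {t : F}
    (h : slZ hab t = 1) : t = 0 := by
  have h1 : ap (slZ hab t) (ee F b) = ee F b := by rw [h, ap_one]
  have h2 := congrFun h1 a
  rw [slZ_ap, Pi.add_apply, Pi.smul_apply, slm_ee_self, slm_ee_self, slm_ee_ne hab.symm] at h2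
  simpa using h2

private theorem slm_add {m : ℕ} {F : Type} [Field F] {a b : Fin m} (hab : a ≠ b) (s t : F) :
    slZ hab (s + t) = slZ hab s * slZ hab t := by
  apply ap_ext
  intro v
  rw [ap_mul, slZ_ap, slZ_ap, slZ_ap, Pi.add_apply, Pi.smul_apply, slm_ee_ne hab, smul_zero,
    add_zero, add_mul, add_smul]
  abel

theorem sl_par {p : ℕ} [Fact p.Prime] (hp5 : 5 ≤ p) {m : ℕ} {F : Type} [Field F] [Finite F]
    [CharP F p] {a b : Fin m} (hab : a ≠ b) :
    Par p F (slC F m) (slU F a b) (slU F b a) (slZ hab) (slH hab) where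
  cen := le_refl _
  cp := slC_card
  pU := by
    rintro ⟨u, hu⟩
    exact ⟨2, Subtype.ext (slU_pow hab hu)⟩
  z_add := slm_add hab
  z_inj := fun t => slm_inj hab
  z_mem := slZ_mem hab
  z_comm := fun t u hu => slm_cen hab t hu
  z_cen := fun u hu h => slU_cen hab hu h
  comm := fun u hu u' hu' => ⟨_, slU_comm hab hu hu'⟩
  hc_mul := slH_mul hab
  hc_z := slH_z hab
  hc_U := fun c u hu => slH_U hab c hu
  hc_comm := fun c t u hu u' hu' h => slH_comm hab c t hu hu' h
  faith := fun r hr h1 h2 => sl_faith hab hr h1 h2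
  scal := fun r hr => sl_scal hab hr
  cent := fun r hr c => Subgroup.mem_sup_left (sl_cent hab hr c)
  w := sl_w hab
  iU := fun u hu h => sl_iU hab hu h
  iV := fun v hv h => sl_iU hab.symm hv h
  opp := fun g h => sl_opp hab g h
  uv := sl_uv hab
  gen := slUV_gen hab
  syl := sl_syl hab
  nz := fun g hg => sl_nz hab hg
  op := fun O hO h1 h2 => sl_op hab O hO h1 h2
  ts := fun φ hφ hz hr => sl_ts hp5 hab φ hφ hz hr

theorem aa_psl_def {p : ℕ} [Fact p.Prime] (hp5 : 5 ≤ p) {k : Type} [Field k] [IsAlgClosed k]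
    [CharP k p] {m : ℕ} (hm : 2 ≤ m) {F : Type} [Field F] [Finite F] [CharP F p]
    {S : Type} [Group S] [Finite S] [IsSimpleGroup S] (hna : ∃ a b : S, a * b ≠ b * a)
    (e : S ≃* Matrix.SpecialLinearGroup (Fin m) F ⧸
      Subgroup.center (Matrix.SpecialLinearGroup (Fin m) F)) {α : MulAut S}
    (hα : orderOf α = p) : AA k α := by
  have hab : (⟨0, by omega⟩ : Fin m) ≠ ⟨1, by omega⟩ := by
    intro h
    simpa using congrArg Fin.val h
  have hcen : Subgroup.center S = ⊥ := by
    rcases (inferInstance : (Subgroup.center S).Normal).eq_bot_or_eq_top with h | h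
    · exact h
    · exfalso
      obtain ⟨x, y, hxy⟩ := hna
      apply hxy
      have hx : x ∈ Subgroup.center S := by rw [h]; exact Subgroup.mem_top x
      exact ((Subgroup.mem_center_iff.1 hx) y).symm
  haveI : Finite (Matrix.SpecialLinearGroup (Fin m) F) := Subtype.finite
  exact aa_par_quot hp5 (sl_par hp5 hab) hcen e (fun s hs => win_sl_def hp5 hm s hs) hα

end Pool.Agent.Helper54.OC
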