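import Pool.Agent.Helper54.OC.Norm
import Pool.Agent.Helper54.AN.Inner

/-!
# OC-06: a criterion for `AA k α`

PROOF.  `conj : S → MulAut S` is injective.  `G1 = range conj ⊔ zpowers α` (as a type), `P = (zpowers α).subgroupOf G1`, `d = h^(j-1)`.  For `W = U` or `W = V`
let `H` be the subgroup of `G1` generated by `conj W`, `conj d` and `α`.  `conj W` is normal in `H`, `conj ⟨W, d⟩` is normal in `H` (`α d α⁻¹ = d^j`), so `H`
is solvable (`W` is a `p`-group).  Let `K` be a normal subgroup of `H` which contains `α`.  By `surj_aut` (in `MulAut S` or `G1`, with `conj h` and `α`)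
`conj d = α y α⁻¹ y⁻¹` with `y ∈ zpowers (conj d)`, so `conj d ∈ K`.  For `w ∈ W` there is by `conj_coset` (for `d` and `x = w d`) `v ∈ W` with
`w = v d v⁻¹ d⁻¹`, so `conj w ∈ K`.  So `K = H`, and `H ≤ JJ k P` by `jj_solvable` (RT/JJ.lean; `IsPGroup p P`).  So `JJ k P` contains `α` and
`conj U`, `conj V`, so it is `⊤`; `jj_top`.
-/

set_option autoImplicit false
open scoped Pointwise
open Pool.Agent.Helper54.PW Pool.Agent.Helper54.RT

namespace Pool.Agent.Helper54.OC

/-- solvable by solvable, with a normal subgroup -/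
private theorem solv_normal_ag {G : Type} [Group G] {Q P : Subgroup G} [Q.Normal]
    (hQ : Group.IsSolvable Q) (hP : Group.IsSolvable P) :
    Group.IsSolvable (Q ⊔ P : Subgroup G) := by
  have h1 : (Q ⊔ P).map (QuotientGroup.mk' Q) = P.map (QuotientGroup.mk' Q) := by
    rw [Subgroup.map_sup, QuotientGroup.map_mk'_self, bot_sup_eq]
  have h2 : Group.IsSolvable ((Q ⊔ P).map (QuotientGroup.mk' Q) : Subgroup (G ⧸ Q)) := by
    rw [h1]
    exact Group.isSolvable_of_surjective
      (f := (QuotientGroup.mk' Q).subgroupMap P) ((QuotientGroup.mk' Q).subgroupMap_surjective P)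
  refine Group.isSolvable_of_ker_le_range (Subgroup.inclusion (le_sup_left : Q ≤ Q ⊔ P))
    ((QuotientGroup.mk' Q).subgroupMap (Q ⊔ P)) ?_
  intro x hx
  rw [MonoidHom.mem_ker] at hx
  have h3 : QuotientGroup.mk' Q (x : G) = 1 := congrArg Subtype.val hx
  have h4 : (x : G) ∈ Q := (QuotientGroup.eq_one_iff (x : G)).1 h3
  exact ⟨⟨x, h4⟩, rfl⟩

/-- solvable by solvable -/
private theorem solv_sup_ag {G : Type} [Group G] {Q P : Subgroup G}
    (hPQ : P ≤ Subgroup.normalizer (Q : Set G))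
    (hQ : Group.IsSolvable Q) (hP : Group.IsSolvable P) :
    Group.IsSolvable (Q ⊔ P : Subgroup G) := by
  have hQM : Q ≤ Subgroup.normalizer (Q : Set G) := Subgroup.le_normalizer
  have hn : (Q.subgroupOf (Subgroup.normalizer (Q : Set G))).Normal := inferInstance
  have h1 : Group.IsSolvable (Q.subgroupOf (Subgroup.normalizer (Q : Set G))) :=
    Group.isSolvable_of_surjective (f := (Subgroup.subgroupOfEquivOfLe hQM).symm.toMonoidHom)
      (Subgroup.subgroupOfEquivOfLe hQM).symm.surjective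
  have h2 : Group.IsSolvable (P.subgroupOf (Subgroup.normalizer (Q : Set G))) :=
    Group.isSolvable_of_surjective (f := (Subgroup.subgroupOfEquivOfLe hPQ).symm.toMonoidHom)
      (Subgroup.subgroupOfEquivOfLe hPQ).symm.surjective
  have h3 := solv_normal_ag h1 h2
  have h4 : (Q.subgroupOf (Subgroup.normalizer (Q : Set G)) ⊔
      P.subgroupOf (Subgroup.normalizer (Q : Set G))).map (Subgroup.subtype _) = Q ⊔ P := by
    rw [Subgroup.map_sup, Subgroup.subgroupOf_map_subtype, Subgroup.subgroupOf_map_subtype,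
      inf_eq_left.2 hQM, inf_eq_left.2 hPQ]
  rw [← h4]
  exact Group.isSolvable_of_surjective
    (f := (Subgroup.subtype (Subgroup.normalizer (Q : Set G))).subgroupMap _)
    (MonoidHom.subgroupMap_surjective _ _)

/-- an element which maps a finite subgroup to itself is in the normalizer -/
private theorem mem_norm_ag {G : Type} [Group G] [Finite G] {W : Subgroup G} {g : G}
    (h : ∀ w ∈ W, g * w * g⁻¹ ∈ W) : g ∈ Subgroup.normalizer (W : Set G) := by
  have h1 : W ≤ W.comap (MulAut.conj g).toMonoidHom := by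
    intro w hw
    rw [Subgroup.mem_comap]
    exact h w hw
  have h2 : (W.map (MulAut.conj g).toMonoidHom) ≤ W := Subgroup.map_le_iff_le_comap.2 h1
  have h3 : Nat.card (W.map (MulAut.conj g).toMonoidHom) = Nat.card W :=
    Nat.card_congr (W.equivMapOfInjective _ (MulAut.conj g).injective).toEquiv.symm
  have h4 : W.map (MulAut.conj g).toMonoidHom = W :=
    Subgroup.eq_of_le_of_card_ge h2 h3.ge
  rw [Subgroup.mem_normalizer_iff]
  intro x
  constructor
  · exact h x
  · intro hx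
    rw [← h4] at hx
    obtain ⟨y, hy, hyx⟩ := hx
    have h5 : g * y * g⁻¹ = g * x * g⁻¹ := hyx
    have h6 : y = x := mul_left_cancel (mul_right_cancel h5)
    rw [← h6]
    exact hy

/-- the main step, in a group -/
private theorem step_ag {p : ℕ} [Fact p.Prime] {k : Type} [Field k] [IsAlgClosed k] [CharP k p]
    {S G : Type} [Group S] [Finite S] [Group G] [Finite G] (c : S →* G)
    (hc : Function.Injective c) {a : G} (ha : a ^ p = 1) {f : S → S}
    (hac : ∀ s, a * c s * a⁻¹ = c (f s)) {W : Subgroup S} (hW : IsPGroup p W)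
    (hfW : ∀ w ∈ W, f w ∈ W) {h : S} (hp : ¬ p ∣ orderOf h) {j : ℤ} (hj : f h = h ^ j)
    (hhW : ∀ w ∈ W, h * w * h⁻¹ ∈ W)
    (hfx : ∀ w ∈ W, h ^ (j - 1) * w = w * h ^ (j - 1) → w = 1) :
    W.map c ≤ JJ k (Subgroup.zpowers a) := by
  obtain ⟨d, hd⟩ : ∃ d, d = h ^ (j - 1) := ⟨_, rfl⟩
  rw [← hd] at hfx
  have hPa : IsPGroup p (Subgroup.zpowers a) := by
    intro x
    obtain ⟨x, hx⟩ := x
    obtain ⟨n, rfl⟩ := hx
    refine ⟨1, Subtype.ext ?_⟩
    show (a ^ n) ^ p ^ 1 = 1
    rw [pow_one, ← zpow_natCast, ← zpow_mul, mul_comm, zpow_mul, zpow_natCast, ha, one_zpow]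
  obtain ⟨A, hA⟩ : ∃ A, A = W.map c ⊔ Subgroup.zpowers (c d) := ⟨_, rfl⟩
  obtain ⟨H, hH⟩ : ∃ H, H = A ⊔ Subgroup.zpowers a := ⟨_, rfl⟩
  have hnW : h ∈ Subgroup.normalizer (W : Set S) := mem_norm_ag hhW
  have hdW : d ∈ Subgroup.normalizer (W : Set S) := by
    rw [hd]
    exact Subgroup.zpow_mem _ hnW _
  have hdW' : ∀ w ∈ W, d * w * d⁻¹ ∈ W := fun w hw =>
    (Subgroup.mem_normalizer_iff.1 hdW w).1 hw
  have hfd : a * c d * a⁻¹ = c d ^ j := by
    rw [hd, map_zpow, ← conj_zpow, hac, hj, map_zpow, ← zpow_mul, ← zpow_mul, mul_comm]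
  have hcW : c d ∈ Subgroup.normalizer (W.map c : Set G) := by
    refine mem_norm_ag ?_
    rintro _ ⟨w, hw, rfl⟩
    exact ⟨d * w * d⁻¹, hdW' w hw, by rw [map_mul, map_mul, map_inv]⟩
  have haA : a ∈ Subgroup.normalizer (A : Set G) := by
    refine mem_norm_ag fun x hx => ?_
    have h1 : A ≤ A.comap (MulAut.conj a).toMonoidHom := by
      conv_lhs => rw [hA]
      refine sup_le ?_ ?_
      · rintro _ ⟨w, hw, rfl⟩
        rw [Subgroup.mem_comap]
        show a * c w * a⁻¹ ∈ A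
        rw [hac, hA]
        exact Subgroup.mem_sup_left ⟨f w, hfW w hw, rfl⟩
      · rw [Subgroup.zpowers_le, Subgroup.mem_comap]
        show a * c d * a⁻¹ ∈ A
        rw [hfd, hA]
        exact Subgroup.mem_sup_right (Subgroup.zpow_mem _ (Subgroup.mem_zpowers _) _)
    exact h1 hx
  have hcyc : ∀ g : G, Group.IsSolvable (Subgroup.zpowers g) := by
    intro g
    infer_instance
  have hsW : Group.IsSolvable (W.map c) := by
    have h1 : IsPGroup p (W.map c) := hW.map c
    haveI := h1.isNilpotent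
    infer_instance
  have hsA : Group.IsSolvable A := by
    rw [hA]
    refine solv_sup_ag ?_ hsW (hcyc _)
    rw [Subgroup.zpowers_le]
    exact hcW
  have hsH : Group.IsSolvable H := by
    rw [hH]
    refine solv_sup_ag ?_ hsA (hcyc _)
    rw [Subgroup.zpowers_le]
    exact haA
  have haH : a ∈ H := by rw [hH]; exact Subgroup.mem_sup_right (Subgroup.mem_zpowers _)
  have hAH : A ≤ H := by rw [hH]; exact le_sup_left
  have hWH : W.map c ≤ H := le_trans (by rw [hA]; exact le_sup_left) hAH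
  have hdH : c d ∈ H := hAH (by rw [hA]; exact Subgroup.mem_sup_right (Subgroup.mem_zpowers _))
  refine le_trans hWH (jj_solvable hPa (P1 := Subgroup.zpowers a) le_rfl hsH ?_)
  -- the normal closure
  obtain ⟨N0, hN0⟩ : ∃ N0, N0 = Subgroup.normalClosure
    (((Subgroup.zpowers a).subgroupOf H : Subgroup H) : Set H) := ⟨_, rfl⟩
  rw [← hN0]
  have hN0n : N0.Normal := by rw [hN0]; infer_instance
  have ha0 : (⟨a, haH⟩ : H) ∈ N0 := by
    rw [hN0]
    exact Subgroup.subset_normalClosure (Subgroup.mem_subgroupOf.2 (Subgroup.mem_zpowers a))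
  obtain ⟨N, hN⟩ : ∃ N, N = N0.map H.subtype := ⟨_, rfl⟩
  have haN : a ∈ N := by rw [hN]; exact ⟨_, ha0, rfl⟩
  have hconj : ∀ x ∈ N, ∀ y ∈ H, y * x * y⁻¹ ∈ N := by
    intro x hx y hy
    rw [hN] at hx ⊢
    obtain ⟨z, hz, rfl⟩ := hx
    exact ⟨⟨y, hy⟩ * z * ⟨y, hy⟩⁻¹, hN0n.conj_mem z hz _, rfl⟩
  have hord : orderOf (c h) = orderOf h := orderOf_injective c hc h
  have hcd : c d = c h ^ (j - 1) := by rw [hd, map_zpow]
  have hdN : c d ∈ N := by
    obtain ⟨y, hy, hxy⟩ := surj_aut (p := p) (h := c h) (a := a) (by rw [hord]; exact hp) ha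
      (j := j) (by rw [hac, hj, map_zpow]) (x := c d) (by rw [hcd]; exact Subgroup.mem_zpowers _)
    have hyH : y ∈ H := by
      rw [← hcd] at hy
      exact (Subgroup.zpowers_le.2 hdH) hy
    rw [hxy]
    have : a * y * a⁻¹ * y⁻¹ = a * (y * a⁻¹ * y⁻¹) := by group
    rw [this]
    exact N.mul_mem haN (hconj _ (N.inv_mem haN) _ hyH)
  have hWN : W.map c ≤ N := by
    rintro _ ⟨w, hw, rfl⟩
    obtain ⟨v, hv, hwv⟩ := conj_coset hdW' hfx (x := w * d) (by rw [mul_inv_cancel_right]; exact hw)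
    have h1 : c w = (c v * c d * (c v)⁻¹) * (c d)⁻¹ := by
      have h2 : w = v * d * v⁻¹ * d⁻¹ := by rw [← hwv]; group
      conv_lhs => rw [h2]
      simp only [map_mul, map_inv]
    rw [h1]
    exact N.mul_mem (hconj _ hdN _ (hWH ⟨v, hv, rfl⟩)) (N.inv_mem hdN)
  have hHN : H ≤ N := by
    rw [hH, hA]
    refine sup_le (sup_le hWN ?_) ?_
    · rw [Subgroup.zpowers_le]; exact hdN
    · rw [Subgroup.zpowers_le]; exact haN
  rw [eq_top_iff]
  rintro ⟨x, hx⟩ _
  have h1 := hHN hx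
  rw [hN] at h1
  obtain ⟨z, hz, hzx⟩ := h1
  have h2 : z = ⟨x, hx⟩ := Subtype.ext hzx
  rwa [← h2]

theorem aa_gen {p : ℕ} [Fact p.Prime] {k : Type} [Field k] [IsAlgClosed k] [CharP k p]
    {S : Type} [Group S] [Finite S] (hc : Subgroup.center S = ⊥) {U V : Subgroup S}
    (hU : IsPGroup p U) (hV : IsPGroup p V) (hUV : U ⊔ V = ⊤) {α : MulAut S}
    (hα : orderOf α = p) (hαU : ∀ u ∈ U, α u ∈ U) (hαV : ∀ v ∈ V, α v ∈ V) {h : S}
    (hp : ¬ p ∣ orderOf h) {j : ℤ} (hj : α h = h ^ j) (hhU : ∀ u ∈ U, h * u * h⁻¹ ∈ U)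
    (hhV : ∀ v ∈ V, h * v * h⁻¹ ∈ V)
    (hfU : ∀ u ∈ U, h ^ (j - 1) * u = u * h ^ (j - 1) → u = 1)
    (hfV : ∀ v ∈ V, h ^ (j - 1) * v = v * h ^ (j - 1) → v = 1) : AA k α := by
  unfold AA
  obtain ⟨K, hK⟩ : ∃ K : Subgroup (MulAut S),
      K = (MulAut.conj : S →* MulAut S).range ⊔ Subgroup.zpowers α := ⟨_, rfl⟩
  rw [← hK]
  have hmem : ∀ x : S, MulAut.conj x ∈ K := by
    intro x
    rw [hK]
    exact Subgroup.mem_sup_left ⟨x, rfl⟩
  have haK : α ∈ K := by
    rw [hK]
    exact Subgroup.mem_sup_right (Subgroup.mem_zpowers _)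
  haveI : Finite (MulAut S) :=
    Finite.of_injective (fun g : MulAut S => (g : S → S)) DFunLike.coe_injective
  let c : S →* K := (MulAut.conj : S →* MulAut S).codRestrict K hmem
  have hcv : ∀ x, (c x : MulAut S) = MulAut.conj x := fun _ => rfl
  have hcinj : Function.Injective c := by
    rw [injective_iff_map_eq_one]
    intro x hx
    have h1 : MulAut.conj x = 1 := congrArg Subtype.val hx
    have h2 : x ∈ Subgroup.center S := by
      rw [Subgroup.mem_center_iff]
      intro g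
      have h3 : x * g * x⁻¹ = g := by
        have := DFunLike.congr_fun h1 g
        exact this
      have h4 : x * g = g * x := by
        calc x * g = (x * g * x⁻¹) * x := by group
          _ = g * x := by rw [h3]
      exact h4.symm
    rw [hc] at h2
    exact (Subgroup.mem_bot).1 h2
  let a : K := ⟨α, haK⟩
  have hav : (a : MulAut S) = α := rfl
  have hac : ∀ s, a * c s * a⁻¹ = c (α s) := by
    intro s
    apply Subtype.ext
    show α * MulAut.conj s * α⁻¹ = MulAut.conj (α s)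
    ext x
    show α (s * (α⁻¹ x) * s⁻¹) = α s * x * (α s)⁻¹
    rw [map_mul, map_mul, map_inv]
    have : α (α⁻¹ x) = x := α.apply_symm_apply x
    rw [this]
  have hord : orderOf a = p := by
    rw [← hα, ← hav]
    exact (Subgroup.orderOf_coe a).symm
  have hap : a ^ p = 1 := by rw [← hord]; exact pow_orderOf_eq_one a
  have hz : (Subgroup.zpowers α).subgroupOf K = Subgroup.zpowers a := by
    ext x
    rw [Subgroup.mem_subgroupOf, Subgroup.mem_zpowers_iff, Subgroup.mem_zpowers_iff]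
    constructor
    · rintro ⟨n, hn⟩
      exact ⟨n, Subtype.ext hn⟩
    · rintro ⟨n, hn⟩
      exact ⟨n, by rw [← hn]; rfl⟩
  rw [hz]
  have hPa : IsPGroup p (Subgroup.zpowers a) := by
    refine IsPGroup.of_card (n := 1) ?_
    rw [Nat.card_zpowers, hord, pow_one]
  refine jj_top hPa ?_
  have e1 := step_ag (k := k) c hcinj hap hac hU hαU hp hj hhU hfU
  have e2 := step_ag (k := k) c hcinj hap hac hV hαV hp hj hhV hfV
  have e3 : c.range ≤ JJ k (Subgroup.zpowers a) := by
    rw [MonoidHom.range_eq_map, ← hUV, Subgroup.map_sup]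
    exact sup_le e1 e2
  rw [eq_top_iff]
  rintro ⟨x, hx⟩ _
  have e4 : K ≤ (JJ k (Subgroup.zpowers a)).map K.subtype := by
    conv_lhs => rw [hK]
    refine sup_le ?_ ?_
    · rintro _ ⟨s, rfl⟩
      exact ⟨c s, e3 ⟨s, rfl⟩, rfl⟩
    · rw [Subgroup.zpowers_le]
      exact ⟨a, le_jj _ (Subgroup.mem_zpowers a), rfl⟩
  obtain ⟨y, hy, hyx⟩ := e4 hx
  have h2 : y = ⟨x, hx⟩ := Subtype.ext hyx
  rwa [← h2]

end Pool.Agent.Helper54.OC
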