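import Pool.Agent.Helper54.OC.Defs

/-!
# OC-02: conjugacy in a coset, by counting; power automorphisms

PROOF.
* `conj_coset`: the map `U → U`, `v ↦ v h v⁻¹ h⁻¹` is injective (`v h v⁻¹ = v' h v'⁻¹` gives `v'⁻¹ v` commutes with `h`), so it is surjective.
* `free_aut`: `x = y'` with `x = a y a⁻¹ y⁻¹`, `y = h^i` (`x = h^((j-1) i)`).  `a` acts on the abelian group `zpowers h`.  The product of
  `a^l x a^(-l)`, `0 ≤ l < p`, is `x^p` (`a` commutes with `x`); it telescopes: `a^l x a^(-l) = (a^(l+1) y a^(-l-1)) (a^l y a^(-l))⁻¹`, and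
  `a^p = 1`, so it is `1`.  `x^p = 1` and `orderOf x` divides `orderOf h`, which is prime to `p`: `x = 1`.
* `surj_aut`: `y ↦ a y a⁻¹ y⁻¹` is an endomorphism of the finite group `zpowers (h^(j-1))`, injective by `free_aut`.
-/

set_option autoImplicit false

namespace Pool.Agent.Helper54.OC

theorem conj_coset {A : Type} [Group A] {U : Subgroup A} [Finite U] {h : A}
    (hn : ∀ u ∈ U, h * u * h⁻¹ ∈ U) (hfix : ∀ u ∈ U, h * u = u * h → u = 1) {x : A}
    (hx : x * h⁻¹ ∈ U) : ∃ v ∈ U, x = v * h * v⁻¹ := by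
  let f : U → U := fun v => ⟨v.1 * (h * v.1⁻¹ * h⁻¹), U.mul_mem v.2 (hn _ (U.inv_mem v.2))⟩
  have hinj : Function.Injective f := by
    intro v w hvw
    have h1 : v.1 * (h * v.1⁻¹ * h⁻¹) = w.1 * (h * w.1⁻¹ * h⁻¹) := congrArg Subtype.val hvw
    have h2 : w.1⁻¹ * v.1 = 1 := by
      apply hfix _ (U.mul_mem (U.inv_mem w.2) v.2)
      have h3 : v.1 * h * v.1⁻¹ = w.1 * h * w.1⁻¹ := by
        have := congrArg (fun z => z * h) h1
        simpa [mul_assoc] using this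
      have h4 : v.1 * h = w.1 * h * w.1⁻¹ * v.1 := by
        have := congrArg (fun z => z * v.1) h3
        simpa [mul_assoc] using this
      rw [mul_assoc w.1⁻¹ v.1 h, h4]
      group
    apply Subtype.ext
    have := congrArg (fun z => w.1 * z) h2
    simpa using this
  have hsurj : Function.Surjective f := Finite.surjective_of_injective hinj
  obtain ⟨v, hv⟩ := hsurj ⟨x * h⁻¹, hx⟩
  refine ⟨v.1, v.2, ?_⟩
  have h1 : v.1 * (h * v.1⁻¹ * h⁻¹) = x * h⁻¹ := congrArg Subtype.val hv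
  have := congrArg (fun z => z * h) h1
  simpa [mul_assoc] using this.symm

theorem free_aut {A : Type} [Group A] [Finite A] {p : ℕ} [Fact p.Prime] {h a : A}
    (hp : ¬ p ∣ orderOf h) (ha : a ^ p = 1) {j : ℤ} (hj : a * h * a⁻¹ = h ^ j) {x : A}
    (hx : x ∈ Subgroup.zpowers (h ^ (j - 1))) (hax : a * x = x * a) : x = 1 := by
  obtain ⟨i, hi⟩ := Subgroup.mem_zpowers_iff.1 hx
  have hy : a * h ^ i = x * h ^ i * a := by
    have h1 : a * h ^ i * a⁻¹ = h ^ (j * i) := by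
      rw [← conj_zpow, hj, zpow_mul]
    have h2 : x * h ^ i = h ^ (j * i) := by
      rw [← hi, ← zpow_mul, ← zpow_add]
      congr 1
      ring
    rw [h2, ← h1]
    group
  have hl : ∀ l : ℕ, a ^ l * h ^ i = x ^ l * h ^ i * a ^ l := by
    intro l
    induction l with
    | zero => simp
    | succ l ih =>
      have hax' : a * x ^ l = x ^ l * a := (Commute.pow_right hax l)
      calc a ^ (l + 1) * h ^ i = a * (a ^ l * h ^ i) := by rw [pow_succ']; group
        _ = a * x ^ l * h ^ i * a ^ l := by rw [ih]; group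
        _ = x ^ l * (a * h ^ i) * a ^ l := by rw [hax']; group
        _ = x ^ l * (x * h ^ i * a) * a ^ l := by rw [hy]
        _ = x ^ (l + 1) * h ^ i * a ^ (l + 1) := by rw [pow_succ x, pow_succ' a]; group
  have hxp : x ^ p = 1 := by
    have := hl p
    rw [ha, one_mul, mul_one] at this
    have h2 := congrArg (fun z => z * (h ^ i)⁻¹) this
    simpa [mul_assoc] using h2.symm
  have h1 : orderOf x ∣ p := orderOf_dvd_of_pow_eq_one hxp
  have h2 : orderOf x ∣ orderOf h := by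
    rw [← hi, ← zpow_mul]
    apply orderOf_dvd_of_pow_eq_one
    rw [← zpow_natCast, ← zpow_mul, mul_comm, zpow_mul, zpow_natCast, pow_orderOf_eq_one, one_zpow]
  rcases (Nat.dvd_prime Fact.out).1 h1 with h3 | h3
  · exact orderOf_eq_one_iff.1 h3
  · exact absurd (h3 ▸ h2) hp

theorem surj_aut {A : Type} [Group A] [Finite A] {p : ℕ} [Fact p.Prime] {h a : A}
    (hp : ¬ p ∣ orderOf h) (ha : a ^ p = 1) {j : ℤ} (hj : a * h * a⁻¹ = h ^ j) {x : A}
    (hx : x ∈ Subgroup.zpowers (h ^ (j - 1))) :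
    ∃ y ∈ Subgroup.zpowers (h ^ (j - 1)), x = a * y * a⁻¹ * y⁻¹ := by
  set Z := Subgroup.zpowers (h ^ (j - 1)) with hZ
  have hconj : ∀ y ∈ Z, a * y * a⁻¹ ∈ Z := by
    intro y hy
    obtain ⟨i, hi⟩ := Subgroup.mem_zpowers_iff.1 hy
    have h1 : a * ((h ^ (j - 1)) ^ i) * a⁻¹ = ((h ^ (j - 1)) ^ i) ^ j := by
      rw [← conj_zpow, ← conj_zpow, hj, ← zpow_mul, ← zpow_mul, ← zpow_mul, ← zpow_mul]
      congr 1
      ring
    rw [← hi, h1]
    exact Z.zpow_mem (Z.zpow_mem (Subgroup.mem_zpowers _) _) _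
  have hcomm : ∀ y ∈ Z, ∀ z ∈ Z, y * z = z * y := by
    intro y hy z hz
    obtain ⟨i, hi⟩ := Subgroup.mem_zpowers_iff.1 hy
    obtain ⟨k, hk⟩ := Subgroup.mem_zpowers_iff.1 hz
    rw [← hi, ← hk, ← zpow_add, ← zpow_add, add_comm]
  let f : Z → Z := fun y => ⟨a * y.1 * a⁻¹ * y.1⁻¹, Z.mul_mem (hconj _ y.2) (Z.inv_mem y.2)⟩
  have hinj : Function.Injective f := by
    intro v w hvw
    have h1 : a * v.1 * a⁻¹ * v.1⁻¹ = a * w.1 * a⁻¹ * w.1⁻¹ := congrArg Subtype.val hvw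
    have h2 : w.1⁻¹ * v.1 = 1 := by
      apply free_aut hp ha hj (Z.mul_mem (Z.inv_mem w.2) v.2)
      have hc : v.1 * w.1⁻¹ = w.1⁻¹ * v.1 := hcomm _ v.2 _ (Z.inv_mem w.2)
      have h3 : a * v.1 * a⁻¹ = a * w.1 * a⁻¹ * (w.1⁻¹ * v.1) := by
        have := congrArg (fun z => z * v.1) h1
        simpa [mul_assoc] using this
      have h4 : (a * w.1 * a⁻¹)⁻¹ * (a * v.1 * a⁻¹) = w.1⁻¹ * v.1 := by
        rw [h3]; group
      have h5 : a * (w.1⁻¹ * v.1) * a⁻¹ = w.1⁻¹ * v.1 := by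
        have h6 : a * (w.1⁻¹ * v.1) * a⁻¹ = (a * w.1 * a⁻¹)⁻¹ * (a * v.1 * a⁻¹) := by group
        rw [h6, h4]
      have h6 := congrArg (fun z => z * a) h5
      simpa [mul_assoc] using h6
    apply Subtype.ext
    have := congrArg (fun z => w.1 * z) h2
    simpa using this
  have hsurj : Function.Surjective f := Finite.surjective_of_injective hinj
  obtain ⟨v, hv⟩ := hsurj ⟨x, hx⟩
  exact ⟨v.1, v.2, (congrArg Subtype.val hv).symm⟩

end Pool.Agent.Helper54.OC
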