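import Mathlib

/-!
# OC-01: data for a parabolic subgroup of a group of Lie type whose unipotent radical is `U`

Project OC: automorphisms of order `p` of classical groups in characteristic `p` (MP_63a9db_ag).

`Par p K C U V z hc` (`C` = center of `X`, of order prime to `p`): `U` is the unipotent radical of a parabolic subgroup `N(U)`, `V` the
unipotent radical of an opposite one, `z` a parametrization of the center `Z` of `U` by the field `K`, `[U, U] ≤ Z`; `hc c` acts on `U / Z` as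
the scalar `c` and on `Z` as the scalar `c²`.

Examples: `X = SL_m(F)`, `N(U)` the stabilizer of a point and a hyperplane (`K = F`, `hc c = diag(c, 1, ..., 1, c⁻¹)`, `z t = 1 + t E_1m`);
`X` symplectic or unitary, `N(U)` the stabilizer of an isotropic point; `X` orthogonal, `N(U)` the stabilizer of a totally isotropic line.
-/

set_option autoImplicit false
open scoped Pointwise

namespace Pool.Agent.Helper54.OC

/-- `g U g⁻¹` -/
def cj {X : Type} [Group X] (g : X) (U : Subgroup X) : Subgroup X := U.map (MulAut.conj g).toMonoidHom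

/-- the normalizer -/
def nm {X : Type} [Group X] (U : Subgroup X) : Subgroup X := Subgroup.normalizer (U : Set X)

section
variable {X : Type} [Group X]

theorem mem_cj {g x : X} {U : Subgroup X} : x ∈ cj g U ↔ g⁻¹ * x * g ∈ U := by
  unfold cj
  constructor
  · rintro ⟨y, hy, rfl⟩
    show g⁻¹ * (g * y * g⁻¹) * g ∈ U
    have : g⁻¹ * (g * y * g⁻¹) * g = y := by group
    rw [this]; exact hy
  · intro h
    refine ⟨_, h, ?_⟩
    show g * (g⁻¹ * x * g) * g⁻¹ = x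
    group

theorem conj_mem_cj {g x : X} {U : Subgroup X} (h : x ∈ U) : g * x * g⁻¹ ∈ cj g U := by
  rw [mem_cj]
  have : g⁻¹ * (g * x * g⁻¹) * g = x := by group
  rw [this]; exact h

theorem cj_cj (g g' : X) (U : Subgroup X) : cj g (cj g' U) = cj (g * g') U := by
  ext x
  rw [mem_cj, mem_cj, mem_cj]
  have : g'⁻¹ * (g⁻¹ * x * g) * g' = (g * g')⁻¹ * x * (g * g') := by group
  rw [this]

theorem cj_one (U : Subgroup X) : cj 1 U = U := by
  ext x
  rw [mem_cj]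
  simp

theorem mem_nm {g : X} {U : Subgroup X} : g ∈ nm U ↔ cj g U = U := by
  unfold nm
  rw [Subgroup.mem_normalizer_iff]
  constructor
  · intro h
    ext x
    rw [mem_cj, SetLike.mem_coe.symm]
    have h1 := h (g⁻¹ * x * g)
    have h2 : g * (g⁻¹ * x * g) * g⁻¹ = x := by group
    rw [h2] at h1
    exact h1
  · intro h x
    show x ∈ U ↔ g * x * g⁻¹ ∈ U
    constructor
    · intro hx
      have := conj_mem_cj (g := g) hx
      rwa [h] at this
    · intro hx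
      rw [← h, mem_cj] at hx
      have h2 : g⁻¹ * (g * x * g⁻¹) * g = x := by group
      rwa [h2] at hx

theorem mem_nm' {g : X} {U : Subgroup X} : g ∈ nm U ↔ ∀ x, x ∈ U ↔ g * x * g⁻¹ ∈ U := by
  unfold nm
  rw [Subgroup.mem_normalizer_iff]

theorem le_nm (U : Subgroup X) : U ≤ nm U := Subgroup.le_normalizer

theorem nm_cj (g : X) (U : Subgroup X) : nm (cj g U) = cj g (nm U) := by
  ext x
  rw [mem_cj, mem_nm, mem_nm, cj_cj]
  constructor
  · intro h
    have h1 : g⁻¹ * x * g = g⁻¹ * (x * g) := by group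
    rw [h1, ← cj_cj, h, cj_cj]
    rw [inv_mul_cancel, cj_one]
  · intro h
    have h1 : x * g = g * (g⁻¹ * x * g) := by group
    rw [h1, ← cj_cj, h]

theorem mem_nm_of_finite {g : X} {U : Subgroup X} [Finite U] (h : ∀ u ∈ U, g * u * g⁻¹ ∈ U) :
    g ∈ nm U := by
  rw [mem_nm]
  have h1 : cj g U ≤ U := by
    intro x hx
    rw [mem_cj] at hx
    have := h _ hx
    have h2 : g * (g⁻¹ * x * g) * g⁻¹ = x := by group
    rwa [h2] at this
  apply Subgroup.eq_of_le_of_card_ge h1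
  rw [cj, Subgroup.card_map_of_injective (MulAut.conj g).injective]

end

structure Par (p : ℕ) (K : Type) [Field K] {X : Type} [Group X] (C U V : Subgroup X)
    (z : K → X) (hc : Kˣ → X) : Prop where
  /-- `C` is central of order prime to `p` -/
  cen : C ≤ Subgroup.center X
  cp : ¬ p ∣ Nat.card C
  pU : IsPGroup p U
  z_add : ∀ s t, z (s + t) = z s * z t
  z_inj : ∀ t, z t = 1 → t = 0
  z_mem : ∀ t, z t ∈ U
  /-- the center of `U` is the image of `z` -/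
  z_comm : ∀ t, ∀ u ∈ U, z t * u = u * z t
  z_cen : ∀ u ∈ U, (∀ u' ∈ U, u * u' = u' * u) → ∃ t, u = z t
  comm : ∀ u ∈ U, ∀ u' ∈ U, ∃ t, u * u' * u⁻¹ * u'⁻¹ = z t
  hc_mul : ∀ c d, hc (c * d) = hc c * hc d
  hc_z : ∀ (c : Kˣ) (t : K), hc c * z t * (hc c)⁻¹ = z ((c : K) * (c : K) * t)
  hc_U : ∀ (c : Kˣ), ∀ u ∈ U, hc c * u * (hc c)⁻¹ ∈ U
  hc_comm : ∀ (c : Kˣ) (t : K), ∀ u ∈ U, ∀ u' ∈ U, u * u' * u⁻¹ * u'⁻¹ = z t →
    (hc c * u * (hc c)⁻¹) * u' * (hc c * u * (hc c)⁻¹)⁻¹ * u'⁻¹ = z ((c : K) * t)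
  /-- an element of `N(U)` which acts trivially on `U / Z` and on `Z` is in `U C` -/
  faith : ∀ r ∈ nm U, (∀ u ∈ U, ∃ t, r * u * r⁻¹ * u⁻¹ = z t) → (∀ t, r * z t * r⁻¹ = z t) →
    r ∈ U ⊔ C
  /-- `N(U)` acts on `Z` by scalars -/
  scal : ∀ r ∈ nm U, ∃ c : K, ∀ t, r * z t * r⁻¹ = z (c * t)
  /-- `hc c` is central modulo `U C` -/
  cent : ∀ r ∈ nm U, ∀ c, hc c * r * (hc c)⁻¹ * r⁻¹ ∈ U ⊔ C
  w : ∃ w, cj w U = V ∧ ∀ c, w * hc c * w⁻¹ = hc c⁻¹
  iU : ∀ u ∈ U, u ∈ nm V → u = 1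
  iV : ∀ v ∈ V, v ∈ nm U → v = 1
  opp : ∀ g, (∀ u ∈ U, u ∈ nm (cj g U) → u = 1) → ∃ u ∈ U, cj g U = cj u V
  uv : ∃ u ∈ U, ∃ v ∈ V, cj v U = cj u V
  gen : U ⊔ V = ⊤
  syl : ∃ Q : Sylow p X, U ≤ (Q : Subgroup X) ∧ (Q : Subgroup X) ≤ nm U
  nz : ∀ g, (∀ t, ∃ s, g * z t * g⁻¹ = z s) → g ∈ nm U
  /-- `U = O_p(N(U))` -/
  op : ∀ O : Subgroup X, IsPGroup p O → O ≤ nm U → nm U ≤ nm O → O ≤ U
  /-- an automorphism of order `p` of `U` which is trivial on `Z` and normalizes the action of `N(U)` is given on `U / Z` by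
  an element of `N(U)` which acts trivially on `Z` -/
  ts : ∀ φ : MulAut U, φ ^ p = 1 → (∀ t, φ ⟨z t, z_mem t⟩ = ⟨z t, z_mem t⟩) →
    (∀ r ∈ nm U, ∃ r' ∈ nm U, ∀ u v : U, (v : X) = r * u * r⁻¹ → (φ v : X) = r' * φ u * r'⁻¹) →
    ∃ s ∈ nm U, (∀ u : U, ∃ t, s * φ u * s⁻¹ * (u : X)⁻¹ = z t) ∧ ∀ t, s * z t * s⁻¹ = z t

end Pool.Agent.Helper54.OC
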