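import Pool.Agent.Helper54.OC.AaGen
import Pool.Agent.Helper54.OC.Tau

/-!
# OC-07: `AA k α` if `α` induces a nontrivial field automorphism

PROOF.  Let `c0` be a generator of `Kˣ`, `h = hc c0`, `τ c0 = c0^j`, so `h^n = hc (c0^n)` and `α h (h^j)⁻¹ ∈ U`.  `orderOf h` divides `|Kˣ|`, prime to `p`.  Let
`c = c0^(j-1) = τ c0 / c0`.  `c² ≠ 1`: otherwise `τ² c0 = c0` so `τ² = 1` on `K` (`c0` generates), and with `τ^p = 1`, `p` odd: `τ = 1`.  So also
`c0² ≠ 1`.  By `fixU`, `fixV` (OC/Tau.lean) neither `h` nor `h^(j-1) = hc c` has fixed points `≠ 1` in `U` and `V`.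
`exists_norm_aut`: `v ∈ U`, `h1 = v h v⁻¹`, `α h1 = h1^j`.  `V1 = cj v V`.
`α V1 = V1`: let `cj w U = V` (`Par.w`).  `α V = cj (α w) U`; if `u ∈ U`, `u ∈ nm (α V)` then `α⁻¹ u ∈ U ∩ nm V`, so `u = 1` (`iU`).  By `opp`
there is `u0 ∈ U` with `α V = cj u0 V`.  So `α V1 = cj u' V1` with `u' = α v * u0 * v⁻¹ ∈ U`.  `h1 ∈ nm V1`, so `h1^j = α h1 ∈ nm (α V1)`;
`zpowers (h1^j) = zpowers h1` (same order), so `h1 ∈ nm (cj u' V1)`, `u'⁻¹ h1 u' ∈ nm V1`, and `h1⁻¹ u'⁻¹ h1 u' ∈ nm V1 ∩ U`, which is trivial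
(conjugate `iU` by `v`).  So `u'` commutes with `h1`, `u' = 1`.
Now `aa_gen` for `U`, `V1`, `h1` (`U ⊔ V1 = ⊤`: conjugate `gen` by `v`).
-/

set_option autoImplicit false
open scoped Pointwise
open Pool.Agent.Helper54.PW Pool.Agent.Helper54.RT

namespace Pool.Agent.Helper54.OC

/-- the image of a subgroup under an automorphism -/
private def ocfAm {S : Type} [Group S] (α : MulAut S) (W : Subgroup S) : Subgroup S :=
  W.map (α : S ≃* S).toMonoidHom

private theorem ocf_mem_am {S : Type} [Group S] {α : MulAut S} {W : Subgroup S} {x : S} :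
    α x ∈ ocfAm α W ↔ x ∈ W := by
  unfold ocfAm
  constructor
  · rintro ⟨y, hy, hyx⟩
    have h1 : α y = α x := hyx
    rwa [← α.injective h1]
  · intro hx
    exact ⟨x, hx, rfl⟩

private theorem ocf_am_cj {S : Type} [Group S] (α : MulAut S) (g : S) (W : Subgroup S) :
    ocfAm α (cj g W) = cj (α g) (ocfAm α W) := by
  ext x
  obtain ⟨y, rfl⟩ := α.surjective x
  rw [ocf_mem_am, mem_cj, mem_cj, ← map_inv, ← map_mul, ← map_mul, ocf_mem_am]

private theorem ocf_mem_nm_am {S : Type} [Group S] {α : MulAut S} {W : Subgroup S} {x : S} :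
    α x ∈ nm (ocfAm α W) ↔ x ∈ nm W := by
  rw [mem_nm', mem_nm']
  constructor
  · intro h y
    have h1 := h (α y)
    rwa [← map_inv, ← map_mul, ← map_mul, ocf_mem_am, ocf_mem_am] at h1
  · intro h y
    obtain ⟨y, rfl⟩ := α.surjective y
    rw [← map_inv, ← map_mul, ← map_mul, ocf_mem_am, ocf_mem_am]
    exact h y

/-- the field part: a power of the generator with square different from one -/
private theorem ocf_sq_ne {p : ℕ} [Fact p.Prime] (hp3 : 3 ≤ p) {K : Type} [Field K]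
    {τ : K →+* K} (hτ : ∃ t, τ t ≠ t) (hτp : ∀ t, τ^[p] t = t) {c0 : Kˣ}
    (hgen : ∀ x : Kˣ, x ∈ Subgroup.zpowers c0) {j : ℤ}
    (hj : Units.map (τ : K →* K) c0 = c0 ^ j) :
    ((c0 ^ (j - 1) : Kˣ) : K) * ((c0 ^ (j - 1) : Kˣ) : K) ≠ 1 := by
  intro h
  obtain ⟨c, hc⟩ : ∃ c, c = c0 ^ (j - 1) := ⟨_, rfl⟩
  rw [← hc] at h
  have h1 : (c : K) = 1 ∨ (c : K) = -1 := mul_self_eq_one_iff.1 h
  have hτc : τ (c : K) = c := by
    rcases h1 with h1 | h1
    · rw [h1, map_one]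
    · rw [h1, map_neg, map_one]
  have hc0 : τ (c0 : K) = c0 * c := by
    have h2 : ((Units.map (τ : K →* K) c0 : Kˣ) : K) = ((c0 ^ j : Kˣ) : K) := by rw [hj]
    have h3 : c0 ^ j = c0 * c := by
      rw [hc, ← zpow_one_add]
      congr 1
      ring
    rw [h3] at h2
    rw [← Units.val_mul]
    exact h2
  have hττ : τ (τ (c0 : K)) = c0 := by
    rw [hc0, map_mul, hc0, hτc, mul_assoc, h, mul_one]
  have hττu : ∀ x : Kˣ, τ (τ (x : K)) = x := by
    intro x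
    obtain ⟨n, hn⟩ := Subgroup.mem_zpowers_iff.1 (hgen x)
    let φ : Kˣ →* Kˣ := (Units.map (τ : K →* K)).comp (Units.map (τ : K →* K))
    have h4 : φ c0 = c0 := Units.ext hττ
    have h5 : φ x = x := by rw [← hn, map_zpow, h4]
    exact congrArg Units.val h5
  have hττK : ∀ t : K, τ (τ t) = t := by
    intro t
    by_cases ht : t = 0
    · rw [ht, map_zero, map_zero]
    · exact hττu (Units.mk0 t ht)
  have heven : ∀ (m : ℕ) (t : K), τ^[2 * m] t = t := by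
    intro m
    induction m with
    | zero => intro t; rfl
    | succ m ih =>
      intro t
      have h6 : 2 * (m + 1) = 2 * m + 1 + 1 := by ring
      rw [h6, Function.iterate_succ_apply, Function.iterate_succ_apply, hττK, ih]
  obtain ⟨t, ht⟩ := hτ
  have hodd : Odd p := (Fact.out : p.Prime).odd_of_ne_two (by omega)
  obtain ⟨m, hm⟩ := hodd
  have h7 := hτp t
  have h8 : (τ : K → K)^[2 * m + 1] t = (τ : K → K)^[2 * m] (τ t) :=
    Function.iterate_succ_apply _ _ _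
  rw [hm] at h7
  rw [h8, heven] at h7
  exact ht h7

theorem aa_field {p : ℕ} [Fact p.Prime] (hp3 : 3 ≤ p) {k : Type} [Field k] [IsAlgClosed k]
    [CharP k p] {K : Type} [Field K] [Finite K] [CharP K p] {S : Type} [Group S] [Finite S]
    (hcen : Subgroup.center S = ⊥) {U V : Subgroup S} {z : K → S} {hc : Kˣ → S}
    (hP : Par p K ⊥ U V z hc) {α : MulAut S} (hα : orderOf α = p) (hαU : ∀ u ∈ U, α u ∈ U)
    {τ : K →+* K} (hτ : ∃ t, τ t ≠ t) (hτp : ∀ t, τ^[p] t = t)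
    (hτh : ∀ c : Kˣ, α (hc c) * (hc (Units.map (τ : K →* K) c))⁻¹ ∈ U) : AA k α := by
  have hpp : p.Prime := Fact.out
  haveI : Finite Kˣ := Finite.of_injective (fun u : Kˣ => (u : K)) Units.val_injective
  obtain ⟨c0, hgen⟩ := IsCyclic.exists_generator (α := Kˣ)
  obtain ⟨j, hj0⟩ := Subgroup.mem_zpowers_iff.1 (hgen (Units.map (τ : K →* K) c0))
  have hj : Units.map (τ : K →* K) c0 = c0 ^ j := hj0.symm
  have hsq := ocf_sq_ne hp3 hτ hτp hgen hj
  have hsq0 : (c0 : K) * (c0 : K) ≠ 1 := by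
    intro h
    apply hsq
    have h1 : c0 * c0 = 1 := Units.ext h
    rw [← Units.val_mul, ← mul_zpow, h1, one_zpow, Units.val_one]
  obtain ⟨h, hh⟩ : ∃ h, h = hc c0 := ⟨_, rfl⟩
  have hhz : ∀ n : ℤ, hc (c0 ^ n) = h ^ n := fun n => by rw [hP.hc_zpow, hh]
  have hord : ¬ p ∣ orderOf h := by
    intro hdvd
    have h1 : orderOf h ∣ Nat.card Kˣ := by
      rw [orderOf_dvd_iff_pow_eq_one]
      have h2 : c0 ^ ((Nat.card Kˣ : ℕ) : ℤ) = 1 := by
        rw [zpow_natCast]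
        exact pow_card_eq_one'
      have h3 := hhz ((Nat.card Kˣ : ℕ) : ℤ)
      rw [h2, zpow_natCast] at h3
      rw [← h3]
      have h4 := hhz 0
      rwa [zpow_zero, zpow_zero] at h4
    have h2 : p ∣ Nat.card Kˣ := hdvd.trans h1
    haveI := Fintype.ofFinite K
    obtain ⟨n, -, hn⟩ := FiniteField.card K p
    have h3 : Nat.card Kˣ = Nat.card K - 1 := by
      classical
      rw [Nat.card_eq_fintype_card, Nat.card_eq_fintype_card, Fintype.card_units]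
    rw [h3, Nat.card_eq_fintype_card, hn] at h2
    have h4 : p ∣ p ^ (n : ℕ) := dvd_pow_self p n.ne_zero
    have h5 : 1 ≤ p ^ (n : ℕ) := Nat.one_le_pow _ _ hpp.pos
    have h6 : p ∣ 1 := by
      have h7 := (Nat.dvd_sub h4 h2)
      have h8 : p ^ (n : ℕ) - (p ^ (n : ℕ) - 1) = 1 := by omega
      rwa [h8] at h7
    exact hpp.one_lt.ne' (Nat.dvd_one.1 h6)
  have hhU : ∀ u ∈ U, h * u * h⁻¹ ∈ U := by
    rw [hh]
    exact hP.hc_U c0
  have hfix : ∀ u ∈ U, h * u = u * h → u = 1 := by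
    intro u hu h1
    rw [hh] at h1
    exact hP.fixU hsq0 hu h1
  have hfix' : ∀ u ∈ U, h ^ (j - 1) * u = u * h ^ (j - 1) → u = 1 := by
    intro u hu h1
    rw [← hhz] at h1
    exact hP.fixU hsq hu h1
  have hfixV' : ∀ u ∈ V, h ^ (j - 1) * u = u * h ^ (j - 1) → u = 1 := by
    intro u hu h1
    rw [← hhz] at h1
    exact hP.fixV hsq hu h1
  have hαp : α ^ p = 1 := by rw [← hα]; exact pow_orderOf_eq_one α
  have hjU : α h * (h ^ j)⁻¹ ∈ U := by
    have h1 := hτh c0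
    rwa [hj, hhz, ← hh] at h1
  obtain ⟨v, hv, hvh⟩ := exists_norm_aut hcen hP.pU hhU hαU hord hαp hfix hjU hfix'
  obtain ⟨h1, hh1⟩ : ∃ h1, h1 = v * h * v⁻¹ := ⟨_, rfl⟩
  rw [← hh1] at hvh
  have hh1z : ∀ n : ℤ, h1 ^ n = v * h ^ n * v⁻¹ := fun n => by rw [hh1, conj_zpow]
  have hord1 : orderOf h1 = orderOf h := by
    rw [hh1]
    exact orderOf_injective (MulAut.conj v).toMonoidHom (MulAut.conj v).injective h
  have hvn : v ∈ nm U := le_nm U hv
  have hhn : h ∈ nm U := by rw [hh]; exact hP.hc_nm c0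
  have hh1n : h1 ∈ nm U := by
    rw [hh1]
    exact Subgroup.mul_mem _ (Subgroup.mul_mem _ hvn hhn) (Subgroup.inv_mem _ hvn)
  have hvU : cj v U = U := mem_nm.1 hvn
  obtain ⟨w, hw, hw'⟩ := hP.w
  -- α V
  have hαUeq : ocfAm α U = U := by
    have h2 : ocfAm α U ≤ U := by
      rintro _ ⟨u, hu, rfl⟩
      exact hαU u hu
    refine Subgroup.eq_of_le_of_card_ge h2 ?_
    unfold ocfAm
    rw [Subgroup.card_map_of_injective (MulEquiv.injective α)]
  have hαV : ocfAm α V = cj (α w) U := by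
    rw [← hw, ocf_am_cj, hαUeq]
  obtain ⟨u0, hu0, hu0V⟩ := hP.opp (α w) (by
    intro u hu hun
    rw [← hαV] at hun
    obtain ⟨y, rfl⟩ := α.surjective u
    rw [ocf_mem_nm_am] at hun
    have hyU : y ∈ U := by
      rw [← hαUeq, ocf_mem_am] at hu
      exact hu
    rw [hP.iU y hyU hun, map_one])
  have hαV0 : ocfAm α V = cj u0 V := by rw [hαV, hu0V]
  obtain ⟨V1, hV1⟩ : ∃ V1, V1 = cj v V := ⟨_, rfl⟩
  obtain ⟨u', hu'⟩ : ∃ u', u' = α v * u0 * v⁻¹ := ⟨_, rfl⟩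
  have hu'U : u' ∈ U := by
    rw [hu']
    exact U.mul_mem (U.mul_mem (hαU v hv) hu0) (U.inv_mem hv)
  have hαV1 : ocfAm α V1 = cj u' V1 := by
    rw [hV1, ocf_am_cj, hαV0, cj_cj, cj_cj, hu', inv_mul_cancel_right]
  have hh1V1 : h1 ∈ nm V1 := by
    rw [hV1, nm_cj, mem_cj, hh1]
    have h2 : v⁻¹ * (v * h * v⁻¹) * v = h := by group
    rw [h2, hh]
    exact hP.hc_nmV c0
  have hiU1 : ∀ x ∈ U, x ∈ nm V1 → x = 1 := by
    intro x hx hxn
    rw [hV1, nm_cj, mem_cj] at hxn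
    have h2 : v⁻¹ * x * v ∈ U := U.mul_mem (U.mul_mem (U.inv_mem hv) hx) hv
    have h3 := hP.iU _ h2 hxn
    have h4 : x = v * (v⁻¹ * x * v) * v⁻¹ := by group
    rw [h4, h3]
    group
  have hh1' : h1 ∈ nm (cj u' V1) := by
    have h2 : h1 ^ j ∈ nm (cj u' V1) := by
      rw [← hvh, ← hαV1, ocf_mem_nm_am]
      exact hh1V1
    have h3 : Subgroup.zpowers (h1 ^ j) = Subgroup.zpowers h1 := by
      refine Subgroup.eq_of_le_of_card_ge ?_ ?_
      · rw [Subgroup.zpowers_le]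
        exact Subgroup.zpow_mem _ (Subgroup.mem_zpowers _) _
      · rw [Nat.card_zpowers, Nat.card_zpowers, ← hvh]
        exact le_of_eq (orderOf_injective (α : S ≃* S).toMonoidHom (MulEquiv.injective α) h1).symm
    have h4 : h1 ∈ Subgroup.zpowers (h1 ^ j) := by
      rw [h3]
      exact Subgroup.mem_zpowers _
    exact (Subgroup.zpowers_le.2 h2) h4
  have hu'1 : u' = 1 := by
    rw [nm_cj, mem_cj] at hh1'
    have h2 : h1⁻¹ * (u'⁻¹ * h1 * u') ∈ nm V1 :=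
      Subgroup.mul_mem _ (Subgroup.inv_mem _ hh1V1) hh1'
    have h3 : h1⁻¹ * (u'⁻¹ * h1 * u') ∈ U := by
      have h4 : h1⁻¹ * u'⁻¹ * h1⁻¹⁻¹ ∈ U :=
        (mem_nm'.1 (Subgroup.inv_mem _ hh1n) _).1 (U.inv_mem hu'U)
      have h5 : h1⁻¹ * (u'⁻¹ * h1 * u') = (h1⁻¹ * u'⁻¹ * h1⁻¹⁻¹) * u' := by group
      rw [h5]
      exact U.mul_mem h4 hu'U
    have h4 := hiU1 _ h3 h2
    have h5 : u'⁻¹ * h1 * u' = h1 := by
      rw [inv_mul_eq_one] at h4
      exact h4.symm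
    have h6 : h1 * u' = u' * h1 := by
      calc h1 * u' = u' * (u'⁻¹ * h1 * u') := by group
        _ = u' * h1 := by rw [h5]
    have h7 : h * (v⁻¹ * u' * v) = (v⁻¹ * u' * v) * h := by
      calc h * (v⁻¹ * u' * v) = v⁻¹ * ((v * h * v⁻¹) * u') * v := by group
        _ = v⁻¹ * (u' * (v * h * v⁻¹)) * v := by rw [← hh1, h6]
        _ = (v⁻¹ * u' * v) * h := by group
    have h8 := hfix _ (U.mul_mem (U.mul_mem (U.inv_mem hv) hu'U) hv) h7
    have h9 : u' = v * (v⁻¹ * u' * v) * v⁻¹ := by group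
    rw [h9, h8]
    group
  rw [hu'1, cj_one] at hαV1
  refine aa_gen (U := U) (V := V1) (h := h1) (j := j) hcen hP.pU ?_ ?_ hα hαU ?_ ?_ hvh ?_ ?_ ?_ ?_
  · rw [hV1, ← hw, cj_cj]
    unfold cj
    exact hP.pU.map _
  · have h2 : cj v (U ⊔ V) = cj v U ⊔ cj v V := by
      unfold cj
      rw [Subgroup.map_sup]
    rw [hP.gen, hvU] at h2
    rw [hV1, ← h2]
    unfold cj
    exact Subgroup.map_top_of_surjective _ (MulAut.conj v).surjective
  · intro x hx
    have h2 : α x ∈ ocfAm α V1 := ocf_mem_am.2 hx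
    rwa [hαV1] at h2
  · rw [hord1]
    exact hord
  · intro u hu
    exact (mem_nm'.1 hh1n u).1 hu
  · intro x hx
    exact (mem_nm'.1 hh1V1 x).1 hx
  · intro u hu h2
    rw [hh1z] at h2
    have h3 : h ^ (j - 1) * (v⁻¹ * u * v) = (v⁻¹ * u * v) * h ^ (j - 1) := by
      calc h ^ (j - 1) * (v⁻¹ * u * v) = v⁻¹ * ((v * h ^ (j - 1) * v⁻¹) * u) * v := by group
        _ = v⁻¹ * (u * (v * h ^ (j - 1) * v⁻¹)) * v := by rw [h2]
        _ = (v⁻¹ * u * v) * h ^ (j - 1) := by group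
    have h4 := hfix' _ (U.mul_mem (U.mul_mem (U.inv_mem hv) hu) hv) h3
    have h5 : u = v * (v⁻¹ * u * v) * v⁻¹ := by group
    rw [h5, h4]
    group
  · intro x hx h2
    rw [hV1, mem_cj] at hx
    rw [hh1z] at h2
    have h3 : h ^ (j - 1) * (v⁻¹ * x * v) = (v⁻¹ * x * v) * h ^ (j - 1) := by
      calc h ^ (j - 1) * (v⁻¹ * x * v) = v⁻¹ * ((v * h ^ (j - 1) * v⁻¹) * x) * v := by group
        _ = v⁻¹ * (x * (v * h ^ (j - 1) * v⁻¹)) * v := by rw [h2]
        _ = (v⁻¹ * x * v) * h ^ (j - 1) := by group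
    have h4 := hfixV' _ hx h3
    have h5 : x = v * (v⁻¹ * x * v) * v⁻¹ := by group
    rw [h5, h4]
    group

end Pool.Agent.Helper54.OC
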