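import Pool.Agent.Helper54.OC.Count

/-!
# OC-03: vanishing of `H^1` for a Frobenius action

`F` abelian of order prime to `p`, `a` of order `p` (or `1`) acts without fixed points on `F`, the `p`-group `U` is normalized by `F` and
`a`, and `F` has no fixed points in `U`.  Then all elements of order `p` of the coset `U a` are conjugate to `a` under `U`.

PROOF.  If `a = 1` then (`hfree`) `F = 1`, so `U = 1` by `hfix`.  Let `a ≠ 1`, so `orderOf a = p`.

(1) `h1_abelian`, `U = W` abelian.  Write `W` additively (or work in `Additive W`, `Module.End ℤ`), with operators `a` and `f ∈ F` (conjugation).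
  Let `N = ∑_{i<p} a^i`.  For `0 < i < p` the map `f ↦ f (a^i f⁻¹ a^(-i))` of `F` is injective (`a^i` generates `⟨a⟩`, so it has no fixed points `≠ 1` in
  `F`), so bijective, and `∑_f f a^i f⁻¹ = (∑_f f) a^i = 0`, since `∑_f f w` is fixed by `F`, so zero.  So
  (*) `∑_{f ∈ F} f N f⁻¹ = |F|`.
  `⟨a⟩` acts freely on `F ∖ {1}` by conjugation; let `R` be a set of representatives of the orbits (`Quotient.out`), and
  `c = ∑_{f ∈ R} f N f⁻¹`, `c_i = a^i c a^(-i)`.  As `a^i N a^(-i) = N`, `∑_{i<p} c_i = ∑_{f ≠ 1} f N f⁻¹ = |F| - N`, and `a c_i = c_{i+1} a`,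
  indices modulo `p`.  Let `w ∈ W`, `(w a)^p = 1`, i.e. `N w = 0`; `s_i = ∑_{l<i} a^l w`, so `s_0 = 0 = s_p`, `a s_i = s_{i+1} - w`.
  `v' = - ∑_{i<p} c_i s_i`; `a v' = - ∑ c_{i+1} (s_{i+1} - w) = v' + (|F| - N) w = v' + |F| w`.  `|F|` is invertible on `W`: `w = a v'' - v''`, so
  `w a = v a v⁻¹` for `v = - v''`.
(2) General case by strong induction on `|U|` (for all groups `A`): let `U ≠ 1`, `W = Z(U)` (`≠ 1`), `A' = ` normalizer of `W` in `A` (contains
  `U, F, a`), and work in `A' ⧸ W`.  `F W / W` has no fixed points `≠ 1` in `U / W`: let `u ∈ U`, `f u f⁻¹ = u w_f` with `w_f ∈ W` for all `f ∈ F`; then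
  `w_{gf} = w_g (g w_f g⁻¹)`.  `y = ∏_f w_f`: `g y g⁻¹ = ∏_f w_g⁻¹ w_{gf} = w_g^(-|F|) y`.  With `|F| m ≡ 1` modulo `|W|`, `y' = y^m`:
  `g y' g⁻¹ = w_g⁻¹ y'`, so `g (u y') g⁻¹ = u y'` for all `g ∈ F`, so `u y' = 1`, `u ∈ W`.  `F ∩ W = 1` (orders), so `F → F W / W` is injective, and
  `a` has no fixed points there: `a f a⁻¹ f⁻¹ ∈ W ∩ F = 1`.  By induction there is `v ∈ U` with `u a ∈ v a v⁻¹ W`, i.e.
  `v⁻¹ u a v = w a` with `w ∈ W` (`W` is normal in `A'`), and `(w a)^p = 1`: apply (1).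
-/

set_option autoImplicit false

namespace Pool.Agent.Helper54.OC

open Finset

section Abs

/-- sums over a finite set with free cyclic orbits -/
private theorem orbit_sum {T M : Type} [DecidableEq T] [AddCommGroup M] (B : AddSubgroup M) {p : ℕ}
    (hp : 0 < p) (σ : T → T) (h : T → M) (X : Finset T) :
    (∀ x ∈ X, σ x ∈ X) → (∀ x ∈ X, σ^[p] x = x) →
    (∀ x ∈ X, ∀ i, 0 < i → i < p → σ^[i] x ≠ x) →
    (∀ x ∈ X, ∑ i ∈ range p, h (σ^[i] x) ∈ B) → ∑ x ∈ X, h x ∈ B := by
  induction X using Finset.strongInduction with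
  | H X ih =>
    intro hσ hper hfree hB
    rcases X.eq_empty_or_nonempty with h0 | ⟨x, hx⟩
    · rw [h0, sum_empty]
      exact B.zero_mem
    · have hit : ∀ i, σ^[i] x ∈ X := by
        intro i
        induction i with
        | zero => exact hx
        | succ n ihn =>
          rw [Function.iterate_succ_apply']
          exact hσ _ ihn
      set O := (range p).image fun i => σ^[i] x with hO
      have hmem : ∀ i, σ^[i] x ∈ O := by
        intro i
        rw [← Function.IsPeriodicPt.iterate_mod_apply (show Function.IsPeriodicPt σ p x from hper x hx)]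
        exact mem_image_of_mem _ (mem_range.2 (Nat.mod_lt _ hp))
      have hOX : O ⊆ X := by
        intro y hy
        obtain ⟨i, -, rfl⟩ := mem_image.1 hy
        exact hit i
      have hinj : Set.InjOn (fun i => σ^[i] x) (range p : Finset ℕ) := by
        have key : ∀ i j, i < j → j < p → σ^[i] x ≠ σ^[j] x := by
          intro i j hij hjp h1
          have h2 := congrArg (σ^[p - i]) h1
          rw [← Function.iterate_add_apply, ← Function.iterate_add_apply,
            show p - i + i = p by omega, show p - i + j = (j - i) + p by omega,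
            Function.iterate_add_apply, hper x hx] at h2
          exact hfree x hx (j - i) (by omega) (by omega) h2.symm
        intro i hi j hj h1
        rw [coe_range, Set.mem_Iio] at hi hj
        rcases lt_trichotomy i j with h2 | h2 | h2
        · exact absurd h1 (key i j h2 hj)
        · exact h2
        · exact absurd h1.symm (key j i h2 hi)
      have hsumO : ∑ y ∈ O, h y = ∑ i ∈ range p, h (σ^[i] x) := by
        rw [hO, sum_image hinj]
      have hlt : X \ O ⊂ X := by
        refine (ssubset_iff_of_subset sdiff_subset).2 ⟨x, hx, fun h1 => ?_⟩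
        exact (mem_sdiff.1 h1).2 (hmem 0)
      have h3 := ih (X \ O) hlt ?_ (fun y hy => hper y (mem_sdiff.1 hy).1)
        (fun y hy => hfree y (mem_sdiff.1 hy).1) (fun y hy => hB y (mem_sdiff.1 hy).1)
      · rw [← sum_sdiff hOX, hsumO]
        exact B.add_mem h3 (hB x hx)
      · intro y hy
        rw [mem_sdiff] at hy ⊢
        refine ⟨hσ y hy.1, fun h4 => hy.2 ?_⟩
        obtain ⟨i, -, hi⟩ := mem_image.1 h4
        have h5 : σ^[p - 1] (σ y) = y := by
          rw [← Function.iterate_succ_apply, show (p - 1).succ = p by omega]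
          exact hper y hy.1
        rw [← h5, ← hi, ← Function.iterate_add_apply]
        exact hmem _

variable {K M : Type} [Group K] [AddCommGroup M] [DistribMulAction K M]

/-- the differences `a • v - v` -/
private def Bd (a : K) : AddSubgroup M where
  carrier := {x | ∃ v : M, x = a • v - v}
  zero_mem' := ⟨0, by simp⟩
  add_mem' := by
    rintro _ _ ⟨u, rfl⟩ ⟨v, rfl⟩
    exact ⟨u + v, by rw [smul_add]; abel⟩
  neg_mem' := by
    rintro _ ⟨u, rfl⟩
    exact ⟨-u, by rw [smul_neg]; abel⟩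

private theorem bd_orbit {a : K} {p : ℕ} (ha : a ^ p = 1) (θ : M →+ M) {w : M}
    (hw : ∑ i ∈ range p, a ^ i • w = 0) :
    ∑ i ∈ range p, a ^ i • θ ((a ^ i)⁻¹ • w) ∈ Bd (M := M) a := by
  set s : ℕ → M := fun i => ∑ l ∈ range i, a ^ l • w with hs
  have hs0 : s 0 = 0 := by rw [hs]; exact sum_range_zero _
  have hsp : s p = 0 := hw
  have has : ∀ i, a • s i = s (i + 1) - w := by
    intro i
    simp only [hs]
    rw [sum_range_succ', smul_sum, pow_zero, one_smul, add_sub_cancel_right]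
    exact sum_congr rfl fun l _ => by rw [smul_smul, ← pow_succ']
  set G : ℕ → M := fun i => a ^ i • θ ((a ^ i)⁻¹ • s i) with hG
  set E : ℕ → M := fun i => a ^ i • θ ((a ^ i)⁻¹ • w) with hE
  have hG0 : G 0 = 0 := by simp only [hG, hs0, smul_zero, map_zero]
  have hGp : G p = 0 := by simp only [hG, hsp, smul_zero, map_zero]
  have hEp : E p = E 0 := by simp only [hE, ha, pow_zero]
  have hstep : ∀ i, a • G i = G (i + 1) - E (i + 1) := by
    intro i
    simp only [hG, hE]
    have h1 : (a ^ i)⁻¹ • s i = (a ^ (i + 1))⁻¹ • s (i + 1) - (a ^ (i + 1))⁻¹ • w := by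
      rw [← smul_sub, ← has, smul_smul, pow_succ', mul_inv_rev, mul_assoc, inv_mul_cancel, mul_one]
    rw [h1, map_sub, smul_sub, smul_sub, smul_smul, smul_smul, ← pow_succ']
  refine ⟨-∑ i ∈ range p, G i, ?_⟩
  rw [smul_neg, smul_sum, sum_congr rfl fun i _ => hstep i, sum_sub_distrib]
  have h1 : ∑ i ∈ range p, G (i + 1) = ∑ i ∈ range p, G i := by
    have h2 := sum_range_succ' G p
    have h3 := sum_range_succ G p
    rw [h2, hG0, hGp] at h3
    simpa using h3
  have h2 : ∑ i ∈ range p, E (i + 1) = ∑ i ∈ range p, E i := by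
    have h2 := sum_range_succ' E p
    have h3 := sum_range_succ E p
    rw [h2, hEp] at h3
    simpa using h3
  rw [h1, h2]
  abel

/-- the abstract form of the first lemma -/
private theorem abs_bd [Finite K] {p : ℕ} [hp : Fact p.Prime] {F : Subgroup K} {a : K}
    (ha : a ^ p = 1) (ha1 : a ≠ 1) (haF : ∀ f ∈ F, a * f * a⁻¹ ∈ F)
    (hfree : ∀ f ∈ F, a * f = f * a → f = 1)
    (hfix : ∀ u : M, (∀ f ∈ F, f • u = u) → u = 0) {w : M}
    (hw : ∑ i ∈ range p, a ^ i • w = 0) : Nat.card F • w ∈ Bd (M := M) a := by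
  classical
  have := Fintype.ofFinite K
  set S : Finset K := univ.filter (· ∈ F) with hS
  have hSm : ∀ x, x ∈ S ↔ x ∈ F := fun x => by rw [hS, mem_filter]; simp
  have hcard : S.card = Nat.card F := by
    rw [Nat.card_eq_fintype_card, hS, Fintype.card_subtype]
  have hpow : ∀ (i : ℕ) (f : K), (fun x => a * x * a⁻¹)^[i] f = a ^ i * f * (a ^ i)⁻¹ := by
    intro i f
    induction i with
    | zero => simp
    | succ n ih =>
      rw [Function.iterate_succ_apply', ih, pow_succ', mul_inv_rev]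
      simp only [mul_assoc]
  have haFi : ∀ i : ℕ, ∀ f ∈ F, a ^ i * f * (a ^ i)⁻¹ ∈ F := by
    intro i f hf
    induction i with
    | zero => simpa using hf
    | succ n ih =>
      have h1 := haF _ ih
      rw [pow_succ', mul_inv_rev]
      simpa only [mul_assoc] using h1
  have hord : orderOf a = p := orderOf_eq_prime ha ha1
  have hfreei : ∀ i : ℕ, 0 < i → i < p → ∀ f ∈ F, a ^ i * f = f * a ^ i → f = 1 := by
    intro i hi0 hip f hf h1
    have h2 : a ∈ Subgroup.zpowers (a ^ i) := by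
      have h3 : i.Coprime (orderOf a) := by
        rw [hord]
        exact (Nat.coprime_of_lt_prime (by omega) hip hp.out).symm
      obtain ⟨m, hm⟩ := exists_pow_eq_self_of_coprime h3
      exact ⟨(m : ℤ), by simpa using hm⟩
    obtain ⟨m, hm⟩ := h2
    have h3 : Commute (a ^ i) f := h1
    have h4 : Commute a f := by
      have h5 := h3.zpow_left m
      change (a ^ i) ^ m = a at hm
      rwa [hm] at h5
    exact hfree f hf h4
  set N : M →+ M := ∑ i ∈ range p, DistribSMul.toAddMonoidHom M (a ^ i) with hN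
  have hNa : ∀ m, N m = ∑ i ∈ range p, a ^ i • m := by
    intro m
    rw [hN, AddMonoidHom.finsetSum_apply]
    rfl
  have hNc : ∀ (i : ℕ) (m : M), N (a ^ i • m) = a ^ i • N m := by
    intro i m
    rw [hNa, hNa, smul_sum]
    exact sum_congr rfl fun j _ => by rw [smul_smul, smul_smul, ← pow_add, ← pow_add, add_comm]
  set h : K → M := fun f => f • N (f⁻¹ • w) with hh
  -- the sum over all of `F`
  have htot : ∑ f ∈ S, h f = Nat.card F • w := by
    have h1 : ∀ f, h f = ∑ j ∈ range p, (f * a ^ j * f⁻¹) • w := by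
      intro f
      simp only [hh, hNa, smul_sum, smul_smul, mul_assoc]
    simp only [h1]
    rw [sum_comm, ← Finset.sum_erase_add _ _ (mem_range.2 hp.out.pos : 0 ∈ range p)]
    have h2 : ∑ f ∈ S, (f * a ^ 0 * f⁻¹) • w = Nat.card F • w := by
      simp only [pow_zero, mul_one, mul_inv_cancel, one_smul]
      rw [sum_const, hcard]
    rw [h2, sum_eq_zero, zero_add]
    intro j hj
    rw [mem_erase, mem_range] at hj
    have h3 : ∑ f ∈ S, (f * a ^ j * f⁻¹) • w = ∑ g ∈ S, g • (a ^ j • w) := by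
      have hmaps : ∀ f ∈ S, f * (a ^ j * f⁻¹ * (a ^ j)⁻¹) ∈ S := by
        intro f hf
        rw [hSm] at hf ⊢
        exact F.mul_mem hf (haFi j _ (F.inv_mem hf))
      have hinj : Set.InjOn (fun f => f * (a ^ j * f⁻¹ * (a ^ j)⁻¹)) (S : Set K) := by
        intro f hf g hg h4
        have h5 : f * a ^ j * f⁻¹ = g * a ^ j * g⁻¹ := by
          have h6 : f * (a ^ j * f⁻¹ * (a ^ j)⁻¹) * a ^ j = g * (a ^ j * g⁻¹ * (a ^ j)⁻¹) * a ^ j :=
            congrArg (· * a ^ j) h4
          simpa only [mul_assoc, inv_mul_cancel, mul_one] using h6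
        have h7 : a ^ j * (g⁻¹ * f) = g⁻¹ * f * a ^ j := by
          have h8 : g⁻¹ * (f * a ^ j * f⁻¹) * f = g⁻¹ * (g * a ^ j * g⁻¹) * f := by rw [h5]
          have h9 : g⁻¹ * f * a ^ j = a ^ j * (g⁻¹ * f) := by
            simpa only [mul_assoc, inv_mul_cancel, mul_one, inv_mul_cancel_left] using h8
          exact h9.symm
        have h10 := hfreei j (by omega) hj.2 (g⁻¹ * f)
          (F.mul_mem (F.inv_mem ((hSm g).1 hg)) ((hSm f).1 hf)) h7
        exact (inv_mul_eq_one.1 h10).symm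
      have himg : S.image (fun f => f * (a ^ j * f⁻¹ * (a ^ j)⁻¹)) = S := by
        apply Finset.eq_of_subset_of_card_le
        · intro y hy
          obtain ⟨f, hf, rfl⟩ := mem_image.1 hy
          exact hmaps f hf
        · rw [card_image_of_injOn hinj]
      conv_rhs => rw [← himg]
      rw [sum_image hinj]
      refine sum_congr rfl fun f _ => ?_
      rw [smul_smul]
      congr 1
      group
    rw [h3]
    apply hfix
    intro f hf
    rw [smul_sum]
    refine Finset.sum_nbij' (fun g => f * g) (fun g => f⁻¹ * g) ?_ ?_ ?_ ?_ ?_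
    · intro g hg
      rw [hSm] at hg ⊢
      exact F.mul_mem hf hg
    · intro g hg
      rw [hSm] at hg ⊢
      exact F.mul_mem (F.inv_mem hf) hg
    · intro g _
      simp
    · intro g _
      simp
    · intro g _
      rw [smul_smul]
  have h1S : (1 : K) ∈ S := (hSm 1).2 F.one_mem
  have hh1 : h 1 = 0 := by
    simp only [hh, inv_one, one_smul, hNa]
    exact hw
  rw [← htot, ← Finset.sum_erase_add _ _ h1S, hh1, add_zero]
  apply orbit_sum (Bd a) hp.out.pos (fun x => a * x * a⁻¹) h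
  · intro x hx
    rw [mem_erase, hSm] at hx ⊢
    refine ⟨fun h1 => hx.1 ?_, haF x hx.2⟩
    have h2 : a * x = a := by
      have h3 := congrArg (· * a) h1
      simpa using h3
    exact mul_eq_left.1 h2
  · intro x _
    rw [hpow, ha]
    simp
  · intro x hx i hi0 hip h1
    rw [mem_erase, hSm] at hx
    rw [hpow] at h1
    refine hx.1 (hfreei i hi0 hip x hx.2 ?_)
    exact mul_inv_eq_iff_eq_mul.1 h1
  · intro x _
    have h1 : ∀ i, h ((fun x => a * x * a⁻¹)^[i] x) =
        a ^ i • (x • N (x⁻¹ • ((a ^ i)⁻¹ • w))) := by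
      intro i
      rw [hpow]
      simp only [hh]
      rw [mul_inv_rev, mul_inv_rev, inv_inv, mul_smul, mul_smul, mul_smul (a ^ i), hNc,
        smul_smul ((a ^ i)⁻¹) (a ^ i), inv_mul_cancel, one_smul, mul_smul x⁻¹]
    simp only [h1]
    exact bd_orbit ha (((DistribSMul.toAddMonoidHom M x).comp N).comp
      (DistribSMul.toAddMonoidHom M x⁻¹)) hw

end Abs

section Conc

variable {A : Type} [Group A]

private abbrev cgW {W : Subgroup A} (hWc : ∀ x ∈ W, ∀ y ∈ W, x * y = y * x) : CommGroup W :=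
  { (inferInstance : Group W) with mul_comm := fun x y => Subtype.ext (hWc x x.2 y y.2) }

theorem h1_abelian {A : Type} [Group A] [Finite A] {p : ℕ} [Fact p.Prime] {W F : Subgroup A}
    (hW : IsPGroup p W) (hWc : ∀ x ∈ W, ∀ y ∈ W, x * y = y * x)
    (hF : ¬ p ∣ Nat.card F) (hFc : ∀ x ∈ F, ∀ y ∈ F, x * y = y * x) {a : A} (ha : a ^ p = 1)
    (haW : ∀ u ∈ W, a * u * a⁻¹ ∈ W) (haF : ∀ f ∈ F, a * f * a⁻¹ ∈ F)
    (hFW : ∀ f ∈ F, ∀ u ∈ W, f * u * f⁻¹ ∈ W) (hfree : ∀ f ∈ F, a * f = f * a → f = 1)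
    (hfix : ∀ u ∈ W, (∀ f ∈ F, f * u = u * f) → u = 1) {w : A} (hw : w ∈ W)
    (hwp : (w * a) ^ p = 1) : ∃ v ∈ W, w * a = v * a * v⁻¹ := by
  by_cases ha1 : a = 1
  · subst ha1
    have hF1 : ∀ f ∈ F, f = 1 := fun f hf => hfree f hf (by simp)
    have hw1 : w = 1 := hfix w hw fun f hf => by rw [hF1 f hf]; simp
    exact ⟨1, W.one_mem, by rw [hw1]; simp⟩
  let _ : CommGroup W := cgW hWc
  set K : Subgroup A := Subgroup.normalizer (W : Set A) with hK
  have haK : a ∈ K := Subgroup.mem_normalizer_fintype fun n hn => haW n hn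
  have hFK : F ≤ K := fun f hf => Subgroup.mem_normalizer_fintype fun n hn => hFW f hf n hn
  have hKW : ∀ x : K, ∀ m : W, (x : A) * m * (x : A)⁻¹ ∈ W := fun x m =>
    ((Subgroup.mem_normalizer_iff.1 x.2) _).1 m.2
  let act : DistribMulAction K (Additive W) :=
    { smul := fun x m => Additive.ofMul ⟨(x : A) * (m.toMul : A) * (x : A)⁻¹, hKW x m.toMul⟩
      one_smul := fun m => by
        apply Additive.toMul.injective
        apply Subtype.ext
        change ((1 : K) : A) * (m.toMul : A) * ((1 : K) : A)⁻¹ = (m.toMul : A)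
        simp
      mul_smul := fun x y m => by
        apply Additive.toMul.injective
        apply Subtype.ext
        change ((x * y : K) : A) * (m.toMul : A) * ((x * y : K) : A)⁻¹ =
          (x : A) * ((y : A) * (m.toMul : A) * (y : A)⁻¹) * (x : A)⁻¹
        rw [Subgroup.coe_mul]
        group
      smul_zero := fun x => by
        apply Additive.toMul.injective
        apply Subtype.ext
        change (x : A) * (1 : A) * (x : A)⁻¹ = 1
        simp
      smul_add := fun x m n => by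
        apply Additive.toMul.injective
        apply Subtype.ext
        change (x : A) * ((m.toMul : A) * (n.toMul : A)) * (x : A)⁻¹ =
          ((x : A) * (m.toMul : A) * (x : A)⁻¹) * ((x : A) * (n.toMul : A) * (x : A)⁻¹)
        group }
  have hsmul : ∀ (x : K) (m : Additive W),
      (((x • m).toMul : W) : A) = (x : A) * (m.toMul : A) * (x : A)⁻¹ := fun _ _ => rfl
  set a' : K := ⟨a, haK⟩ with ha'
  set w' : Additive W := Additive.ofMul ⟨w, hw⟩ with hw'
  have hsum : ∀ n, (((∑ i ∈ range n, a' ^ i • w').toMul : W) : A) * a ^ n = (w * a) ^ n := by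
    intro n
    induction n with
    | zero => simp
    | succ n ih =>
      rw [sum_range_succ, toMul_add, Subgroup.coe_mul, hsmul, pow_succ (w * a), ← ih,
        SubmonoidClass.coe_pow]
      change _ * (a ^ n * w * (a ^ n)⁻¹) * a ^ (n + 1) = _
      rw [pow_succ]
      group
  have hsp : ∑ i ∈ range p, a' ^ i • w' = 0 := by
    have h1 := hsum p
    rw [ha, mul_one, hwp] at h1
    apply Additive.toMul.injective
    exact Subtype.ext h1
  have hcardF : Nat.card (F.subgroupOf K) = Nat.card F :=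
    Nat.card_congr (Subgroup.subgroupOfEquivOfLe hFK).toEquiv
  have h1 := abs_bd (K := K) (M := Additive W) (p := p) (F := F.subgroupOf K) (a := a')
    (Subtype.ext ha) (fun h => ha1 (congrArg Subtype.val h))
    (fun f hf => Subgroup.mem_subgroupOf.2 (haF f (Subgroup.mem_subgroupOf.1 hf)))
    (fun f hf h => Subtype.ext (hfree f (Subgroup.mem_subgroupOf.1 hf) (congrArg Subtype.val h)))
    (fun u hu => by
      apply Additive.toMul.injective
      apply Subtype.ext
      refine hfix _ (u.toMul).2 fun f hf => ?_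
      have h2 := hu ⟨f, hFK hf⟩ (Subgroup.mem_subgroupOf.2 hf)
      have h3 := congrArg (fun x : Additive W => ((x.toMul : W) : A)) h2
      have h4 : f * (u.toMul : A) * f⁻¹ = (u.toMul : A) := h3
      exact mul_inv_eq_iff_eq_mul.1 h4) hsp
  rw [hcardF] at h1
  have hcop : (Nat.card F).Coprime (addOrderOf w') := by
    obtain ⟨k, hk⟩ := hW ⟨w, hw⟩
    have h2 : addOrderOf w' ∣ p ^ k := by
      rw [hw', addOrderOf_ofMul_eq_orderOf]
      exact orderOf_dvd_of_pow_eq_one hk
    refine Nat.Coprime.coprime_dvd_right h2 ?_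
    exact (Nat.Coprime.pow_left k ((Nat.Prime.coprime_iff_not_dvd Fact.out).2 hF)).symm
  obtain ⟨m, hm⟩ := exists_nsmul_eq_self_of_coprime hcop
  have h2 : w' ∈ Bd (M := Additive W) a' := by
    rw [← hm]
    exact AddSubgroup.nsmul_mem _ h1 m
  obtain ⟨v, hv⟩ := h2
  have h3 := congrArg (fun x : Additive W => ((x.toMul : W) : A)) hv
  have h4 : w = a * (v.toMul : A) * a⁻¹ * (v.toMul : A)⁻¹ := by
    have h5 : ((a' • v - v).toMul : W) = (a' • v).toMul * (v.toMul)⁻¹ := by
      rw [toMul_sub, div_eq_mul_inv]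
    have h6 : (((a' • v - v).toMul : W) : A) =
        a * (v.toMul : A) * a⁻¹ * (v.toMul : A)⁻¹ := by
      rw [h5, Subgroup.coe_mul, hsmul]
      rfl
    exact h3.trans h6
  refine ⟨(v.toMul : A)⁻¹, W.inv_mem v.toMul.2, ?_⟩
  have h7 := hWc _ (haW _ v.toMul.2) _ (W.inv_mem v.toMul.2)
  rw [h4, h7, inv_inv]
  group

/-- a `p`-group on which `F` acts without fixed points: cosets -/
private theorem coset_fix {A : Type} [Group A] [Finite A] {p : ℕ} [Fact p.Prime] {W F : Subgroup A}
    [W.Normal] (hW : IsPGroup p W) (hWc : ∀ x ∈ W, ∀ y ∈ W, x * y = y * x)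
    (hF : ¬ p ∣ Nat.card F) {u : A} (hu : ∀ f ∈ F, u⁻¹ * (f * u * f⁻¹) ∈ W) :
    ∃ y ∈ W, ∀ f ∈ F, f * (u * y) = u * y * f := by
  classical
  have := Fintype.ofFinite A
  let _ : CommGroup W := cgW hWc
  set c : F → W := fun f => ⟨u⁻¹ * (f * u * (f : A)⁻¹), hu f f.2⟩ with hc
  set cj : F → W → W := fun g x => ⟨g * (x : A) * (g : A)⁻¹, Subgroup.Normal.conj_mem
    inferInstance _ x.2 _⟩ with hcj
  have hcjm : ∀ g : F, ∀ x y, cj g (x * y) = cj g x * cj g y := by
    intro g x y
    apply Subtype.ext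
    change (g : A) * ((x : A) * y) * (g : A)⁻¹ = (g : A) * x * (g : A)⁻¹ * ((g : A) * y * (g : A)⁻¹)
    group
  let cjh : F → W →* W := fun g => MonoidHom.mk' (cj g) (hcjm g)
  have hmul : ∀ g f : F, c (g * f) = c g * cjh g (c f) := by
    intro g f
    apply Subtype.ext
    change u⁻¹ * (((g : A) * f) * u * ((g : A) * f)⁻¹) =
      u⁻¹ * (g * u * (g : A)⁻¹) * ((g : A) * (u⁻¹ * (f * u * (f : A)⁻¹)) * (g : A)⁻¹)
    group
  set y : W := ∏ f : F, c f with hy
  have hgy : ∀ g : F, y = c g ^ Nat.card F * cjh g y := by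
    intro g
    have h1 : y = ∏ f : F, c (g * f) :=
      (Fintype.prod_equiv (Equiv.mulLeft g) _ _ fun f => rfl).symm
    have h2 : cjh g y = ∏ f : F, cjh g (c f) := by rw [hy, map_prod]
    refine h1.trans ?_
    simp only [hmul]
    rw [prod_mul_distrib, prod_const, card_univ, ← Nat.card_eq_fintype_card, h2]
  -- the inverse of the order
  have hcop : (Nat.card W).Coprime (Nat.card F) := by
    obtain ⟨k, hk⟩ := IsPGroup.iff_card.1 hW
    rw [hk]
    exact Nat.Coprime.pow_left k ((Nat.Prime.coprime_iff_not_dvd Fact.out).2 hF)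
  obtain ⟨m, hm⟩ : ∃ m : ℤ, ∀ x : W, (x ^ Nat.card F) ^ m = x :=
    ⟨(Nat.card W).gcdB (Nat.card F), fun x => (powCoprime hcop).symm_apply_apply x⟩
  refine ⟨((y ^ m : W) : A), (y ^ m).2, fun f hf => ?_⟩
  have h1 : y ^ m = c ⟨f, hf⟩ * cjh ⟨f, hf⟩ (y ^ m) := by
    conv_lhs => rw [hgy ⟨f, hf⟩]
    rw [mul_zpow, hm, map_zpow]
  have h2 : ((y ^ m : W) : A) = u⁻¹ * (f * u * f⁻¹) * (f * ((y ^ m : W) : A) * f⁻¹) :=
    congrArg Subtype.val h1
  have h3 : u * ((y ^ m : W) : A) = f * (u * ((y ^ m : W) : A)) * f⁻¹ := by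
    conv_lhs => rw [h2]
    group
  conv_rhs => rw [h3]
  group

private theorem h1_norm {p : ℕ} [Fact p.Prime] (n : ℕ) : ∀ {A : Type} [Group A] [Finite A]
    {U F : Subgroup A} [U.Normal], Nat.card U = n → IsPGroup p U → ¬ p ∣ Nat.card F →
    (∀ x ∈ F, ∀ y ∈ F, x * y = y * x) → ∀ {a : A}, a ^ p = 1 → (∀ f ∈ F, a * f * a⁻¹ ∈ F) →
    (∀ f ∈ F, a * f = f * a → f = 1) → (∀ u ∈ U, (∀ f ∈ F, f * u = u * f) → u = 1) →
    ∀ {u : A}, u ∈ U → (u * a) ^ p = 1 → ∃ v ∈ U, u * a = v * a * v⁻¹ := by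
  induction n using Nat.strong_induction_on with
  | _ n ih =>
    intro A _ _ U F _ hn hU hF hFc a ha haF hfree hfix u hu hup
    by_cases hU1 : U = ⊥
    · subst hU1
      rw [Subgroup.mem_bot] at hu
      exact ⟨1, Subgroup.one_mem _, by rw [hu]; simp⟩
    have hUn : Nontrivial U := (Subgroup.nontrivial_iff_ne_bot U).2 hU1
    have hZ : Nontrivial (Subgroup.center U) := hU.center_nontrivial
    set W : Subgroup A := (Subgroup.center U).map U.subtype with hWd
    have hWn : W.Normal := ConjAct.normal_of_characteristic_of_normal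
    have hWU : W ≤ U := by
      rintro _ ⟨x, -, rfl⟩
      exact x.2
    have hWc : ∀ x ∈ W, ∀ y ∈ W, x * y = y * x := by
      rintro _ ⟨x, hx, rfl⟩ _ ⟨y, -, rfl⟩
      exact congrArg Subtype.val (Subgroup.mem_center_iff.1 hx y).symm
    have hWp : IsPGroup p W := hU.to_le hWU
    have hWF : ∀ x ∈ W, x ∈ F → x = 1 := by
      intro x hx hxF
      obtain ⟨k, hk⟩ := hWp ⟨x, hx⟩
      have h1 : orderOf x ∣ p ^ k := orderOf_dvd_of_pow_eq_one (congrArg Subtype.val hk)
      have h2 : orderOf x ∣ Nat.card F := by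
        have h3 := orderOf_dvd_natCard (⟨x, hxF⟩ : F)
        rwa [← Subgroup.orderOf_coe] at h3
      have h3 : (p ^ k).Coprime (Nat.card F) :=
        Nat.Coprime.pow_left k ((Nat.Prime.coprime_iff_not_dvd Fact.out).2 hF)
      have h4 := Nat.eq_one_of_dvd_coprimes h3 h1 h2
      exact orderOf_eq_one_iff.1 h4
    let π := QuotientGroup.mk' W
    have hπ : ∀ x, π x = 1 ↔ x ∈ W := fun x => by
      rw [← MonoidHom.mem_ker, QuotientGroup.ker_mk']
    have hUbn : (U.map π).Normal := Subgroup.Normal.map inferInstance π (QuotientGroup.mk'_surjective W)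
    have hlt : Nat.card (U.map π) < n := by
      rw [← hn]
      by_contra hge
      push Not at hge
      have hs : Function.Surjective
          (fun x : U => (⟨π x, Subgroup.mem_map_of_mem π x.2⟩ : U.map π)) := by
        rintro ⟨_, x, hx, rfl⟩
        exact ⟨⟨x, hx⟩, rfl⟩
      have hb := hs.bijective_of_nat_card_le hge
      obtain ⟨z, hz⟩ := exists_ne (1 : Subgroup.center U)
      apply hz
      have h1 : ((z : U) : A) ∈ W := ⟨z, z.2, rfl⟩
      have h2 : (z : U) = 1 := by
        apply hb.1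
        apply Subtype.ext
        change π ((z : U) : A) = π ((1 : U) : A)
        rw [Subgroup.coe_one, map_one]
        exact (hπ _).2 h1
      exact Subtype.ext h2
    have hv := ih _ hlt (A := A ⧸ W) (U := U.map π) (F := F.map π) rfl (hU.map π)
      (fun h => hF (h.trans (Subgroup.card_map_dvd F π))) ?_ (a := π a) ?_ ?_ ?_ ?_ (u := π u)
      (Subgroup.mem_map_of_mem π hu) ?_
    · obtain ⟨_, ⟨v, hvU, rfl⟩, hv⟩ := hv
      have h1 : π (v⁻¹ * (u * a) * v * a⁻¹) = 1 := by
        rw [map_mul, map_mul, map_mul, map_mul, hv, map_inv, map_inv]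
        group
      rw [hπ] at h1
      obtain ⟨v2, hv2, h2⟩ := h1_abelian hWp hWc hF hFc ha
        (fun x hx => hWn.conj_mem x hx a) haF (fun f _ x hx => hWn.conj_mem x hx f) hfree
        (fun x hx => hfix x (hWU hx)) h1 (by
          have h3 : v⁻¹ * (u * a) * v * a⁻¹ * a = v⁻¹ * (u * a) * v⁻¹⁻¹ := by group
          rw [h3, conj_pow, hup, mul_one, mul_inv_cancel])
      refine ⟨v * v2, U.mul_mem hvU (hWU hv2), ?_⟩
      rw [inv_mul_cancel_right] at h2
      have h3 : u * a = v * (v⁻¹ * (u * a) * v) * v⁻¹ := by group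
      rw [h3, h2]
      group
    · rintro _ ⟨x, hx, rfl⟩ _ ⟨y, hy, rfl⟩
      rw [← map_mul, ← map_mul, hFc x hx y hy]
    · rw [← map_pow, ha, map_one]
    · rintro _ ⟨x, hx, rfl⟩
      exact ⟨a * x * a⁻¹, haF x hx, by rw [map_mul, map_mul, map_inv]⟩
    · rintro _ ⟨x, hx, rfl⟩ h1
      have h2 : π (a * x * a⁻¹ * x⁻¹) = 1 := by
        rw [map_mul, map_mul, map_mul, map_inv, map_inv, h1]
        group
      rw [hπ] at h2
      have h3 := hWF _ h2 (F.mul_mem (haF x hx) (F.inv_mem hx))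
      have h4 : a * x = x * a := by
        have h5 := congrArg (fun z => z * x * a) h3
        simpa [mul_assoc] using h5
      rw [hfree x hx h4, map_one]
    · rintro _ ⟨x, hx, rfl⟩ h1
      have h2 : ∀ f ∈ F, x⁻¹ * (f * x * f⁻¹) ∈ W := by
        intro f hf
        rw [← hπ, map_mul, map_mul, map_mul, map_inv, map_inv, h1 _ (Subgroup.mem_map_of_mem π hf)]
        group
      obtain ⟨y, hy, h3⟩ := coset_fix hWp hWc hF h2
      have h4 := hfix (x * y) (U.mul_mem hx (hWU hy)) h3
      rw [eq_inv_of_mul_eq_one_left h4, hπ]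
      exact W.inv_mem hy
    · rw [← map_mul, ← map_pow, hup, map_one]

theorem h1_frob {A : Type} [Group A] [Finite A] {p : ℕ} [Fact p.Prime] {U F : Subgroup A}
    (hU : IsPGroup p U) (hF : ¬ p ∣ Nat.card F) (hFc : ∀ x ∈ F, ∀ y ∈ F, x * y = y * x) {a : A}
    (ha : a ^ p = 1) (haU : ∀ u ∈ U, a * u * a⁻¹ ∈ U) (haF : ∀ f ∈ F, a * f * a⁻¹ ∈ F)
    (hFU : ∀ f ∈ F, ∀ u ∈ U, f * u * f⁻¹ ∈ U) (hfree : ∀ f ∈ F, a * f = f * a → f = 1)
    (hfix : ∀ u ∈ U, (∀ f ∈ F, f * u = u * f) → u = 1) {u : A} (hu : u ∈ U)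
    (hup : (u * a) ^ p = 1) : ∃ v ∈ U, u * a = v * a * v⁻¹ := by
  set K : Subgroup A := Subgroup.normalizer (U : Set A) with hK
  have haK : a ∈ K := Subgroup.mem_normalizer_fintype fun n hn => haU n hn
  have hFK : F ≤ K := fun f hf => Subgroup.mem_normalizer_fintype fun n hn => hFU f hf n hn
  have hUK : U ≤ K := Subgroup.le_normalizer
  have hn : (U.subgroupOf K).Normal := Subgroup.normal_in_normalizer
  have hcF : Nat.card (F.subgroupOf K) = Nat.card F :=
    Nat.card_congr (Subgroup.subgroupOfEquivOfLe hFK).toEquiv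
  have hUp : IsPGroup p (U.subgroupOf K) := hU.of_equiv (Subgroup.subgroupOfEquivOfLe hUK).symm
  obtain ⟨v, hv, h⟩ := h1_norm _ (A := K) (U := U.subgroupOf K) (F := F.subgroupOf K) rfl hUp
    (by rw [hcF]; exact hF)
    (fun x hx y hy => Subtype.ext (hFc x (Subgroup.mem_subgroupOf.1 hx) y
      (Subgroup.mem_subgroupOf.1 hy)))
    (a := ⟨a, haK⟩) (Subtype.ext ha)
    (fun f hf => Subgroup.mem_subgroupOf.2 (haF f (Subgroup.mem_subgroupOf.1 hf)))
    (fun f hf h => Subtype.ext (hfree f (Subgroup.mem_subgroupOf.1 hf) (congrArg Subtype.val h)))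
    (fun x hx h => Subtype.ext (hfix x (Subgroup.mem_subgroupOf.1 hx) fun f hf =>
      congrArg Subtype.val (h ⟨f, hFK hf⟩ (Subgroup.mem_subgroupOf.2 hf))))
    (u := ⟨u, hUK hu⟩) (Subgroup.mem_subgroupOf.2 hu) (Subtype.ext hup)
  exact ⟨v, Subgroup.mem_subgroupOf.1 hv, congrArg Subtype.val h⟩

end Conc

end Pool.Agent.Helper54.OC
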