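import Pool.Agent.Helper54.OC.TwoM
import Pool.Agent.Helper54.OC.Tau
import Pool.Agent.Helper54.CL.PiFour
import Pool.Agent.Helper54.CL.Rad

/-!
# OC-25: orthogonal groups, the stabilizer of a totally isotropic line, first part

`LnD h p x1 x2 y1 y2 π`: the form `B` is symmetric bilinear, `Quad x1 x2 y1 y2` (`B x_i y_j = δ_ij`, the rest zero), `π` is the homomorphism of CL-16 (`exists_pi4`).
`W = sp x1 x2`, `W' = sp y1 y2`, `T = perp4 = (W + W')^⊥`, `U = RW W`, `z t = π (up t)`, `hc c = π (dg c)`, `w = π (ww _)`.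
Coordinates of `u ∈ RW W`: `la1 u = p4 (u y1)`, `la2 u = p4 (u y2)` in `T`.  (`ε = 1`, `σ = 1`.)

PROOF.  `v = p4 v + (B y1 v) x1 + (B y2 v) x2 + (B x1 v) y1 + (B x2 v) y2`.
* `perp4_nondeg`, `exists_ext4` (`e k v = k (p4 v) + ` the rest), `ext4_GG` (`ext_GG` of CL-03 is the model): clear.
* `ln_form`: `u y_i = y_i + la_i u + l_i`, `l_i ∈ W` (`B (u y_i) x_j = B y_i x_j`); for `v ∈ T`: `u v = v + α x1 + β x2`, and `0 = B (u v) (u y1) = B v (la1 u) + α`.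
* `ln_surj`: `u = E x1 a1 t1 ∘ E x2 a2 t2` (`exists_E`, `adm_exists`); `E x2 a2 t2 y2 = y2 + a2 + t2 x2`, `E x2 a2 t2 y1 = y1`, `E x1 a1 t1 a2 = a2 - B(a1,a2) x1`.  `UU`-elements of this form
  are in `RW W`: they fix `x1`, `x2` and for `v ⊥ W`, `E x1 a1 t1 v = v - B(a1, v) x1`.
* `ln_ker`: `u y1 = y1 + α x1 + β x2`, `u y2 = y2 + γ x1 + δ x2`, `B (u y1) (u y1) = 0` gives `α = 0`, `δ = 0`, `γ = - β`.
* `ln_comm`: with `a_i = la_i u`, `a_i' = la_i u'`: `u u' y1 - u' u y1 = (B(a1, a2') - B(a2, a1')) x2`.  Both `u u'` and `u' u` have the same coordinates, so they differ by some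
  `π (up t)` (`ln_ker`).
* `ln_line`: `g (π (up 1)) g⁻¹ = π (up s)`: the image of `π (up 1) - 1` is `W`.
* `ln_act`: `g x_k = ∑_i m_ik x_i`; then `g⁻¹ y_i ∈ ∑_k m_ik y_k + W^⊥` (`B (x_k) (g⁻¹ y_i) = B (g x_k) y_i`), so `u (g⁻¹ y_i) - g⁻¹ y_i ∈ ∑_k m_ik la_k u + W`.
* `ln_act_z`: `π (up t) v = v + t (B(x1, v) x2 - B(x2, v) x1)`.
-/

set_option autoImplicit false

namespace Pool.Agent.Helper54.OC

open Pool.Agent.Helper54.CL

section
variable {F V : Type} [Field F] [AddCommGroup V] [Module F V] (h : HF F V)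

structure LnD (p : ℕ) (x1 x2 y1 y2 : V)
    (π : Matrix.SpecialLinearGroup (Fin 2) F →* (V ≃ₗ[F] V)) : Prop where
  q : h.Quad x1 x2 y1 y2
  o : h.IsO
  le : π.range ≤ h.GG p
  ap : ∀ (g : Matrix.SpecialLinearGroup (Fin 2) F) (a b c d : F),
        (g : Matrix (Fin 2) (Fin 2) F) = !![a, b; c, d] →
        π g x1 = a • x1 - c • y2 ∧ π g y2 = - (b • x1) + d • y2 ∧
        π g x2 = a • x2 + c • y1 ∧ π g y1 = b • x2 + d • y1
  fx : ∀ (g : Matrix.SpecialLinearGroup (Fin 2) F) (v : V), h.B x1 v = 0 → h.B x2 v = 0 →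
        h.B y1 v = 0 → h.B y2 v = 0 → π g v = v

/-- the plane spanned by two vectors -/
def sp (F : Type) {V : Type} [Field F] [AddCommGroup V] [Module F V] (x1 x2 : V) : Submodule F V :=
  Submodule.span F {x1, x2}

theorem mem_sp {x1 x2 v : V} : v ∈ sp F x1 x2 ↔ ∃ a b : F, v = a • x1 + b • x2 := by
  unfold sp
  rw [Submodule.mem_span_pair]
  constructor
  · rintro ⟨a, b, rfl⟩; exact ⟨a, b, rfl⟩
  · rintro ⟨a, b, rfl⟩; exact ⟨a, b, rfl⟩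

variable {h}

theorem quad_ti {x1 x2 y1 y2 : V} (hq : h.Quad x1 x2 y1 y2) :
    ∀ v ∈ sp F x1 x2, ∀ w ∈ sp F x1 x2, h.B v w = 0 := by
  intro v hv w hw
  obtain ⟨a, b, rfl⟩ := mem_sp.mp hv
  obtain ⟨c, d, rfl⟩ := mem_sp.mp hw
  simp only [h.add_left, h.add_right, h.smul_left, h.smul_right, hq.p1.xx, hq.p2.xx, hq.vv,
    h.B_symm_zero hq.vv]
  ring

theorem quad_ti' {x1 x2 y1 y2 : V} (hq : h.Quad x1 x2 y1 y2) :
    ∀ v ∈ sp F y1 y2, ∀ w ∈ sp F y1 y2, h.B v w = 0 := by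
  intro v hv w hw
  obtain ⟨a, b, rfl⟩ := mem_sp.mp hv
  obtain ⟨c, d, rfl⟩ := mem_sp.mp hw
  simp only [h.add_left, h.add_right, h.smul_left, h.smul_right, hq.p1.yy, hq.p2.yy, hq.ww,
    h.B_symm_zero hq.ww]
  ring

private theorem ln_l {x1 x2 : V} : x1 ∈ sp F x1 x2 := mem_sp.mpr ⟨1, 0, by simp⟩

private theorem ln_r {x1 x2 : V} : x2 ∈ sp F x1 x2 := mem_sp.mpr ⟨0, 1, by simp⟩

theorem quad_dual {x1 x2 y1 y2 : V} (hq : h.Quad x1 x2 y1 y2) :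
    h.Dual (sp F x1 x2) (sp F y1 y2) := by
  refine ⟨quad_ti hq, quad_ti' hq, ?_, ?_⟩
  · intro w hw h0
    obtain ⟨a, b, rfl⟩ := mem_sp.mp hw
    have h1 := h0 y1 ln_l
    have h2 := h0 y2 ln_r
    simp only [h.add_left, h.smul_left, hq.p1.xy, hq.p2.xy, hq.vw, h.B_symm_zero hq.wv] at h1 h2
    have h3 : h.σ a = 0 := by linear_combination h1
    have h4 : h.σ b = 0 := by linear_combination h2
    rw [(map_eq_zero h.σ).mp h3, (map_eq_zero h.σ).mp h4]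
    simp
  · intro w hw h0
    obtain ⟨a, b, rfl⟩ := mem_sp.mp hw
    have h1 := h0 x1 ln_l
    have h2 := h0 x2 ln_r
    simp only [h.add_right, h.smul_right, hq.p1.xy, hq.p2.xy, hq.vw, h.B_symm_zero hq.wv] at h1 h2
    have h3 : a = 0 := by linear_combination h1
    have h4 : b = 0 := by linear_combination h2
    rw [h3, h4]
    simp

variable (h)

/-- the orthogonal complement of the four vectors -/
def perp4 (x1 x2 y1 y2 : V) : Submodule F V where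
  carrier := {v | h.B x1 v = 0 ∧ h.B x2 v = 0 ∧ h.B y1 v = 0 ∧ h.B y2 v = 0}
  add_mem' := by
    rintro a b ⟨ha, ha', ha'', ha'''⟩ ⟨hb, hb', hb'', hb'''⟩
    exact ⟨by rw [h.add_right, ha, hb, add_zero], by rw [h.add_right, ha', hb', add_zero],
      by rw [h.add_right, ha'', hb'', add_zero], by rw [h.add_right, ha''', hb''', add_zero]⟩
  zero_mem' := ⟨h.zero_right x1, h.zero_right x2, h.zero_right y1, h.zero_right y2⟩
  smul_mem' := by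
    rintro c a ⟨ha, ha', ha'', ha'''⟩
    exact ⟨by rw [h.smul_right, ha, mul_zero], by rw [h.smul_right, ha', mul_zero],
      by rw [h.smul_right, ha'', mul_zero], by rw [h.smul_right, ha''', mul_zero]⟩

theorem mem_perp4 {x1 x2 y1 y2 v : V} : v ∈ perp4 h x1 x2 y1 y2 ↔
    h.B x1 v = 0 ∧ h.B x2 v = 0 ∧ h.B y1 v = 0 ∧ h.B y2 v = 0 := Iff.rfl

/-- the projection to `perp4`, for symmetric forms -/
def p4 (x1 x2 y1 y2 v : V) : V :=
  v - h.B y1 v • x1 - h.B y2 v • x2 - h.B x1 v • y1 - h.B x2 v • y2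

variable {h}

private theorem o_sym (hO : h.IsO) (x y : V) : h.B x y = h.B y x := by
  rw [h.herm y x, hO.2, hO.1, one_mul]

private theorem o_sl (hO : h.IsO) (c : F) (x y : V) : h.B (c • x) y = c * h.B x y := by
  rw [h.smul_left, hO.1]

/-- the 16 values of the form -/
private structure Q16 (h : HF F V) (x1 x2 y1 y2 : V) : Prop where
  a1 : h.B x1 x1 = 0
  a2 : h.B x1 x2 = 0
  a3 : h.B x2 x1 = 0
  a4 : h.B x2 x2 = 0
  b1 : h.B y1 y1 = 0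
  b2 : h.B y1 y2 = 0
  b3 : h.B y2 y1 = 0
  b4 : h.B y2 y2 = 0
  c1 : h.B x1 y1 = 1
  c2 : h.B x1 y2 = 0
  c3 : h.B x2 y1 = 0
  c4 : h.B x2 y2 = 1
  d1 : h.B y1 x1 = 1
  d2 : h.B y1 x2 = 0
  d3 : h.B y2 x1 = 0
  d4 : h.B y2 x2 = 1

private theorem q16 (hO : h.IsO) {x1 x2 y1 y2 : V} (hq : h.Quad x1 x2 y1 y2) :
    Q16 h x1 x2 y1 y2 where
  a1 := hq.p1.xx
  a2 := hq.vv
  a3 := h.B_symm_zero hq.vv
  a4 := hq.p2.xx
  b1 := hq.p1.yy
  b2 := hq.ww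
  b3 := h.B_symm_zero hq.ww
  b4 := hq.p2.yy
  c1 := hq.p1.xy
  c2 := hq.vw
  c3 := h.B_symm_zero hq.wv
  c4 := hq.p2.xy
  d1 := by rw [o_sym hO]; exact hq.p1.xy
  d2 := hq.wv
  d3 := h.B_symm_zero hq.vw
  d4 := by rw [o_sym hO]; exact hq.p2.xy

private theorem dec4 (x1 x2 y1 y2 v : V) : v = p4 h x1 x2 y1 y2 v + h.B y1 v • x1 +
    h.B y2 v • x2 + h.B x1 v • y1 + h.B x2 v • y2 := by
  unfold p4
  module

private theorem p4_add (x1 x2 y1 y2 v w : V) : p4 h x1 x2 y1 y2 (v + w) =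
    p4 h x1 x2 y1 y2 v + p4 h x1 x2 y1 y2 w := by
  unfold p4
  simp only [h.add_right]
  module

private theorem p4_smul (x1 x2 y1 y2 : V) (c : F) (v : V) : p4 h x1 x2 y1 y2 (c • v) =
    c • p4 h x1 x2 y1 y2 v := by
  unfold p4
  simp only [h.smul_right]
  module

private theorem p4_id {x1 x2 y1 y2 v : V} (hv : v ∈ perp4 h x1 x2 y1 y2) :
    p4 h x1 x2 y1 y2 v = v := by
  obtain ⟨h1, h2, h3, h4⟩ := hv
  unfold p4
  rw [h1, h2, h3, h4]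
  module

private theorem p4_x1 {x1 x2 y1 y2 : V} (hQ : Q16 h x1 x2 y1 y2) :
    p4 h x1 x2 y1 y2 x1 = 0 := by
  unfold p4
  rw [hQ.d1, hQ.d3, hQ.a1, hQ.a3]
  module

private theorem p4_x2 {x1 x2 y1 y2 : V} (hQ : Q16 h x1 x2 y1 y2) :
    p4 h x1 x2 y1 y2 x2 = 0 := by
  unfold p4
  rw [hQ.d2, hQ.d4, hQ.a2, hQ.a4]
  module

private theorem p4_y1 {x1 x2 y1 y2 : V} (hQ : Q16 h x1 x2 y1 y2) :
    p4 h x1 x2 y1 y2 y1 = 0 := by
  unfold p4
  rw [hQ.b1, hQ.b3, hQ.c1, hQ.c3]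
  module

private theorem p4_y2 {x1 x2 y1 y2 : V} (hQ : Q16 h x1 x2 y1 y2) :
    p4 h x1 x2 y1 y2 y2 = 0 := by
  unfold p4
  rw [hQ.b2, hQ.b4, hQ.c2, hQ.c4]
  module

private theorem p4_sp {x1 x2 y1 y2 v : V} (hQ : Q16 h x1 x2 y1 y2) (hv : v ∈ sp F x1 x2) :
    p4 h x1 x2 y1 y2 v = 0 := by
  obtain ⟨a, b, rfl⟩ := mem_sp.mp hv
  rw [p4_add, p4_smul, p4_smul, p4_x1 hQ, p4_x2 hQ]
  simp

theorem p4_mem (hO : h.IsO) {x1 x2 y1 y2 : V} (hq : h.Quad x1 x2 y1 y2) (v : V) :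
    p4 h x1 x2 y1 y2 v ∈ perp4 h x1 x2 y1 y2 := by
  have hQ := q16 hO hq
  refine ⟨?_, ?_, ?_, ?_⟩
  · simp only [p4, h.sub_right, h.smul_right, hQ.a1, hQ.a2, hQ.c1, hQ.c2]; ring
  · simp only [p4, h.sub_right, h.smul_right, hQ.a3, hQ.a4, hQ.c3, hQ.c4]; ring
  · simp only [p4, h.sub_right, h.smul_right, hQ.d1, hQ.d2, hQ.b1, hQ.b2]; ring
  · simp only [p4, h.sub_right, h.smul_right, hQ.d3, hQ.d4, hQ.b3, hQ.b4]; ring

theorem perp4_nondeg (hO : h.IsO) {x1 x2 y1 y2 : V} (hq : h.Quad x1 x2 y1 y2)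
    (v : perp4 h x1 x2 y1 y2) (hv : ∀ w : perp4 h x1 x2 y1 y2, h.B (v : V) (w : V) = 0) :
    v = 0 := by
  apply Subtype.ext
  apply h.nondeg
  intro w
  have h0 := hv ⟨_, p4_mem hO hq w⟩
  have h0' : h.B (v : V) (p4 h x1 x2 y1 y2 w) = 0 := h0
  have h1 : h.B (v : V) x1 = 0 := h.B_symm_zero v.2.1
  have h2 : h.B (v : V) x2 = 0 := h.B_symm_zero v.2.2.1
  have h3 : h.B (v : V) y1 = 0 := h.B_symm_zero v.2.2.2.1
  have h4 : h.B (v : V) y2 = 0 := h.B_symm_zero v.2.2.2.2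
  rw [dec4 (h := h) x1 x2 y1 y2 w]
  simp only [h.add_right, h.smul_right, h0', h1, h2, h3, h4]
  ring

/-- the restriction of the form -/
def restr4 (hO : h.IsO) {x1 x2 y1 y2 : V} (hq : h.Quad x1 x2 y1 y2) :
    HF F (perp4 h x1 x2 y1 y2) where
  σ := h.σ
  ε := h.ε
  B := fun a b => h.B (a : V) (b : V)
  invol := h.invol
  eps := h.eps
  sig_eps := h.sig_eps
  add_right := fun a b c => h.add_right _ _ _
  smul_right := fun c a b => h.smul_right _ _ _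
  herm := fun a b => h.herm _ _
  nondeg := perp4_nondeg hO hq

theorem finrank_perp4 [FiniteDimensional F V] (hO : h.IsO) {x1 x2 y1 y2 : V}
    (hq : h.Quad x1 x2 y1 y2) :
    Module.finrank F V = Module.finrank F (perp4 h x1 x2 y1 y2) + 4 := by
  have hQ := q16 hO hq
  let φ : V →ₗ[F] (F × F) × (F × F) :=
    { toFun := fun v => ((h.B x1 v, h.B x2 v), (h.B y1 v, h.B y2 v))
      map_add' := fun a b => by simp only [h.add_right, Prod.mk_add_mk]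
      map_smul' := fun c a => by
        simp only [h.smul_right, Prod.smul_mk, smul_eq_mul, RingHom.id_apply] }
  have hker : LinearMap.ker φ = perp4 h x1 x2 y1 y2 := by
    ext v
    rw [LinearMap.mem_ker, mem_perp4]
    show ((h.B x1 v, h.B x2 v), (h.B y1 v, h.B y2 v)) = 0 ↔ _
    rw [Prod.mk_eq_zero, Prod.mk_eq_zero, Prod.mk_eq_zero, and_assoc]
  have hsurj : LinearMap.range φ = ⊤ := by
    rw [LinearMap.range_eq_top]
    rintro ⟨⟨a, b⟩, ⟨c, d⟩⟩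
    refine ⟨a • y1 + b • y2 + c • x1 + d • x2, ?_⟩
    show ((h.B x1 _, h.B x2 _), (h.B y1 _, h.B y2 _)) = ((a, b), (c, d))
    simp only [h.add_right, h.smul_right, hQ.a1, hQ.a2, hQ.a3, hQ.a4, hQ.b1, hQ.b2, hQ.b3, hQ.b4,
      hQ.c1, hQ.c2, hQ.c3, hQ.c4, hQ.d1, hQ.d2, hQ.d3, hQ.d4]
    ext <;> simp
  have h1 := LinearMap.finrank_range_add_finrank_ker φ
  rw [hker, hsurj, finrank_top, Module.finrank_prod, Module.finrank_prod,
    Module.finrank_self] at h1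
  omega

/-- the projection as a linear map -/
private def lP (hO : h.IsO) {x1 x2 y1 y2 : V} (hq : h.Quad x1 x2 y1 y2) :
    V →ₗ[F] perp4 h x1 x2 y1 y2 where
  toFun v := ⟨p4 h x1 x2 y1 y2 v, p4_mem hO hq v⟩
  map_add' := fun a b => Subtype.ext (p4_add x1 x2 y1 y2 a b)
  map_smul' := fun c a => Subtype.ext (p4_smul x1 x2 y1 y2 c a)

private theorem lP_coe (hO : h.IsO) {x1 x2 y1 y2 : V} (hq : h.Quad x1 x2 y1 y2) (v : V) :
    ((lP hO hq v : perp4 h x1 x2 y1 y2) : V) = p4 h x1 x2 y1 y2 v := rfl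

private theorem lP_perp (hO : h.IsO) {x1 x2 y1 y2 : V} (hq : h.Quad x1 x2 y1 y2)
    (v : perp4 h x1 x2 y1 y2) : lP hO hq (v : V) = v := Subtype.ext (p4_id v.2)

private def lE (hO : h.IsO) {x1 x2 y1 y2 : V} (hq : h.Quad x1 x2 y1 y2)
    (k : perp4 h x1 x2 y1 y2 ≃ₗ[F] perp4 h x1 x2 y1 y2) : V →ₗ[F] V where
  toFun v := (k (lP hO hq v) : V) + h.B y1 v • x1 + h.B y2 v • x2 + h.B x1 v • y1 + h.B x2 v • y2
  map_add' := by
    intro a b
    simp only [map_add, h.add_right, Submodule.coe_add]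
    module
  map_smul' := by
    intro c a
    simp only [map_smul, h.smul_right, Submodule.coe_smul, RingHom.id_apply]
    module

private theorem lE_apply (hO : h.IsO) {x1 x2 y1 y2 : V} (hq : h.Quad x1 x2 y1 y2)
    (k : perp4 h x1 x2 y1 y2 ≃ₗ[F] perp4 h x1 x2 y1 y2) (v : V) :
    lE hO hq k v = (k (lP hO hq v) : V) + h.B y1 v • x1 + h.B y2 v • x2 + h.B x1 v • y1 +
      h.B x2 v • y2 := rfl

private theorem lE_mul (hO : h.IsO) {x1 x2 y1 y2 : V} (hq : h.Quad x1 x2 y1 y2)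
    (k k' : perp4 h x1 x2 y1 y2 ≃ₗ[F] perp4 h x1 x2 y1 y2) (v : V) :
    lE hO hq k (lE hO hq k' v) = lE hO hq (k * k') v := by
  have hQ := q16 hO hq
  obtain ⟨m1, m2, m3, m4⟩ := (k' (lP hO hq v)).2
  have h1 : lP hO hq (lE hO hq k' v) = k' (lP hO hq v) := by
    apply Subtype.ext
    rw [lP_coe, lE_apply, p4_add, p4_add, p4_add, p4_add, p4_smul, p4_smul, p4_smul, p4_smul,
      p4_x1 hQ, p4_x2 hQ, p4_y1 hQ, p4_y2 hQ, p4_id (k' (lP hO hq v)).2]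
    simp
  have h2 : h.B y1 (lE hO hq k' v) = h.B y1 v := by
    rw [lE_apply]
    simp only [h.add_right, h.smul_right, m3, hQ.d1, hQ.d2, hQ.b1, hQ.b2]
    ring
  have h3 : h.B y2 (lE hO hq k' v) = h.B y2 v := by
    rw [lE_apply]
    simp only [h.add_right, h.smul_right, m4, hQ.d3, hQ.d4, hQ.b3, hQ.b4]
    ring
  have h4 : h.B x1 (lE hO hq k' v) = h.B x1 v := by
    rw [lE_apply]
    simp only [h.add_right, h.smul_right, m1, hQ.a1, hQ.a2, hQ.c1, hQ.c2]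
    ring
  have h5 : h.B x2 (lE hO hq k' v) = h.B x2 v := by
    rw [lE_apply]
    simp only [h.add_right, h.smul_right, m2, hQ.a3, hQ.a4, hQ.c3, hQ.c4]
    ring
  rw [lE_apply hO hq k, h1, h2, h3, h4, h5, lE_apply hO hq (k * k')]
  rfl

private theorem lE_one (hO : h.IsO) {x1 x2 y1 y2 : V} (hq : h.Quad x1 x2 y1 y2) (v : V) :
    lE hO hq 1 v = v := by
  rw [lE_apply]
  exact (dec4 x1 x2 y1 y2 v).symm

private def lEE (hO : h.IsO) {x1 x2 y1 y2 : V} (hq : h.Quad x1 x2 y1 y2)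
    (k : perp4 h x1 x2 y1 y2 ≃ₗ[F] perp4 h x1 x2 y1 y2) : V ≃ₗ[F] V :=
  LinearEquiv.ofLinear (lE hO hq k) (lE hO hq k⁻¹)
    (by
      ext v
      show lE hO hq k (lE hO hq k⁻¹ v) = v
      rw [lE_mul, mul_inv_cancel, lE_one])
    (by
      ext v
      show lE hO hq k⁻¹ (lE hO hq k v) = v
      rw [lE_mul, inv_mul_cancel, lE_one])

private theorem lEE_apply (hO : h.IsO) {x1 x2 y1 y2 : V} (hq : h.Quad x1 x2 y1 y2)
    (k : perp4 h x1 x2 y1 y2 ≃ₗ[F] perp4 h x1 x2 y1 y2) (v : V) :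
    lEE hO hq k v = (k (lP hO hq v) : V) + h.B y1 v • x1 + h.B y2 v • x2 + h.B x1 v • y1 +
      h.B x2 v • y2 := rfl

private theorem lEE_iso (hO : h.IsO) {x1 x2 y1 y2 : V} (hq : h.Quad x1 x2 y1 y2)
    {k : perp4 h x1 x2 y1 y2 ≃ₗ[F] perp4 h x1 x2 y1 y2} (hk : k ∈ (restr4 hO hq).Iso) :
    lEE hO hq k ∈ h.Iso := by
  intro v w
  obtain ⟨m1, m2, m3, m4⟩ := (k (lP hO hq v)).2
  obtain ⟨n1, n2, n3, n4⟩ := (k (lP hO hq w)).2
  obtain ⟨r1, r2, r3, r4⟩ := (lP hO hq v).2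
  obtain ⟨s1, s2, s3, s4⟩ := (lP hO hq w).2
  have m1' := h.B_symm_zero m1
  have m2' := h.B_symm_zero m2
  have m3' := h.B_symm_zero m3
  have m4' := h.B_symm_zero m4
  have r1' := h.B_symm_zero r1
  have r2' := h.B_symm_zero r2
  have r3' := h.B_symm_zero r3
  have r4' := h.B_symm_zero r4
  have a9 : h.B (k (lP hO hq v) : V) (k (lP hO hq w) : V) =
      h.B (lP hO hq v : V) (lP hO hq w : V) := hk _ _
  have e1 : h.B (lEE hO hq k v) (lEE hO hq k w) =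
      h.B ((lP hO hq v : V) + h.B y1 v • x1 + h.B y2 v • x2 + h.B x1 v • y1 + h.B x2 v • y2)
        ((lP hO hq w : V) + h.B y1 w • x1 + h.B y2 w • x2 + h.B x1 w • y1 + h.B x2 w • y2) := by
    rw [lEE_apply, lEE_apply]
    simp only [h.add_left, h.add_right, h.smul_left, h.smul_right, m1', m2', m3', m4', n1, n2, n3,
      n4, r1', r2', r3', r4', s1, s2, s3, s4, a9]
  rw [e1, lP_coe, lP_coe, ← dec4, ← dec4]

theorem exists_ext4 (hO : h.IsO) {x1 x2 y1 y2 : V} (hq : h.Quad x1 x2 y1 y2) :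
    ∃ e : (perp4 h x1 x2 y1 y2 ≃ₗ[F] perp4 h x1 x2 y1 y2) →* (V ≃ₗ[F] V),
      (∀ k, e k x1 = x1 ∧ e k x2 = x2 ∧ e k y1 = y1 ∧ e k y2 = y2 ∧
        ∀ v : perp4 h x1 x2 y1 y2, e k (v : V) = (k v : V)) ∧
      ∀ p : ℕ, ∀ k ∈ (restr4 hO hq).GG p, e k ∈ h.GG p := by
  have hQ := q16 hO hq
  have z1 : lP hO hq x1 = 0 := Subtype.ext (p4_x1 hQ)
  have z2 : lP hO hq x2 = 0 := Subtype.ext (p4_x2 hQ)
  have z3 : lP hO hq y1 = 0 := Subtype.ext (p4_y1 hQ)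
  have z4 : lP hO hq y2 = 0 := Subtype.ext (p4_y2 hQ)
  refine ⟨
    { toFun := fun k => lEE hO hq k
      map_one' := by
        ext v
        show lE hO hq 1 v = v
        exact lE_one hO hq v
      map_mul' := by
        intro g g'
        ext v
        show lE hO hq (g * g') v = lE hO hq g (lE hO hq g' v)
        exact (lE_mul hO hq g g' v).symm }, ?_, ?_⟩
  · intro k
    refine ⟨?_, ?_, ?_, ?_, ?_⟩
    · show lEE hO hq k x1 = x1
      rw [lEE_apply, z1, map_zero, hQ.d1, hQ.d3, hQ.a1, hQ.a3, Submodule.coe_zero]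
      module
    · show lEE hO hq k x2 = x2
      rw [lEE_apply, z2, map_zero, hQ.d2, hQ.d4, hQ.a2, hQ.a4, Submodule.coe_zero]
      module
    · show lEE hO hq k y1 = y1
      rw [lEE_apply, z3, map_zero, hQ.b1, hQ.b3, hQ.c1, hQ.c3, Submodule.coe_zero]
      module
    · show lEE hO hq k y2 = y2
      rw [lEE_apply, z4, map_zero, hQ.b2, hQ.b4, hQ.c2, hQ.c4, Submodule.coe_zero]
      module
    · intro v
      show lEE hO hq k v = _
      rw [lEE_apply, lP_perp, v.2.1, v.2.2.1, v.2.2.2.1, v.2.2.2.2]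
      module
  · intro p k hk
    set e : (perp4 h x1 x2 y1 y2 ≃ₗ[F] perp4 h x1 x2 y1 y2) →* (V ≃ₗ[F] V) :=
      { toFun := fun k => lEE hO hq k
        map_one' := by
          ext v
          show lE hO hq 1 v = v
          exact lE_one hO hq v
        map_mul' := by
          intro g g'
          ext v
          show lE hO hq (g * g') v = lE hO hq g (lE hO hq g' v)
          exact (lE_mul hO hq g g' v).symm } with he
    have key : (restr4 hO hq).GG p ≤ (h.GG p).comap e := by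
      unfold HF.GG
      rw [Subgroup.closure_le]
      rintro g ⟨h1, n, hn⟩
      refine Subgroup.subset_closure ⟨lEE_iso hO hq h1, n, ?_⟩
      show (e g) ^ p ^ n = 1
      rw [← map_pow, hn, map_one]
    exact key hk

end

section
variable {p : ℕ} [Fact p.Prime] {F V : Type} [Field F] [Finite F] [CharP F p] [AddCommGroup V]
  [Module F V] [Finite V] {h : HF F V} {x1 x2 y1 y2 : V}
  {π : Matrix.SpecialLinearGroup (Fin 2) F →* (V ≃ₗ[F] V)}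

omit [Fact p.Prime] [Finite F] [CharP F p] [Finite V] in
private theorem ln_dec (hD : LnD h p x1 x2 y1 y2 π) (g : Matrix.SpecialLinearGroup (Fin 2) F)
    (v : V) : π g v = p4 h x1 x2 y1 y2 v + h.B y1 v • π g x1 + h.B y2 v • π g x2 +
      h.B x1 v • π g y1 + h.B x2 v • π g y2 := by
  obtain ⟨m1, m2, m3, m4⟩ := p4_mem hD.o hD.q v
  conv_lhs => rw [dec4 (h := h) x1 x2 y1 y2 v]
  simp only [map_add, map_smul, hD.fx g _ m1 m2 m3 m4]

omit [Fact p.Prime] [Finite F] [CharP F p] [Finite V] in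
theorem ln_up (hD : LnD h p x1 x2 y1 y2 π) (t : F) (v : V) :
    π (up t) v = v + (t * h.B x1 v) • x2 - (t * h.B x2 v) • x1 := by
  obtain ⟨e1, e2, e3, e4⟩ := hD.ap (up t) 1 t 0 1 (up_coe t)
  rw [ln_dec hD, e1, e2, e3, e4]
  unfold p4
  module

omit [Fact p.Prime] [Finite F] [CharP F p] [Finite V] in
theorem ln_lo (hD : LnD h p x1 x2 y1 y2 π) (t : F) (v : V) :
    π (lo t) v = v + (t * h.B y2 v) • y1 - (t * h.B y1 v) • y2 := by
  obtain ⟨e1, e2, e3, e4⟩ := hD.ap (lo t) 1 0 t 1 (lo_coe t)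
  rw [ln_dec hD, e1, e2, e3, e4]
  unfold p4
  module

omit [Fact p.Prime] [Finite F] [CharP F p] [Finite V] in
theorem ln_dg (hD : LnD h p x1 x2 y1 y2 π) (c : Fˣ) :
    π (dg c) x1 = (c : F) • x1 ∧ π (dg c) x2 = (c : F) • x2 ∧
      π (dg c) y1 = (c : F)⁻¹ • y1 ∧ π (dg c) y2 = (c : F)⁻¹ • y2 := by
  obtain ⟨e1, e2, e3, e4⟩ := hD.ap (dg c) (c : F) 0 0 ((c⁻¹ : Fˣ) : F) (dg_coe c)
  rw [e1, e2, e3, e4, Units.val_inv_eq_inv_val]
  refine ⟨?_, ?_, ?_, ?_⟩ <;> simp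

omit [Fact p.Prime] [Finite F] [CharP F p] [Finite V] in
theorem ln_ww (hD : LnD h p x1 x2 y1 y2 π) :
    π (ww F) x1 = y2 ∧ π (ww F) x2 = - y1 ∧ π (ww F) y1 = x2 ∧ π (ww F) y2 = - x1 := by
  obtain ⟨e1, e2, e3, e4⟩ := hD.ap (ww F) 0 1 (-1) 0 ww_coe
  rw [e1, e2, e3, e4]
  refine ⟨?_, ?_, ?_, ?_⟩ <;> simp

/-- the first coordinate -/
def la1 (h : HF F V) (x1 x2 y1 y2 : V) (u : V ≃ₗ[F] V) : V := p4 h x1 x2 y1 y2 (u y1)

/-- the second coordinate -/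
def la2 (h : HF F V) (x1 x2 y1 y2 : V) (u : V ≃ₗ[F] V) : V := p4 h x1 x2 y1 y2 (u y2)

omit [Fact p.Prime] [Finite F] [CharP F p] [Finite V] in
private theorem ln_x (hD : LnD h p x1 x2 y1 y2 π) {u : V ≃ₗ[F] V}
    (hu : u ∈ h.RW (sp F x1 x2) (quad_ti hD.q)) (v : V) :
    h.B x1 (u v) = h.B x1 v ∧ h.B x2 (u v) = h.B x2 v := by
  obtain ⟨hI, hf, -⟩ := hu
  constructor
  · have := hI x1 v
    rwa [hf x1 ln_l] at this
  · have := hI x2 v
    rwa [hf x2 ln_r] at this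

omit [Fact p.Prime] [Finite F] [CharP F p] [Finite V] in
theorem ln_form (hD : LnD h p x1 x2 y1 y2 π) {u : V ≃ₗ[F] V}
    (hu : u ∈ h.RW (sp F x1 x2) (quad_ti hD.q)) :
    (∃ l ∈ sp F x1 x2, u y1 = y1 + la1 h x1 x2 y1 y2 u + l) ∧
    (∃ l ∈ sp F x1 x2, u y2 = y2 + la2 h x1 x2 y1 y2 u + l) ∧
    ∀ v ∈ perp4 h x1 x2 y1 y2, u v = v - h.B (la1 h x1 x2 y1 y2 u) v • x1 -
      h.B (la2 h x1 x2 y1 y2 u) v • x2 := by
  have hQ := q16 hD.o hD.q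
  have hsym := o_sym hD.o
  have hsl := o_sl hD.o
  have k1 : ∃ l ∈ sp F x1 x2, u y1 = y1 + la1 h x1 x2 y1 y2 u + l := by
    refine ⟨h.B y1 (u y1) • x1 + h.B y2 (u y1) • x2, mem_sp.mpr ⟨_, _, rfl⟩, ?_⟩
    obtain ⟨e1, e2⟩ := ln_x hD hu y1
    unfold la1
    conv_lhs => rw [dec4 (h := h) x1 x2 y1 y2 (u y1)]
    rw [e1, e2, hQ.c1, hQ.c3]
    module
  have k2 : ∃ l ∈ sp F x1 x2, u y2 = y2 + la2 h x1 x2 y1 y2 u + l := by
    refine ⟨h.B y1 (u y2) • x1 + h.B y2 (u y2) • x2, mem_sp.mpr ⟨_, _, rfl⟩, ?_⟩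
    obtain ⟨e1, e2⟩ := ln_x hD hu y2
    unfold la2
    conv_lhs => rw [dec4 (h := h) x1 x2 y1 y2 (u y2)]
    rw [e1, e2, hQ.c2, hQ.c4]
    module
  refine ⟨k1, k2, ?_⟩
  intro v hv
  obtain ⟨m1, m2, m3, m4⟩ := hv
  obtain ⟨l1, hl1, e1⟩ := k1
  obtain ⟨l2, hl2, e2⟩ := k2
  obtain ⟨hI, hf, hp⟩ := hu
  obtain ⟨a, b, hab⟩ := mem_sp.mp (hp v (by
    intro w hw
    obtain ⟨c, d, rfl⟩ := mem_sp.mp hw
    simp only [h.add_left, hsl, m1, m2]
    ring))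
  have hv' : u v = v + a • x1 + b • x2 := by
    rw [sub_eq_iff_eq_add] at hab
    rw [hab]
    module
  obtain ⟨n1, n2, n3, n4⟩ := p4_mem hD.o hD.q (u y1)
  obtain ⟨q1, q2, q3, q4⟩ := p4_mem hD.o hD.q (u y2)
  have f1 := hI v y1
  have f2 := hI v y2
  obtain ⟨c1, d1, rfl⟩ := mem_sp.mp hl1
  obtain ⟨c2, d2, rfl⟩ := mem_sp.mp hl2
  rw [hv', e1] at f1
  rw [hv', e2] at f2
  have m1' := h.B_symm_zero m1
  have m2' := h.B_symm_zero m2
  have m3' := h.B_symm_zero m3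
  have m4' := h.B_symm_zero m4
  have g1 : h.B x1 (la1 h x1 x2 y1 y2 u) = 0 := n1
  have g2 : h.B x2 (la1 h x1 x2 y1 y2 u) = 0 := n2
  have g3 : h.B x1 (la2 h x1 x2 y1 y2 u) = 0 := q1
  have g4 : h.B x2 (la2 h x1 x2 y1 y2 u) = 0 := q2
  simp only [h.add_left, h.add_right, hsl, h.smul_right, m1', m2', m3', m4', g1, g2, g3, g4,
    hQ.a1, hQ.a2, hQ.a3, hQ.a4, hQ.c1, hQ.c2, hQ.c3, hQ.c4] at f1 f2
  have r1 : a = - h.B (la1 h x1 x2 y1 y2 u) v := by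
    rw [hsym (la1 h x1 x2 y1 y2 u) v]
    linear_combination f1
  have r2 : b = - h.B (la2 h x1 x2 y1 y2 u) v := by
    rw [hsym (la2 h x1 x2 y1 y2 u) v]
    linear_combination f2
  rw [hv', r1, r2]
  module

omit [Fact p.Prime] [Finite F] [CharP F p] [Finite V] in
/-- the coordinates of an image -/
private theorem ln_p4 (hD : LnD h p x1 x2 y1 y2 π) {u : V ≃ₗ[F] V}
    (hu : u ∈ h.RW (sp F x1 x2) (quad_ti hD.q)) {v : V} (hv : v ∈ perp4 h x1 x2 y1 y2) :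
    p4 h x1 x2 y1 y2 (u v) = v := by
  have hQ := q16 hD.o hD.q
  obtain ⟨-, -, k3⟩ := ln_form hD hu
  rw [k3 v hv]
  have e : v - h.B (la1 h x1 x2 y1 y2 u) v • x1 - h.B (la2 h x1 x2 y1 y2 u) v • x2 =
    v + ((-h.B (la1 h x1 x2 y1 y2 u) v) • x1 + (-h.B (la2 h x1 x2 y1 y2 u) v) • x2) := by
    module
  rw [e, p4_add, p4_id hv, p4_sp hQ (mem_sp.mpr ⟨_, _, rfl⟩), add_zero]

omit [Fact p.Prime] [Finite F] [CharP F p] [Finite V] in
theorem ln_mul (hD : LnD h p x1 x2 y1 y2 π) {u u' : V ≃ₗ[F] V}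
    (hu : u ∈ h.RW (sp F x1 x2) (quad_ti hD.q)) (hu' : u' ∈ h.RW (sp F x1 x2) (quad_ti hD.q)) :
    la1 h x1 x2 y1 y2 (u * u') = la1 h x1 x2 y1 y2 u + la1 h x1 x2 y1 y2 u' ∧
    la2 h x1 x2 y1 y2 (u * u') = la2 h x1 x2 y1 y2 u + la2 h x1 x2 y1 y2 u' := by
  have hQ := q16 hD.o hD.q
  obtain ⟨⟨l1, hl1, e1⟩, ⟨l2, hl2, e2⟩, -⟩ := ln_form hD hu'
  have hf := hu.2.1
  constructor
  · show p4 h x1 x2 y1 y2 (u (u' y1)) = _
    rw [e1, map_add, map_add, hf l1 hl1, p4_add, p4_add, p4_sp hQ hl1,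
      ln_p4 hD hu (v := la1 h x1 x2 y1 y2 u') (p4_mem hD.o hD.q _), add_zero]
    rfl
  · show p4 h x1 x2 y1 y2 (u (u' y2)) = _
    rw [e2, map_add, map_add, hf l2 hl2, p4_add, p4_add, p4_sp hQ hl2,
      ln_p4 hD hu (v := la2 h x1 x2 y1 y2 u') (p4_mem hD.o hD.q _), add_zero]
    rfl

omit [Fact p.Prime] [Finite F] [CharP F p] [Finite V] in
private theorem ln_iso (hD : LnD h p x1 x2 y1 y2 π) (g : Matrix.SpecialLinearGroup (Fin 2) F) :
    π g ∈ h.Iso := h.GG_le p (hD.le ⟨g, rfl⟩)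

omit [Fact p.Prime] [Finite F] [CharP F p] [Finite V] in
theorem ln_up_mem (hD : LnD h p x1 x2 y1 y2 π) (t : F) :
    π (up t) ∈ h.RW (sp F x1 x2) (quad_ti hD.q) := by
  refine ⟨ln_iso hD _, ?_, ?_⟩
  · intro w hw
    rw [ln_up hD, quad_ti hD.q x1 ln_l w hw, quad_ti hD.q x2 ln_r w hw]
    simp
  · intro v hv
    rw [ln_up hD, hv x1 ln_l, hv x2 ln_r]
    simp

omit [Fact p.Prime] [Finite F] [CharP F p] [Finite V] in
theorem ln_lo_mem (hD : LnD h p x1 x2 y1 y2 π) (t : F) :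
    π (lo t) ∈ h.RW (sp F y1 y2) (quad_ti' hD.q) := by
  refine ⟨ln_iso hD _, ?_, ?_⟩
  · intro w hw
    rw [ln_lo hD, quad_ti' hD.q y1 ln_l w hw, quad_ti' hD.q y2 ln_r w hw]
    simp
  · intro v hv
    rw [ln_lo hD, hv y1 ln_l, hv y2 ln_r]
    simp

omit [Finite F] [Fact p.Prime] in
private theorem ln_two (hp3 : 3 ≤ p) : (2 : F) ≠ 0 := by
  intro h0
  have h1 : ((2 : ℕ) : F) = 0 := by exact_mod_cast h0
  have h2 := (CharP.cast_eq_zero_iff F p 2).mp h1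
  have h3 := Nat.le_of_dvd (by norm_num) h2
  omega

omit [Finite F] [CharP F p] [Fact p.Prime] [Finite V] in
private theorem ln_ei (hD : LnD h p x1 x2 y1 y2 π) {x a : V} {t : F}
    (hx : x ∈ sp F x1 x2) (ha : ∀ w ∈ sp F x1 x2, h.B w a = 0) (ht : h.Adm a t) :
    ∃ g ∈ h.RW (sp F x1 x2) (quad_ti hD.q), ∀ v, g v = h.E x a t v := by
  obtain ⟨g, hg, hg'⟩ := h.exists_E (quad_ti hD.q x hx x hx) (ha x hx) ht
  refine ⟨g, ⟨hg.1, ?_, ?_⟩, hg'⟩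
  · intro w hw
    have e1 : h.B x w = 0 := quad_ti hD.q x hx w hw
    have e2 : h.B a w = 0 := h.B_symm_zero (ha w hw)
    rw [hg']
    simp only [HF.E, e1, e2]
    simp
  · intro v hv
    have e1 : h.B x v = 0 := hv x hx
    have e2 : g v - v = (-(h.ε * h.B a v)) • x := by
      rw [hg']
      simp only [HF.E, e1]
      module
    rw [e2]
    exact (sp F x1 x2).smul_mem _ hx

omit [Finite F] [Finite V] in
theorem ln_surj (hp3 : 3 ≤ p) (hD : LnD h p x1 x2 y1 y2 π) {a1 a2 : V}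
    (h1 : a1 ∈ perp4 h x1 x2 y1 y2) (h2 : a2 ∈ perp4 h x1 x2 y1 y2) :
    ∃ u ∈ h.RW (sp F x1 x2) (quad_ti hD.q),
      la1 h x1 x2 y1 y2 u = a1 ∧ la2 h x1 x2 y1 y2 u = a2 := by
  have hQ := q16 hD.o hD.q
  have hsl := o_sl hD.o
  have t0 : (2 : F) ≠ 0 := ln_two (p := p) hp3
  obtain ⟨t1, ht1⟩ := h.adm_exists t0 a1
  obtain ⟨t2, ht2⟩ := h.adm_exists t0 a2
  have ho : ∀ a ∈ perp4 h x1 x2 y1 y2, ∀ w ∈ sp F x1 x2, h.B w a = 0 := by
    intro a ha w hw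
    obtain ⟨c, d, rfl⟩ := mem_sp.mp hw
    simp only [h.add_left, hsl, ha.1, ha.2.1]
    ring
  obtain ⟨g1, hg1, hg1'⟩ := ln_ei hD (x := x1) ln_l (ho a1 h1) ht1
  obtain ⟨g2, hg2, hg2'⟩ := ln_ei hD (x := x2) ln_r (ho a2 h2) ht2
  obtain ⟨k1, k2⟩ := ln_mul hD hg1 hg2
  refine ⟨g1 * g2, Subgroup.mul_mem _ hg1 hg2, ?_, ?_⟩
  · rw [k1]
    have e1 : la1 h x1 x2 y1 y2 g1 = a1 := by
      unfold la1
      rw [hg1']
      have : h.E x1 a1 t1 y1 = y1 + a1 + ((-(h.ε * h.B a1 y1) + t1) • x1 + (0 : F) • x2) := by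
        simp only [HF.E, hQ.c1]
        module
      rw [this, p4_add, p4_add, p4_y1 hQ, p4_id h1, p4_sp hQ (mem_sp.mpr ⟨_, _, rfl⟩)]
      simp
    have e2 : la1 h x1 x2 y1 y2 g2 = 0 := by
      unfold la1
      rw [hg2']
      have : h.E x2 a2 t2 y1 = y1 + ((0 : F) • x1 + (-(h.ε * h.B a2 y1)) • x2) := by
        simp only [HF.E, hQ.c3]
        module
      rw [this, p4_add, p4_y1 hQ, p4_sp hQ (mem_sp.mpr ⟨_, _, rfl⟩)]
      simp
    rw [e1, e2, add_zero]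
  · rw [k2]
    have e1 : la2 h x1 x2 y1 y2 g1 = 0 := by
      unfold la2
      rw [hg1']
      have : h.E x1 a1 t1 y2 = y2 + ((-(h.ε * h.B a1 y2)) • x1 + (0 : F) • x2) := by
        simp only [HF.E, hQ.c2]
        module
      rw [this, p4_add, p4_y2 hQ, p4_sp hQ (mem_sp.mpr ⟨_, _, rfl⟩)]
      simp
    have e2 : la2 h x1 x2 y1 y2 g2 = a2 := by
      unfold la2
      rw [hg2']
      have : h.E x2 a2 t2 y2 = y2 + a2 + ((0 : F) • x1 + (-(h.ε * h.B a2 y2) + t2) • x2) := by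
        simp only [HF.E, hQ.c4]
        module
      rw [this, p4_add, p4_add, p4_y2 hQ, p4_id h2, p4_sp hQ (mem_sp.mpr ⟨_, _, rfl⟩)]
      simp
    rw [e1, e2, zero_add]

omit [Finite F] [Finite V] in
theorem ln_ker (hp3 : 3 ≤ p) (hD : LnD h p x1 x2 y1 y2 π) {u : V ≃ₗ[F] V}
    (hu : u ∈ h.RW (sp F x1 x2) (quad_ti hD.q)) (h1 : la1 h x1 x2 y1 y2 u = 0)
    (h2 : la2 h x1 x2 y1 y2 u = 0) : ∃ t, u = π (up t) := by
  have hQ := q16 hD.o hD.q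
  have hsl := o_sl hD.o
  have t0 : (2 : F) ≠ 0 := ln_two (p := p) hp3
  obtain ⟨⟨l1, hl1, e1⟩, ⟨l2, hl2, e2⟩, k3⟩ := ln_form hD hu
  obtain ⟨a, b, rfl⟩ := mem_sp.mp hl1
  obtain ⟨c, d, rfl⟩ := mem_sp.mp hl2
  rw [h1] at e1
  rw [h2] at e2
  obtain ⟨hI, hf, -⟩ := hu
  have f1 := hI y1 y1
  have f2 := hI y2 y2
  have f3 := hI y1 y2
  rw [e1, hQ.b1] at f1
  rw [e2, hQ.b4] at f2
  rw [e1, e2, hQ.b2] at f3
  simp only [h.add_left, h.add_right, hsl, h.smul_right, h.zero_left, h.zero_right, hQ.a1, hQ.a2,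
    hQ.a3, hQ.a4, hQ.b1, hQ.b2, hQ.b3, hQ.b4, hQ.c1, hQ.c2, hQ.c3, hQ.c4, hQ.d1, hQ.d2, hQ.d3,
    hQ.d4] at f1 f2 f3
  have r1 : a = 0 := by
    have : 2 * a = 0 := by linear_combination f1
    exact (mul_eq_zero.mp this).resolve_left t0
  have r2 : d = 0 := by
    have : 2 * d = 0 := by linear_combination f2
    exact (mul_eq_zero.mp this).resolve_left t0
  have r3 : c = - b := by linear_combination f3
  refine ⟨b, ?_⟩
  ext v
  rw [ln_up hD]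
  have hm := p4_mem hD.o hD.q v
  have e5 : u (p4 h x1 x2 y1 y2 v) = p4 h x1 x2 y1 y2 v := by
    rw [k3 _ hm, h1, h2, h.zero_left]
    module
  conv_lhs => rw [dec4 (h := h) x1 x2 y1 y2 v]
  rw [map_add, map_add, map_add, map_add, map_smul, map_smul, map_smul, map_smul, e5, e1, e2,
    hf x1 ln_l, hf x2 ln_r, r1, r2, r3]
  unfold p4
  module

omit [Finite F] [Finite V] in
private theorem ln_inv (hp3 : 3 ≤ p) (hD : LnD h p x1 x2 y1 y2 π) {u : V ≃ₗ[F] V}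
    (hu : u ∈ h.RW (sp F x1 x2) (quad_ti hD.q)) :
    la1 h x1 x2 y1 y2 u⁻¹ = - la1 h x1 x2 y1 y2 u ∧
      la2 h x1 x2 y1 y2 u⁻¹ = - la2 h x1 x2 y1 y2 u := by
  have hQ := q16 hD.o hD.q
  obtain ⟨k1, k2⟩ := ln_mul hD hu (Subgroup.inv_mem _ hu)
  rw [mul_inv_cancel] at k1 k2
  have e1 : la1 h x1 x2 y1 y2 (1 : V ≃ₗ[F] V) = 0 := p4_y1 hQ
  have e2 : la2 h x1 x2 y1 y2 (1 : V ≃ₗ[F] V) = 0 := p4_y2 hQ
  rw [e1] at k1
  rw [e2] at k2
  exact ⟨eq_neg_of_add_eq_zero_right k1.symm, eq_neg_of_add_eq_zero_right k2.symm⟩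

omit [Finite F] [Finite V] in
theorem ln_comm (hp3 : 3 ≤ p) (hD : LnD h p x1 x2 y1 y2 π) {u u' : V ≃ₗ[F] V}
    (hu : u ∈ h.RW (sp F x1 x2) (quad_ti hD.q)) (hu' : u' ∈ h.RW (sp F x1 x2) (quad_ti hD.q)) :
    u * u' * u⁻¹ * u'⁻¹ = π (up
      (h.B (la1 h x1 x2 y1 y2 u) (la2 h x1 x2 y1 y2 u') -
        h.B (la2 h x1 x2 y1 y2 u) (la1 h x1 x2 y1 y2 u'))) := by
  have hQ := q16 hD.o hD.q
  have hsym := o_sym hD.o
  have hui := Subgroup.inv_mem _ hu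
  have hui' := Subgroup.inv_mem _ hu'
  have huu := Subgroup.mul_mem _ hu hu'
  have huuu := Subgroup.mul_mem _ huu hui
  have hw := Subgroup.mul_mem _ huuu hui'
  obtain ⟨i1, i2⟩ := ln_inv hp3 hD hu
  obtain ⟨i1', i2'⟩ := ln_inv hp3 hD hu'
  obtain ⟨t, ht⟩ := ln_ker hp3 hD hw
    (by
      rw [(ln_mul hD huuu hui').1, (ln_mul hD huu hui).1, (ln_mul hD hu hu').1, i1, i1']
      abel)
    (by
      rw [(ln_mul hD huuu hui').2, (ln_mul hD huu hui).2, (ln_mul hD hu hu').2, i2, i2']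
      abel)
  have h1 : u * u' = π (up t) * (u' * u) := by
    rw [← ht]
    group
  have h2 : u (u' y1) = π (up t) (u' (u y1)) := by
    have := congrArg (fun g : V ≃ₗ[F] V => g y1) h1
    exact this
  rw [ln_up hD, (ln_x hD hu' _).1, (ln_x hD hu' _).2, (ln_x hD hu _).1, (ln_x hD hu _).2, hQ.c1,
    hQ.c3] at h2
  obtain ⟨⟨l1, hl1, e1⟩, -, k3⟩ := ln_form hD hu
  obtain ⟨⟨l1', hl1', e1'⟩, -, k3'⟩ := ln_form hD hu'
  have s1 := k3 (la1 h x1 x2 y1 y2 u') (p4_mem hD.o hD.q _)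
  have s2 := k3' (la1 h x1 x2 y1 y2 u) (p4_mem hD.o hD.q _)
  rw [e1', map_add, map_add, hu.2.1 l1' hl1', e1, map_add, map_add, hu'.2.1 l1 hl1, e1', s1, s2,
    hsym (la1 h x1 x2 y1 y2 u') (la1 h x1 x2 y1 y2 u)] at h2
  have h3 : (h.B (la2 h x1 x2 y1 y2 u') (la1 h x1 x2 y1 y2 u) -
      h.B (la2 h x1 x2 y1 y2 u) (la1 h x1 x2 y1 y2 u')) • x2 = t • x2 := by
    have h4 := sub_eq_zero.mpr h2
    rw [← sub_eq_zero, ← h4]
    module
  have h5 := congrArg (fun v => h.B y2 v) h3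
  simp only [h.smul_right, hQ.d4, mul_one] at h5
  rw [ht, ← h5, hsym (la2 h x1 x2 y1 y2 u') (la1 h x1 x2 y1 y2 u)]

omit [Finite F] [Finite V] in
private theorem ln_upinj (hD : LnD h p x1 x2 y1 y2 π) {s : F} (hs : π (up s) = 1) : s = 0 := by
  have hQ := q16 hD.o hD.q
  have h1 : π (up s) y1 = y1 := by
    rw [hs]; rfl
  rw [ln_up hD, hQ.c1, hQ.c3] at h1
  have h2 := congrArg (fun v => h.B y2 v) h1
  simp only [h.sub_right, h.add_right, h.smul_right, hQ.d4, hQ.d3, hQ.b3] at h2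
  linear_combination h2

omit [Finite F] [Finite V] in
theorem ln_cen (hp3 : 3 ≤ p) (hD : LnD h p x1 x2 y1 y2 π) {u : V ≃ₗ[F] V}
    (hu : u ∈ h.RW (sp F x1 x2) (quad_ti hD.q))
    (hc : ∀ u' ∈ h.RW (sp F x1 x2) (quad_ti hD.q), u * u' = u' * u) : ∃ t, u = π (up t) := by
  have key : ∀ a1 ∈ perp4 h x1 x2 y1 y2, ∀ a2 ∈ perp4 h x1 x2 y1 y2,
      h.B (la1 h x1 x2 y1 y2 u) a2 - h.B (la2 h x1 x2 y1 y2 u) a1 = 0 := by
    intro a1 h1 a2 h2
    obtain ⟨u', hu', e1, e2⟩ := ln_surj hp3 hD h1 h2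
    have h3 := ln_comm hp3 hD hu hu'
    rw [e1, e2, hc u' hu', mul_inv_cancel_right, mul_inv_cancel] at h3
    exact ln_upinj hD h3.symm
  have z0 : (0 : V) ∈ perp4 h x1 x2 y1 y2 := Submodule.zero_mem _
  apply ln_ker hp3 hD hu
  · have := perp4_nondeg hD.o hD.q ⟨la1 h x1 x2 y1 y2 u, p4_mem hD.o hD.q _⟩ (by
      intro w
      have h3 := key 0 z0 w w.2
      rw [h.zero_right, sub_zero] at h3
      exact h3)
    exact congrArg Subtype.val this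
  · have := perp4_nondeg hD.o hD.q ⟨la2 h x1 x2 y1 y2 u, p4_mem hD.o hD.q _⟩ (by
      intro w
      have h3 := key w w.2 0 z0
      rw [h.zero_right, zero_sub, neg_eq_zero] at h3
      exact h3)
    exact congrArg Subtype.val this

omit [Fact p.Prime] [Finite F] [CharP F p] [Finite V] in
theorem ln_line (hD : LnD h p x1 x2 y1 y2 π) {g : V ≃ₗ[F] V} (hg : g ∈ h.Iso)
    (hz : ∃ s, g * π (up 1) * g⁻¹ = π (up s)) : ∀ w ∈ sp F x1 x2, g w ∈ sp F x1 x2 := by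
  have hQ := q16 hD.o hD.q
  obtain ⟨s, hs⟩ := hz
  have hs' : g * π (up 1) = π (up s) * g := by
    rw [← hs]; group
  have key : ∀ v, g (π (up 1) v) = π (up s) (g v) := by
    intro v
    exact congrArg (fun k : V ≃ₗ[F] V => k v) hs'
  have k2 : g x2 ∈ sp F x1 x2 := by
    have h1 := key y1
    rw [ln_up hD, ln_up hD, hQ.c1, hQ.c3, map_sub, map_add, map_smul, map_smul] at h1
    refine mem_sp.mpr ⟨-(s * h.B x2 (g y1)), s * h.B x1 (g y1), ?_⟩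
    have h2 := sub_eq_zero.mpr h1
    rw [← sub_eq_zero, ← h2]
    module
  have k1 : g x1 ∈ sp F x1 x2 := by
    have h1 := key y2
    rw [ln_up hD, ln_up hD, hQ.c2, hQ.c4, map_sub, map_add, map_smul, map_smul] at h1
    refine mem_sp.mpr ⟨s * h.B x2 (g y2), -(s * h.B x1 (g y2)), ?_⟩
    have h2 := sub_eq_zero.mpr h1
    rw [← sub_eq_zero, ← neg_eq_zero, ← h2]
    module
  intro w hw
  obtain ⟨a, b, rfl⟩ := mem_sp.mp hw
  rw [map_add, map_smul, map_smul]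
  exact Submodule.add_mem _ (Submodule.smul_mem _ _ k1) (Submodule.smul_mem _ _ k2)

omit [Fact p.Prime] [Finite F] [CharP F p] in
private theorem ln_iff {W : Submodule F V} {g : V ≃ₗ[F] V} (hw : ∀ w ∈ W, g w ∈ W) (v : V) :
    g v ∈ W ↔ v ∈ W := by
  constructor
  · intro hv
    let f : W → W := fun w => ⟨g w, hw w w.2⟩
    have hf : Function.Injective f := by
      intro a b hab
      have := congrArg Subtype.val hab
      exact Subtype.ext (g.injective this)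
    obtain ⟨w, hw'⟩ := (Finite.injective_iff_surjective.mp hf) ⟨g v, hv⟩
    have h1 : g (w : V) = g v := congrArg Subtype.val hw'
    rw [← g.injective h1]
    exact w.2
  · exact hw v

omit [Fact p.Prime] [Finite F] [CharP F p] in
theorem ln_nm (hD : LnD h p x1 x2 y1 y2 π) {g : V ≃ₗ[F] V} (hg : g ∈ h.Iso)
    (hw : ∀ w ∈ sp F x1 x2, g w ∈ sp F x1 x2) (u : V ≃ₗ[F] V) :
    u ∈ h.RW (sp F x1 x2) (quad_ti hD.q) ↔ g * u * g⁻¹ ∈ h.RW (sp F x1 x2) (quad_ti hD.q) := by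
  have h1 := ln_iff hw
  have h2 : ∀ v, g⁻¹ v ∈ sp F x1 x2 ↔ v ∈ sp F x1 x2 := by
    intro v
    rw [← h1 (g⁻¹ v)]
    have : g (g⁻¹ v) = v := g.apply_symm_apply v
    rw [this]
  constructor
  · intro hu
    exact h.RW_conj hg h1 hu
  · intro hu
    have h3 := h.RW_conj (h.Iso.inv_mem hg) h2 hu
    have h4 : g⁻¹ * (g * u * g⁻¹) * g⁻¹⁻¹ = u := by group
    rwa [h4] at h3

omit [Fact p.Prime] [Finite F] [CharP F p] in
private theorem ln_act0 (hD : LnD h p x1 x2 y1 y2 π) {g : V ≃ₗ[F] V} (hg : g ∈ h.Iso)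
    {m11 m12 m21 m22 : F} (h1 : g x1 = m11 • x1 + m21 • x2) (h2 : g x2 = m12 • x1 + m22 • x2)
    {u : V ≃ₗ[F] V} (hu : u ∈ h.RW (sp F x1 x2) (quad_ti hD.q)) (y : V)
    (hy : p4 h x1 x2 y1 y2 y = 0) :
    p4 h x1 x2 y1 y2 (g (u (g⁻¹ y))) =
      h.B (g x1) y • p4 h x1 x2 y1 y2 (g (la1 h x1 x2 y1 y2 u)) +
        h.B (g x2) y • p4 h x1 x2 y1 y2 (g (la2 h x1 x2 y1 y2 u)) := by
  have hQ := q16 hD.o hD.q
  have hgW : ∀ w ∈ sp F x1 x2, g w ∈ sp F x1 x2 := by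
    intro w hw
    obtain ⟨a, b, rfl⟩ := mem_sp.mp hw
    rw [map_add, map_smul, map_smul, h1, h2]
    exact Submodule.add_mem _ (Submodule.smul_mem _ _ (mem_sp.mpr ⟨_, _, rfl⟩))
      (Submodule.smul_mem _ _ (mem_sp.mpr ⟨_, _, rfl⟩))
  have k2 : ∀ z, g (g⁻¹ z) = z := fun z => g.apply_symm_apply z
  set z := g⁻¹ y with hz
  have b1 : h.B x1 z = h.B (g x1) y := by
    have := hg x1 z
    rw [hz, k2] at this
    exact this.symm
  have b2 : h.B x2 z = h.B (g x2) y := by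
    have := hg x2 z
    rw [hz, k2] at this
    exact this.symm
  obtain ⟨⟨l1, hl1, e1⟩, ⟨l2, hl2, e2⟩, k3⟩ := ln_form hD hu
  have hm := p4_mem hD.o hD.q z
  set w : V := (-h.B (la1 h x1 x2 y1 y2 u) (p4 h x1 x2 y1 y2 z)) • x1 +
    (-h.B (la2 h x1 x2 y1 y2 u) (p4 h x1 x2 y1 y2 z)) • x2 +
    (h.B x1 z • l1 + h.B x2 z • l2) with hwdef
  have hwW : w ∈ sp F x1 x2 := Submodule.add_mem _ (mem_sp.mpr ⟨_, _, rfl⟩)
    (Submodule.add_mem _ (Submodule.smul_mem _ _ hl1) (Submodule.smul_mem _ _ hl2))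
  have e3 : u z = z + h.B x1 z • la1 h x1 x2 y1 y2 u + h.B x2 z • la2 h x1 x2 y1 y2 u + w := by
    have e4 : u z = u (p4 h x1 x2 y1 y2 z) + h.B y1 z • x1 + h.B y2 z • x2 +
        h.B x1 z • u y1 + h.B x2 z • u y2 := by
      conv_lhs => rw [dec4 (h := h) x1 x2 y1 y2 z]
      rw [map_add, map_add, map_add, map_add, map_smul, map_smul, map_smul, map_smul,
        hu.2.1 x1 ln_l, hu.2.1 x2 ln_r]
    have e5 : p4 h x1 x2 y1 y2 z = z - h.B y1 z • x1 - h.B y2 z • x2 - h.B x1 z • y1 -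
      h.B x2 z • y2 := rfl
    rw [e4, k3 _ hm, e1, e2, hwdef]
    generalize h.B (la1 h x1 x2 y1 y2 u) (p4 h x1 x2 y1 y2 z) = A
    generalize h.B (la2 h x1 x2 y1 y2 u) (p4 h x1 x2 y1 y2 z) = B
    rw [e5]
    module
  rw [e3, map_add, map_add, map_add, map_smul, map_smul, p4_add, p4_add, p4_add, p4_smul, p4_smul,
    p4_sp hQ (hgW w hwW), hz, k2, hy, ← hz, b1, b2]
  module

omit [Fact p.Prime] [Finite F] [CharP F p] in
/-- the action of the stabilizer of the line on the coordinates -/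
theorem ln_act (hD : LnD h p x1 x2 y1 y2 π) {g : V ≃ₗ[F] V} (hg : g ∈ h.Iso)
    {m11 m12 m21 m22 : F} (h1 : g x1 = m11 • x1 + m21 • x2) (h2 : g x2 = m12 • x1 + m22 • x2)
    {u : V ≃ₗ[F] V} (hu : u ∈ h.RW (sp F x1 x2) (quad_ti hD.q)) :
    la1 h x1 x2 y1 y2 (g * u * g⁻¹) =
      m11 • p4 h x1 x2 y1 y2 (g (la1 h x1 x2 y1 y2 u)) +
        m12 • p4 h x1 x2 y1 y2 (g (la2 h x1 x2 y1 y2 u)) ∧
    la2 h x1 x2 y1 y2 (g * u * g⁻¹) =
      m21 • p4 h x1 x2 y1 y2 (g (la1 h x1 x2 y1 y2 u)) +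
        m22 • p4 h x1 x2 y1 y2 (g (la2 h x1 x2 y1 y2 u)) := by
  have hQ := q16 hD.o hD.q
  have hsl := o_sl hD.o
  have k1 := ln_act0 hD hg h1 h2 hu y1 (p4_y1 hQ)
  have k2 := ln_act0 hD hg h1 h2 hu y2 (p4_y2 hQ)
  rw [h1, h2] at k1 k2
  simp only [h.add_left, hsl, hQ.c1, hQ.c2, hQ.c3, hQ.c4, mul_one, mul_zero, add_zero,
    zero_add] at k1 k2
  exact ⟨k1, k2⟩

omit [Fact p.Prime] [Finite F] [CharP F p] [Finite V] in
theorem ln_act_z (hD : LnD h p x1 x2 y1 y2 π) {g : V ≃ₗ[F] V} (hg : g ∈ h.Iso)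
    {m11 m12 m21 m22 : F} (h1 : g x1 = m11 • x1 + m21 • x2) (h2 : g x2 = m12 • x1 + m22 • x2)
    (t : F) : g * π (up t) * g⁻¹ = π (up ((m11 * m22 - m12 * m21) * t)) := by
  have hsl := o_sl hD.o
  have k2 : ∀ z, g (g⁻¹ z) = z := fun z => g.apply_symm_apply z
  ext v
  show g (π (up t) (g⁻¹ v)) = _
  have b1 : h.B x1 (g⁻¹ v) = h.B (g x1) v := by
    have := hg x1 (g⁻¹ v)
    rw [k2] at this
    exact this.symm
  have b2 : h.B x2 (g⁻¹ v) = h.B (g x2) v := by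
    have := hg x2 (g⁻¹ v)
    rw [k2] at this
    exact this.symm
  rw [ln_up hD, ln_up hD, map_sub, map_add, map_smul, map_smul, k2, b1, b2, h1, h2]
  simp only [h.add_left, hsl]
  module

end

end Pool.Agent.Helper54.OC
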