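import Pool.Agent.Helper54.OC.LnDefs
import Pool.Agent.Helper54.CL.Cw

/-!
# OC-26: orthogonal groups, the stabilizer of a totally isotropic line, second part

`W = sp x1 x2`, `W' = sp y1 y2`, `T = perp4`, `T ≠ 0` in `ln_faith`.

PROOF.
* `ln_faith`: `r x_k = ∑_i m_ik x_i`.  `ln_act`, `ln_surj` with `(a, 0)` and `(0, a)`, `a ∈ T`, `a ≠ 0`: `m21 p4 (r a) = 0`, `m12 p4 (r a) = 0`, `m11 p4 (r a) = a = m22 p4 (r a)`, so
  `m12 = m21 = 0`, `m11 = m22 = m ≠ 0`, `m p4 (r a) = a` for all `a ∈ T`; `ln_act_z`: `m² = 1`.  `u = m r` is an isometry, trivial on `W` and on `W^⊥ / W`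
  (`W^⊥ = W + T`).  `r = m u`.
* `ln_cent`: `π (dg c)` is a scalar on `W` and trivial on `T`; `r` preserves `W` and `W^⊥`.
* `ln_iU`: `u y_i = y_i + la_i u + l_i ∈ W'` gives `la_i u = 0`, `l_i = 0`, so `u = 1` (`ln_form`; on `T` by `ln_form` too).
* `ln_opp`: let `W1 = g W`.  (a) If there is `z ∈ W1`, `z ≠ 0`, `z ⊥ W`, we find `1 ≠ u ∈ RW W` with `u W1 ⊆ W1`.  If `z ∈ W`: `u = π (up 1)`; for `w ∈ W1`, `B(z, w) = 0`, and
  `π (up 1) w - w` is a multiple of `z` (`B(x1, w) x2 - B(x2, w) x1` is killed by the pairing with ... : write `z = α x1 + β x2`; `α B(x1,w) + β B(x2,w) = 0`).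
  If `z ∉ W`: let `z, w` be a basis of `W1`, `0 ≠ b ∈ W` with `B(b, w) = 0`; `u = E z b 0 : v ↦ v + B(z,v) b - B(b,v) z`; it fixes `z`, `w`, and is in `RW W`.
  (b) Otherwise the pairing of `W` and `W1` is nondegenerate, and `W1` has a basis `z1, z2` with `B(x_i, z_j) = δ_ij`; `z_i = y_i + a_i + l_i`, `a_i ∈ T`, `l_i ∈ W`.  By
  `ln_surj` there is `u0 ∈ RW W` with `la_i u0 = a_i`; `z_i - u0 y_i ∈ W`, `= α_i x1 + β_i x2`, and `B(z_i, z_j) = 0 = B(u0 y_i, u0 y_j)` gives `α_1 = β_2 = 0`, `α_2 = - β_1`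
  (characteristic not `2`): `z_i = π (up β_1) u0 y_i`.
* `ln_uv`: `π (up 1) y1 = y1 + x2 = π (lo 1) x2`, `π (up 1) y2 = y2 - x1 = - π (lo 1) x1`.
* `ln_gen`: `rad_gen` (CL/Rad.lean), `quad_dual`.
* `ln_syl`: `Q` a `p`-group of isometries, `finrank ≥ 5`.  (1) There is an isotropic `x1 ≠ 0` with `q x1 = x1` for all `q ∈ Q`: if `Q = 1` by `common_zero` (CL/Cw.lean, one form, `dim > 2`).
  If `Q ≠ 1` as in `pt_syl` (OC/PtPar.lean): let `Y` be the span of all `q v - v`, `q ∈ Q`.  It is invariant under `Q` and not zero, so it contains a vector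
  `x1 ≠ 0` fixed by the `p`-group `Q` (`IsPGroup.exists_fixed_point_of_prime_dvd_card_of_fixed_point`).  `x1 ⊥ Y` (`fixed_perp`), so `B x1 x1 = 0`.
  (2) Apply (1) to the image of `Q` under `psi` for `Pair x1 w1` on `perp2 x1 w1` (dimension `≥ 3`): `x2`, isotropic, orthogonal to `x1`, `q x2 ∈ x2 + ⟨x1⟩`.
  `exists_dual` (CL/PiFour.lean).
-/

set_option autoImplicit false

namespace Pool.Agent.Helper54.OC

open Pool.Agent.Helper54.CL

section
variable {F V : Type} [Field F] [AddCommGroup V] [Module F V] {h : HF F V}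

private theorem lnp_sym (hO : h.IsO) (a b : V) : h.B a b = h.B b a := by
  rw [h.herm b a, hO.1, hO.2, one_mul]

private theorem lnp_sl (hO : h.IsO) (c : F) (a b : V) : h.B (c • a) b = c * h.B a b := by
  rw [h.smul_left, hO.1]

/-- the table of values -/
private structure Tab (h : HF F V) (x1 x2 y1 y2 : V) : Prop where
  xx11 : h.B x1 x1 = 0
  xx12 : h.B x1 x2 = 0
  xx21 : h.B x2 x1 = 0
  xx22 : h.B x2 x2 = 0
  yy11 : h.B y1 y1 = 0
  yy12 : h.B y1 y2 = 0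
  yy21 : h.B y2 y1 = 0
  yy22 : h.B y2 y2 = 0
  xy11 : h.B x1 y1 = 1
  xy12 : h.B x1 y2 = 0
  xy21 : h.B x2 y1 = 0
  xy22 : h.B x2 y2 = 1
  yx11 : h.B y1 x1 = 1
  yx12 : h.B y1 x2 = 0
  yx21 : h.B y2 x1 = 0
  yx22 : h.B y2 x2 = 1

private theorem lnp_tab (hO : h.IsO) {x1 x2 y1 y2 : V} (hq : h.Quad x1 x2 y1 y2) :
    Tab h x1 x2 y1 y2 := by
  obtain ⟨p1, p2, vv, ww, vw, wv⟩ := hq
  have s := lnp_sym hO
  exact ⟨p1.xx, vv, by rw [s]; exact vv, p2.xx, p1.yy, ww, by rw [s]; exact ww, p2.yy, p1.xy, vw,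
    by rw [s]; exact wv, p2.xy, by rw [s]; exact p1.xy, wv, by rw [s]; exact vw,
    by rw [s]; exact p2.xy⟩

private theorem lnp_swap (hO : h.IsO) {x1 x2 y1 y2 : V} (hq : h.Quad x1 x2 y1 y2) :
    h.Quad y1 y2 x1 x2 := by
  have t := lnp_tab hO hq
  exact ⟨⟨t.yy11, t.xx11, t.yx11⟩, ⟨t.yy22, t.xx22, t.yx22⟩, t.yy12, t.xx12, t.yx12, t.xy12⟩

private theorem lnp_dec (x1 x2 y1 y2 v : V) :
    v = p4 h x1 x2 y1 y2 v + h.B y1 v • x1 + h.B y2 v • x2 + h.B x1 v • y1 + h.B x2 v • y2 := by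
  unfold p4
  abel

private theorem lnp_mem1 {x1 x2 : V} : x1 ∈ sp F x1 x2 := Submodule.subset_span (by simp)

private theorem lnp_mem2 {x1 x2 : V} : x2 ∈ sp F x1 x2 := Submodule.subset_span (by simp)

/-- vectors orthogonal to the plane -/
private theorem lnp_perp {x1 x2 v : V} (h1 : h.B x1 v = 0) (h2 : h.B x2 v = 0) :
    ∀ w ∈ sp F x1 x2, h.B w v = 0 := by
  intro w hw
  obtain ⟨a, b, rfl⟩ := mem_sp.1 hw
  rw [h.add_left, h.smul_left, h.smul_left, h1, h2, mul_zero, mul_zero, add_zero]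

/-- an element of `RW` which maps the other plane to itself is trivial -/
private theorem lnp_triv (hO : h.IsO) {x1 x2 y1 y2 : V} (hq : h.Quad x1 x2 y1 y2)
    {hti : ∀ v ∈ sp F x1 x2, ∀ w ∈ sp F x1 x2, h.B v w = 0} {u : V ≃ₗ[F] V}
    (hu : u ∈ h.RW (sp F x1 x2) hti) (hy : ∀ w ∈ sp F y1 y2, u w ∈ sp F y1 y2) : u = 1 := by
  have t := lnp_tab hO hq
  obtain ⟨hI, hu1, hu2⟩ := hu
  have hx1 : u x1 = x1 := hu1 _ lnp_mem1
  have hx2 : u x2 = x2 := hu1 _ lnp_mem2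
  have hy1 : u y1 = y1 := by
    obtain ⟨a, b, hab⟩ := mem_sp.1 (hy y1 lnp_mem1)
    have e1 := hI x1 y1
    have e2 := hI x2 y1
    rw [hx1, hab, h.add_right, h.smul_right, h.smul_right, t.xy11, t.xy12] at e1
    rw [hx2, hab, h.add_right, h.smul_right, h.smul_right, t.xy21, t.xy22] at e2
    have ha : a = 1 := by linear_combination e1
    have hb : b = 0 := by linear_combination e2
    rw [hab, ha, hb, one_smul, zero_smul, add_zero]
  have hy2 : u y2 = y2 := by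
    obtain ⟨a, b, hab⟩ := mem_sp.1 (hy y2 lnp_mem2)
    have e1 := hI x1 y2
    have e2 := hI x2 y2
    rw [hx1, hab, h.add_right, h.smul_right, h.smul_right, t.xy11, t.xy12] at e1
    rw [hx2, hab, h.add_right, h.smul_right, h.smul_right, t.xy21, t.xy22] at e2
    have ha : a = 0 := by linear_combination e1
    have hb : b = 1 := by linear_combination e2
    rw [hab, ha, hb, one_smul, zero_smul, zero_add]
  have hT : ∀ v ∈ perp4 h x1 x2 y1 y2, u v = v := by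
    intro v hv
    obtain ⟨v1, v2, v3, v4⟩ := hv
    obtain ⟨a, b, hab⟩ := mem_sp.1 (hu2 v (lnp_perp v1 v2))
    have huv : u v = v + (a • x1 + b • x2) := by rw [← hab]; abel
    have e1 := hI y1 v
    have e2 := hI y2 v
    rw [hy1, huv, h.add_right, h.add_right, h.smul_right, h.smul_right, t.yx11, t.yx12] at e1
    rw [hy2, huv, h.add_right, h.add_right, h.smul_right, h.smul_right, t.yx21, t.yx22] at e2
    have ha : a = 0 := by linear_combination e1
    have hb : b = 0 := by linear_combination e2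
    rw [huv, ha, hb, zero_smul, zero_smul, add_zero, add_zero]
  apply LinearEquiv.ext
  intro v
  show u v = v
  conv_lhs => rw [lnp_dec (h := h) x1 x2 y1 y2 v]
  conv_rhs => rw [lnp_dec (h := h) x1 x2 y1 y2 v]
  rw [map_add, map_add, map_add, map_add, map_smul, map_smul, map_smul, map_smul, hx1, hx2, hy1,
    hy2, hT _ (p4_mem hO hq v)]

end

section
variable {p : ℕ} [Fact p.Prime] {F V : Type} [Field F] [AddCommGroup V] [Module F V]

/-- a `p`-group of isometries which is not trivial has an isotropic fixed vector -/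
private theorem lnp_fixed [CharP F p] [Finite V] (h : HF F V) {Q : Subgroup (V ≃ₗ[F] V)}
    (hQ : IsPGroup p Q) (hQI : Q ≤ h.Iso) (hne : ∃ q ∈ Q, q ≠ 1) :
    ∃ z : V, z ≠ 0 ∧ h.B z z = 0 ∧ ∀ q ∈ Q, q z = z := by
  let Y : Submodule F V := Submodule.span F {w | ∃ q ∈ Q, ∃ v, w = q v - v}
  have hY : ∀ q ∈ Q, ∀ v ∈ Y, q v ∈ Y := by
    intro q hq v hv
    induction hv using Submodule.span_induction with
    | mem w hw =>
      obtain ⟨q', hq', v', rfl⟩ := hw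
      have e1 : q (q' v' - v') = ((q * q') v' - v') - (q v' - v') := by
        rw [map_sub]
        show q (q' v') - q v' = (q (q' v') - v') - (q v' - v')
        abel
      rw [e1]
      exact Submodule.sub_mem _ (Submodule.subset_span ⟨q * q', Q.mul_mem hq hq', v', rfl⟩)
        (Submodule.subset_span ⟨q, hq, v', rfl⟩)
    | zero => rw [map_zero]; exact Submodule.zero_mem _
    | add a b _ _ ha hb => rw [map_add]; exact Submodule.add_mem _ ha hb
    | smul c a _ ha => rw [map_smul]; exact Submodule.smul_mem _ _ ha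
  let _ : MulAction Q Y :=
    { smul := fun q v => ⟨(q : V ≃ₗ[F] V) (v : V), hY q q.2 v v.2⟩
      one_smul := fun v => Subtype.ext rfl
      mul_smul := fun a b v => Subtype.ext rfl }
  obtain ⟨q, hq, hq1⟩ := hne
  obtain ⟨v, hv⟩ : ∃ v, q v ≠ v := by
    by_contra hcon
    push Not at hcon
    exact hq1 (LinearEquiv.ext hcon)
  have hcard : p ∣ Nat.card Y := by
    let y : Y := ⟨q v - v, Submodule.subset_span ⟨q, hq, v, rfl⟩⟩
    have hy : y ≠ 0 := by
      intro h0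
      have h1 : q v - v = 0 := congrArg Subtype.val h0
      exact hv (sub_eq_zero.1 h1)
    have hy2 : p • y = 0 := by
      rw [← Nat.cast_smul_eq_nsmul F, CharP.cast_eq_zero, zero_smul]
    rw [← addOrderOf_eq_prime hy2 hy]
    exact addOrderOf_dvd_natCard y
  obtain ⟨z, hz, hz0⟩ := hQ.exists_fixed_point_of_prime_dvd_card_of_fixed_point Y hcard
    (a := (0 : Y)) (fun q => Subtype.ext (map_zero (q : V ≃ₗ[F] V)))
  have hzq : ∀ q ∈ Q, q (z : V) = z := fun q hq => congrArg Subtype.val (hz ⟨q, hq⟩)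
  have hzY : ∀ v ∈ Y, h.B (z : V) v = 0 := by
    intro v hv
    induction hv using Submodule.span_induction with
    | mem w hw =>
      obtain ⟨q', hq', v', rfl⟩ := hw
      exact h.fixed_perp (hQI hq') (hzq q' hq') v'
    | zero => exact h.zero_right _
    | add a b _ _ ha hb => rw [h.add_right, ha, hb, add_zero]
    | smul c a _ ha => rw [h.smul_right, ha, mul_zero]
  exact ⟨z, fun h0 => hz0 (Subtype.ext h0.symm), hzY _ z.2, hzq⟩

/-- a `p`-group of isometries of a symmetric form in dimension at least 3 has an isotropic fixed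
vector -/
private theorem lnp_fixed' [CharP F p] [Finite F] [Finite V] (h : HF F V) (hO : h.IsO)
    (h3 : 3 ≤ Module.finrank F V) {Q : Subgroup (V ≃ₗ[F] V)}
    (hQ : IsPGroup p Q) (hQI : Q ≤ h.Iso) :
    ∃ z : V, z ≠ 0 ∧ h.B z z = 0 ∧ ∀ q ∈ Q, q z = z := by
  by_cases hne : ∃ q ∈ Q, q ≠ 1
  · exact lnp_fixed h hQ hQI hne
  · push Not at hne
    haveI : FiniteDimensional F V := Module.Finite.of_finite
    let b : Unit → V →ₗ[F] V →ₗ[F] F := fun _ => LinearMap.mk₂ F (fun v w => h.B v w)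
      (fun a b c => h.add_left a b c) (fun c a b => lnp_sl hO c a b)
      (fun a b c => h.add_right a b c) (fun c a b => h.smul_right c a b)
    obtain ⟨v, hv0, hv⟩ := common_zero b (by rw [Fintype.card_unit]; omega)
    refine ⟨v, hv0, hv (), ?_⟩
    intro q hq
    rw [hne q hq]
    rfl

end

section
variable {p : ℕ} [Fact p.Prime] {F V : Type} [Field F] [Finite F] [CharP F p] [AddCommGroup V]
  [Module F V] [Finite V] {h : HF F V} {x1 x2 y1 y2 : V}
  {π : Matrix.SpecialLinearGroup (Fin 2) F →* (V ≃ₗ[F] V)}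

theorem ln_iU (hD : LnD h p x1 x2 y1 y2 π) {u : V ≃ₗ[F] V}
    (hu : u ∈ h.RW (sp F x1 x2) (quad_ti hD.q)) (hy : ∀ w ∈ sp F y1 y2, u w ∈ sp F y1 y2) :
    u = 1 := lnp_triv hD.o hD.q hu hy

theorem ln_iV (hD : LnD h p x1 x2 y1 y2 π) {u : V ≃ₗ[F] V}
    (hu : u ∈ h.RW (sp F y1 y2) (quad_ti' hD.q)) (hy : ∀ w ∈ sp F x1 x2, u w ∈ sp F x1 x2) :
    u = 1 := lnp_triv hD.o (lnp_swap hD.o hD.q) hu hy

theorem ln_uv (hD : LnD h p x1 x2 y1 y2 π) :
    ∀ w ∈ sp F y1 y2, ∃ w' ∈ sp F x1 x2, π (up 1) w = π (lo 1) w' := by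
  have t := lnp_tab hD.o hD.q
  intro w hw
  obtain ⟨a, b, rfl⟩ := mem_sp.1 hw
  refine ⟨-(b • x1) + a • x2, mem_sp.2 ⟨-b, a, by rw [neg_smul]⟩, ?_⟩
  have e1 : π (up 1) y1 = y1 + x2 := by
    rw [ln_up hD, t.xy11, t.xy21]; module
  have e2 : π (up 1) y2 = y2 - x1 := by
    rw [ln_up hD, t.xy12, t.xy22]; module
  have e3 : π (lo 1) x1 = x1 - y2 := by
    rw [ln_lo hD, t.yx11, t.yx21]; module
  have e4 : π (lo 1) x2 = x2 + y1 := by
    rw [ln_lo hD, t.yx12, t.yx22]; module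
  rw [map_add, map_smul, map_smul, map_add, map_neg, map_smul, map_smul, e1, e2, e3, e4]
  module

theorem ln_gen (hp5 : 5 ≤ p) (hD : LnD h p x1 x2 y1 y2 π) (h5 : 5 ≤ Module.finrank F V)
    {M : Subgroup (V ≃ₗ[F] V)} (h1 : h.RW (sp F x1 x2) (quad_ti hD.q) ≤ M)
    (h2 : h.RW (sp F y1 y2) (quad_ti' hD.q) ≤ M) : h.GG p ≤ M := by
  have hx0 : x1 ≠ 0 := hD.q.p1.x_ne
  refine h.rad_gen hp5 ⟨⟨x1, hx0, hD.q.p1.xx⟩, fun _ => Or.inr h5⟩ (quad_dual hD.q) ?_ h1 h2
  intro h0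
  have h3 : x1 ∈ sp F x1 x2 := lnp_mem1
  rw [h0] at h3
  exact hx0 ((Submodule.mem_bot F).1 h3)

theorem ln_syl (hp3 : 3 ≤ p) (hO : h.IsO) (h5 : 5 ≤ Module.finrank F V)
    {Q : Subgroup (V ≃ₗ[F] V)} (hQ : IsPGroup p Q) (hQI : Q ≤ h.Iso) :
    ∃ x1 x2 y1 y2 : V, h.Quad x1 x2 y1 y2 ∧ ∀ q ∈ Q, ∀ w ∈ sp F x1 x2, q w ∈ sp F x1 x2 := by
  haveI : FiniteDimensional F V := Module.Finite.of_finite
  have h22 : (2 : F) ≠ 0 := HF.two_ne hp3
  obtain ⟨x1, hx0, hxx, hx⟩ := lnp_fixed' h hO (by omega) hQ hQI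
  obtain ⟨w1, hp⟩ := h.exists_partner h22 hx0 hxx
  have hst : ∀ q ∈ Q, q ∈ h.stabX x1 := fun q hq => ⟨hQI hq, hx q hq⟩
  let Qb : Subgroup (h.perp2 x1 w1 ≃ₗ[F] h.perp2 x1 w1) :=
    (Q.subgroupOf (h.stabX x1)).map (h.psi hp)
  have hQb1 : IsPGroup p Qb := by
    rintro ⟨_, o, ho, rfl⟩
    obtain ⟨n, hn⟩ := hQ ⟨(o : V ≃ₗ[F] V), Subgroup.mem_subgroupOf.1 ho⟩
    refine ⟨n, ?_⟩
    apply Subtype.ext
    show (h.psi hp o) ^ p ^ n = 1
    rw [← map_pow]
    have h5 : (o : V ≃ₗ[F] V) ^ p ^ n = 1 := congrArg Subtype.val hn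
    have h3 : o ^ p ^ n = 1 := Subtype.ext h5
    rw [h3, map_one]
  have hQbI : Qb ≤ (h.restr hp).Iso := by
    rintro _ ⟨o, ho, rfl⟩
    exact h.psi_iso hp o
  have hr := h.finrank_perp2 hp
  obtain ⟨z, hz0, hzz, hz⟩ := lnp_fixed' (h.restr hp) ((h.restr_isO hp).2 hO) (by omega) hQb1 hQbI
  have hz1 : h.B x1 (z : V) = 0 := z.2.1
  have hz2 : h.B w1 (z : V) = 0 := z.2.2
  have hzV : (z : V) ≠ 0 := fun h0 => hz0 (Subtype.ext h0)
  obtain ⟨y1, y2, hq⟩ := h.exists_dual h22 hxx hzz hz1 hx0 (by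
    intro c hc
    rw [hc, h.smul_right, hp.yx, hO.2, mul_one] at hz2
    rw [hz2, zero_smul] at hc
    exact hzV hc)
  refine ⟨x1, (z : V), y1, y2, hq, ?_⟩
  intro q hq' w hw
  obtain ⟨a, b, rfl⟩ := mem_sp.1 hw
  obtain ⟨c, hc⟩ := h.psi_apply hp ⟨q, hst q hq'⟩ z
  have h6 : h.psi hp ⟨q, hst q hq'⟩ z = z := hz _ ⟨⟨q, hst q hq'⟩, Subgroup.mem_subgroupOf.2 hq', rfl⟩
  rw [h6] at hc
  have h7 : q (z : V) = (z : V) - c • x1 := by
    have hc' : (z : V) = q (z : V) + c • x1 := hc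
    rw [eq_sub_iff_add_eq]
    exact hc'.symm
  rw [map_add, map_smul, map_smul, hx q hq', h7]
  exact mem_sp.2 ⟨a - b * c, b, by module⟩

theorem ln_faith (hp3 : 3 ≤ p) (hD : LnD h p x1 x2 y1 y2 π) (h5 : 5 ≤ Module.finrank F V)
    {r : V ≃ₗ[F] V} (hr : r ∈ h.Iso) (hw : ∀ w ∈ sp F x1 x2, r w ∈ sp F x1 x2)
    (h1 : ∀ u ∈ h.RW (sp F x1 x2) (quad_ti hD.q),
      la1 h x1 x2 y1 y2 (r * u * r⁻¹) = la1 h x1 x2 y1 y2 u ∧
      la2 h x1 x2 y1 y2 (r * u * r⁻¹) = la2 h x1 x2 y1 y2 u)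
    (h2 : ∀ t, r * π (up t) * r⁻¹ = π (up t)) :
    ∃ u ∈ h.RW (sp F x1 x2) (quad_ti hD.q), ∃ l : F, l ≠ 0 ∧ ∀ v, r v = l • u v := by
  haveI : FiniteDimensional F V := Module.Finite.of_finite
  have t := lnp_tab hD.o hD.q
  obtain ⟨m11, m21, hm1⟩ := mem_sp.1 (hw x1 lnp_mem1)
  obtain ⟨m12, m22, hm2⟩ := mem_sp.1 (hw x2 lnp_mem2)
  have hp0 : p4 h x1 x2 y1 y2 (r 0) = 0 := by
    unfold p4
    rw [map_zero]
    simp [h.zero_right]
  have hA : ∀ a ∈ perp4 h x1 x2 y1 y2, m11 • p4 h x1 x2 y1 y2 (r a) = a ∧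
      m21 • p4 h x1 x2 y1 y2 (r a) = 0 := by
    intro a ha
    obtain ⟨u, hu, e1, e2⟩ := ln_surj hp3 hD ha (Submodule.zero_mem _)
    obtain ⟨e3, e4⟩ := ln_act hD hr hm1 hm2 hu
    obtain ⟨e5, e6⟩ := h1 u hu
    rw [e5, e1, e2, hp0, smul_zero, add_zero] at e3
    rw [e6, e1, e2, hp0, smul_zero, add_zero] at e4
    exact ⟨e3.symm, e4.symm⟩
  have hB : ∀ a ∈ perp4 h x1 x2 y1 y2, m12 • p4 h x1 x2 y1 y2 (r a) = 0 ∧
      m22 • p4 h x1 x2 y1 y2 (r a) = a := by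
    intro a ha
    obtain ⟨u, hu, e1, e2⟩ := ln_surj hp3 hD (Submodule.zero_mem _) ha
    obtain ⟨e3, e4⟩ := ln_act hD hr hm1 hm2 hu
    obtain ⟨e5, e6⟩ := h1 u hu
    rw [e5, e1, e2, hp0, smul_zero, zero_add] at e3
    rw [e6, e1, e2, hp0, smul_zero, zero_add] at e4
    exact ⟨e3.symm, e4.symm⟩
  have hfr := finrank_perp4 hD.o hD.q
  obtain ⟨a, ha0⟩ : ∃ a : perp4 h x1 x2 y1 y2, a ≠ 0 := by
    haveI : Nontrivial (perp4 h x1 x2 y1 y2) := by
      apply Module.nontrivial_of_finrank_pos (R := F)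
      omega
    exact exists_ne 0
  have haV : (a : V) ≠ 0 := fun h0 => ha0 (Subtype.ext h0)
  obtain ⟨f1, f2⟩ := hA a a.2
  obtain ⟨f3, f4⟩ := hB a a.2
  have hpa : p4 h x1 x2 y1 y2 (r (a : V)) ≠ 0 := by
    intro h0
    rw [h0, smul_zero] at f1
    exact haV f1.symm
  have g21 : m21 = 0 := (smul_eq_zero.1 f2).resolve_right hpa
  have g12 : m12 = 0 := (smul_eq_zero.1 f3).resolve_right hpa
  have g22 : m22 = m11 := by
    have h3 : (m22 - m11) • p4 h x1 x2 y1 y2 (r (a : V)) = 0 := by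
      rw [sub_smul, f1, f4, sub_self]
    exact sub_eq_zero.1 ((smul_eq_zero.1 h3).resolve_right hpa)
  subst g21 g12 g22
  have hx1 : r x1 = m22 • x1 := by rw [hm1, zero_smul, add_zero]
  have hx2 : r x2 = m22 • x2 := by rw [hm2, zero_smul, zero_add]
  have hmm : m22 * m22 = 1 := by
    have h3 := ln_act_z hD hr hm1 hm2 1
    rw [h2] at h3
    have h4 : π (up 1) y1 = π (up ((m22 * m22 - 0 * 0) * 1)) y1 := by rw [← h3]
    rw [ln_up hD, ln_up hD, t.xy11, t.xy21] at h4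
    have h5 : (1 - m22 * m22) • x2 = 0 := by
      have h6 : y1 + (1 * 1 : F) • x2 - (1 * 0 : F) • x1 -
        (y1 + ((m22 * m22 - 0 * 0) * 1 * 1) • x2 - ((m22 * m22 - 0 * 0) * 1 * 0) • x1) = 0 := by
        rw [h4, sub_self]
      rw [← h6]
      module
    rcases smul_eq_zero.1 h5 with h6 | h6
    · exact (sub_eq_zero.1 h6).symm
    · exact absurd h6 hD.q.p2.x_ne
  have hm0 : m22 ≠ 0 := by
    rintro rfl
    rw [zero_mul] at hmm
    exact zero_ne_one hmm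
  have hg : ∀ v, (LinearEquiv.smulOfNeZero F V m22 hm0 * r) v = m22 • r v := fun v => rfl
  have s := lnp_sym hD.o
  have hxr1 : ∀ v, h.B x1 (r v) = m22 * h.B x1 v := by
    intro v
    have h3 := hr x1 v
    rw [hx1, lnp_sl hD.o] at h3
    rw [← h3, ← mul_assoc, hmm, one_mul]
  have hxr2 : ∀ v, h.B x2 (r v) = m22 * h.B x2 v := by
    intro v
    have h3 := hr x2 v
    rw [hx2, lnp_sl hD.o] at h3
    rw [← h3, ← mul_assoc, hmm, one_mul]
  refine ⟨LinearEquiv.smulOfNeZero F V m22 hm0 * r, ⟨?_, ?_, ?_⟩, m22, hm0, ?_⟩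
  · intro v w
    rw [hg, hg, lnp_sl hD.o, h.smul_right, hr, ← mul_assoc, hmm, one_mul]
  · intro w hw'
    obtain ⟨a, b, rfl⟩ := mem_sp.1 hw'
    rw [hg, map_add, map_smul, map_smul, hx1, hx2, smul_add, smul_smul, smul_smul, smul_smul,
      smul_smul]
    have e1 : m22 * a * m22 = a := by linear_combination a * hmm
    have e2 : m22 * b * m22 = b := by linear_combination b * hmm
    rw [e1, e2]
  · intro v hv
    have hv1 := hv x1 lnp_mem1
    have hv2 := hv x2 lnp_mem2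
    obtain ⟨α, hα⟩ : ∃ α, α = h.B y1 v := ⟨_, rfl⟩
    obtain ⟨β, hβ⟩ : ∃ β, β = h.B y2 v := ⟨_, rfl⟩
    obtain ⟨c, hc⟩ : ∃ c, c = p4 h x1 x2 y1 y2 v := ⟨_, rfl⟩
    have hcm : c ∈ perp4 h x1 x2 y1 y2 := by rw [hc]; exact p4_mem hD.o hD.q v
    have e1 : v = c + α • x1 + β • x2 := by
      conv_lhs => rw [lnp_dec (h := h) x1 x2 y1 y2 v]
      rw [hv1, hv2, zero_smul, zero_smul, add_zero, add_zero, hc, hα, hβ]
    have e2 := lnp_dec (h := h) x1 x2 y1 y2 (r c)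
    rw [hxr1, hxr2, hcm.1, hcm.2.1, mul_zero, zero_smul, zero_smul, add_zero, add_zero] at e2
    have e3 : p4 h x1 x2 y1 y2 (r c) = m22 • c := by
      have h3 := (hA c hcm).1
      rw [← h3, smul_smul, hmm, one_smul, h3]
    rw [e3] at e2
    obtain ⟨γ, hγ⟩ : ∃ γ, γ = h.B y1 (r c) := ⟨_, rfl⟩
    obtain ⟨δ, hδ⟩ : ∃ δ, δ = h.B y2 (r c) := ⟨_, rfl⟩
    rw [← hγ, ← hδ] at e2
    rw [hg, e1, map_add, map_add, map_smul, map_smul, hx1, hx2, e2]
    have e4 : m22 • (m22 • c + γ • x1 + δ • x2 + α • m22 • x1 + β • m22 • x2) -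
        (c + α • x1 + β • x2) = (m22 * γ) • x1 + (m22 * δ) • x2 +
          (m22 * m22 - 1) • (c + α • x1 + β • x2) := by module
    rw [e4, hmm, sub_self, zero_smul, add_zero]
    exact mem_sp.2 ⟨_, _, rfl⟩
  · intro v
    rw [hg, smul_smul, hmm, one_smul]

theorem ln_cent (hp3 : 3 ≤ p) (hD : LnD h p x1 x2 y1 y2 π) {r : V ≃ₗ[F] V} (hr : r ∈ h.Iso)
    (hw : ∀ w ∈ sp F x1 x2, r w ∈ sp F x1 x2) (c : Fˣ) :
    π (dg c) * r * (π (dg c))⁻¹ * r⁻¹ ∈ h.RW (sp F x1 x2) (quad_ti hD.q) := by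
  have t := lnp_tab hD.o hD.q
  have hDI : π (dg c) ∈ h.Iso := h.GG_le p (hD.le ⟨_, rfl⟩)
  have hr1 : ∀ v, r (r⁻¹ v) = v := fun v => r.apply_symm_apply v
  have hr2 : ∀ v, r⁻¹ (r v) = v := fun v => r.symm_apply_apply v
  have hD1 : ∀ v, π (dg c) ((π (dg c))⁻¹ v) = v := fun v => (π (dg c)).apply_symm_apply v
  have hD2 : ∀ v, (π (dg c))⁻¹ (π (dg c) v) = v := fun v => (π (dg c)).symm_apply_apply v
  obtain ⟨d1, d2, -, -⟩ := ln_dg hD c
  have hc0 : (c : F) ≠ 0 := c.ne_zero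
  -- `D` on the plane
  have hDW : ∀ w ∈ sp F x1 x2, π (dg c) w = (c : F) • w := by
    intro w hw'
    obtain ⟨a, b, rfl⟩ := mem_sp.1 hw'
    rw [map_add, map_smul, map_smul, d1, d2]
    module
  have hDW' : ∀ w ∈ sp F x1 x2, (π (dg c))⁻¹ w = (c : F)⁻¹ • w := by
    intro w hw'
    have h3 := hDW _ ((sp F x1 x2).smul_mem (c : F)⁻¹ hw')
    rw [smul_smul, mul_inv_cancel₀ hc0, one_smul] at h3
    rw [← h3, hD2]
    rw [h3]
  -- `r⁻¹` preserves the plane
  have hrW : ∀ w ∈ sp F x1 x2, r⁻¹ w ∈ sp F x1 x2 := by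
    let f : sp F x1 x2 → sp F x1 x2 := fun w => ⟨r (w : V), hw w w.2⟩
    have hf : Function.Injective f := by
      intro a b hab
      exact Subtype.ext (r.injective (congrArg Subtype.val hab))
    have hs := Finite.surjective_of_injective hf
    intro w hw'
    obtain ⟨w', hw''⟩ := hs ⟨w, hw'⟩
    have h3 : r (w' : V) = w := congrArg Subtype.val hw''
    rw [← h3, hr2]
    exact w'.2
  have hrP : ∀ v, (∀ w ∈ sp F x1 x2, h.B w v = 0) → ∀ w ∈ sp F x1 x2, h.B w (r⁻¹ v) = 0 := by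
    intro v hv w hw'
    rw [← hr w (r⁻¹ v), hr1]
    exact hv _ (hw w hw')
  have hDP : ∀ v, (∀ w ∈ sp F x1 x2, h.B w v = 0) → ∃ w ∈ sp F x1 x2, π (dg c) v = v + w := by
    intro v hv
    have hv1 := hv x1 lnp_mem1
    have hv2 := hv x2 lnp_mem2
    obtain ⟨q1, q2, q3, q4⟩ := p4_mem hD.o hD.q v
    have e1 := hD.fx (dg c) _ q1 q2 q3 q4
    have e2 := lnp_dec (h := h) x1 x2 y1 y2 v
    rw [hv1, hv2, zero_smul, zero_smul, add_zero, add_zero] at e2
    refine ⟨((c : F) * h.B y1 v - h.B y1 v) • x1 + ((c : F) * h.B y2 v - h.B y2 v) • x2,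
      mem_sp.2 ⟨_, _, rfl⟩, ?_⟩
    obtain ⟨α, hα⟩ : ∃ α, α = h.B y1 v := ⟨_, rfl⟩
    obtain ⟨β, hβ⟩ : ∃ β, β = h.B y2 v := ⟨_, rfl⟩
    obtain ⟨e, he⟩ : ∃ e, e = p4 h x1 x2 y1 y2 v := ⟨_, rfl⟩
    rw [← hα, ← hβ, ← he] at e2
    rw [← he] at e1
    rw [← hα, ← hβ, e2, map_add, map_add, map_smul, map_smul, d1, d2, e1]
    module
  have hDP' : ∀ v, (∀ w ∈ sp F x1 x2, h.B w v = 0) →
      ∃ w ∈ sp F x1 x2, (π (dg c))⁻¹ v = v + w := by
    intro v hv
    obtain ⟨w, hw', hv'⟩ := hDP v hv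
    refine ⟨-((c : F)⁻¹ • w), (sp F x1 x2).neg_mem ((sp F x1 x2).smul_mem _ hw'), ?_⟩
    have h3 : v = π (dg c) (v + -((c : F)⁻¹ • w)) := by
      rw [map_add, map_neg, map_smul, hDW w hw', hv', smul_smul, inv_mul_cancel₀ hc0, one_smul]
      abel
    conv_lhs => rw [h3]
    rw [hD2]
  refine ⟨h.Iso.mul_mem (h.Iso.mul_mem (h.Iso.mul_mem hDI hr) (h.Iso.inv_mem hDI))
    (h.Iso.inv_mem hr), ?_, ?_⟩
  · intro w hw'
    show π (dg c) (r ((π (dg c))⁻¹ (r⁻¹ w))) = w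
    rw [hDW' _ (hrW w hw'), map_smul, hr1, map_smul, hDW w hw', smul_smul, inv_mul_cancel₀ hc0,
      one_smul]
  · intro v hv
    obtain ⟨w1, hw1, e1⟩ := hDP' _ (hrP v hv)
    obtain ⟨w2, hw2, e2⟩ := hDP v hv
    show π (dg c) (r ((π (dg c))⁻¹ (r⁻¹ v))) - v ∈ _
    rw [e1, map_add, hr1, map_add, e2, hDW _ (hw w1 hw1)]
    have e3 : v + w2 + (c : F) • r w1 - v = w2 + (c : F) • r w1 := by abel
    rw [e3]
    exact (sp F x1 x2).add_mem hw2 ((sp F x1 x2).smul_mem _ (hw w1 hw1))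

theorem ln_opp (hp3 : 3 ≤ p) (hD : LnD h p x1 x2 y1 y2 π) {g : V ≃ₗ[F] V} (hg : g ∈ h.Iso)
    (hu : ∀ u ∈ h.RW (sp F x1 x2) (quad_ti hD.q),
      (∀ w ∈ sp F x1 x2, ∃ w' ∈ sp F x1 x2, u (g w) = g w') → u = 1) :
    ∃ u ∈ h.RW (sp F x1 x2) (quad_ti hD.q), ∀ w ∈ sp F y1 y2, ∃ w' ∈ sp F x1 x2, u w = g w' := by
  have t := lnp_tab hD.o hD.q
  have s := lnp_sym hD.o
  have sl := lnp_sl hD.o
  have h22 : (2 : F) ≠ 0 := HF.two_ne hp3
  have hgg : ∀ v ∈ sp F x1 x2, ∀ w ∈ sp F x1 x2, h.B (g v) (g w) = 0 := by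
    intro v hv w hw
    rw [hg]
    exact quad_ti hD.q v hv w hw
  -- the Gram matrix
  let M : Matrix (Fin 2) (Fin 2) F := !![h.B x1 (g x1), h.B x1 (g x2); h.B x2 (g x1), h.B x2 (g x2)]
  have hMz : ∀ z ∈ sp F x1 x2, z ≠ 0 → h.B x1 (g z) = 0 → h.B x2 (g z) = 0 → False := by
    intro z hz hz0 hz1 hz2
    by_cases hzW : g z ∈ sp F x1 x2
    · -- `u = π (up 1)`
      have h3 := hu _ (ln_up_mem hD 1) (by
        intro w hw
        have e0 : h.B (g z) (g w) = 0 := hgg z hz w hw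
        obtain ⟨α, β, hαβ⟩ := mem_sp.1 hzW
        rw [hαβ, h.add_left, sl, sl] at e0
        have e1 : ∃ c : F, π (up 1) (g w) = g w + c • g z := by
          rw [ln_up hD]
          by_cases hα : α = 0
          · by_cases hβ : β = 0
            · exfalso
              rw [hα, hβ, zero_smul, zero_smul, add_zero] at hαβ
              exact hz0 (g.map_eq_zero_iff.1 hαβ)
            · rw [hα, zero_mul, zero_add] at e0
              have e2 : h.B x2 (g w) = 0 := (mul_eq_zero.1 e0).resolve_left hβ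
              refine ⟨β⁻¹ * h.B x1 (g w), ?_⟩
              rw [e2, hαβ, hα, zero_smul, zero_add, smul_smul]
              have e3 : β⁻¹ * h.B x1 (g w) * β = h.B x1 (g w) := by field_simp
              rw [e3]
              module
          · have e2 : h.B x1 (g w) = - (α⁻¹ * β * h.B x2 (g w)) := by
              field_simp
              linear_combination e0
            refine ⟨-(α⁻¹ * h.B x2 (g w)), ?_⟩
            rw [e2, hαβ]
            have e3 : -(α⁻¹ * h.B x2 (g w)) • (α • x1 + β • x2) =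
              -((α⁻¹ * α) * h.B x2 (g w)) • x1 - (α⁻¹ * β * h.B x2 (g w)) • x2 := by module
            rw [e3, inv_mul_cancel₀ hα]
            module
        obtain ⟨c, hc⟩ := e1
        refine ⟨w + c • z, (sp F x1 x2).add_mem hw ((sp F x1 x2).smul_mem _ hz), ?_⟩
        rw [hc, map_add, map_smul])
      have h4 : π (up 1) y1 = y1 := by rw [h3]; rfl
      rw [ln_up hD, t.xy11, t.xy21] at h4
      have h6 : x2 = 0 := by
        have h7 : y1 + (1 * 1 : F) • x2 - (1 * 0 : F) • x1 - y1 = 0 := by rw [h4, sub_self]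
        rw [← h7]
        module
      exact hD.q.p2.x_ne h6
    · -- `u = E z b 0`
      obtain ⟨b, hb, hb0, hbw⟩ : ∃ b ∈ sp F x1 x2, b ≠ 0 ∧ ∀ w ∈ sp F x1 x2, h.B b (g w) = 0 := by
        obtain ⟨γ, δ, hγδ⟩ := mem_sp.1 hz
        have hdet : M.det = 0 := by
          rw [← Matrix.exists_mulVec_eq_zero_iff]
          refine ⟨![γ, δ], ?_, ?_⟩
          · intro h0
            have h1 : γ = 0 := congrFun h0 0
            have h2 : δ = 0 := congrFun h0 1
            rw [h1, h2, zero_smul, zero_smul, add_zero] at hγδ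
            exact hz0 hγδ
          · rw [hγδ, map_add, map_smul, map_smul, h.add_right, h.smul_right, h.smul_right] at hz1 hz2
            ext i
            fin_cases i
            · simp [M, Matrix.mulVec, dotProduct, Fin.sum_univ_two]
              linear_combination hz1
            · simp [M, Matrix.mulVec, dotProduct, Fin.sum_univ_two]
              linear_combination hz2
        rw [← Matrix.exists_vecMul_eq_zero_iff] at hdet
        obtain ⟨v, hv0, hv⟩ := hdet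
        have hv1 := congrFun hv 0
        have hv2 := congrFun hv 1
        simp [M, Matrix.vecMul, dotProduct, Fin.sum_univ_two] at hv1 hv2
        refine ⟨v 0 • x1 + v 1 • x2, mem_sp.2 ⟨_, _, rfl⟩, ?_, ?_⟩
        · intro h0
          apply hv0
          have e1 : h.B y1 (v 0 • x1 + v 1 • x2) = 0 := by rw [h0, h.zero_right]
          have e2 : h.B y2 (v 0 • x1 + v 1 • x2) = 0 := by rw [h0, h.zero_right]
          rw [h.add_right, h.smul_right, h.smul_right, t.yx11, t.yx12] at e1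
          rw [h.add_right, h.smul_right, h.smul_right, t.yx21, t.yx22] at e2
          ext i
          fin_cases i
          · show v 0 = 0
            linear_combination e1
          · show v 1 = 0
            linear_combination e2
        · intro w hw
          obtain ⟨a, c, rfl⟩ := mem_sp.1 hw
          rw [map_add, map_smul, map_smul, h.add_left, h.add_right, h.add_right, sl, sl, sl, sl,
            h.smul_right, h.smul_right, h.smul_right, h.smul_right]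
          linear_combination a * hv1 + c * hv2
      have hzz : h.B (g z) (g z) = 0 := hgg z hz z hz
      have hzb : h.B (g z) b = 0 := by rw [s]; exact hbw z hz
      have hbb : h.B b b = 0 := quad_ti hD.q b hb b hb
      have hadm : h.Adm b 0 := by
        unfold HF.Adm
        rw [hbb, map_zero, mul_zero, add_zero, neg_zero]
      obtain ⟨u, hu1, hu2⟩ := h.exists_E hzz hzb hadm
      have huE : ∀ v, u v = v + h.B (g z) v • b - h.B b v • g z := by
        intro v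
        rw [hu2]
        unfold HF.E
        rw [hD.o.2, one_mul, zero_mul, zero_smul, add_zero]
      have hgzW : ∀ w ∈ sp F x1 x2, h.B (g z) w = 0 := by
        intro w hw
        rw [s]
        exact lnp_perp hz1 hz2 w hw
      have hmem : u ∈ h.RW (sp F x1 x2) (quad_ti hD.q) := by
        refine ⟨hu1.1, ?_, ?_⟩
        · intro w hw
          rw [huE, hgzW w hw, quad_ti hD.q b hb w hw, zero_smul, zero_smul, add_zero, sub_zero]
        · intro v hv
          rw [huE, hv b hb, zero_smul, sub_zero, add_sub_cancel_left]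
          exact (sp F x1 x2).smul_mem _ hb
      have h3 := hu u hmem (by
        intro w hw
        refine ⟨w, hw, ?_⟩
        rw [huE, hgg z hz w hw, hbw w hw, zero_smul, zero_smul, add_zero, sub_zero])
      obtain ⟨v, hv⟩ : ∃ v, h.B (g z) v ≠ 0 := by
        by_contra hcon
        push Not at hcon
        exact hz0 (g.map_eq_zero_iff.1 (h.nondeg _ hcon))
      have h4 : u v = v := by rw [h3]; rfl
      rw [huE, sub_eq_iff_eq_add, add_right_inj] at h4
      apply hzW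
      have h6 : h.B b v ≠ 0 := by
        intro h0
        rw [h0, zero_smul] at h4
        rcases smul_eq_zero.1 h4 with h7 | h7
        · exact hv h7
        · exact hb0 h7
      have h7 : g z = (h.B b v)⁻¹ • (h.B (g z) v • b) := by
        rw [h4, smul_smul, inv_mul_cancel₀ h6, one_smul]
      rw [h7]
      exact (sp F x1 x2).smul_mem _ ((sp F x1 x2).smul_mem _ hb)
  -- the Gram matrix is invertible
  have hdet : M.det ≠ 0 := by
    intro h0
    rw [← Matrix.exists_mulVec_eq_zero_iff] at h0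
    obtain ⟨v, hv0, hv⟩ := h0
    have hv1 := congrFun hv 0
    have hv2 := congrFun hv 1
    simp [M, Matrix.mulVec, dotProduct, Fin.sum_univ_two] at hv1 hv2
    refine hMz (v 0 • x1 + v 1 • x2) (mem_sp.2 ⟨_, _, rfl⟩) ?_ ?_ ?_
    · intro h0
      apply hv0
      have e1 : h.B y1 (v 0 • x1 + v 1 • x2) = 0 := by rw [h0, h.zero_right]
      have e2 : h.B y2 (v 0 • x1 + v 1 • x2) = 0 := by rw [h0, h.zero_right]
      rw [h.add_right, h.smul_right, h.smul_right, t.yx11, t.yx12] at e1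
      rw [h.add_right, h.smul_right, h.smul_right, t.yx21, t.yx22] at e2
      ext i
      fin_cases i
      · show v 0 = 0
        linear_combination e1
      · show v 1 = 0
        linear_combination e2
    · rw [map_add, map_smul, map_smul, h.add_right, h.smul_right, h.smul_right]
      linear_combination hv1
    · rw [map_add, map_smul, map_smul, h.add_right, h.smul_right, h.smul_right]
      linear_combination hv2
  have hM1 : M * M⁻¹ = 1 := Matrix.mul_nonsing_inv M (isUnit_iff_ne_zero.2 hdet)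
  obtain ⟨N, hN⟩ : ∃ N, N = M⁻¹ := ⟨_, rfl⟩
  rw [← hN] at hM1
  have m00 := congrFun (congrFun hM1 0) 0
  have m01 := congrFun (congrFun hM1 0) 1
  have m10 := congrFun (congrFun hM1 1) 0
  have m11 := congrFun (congrFun hM1 1) 1
  simp [M, Matrix.mul_apply, Fin.sum_univ_two] at m00 m01 m10 m11
  obtain ⟨w1, hw1⟩ : ∃ w1, w1 = N 0 0 • x1 + N 1 0 • x2 := ⟨_, rfl⟩
  obtain ⟨w2, hw2⟩ : ∃ w2, w2 = N 0 1 • x1 + N 1 1 • x2 := ⟨_, rfl⟩
  have hw1m : w1 ∈ sp F x1 x2 := mem_sp.2 ⟨_, _, hw1⟩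
  have hw2m : w2 ∈ sp F x1 x2 := mem_sp.2 ⟨_, _, hw2⟩
  have k11 : h.B x1 (g w1) = 1 := by
    rw [hw1, map_add, map_smul, map_smul, h.add_right, h.smul_right, h.smul_right]
    linear_combination m00
  have k21 : h.B x2 (g w1) = 0 := by
    rw [hw1, map_add, map_smul, map_smul, h.add_right, h.smul_right, h.smul_right]
    linear_combination m10
  have k12 : h.B x1 (g w2) = 0 := by
    rw [hw2, map_add, map_smul, map_smul, h.add_right, h.smul_right, h.smul_right]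
    linear_combination m01
  have k22 : h.B x2 (g w2) = 1 := by
    rw [hw2, map_add, map_smul, map_smul, h.add_right, h.smul_right, h.smul_right]
    linear_combination m11
  obtain ⟨u0, hu0, ha1, ha2⟩ := ln_surj hp3 hD (p4_mem hD.o hD.q (g w1)) (p4_mem hD.o hD.q (g w2))
  obtain ⟨⟨l1, hl1, e1⟩, ⟨l2, hl2, e2⟩, -⟩ := ln_form hD hu0
  rw [ha1] at e1
  rw [ha2] at e2
  have d1 := lnp_dec (h := h) x1 x2 y1 y2 (g w1)
  have d2 := lnp_dec (h := h) x1 x2 y1 y2 (g w2)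
  rw [k11, k21, one_smul, zero_smul, add_zero] at d1
  rw [k12, k22, one_smul, zero_smul, add_zero] at d2
  obtain ⟨α1, β1, f1⟩ : ∃ a b : F, g w1 = u0 y1 + (a • x1 + b • x2) := by
    obtain ⟨a, b, rfl⟩ := mem_sp.1 hl1
    refine ⟨h.B y1 (g w1) - a, h.B y2 (g w1) - b, ?_⟩
    obtain ⟨c1, hc1⟩ : ∃ c1, c1 = h.B y1 (g w1) := ⟨_, rfl⟩
    obtain ⟨c2, hc2⟩ : ∃ c2, c2 = h.B y2 (g w1) := ⟨_, rfl⟩
    obtain ⟨c3, hc3⟩ : ∃ c3, c3 = p4 h x1 x2 y1 y2 (g w1) := ⟨_, rfl⟩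
    rw [← hc1, ← hc2, ← hc3] at d1
    rw [← hc3] at e1
    rw [← hc1, ← hc2, e1, d1]
    module
  obtain ⟨α2, β2, f2⟩ : ∃ a b : F, g w2 = u0 y2 + (a • x1 + b • x2) := by
    obtain ⟨a, b, rfl⟩ := mem_sp.1 hl2
    refine ⟨h.B y1 (g w2) - a, h.B y2 (g w2) - b, ?_⟩
    obtain ⟨c1, hc1⟩ : ∃ c1, c1 = h.B y1 (g w2) := ⟨_, rfl⟩
    obtain ⟨c2, hc2⟩ : ∃ c2, c2 = h.B y2 (g w2) := ⟨_, rfl⟩
    obtain ⟨c3, hc3⟩ : ∃ c3, c3 = p4 h x1 x2 y1 y2 (g w2) := ⟨_, rfl⟩
    rw [← hc1, ← hc2, ← hc3] at d2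
    rw [← hc3] at e2
    rw [← hc1, ← hc2, e2, d2]
    module
  have hux1 : u0 x1 = x1 := hu0.2.1 _ lnp_mem1
  have hux2 : u0 x2 = x2 := hu0.2.1 _ lnp_mem2
  have hI := hu0.1
  have v11 : h.B x1 (u0 y1) = 1 := by
    have h3 := hI x1 y1
    rw [hux1, t.xy11] at h3
    exact h3
  have v12 : h.B x1 (u0 y2) = 0 := by
    have h3 := hI x1 y2
    rw [hux1, t.xy12] at h3
    exact h3
  have v21 : h.B x2 (u0 y1) = 0 := by
    have h3 := hI x2 y1
    rw [hux2, t.xy21] at h3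
    exact h3
  have v22 : h.B x2 (u0 y2) = 1 := by
    have h3 := hI x2 y2
    rw [hux2, t.xy22] at h3
    exact h3
  have v11' : h.B (u0 y1) x1 = 1 := by rw [s, v11]
  have v12' : h.B (u0 y2) x1 = 0 := by rw [s, v12]
  have v21' : h.B (u0 y1) x2 = 0 := by rw [s, v21]
  have v22' : h.B (u0 y2) x2 = 1 := by rw [s, v22]
  have z11 : h.B (u0 y1) (u0 y1) = 0 := by rw [hI, t.yy11]
  have z12 : h.B (u0 y1) (u0 y2) = 0 := by rw [hI, t.yy12]
  have z22 : h.B (u0 y2) (u0 y2) = 0 := by rw [hI, t.yy22]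
  have hα1 : α1 = 0 := by
    have h3 := hgg w1 hw1m w1 hw1m
    rw [f1] at h3
    simp only [h.add_left, h.add_right, sl, h.smul_right, v11, v21, v11', v21', z11, t.xx11,
      t.xx12, t.xx21, t.xx22] at h3
    have h4 : 2 * α1 = 0 := by linear_combination h3
    exact (mul_eq_zero.1 h4).resolve_left h22
  have hβ2 : β2 = 0 := by
    have h3 := hgg w2 hw2m w2 hw2m
    rw [f2] at h3
    simp only [h.add_left, h.add_right, sl, h.smul_right, v12, v22, v12', v22', z22, t.xx11,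
      t.xx12, t.xx21, t.xx22] at h3
    have h4 : 2 * β2 = 0 := by linear_combination h3
    exact (mul_eq_zero.1 h4).resolve_left h22
  have hα2 : α2 = - β1 := by
    have h3 := hgg w1 hw1m w2 hw2m
    rw [f1, f2] at h3
    simp only [h.add_left, h.add_right, sl, h.smul_right, v11, v12, v21, v22, v11', v21', v12',
      v22', z12, t.xx11, t.xx12, t.xx21, t.xx22] at h3
    linear_combination h3
  subst hα1 hβ2 hα2
  refine ⟨π (up β1) * u0, (h.RW _ (quad_ti hD.q)).mul_mem (ln_up_mem hD β1) hu0, ?_⟩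
  intro w hw
  obtain ⟨a, b, rfl⟩ := mem_sp.1 hw
  refine ⟨a • w1 + b • w2, (sp F x1 x2).add_mem ((sp F x1 x2).smul_mem _ hw1m)
    ((sp F x1 x2).smul_mem _ hw2m), ?_⟩
  have j1 : π (up β1) (u0 y1) = g w1 := by
    rw [ln_up hD, v11, v21, f1]
    module
  have j2 : π (up β1) (u0 y2) = g w2 := by
    rw [ln_up hD, v12, v22, f2]
    module
  show π (up β1) (u0 (a • y1 + b • y2)) = _
  rw [map_add, map_add, map_smul, map_smul, map_smul, map_smul, map_add, map_smul, map_smul, j1, j2]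

end

end Pool.Agent.Helper54.OC
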