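import Pool.Agent.Helper54.OC.Tens

/-!
# OC-29: the normalizer of `SL_2(F)` acting on `F² ⊗ T`

PROOF.  Let `0 ≠ t0 ∈ T`; `φ (t0, 0) ≠ 0`, so there is a linear form `λ : T → F` such that `(λ (φ (t0, 0)).1, λ (φ (t0, 0)).2) ≠ 0`.  Let
`b0 : F² → F²`, `b0 (v1, v2) = (λ × λ) (φ (v1 t0, v2 t0))`, linear, not zero; with `hN`: `b0 m = m' b0` for `m ∈ SL_2(F)` (`(v1 t0, v2 t0) ↦ ` : `tn m 1` acts on it as `m` on
`(v1, v2)`).  The kernel of `b0` is invariant under `SL_2(F)`, so it is zero (`!![1, t; 0, 1]`, `!![1, 0; t, 1]`), `b0` is invertible and `m' = b0 m b0⁻¹`.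
`ψ = (tn b0⁻¹ 1) ∘ φ` commutes with all `tn m 1`, `m ∈ SL_2(F)`; so `ψ = tn 1 k0` with `k0 ∈ GL(T)` (compare with `!![1, 1; 0, 1]`, `!![1, 0; 1, 1]`): `φ = tn b0 k0`.
`φ^p = 1`: `tn (b0^p) (k0^p) = 1`, so `b0^p = ν 1`, `k0^p = ν⁻¹`.  Let `s^p = ν` (`F` is finite of characteristic `p`), `b = s⁻¹ b0`, `k = s k0`: `φ = tn b k`, `b^p = 1`, `k^p = 1`,
`(det b)^p = 1`, so `det b = 1`.  For `e = (t, 0)`, `e' = (0, t')`: `om (φ e) (φ e') = (det b) B (k t) (k t') = B t t'`.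
-/

set_option autoImplicit false

namespace Pool.Agent.Helper54.OC

open Pool.Agent.Helper54.CL

private theorem tn_add {F T : Type} [Field F] [AddCommGroup T] [Module F T]
    (m : Matrix (Fin 2) (Fin 2) F) (k : T ≃ₗ[F] T) (e e' : T × T) :
    tn m k (e + e') = tn m k e + tn m k e' := by
  unfold tn
  simp only [Prod.fst_add, Prod.snd_add, map_add, smul_add, Prod.mk_add_mk, Prod.mk.injEq]
  constructor <;> abel

private theorem tn_one_one {F T : Type} [Field F] [AddCommGroup T] [Module F T] (e : T × T) :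
    tn (1 : Matrix (Fin 2) (Fin 2) F) (1 : T ≃ₗ[F] T) e = e := by
  unfold tn
  have h1 : ∀ v, (1 : T ≃ₗ[F] T) v = v := fun v => rfl
  simp [h1]

private theorem tn_pow {F T : Type} [Field F] [AddCommGroup T] [Module F T]
    {φ : (T × T) ≃ₗ[F] (T × T)} {b : Matrix (Fin 2) (Fin 2) F} {k : T ≃ₗ[F] T}
    (h : ∀ e, φ e = tn b k e) (n : ℕ) (e : T × T) : (φ ^ n) e = tn (b ^ n) (k ^ n) e := by
  induction n generalizing e with
  | zero =>
    rw [pow_zero, pow_zero, pow_zero, tn_one_one]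
    rfl
  | succ n ih =>
    rw [pow_succ, pow_succ, pow_succ, ← tn_tn, ← h, ← ih]
    rfl

/-- the first part: `φ = b ⊗ k` with a matrix `b` -/
private theorem split_aux {F T : Type} [Field F] [AddCommGroup T] [Module F T] [Finite T]
    {hT : HF F T} (ht : ∃ t : T, t ≠ 0) {φ : (T × T) ≃ₗ[F] (T × T)}
    (hN : ∀ m : Matrix.SpecialLinearGroup (Fin 2) F, ∃ m' : Matrix.SpecialLinearGroup (Fin 2) F,
      ∀ e, φ (tn (m : Matrix (Fin 2) (Fin 2) F) 1 e) = tn (m' : Matrix (Fin 2) (Fin 2) F) 1 (φ e)) :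
    ∃ (b : Matrix (Fin 2) (Fin 2) F) (k : T ≃ₗ[F] T), ∀ e, φ e = tn b k e := by
  obtain ⟨t0, ht0⟩ := ht
  -- the linear form
  have hφ0 : φ (t0, 0) ≠ 0 := by
    intro h
    have h1 : ((t0, 0) : T × T) = 0 := by
      apply φ.injective
      rw [h, map_zero]
    exact ht0 (congrArg Prod.fst h1)
  obtain ⟨y, hy⟩ : ∃ y, hT.B y (φ (t0, 0)).1 ≠ 0 ∨ hT.B y (φ (t0, 0)).2 ≠ 0 := by
    by_contra hcon
    push Not at hcon
    apply hφ0
    have h1 : (φ (t0, 0)).1 = 0 := hT.nondeg _ fun z => hT.B_symm_zero (hcon z).1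
    have h2 : (φ (t0, 0)).2 = 0 := hT.nondeg _ fun z => hT.B_symm_zero (hcon z).2
    exact Prod.ext h1 h2
  obtain ⟨b0, hb0⟩ : ∃ b0 : Matrix (Fin 2) (Fin 2) F, b0 =
    !![hT.B y (φ (t0, 0)).1, hT.B y (φ (0, t0)).1; hT.B y (φ (t0, 0)).2, hT.B y (φ (0, t0)).2] :=
    ⟨_, rfl⟩
  have hone : ∀ v, (1 : T ≃ₗ[F] T) v = v := fun v => rfl
  -- the intertwining relation
  have hint : ∀ m m' : Matrix (Fin 2) (Fin 2) F,
      (∀ e, φ (tn m 1 e) = tn m' 1 (φ e)) → b0 * m = m' * b0 := by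
    intro m m' hm
    have h1 : m 0 0 • φ (t0, 0) + m 1 0 • φ (0, t0) = tn m' 1 (φ (t0, 0)) := by
      rw [← hm, ← map_smul, ← map_smul, ← map_add]
      congr 1
      unfold tn
      simp [hone]
    have h2 : m 0 1 • φ (t0, 0) + m 1 1 • φ (0, t0) = tn m' 1 (φ (0, t0)) := by
      rw [← hm, ← map_smul, ← map_smul, ← map_add]
      congr 1
      unfold tn
      simp [hone]
    have h11 := congrArg (fun z => hT.B y z.1) h1
    have h12 := congrArg (fun z => hT.B y z.2) h1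
    have h21 := congrArg (fun z => hT.B y z.1) h2
    have h22 := congrArg (fun z => hT.B y z.2) h2
    simp only [tn, hone, Prod.fst_add, Prod.snd_add, Prod.smul_fst, Prod.smul_snd, hT.add_right,
      hT.smul_right] at h11 h12 h21 h22
    rw [hb0]
    ext i j
    fin_cases i <;> fin_cases j <;> simp [Matrix.mul_apply, Fin.sum_univ_two]
    · linear_combination h11
    · linear_combination h21
    · linear_combination h12
    · linear_combination h22
  -- `b0` is invertible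
  have hdet : b0.det ≠ 0 := by
    intro hd
    obtain ⟨m', hm'⟩ := hN ⟨!![1, 1; 0, 1], by simp [Matrix.det_fin_two]⟩
    have h1 := hint _ _ hm'
    have hker : ∀ v : Fin 2 → F, b0.mulVec v = 0 → v 1 • b0.mulVec ![1, 0] = 0 := by
      intro v hv
      have h2 : (b0 * !![1, 1; 0, 1]).mulVec v = 0 := by
        have h3 : b0 * !![1, 1; 0, 1] = (m' : Matrix (Fin 2) (Fin 2) F) * b0 := h1
        rw [h3, ← Matrix.mulVec_mulVec, hv, Matrix.mulVec_zero]
      rw [← Matrix.mulVec_mulVec] at h2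
      have h4 : (!![1, 1; 0, 1] : Matrix (Fin 2) (Fin 2) F).mulVec v = v + v 1 • ![1, 0] := by
        ext i
        fin_cases i <;> simp [Matrix.mulVec, dotProduct, Fin.sum_univ_two]
      rw [h4, Matrix.mulVec_add, hv, zero_add, Matrix.mulVec_smul] at h2
      exact h2
    have hcol : b0.mulVec ![1, 0] ≠ 0 := by
      intro h2
      have h3 := congrFun h2 0
      have h4 := congrFun h2 1
      rw [hb0] at h3 h4
      simp [Matrix.mulVec, dotProduct, Fin.sum_univ_two] at h3 h4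
      rcases hy with h5 | h5
      · exact h5 h3
      · exact h5 h4
    have hv1 : ∀ v : Fin 2 → F, b0.mulVec v = 0 → v 1 = 0 := by
      intro v hv
      rcases smul_eq_zero.1 (hker v hv) with h2 | h2
      · exact h2
      · exact absurd h2 hcol
    rw [Matrix.det_fin_two] at hd
    have h2 := hv1 ![b0 0 1, - b0 0 0] (by
      ext i
      fin_cases i
      · simp [Matrix.mulVec, dotProduct, Fin.sum_univ_two]
        ring
      · simp [Matrix.mulVec, dotProduct, Fin.sum_univ_two]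
        linear_combination -hd)
    have h3 := hv1 ![b0 1 1, - b0 1 0] (by
      ext i
      fin_cases i
      · simp [Matrix.mulVec, dotProduct, Fin.sum_univ_two]
        linear_combination hd
      · simp [Matrix.mulVec, dotProduct, Fin.sum_univ_two]
        ring)
    simp at h2 h3
    apply hcol
    ext i
    fin_cases i <;> simp [Matrix.mulVec, dotProduct, Fin.sum_univ_two, h2, h3]
  have hunit : IsUnit b0.det := isUnit_iff_ne_zero.2 hdet
  -- `ψ`
  obtain ⟨ψ, hψ⟩ : ∃ ψ : T × T → T × T, ∀ e, ψ e = tn b0⁻¹ 1 (φ e) := ⟨_, fun e => rfl⟩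
  have hψadd : ∀ e e', ψ (e + e') = ψ e + ψ e' := by
    intro e e'
    rw [hψ, hψ, hψ, map_add, tn_add]
  have hφψ : ∀ e, φ e = tn b0 1 (ψ e) := by
    intro e
    rw [hψ, tn_tn, Matrix.mul_nonsing_inv _ hunit, one_mul, tn_one_one]
  have hcomm : ∀ m : Matrix.SpecialLinearGroup (Fin 2) F, ∀ e,
      ψ (tn (m : Matrix (Fin 2) (Fin 2) F) 1 e) = tn (m : Matrix (Fin 2) (Fin 2) F) 1 (ψ e) := by
    intro m e
    obtain ⟨m', hm'⟩ := hN m
    have h1 := hint _ _ hm'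
    have h2 : b0⁻¹ * (m' : Matrix (Fin 2) (Fin 2) F) = (m : Matrix (Fin 2) (Fin 2) F) * b0⁻¹ := by
      have h3 : b0⁻¹ * ((m' : Matrix (Fin 2) (Fin 2) F) * b0) * b0⁻¹ =
          b0⁻¹ * (b0 * (m : Matrix (Fin 2) (Fin 2) F)) * b0⁻¹ := by rw [h1]
      rw [← Matrix.mul_assoc, Matrix.mul_assoc (b0⁻¹ * (m' : Matrix (Fin 2) (Fin 2) F)),
        Matrix.mul_nonsing_inv _ hunit, Matrix.mul_one, ← Matrix.mul_assoc b0⁻¹ b0,
        Matrix.nonsing_inv_mul _ hunit, Matrix.one_mul] at h3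
      exact h3
    rw [hψ, hψ, hm', tn_tn, tn_tn, h2]
  have hψ0 : ψ 0 = 0 := by
    have := hψadd 0 0
    rw [add_zero] at this
    exact left_eq_add.1 this
  have hup : ∀ t t' : T, ψ (t', 0) = ((ψ (t, t')).2, 0) := by
    intro t t'
    have h1 := hcomm ⟨!![1, 1; 0, 1], by simp [Matrix.det_fin_two]⟩ (t, t')
    have h2 : tn (!![1, 1; 0, 1] : Matrix (Fin 2) (Fin 2) F) 1 (t, t') = (t, t') + (t', 0) := by
      unfold tn
      simp [hone]
    have h3 : tn (!![1, 1; 0, 1] : Matrix (Fin 2) (Fin 2) F) 1 (ψ (t, t')) =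
        ψ (t, t') + ((ψ (t, t')).2, 0) := by
      unfold tn
      ext <;> simp [hone]
    change ψ (tn (!![1, 1; 0, 1] : Matrix (Fin 2) (Fin 2) F) 1 (t, t')) =
      tn (!![1, 1; 0, 1] : Matrix (Fin 2) (Fin 2) F) 1 (ψ (t, t')) at h1
    rw [h2, h3, hψadd] at h1
    exact add_left_cancel h1
  have hlow : ∀ t t' : T, ψ (0, t) = (0, (ψ (t, t')).1) := by
    intro t t'
    have h1 := hcomm ⟨!![1, 0; 1, 1], by simp [Matrix.det_fin_two]⟩ (t, t')
    have h2 : tn (!![1, 0; 1, 1] : Matrix (Fin 2) (Fin 2) F) 1 (t, t') = (t, t') + (0, t) := by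
      unfold tn
      simp [hone, add_comm]
    have h3 : tn (!![1, 0; 1, 1] : Matrix (Fin 2) (Fin 2) F) 1 (ψ (t, t')) =
        ψ (t, t') + (0, (ψ (t, t')).1) := by
      unfold tn
      ext <;> simp [hone, add_comm]
    change ψ (tn (!![1, 0; 1, 1] : Matrix (Fin 2) (Fin 2) F) 1 (t, t')) =
      tn (!![1, 0; 1, 1] : Matrix (Fin 2) (Fin 2) F) 1 (ψ (t, t')) at h1
    rw [h2, h3, hψadd] at h1
    exact add_left_cancel h1
  -- the map `k0`
  have hψsmul : ∀ (c : F) e, ψ (c • e) = c • ψ e := by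
    intro c e
    rw [hψ, hψ, map_smul]
    unfold tn
    simp only [Prod.smul_fst, Prod.smul_snd, map_smul, Prod.smul_mk, Prod.mk.injEq]
    constructor <;> module
  have hψinj : ∀ e e', ψ e = ψ e' → e = e' := by
    intro e e' h
    apply φ.injective
    rw [hφψ, hφψ, h]
  obtain ⟨K, hK⟩ : ∃ K : T →ₗ[F] T, ∀ t, K t = (ψ (t, 0)).1 := by
    refine ⟨{ toFun := fun t => (ψ (t, 0)).1, map_add' := ?_, map_smul' := ?_ }, fun t => rfl⟩
    · intro t t'
      have : ((t + t', 0) : T × T) = (t, 0) + (t', 0) := by simp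
      rw [this, hψadd]
      rfl
    · intro c t
      have : ((c • t, 0) : T × T) = c • (t, 0) := by simp
      rw [this, hψsmul]
      rfl
  have hK1 : ∀ t, ψ (t, 0) = (K t, 0) := by
    intro t
    have h1 := hup 0 t
    have h2 : (ψ (t, 0)).2 = 0 := by rw [h1]
    exact Prod.ext (hK t).symm h2
  have hK2 : ∀ t, ψ (0, t) = (0, K t) := by
    intro t
    rw [hlow t 0, hK]
  have hKinj : Function.Injective K := by
    intro t t' h
    have h1 : ψ (t, 0) = ψ (t', 0) := by rw [hK1, hK1, h]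
    exact congrArg Prod.fst (hψinj _ _ h1)
  obtain ⟨k0, hk0⟩ : ∃ k0 : T ≃ₗ[F] T, ∀ t, k0 t = K t :=
    ⟨LinearEquiv.ofBijective K ⟨hKinj, Finite.injective_iff_surjective.1 hKinj⟩, fun t => rfl⟩
  refine ⟨b0, k0, fun e => ?_⟩
  rw [hφψ]
  have h1 : ψ e = (k0 e.1, k0 e.2) := by
    have h2 : e = (e.1, 0) + (0, e.2) := by simp
    rw [h2, hψadd, hK1, hK2, hk0, hk0]
    simp
  rw [h1]
  unfold tn
  simp [hone]

theorem tens_split {p : ℕ} [Fact p.Prime] (hp3 : 3 ≤ p) {F T : Type} [Field F] [Finite F]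
    [CharP F p] [AddCommGroup T] [Module F T] [Finite T] {hT : HF F T} (ht : ∃ t : T, t ≠ 0)
    (hO : hT.IsO) {φ : (T × T) ≃ₗ[F] (T × T)} (hφ : φ ^ p = 1)
    (hN : ∀ m : Matrix.SpecialLinearGroup (Fin 2) F, ∃ m' : Matrix.SpecialLinearGroup (Fin 2) F,
      ∀ e, φ (tn (m : Matrix (Fin 2) (Fin 2) F) 1 e) = tn (m' : Matrix (Fin 2) (Fin 2) F) 1 (φ e))
    (hom : ∀ e e' : T × T, hT.B (φ e).1 (φ e').2 - hT.B (φ e).2 (φ e').1 =
      hT.B e.1 e'.2 - hT.B e.2 e'.1) :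
    ∃ (b : Matrix.SpecialLinearGroup (Fin 2) F) (k : T ≃ₗ[F] T), k ∈ hT.Iso ∧ k ^ p = 1 ∧
      ∀ e, φ e = tn (b : Matrix (Fin 2) (Fin 2) F) k e := by
  have hpp : p.Prime := Fact.out
  have hp0 : p ≠ 0 := hpp.ne_zero
  obtain ⟨b0, k0, h0⟩ := split_aux (hT := hT) ht hN
  obtain ⟨t0, ht0⟩ := ht
  have hpow : ∀ e, tn (b0 ^ p) (k0 ^ p) e = e := by
    intro e
    rw [← tn_pow h0, hφ]
    rfl
  have hk0 : (k0 ^ p) t0 ≠ 0 := by
    intro h
    exact ht0 ((k0 ^ p).injective (by rw [h, map_zero]))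
  have e1 : ∀ t, (b0 ^ p) 0 0 • (k0 ^ p) t = t ∧ (b0 ^ p) 1 0 • (k0 ^ p) t = 0 := by
    intro t
    have h1 := hpow (t, 0)
    unfold tn at h1
    simp only [map_zero, smul_zero, add_zero, Prod.mk.injEq] at h1
    exact h1
  have e2 : ∀ t, (b0 ^ p) 0 1 • (k0 ^ p) t = 0 ∧ (b0 ^ p) 1 1 • (k0 ^ p) t = t := by
    intro t
    have h1 := hpow (0, t)
    unfold tn at h1
    simp only [map_zero, smul_zero, zero_add, Prod.mk.injEq] at h1
    exact h1
  obtain ⟨ν, hν⟩ : ∃ ν, (b0 ^ p) 0 0 = ν := ⟨_, rfl⟩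
  have h10 : (b0 ^ p) 1 0 = 0 := (smul_eq_zero.1 (e1 t0).2).resolve_right hk0
  have h01 : (b0 ^ p) 0 1 = 0 := (smul_eq_zero.1 (e2 t0).1).resolve_right hk0
  have h11 : (b0 ^ p) 1 1 = ν := by
    have h1 : ((b0 ^ p) 1 1 - (b0 ^ p) 0 0) • (k0 ^ p) t0 = 0 := by
      rw [sub_smul, (e1 t0).1, (e2 t0).2, sub_self]
    rw [← hν]
    exact sub_eq_zero.1 ((smul_eq_zero.1 h1).resolve_right hk0)
  have hν0 : ν ≠ 0 := by
    intro h
    have h1 := (e1 t0).1
    rw [hν, h, zero_smul] at h1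
    exact ht0 h1.symm
  have hb0p : b0 ^ p = ν • (1 : Matrix (Fin 2) (Fin 2) F) := by
    ext i j
    fin_cases i <;> fin_cases j <;> simp [hν, h10, h01, h11]
  -- the `p`-th root
  obtain ⟨s, hs⟩ : ∃ s : F, s ^ p = ν := by
    have hinj : Function.Injective (fun x : F => x ^ p) := by
      intro x y hxy
      have h1 : (x - y) ^ p = 0 := by
        rw [sub_pow_char]
        exact sub_eq_zero.2 hxy
      exact sub_eq_zero.1 ((pow_eq_zero_iff hp0).1 h1)
    exact Finite.injective_iff_surjective.1 hinj ν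
  have hs0 : s ≠ 0 := by
    intro h
    rw [h, zero_pow hp0] at hs
    exact hν0 hs.symm
  have hbp : (s⁻¹ • b0) ^ p = 1 := by
    rw [smul_pow, hb0p, smul_smul, inv_pow, hs, inv_mul_cancel₀ hν0, one_smul]
  have hdet : (s⁻¹ • b0).det = 1 := by
    have h1 : (s⁻¹ • b0).det ^ p = 1 := by rw [← Matrix.det_pow, hbp, Matrix.det_one]
    have h2 : ((s⁻¹ • b0).det - 1) ^ p = 0 := by
      rw [sub_pow_char, h1, one_pow, sub_self]
    exact sub_eq_zero.1 ((pow_eq_zero_iff hp0).1 h2)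
  obtain ⟨k, hk⟩ : ∃ k : T ≃ₗ[F] T, ∀ t, k t = s • k0 t :=
    ⟨k0.trans (LinearEquiv.smulOfNeZero F T s hs0), fun t => rfl⟩
  have hkpow : ∀ (n : ℕ) t, (k ^ n) t = s ^ n • (k0 ^ n) t := by
    intro n
    induction n with
    | zero =>
      intro t
      rw [pow_zero, pow_zero, pow_zero, one_smul]
    | succ n ih =>
      intro t
      have h1 : (k ^ (n + 1)) t = (k ^ n) (k t) := by rw [pow_succ]; rfl
      have h2 : (k0 ^ (n + 1)) t = (k0 ^ n) (k0 t) := by rw [pow_succ]; rfl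
      rw [h1, ih, hk, map_smul, h2, smul_smul, pow_succ]
  have hφk : ∀ e, φ e = tn (s⁻¹ • b0) k e := by
    intro e
    rw [h0]
    unfold tn
    simp only [hk, Matrix.smul_apply, smul_eq_mul, smul_smul]
    have h1 : ∀ c : F, s⁻¹ * c * s = c := by
      intro c
      field_simp
    simp only [h1]
  refine ⟨⟨s⁻¹ • b0, hdet⟩, k, ?_, ?_, hφk⟩
  · intro t t'
    have h1 := hom (t, 0) (0, t')
    rw [hφk, hφk] at h1
    unfold tn at h1
    simp only [map_zero, smul_zero, add_zero, zero_add, hT.smul_right, hT.smul_left, hO.1,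
      hT.zero_left, sub_zero] at h1
    rw [Matrix.det_fin_two] at hdet
    have h2 : ((s⁻¹ • b0) 0 0 * (s⁻¹ • b0) 1 1 - (s⁻¹ • b0) 0 1 * (s⁻¹ • b0) 1 0) *
        hT.B (k t) (k t') = hT.B t t' := by linear_combination h1
    rw [hdet, one_mul] at h2
    exact h2
  · ext t
    rw [hkpow, hs, ← hν]
    exact (e1 t).1

end Pool.Agent.Helper54.OC
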