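import Pool.Agent.Helper54.OC.LnPar
import Pool.Agent.Helper54.OC.TensTwo

/-!
# OC-30: the condition `ts` for orthogonal groups

PROOF.  `T = perp4`, `T ≠ 0` (`finrank_perp4`), `E = T × T`.  The coordinates `u ↦ (la1 u, la2 u)` define a surjective homomorphism `RW W → E` with kernel `{π (up t)}`
(`ln_form`, `ln_mul`, `ln_surj`, `ln_ker`), `φ` is trivial on the kernel and induces an additive bijection `φ'` of `E`, `φ'^p = 1`, which preserves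
`om e e' = B e.1 e'.2 - B e.2 e'.1` (`ln_comm`); `om` is `F`-bilinear and nondegenerate (`perp4_nondeg`), so `φ'` is `F`-linear.  For `r ∈ GG` with `r W ⊆ W`, `r x_k = ∑_i m_ik x_i`,
let `ρ r = tn m k`, `k a = p4 (r a)` (an isometry of `T`); by `ln_act` these are the actions on the coordinates, `φ' (ρ r) φ'⁻¹ = ρ r'` by `hr`.  `I = {ρ r}`, a subgroup.
`I2`: the group `SL_2(F)` of `exists_delta`, `r x1 = a x1 + c x2`, `r x2 = b x1 + d x2`, for `!![a, b; c, d]`.  `I3`: `ext4 k` (`exists_ext4`).  By `tens_norm`, `tens_split`: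
`φ' = tn b k`, `k ∈ GG` (an isometry with `k^(p^1) = 1`).  `s = r⁻¹`, `r = δ b * ext4 k` (`δ` = the homomorphism of `exists_delta`), `ρ r = φ'`; `ln_act_z`, `det b = 1`.
-/

set_option autoImplicit false

namespace Pool.Agent.Helper54.OC

open Pool.Agent.Helper54.CL

section
variable {p : ℕ} [Fact p.Prime] {F V : Type} [Field F] [Finite F] [CharP F p] [AddCommGroup V]
  [Module F V] [Finite V] {h : HF F V} {x1 x2 y1 y2 : V}
  {π : Matrix.SpecialLinearGroup (Fin 2) F →* (V ≃ₗ[F] V)}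

/-- the coordinates of an element of `RW W` -/
private def cc (hD : LnD h p x1 x2 y1 y2 π) (u : V ≃ₗ[F] V) :
    perp4 h x1 x2 y1 y2 × perp4 h x1 x2 y1 y2 :=
  (⟨la1 h x1 x2 y1 y2 u, p4_mem hD.o hD.q _⟩, ⟨la2 h x1 x2 y1 y2 u, p4_mem hD.o hD.q _⟩)

omit [Fact p.Prime] [Finite F] [CharP F p] [Finite V] in
private theorem cc_mul (hD : LnD h p x1 x2 y1 y2 π) {u u' : V ≃ₗ[F] V}
    (hu : u ∈ h.RW (sp F x1 x2) (quad_ti hD.q)) (hu' : u' ∈ h.RW (sp F x1 x2) (quad_ti hD.q)) :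
    cc hD (u * u') = cc hD u + cc hD u' :=
  Prod.ext (Subtype.ext (ln_mul hD hu hu').1) (Subtype.ext (ln_mul hD hu hu').2)

omit [Fact p.Prime] [Finite F] [CharP F p] [Finite V] in
private theorem cc_one (hD : LnD h p x1 x2 y1 y2 π) : cc hD (1 : V ≃ₗ[F] V) = 0 := by
  have h1 := cc_mul hD (u := 1) (u' := 1) (Subgroup.one_mem _) (Subgroup.one_mem _)
  rw [mul_one] at h1
  exact (add_eq_left.mp h1.symm)

omit [Fact p.Prime] [Finite F] [CharP F p] [Finite V] in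
private theorem cc_inv (hD : LnD h p x1 x2 y1 y2 π) {u : V ≃ₗ[F] V}
    (hu : u ∈ h.RW (sp F x1 x2) (quad_ti hD.q)) : cc hD u⁻¹ = - cc hD u := by
  have h1 := cc_mul hD hu (Subgroup.inv_mem _ hu)
  rw [mul_inv_cancel, cc_one] at h1
  exact eq_neg_of_add_eq_zero_right h1.symm

omit [Finite F] [Finite V] in
private theorem cc_surj (hp3 : 3 ≤ p) (hD : LnD h p x1 x2 y1 y2 π)
    (e : perp4 h x1 x2 y1 y2 × perp4 h x1 x2 y1 y2) :
    ∃ u ∈ h.RW (sp F x1 x2) (quad_ti hD.q), cc hD u = e := by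
  obtain ⟨u, hu, h1, h2⟩ := ln_surj hp3 hD e.1.2 e.2.2
  exact ⟨u, hu, Prod.ext (Subtype.ext h1) (Subtype.ext h2)⟩

omit [Finite F] [Finite V] in
private theorem cc_ker (hp3 : 3 ≤ p) (hD : LnD h p x1 x2 y1 y2 π) {u : V ≃ₗ[F] V}
    (hu : u ∈ h.RW (sp F x1 x2) (quad_ti hD.q)) (h1 : cc hD u = 0) : ∃ t, u = π (up t) :=
  ln_ker hp3 hD hu (congrArg (fun e => (e.1 : V)) h1) (congrArg (fun e => (e.2 : V)) h1)

omit [Fact p.Prime] [Finite F] [CharP F p] [Finite V] in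
private theorem cc_up (hD : LnD h p x1 x2 y1 y2 π) (t : F) : cc hD (π (up t)) = 0 := by
  have hq := hD.q
  have c1 : h.B x1 y1 = 1 := hq.p1.xy
  have c2 : h.B x1 y2 = 0 := hq.vw
  have c3 : h.B x2 y1 = 0 := h.B_symm_zero hq.wv
  have c4 : h.B x2 y2 = 1 := hq.p2.xy
  have e0 : h.ε = 1 := hD.o.2
  have d1 : h.B y1 x1 = 1 := by rw [hq.p1.yx, e0]
  have d2 : h.B y1 x2 = 0 := hq.wv
  have d3 : h.B y2 x1 = 0 := h.B_symm_zero hq.vw
  have d4 : h.B y2 x2 = 1 := by rw [hq.p2.yx, e0]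
  have a1 : h.B x1 x1 = 0 := hq.p1.xx
  have a2 : h.B x1 x2 = 0 := hq.vv
  have a3 : h.B x2 x1 = 0 := h.B_symm_zero hq.vv
  have a4 : h.B x2 x2 = 0 := hq.p2.xx
  have b1 : h.B y1 y1 = 0 := hq.p1.yy
  have b2 : h.B y1 y2 = 0 := hq.ww
  have b3 : h.B y2 y1 = 0 := h.B_symm_zero hq.ww
  have b4 : h.B y2 y2 = 0 := hq.p2.yy
  refine Prod.ext (Subtype.ext ?_) (Subtype.ext ?_)
  · show p4 h x1 x2 y1 y2 (π (up t) y1) = 0
    rw [ln_up hD, c1, c3]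
    unfold p4
    simp only [h.sub_right, h.add_right, h.smul_right, c1, c3, d1, d2, d3, d4, a1, a2, a3, a4,
      b1, b3]
    module
  · show p4 h x1 x2 y1 y2 (π (up t) y2) = 0
    rw [ln_up hD, c2, c4]
    unfold p4
    simp only [h.sub_right, h.add_right, h.smul_right, c2, c4, d1, d2, d3, d4, a1, a2, a3, a4,
      b2, b4]
    module

omit [Fact p.Prime] [Finite F] [CharP F p] [Finite V] in
private theorem up_inj' (hD : LnD h p x1 x2 y1 y2 π) {s t : F} (hs : π (up s) = π (up t)) :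
    s = t := by
  have hq := hD.q
  have c1 : h.B x1 y1 = 1 := hq.p1.xy
  have c3 : h.B x2 y1 = 0 := h.B_symm_zero hq.wv
  have h1 : π (up s) y1 = π (up t) y1 := by rw [hs]
  rw [ln_up hD, ln_up hD, c1, c3] at h1
  simp only [mul_one, mul_zero, zero_smul, sub_zero, add_right_inj] at h1
  have h2 : (s - t) • x2 = 0 := by rw [sub_smul, h1, sub_self]
  rcases smul_eq_zero.mp h2 with h3 | h3
  · exact sub_eq_zero.mp h3
  · exact absurd h3 hq.p2.x_ne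

omit [Fact p.Prime] [Finite F] [CharP F p] in
private theorem st_inv {g : V ≃ₗ[F] V} {W : Submodule F V} (hw : ∀ w ∈ W, g w ∈ W) :
    ∀ w ∈ W, g⁻¹ w ∈ W := by
  intro v hv
  let f : W → W := fun w => ⟨g w, hw w w.2⟩
  have hf : Function.Injective f := by
    intro a b hab
    have := congrArg Subtype.val hab
    exact Subtype.ext (g.injective this)
  obtain ⟨w, hw'⟩ := (Finite.injective_iff_surjective.mp hf) ⟨v, hv⟩
  have h1 : g (w : V) = v := congrArg Subtype.val hw'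
  have h2 : g⁻¹ v = w := by
    rw [← h1]
    exact g.symm_apply_apply w
  rw [h2]
  exact w.2

omit [Fact p.Prime] [Finite F] [CharP F p] in
/-- the operator on the middle space -/
private theorem exists_k (hD : LnD h p x1 x2 y1 y2 π) {g : V ≃ₗ[F] V} (hg : g ∈ h.Iso)
    (hw : ∀ w ∈ sp F x1 x2, g w ∈ sp F x1 x2) :
    ∃ k : perp4 h x1 x2 y1 y2 ≃ₗ[F] perp4 h x1 x2 y1 y2, k ∈ (restr4 hD.o hD.q).Iso ∧
      ∀ a : perp4 h x1 x2 y1 y2, (k a : V) = p4 h x1 x2 y1 y2 (g a) := by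
  have hq := hD.q
  have hO := hD.o
  have hsl : ∀ (c : F) (x y : V), h.B (c • x) y = c * h.B x y := fun c x y => by
    rw [h.smul_left, hO.1]
  have hgi := st_inv hw
  have l1 : x1 ∈ sp F x1 x2 := mem_sp.mpr ⟨1, 0, by simp⟩
  have l2 : x2 ∈ sp F x1 x2 := mem_sp.mpr ⟨0, 1, by simp⟩
  have hWT : ∀ w ∈ sp F x1 x2, ∀ a ∈ perp4 h x1 x2 y1 y2, h.B w a = 0 := by
    intro w hw' a ha
    obtain ⟨c, d, rfl⟩ := mem_sp.mp hw'
    rw [h.add_left, hsl, hsl, ha.1, ha.2.1, mul_zero, mul_zero, add_zero]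
  have hTW : ∀ w ∈ sp F x1 x2, ∀ a ∈ perp4 h x1 x2 y1 y2, h.B a w = 0 :=
    fun w hw' a ha => h.B_symm_zero (hWT w hw' a ha)
  have hfm : ∀ a ∈ perp4 h x1 x2 y1 y2, ∃ w ∈ sp F x1 x2, g a = p4 h x1 x2 y1 y2 (g a) + w := by
    intro a ha
    have e : ∀ x ∈ sp F x1 x2, h.B x (g a) = 0 := by
      intro x hx
      have h1 := hg (g⁻¹ x) a
      have h2 : g (g⁻¹ x) = x := g.apply_symm_apply x
      rw [h2] at h1
      rw [h1]
      exact hWT _ (hgi x hx) a ha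
    refine ⟨h.B y1 (g a) • x1 + h.B y2 (g a) • x2, mem_sp.mpr ⟨_, _, rfl⟩, ?_⟩
    unfold p4
    rw [e x1 l1, e x2 l2]
    module
  let L : perp4 h x1 x2 y1 y2 →ₗ[F] perp4 h x1 x2 y1 y2 :=
    { toFun := fun a => ⟨p4 h x1 x2 y1 y2 (g a), p4_mem hO hq _⟩
      map_add' := by
        intro a b
        apply Subtype.ext
        show p4 h x1 x2 y1 y2 (g ((a : V) + (b : V))) =
          p4 h x1 x2 y1 y2 (g a) + p4 h x1 x2 y1 y2 (g b)
        unfold p4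
        simp only [map_add, h.add_right]
        module
      map_smul' := by
        intro c a
        apply Subtype.ext
        show p4 h x1 x2 y1 y2 (g (c • (a : V))) = c • p4 h x1 x2 y1 y2 (g a)
        unfold p4
        simp only [map_smul, h.smul_right]
        module }
  have hLv : ∀ a, ((L a : perp4 h x1 x2 y1 y2) : V) = p4 h x1 x2 y1 y2 (g a) := fun a => rfl
  have hL : ∀ a b : perp4 h x1 x2 y1 y2, h.B (L a : V) (L b : V) = h.B (a : V) (b : V) := by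
    intro a b
    obtain ⟨w, hw1, e1⟩ := hfm a a.2
    obtain ⟨w', hw2, e2⟩ := hfm b b.2
    have h1 := hg (a : V) (b : V)
    rw [e1, e2, h.add_left, h.add_right, h.add_right, quad_ti hq w hw1 w' hw2,
      hTW w' hw2 _ (p4_mem hO hq _), hWT w hw1 _ (p4_mem hO hq _), add_zero, add_zero,
      add_zero] at h1
    exact h1
  have hinj : Function.Injective L := by
    rw [injective_iff_map_eq_zero]
    intro a ha
    apply perp4_nondeg hO hq a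
    intro b
    rw [← hL a b, ha]
    exact h.zero_left _
  refine ⟨LinearEquiv.ofBijective L (Finite.injective_iff_bijective.mp hinj), ?_, fun a => rfl⟩
  intro a b
  exact hL a b

omit [Fact p.Prime] [Finite F] [CharP F p] in
private theorem act_eq (hD : LnD h p x1 x2 y1 y2 π) {g : V ≃ₗ[F] V} (hg : g ∈ h.Iso)
    {m : Matrix (Fin 2) (Fin 2) F} {k : perp4 h x1 x2 y1 y2 ≃ₗ[F] perp4 h x1 x2 y1 y2}
    (h1 : g x1 = m 0 0 • x1 + m 1 0 • x2) (h2 : g x2 = m 0 1 • x1 + m 1 1 • x2)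
    (hk : ∀ a : perp4 h x1 x2 y1 y2, (k a : V) = p4 h x1 x2 y1 y2 (g a)) {u : V ≃ₗ[F] V}
    (hu : u ∈ h.RW (sp F x1 x2) (quad_ti hD.q)) : cc hD (g * u * g⁻¹) = tn m k (cc hD u) := by
  obtain ⟨e1, e2⟩ := ln_act hD hg h1 h2 hu
  refine Prod.ext (Subtype.ext ?_) (Subtype.ext ?_)
  · show la1 h x1 x2 y1 y2 (g * u * g⁻¹) = m 0 0 • (k (cc hD u).1 : V) + m 0 1 • (k (cc hD u).2 : V)
    rw [hk, hk]
    exact e1
  · show la2 h x1 x2 y1 y2 (g * u * g⁻¹) = m 1 0 • (k (cc hD u).1 : V) + m 1 1 • (k (cc hD u).2 : V)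
    rw [hk, hk]
    exact e2

omit [Fact p.Prime] [Finite F] [CharP F p] in
private theorem act_tn (hD : LnD h p x1 x2 y1 y2 π) {g : V ≃ₗ[F] V} (hg : g ∈ h.Iso)
    (hw : ∀ w ∈ sp F x1 x2, g w ∈ sp F x1 x2) :
    ∃ (m : Matrix (Fin 2) (Fin 2) F) (k : perp4 h x1 x2 y1 y2 ≃ₗ[F] perp4 h x1 x2 y1 y2),
      k ∈ (restr4 hD.o hD.q).Iso ∧
      ∀ u ∈ h.RW (sp F x1 x2) (quad_ti hD.q), cc hD (g * u * g⁻¹) = tn m k (cc hD u) := by
  obtain ⟨k, hk, hk'⟩ := exists_k hD hg hw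
  obtain ⟨a, c, h1⟩ := mem_sp.mp (hw x1 (mem_sp.mpr ⟨1, 0, by simp⟩))
  obtain ⟨b, d, h2⟩ := mem_sp.mp (hw x2 (mem_sp.mpr ⟨0, 1, by simp⟩))
  refine ⟨!![a, b; c, d], k, hk, fun u hu => ?_⟩
  exact act_eq hD hg (m := !![a, b; c, d]) (by simpa using h1) (by simpa using h2) hk' hu

/-- `tn` as a linear map -/
private def tl {T : Type} [AddCommGroup T] [Module F T] (m : Matrix (Fin 2) (Fin 2) F)
    (k : T ≃ₗ[F] T) : (T × T) →ₗ[F] (T × T) where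
  toFun := tn m k
  map_add' := by
    intro a b
    unfold tn
    simp only [Prod.fst_add, Prod.snd_add, map_add, Prod.mk_add_mk, Prod.mk.injEq]
    constructor <;> module
  map_smul' := by
    intro c a
    unfold tn
    simp only [Prod.smul_fst, Prod.smul_snd, map_smul, Prod.smul_mk, Prod.mk.injEq,
      RingHom.id_apply]
    constructor <;> module

omit [Finite F] in
private theorem act_equiv (hp3 : 3 ≤ p) (hD : LnD h p x1 x2 y1 y2 π) {g : V ≃ₗ[F] V}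
    (hg : g ∈ h.Iso) (hw : ∀ w ∈ sp F x1 x2, g w ∈ sp F x1 x2) :
    ∃ i : (perp4 h x1 x2 y1 y2 × perp4 h x1 x2 y1 y2) ≃ₗ[F]
        (perp4 h x1 x2 y1 y2 × perp4 h x1 x2 y1 y2),
      ∀ u ∈ h.RW (sp F x1 x2) (quad_ti hD.q), i (cc hD u) = cc hD (g * u * g⁻¹) := by
  have hw' := st_inv hw
  obtain ⟨m, k, -, h1⟩ := act_tn hD hg hw
  obtain ⟨m', k', -, h2⟩ := act_tn hD (h.Iso.inv_mem hg) hw'
  have a1 : ∀ e, tn m' k' (tn m k e) = e := by
    intro e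
    obtain ⟨u, hu, rfl⟩ := cc_surj hp3 hD e
    rw [← h1 u hu, ← h2 _ ((ln_nm hD hg hw u).mp hu)]
    congr 1
    group
  have a2 : ∀ e, tn m k (tn m' k' e) = e := by
    intro e
    obtain ⟨u, hu, rfl⟩ := cc_surj hp3 hD e
    rw [← h2 u hu, ← h1 _ ((ln_nm hD (h.Iso.inv_mem hg) hw' u).mp hu)]
    congr 1
    group
  refine ⟨LinearEquiv.ofLinearMap (tl m k) (tl m' k') (LinearMap.ext a2) (LinearMap.ext a1), ?_⟩
  intro u hu
  exact (h1 u hu).symm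

omit [Fact p.Prime] [Finite F] [CharP F p] in
private theorem cc_conj_mem (hD : LnD h p x1 x2 y1 y2 π) {g u : V ≃ₗ[F] V} (hg : g ∈ h.Iso)
    (hw : ∀ w ∈ sp F x1 x2, g w ∈ sp F x1 x2) (hu : u ∈ h.RW (sp F x1 x2) (quad_ti hD.q)) :
    g * u * g⁻¹ ∈ h.RW (sp F x1 x2) (quad_ti hD.q) := (ln_nm hD hg hw u).mp hu

/-- the group of the actions of the stabilizer of the line on the coordinates -/
private def II (hD : LnD h p x1 x2 y1 y2 π) :
    Subgroup ((perp4 h x1 x2 y1 y2 × perp4 h x1 x2 y1 y2) ≃ₗ[F]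
        (perp4 h x1 x2 y1 y2 × perp4 h x1 x2 y1 y2)) where
  carrier := {i | ∃ r ∈ h.GG p, (∀ w ∈ sp F x1 x2, r w ∈ sp F x1 x2) ∧
    ∀ u ∈ h.RW (sp F x1 x2) (quad_ti hD.q), i (cc hD u) = cc hD (r * u * r⁻¹)}
  mul_mem' := by
    rintro i j ⟨r, hr, hrW, hi⟩ ⟨s, hs, hsW, hj⟩
    refine ⟨r * s, Subgroup.mul_mem _ hr hs, fun w hw => hrW _ (hsW w hw), fun u hu => ?_⟩
    show i (j (cc hD u)) = _
    have h5 : r * (s * u * s⁻¹) * r⁻¹ = (r * s) * u * (r * s)⁻¹ := by group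
    rw [hj u hu, hi _ (cc_conj_mem hD (h.GG_le p hs) hsW hu), h5]
  one_mem' := by
    refine ⟨1, Subgroup.one_mem _, fun w hw => hw, fun u _ => ?_⟩
    show cc hD u = _
    rw [one_mul, inv_one, mul_one]
  inv_mem' := by
    rintro i ⟨r, hr, hrW, hi⟩
    have hr' := Subgroup.inv_mem _ hr
    have hrW' := st_inv hrW
    refine ⟨r⁻¹, hr', hrW', fun u hu => ?_⟩
    have h1 := hi _ (cc_conj_mem hD (h.GG_le p hr') hrW' hu)
    have h2 : r * (r⁻¹ * u * r⁻¹⁻¹) * r⁻¹ = u := by group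
    rw [h2] at h1
    rw [← h1]
    exact i.symm_apply_apply _

omit [Finite F] in
private theorem exists_phi (hp3 : 3 ≤ p) (hD : LnD h p x1 x2 y1 y2 π)
    (φ : MulAut (h.RW (sp F x1 x2) (quad_ti hD.q)))
    (hz : ∀ t, ((φ ⟨π (up t), ln_up_mem hD t⟩ : h.RW (sp F x1 x2) (quad_ti hD.q)) :
      V ≃ₗ[F] V) = π (up t)) :
    ∃ ψ : (perp4 h x1 x2 y1 y2 × perp4 h x1 x2 y1 y2) ≃ₗ[F]
        (perp4 h x1 x2 y1 y2 × perp4 h x1 x2 y1 y2),
      (∀ u : h.RW (sp F x1 x2) (quad_ti hD.q),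
        ψ (cc hD (u : V ≃ₗ[F] V)) = cc hD (φ u : V ≃ₗ[F] V)) ∧
      (∀ e e', h.B ((ψ e).1 : V) ((ψ e').2 : V) - h.B ((ψ e).2 : V) ((ψ e').1 : V) =
        h.B (e.1 : V) (e'.2 : V) - h.B (e.2 : V) (e'.1 : V)) := by
  have hsl : ∀ (c : F) (x y : V), h.B (c • x) y = c * h.B x y := fun c x y => by
    rw [h.smul_left, hD.o.1]
  choose sec hsec hsec' using cc_surj hp3 hD
  have wd : ∀ u v : h.RW (sp F x1 x2) (quad_ti hD.q),
      cc hD (u : V ≃ₗ[F] V) = cc hD (v : V ≃ₗ[F] V) →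
      cc hD (φ u : V ≃ₗ[F] V) = cc hD (φ v : V ≃ₗ[F] V) := by
    intro u v huv
    have h1 : cc hD ((u : V ≃ₗ[F] V)⁻¹ * (v : V ≃ₗ[F] V)) = 0 := by
      rw [cc_mul hD (Subgroup.inv_mem _ u.2) v.2, cc_inv hD u.2, huv, neg_add_cancel]
    obtain ⟨t, ht⟩ := cc_ker hp3 hD (Subgroup.mul_mem _ (Subgroup.inv_mem _ u.2) v.2) h1
    have h2 : u⁻¹ * v = ⟨π (up t), ln_up_mem hD t⟩ := Subtype.ext ht
    have h3 : v = u * ⟨π (up t), ln_up_mem hD t⟩ := by rw [← h2]; group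
    have h4 : (φ v : V ≃ₗ[F] V) = (φ u : V ≃ₗ[F] V) * π (up t) := by
      rw [h3, map_mul, Subgroup.coe_mul, hz]
    rw [h4, cc_mul hD (φ u).2 (ln_up_mem hD t), cc_up, add_zero]
  let f : (perp4 h x1 x2 y1 y2 × perp4 h x1 x2 y1 y2) →
      (perp4 h x1 x2 y1 y2 × perp4 h x1 x2 y1 y2) := fun e =>
    cc hD (φ ⟨sec e, hsec e⟩ : V ≃ₗ[F] V)
  have hf : ∀ u : h.RW (sp F x1 x2) (quad_ti hD.q),
      f (cc hD (u : V ≃ₗ[F] V)) = cc hD (φ u : V ≃ₗ[F] V) := by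
    intro u
    exact wd ⟨sec (cc hD (u : V ≃ₗ[F] V)), hsec _⟩ u (hsec' _)
  have hadd : ∀ e e', f (e + e') = f e + f e' := by
    intro e e'
    obtain ⟨u, hu, rfl⟩ := cc_surj hp3 hD e
    obtain ⟨u', hu', rfl⟩ := cc_surj hp3 hD e'
    have h1 := hf (⟨u, hu⟩ * ⟨u', hu'⟩)
    rw [map_mul, Subgroup.coe_mul, Subgroup.coe_mul, cc_mul hD hu hu',
      cc_mul hD (φ ⟨u, hu⟩).2 (φ ⟨u', hu'⟩).2] at h1
    rw [h1, hf ⟨u, hu⟩, hf ⟨u', hu'⟩]
  have hsurj : Function.Surjective f := by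
    intro e
    obtain ⟨u, hu, rfl⟩ := cc_surj hp3 hD e
    refine ⟨cc hD (φ.symm ⟨u, hu⟩ : V ≃ₗ[F] V), ?_⟩
    rw [hf, MulEquiv.apply_symm_apply]
  have hbij : Function.Bijective f := Finite.surjective_iff_bijective.mp hsurj
  have hom : ∀ e e', h.B ((f e).1 : V) ((f e').2 : V) - h.B ((f e).2 : V) ((f e').1 : V) =
        h.B (e.1 : V) (e'.2 : V) - h.B (e.2 : V) (e'.1 : V) := by
    intro e e'
    obtain ⟨u, hu, rfl⟩ := cc_surj hp3 hD e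
    obtain ⟨u', hu', rfl⟩ := cc_surj hp3 hD e'
    have h1 := ln_comm hp3 hD hu hu'
    have h2 := ln_comm hp3 hD (φ ⟨u, hu⟩).2 (φ ⟨u', hu'⟩).2
    have h3 : (⟨u, hu⟩ : h.RW (sp F x1 x2) (quad_ti hD.q)) * ⟨u', hu'⟩ * ⟨u, hu⟩⁻¹ *
        ⟨u', hu'⟩⁻¹ = ⟨π (up (h.B (la1 h x1 x2 y1 y2 u) (la2 h x1 x2 y1 y2 u') -
        h.B (la2 h x1 x2 y1 y2 u) (la1 h x1 x2 y1 y2 u'))), ln_up_mem hD _⟩ := Subtype.ext h1
    have h4 := congrArg (fun w => ((φ w : h.RW (sp F x1 x2) (quad_ti hD.q)) : V ≃ₗ[F] V)) h3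
    rw [hz, map_mul, map_mul, map_mul, map_inv, map_inv] at h4
    have h5 := up_inj' hD (h2.symm.trans h4)
    rw [hf ⟨u, hu⟩, hf ⟨u', hu'⟩]
    exact h5
  have hnd : ∀ e : perp4 h x1 x2 y1 y2 × perp4 h x1 x2 y1 y2,
      (∀ e', h.B (e.1 : V) ((f e').2 : V) - h.B (e.2 : V) ((f e').1 : V) = 0) → e = 0 := by
    intro e he
    have he' : ∀ a b : perp4 h x1 x2 y1 y2, h.B (e.1 : V) (b : V) - h.B (e.2 : V) (a : V) = 0 := by
      intro a b
      obtain ⟨e', h1⟩ := hsurj (a, b)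
      have h2 := he e'
      rw [h1] at h2
      exact h2
    refine Prod.ext ?_ ?_
    · apply perp4_nondeg hD.o hD.q
      intro w
      have := he' 0 w
      rw [Submodule.coe_zero, h.zero_right, sub_zero] at this
      exact this
    · apply perp4_nondeg hD.o hD.q
      intro w
      have := he' w 0
      rw [Submodule.coe_zero, h.zero_right, zero_sub, neg_eq_zero] at this
      exact this
  have hsmul : ∀ (c : F) e, f (c • e) = c • f e := by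
    intro c e
    rw [← sub_eq_zero]
    apply hnd
    intro e'
    have h1 := hom (c • e) e'
    have h2 := hom e e'
    have e1 : ((c • e).1 : perp4 h x1 x2 y1 y2) = c • e.1 := rfl
    have e2 : ((c • e).2 : perp4 h x1 x2 y1 y2) = c • e.2 := rfl
    rw [e1, e2, Submodule.coe_smul, Submodule.coe_smul, hsl, hsl] at h1
    have e3 : ((f (c • e) - c • f e).1 : V) = (f (c • e)).1 - c • ((f e).1 : V) := rfl
    have e4 : ((f (c • e) - c • f e).2 : V) = (f (c • e)).2 - c • ((f e).2 : V) := rfl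
    rw [e3, e4, h.sub_left, h.sub_left, hsl, hsl]
    linear_combination h1 - c * h2
  let ψ : (perp4 h x1 x2 y1 y2 × perp4 h x1 x2 y1 y2) →ₗ[F]
      (perp4 h x1 x2 y1 y2 × perp4 h x1 x2 y1 y2) :=
    { toFun := f
      map_add' := hadd
      map_smul' := hsmul }
  exact ⟨LinearEquiv.ofBijective ψ hbij, hf, hom⟩

end

theorem ln_ts {p : ℕ} [Fact p.Prime] (hp5 : 5 ≤ p) {F V : Type} [Field F] [Finite F]
    [CharP F p] [AddCommGroup V] [Module F V] [Finite V] {h : HF F V} {x1 x2 y1 y2 : V}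
    {π : Matrix.SpecialLinearGroup (Fin 2) F →* (V ≃ₗ[F] V)} (hD : LnD h p x1 x2 y1 y2 π)
    (h5 : 5 ≤ Module.finrank F V)
    (φ : MulAut (h.RW (sp F x1 x2) (quad_ti hD.q))) (hφ : φ ^ p = 1)
    (hz : ∀ t, ((φ ⟨π (up t), ln_up_mem hD t⟩ : h.RW (sp F x1 x2) (quad_ti hD.q)) :
      V ≃ₗ[F] V) = π (up t))
    (hr : ∀ r ∈ h.GG p, (∀ w ∈ sp F x1 x2, r w ∈ sp F x1 x2) → ∃ r' ∈ h.GG p,
      (∀ w ∈ sp F x1 x2, r' w ∈ sp F x1 x2) ∧
      ∀ u v : h.RW (sp F x1 x2) (quad_ti hD.q), (v : V ≃ₗ[F] V) = r * (u : V ≃ₗ[F] V) * r⁻¹ →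
        (φ v : V ≃ₗ[F] V) = r' * (φ u : V ≃ₗ[F] V) * r'⁻¹) :
    ∃ s ∈ h.GG p, (∀ w ∈ sp F x1 x2, s w ∈ sp F x1 x2) ∧
      (∀ t, s * π (up t) * s⁻¹ = π (up t)) ∧
      ∀ u : h.RW (sp F x1 x2) (quad_ti hD.q),
        la1 h x1 x2 y1 y2 (s * (φ u : V ≃ₗ[F] V) * s⁻¹) = la1 h x1 x2 y1 y2 (u : V ≃ₗ[F] V) ∧
        la2 h x1 x2 y1 y2 (s * (φ u : V ≃ₗ[F] V) * s⁻¹) = la2 h x1 x2 y1 y2 (u : V ≃ₗ[F] V) := by
  have hp3 : 3 ≤ p := by omega
  have hq := hD.q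
  have : FiniteDimensional F V := Module.Finite.of_finite
  obtain ⟨ψ, hψ, hom⟩ := exists_phi hp3 hD φ hz
  obtain ⟨δ, hδr, hδ, hδf⟩ := h.exists_delta hp3 hq
  obtain ⟨e4, he4, he4'⟩ := exists_ext4 hD.o hq
  have l1 : x1 ∈ sp F x1 x2 := mem_sp.mpr ⟨1, 0, by simp⟩
  have l2 : x2 ∈ sp F x1 x2 := mem_sp.mpr ⟨0, 1, by simp⟩
  have hstab : ∀ {g : V ≃ₗ[F] V} {m : Matrix (Fin 2) (Fin 2) F},
      g x1 = m 0 0 • x1 + m 1 0 • x2 → g x2 = m 0 1 • x1 + m 1 1 • x2 →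
      ∀ w ∈ sp F x1 x2, g w ∈ sp F x1 x2 := by
    intro g m h1 h2 w hw
    obtain ⟨a, b, rfl⟩ := mem_sp.mp hw
    rw [map_add, map_smul, map_smul, h1, h2]
    exact Submodule.add_mem _ (Submodule.smul_mem _ _ (mem_sp.mpr ⟨_, _, rfl⟩))
      (Submodule.smul_mem _ _ (mem_sp.mpr ⟨_, _, rfl⟩))
  have hp4 : ∀ a : perp4 h x1 x2 y1 y2, p4 h x1 x2 y1 y2 (a : V) = a := by
    intro a
    obtain ⟨m1, m2, m3, m4⟩ := a.2
    unfold p4
    rw [m1, m2, m3, m4]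
    module
  -- the element of the stabilizer with given matrix and given isometry of the middle space
  have hel : ∀ (m : Matrix.SpecialLinearGroup (Fin 2) F), ∀ k ∈ (restr4 hD.o hD.q).GG p,
      ∃ r ∈ h.GG p, (∀ w ∈ sp F x1 x2, r w ∈ sp F x1 x2) ∧
        (∀ u ∈ h.RW (sp F x1 x2) (quad_ti hD.q),
          cc hD (r * u * r⁻¹) = tn (m : Matrix (Fin 2) (Fin 2) F) k (cc hD u)) ∧
        ∀ t, r * π (up t) * r⁻¹ = π (up t) := by
    intro m k hk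
    have hm : (m : Matrix (Fin 2) (Fin 2) F) = !![(m : Matrix (Fin 2) (Fin 2) F) 0 0,
        (m : Matrix (Fin 2) (Fin 2) F) 0 1; (m : Matrix (Fin 2) (Fin 2) F) 1 0,
        (m : Matrix (Fin 2) (Fin 2) F) 1 1] := Matrix.eta_fin_two _
    obtain ⟨d1, d2, -, -⟩ := hδ m _ _ _ _ hm
    obtain ⟨f1, f2, -, -, f5⟩ := he4 k
    have hr : δ m * e4 k ∈ h.GG p := Subgroup.mul_mem _ (hδr ⟨m, rfl⟩) (he4' p k hk)
    have r1 : (δ m * e4 k) x1 = (m : Matrix (Fin 2) (Fin 2) F) 0 0 • x1 +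
        (m : Matrix (Fin 2) (Fin 2) F) 1 0 • x2 := by
      show δ m (e4 k x1) = _
      rw [f1, d1]
    have r2 : (δ m * e4 k) x2 = (m : Matrix (Fin 2) (Fin 2) F) 0 1 • x1 +
        (m : Matrix (Fin 2) (Fin 2) F) 1 1 • x2 := by
      show δ m (e4 k x2) = _
      rw [f2, d2]
    have hrI := h.GG_le p hr
    have hrW := hstab r1 r2
    refine ⟨δ m * e4 k, hr, hrW, ?_, ?_⟩
    · intro u hu
      refine act_eq hD hrI r1 r2 ?_ hu
      intro a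
      show (k a : V) = p4 h x1 x2 y1 y2 (δ m (e4 k (a : V)))
      obtain ⟨m1, m2, m3, m4⟩ := (k a).2
      rw [f5, hδf m _ m1 m2 m3 m4, hp4]
    · intro t
      have hdet : (m : Matrix (Fin 2) (Fin 2) F) 0 0 * (m : Matrix (Fin 2) (Fin 2) F) 1 1 -
          (m : Matrix (Fin 2) (Fin 2) F) 0 1 * (m : Matrix (Fin 2) (Fin 2) F) 1 0 = 1 := by
        rw [← Matrix.det_fin_two]
        exact m.2
      rw [ln_act_z hD hrI r1 r2, hdet, one_mul]
  have hTD : TD p (restr4 hD.o hD.q) (II hD) ψ := by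
    refine ⟨?_, ?_, ?_, ?_, ?_, ?_, ?_⟩
    · exact ⟨hD.o.1, hD.o.2⟩
    · have h1 := finrank_perp4 hD.o hq
      have h2 : 0 < Module.finrank F (perp4 h x1 x2 y1 y2) := by omega
      have := Module.nontrivial_of_finrank_pos h2
      exact exists_ne 0
    · rintro i ⟨r, hr, hrW, hi⟩
      obtain ⟨m, k, hk, h1⟩ := act_tn hD (h.GG_le p hr) hrW
      refine ⟨m, k, hk, fun e => ?_⟩
      obtain ⟨u, hu, rfl⟩ := cc_surj hp3 hD e
      rw [hi u hu, h1 u hu]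
    · intro m
      obtain ⟨r, hr, hrW, h1, -⟩ := hel m 1 (Subgroup.one_mem _)
      obtain ⟨i, hi⟩ := act_equiv hp3 hD (h.GG_le p hr) hrW
      refine ⟨i, ⟨r, hr, hrW, hi⟩, fun e => ?_⟩
      obtain ⟨u, hu, rfl⟩ := cc_surj hp3 hD e
      rw [hi u hu, h1 u hu]
    · intro k hk
      obtain ⟨r, hr, hrW, h1, -⟩ := hel 1 k hk
      obtain ⟨i, hi⟩ := act_equiv hp3 hD (h.GG_le p hr) hrW
      refine ⟨i, ⟨r, hr, hrW, hi⟩, fun e => ?_⟩
      obtain ⟨u, hu, rfl⟩ := cc_surj hp3 hD e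
      rw [hi u hu, h1 u hu]
      rfl
    · have hpow : ∀ (n : ℕ) (u : h.RW (sp F x1 x2) (quad_ti hD.q)),
          (ψ ^ n) (cc hD (u : V ≃ₗ[F] V)) = cc hD ((φ ^ n) u : V ≃ₗ[F] V) := by
        intro n
        induction n with
        | zero => intro u; rfl
        | succ n ih =>
          intro u
          rw [pow_succ, pow_succ]
          show (ψ ^ n) (ψ (cc hD (u : V ≃ₗ[F] V))) = cc hD ((φ ^ n) (φ u) : V ≃ₗ[F] V)
          rw [hψ, ih]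
      apply LinearEquiv.ext
      intro e
      obtain ⟨u, hu, rfl⟩ := cc_surj hp3 hD e
      have h1 := hpow p ⟨u, hu⟩
      rw [hφ] at h1
      exact h1
    · rintro i ⟨r, hr', hrW, hi⟩
      obtain ⟨r', hr1, hr2, hr3⟩ := hr r hr' hrW
      refine ⟨r', hr1, hr2, fun w hw => ?_⟩
      obtain ⟨u, hu⟩ := φ.surjective ⟨w, hw⟩
      have hv := cc_conj_mem hD (h.GG_le p hr') hrW u.2
      have h1 := hr3 u ⟨r * (u : V ≃ₗ[F] V) * r⁻¹, hv⟩ rfl
      have h2 := hψ ⟨r * (u : V ≃ₗ[F] V) * r⁻¹, hv⟩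
      rw [h1, hu] at h2
      have h3 : ψ⁻¹ (cc hD w) = cc hD (u : V ≃ₗ[F] V) := by
        have h4 := hψ u
        rw [hu] at h4
        show ψ⁻¹ (cc hD w) = _
        have h5 : cc hD w = ψ (cc hD (u : V ≃ₗ[F] V)) := h4.symm
        rw [h5]
        exact ψ.symm_apply_apply _
      show ψ (i (ψ⁻¹ (cc hD w))) = _
      rw [h3, hi _ u.2]
      exact h2
  obtain ⟨b, k, hk, hkp, hbk⟩ := tens_split (hT := restr4 hD.o hD.q) hp3 hTD.t0 hTD.o hTD.ord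
    (tens_norm hp5 hTD) hom
  have hkG : k ∈ (restr4 hD.o hD.q).GG p :=
    Subgroup.subset_closure ⟨hk, 1, by rw [pow_one, hkp]⟩
  obtain ⟨r, hrG, hrW, hrc, hrz⟩ := hel b k hkG
  have hrI := h.GG_le p hrG
  have hrG' := Subgroup.inv_mem _ hrG
  have hrW' := st_inv hrW
  refine ⟨r⁻¹, hrG', hrW', ?_, ?_⟩
  · intro t
    have h1 := hrz t
    have h2 : r⁻¹ * (r * π (up t) * r⁻¹) * r⁻¹⁻¹ = π (up t) := by group
    rw [h1] at h2
    exact h2
  · intro u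
    have hv := cc_conj_mem hD (h.GG_le p hrG') hrW' (φ u).2
    have h1 := hrc _ hv
    have h2 : r * (r⁻¹ * (φ u : V ≃ₗ[F] V) * r⁻¹⁻¹) * r⁻¹ = (φ u : V ≃ₗ[F] V) := by group
    rw [h2, ← hbk, ← hψ u] at h1
    have h3 := ψ.injective h1
    exact ⟨congrArg (fun e => (e.1 : V)) h3.symm, congrArg (fun e => (e.2 : V)) h3.symm⟩


end Pool.Agent.Helper54.OC
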