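import Pool.Agent.Helper54.OC.HOne

/-!
# OC-04: an element of order `p` normalizes a conjugate of `⟨h⟩`

PROOF.  `k = a h a⁻¹` normalizes `U` and has no fixed points `≠ 1` in `U` (`a U a⁻¹ = U`, finite).  `h^j k⁻¹ ∈ U`, so by `conj_coset` there is `v ∈ U`
with `h^j = v k v⁻¹ = b h b⁻¹`, `b = v a`.  `b^p ∈ U` (`a^p = 1`, `a` normalizes `U`), and `b^p h b^(-p) h⁻¹` is in `U` and in `zpowers h`, so it is `1`
(orders); so `b^p` commutes with `h`, and `b^p = 1`.  `h1_frob` for `b`, `F = zpowers (h^(j-1))` (`free_aut`, `hfix'`) and `u = v⁻¹`, `v⁻¹ b = a`: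
`a = y b y⁻¹`, `y ∈ U`.  `a (y h y⁻¹) a⁻¹ = y (b h b⁻¹) y⁻¹ = (y h y⁻¹)^j`.
-/

set_option autoImplicit false

namespace Pool.Agent.Helper54.OC

private theorem orderOf_zpow_dvd' {A : Type} [Group A] (h : A) (m : ℤ) :
    orderOf (h ^ m) ∣ orderOf h := by
  rw [orderOf_dvd_iff_pow_eq_one, ← zpow_natCast, ← zpow_mul, mul_comm, zpow_mul, zpow_natCast,
    pow_orderOf_eq_one, one_zpow]

theorem exists_norm {A : Type} [Group A] [Finite A] {p : ℕ} [Fact p.Prime] {U : Subgroup A}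
    (hU : IsPGroup p U) {h a : A} (hhU : ∀ u ∈ U, h * u * h⁻¹ ∈ U)
    (haU : ∀ u ∈ U, a * u * a⁻¹ ∈ U) (hhp : ¬ p ∣ orderOf h) (ha : a ^ p = 1)
    (hfix : ∀ u ∈ U, h * u = u * h → u = 1) {j : ℤ} (hj : a * h * a⁻¹ * (h ^ j)⁻¹ ∈ U)
    (hfix' : ∀ u ∈ U, h ^ (j - 1) * u = u * h ^ (j - 1) → u = 1) :
    ∃ v ∈ U, a * (v * h * v⁻¹) * a⁻¹ = (v * h * v⁻¹) ^ j := by
  have hpp : p.Prime := Fact.out
  have hnh : h ∈ nm U := mem_nm_of_finite hhU
  have hna : a ∈ nm U := mem_nm_of_finite haU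
  have conjU : ∀ {g : A}, g ∈ nm U → ∀ u ∈ U, g * u * g⁻¹ ∈ U := by
    intro g hg u hu
    exact (mem_nm'.1 hg u).1 hu
  have haU' : ∀ u ∈ U, a⁻¹ * u * a ∈ U := by
    intro u hu
    have h1 := conjU (Subgroup.inv_mem _ hna) u hu
    rwa [inv_inv] at h1
  have hnk : a * h * a⁻¹ ∈ nm U :=
    Subgroup.mul_mem _ (Subgroup.mul_mem _ hna hnh) (Subgroup.inv_mem _ hna)
  have hkfix : ∀ u ∈ U, (a * h * a⁻¹) * u = u * (a * h * a⁻¹) → u = 1 := by
    intro u hu hku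
    have h1 : h * (a⁻¹ * u * a) = (a⁻¹ * u * a) * h := by
      calc h * (a⁻¹ * u * a) = a⁻¹ * ((a * h * a⁻¹) * u) * a := by group
        _ = a⁻¹ * (u * (a * h * a⁻¹)) * a := by rw [hku]
        _ = (a⁻¹ * u * a) * h := by group
    have h2 := hfix _ (haU' u hu) h1
    have h3 : u = a * (a⁻¹ * u * a) * a⁻¹ := by group
    rw [h3, h2]
    group
  have hx : h ^ j * (a * h * a⁻¹)⁻¹ ∈ U := by
    have h1 := U.inv_mem hj
    have h2 : (a * h * a⁻¹ * (h ^ j)⁻¹)⁻¹ = h ^ j * (a * h * a⁻¹)⁻¹ := by group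
    rwa [h2] at h1
  obtain ⟨v, hv, hvk⟩ := conj_coset (conjU hnk) hkfix hx
  obtain ⟨b, hb⟩ : ∃ b, b = v * a := ⟨_, rfl⟩
  have hbh : b * h * b⁻¹ = h ^ j := by
    rw [hvk, hb]
    group
  have hnb : b ∈ nm U := by
    rw [hb]
    exact Subgroup.mul_mem _ (le_nm U hv) hna
  -- powers of `b` modulo `U`
  have hbpow : ∀ n : ℕ, b ^ n * (a ^ n)⁻¹ ∈ U := by
    intro n
    induction n with
    | zero => simp
    | succ n ih =>
      have h1 : b ^ (n + 1) * (a ^ (n + 1))⁻¹ = v * (a * (b ^ n * (a ^ n)⁻¹) * a⁻¹) := by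
        rw [pow_succ' b, pow_succ' a, hb]
        group
      rw [h1]
      exact U.mul_mem hv (conjU hna _ ih)
  have hbp : b ^ p ∈ U := by
    have h1 := hbpow p
    rwa [ha, inv_one, mul_one] at h1
  have hbz : ∀ n : ℕ, b ^ n * h * (b ^ n)⁻¹ ∈ Subgroup.zpowers h := by
    intro n
    induction n with
    | zero => simp
    | succ n ih =>
      obtain ⟨m, hm⟩ := Subgroup.mem_zpowers_iff.1 ih
      have h1 : b ^ (n + 1) * h * (b ^ (n + 1))⁻¹ = b * (b ^ n * h * (b ^ n)⁻¹) * b⁻¹ := by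
        rw [pow_succ' b]
        group
      rw [h1, ← hm, ← conj_zpow, hbh]
      exact Subgroup.zpow_mem _ (Subgroup.zpow_mem _ (Subgroup.mem_zpowers h) _) _
  have htriv : ∀ x : A, x ∈ U → x ∈ Subgroup.zpowers h → x = 1 := by
    intro x hxU hxz
    obtain ⟨r, hr⟩ := hU ⟨x, hxU⟩
    have hr' : x ^ p ^ r = 1 := by simpa using congrArg Subtype.val hr
    have h1 : orderOf x ∣ p ^ r := orderOf_dvd_of_pow_eq_one hr'
    have h2 : orderOf x ∣ orderOf h := by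
      obtain ⟨m, rfl⟩ := Subgroup.mem_zpowers_iff.1 hxz
      exact orderOf_zpow_dvd' h m
    have h3 : Nat.Coprime (p ^ r) (orderOf h) :=
      Nat.Coprime.pow_left _ ((Nat.Prime.coprime_iff_not_dvd hpp).2 hhp)
    exact orderOf_eq_one_iff.1 (Nat.eq_one_of_dvd_coprimes h3 h1 h2)
  have hb1 : b ^ p = 1 := by
    have h1 : b ^ p * h * (b ^ p)⁻¹ * h⁻¹ = 1 := by
      apply htriv
      · have h2 : b ^ p * h * (b ^ p)⁻¹ * h⁻¹ = b ^ p * (h * (b ^ p)⁻¹ * h⁻¹) := by group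
        rw [h2]
        exact U.mul_mem hbp (hhU _ (U.inv_mem hbp))
      · exact Subgroup.mul_mem _ (hbz p) (Subgroup.inv_mem _ (Subgroup.mem_zpowers h))
    apply hfix _ hbp
    have h2 : b ^ p * h * (b ^ p)⁻¹ = h := mul_inv_eq_one.1 h1
    rw [mul_inv_eq_iff_eq_mul] at h2
    exact h2.symm
  have hFpow : ∀ f ∈ Subgroup.zpowers (h ^ (j - 1)), f ∈ nm U := by
    intro f hf
    obtain ⟨m, rfl⟩ := Subgroup.mem_zpowers_iff.1 hf
    exact Subgroup.zpow_mem _ (Subgroup.zpow_mem _ hnh _) _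
  obtain ⟨y, hy, hyb⟩ := h1_frob (a := b) (F := Subgroup.zpowers (h ^ (j - 1))) (u := v⁻¹) hU
    (by
      rw [Nat.card_zpowers]
      intro h1
      exact hhp (h1.trans (orderOf_zpow_dvd' h (j - 1))))
    (by
      intro x hx y hy
      obtain ⟨m, rfl⟩ := Subgroup.mem_zpowers_iff.1 hx
      obtain ⟨n, rfl⟩ := Subgroup.mem_zpowers_iff.1 hy
      rw [← zpow_add, ← zpow_add, add_comm])
    hb1 (conjU hnb)
    (by
      intro f hf
      obtain ⟨m, rfl⟩ := Subgroup.mem_zpowers_iff.1 hf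
      have h1 : b * (h ^ (j - 1)) ^ m * b⁻¹ = (h ^ (j - 1)) ^ (j * m) := by
        rw [← conj_zpow, ← conj_zpow, hbh, ← zpow_mul, ← zpow_mul, ← zpow_mul]
        congr 1
        ring
      rw [h1]
      exact Subgroup.mem_zpowers_iff.2 ⟨_, rfl⟩)
    (fun f hf u hu => conjU (hFpow f hf) u hu)
    (fun f hf hbf => free_aut hhp hb1 hbh hf hbf)
    (fun u hu huf => hfix' u hu (huf _ (Subgroup.mem_zpowers _)))
    (U.inv_mem hv)
    (by
      have h1 : v⁻¹ * b = a := by rw [hb]; group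
      rw [h1, ha])
  have hay : a = y * b * y⁻¹ := by
    rw [← hyb, hb]
    group
  refine ⟨y, hy, ?_⟩
  rw [conj_zpow, ← hbh, hay]
  group

/-- the same for an automorphism of a group with trivial center (embed it into its automorphism group) -/
theorem exists_norm_aut {S : Type} [Group S] [Finite S] (hc : Subgroup.center S = ⊥) {p : ℕ}
    [Fact p.Prime] {U : Subgroup S} (hU : IsPGroup p U) {h : S} {α : MulAut S}
    (hhU : ∀ u ∈ U, h * u * h⁻¹ ∈ U) (hαU : ∀ u ∈ U, α u ∈ U) (hhp : ¬ p ∣ orderOf h)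
    (hα : α ^ p = 1) (hfix : ∀ u ∈ U, h * u = u * h → u = 1) {j : ℤ}
    (hj : α h * (h ^ j)⁻¹ ∈ U) (hfix' : ∀ u ∈ U, h ^ (j - 1) * u = u * h ^ (j - 1) → u = 1) :
    ∃ v ∈ U, α (v * h * v⁻¹) = (v * h * v⁻¹) ^ j := by
  have : Finite (MulAut S) := inferInstance
  have hinj : Function.Injective (MulAut.conj : S →* MulAut S) := by
    rw [← MonoidHom.ker_eq_bot_iff, eq_bot_iff, ← hc]
    intro x hx
    rw [Subgroup.mem_center_iff]
    intro g
    have h1 : MulAut.conj x g = g := by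
      rw [MonoidHom.mem_ker.1 hx]
      rfl
    rw [MulAut.conj_apply, mul_inv_eq_iff_eq_mul] at h1
    exact h1.symm
  have hcα : ∀ g : S, α * MulAut.conj g * α⁻¹ = MulAut.conj (α g) := by
    intro g
    ext x
    show α (g * (α⁻¹ x) * g⁻¹) = α g * x * (α g)⁻¹
    rw [map_mul, map_mul, map_inv]
    congr 2
    exact MulEquiv.apply_symm_apply α x
  obtain ⟨w, hw, hwα⟩ := exists_norm (U := U.map (MulAut.conj : S →* MulAut S)) (p := p)
    (h := MulAut.conj h) (a := α) (j := j) (hU.map _)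
    (by
      rintro _ ⟨u, hu, rfl⟩
      exact ⟨h * u * h⁻¹, hhU u hu, by rw [map_mul, map_mul, map_inv]⟩)
    (by
      rintro _ ⟨u, hu, rfl⟩
      exact ⟨α u, hαU u hu, (hcα u).symm⟩)
    (by rwa [orderOf_injective _ hinj])
    hα
    (by
      rintro _ ⟨u, hu, rfl⟩ h1
      rw [← map_mul, ← map_mul] at h1
      rw [hfix u hu (hinj h1), map_one])
    (by
      rw [hcα, ← map_zpow, ← map_inv, ← map_mul]
      exact ⟨_, hj, rfl⟩)
    (by
      rintro _ ⟨u, hu, rfl⟩ h1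
      rw [← map_zpow, ← map_mul, ← map_mul] at h1
      rw [hfix' u hu (hinj h1), map_one])
  obtain ⟨v, hv, rfl⟩ := hw
  refine ⟨v, hv, hinj ?_⟩
  have h1 : (MulAut.conj v * MulAut.conj h * (MulAut.conj v)⁻¹ : MulAut S) =
      MulAut.conj (v * h * v⁻¹) := by
    rw [map_mul, map_mul, map_inv]
  rw [h1, hcα] at hwα
  rw [hwα, map_zpow]

end Pool.Agent.Helper54.OC
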