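import Pool.Agent.Helper54.OC.PtTor

/-!
# OC-22: the commutant of the stabilizer of a point in a unitary group

PROOF.  Let `ρ r a = σ c • p1 x y (r a)` for `r ∈ GG`, `r x = c x`.
(1) `f (c a) = c f a` for `c ∈ F0`: `r = π (dg c)` (`ρ r a = c a`; `pt_dg`).
(2) Let `e ∈ perp2 x y`, `B e e ≠ 0`, `r, l` from `exists_re`.  `ρ r = μ1` on `F e` and `ρ r = μ2` on `E' = {v ∈ perp2 | B e v = 0}`, with `μ1 = (σ l)² / l`,
    `μ2 = σ l`.  `perp2 = F e ⊕ E'`.  `P(X) = (X - μ2) (X - σ μ2)` has coefficients in `F0`, `P(ρ r)` kills `E'` and is the scalar `P(μ1) ≠ 0` on `F e`: `μ1 ≠ μ2` since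
    `l ≠ σ l`, and `μ1 ≠ σ μ2 = l` since `l² ≠ (σ l)²`.  `f` commutes with `P(ρ r)` (`(ρ r)² - tr · ρ r + nm`, with (1)), so `f` maps its image `F e` into itself.
    On `F e`: `f (μ1 a) = μ1 f a`, and `μ1 ∉ F0`, since `l³ ≠ (σ l)³` (`σ μ1 = l² / σ l`).  `F = F0 + F0 μ1` (`[F : F0] = 2`: for `c ∈ F` solve `c = c0 + c1 μ1` with
    `c1 = (c - σ c) / (μ1 - σ μ1) ∈ F0`).  So `f (c a) = c f a` for `a ∈ F e`, and `f (c e) = (l_e) (c e)`.
(3) Let `e, e'` be nonisotropic in `perp2`.  If `e' = c e`: `l_e = l_e'`.  If they are independent: there is `c ∈ F0`, `c ≠ 0`, with `e + c e'` nonisotropic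
    (`B e e + c (B e e' + B e' e) + c² B e' e'` is a nonzero polynomial of degree two in `c`, `|F0| ≥ 5`), and `f (e + c e') = l_e e + c l_e' e'` is a multiple of
    `e + c e'`, so `l_e = l_e'`.  So `f a = l a` for all nonisotropic `a`.  There is a nonisotropic `e` if `perp2 ≠ 0` (`B a b ≠ 0` for some `a, b`; if `a`, `b`, `a + c b`
    are isotropic for all `c ∈ F`, `c B a b + σ c B b a = 0` for all `c`, so `σ = 1`).  For any `v`, `v + c e` is nonisotropic for some `c ∈ F0`, so `f v = l v`.
-/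

set_option autoImplicit false

namespace Pool.Agent.Helper54.OC

open Pool.Agent.Helper54.CL

section
variable {p : ℕ} [Fact p.Prime] {F V : Type} [Field F] [AddCommGroup V] [Module F V]

private theorem pcm_p1 (h : HF F V) {x y v : V} (hx : h.B x v = 0) (hy : h.B y v = 0) :
    h.p1 x y v = v := by
  rw [HF.p1, hx, hy, mul_zero, zero_smul, zero_smul, sub_zero, sub_zero]

omit [Fact p.Prime] in
/-- `f` is linear over the fixed field -/
private theorem pcm_lin [Finite F] [CharP F p] [Finite V] {h : HF F V} {x y : V} {κ : F}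
    {π : Matrix.SpecialLinearGroup (Fin 2) h.F0 →* (V ≃ₗ[F] V)} (hD : PtD h p x y κ π)
    (f : h.perp2 x y →+ h.perp2 x y)
    (hf : ∀ r ∈ h.GG p, ∀ c : F, r x = c • x → ∀ a b : h.perp2 x y,
      (b : V) = h.σ c • h.p1 x y (r (a : V)) → ((f b : h.perp2 x y) : V) =
        h.σ c • h.p1 x y (r ((f a : h.perp2 x y) : V))) {c : F} (hc : h.σ c = c)
    (a : h.perp2 x y) : f (c • a) = c • f a := by
  by_cases hc0 : c = 0
  · rw [hc0, zero_smul, zero_smul, map_zero]
  · have hne : (⟨c, hc⟩ : h.F0) ≠ 0 := by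
      intro h1
      exact hc0 (congrArg Subtype.val h1)
    let c' : (h.F0)ˣ := Units.mk0 ⟨c, hc⟩ hne
    have hc' : (((c' : h.F0)) : F) = c := rfl
    have hfix : ∀ v : h.perp2 x y, π (dg c') (v : V) = (v : V) := by
      intro v
      rw [pt_dg hD, v.2.1, v.2.2]
      simp
    have hx : π (dg c') x = c • x := by
      rw [pt_dg hD, hD.pair.xx, hD.pair.yx, h.eps, hc']
      module
    have h1 := hf _ (hD.le ⟨_, rfl⟩) c hx a (c • a) (by
      rw [hfix, pcm_p1 h a.2.1 a.2.2, hc]; rfl)
    rw [hfix, pcm_p1 h (f a).2.1 (f a).2.2, hc] at h1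
    exact Subtype.ext h1

/-- `f` on the line through a nonisotropic vector -/
private theorem pcm_line [Finite F] [CharP F p] [Finite V] (hp5 : 5 ≤ p) {h : HF F V} {x y : V}
    {κ : F} {π : Matrix.SpecialLinearGroup (Fin 2) h.F0 →* (V ≃ₗ[F] V)} (hD : PtD h p x y κ π)
    (hσ : ∃ c, h.σ c ≠ c) (f : h.perp2 x y →+ h.perp2 x y)
    (hf : ∀ r ∈ h.GG p, ∀ c : F, r x = c • x → ∀ a b : h.perp2 x y,
      (b : V) = h.σ c • h.p1 x y (r (a : V)) → ((f b : h.perp2 x y) : V) =
        h.σ c • h.p1 x y (r ((f a : h.perp2 x y) : V))) {e : h.perp2 x y}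
    (he : h.B (e : V) (e : V) ≠ 0) : ∃ l : F, ∀ c : F, f (c • e) = (c * l) • e := by
  have hlin : ∀ c : F, h.σ c = c → ∀ a : h.perp2 x y, f (c • a) = c • f a :=
    fun c hc a => pcm_lin hD f hf hc a
  obtain ⟨r, hr, l, hl0, hrx, -, hre, hrv, hl1, hl2, hl3⟩ :=
    exists_re hp5 hD hσ e.2.1 e.2.2 he
  obtain ⟨m, hm⟩ : ∃ m, m = h.σ l := ⟨_, rfl⟩
  have hσm : h.σ m = l := by rw [hm, h.invol]
  rw [← hm] at hre hl1 hl2 hl3
  have hm0 : m ≠ 0 := by
    rw [hm]
    exact (map_ne_zero h.σ).2 hl0
  -- the decomposition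
  obtain ⟨α, hα⟩ : ∃ α : V → F, ∀ v, α v = h.B (e : V) v / h.B (e : V) (e : V) := ⟨_, fun _ => rfl⟩
  have hαadd : ∀ v w, α (v + w) = α v + α w := by
    intro v w
    rw [hα, hα, hα, h.add_right, add_div]
  have hαsmul : ∀ (c : F) v, α (c • v) = c * α v := by
    intro c v
    rw [hα, hα, h.smul_right, mul_div_assoc]
  have hαe : α (e : V) = 1 := by rw [hα, div_self he]
  have hαw : ∀ v, α (v - α v • (e : V)) = 0 := by
    intro v
    have h1 : v - α v • (e : V) = v + (- α v) • (e : V) := by rw [neg_smul, sub_eq_add_neg]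
    rw [h1, hαadd, hαsmul, hαe]
    ring
  have hBw : ∀ v, h.B (e : V) (v - α v • (e : V)) = 0 := by
    intro v
    have h1 := hαw v
    rw [hα, div_eq_zero_iff] at h1
    exact h1.resolve_right he
  obtain ⟨w, hw⟩ : ∃ w : V → V, ∀ v, w v = v - α v • (e : V) := ⟨_, fun _ => rfl⟩
  have hwadd : ∀ v v', w (v + v') = w v + w v' := by
    intro v v'
    rw [hw, hw, hw, hαadd]
    module
  have hwsmul : ∀ (c : F) v, w (c • v) = c • w v := by
    intro c v
    rw [hw, hw, hαsmul]
    module
  have hdec : ∀ v, v = α v • (e : V) + w v := by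
    intro v
    rw [hw]
    abel
  -- the key formula
  have key : ∀ s : F, ((f ((m ^ 2 / l * s) • e) : h.perp2 x y) : V) =
      (m ^ 2 / l * α ((f (s • e) : h.perp2 x y) : V)) • (e : V) +
        m • w ((f (s • e) : h.perp2 x y) : V) := by
    intro s
    have h1 := hf r hr l hrx (s • e) ((m ^ 2 / l * s) • e) (by
      have h2 : r (((s • e : h.perp2 x y)) : V) = (s * (m / l)) • (e : V) := by
        show r (s • (e : V)) = _
        rw [map_smul, hre, smul_smul]
      rw [h2, pcm_p1 h (by rw [h.smul_right, e.2.1, mul_zero])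
        (by rw [h.smul_right, e.2.2, mul_zero]), smul_smul, ← hm]
      show (m ^ 2 / l * s) • (e : V) = _
      congr 1
      field_simp)
    obtain ⟨g, hg⟩ : ∃ g : h.perp2 x y, g = f (s • e) := ⟨_, rfl⟩
    rw [← hg] at h1 ⊢
    have hwx : h.B x (w (g : V)) = 0 := by
      rw [hw, h.sub_right, h.smul_right, g.2.1, e.2.1, mul_zero, sub_zero]
    have hwy : h.B y (w (g : V)) = 0 := by
      rw [hw, h.sub_right, h.smul_right, g.2.2, e.2.2, mul_zero, sub_zero]
    have hwe : h.B (e : V) (w (g : V)) = 0 := by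
      rw [hw]; exact hBw _
    have h2 : r (g : V) = (α (g : V) * (m / l)) • (e : V) + w (g : V) := by
      conv_lhs => rw [hdec (g : V)]
      rw [map_add, map_smul, hre, smul_smul, hrv _ hwx hwy hwe]
    rw [h2, pcm_p1 h (by rw [h.add_right, h.smul_right, e.2.1, hwx, mul_zero, add_zero])
      (by rw [h.add_right, h.smul_right, e.2.2, hwy, mul_zero, add_zero]), smul_add, smul_smul,
      ← hm] at h1
    rw [h1]
    congr 2
    field_simp
  have keyα : ∀ s : F, α ((f ((m ^ 2 / l * s) • e) : h.perp2 x y) : V) =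
      m ^ 2 / l * α ((f (s • e) : h.perp2 x y) : V) := by
    intro s
    have h1 : α (w ((f (s • e) : h.perp2 x y) : V)) = 0 := by rw [hw]; exact hαw _
    rw [key, hαadd, hαsmul, hαsmul, hαe, h1]
    ring
  have keyw : ∀ s : F, w ((f ((m ^ 2 / l * s) • e) : h.perp2 x y) : V) =
      m • w ((f (s • e) : h.perp2 x y) : V) := by
    intro s
    have h1 := hdec ((f ((m ^ 2 / l * s) • e) : h.perp2 x y) : V)
    rw [keyα] at h1
    have h2 := key s
    rw [h1] at h2
    exact add_left_cancel h2
  have hadd : ∀ s t : F, ((f ((s + t) • e) : h.perp2 x y) : V) =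
      ((f (s • e) : h.perp2 x y) : V) + ((f (t • e) : h.perp2 x y) : V) := by
    intro s t
    rw [add_smul, map_add]
    rfl
  have hlin' : ∀ c : F, h.σ c = c → ∀ s : F, ((f ((c * s) • e) : h.perp2 x y) : V) =
      c • ((f (s • e) : h.perp2 x y) : V) := by
    intro c hc s
    rw [mul_smul, hlin c hc]
    rfl
  -- the component orthogonal to `e`
  have hw0 : ∀ s : F, w ((f (s • e) : h.perp2 x y) : V) = 0 := by
    intro s
    have hP : (m ^ 2 / l - m) * (m ^ 2 / l - l) ≠ 0 := by
      apply mul_ne_zero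
      · intro h1
        have h1' := sub_eq_zero.1 h1
        rw [div_eq_iff hl0] at h1'
        have h2 : m * (m - l) = 0 := by linear_combination h1'
        rcases mul_eq_zero.1 h2 with h3 | h3
        · exact hm0 h3
        · exact hl1 (sub_eq_zero.1 h3).symm
      · intro h1
        have h1' := sub_eq_zero.1 h1
        rw [div_eq_iff hl0] at h1'
        have h2 : (m - l) * (m + l) = 0 := by linear_combination h1'
        rcases mul_eq_zero.1 h2 with h3 | h3
        · exact hl1 (sub_eq_zero.1 h3).symm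
        · exact hl2 (by linear_combination h3)
    obtain ⟨u, hu⟩ : ∃ u, u = s / ((m ^ 2 / l - m) * (m ^ 2 / l - l)) := ⟨_, rfl⟩
    have hs : s = (m ^ 2 / l) * ((m ^ 2 / l) * u) + ((-(m + l)) * ((m ^ 2 / l) * u) +
        (m * l) * u) := by
      have h1 : s = ((m ^ 2 / l - m) * (m ^ 2 / l - l)) * u := by
        rw [hu, mul_div_cancel₀ _ hP]
      linear_combination h1
    have h3 : h.σ (-(m + l)) = -(m + l) := by
      rw [map_neg, map_add, hσm, ← hm, add_comm]
    have h4 : h.σ (m * l) = m * l := by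
      rw [map_mul, hσm, ← hm, mul_comm]
    rw [hs, hadd, hwadd, keyw, keyw, hadd, hwadd, hlin' _ h3, hlin' _ h4, hwsmul, hwsmul, keyw]
    module
  refine ⟨α ((f ((1 : F) • e) : h.perp2 x y) : V), ?_⟩
  intro c
  obtain ⟨μ, hμ⟩ : ∃ μ, μ = m ^ 2 / l := ⟨_, rfl⟩
  have hσμ : h.σ μ = l ^ 2 / m := by
    rw [hμ, map_div₀, map_pow, hσm, ← hm]
  have hμne : μ - h.σ μ ≠ 0 := by
    rw [hσμ, hμ]
    intro h1
    apply hl3
    field_simp at h1
    linear_combination -h1
  obtain ⟨c1, hc1⟩ : ∃ c1, c1 = (c - h.σ c) / (μ - h.σ μ) := ⟨_, rfl⟩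
  have hc1' : c1 * (μ - h.σ μ) = c - h.σ c := by
    rw [hc1, div_mul_cancel₀ _ hμne]
  have hσc1 : h.σ c1 = c1 := by
    have h1 : h.σ c1 * (h.σ μ - μ) = h.σ c - c := by
      have h2 := congrArg h.σ hc1'
      rw [map_mul, map_sub, map_sub, h.invol, h.invol] at h2
      exact h2
    have h2 : (h.σ c1 - c1) * (μ - h.σ μ) = 0 := by linear_combination -h1 - hc1'
    rcases mul_eq_zero.1 h2 with h3 | h3
    · exact sub_eq_zero.1 h3
    · exact absurd h3 hμne
  have hσc0 : h.σ (c - c1 * μ) = c - c1 * μ := by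
    rw [map_sub, map_mul, hσc1]
    linear_combination hc1'
  have hval : ((f (c • e) : h.perp2 x y) : V) =
      (c * α ((f ((1 : F) • e) : h.perp2 x y) : V)) • (e : V) := by
    have h1 : ((f (c • e) : h.perp2 x y) : V) = α ((f (c • e) : h.perp2 x y) : V) • (e : V) := by
      conv_lhs => rw [hdec ((f (c • e) : h.perp2 x y) : V)]
      rw [hw0, add_zero]
    rw [h1]
    congr 1
    have hc : c = (c - c1 * μ) * 1 + c1 * (m ^ 2 / l * 1) := by
      rw [← hμ]; ring
    conv_lhs => rw [hc]
    rw [hadd, hαadd, hlin' _ hσc0, hlin' _ hσc1, hαsmul, hαsmul, keyα, ← hμ]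
    ring
  exact Subtype.ext hval

end

theorem pt_commutant {p : ℕ} [Fact p.Prime] (hp5 : 5 ≤ p) {F V : Type} [Field F] [Finite F]
    [CharP F p] [AddCommGroup V] [Module F V] [Finite V] {h : HF F V} {x y : V} {κ : F}
    {π : Matrix.SpecialLinearGroup (Fin 2) h.F0 →* (V ≃ₗ[F] V)} (hD : PtD h p x y κ π)
    (hσ : ∃ c, h.σ c ≠ c) (f : h.perp2 x y →+ h.perp2 x y)
    (hf : ∀ r ∈ h.GG p, ∀ c : F, r x = c • x → ∀ a b : h.perp2 x y,
      (b : V) = h.σ c • h.p1 x y (r (a : V)) → ((f b : h.perp2 x y) : V) =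
        h.σ c • h.p1 x y (r ((f a : h.perp2 x y) : V))) :
    ∃ l : F, ∀ a, f a = l • a := by
  have h2 : (2 : F) ≠ 0 := HF.two_ne (p := p) (by omega)
  have h3 : (3 : F) ≠ 0 := by
    intro h2
    have h3 : ((3 : ℕ) : F) = 0 := by exact_mod_cast h2
    rw [CharP.cast_eq_zero_iff F p] at h3
    have := Nat.le_of_dvd (by norm_num) h3
    omega
  have hσ2 : h.σ (2 : F) = 2 := map_ofNat _ _
  have hσn : h.σ (-1 : F) = -1 := by rw [map_neg, map_one]
  have hlin : ∀ c : F, h.σ c = c → ∀ a : h.perp2 x y, f (c • a) = c • f a :=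
    fun c hc a => pcm_lin hD f hf hc a
  -- the quadratic function
  have hquad : ∀ (a b : V) (c : F), h.σ c = c → h.B (a + c • b) (a + c • b) =
      h.B a a + c * (h.B a b + h.B b a) + c * c * h.B b b := by
    intro a b c hc
    rw [h.add_left, h.add_right, h.add_right, h.smul_left, h.smul_left, h.smul_right,
      h.smul_right, hc]
    ring
  by_cases hne : ∃ e : h.perp2 x y, h.B (e : V) (e : V) ≠ 0
  · obtain ⟨e, he⟩ := hne
    obtain ⟨l, hl⟩ := pcm_line hp5 hD hσ f hf he
    have hle : f e = l • e := by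
      have := hl 1
      rwa [one_smul, one_mul] at this
    refine ⟨l, ?_⟩
    -- nonisotropic vectors
    have main : ∀ a : h.perp2 x y, h.B (a : V) (a : V) ≠ 0 → f a = l • a := by
      intro a ha
      by_cases hdep : ∃ d : F, a = d • e
      · obtain ⟨d, rfl⟩ := hdep
        rw [hl, smul_smul, mul_comm]
      · obtain ⟨l', hl'⟩ := pcm_line hp5 hD hσ f hf ha
        have hla : f a = l' • a := by
          have := hl' 1
          rwa [one_smul, one_mul] at this
        obtain ⟨c, hc, hc0, hcn⟩ : ∃ c : F, h.σ c = c ∧ c ≠ 0 ∧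
            h.B ((e : V) + c • (a : V)) ((e : V) + c • (a : V)) ≠ 0 := by
          by_contra hcon
          push Not at hcon
          have e1 := hcon 1 (map_one _) one_ne_zero
          have e2 := hcon (-1) hσn (neg_ne_zero.2 one_ne_zero)
          have e3 := hcon 2 hσ2 h2
          rw [hquad _ _ _ (map_one _)] at e1
          rw [hquad _ _ _ hσn] at e2
          rw [hquad _ _ _ hσ2] at e3
          have e4 : 2 * 3 * h.B (a : V) (a : V) = 0 := by
            linear_combination 2 * e3 - 3 * e1 + e2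
          exact mul_ne_zero (mul_ne_zero h2 h3) ha e4
        obtain ⟨l'', hl''⟩ := pcm_line hp5 hD hσ f hf (e := e + c • a) hcn
        have h5 := hl'' 1
        rw [one_smul, one_mul, map_add, hlin c hc, hle, hla] at h5
        have h6 : (l - l'') • e + (c * (l' - l'')) • a = 0 := by
          have h7 : (l - l'') • e + (c * (l' - l'')) • a =
              (l • e + c • l' • a) - l'' • (e + c • a) := by module
          rw [h7, h5, sub_self]
        have h8 : c * (l' - l'') = 0 := by
          by_contra h9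
          apply hdep
          refine ⟨- ((c * (l' - l''))⁻¹ * (l - l'')), ?_⟩
          have h10 : (c * (l' - l'')) • a = - ((l - l'') • e) := by
            rw [eq_neg_iff_add_eq_zero, add_comm]; exact h6
          have h11 : a = (c * (l' - l''))⁻¹ • ((c * (l' - l'')) • a) := by
            rw [smul_smul, inv_mul_cancel₀ h9, one_smul]
          calc a = (c * (l' - l''))⁻¹ • ((c * (l' - l'')) • a) := h11
            _ = (c * (l' - l''))⁻¹ • (- ((l - l'') • e)) := by rw [h10]
            _ = (- ((c * (l' - l''))⁻¹ * (l - l''))) • e := by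
              rw [smul_neg, smul_smul, neg_smul]
        rw [h8, zero_smul, add_zero] at h6
        have h9 : l' = l'' := by
          rcases mul_eq_zero.1 h8 with h9 | h9
          · exact absurd h9 hc0
          · exact sub_eq_zero.1 h9
        have h10 : l = l'' := by
          rcases smul_eq_zero.1 h6 with h10 | h10
          · exact sub_eq_zero.1 h10
          · exfalso
            apply he
            rw [h10]
            exact h.zero_left _
        rw [hla, h9, h10]
    intro v
    by_cases hv : h.B (v : V) (v : V) = 0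
    · by_cases hv1 : h.B ((v : V) + (1 : F) • (e : V)) ((v : V) + (1 : F) • (e : V)) = 0
      · by_cases hv2 : h.B ((v : V) + (-1 : F) • (e : V)) ((v : V) + (-1 : F) • (e : V)) = 0
        · exfalso
          rw [hquad _ _ _ (map_one _), hv] at hv1
          rw [hquad _ _ _ hσn, hv] at hv2
          have h5 : 2 * h.B (e : V) (e : V) = 0 := by linear_combination hv1 + hv2
          exact mul_ne_zero h2 he h5
        · have h5 := main (v + (-1 : F) • e) hv2
          rw [map_add, hlin _ hσn, hle] at h5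
          have h6 : f v = (f v + (-1 : F) • l • e) - (-1 : F) • l • e := by abel
          rw [h6, h5]
          module
      · have h5 := main (v + (1 : F) • e) hv1
        rw [map_add, hlin _ (map_one _), hle] at h5
        have h6 : f v = (f v + (1 : F) • l • e) - (1 : F) • l • e := by abel
        rw [h6, h5]
        module
    · exact main v hv
  · push Not at hne
    refine ⟨0, ?_⟩
    intro a
    have ha : a = 0 := by
      apply h.perp2_nondeg hD.pair
      intro b
      obtain ⟨c, hc⟩ := hσ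
      have h5 := hne (a + b)
      have h6 := hne (a + c • b)
      have h7 := hne a
      have h8 := hne b
      have h5' : h.B ((a : V) + (b : V)) ((a : V) + (b : V)) = 0 := h5
      have h6' : h.B ((a : V) + c • (b : V)) ((a : V) + c • (b : V)) = 0 := h6
      rw [h.add_left, h.add_right, h.add_right, h7, h8] at h5'
      rw [h.add_left, h.add_right, h.add_right, h.smul_left, h.smul_left, h.smul_right,
        h.smul_right, h7, h8] at h6'
      have h9 : (h.σ c - c) * h.B (a : V) (b : V) = 0 := by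
        linear_combination h.σ c * h5' - h6'
      rcases mul_eq_zero.1 h9 with h10 | h10
      · exact absurd (sub_eq_zero.1 h10) hc
      · exact h10
    rw [ha, map_zero, smul_zero]

end Pool.Agent.Helper54.OC
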