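import Pool.Agent.Helper54.OC.TwoM
import Pool.Agent.Helper54.OC.Tau
import Pool.Agent.Helper54.CL.PiTwo
import Pool.Agent.Helper54.CL.Quasi

/-!
# OC-19: symplectic and unitary groups, the stabilizer of an isotropic point, first part

`PtD h p x y κ π`: `Pair x y`, and `π` is the homomorphism of CL-06 (`exists_pi2`).  `z t = π (up t)`, `hc c = π (dg c)`, `w = π (ww _)`, `K = h.F0`.
The form is not symmetric (`κ ≠ 0`, `ε κ + σ κ = 0`).

PROOF.
* `pt_up`, `pt_lo`, `pt_dg`, `pt_ww`: insert the matrices in the formula `ap` (for `π (ww _)`: only the values on `x`, `y`; `B y x = ε`).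
* `pt_form`: `UU_form'`.  `pt_a`: `u ↦ p1 x y (u y)` is the `a` of `UU_form'`: `E x a t y = y + a + t x`.
* `pt_comm`: for `u = E x a t`, `u' = E x b s`: by `E_E` both `u u' y` and `u' u y` are `y + (a + b) + ... x` and
  `u u' u⁻¹ u'⁻¹ = E x 0 (ε B b a - ε B a b)`; `ε B b a = σ (B a b)`; the number `σ (B a b) - ε B a b` is `κ t` with `t` in `F0` (apply `σ`).
* `pt_cen`: if `σ (B a b) = ε B a b` for all `b ⊥ x, y` (here `a = pa u`), then replacing `b` by `c b`: `σ c ε B a b = ε c B a b` for all `c ∈ F`; if `σ ≠ 1` it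
  follows `B a b = 0`; if `σ = 1`, `ε = -1`, `2 B a b = 0`.  So `a = 0` (`perp2_nondeg`), and `Adm 0 t` says `t = κ t'`, `t' ∈ F0`.
* `pt_line`: `g` normalizes `z`: `g (π (up 1)) g⁻¹ = π (up s)`; apply both to `g y`: `g (y + κ x) = g y + s κ B(x, g y) x`, so `g x` is a multiple of `x`.
* `pt_nm`: `UU_conj` and `UU_smul`.
* `pt_iU`: `E x a t y = y + a + t x`.
-/

set_option autoImplicit false

namespace Pool.Agent.Helper54.OC

open Pool.Agent.Helper54.CL

section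
variable {F V : Type} [Field F] [AddCommGroup V] [Module F V] (h : HF F V)

structure PtD (p : ℕ) (x y : V) (κ : F)
    (π : Matrix.SpecialLinearGroup (Fin 2) h.F0 →* (V ≃ₗ[F] V)) : Prop where
  pair : h.Pair x y
  k0 : κ ≠ 0
  kk : h.ε * κ + h.σ κ = 0
  le : π.range ≤ h.GG p
  ap : ∀ (g : Matrix.SpecialLinearGroup (Fin 2) h.F0) (v : V),
        π g v = v + ((((g : Matrix (Fin 2) (Fin 2) h.F0) 0 0 : F) - 1) * (h.ε * h.B y v) +
            ((g : Matrix (Fin 2) (Fin 2) h.F0) 0 1 : F) * κ * h.B x v) • x +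
          (((g : Matrix (Fin 2) (Fin 2) h.F0) 1 0 : F) * κ⁻¹ * (h.ε * h.B y v) +
            (((g : Matrix (Fin 2) (Fin 2) h.F0) 1 1 : F) - 1) * h.B x v) • y

end

section
variable {p : ℕ} [Fact p.Prime] {F V : Type} [Field F] [Finite F] [CharP F p] [AddCommGroup V]
  [Module F V] [Finite V] {h : HF F V} {x y : V} {κ : F}
  {π : Matrix.SpecialLinearGroup (Fin 2) h.F0 →* (V ≃ₗ[F] V)}

omit [Fact p.Prime] [Finite F] [CharP F p] [Finite V] in
theorem pt_up (hD : PtD h p x y κ π) (t : h.F0) (v : V) :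
    π (up t) v = v + ((t : F) * κ * h.B x v) • x := by
  rw [hD.ap, up_coe]
  simp

omit [Fact p.Prime] [Finite F] [CharP F p] [Finite V] in
theorem pt_lo (hD : PtD h p x y κ π) (t : h.F0) (v : V) :
    π (lo t) v = v + ((t : F) * κ⁻¹ * (h.ε * h.B y v)) • y := by
  rw [hD.ap, lo_coe]
  simp

omit [Fact p.Prime] [Finite F] [CharP F p] [Finite V] in
theorem pt_dg (hD : PtD h p x y κ π) (c : (h.F0)ˣ) (v : V) :
    π (dg c) v = v + ((((c : h.F0) : F) - 1) * (h.ε * h.B y v)) • x +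
      (((((c⁻¹ : (h.F0)ˣ) : h.F0) : F) - 1) * h.B x v) • y := by
  rw [hD.ap, dg_coe]
  simp

omit [Fact p.Prime] [Finite F] [CharP F p] [Finite V] in
theorem pt_ww (hD : PtD h p x y κ π) :
    π (ww _) x = - (κ⁻¹ • y) ∧ π (ww _) y = κ • x ∧
    ∀ v, h.B x v = 0 → h.B y v = 0 → π (ww _) v = v := by
  refine ⟨?_, ?_, ?_⟩
  · rw [hD.ap, ww_coe, hD.pair.yx, hD.pair.xx, h.eps]
    simp
  · rw [hD.ap, ww_coe, hD.pair.yy, hD.pair.xy]
    simp
  · intro v hx hy
    rw [hD.ap, ww_coe, hx, hy]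
    simp

/-- the coordinate of an element of `UU x` -/
def pa (h : HF F V) (x y : V) (u : V ≃ₗ[F] V) : V := h.p1 x y (u y)

omit [Fact p.Prime] [Finite F] [CharP F p] [Finite V] in
private theorem pa_of_E (hD : PtD h p x y κ π) {u : V ≃ₗ[F] V} {a : V} {t : F}
    (hx : h.B x a = 0) (hy : h.B y a = 0) (hu : ∀ v, u v = h.E x a t v) : pa h x y u = a := by
  have hay : h.B a y = 0 := h.B_symm_zero hy
  have e1 : u y = y + a + t • x := by
    rw [hu, HF.E, hD.pair.xy, hay]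
    module
  have e2 := h.eps
  rw [pa, e1, HF.p1, h.add_right, h.add_right, h.smul_right, h.add_right, h.add_right,
    h.smul_right, hD.pair.yy, hD.pair.xy, hD.pair.xx, hD.pair.yx, hx, hy]
  have e3 : h.ε * (0 + 0 + t * h.ε) = t := by linear_combination t * e2
  rw [e3]
  module

omit [Fact p.Prime] [Finite F] [CharP F p] [Finite V] in
theorem pt_form (hD : PtD h p x y κ π) {u : V ≃ₗ[F] V} (hu : u ∈ h.UU x) :
    h.B x (pa h x y u) = 0 ∧ h.B y (pa h x y u) = 0 ∧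
      ∃ t, h.Adm (pa h x y u) t ∧ ∀ v, u v = h.E x (pa h x y u) t v := by
  obtain ⟨a, t, hx, hy, ht, h1⟩ := h.UU_form' hD.pair hu
  have e := pa_of_E hD hx hy h1
  rw [e]
  exact ⟨hx, hy, t, ht, h1⟩

omit [Fact p.Prime] [Finite F] [CharP F p] [Finite V] in
theorem pt_mul (hD : PtD h p x y κ π) {u u' : V ≃ₗ[F] V} (hu : u ∈ h.UU x) (hu' : u' ∈ h.UU x) :
    pa h x y (u * u') = pa h x y u + pa h x y u' := by
  obtain ⟨hx, hy, t, -, h1⟩ := pt_form hD hu
  obtain ⟨hx', hy', t', -, h1'⟩ := pt_form hD hu'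
  refine pa_of_E hD (t := t + t' - h.ε * h.B (pa h x y u) (pa h x y u')) ?_ ?_ ?_
  · rw [h.add_right, hx, hx', add_zero]
  · rw [h.add_right, hy, hy', add_zero]
  · intro v
    show u (u' v) = _
    rw [h1', h1, h.E_E hD.pair.xx hx hx']

omit [Fact p.Prime] [Finite F] [CharP F p] [Finite V] in
theorem pt_up_mem (hD : PtD h p x y κ π) (t : h.F0) : π (up t) ∈ h.UU x := by
  have ht : h.σ (t : F) = t := t.2
  have hadm : h.Adm 0 ((t : F) * κ) := by
    unfold HF.Adm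
    rw [map_mul, ht, h.zero_left, neg_zero]
    linear_combination (t : F) * hD.kk
  obtain ⟨g, hg, hg'⟩ := h.exists_E hD.pair.xx (h.zero_right x) hadm
  have : π (up t) = g := by
    ext v
    rw [pt_up hD, hg', HF.E, h.zero_left]
    module
  rw [this]
  exact hg

omit [Fact p.Prime] [Finite F] [CharP F p] [Finite V] in
theorem pt_lo_mem (hD : PtD h p x y κ π) (t : h.F0) : π (lo t) ∈ h.UU y := by
  have ht : h.σ (t : F) = t := t.2
  have hσκ : h.σ κ = - h.ε * κ := by linear_combination hD.kk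
  have hσκi : h.σ κ⁻¹ = - h.ε * κ⁻¹ := by
    rw [map_inv₀, hσκ, mul_inv, inv_eq_of_mul_eq_one_left (a := -h.ε) (b := -h.ε)
      (by rw [neg_mul_neg, h.eps])]
  have hadm : h.Adm 0 (h.ε * (t : F) * κ⁻¹) := by
    unfold HF.Adm
    rw [map_mul, map_mul, ht, hσκi, h.sig_eps, h.zero_left, neg_zero]
    linear_combination 0 * h.eps
  obtain ⟨g, hg, hg'⟩ := h.exists_E hD.pair.yy (h.zero_right y) hadm
  have : π (lo t) = g := by
    ext v
    rw [pt_lo hD, hg', HF.E, h.zero_left]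
    module
  rw [this]
  exact hg

omit [Finite F] [Finite V] in
/-- every vector `a ⊥ x, y` is a coordinate -/
theorem pt_surj (hp3 : 3 ≤ p) (hD : PtD h p x y κ π) {a : V} (hx : h.B x a = 0)
    (hy : h.B y a = 0) : ∃ u ∈ h.UU x, pa h x y u = a := by
  obtain ⟨t, ht⟩ := h.adm_exists (HF.two_ne hp3) a
  obtain ⟨g, hg, hg'⟩ := h.exists_E hD.pair.xx hx ht
  exact ⟨g, hg, pa_of_E hD hx hy hg'⟩

omit [Fact p.Prime] [Finite F] [CharP F p] [Finite V] in
theorem pt_ker (hD : PtD h p x y κ π) {u : V ≃ₗ[F] V} (hu : u ∈ h.UU x)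
    (h0 : pa h x y u = 0) : ∃ t, u = π (up t) := by
  obtain ⟨-, -, t, ht, h1⟩ := pt_form hD hu
  rw [h0] at ht h1
  have ht' : h.ε * t + h.σ t = 0 := by
    unfold HF.Adm at ht
    rw [h.zero_left, neg_zero] at ht
    exact ht
  have hσκ : h.σ κ = - h.ε * κ := by linear_combination hD.kk
  have hσκi : h.σ κ⁻¹ = - h.ε * κ⁻¹ := by
    rw [map_inv₀, hσκ, mul_inv, inv_eq_of_mul_eq_one_left (a := -h.ε) (b := -h.ε)
      (by rw [neg_mul_neg, h.eps])]
  have hmem : t * κ⁻¹ ∈ h.F0 := by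
    rw [HF.mem_F0, map_mul, hσκi]
    linear_combination (-(h.ε * κ⁻¹)) * ht' + (t * κ⁻¹) * h.eps
  refine ⟨⟨t * κ⁻¹, hmem⟩, ?_⟩
  ext v
  rw [pt_up hD, h1, HF.E, h.zero_left]
  have e1 : t * κ⁻¹ * κ = t := by rw [mul_assoc, inv_mul_cancel₀ hD.k0, mul_one]
  show _ = v + (t * κ⁻¹ * κ * h.B x v) • x
  rw [e1]
  module

omit [Fact p.Prime] [Finite F] [CharP F p] [Finite V] in
theorem pt_comm (hD : PtD h p x y κ π) {u u' : V ≃ₗ[F] V} (hu : u ∈ h.UU x) (hu' : u' ∈ h.UU x) :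
    ∃ t : h.F0, u * u' * u⁻¹ * u'⁻¹ = π (up t) ∧
      (t : F) * κ = h.σ (h.B (pa h x y u) (pa h x y u')) -
        h.ε * h.B (pa h x y u) (pa h x y u') := by
  obtain ⟨hx, hy, t, -, h1⟩ := pt_form hD hu
  obtain ⟨hx', hy', t', -, h1'⟩ := pt_form hD hu'
  set a := pa h x y u with ha
  set b := pa h x y u' with hb
  have hσκ : h.σ κ = - h.ε * κ := by linear_combination hD.kk
  have hσκi : h.σ κ⁻¹ = - h.ε * κ⁻¹ := by
    rw [map_inv₀, hσκ, mul_inv, inv_eq_of_mul_eq_one_left (a := -h.ε) (b := -h.ε)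
      (by rw [neg_mul_neg, h.eps])]
  have hmem : (h.σ (h.B a b) - h.ε * h.B a b) * κ⁻¹ ∈ h.F0 := by
    rw [HF.mem_F0, map_mul, hσκi, map_sub, map_mul, h.sig_eps, h.invol]
    linear_combination (h.σ (h.B a b) * κ⁻¹) * h.eps
  have e1 : (h.σ (h.B a b) - h.ε * h.B a b) * κ⁻¹ * κ = h.σ (h.B a b) - h.ε * h.B a b := by
    rw [mul_assoc, inv_mul_cancel₀ hD.k0, mul_one]
  refine ⟨⟨(h.σ (h.B a b) - h.ε * h.B a b) * κ⁻¹, hmem⟩, ?_, e1⟩
  rw [mul_inv_eq_iff_eq_mul, mul_inv_eq_iff_eq_mul, mul_assoc]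
  ext v
  show u (u' v) = π (up _) (u' (u v))
  have e2 : h.B b a = h.ε * h.σ (h.B a b) := h.herm a b
  have e3 : h.B x (u' (u v)) = h.B x v := by
    have e4 := hu'.1 x (u v)
    rw [hu'.2.1] at e4
    have e5 := hu.1 x v
    rw [hu.2.1] at e5
    rw [e4, e5]
  rw [pt_up hD, e3, h1', h1, h1 v, h1', h.E_E hD.pair.xx hx hx', h.E_E hD.pair.xx hx' hx, e2]
  show h.E x (a + b) (t + t' - h.ε * h.B a b) v =
    h.E x (b + a) (t' + t - h.ε * (h.ε * h.σ (h.B a b))) v +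
      ((h.σ (h.B a b) - h.ε * h.B a b) * κ⁻¹ * κ * h.B x v) • x
  have e6 : h.ε * (h.ε * h.σ (h.B a b)) = h.σ (h.B a b) := by
    rw [← mul_assoc, h.eps, one_mul]
  rw [e1, e6, add_comm b a, HF.E, HF.E]
  module

omit [Finite F] [Finite V] in
/-- the commutator form is nondegenerate -/
theorem pt_nondeg (hp3 : 3 ≤ p) (hD : PtD h p x y κ π) {a : V} (hx : h.B x a = 0)
    (hy : h.B y a = 0)
    (hc : ∀ b, h.B x b = 0 → h.B y b = 0 → h.σ (h.B a b) = h.ε * h.B a b) : a = 0 := by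
  have h2 : (2 : F) ≠ 0 := HF.two_ne hp3
  have hax : h.B a x = 0 := h.B_symm_zero hx
  have hay : h.B a y = 0 := h.B_symm_zero hy
  have key : ∀ b, h.B x b = 0 → h.B y b = 0 → h.B a b = 0 := by
    intro b hxb hyb
    by_cases hs : ∀ c, h.σ c = c
    · have h3 := hc b hxb hyb
      rw [hs] at h3
      have h4 := hD.kk
      rw [hs] at h4
      have h5 : (h.ε + 1) * κ = 0 := by linear_combination h4
      have h6 : h.ε + 1 = 0 := (mul_eq_zero.1 h5).resolve_right hD.k0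
      have h7 : 2 * h.B a b = 0 := by linear_combination h3 + h.B a b * h6
      exact (mul_eq_zero.1 h7).resolve_left h2
    · push Not at hs
      obtain ⟨c, hcc⟩ := hs
      have h3 := hc b hxb hyb
      have h4 := hc (c • b) (by rw [h.smul_right, hxb, mul_zero])
        (by rw [h.smul_right, hyb, mul_zero])
      rw [h.smul_right, map_mul, h3] at h4
      have h5 : (h.σ c - c) * (h.ε * h.B a b) = 0 := by linear_combination h4
      have h6 := (mul_eq_zero.1 h5).resolve_left (sub_ne_zero_of_ne hcc)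
      exact (mul_eq_zero.1 h6).resolve_left h.eps_ne
  apply h.nondeg
  intro v
  have h6 : v = h.p1 x y v + (h.ε * h.B y v) • x + h.B x v • y := by
    rw [HF.p1]; abel
  rw [h6, h.add_right, h.add_right, h.smul_right, h.smul_right, hax, hay,
    key _ (h.p1_x hD.pair v) (h.p1_y hD.pair v)]
  ring

omit [Finite F] [Finite V] in
theorem pt_cen (hp3 : 3 ≤ p) (hD : PtD h p x y κ π) {u : V ≃ₗ[F] V} (hu : u ∈ h.UU x)
    (hc : ∀ u' ∈ h.UU x, u * u' = u' * u) : ∃ t, u = π (up t) := by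
  obtain ⟨hx, hy, -, -, -⟩ := pt_form hD hu
  refine pt_ker hD hu (pt_nondeg hp3 hD hx hy ?_)
  intro b hxb hyb
  obtain ⟨u', hu', hb⟩ := pt_surj hp3 hD hxb hyb
  obtain ⟨t, ht, htk⟩ := pt_comm hD hu hu'
  rw [hb] at htk
  have h1 : u * u' * u⁻¹ * u'⁻¹ = 1 := by
    rw [hc u' hu']
    group
  rw [h1] at ht
  have h2 := pt_up hD t y
  rw [← ht, hD.pair.xy, mul_one] at h2
  have h3 : ((t : F) * κ) • x = 0 := by
    have h4 : y = y + ((t : F) * κ) • x := h2
    exact left_eq_add.1 h4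
  have h5 : (t : F) * κ = 0 := by
    rcases smul_eq_zero.1 h3 with h6 | h6
    · exact h6
    · exact absurd h6 hD.pair.x_ne
  rw [h5] at htk
  exact (sub_eq_zero.1 htk.symm)

omit [Fact p.Prime] [Finite F] [CharP F p] [Finite V] in
theorem pt_line (hD : PtD h p x y κ π) {g : V ≃ₗ[F] V} (hg : g ∈ h.Iso)
    (hz : ∃ s, g * π (up 1) * g⁻¹ = π (up s)) : ∃ c : F, c ≠ 0 ∧ g x = c • x := by
  obtain ⟨s, hs⟩ := hz
  rw [mul_inv_eq_iff_eq_mul] at hs
  have h1 : g (π (up 1) y) = π (up s) (g y) := congrArg (fun f : V ≃ₗ[F] V => f y) hs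
  rw [pt_up hD, pt_up hD, hD.pair.xy, map_add, map_smul] at h1
  have h2 : ((((1 : h.F0) : F)) * κ * 1) • g x = ((s : F) * κ * h.B x (g y)) • x :=
    add_left_cancel h1
  have h3 : κ • g x = ((s : F) * κ * h.B x (g y)) • x := by
    rw [← h2]
    congr 1
    push_cast
    ring
  have h4 : g x = ((s : F) * h.B x (g y)) • x := by
    apply smul_right_injective V hD.k0
    show κ • g x = κ • (((s : F) * h.B x (g y)) • x)
    rw [h3, smul_smul]
    congr 1
    ring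
  refine ⟨_, ?_, h4⟩
  intro h5
  rw [h5, zero_smul] at h4
  exact hD.pair.x_ne ((LinearEquiv.map_eq_zero_iff g).1 h4)

omit [Fact p.Prime] [Finite F] [CharP F p] [Finite V] in
theorem pt_nm (hD : PtD h p x y κ π) {g : V ≃ₗ[F] V} (hg : g ∈ h.Iso) {c : F} (hc : c ≠ 0)
    (hx : g x = c • x) (u : V ≃ₗ[F] V) : u ∈ h.UU x ↔ g * u * g⁻¹ ∈ h.UU x := by
  constructor
  · intro hu
    have h1 := h.UU_conj hg x hu
    rwa [hx, h.UU_smul hc] at h1
  · intro hu
    have h1 := h.UU_conj (h.Iso.inv_mem hg) x hu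
    have h2 : g⁻¹ * (g * u * g⁻¹) * g⁻¹⁻¹ = u := by group
    have h3 : g⁻¹ x = c⁻¹ • x := by
      have h4 : g⁻¹ (g x) = x := g.symm_apply_apply x
      rw [hx, map_smul] at h4
      rw [← h4, smul_smul, inv_mul_cancel₀ hc, one_smul, h4]
    rwa [h2, h3, h.UU_smul (inv_ne_zero hc)] at h1

omit [Fact p.Prime] [Finite F] [CharP F p] [Finite V] in
/-- the action of the stabilizer of the point on the coordinates -/
theorem pt_act (hD : PtD h p x y κ π) {g : V ≃ₗ[F] V} (hg : g ∈ h.Iso) {c : F}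
    (hx : g x = c • x) {u : V ≃ₗ[F] V} (hu : u ∈ h.UU x) :
    pa h x y (g * u * g⁻¹) = h.σ c • h.p1 x y (g (pa h x y u)) := by
  obtain ⟨hxa, hya, t, -, h1⟩ := pt_form hD hu
  set a := pa h x y u with ha
  have h2 : g (g⁻¹ y) = y := g.apply_symm_apply y
  have h3 : h.B x (g⁻¹ y) = h.σ c := by
    have h4 := hg x (g⁻¹ y)
    rw [h2, hx, h.smul_left, hD.pair.xy, mul_one] at h4
    exact h4.symm
  have h5 : (g * u * g⁻¹) y = y + h.σ c • g a +
      ((t * h.σ c - h.ε * h.B a (g⁻¹ y)) * c) • x := by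
    show g (u (g⁻¹ y)) = _
    rw [h1, HF.E, h3, map_add, map_sub, map_add, map_smul, map_smul, map_smul, hx, h2]
    module
  have h6 := hD.pair.xy
  have h7 := hD.pair.xx
  have h8 := hD.pair.yy
  have h9 := hD.pair.yx
  rw [pa, h5]
  simp only [HF.p1, h.add_right, h.smul_right, h6, h7, h8, h9]
  have e1 := h.eps
  set k := (t * h.σ c - h.ε * h.B a (g⁻¹ y)) * c with hk
  have e2 : h.ε * (0 + h.σ c * h.B y (g a) + k * h.ε) = h.ε * (h.σ c * h.B y (g a)) + k := by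
    linear_combination k * e1
  rw [e2]
  module

omit [Fact p.Prime] [Finite F] [CharP F p] [Finite V] in
theorem pt_act_z (hD : PtD h p x y κ π) {g : V ≃ₗ[F] V} (hg : g ∈ h.Iso) {c : F}
    (hx : g x = c • x) (t : h.F0) :
    ∃ s : h.F0, (s : F) = c * h.σ c * t ∧ g * π (up t) * g⁻¹ = π (up s) := by
  have ht : h.σ (t : F) = t := t.2
  have hmem : c * h.σ c * (t : F) ∈ h.F0 := by
    rw [HF.mem_F0, map_mul, map_mul, h.invol, ht]
    ring
  refine ⟨⟨c * h.σ c * (t : F), hmem⟩, rfl, ?_⟩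
  ext v
  show g (π (up t) (g⁻¹ v)) = _
  rw [pt_up hD, pt_up hD]
  have h2 : g (g⁻¹ v) = v := g.apply_symm_apply v
  have h3 : h.B x (g⁻¹ v) = h.σ c * h.B x v := by
    have h4 := hg x (g⁻¹ v)
    rw [h2, hx, h.smul_left] at h4
    exact h4.symm
  rw [map_add, map_smul, h2, hx, h3, smul_smul]
  congr 2
  show _ = c * h.σ c * (t : F) * κ * h.B x v
  ring

omit [Fact p.Prime] [Finite F] [CharP F p] [Finite V] in
theorem pt_iU (hD : PtD h p x y κ π) {u : V ≃ₗ[F] V} (hu : u ∈ h.UU x) {c : F}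
    (hy : u y = c • y) : u = 1 := by
  obtain ⟨hxa, hya, t, -, h1⟩ := pt_form hD hu
  set a := pa h x y u with ha
  have hay : h.B a y = 0 := h.B_symm_zero hya
  have e1 : u y = y + a + t • x := by
    rw [h1, HF.E, hD.pair.xy, hay]
    module
  rw [hy] at e1
  have e2 := congrArg (h.B x) e1
  rw [h.smul_right, h.add_right, h.add_right, h.smul_right, hD.pair.xy, hD.pair.xx, hxa] at e2
  have e3 : c = 1 := by linear_combination e2
  have e4 := congrArg (h.B y) e1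
  rw [h.smul_right, h.add_right, h.add_right, h.smul_right, hD.pair.yy, hD.pair.yx, hya] at e4
  have e5 : t * h.ε = 0 := by linear_combination -e4
  have e6 : t = 0 := (mul_eq_zero.1 e5).resolve_right h.eps_ne
  have e7 : a = 0 := by
    rw [e3, e6, one_smul, zero_smul, add_zero] at e1
    exact left_eq_add.1 e1
  ext v
  rw [h1, e6, e7, h.E_zero]
  rfl

end

end Pool.Agent.Helper54.OC
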