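import Pool.Agent.Helper54.OC.PtPar

/-!
# OC-21: torus elements of unitary groups in dimension 3

`σ ≠ 1`, `B e e = β ≠ 0`, `e ⊥ x, y`.

PROOF.
(1) For `s` with `ε s + σ s = - β`, `s ≠ 0`, let `v1 = E y e s`, `u = E x (- s⁻¹ e) (σ s)⁻¹`, `v2 = E y (ε (σ s / s) e) s` (in `UU y`, `UU x`, `UU y`: `exists_E`,
  check `Adm`) and `n = v2 u v1`.  Computation (use `s + ε β = - ε σ s`, `B(a, e) = - β / σ s` for `a = - s⁻¹ e`):
  `v1 x = x + ε e + ε s y`, `u (v1 x) = ε s y`, `n x = ε s y`;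
  `n y = v2 (u y)`, `u y = (σ s)⁻¹ (x - (σ s / s) e + (σ s) y)`, `n y = (σ s)⁻¹ x`;
  `u (v1 e) = - ε (σ s / s) e - ε β y`, `n e = - ε (σ s / s) e`; `n v = v` for `v ⊥ x, y, e`.
(2) `r = (π g)⁻¹ n` with `g = !![0, -1; 1, 0]`: `π g x = κ⁻¹ y`, `π g y = - κ x`.  So `r x = λ x`, `λ = ε s κ`; `r y = - (σ s κ)⁻¹ y = (σ λ)⁻¹ y`;
  `r e = - ε (σ s / s) e = (σ λ / λ) e`.
(3) Choice of `s`: if `s` is a solution of `ε s + σ s = - β` (it exists: `s = - ε β / 2`, as `σ β = ε β`), the solutions are `s + κ f`, `f ∈ F0`, and `λ` runs over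
  `λ0 + ε κ² F0 = λ0 + F0` (`κ² ∈ F0`).  `λ ∉ F0`, since `β ≠ 0` (`λ ∈ F0` iff `ε s + σ s = 0`).  `λ = ζ σ λ` with `ζ = -1` or `ζ³ = 1`, `ζ ≠ 1` has at most one
  solution in `λ0 + F0` for every `ζ` (the difference `f ∈ F0` of two satisfies `f = ζ f`).  At most three bad values; `|F0| ≥ 5`.
-/

set_option autoImplicit false

namespace Pool.Agent.Helper54.OC

open Pool.Agent.Helper54.CL

section
variable {p : ℕ} [Fact p.Prime] {F V : Type} [Field F] [CharP F p] [AddCommGroup V] [Module F V]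

private theorem ptt_three (hp5 : 5 ≤ p) : (3 : F) ≠ 0 := by
  intro h2
  have h3 : ((3 : ℕ) : F) = 0 := by exact_mod_cast h2
  rw [CharP.cast_eq_zero_iff F p] at h3
  have := Nat.le_of_dvd (by norm_num) h3
  omega

/-- the choice of the parameter -/
private theorem ptt_s (hp5 : 5 ≤ p) (h : HF F V) {κ : F} (hκ : κ ≠ 0)
    (hκ' : h.ε * κ + h.σ κ = 0) {b : F} (hb : h.σ b = h.ε * b) :
    ∃ s : F, h.ε * s + h.σ s = - b ∧ h.ε * s * κ + h.σ (h.ε * s * κ) ≠ 0 ∧
      (h.ε * s * κ) ^ 2 + (h.ε * s * κ) * h.σ (h.ε * s * κ) + h.σ (h.ε * s * κ) ^ 2 ≠ 0 := by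
  have h2 : (2 : F) ≠ 0 := HF.two_ne (p := p) (by omega)
  have h3 : (3 : F) ≠ 0 := ptt_three hp5
  have hε := h.eps
  have hσ2 : h.σ (2 : F) = 2 := map_ofNat _ _
  have hσ3 : h.σ (3 : F) = 3 := map_ofNat _ _
  by_contra hcon
  push Not at hcon
  have hσκ : h.σ κ = - (h.ε * κ) := by linear_combination hκ'
  have key : ∀ i : F, h.σ i = i →
      (2 * (h.ε * κ ^ 2) * i) * (3 * (h.ε * κ ^ 2) ^ 2 * i ^ 2 + (b * κ / 2) ^ 2) = 0 := by
    intro i hi
    have hl : h.ε * (- h.ε * b / 2 + κ * i) * κ = - (b * κ) / 2 + h.ε * κ ^ 2 * i := by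
      linear_combination (- (b * κ) / 2) * hε
    have hl' : h.σ (h.ε * (- h.ε * b / 2 + κ * i) * κ) = (b * κ) / 2 + h.ε * κ ^ 2 * i := by
      rw [map_mul, map_mul, map_add, map_mul h.σ κ i, map_div₀, map_mul, map_neg, h.sig_eps, hi,
        hσ2, hb, hσκ]
      linear_combination ((b * κ) / 2 * (h.ε * h.ε + 1) + h.ε * κ ^ 2 * i) * hε
    by_cases h4 : (h.ε * (- h.ε * b / 2 + κ * i) * κ) +
        h.σ (h.ε * (- h.ε * b / 2 + κ * i) * κ) = 0
    · rw [hl', hl] at h4
      have h5 : 2 * (h.ε * κ ^ 2) * i = 0 := by linear_combination h4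
      rw [h5, zero_mul]
    · have h5 := hcon _ ?_ h4
      · rw [hl', hl] at h5
        have h6 : 3 * (h.ε * κ ^ 2) ^ 2 * i ^ 2 + (b * κ / 2) ^ 2 = 0 := by
          linear_combination h5
        rw [h6, mul_zero]
      · rw [map_add, map_mul, map_div₀, map_mul, map_neg, h.sig_eps, hi, hσ2, hb, hσκ]
        field_simp
        linear_combination (- 2 * b) * hε
  have e0 := key 0 (map_zero _)
  have e1 := key 1 (map_one _)
  have e2 := key 2 hσ2
  have e3 := key 3 hσ3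
  obtain ⟨ε, he⟩ : ∃ ε, ε = h.ε := ⟨_, rfl⟩
  rw [← he] at hε e0 e1 e2 e3
  have h36 : (36 : F) * (ε * κ ^ 2) ^ 3 = 0 := by
    linear_combination e3 - 3 * e2 + 3 * e1 - e0
  have hε0 : ε ≠ 0 := by
    rintro rfl
    rw [mul_zero] at hε
    exact zero_ne_one hε
  have h5 : (36 : F) = 2 * 2 * 3 * 3 := by norm_num
  rw [h5] at h36
  have := mul_ne_zero (mul_ne_zero (mul_ne_zero (mul_ne_zero h2 h2) h3) h3)
    (pow_ne_zero 3 (mul_ne_zero hε0 (pow_ne_zero 2 hκ)))
  exact this h36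

end

theorem exists_re {p : ℕ} [Fact p.Prime] (hp5 : 5 ≤ p) {F V : Type} [Field F] [Finite F]
    [CharP F p] [AddCommGroup V] [Module F V] [Finite V] {h : HF F V} {x y : V} {κ : F}
    {π : Matrix.SpecialLinearGroup (Fin 2) h.F0 →* (V ≃ₗ[F] V)} (hD : PtD h p x y κ π)
    (hσ : ∃ c, h.σ c ≠ c) {e : V} (hxe : h.B x e = 0) (hye : h.B y e = 0) (he : h.B e e ≠ 0) :
    ∃ r ∈ h.GG p, ∃ l : F, l ≠ 0 ∧ r x = l • x ∧ r y = (h.σ l)⁻¹ • y ∧ r e = (h.σ l / l) • e ∧
      (∀ v, h.B x v = 0 → h.B y v = 0 → h.B e v = 0 → r v = v) ∧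
      l ≠ h.σ l ∧ l ≠ - h.σ l ∧ l ^ 3 ≠ (h.σ l) ^ 3 := by
  have hp3 : 3 ≤ p := by omega
  have hp := hD.pair
  have hε := h.eps
  have hε0 := h.eps_ne
  have hyx := hp.yx
  have hex : h.B e x = 0 := h.B_symm_zero hxe
  have hey : h.B e y = 0 := h.B_symm_zero hye
  have hp' : h.Pair y (h.ε • x) := by
    refine ⟨hp.yy, ?_, ?_⟩
    · rw [h.smul_left, h.smul_right, hp.xx, mul_zero, mul_zero]
    · rw [h.smul_right, hyx, hε]
  obtain ⟨b, hbe⟩ : ∃ b, b = h.B e e := ⟨_, rfl⟩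
  rw [← hbe] at he
  have hb : h.σ b = h.ε * b := by
    have h1 : h.B e e = h.ε * h.σ (h.B e e) := h.herm e e
    rw [← hbe] at h1
    conv_rhs => rw [h1]
    rw [← mul_assoc, hε, one_mul]
  obtain ⟨s, hs, hs1, hs2⟩ := ptt_s hp5 h hD.k0 hD.kk hb
  have hs0 : s ≠ 0 := by
    rintro rfl
    rw [mul_zero, map_zero, add_zero] at hs
    exact he (neg_eq_zero.1 hs.symm)
  obtain ⟨t, ht⟩ : ∃ t, t = h.σ s := ⟨_, rfl⟩
  have ht0 : t ≠ 0 := by rw [ht]; exact (map_ne_zero h.σ).2 hs0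
  have hσt : h.σ t = s := by rw [ht, h.invol]
  rw [← ht] at hs
  have hbt : b + h.ε * s = - t := by linear_combination hs
  -- the three elements
  obtain ⟨v1, hv1, hv1'⟩ := h.exists_E hp.yy hye (t := s) (by
    unfold HF.Adm
    rw [← ht, ← hbe]; exact hs)
  obtain ⟨u, hu, hu'⟩ := h.exists_E hp.xx (a := (-s⁻¹) • e) (t := t⁻¹)
    (by rw [h.smul_right, hxe, mul_zero]) (by
    unfold HF.Adm
    rw [h.smul_left, h.smul_right, ← hbe, map_inv₀, hσt, map_neg, map_inv₀, ← ht]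
    field_simp
    linear_combination hs)
  obtain ⟨v2, hv2, hv2'⟩ := h.exists_E hp.yy (a := (h.ε * (t / s)) • e) (t := s)
    (by rw [h.smul_right, hye, mul_zero]) (by
    unfold HF.Adm
    rw [h.smul_left, h.smul_right, ← hbe, map_mul, h.sig_eps, map_div₀, hσt, ← ht]
    have h1 : h.ε * (s / t) * (h.ε * (t / s) * b) = b := by
      field_simp
      linear_combination hε
    rw [h1]; exact hs)
  have hnx : v2 (u (v1 x)) = (h.ε * s) • y := by
    have e1 : v1 x = x + h.ε • e + (h.ε * s) • y := by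
      rw [hv1']
      unfold HF.E
      rw [hyx, hex]
      module
    have e2 : u (x + h.ε • e + (h.ε * s) • y) = (h.ε * s) • y := by
      rw [hu']
      unfold HF.E
      simp only [h.add_right, h.smul_right, h.smul_left, hp.xx, hxe, hp.xy, hex, ← hbe, hey]
      have h1 : h.σ (-s⁻¹) = - t⁻¹ := by rw [map_neg, map_inv₀, ← ht]
      rw [h1]
      match_scalars
      · field_simp
        linear_combination b * hε + hbt
      · field_simp
        ring
      · ring
    rw [e1, e2, hv2']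
    unfold HF.E
    simp only [h.smul_right, h.smul_left, hp.yy, hey]
    module
  have hny : v2 (u (v1 y)) = t⁻¹ • x := by
    have e1 : v1 y = y := by
      rw [hv1']
      unfold HF.E
      rw [hp.yy, hey]
      module
    have e2 : u y = y - s⁻¹ • e + t⁻¹ • x := by
      rw [hu']
      unfold HF.E
      simp only [h.smul_left, hp.xy, hey]
      module
    rw [e1, e2, hv2']
    unfold HF.E
    simp only [h.add_right, h.sub_right, h.smul_right, h.smul_left, hp.yy, hey, hyx, hye, hex,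
      ← hbe]
    have h1 : h.σ (h.ε * (t / s)) = h.ε * (s / t) := by
      rw [map_mul, h.sig_eps, map_div₀, hσt, ← ht]
    rw [h1]
    match_scalars
    · field_simp
      linear_combination (t * b) * hε + t * hbt
    · field_simp
      linear_combination s * hε
    · ring
  have hne : v2 (u (v1 e)) = (- (h.ε * (t / s))) • e := by
    have e1 : v1 e = e - (h.ε * b) • y := by
      rw [hv1']
      unfold HF.E
      rw [hye, ← hbe]
      module
    have e2 : u (e - (h.ε * b) • y) = (- (h.ε * (t / s))) • e - (h.ε * b) • y := by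
      rw [hu']
      unfold HF.E
      simp only [h.sub_right, h.smul_right, h.smul_left, hxe, hp.xy, ← hbe, hey]
      have h1 : h.σ (-s⁻¹) = - t⁻¹ := by rw [map_neg, map_inv₀, ← ht]
      rw [h1]
      match_scalars
      · field_simp
        linear_combination h.ε * hbt - s * hε
      · ring
      · field_simp
        ring
    rw [e1, e2, hv2']
    unfold HF.E
    simp only [h.sub_right, h.smul_right, h.smul_left, hp.yy, hey, hye, ← hbe]
    have h1 : h.σ (h.ε * (t / s)) = h.ε * (s / t) := by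
      rw [map_mul, h.sig_eps, map_div₀, hσt, ← ht]
    rw [h1]
    match_scalars
    · ring
    · field_simp
      linear_combination (h.ε * b * t) * hε
  have hnv : ∀ v, h.B x v = 0 → h.B y v = 0 → h.B e v = 0 → v2 (u (v1 v)) = v := by
    intro v h1 h3 h4
    have e1 : v1 v = v := by
      rw [hv1']
      unfold HF.E
      rw [h3, h4]
      module
    have e2 : u v = v := by
      rw [hu']
      unfold HF.E
      rw [h1, h.smul_left, h4]
      module
    rw [e1, e2, hv2']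
    unfold HF.E
    rw [h3, h.smul_left, h4]
    module
  obtain ⟨w1, w2, w3⟩ := pt_ww hD
  have hUx := h.UU_le_GG hp3 hp
  have hUy := h.UU_le_GG hp3 hp'
  have hσκ : h.σ κ = - (h.ε * κ) := by linear_combination hD.kk
  obtain ⟨l, hl⟩ : ∃ l, l = h.ε * s * κ := ⟨_, rfl⟩
  have hσl : h.σ l = - (t * κ) := by
    rw [hl, map_mul, map_mul, h.sig_eps, ← ht, hσκ]
    linear_combination (- t * κ) * hε
  have hl0 : l ≠ 0 := by
    rw [hl]; exact mul_ne_zero (mul_ne_zero hε0 hs0) hD.k0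
  rw [← hl] at hs1 hs2
  have hlne : l ≠ h.σ l := by
    intro h1
    rw [hσl, hl] at h1
    have h3 : κ * b = 0 := by linear_combination h1 * (-1) + κ * hbt
    rcases mul_eq_zero.1 h3 with h4 | h4
    · exact hD.k0 h4
    · exact he h4
  refine ⟨π (ww _) * (v2 * (u * v1)), Subgroup.mul_mem _ (hD.le ⟨_, rfl⟩)
    (Subgroup.mul_mem _ (hUy hv2) (Subgroup.mul_mem _ (hUx hu) (hUy hv1))), l, hl0, ?_, ?_, ?_, ?_,
    ?_, ?_, ?_⟩
  · show π (ww _) (v2 (u (v1 x))) = _
    rw [hnx, map_smul, w2, smul_smul, hl]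
  · show π (ww _) (v2 (u (v1 y))) = _
    rw [hny, map_smul, w1, hσl, smul_neg, smul_smul, ← neg_smul]
    congr 1
    have := hD.k0
    field_simp
  · show π (ww _) (v2 (u (v1 e))) = _
    rw [hne, map_smul, w3 _ hxe hye, hσl, hl]
    congr 1
    have := hD.k0
    field_simp
    linear_combination (- 1 : F) * hε
  · intro v h1 h3 h4
    show π (ww _) (v2 (u (v1 v))) = _
    rw [hnv v h1 h3 h4, w3 _ h1 h3]
  · exact hlne
  · intro h1
    apply hs1
    linear_combination h1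
  · intro h1
    have h3 : (l - h.σ l) * (l ^ 2 + l * h.σ l + h.σ l ^ 2) = 0 := by linear_combination h1
    rcases mul_eq_zero.1 h3 with h4 | h4
    · exact hlne (sub_eq_zero.1 h4)
    · exact hs2 h4

end Pool.Agent.Helper54.OC
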