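import Pool.Agent.Helper54.OC.PtComm

/-!
# OC-23: the condition `ts` for symplectic and unitary groups

PROOF.  `E = perp2 x y`.  The coordinate `u ↦ pa u` is a surjective homomorphism `UU x → E` with kernel `{π (up t)}` (`pt_mul`, `pt_surj`, `pt_ker`, `pt_form`); `φ` is
trivial on the kernel, so it induces an additive bijection `φ'` of `E`, `φ'^p = 1`.  Let `Δ(a, b) = σ (B a b) - ε B a b`; by `pt_comm` `Δ(φ' a, φ' b) = Δ(a, b)`.
If `E = 0`, `s = 1`.
(1) `φ' (c a) = c φ' a` for `c ∈ F0`: `Δ(c a, b) = c Δ(a, b)` and `pt_nondeg`.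
(2) `φ'` is `F`-linear.  If `σ = 1` this is (1).  Let `σ ≠ 1`.  `ρ r a = σ c • p1 x y (r a)` for `r ∈ GG`, `r x = c x`; by `hr` and `pt_act`, for every `r` there is
    `r'` with `φ' (ρ r) = (ρ r') φ'`; the same holds for `φ'^(p-1) = φ'⁻¹`.  Let `c ∈ F` and `f = φ' c φ'⁻¹`.  For `r ∈ R`: `φ'⁻¹ (ρ r) = (ρ r'') φ'⁻¹`, so
    `f (ρ r) = φ' c (ρ r'') φ'⁻¹ = φ' (ρ r'') c φ'⁻¹ = (ρ r) f` (`ρ r''` is `F`-linear).  By `pt_commutant` `f` is a scalar `τ c`.  `τ` is a ring homomorphism `F → F`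
    (`E ≠ 0`), the identity on `F0`.  `c` is a root of `X² - (c + σ c) X + c σ c`, with coefficients in `F0`, so `τ c = c` or `τ c = σ c`.  If `τ c0 = σ c0 ≠ c0` for some
    `c0`, then `F = F0 + F0 c0` gives `τ = σ`; then `1 = φ'^p` is `σ^p = σ`-semilinear (`p` odd), so `σ = 1`, a contradiction.  So `τ = 1`.
(3) `φ'` is an isometry: `β = B (φ' a) (φ' b) - B a b` satisfies `σ β = ε β`, and replacing `b` by `c b`, `σ c σ β = ε c β` for all `c ∈ F`; so `β = 0` if `σ ≠ 1`; if
    `σ = 1` then `ε = -1` (`κ ≠ 0`), `2 β = 0`.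
(4) `φ'` is in `(restr).GG p` (an isometry with `φ'^(p^1) = 1`), `s = (ext φ')⁻¹ ∈ GG p` (`ext_GG`), `s x = x`; `pt_act`.
-/

set_option autoImplicit false

namespace Pool.Agent.Helper54.OC

open Pool.Agent.Helper54.CL

section
variable {p : ℕ} {F V : Type} [Field F] [AddCommGroup V] [Module F V] {h : HF F V} {x y : V}
  {κ : F} {π : Matrix.SpecialLinearGroup (Fin 2) h.F0 →* (V ≃ₗ[F] V)}

private theorem pts_p1 {v : V} (hx : h.B x v = 0) (hy : h.B y v = 0) : h.p1 x y v = v := by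
  rw [HF.p1, hx, hy, mul_zero, zero_smul, zero_smul, sub_zero, sub_zero]

private theorem pts_up (hD : PtD h p x y κ π) (t : h.F0) : pa h x y (π (up t)) = 0 := by
  rw [pa, pt_up hD, hD.pair.xy, HF.p1, h.add_right, h.add_right, h.smul_right, h.smul_right,
    hD.pair.yy, hD.pair.yx, hD.pair.xy, hD.pair.xx]
  have e := h.eps
  have e2 : h.ε * (0 + (t : F) * κ * 1 * h.ε) = (t : F) * κ * 1 := by
    linear_combination ((t : F) * κ) * e
  rw [e2]
  module

/-- the additive map induced on the coordinates -/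
private def PInd (h : HF F V) (x y : V) (ψ : MulAut (h.UU x))
    (f : AddMonoid.End (h.perp2 x y)) : Prop :=
  ∀ (u : h.UU x) (a : h.perp2 x y), (a : V) = pa h x y (u : V ≃ₗ[F] V) →
    ((f a : h.perp2 x y) : V) = pa h x y ((ψ u : h.UU x) : V ≃ₗ[F] V)

private theorem pts_mul {ψ χ : MulAut (h.UU x)} {f g : AddMonoid.End (h.perp2 x y)}
    (hf : PInd h x y ψ f) (hg : PInd h x y χ g) : PInd h x y (ψ * χ) (f * g) := by
  intro u a ha
  exact hf (χ u) (g a) (hg u a ha)

private theorem pts_one : PInd h x y 1 1 := fun _ _ ha => ha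

private theorem pts_pow {ψ : MulAut (h.UU x)} {f : AddMonoid.End (h.perp2 x y)}
    (hf : PInd h x y ψ f) (n : ℕ) : PInd h x y (ψ ^ n) (f ^ n) := by
  induction n with
  | zero => rw [pow_zero, pow_zero]; exact pts_one
  | succ n ih => rw [pow_succ, pow_succ]; exact pts_mul ih hf

/-- the action on the coordinates -/
private def rho (hp : h.Pair x y) (c : F) (r : V ≃ₗ[F] V) : h.perp2 x y →ₗ[F] h.perp2 x y where
  toFun a := ⟨h.σ c • h.p1 x y (r (a : V)), by rw [h.smul_right, h.p1_x hp, mul_zero],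
    by rw [h.smul_right, h.p1_y hp, mul_zero]⟩
  map_add' := by
    intro a b
    apply Subtype.ext
    show h.σ c • h.p1 x y (r ((a : V) + (b : V))) =
      h.σ c • h.p1 x y (r (a : V)) + h.σ c • h.p1 x y (r (b : V))
    rw [map_add]
    simp only [HF.p1, h.add_right]
    module
  map_smul' := by
    intro d a
    apply Subtype.ext
    show h.σ c • h.p1 x y (r (d • (a : V))) = d • (h.σ c • h.p1 x y (r (a : V)))
    rw [map_smul]
    simp only [HF.p1, h.smul_right]
    module

private theorem rho_coe (hp : h.Pair x y) (c : F) (r : V ≃ₗ[F] V) (a : h.perp2 x y) :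
    ((rho hp c r a : h.perp2 x y) : V) = h.σ c • h.p1 x y (r (a : V)) := rfl

end

section
variable {p : ℕ} [Fact p.Prime] {F V : Type} [Field F] [Finite F] [CharP F p] [AddCommGroup V]
  [Module F V] [Finite V] {h : HF F V} {x y : V} {κ : F}
  {π : Matrix.SpecialLinearGroup (Fin 2) h.F0 →* (V ≃ₗ[F] V)}

omit [Finite F] [Finite V] in
private theorem pts_uniq (hp3 : 3 ≤ p) (hD : PtD h p x y κ π) {ψ : MulAut (h.UU x)}
    {f g : AddMonoid.End (h.perp2 x y)} (hf : PInd h x y ψ f) (hg : PInd h x y ψ g) : f = g := by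
  ext a
  obtain ⟨u, hu, hua⟩ := pt_surj hp3 hD a.2.1 a.2.2
  rw [hf ⟨u, hu⟩ a hua.symm, hg ⟨u, hu⟩ a hua.symm]

omit [Finite F] [Finite V] in
private theorem pts_exists (hp3 : 3 ≤ p) (hD : PtD h p x y κ π) (φ : MulAut (h.UU x))
    (hz : ∀ t, ((φ ⟨π (up t), pt_up_mem hD t⟩ : h.UU x) : V ≃ₗ[F] V) = π (up t)) :
    ∃ f : AddMonoid.End (h.perp2 x y), PInd h x y φ f := by
  have hwd : ∀ u v : h.UU x, pa h x y (u : V ≃ₗ[F] V) = pa h x y (v : V ≃ₗ[F] V) →
      pa h x y ((φ u : h.UU x) : V ≃ₗ[F] V) = pa h x y ((φ v : h.UU x) : V ≃ₗ[F] V) := by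
    intro u v huv
    have h0 : (u : V ≃ₗ[F] V) * ((u⁻¹ * v : h.UU x) : V ≃ₗ[F] V) = (v : V ≃ₗ[F] V) := by
      rw [← Subgroup.coe_mul]
      congr 1
      group
    have h1 : pa h x y ((u⁻¹ * v : h.UU x) : V ≃ₗ[F] V) = 0 := by
      have h2 := pt_mul hD u.2 (u⁻¹ * v).2
      rw [h0, ← huv] at h2
      exact left_eq_add.1 h2
    obtain ⟨t, ht⟩ := pt_ker hD (u⁻¹ * v).2 h1
    have h3 : u⁻¹ * v = ⟨π (up t), pt_up_mem hD t⟩ := Subtype.ext ht
    have h4 : φ v = φ u * φ ⟨π (up t), pt_up_mem hD t⟩ := by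
      rw [← map_mul, ← h3]
      congr 1
      group
    have h5 := pt_mul hD (φ u).2 (φ ⟨π (up t), pt_up_mem hD t⟩).2
    rw [← Subgroup.coe_mul, ← h4, hz, pts_up hD, add_zero] at h5
    exact h5.symm
  choose u hu hua using fun a : h.perp2 x y => pt_surj hp3 hD a.2.1 a.2.2
  let w : h.perp2 x y → h.UU x := fun a => ⟨u a, hu a⟩
  have hw : ∀ a : h.perp2 x y, pa h x y ((w a : h.UU x) : V ≃ₗ[F] V) = (a : V) := hua
  let f : h.perp2 x y →+ h.perp2 x y := AddMonoidHom.mk'
    (fun a => ⟨pa h x y ((φ (w a) : h.UU x) : V ≃ₗ[F] V), (pt_form hD (φ (w a)).2).1,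
      (pt_form hD (φ (w a)).2).2.1⟩) (by
      intro a b
      apply Subtype.ext
      show pa h x y ((φ (w (a + b)) : h.UU x) : V ≃ₗ[F] V) =
        pa h x y ((φ (w a) : h.UU x) : V ≃ₗ[F] V) + pa h x y ((φ (w b) : h.UU x) : V ≃ₗ[F] V)
      rw [← pt_mul hD (φ (w a)).2 (φ (w b)).2, ← Subgroup.coe_mul, ← map_mul]
      apply hwd
      rw [Subgroup.coe_mul, pt_mul hD (w a).2 (w b).2, hw, hw, hw]
      rfl)
  exact ⟨f, fun v a hav => hwd (w a) v ((hw a).trans hav)⟩

omit [Finite F] [Finite V] in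
/-- the commutator form is preserved -/
private theorem pts_delta (hp3 : 3 ≤ p) (hD : PtD h p x y κ π) {φ : MulAut (h.UU x)}
    (hz : ∀ t, ((φ ⟨π (up t), pt_up_mem hD t⟩ : h.UU x) : V ≃ₗ[F] V) = π (up t))
    {f : AddMonoid.End (h.perp2 x y)} (hf : PInd h x y φ f) (a b : h.perp2 x y) :
    h.σ (h.B (f a : h.perp2 x y) (f b : h.perp2 x y)) -
      h.ε * h.B (f a : h.perp2 x y) (f b : h.perp2 x y) =
        h.σ (h.B (a : V) (b : V)) - h.ε * h.B (a : V) (b : V) := by
  obtain ⟨u, hu, hua⟩ := pt_surj hp3 hD a.2.1 a.2.2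
  obtain ⟨v, hv, hvb⟩ := pt_surj hp3 hD b.2.1 b.2.2
  have h1 := hf ⟨u, hu⟩ a hua.symm
  have h2 := hf ⟨v, hv⟩ b hvb.symm
  obtain ⟨t, ht, htk⟩ := pt_comm hD hu hv
  obtain ⟨t', ht', htk'⟩ := pt_comm hD (φ ⟨u, hu⟩).2 (φ ⟨v, hv⟩).2
  rw [← h1, ← h2] at htk'
  rw [hua, hvb] at htk
  have h3 : (⟨u, hu⟩ * ⟨v, hv⟩ * ⟨u, hu⟩⁻¹ * ⟨v, hv⟩⁻¹ : h.UU x) =
      ⟨π (up t), pt_up_mem hD t⟩ := Subtype.ext ht
  have h4 := congrArg (fun g : h.UU x => ((φ g : h.UU x) : V ≃ₗ[F] V)) h3
  simp only [map_mul, map_inv, hz] at h4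
  have h5 : (((φ ⟨u, hu⟩ * φ ⟨v, hv⟩ * (φ ⟨u, hu⟩)⁻¹ * (φ ⟨v, hv⟩)⁻¹ : h.UU x)) :
      V ≃ₗ[F] V) = π (up t') := ht'
  rw [h5] at h4
  have h6 : π (up t') y = π (up t) y := by rw [h4]
  rw [pt_up hD, pt_up hD, hD.pair.xy] at h6
  have h7 := add_left_cancel h6
  have h8 : (t' : F) * κ * 1 = (t : F) * κ * 1 := by
    by_contra hne
    have h9 : ((t' : F) * κ * 1 - (t : F) * κ * 1) • x = 0 := by
      rw [sub_smul, h7, sub_self]
    rcases smul_eq_zero.1 h9 with h10 | h10
    · exact hne (sub_eq_zero.1 h10)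
    · exact hD.pair.x_ne h10
  rw [← htk, ← htk']
  linear_combination h8

omit [Finite F] [Finite V] in
/-- linear over the fixed field -/
private theorem pts_lin0 (hp3 : 3 ≤ p) (hD : PtD h p x y κ π)
    {f g : AddMonoid.End (h.perp2 x y)}
    (hΔ : ∀ a b : h.perp2 x y, h.σ (h.B (f a : h.perp2 x y) (f b : h.perp2 x y)) -
      h.ε * h.B (f a : h.perp2 x y) (f b : h.perp2 x y) =
        h.σ (h.B (a : V) (b : V)) - h.ε * h.B (a : V) (b : V))
    (hfg : ∀ a, f (g a) = a) {c : F} (hc : h.σ c = c) (a : h.perp2 x y) :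
    f (c • a) = c • f a := by
  have h1 : (((f (c • a) - c • f a : h.perp2 x y)) : V) = 0 := by
    apply pt_nondeg hp3 hD (f (c • a) - c • f a).2.1 (f (c • a) - c • f a).2.2
    intro b hxb hyb
    have h2 := hΔ (c • a) (g ⟨b, hxb, hyb⟩)
    have h3 := hΔ a (g ⟨b, hxb, hyb⟩)
    rw [hfg] at h2 h3
    have h4 : h.B (((c • a : h.perp2 x y)) : V) ((g ⟨b, hxb, hyb⟩ : h.perp2 x y) : V) =
        c * h.B (a : V) ((g ⟨b, hxb, hyb⟩ : h.perp2 x y) : V) := by
      show h.B (c • (a : V)) _ = _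
      rw [h.smul_left, hc]
    rw [h4] at h2
    have h5 : h.B (((f (c • a) - c • f a : h.perp2 x y)) : V) b =
        h.B ((f (c • a) : h.perp2 x y) : V) b - c * h.B ((f a : h.perp2 x y) : V) b := by
      show h.B (((f (c • a) : h.perp2 x y) : V) - c • ((f a : h.perp2 x y) : V)) b = _
      rw [h.sub_left, h.smul_left, hc]
    rw [h5, map_sub, map_mul, hc]
    rw [map_mul, hc] at h2
    linear_combination h2 - c * h3
  have h2 : f (c • a) - c • f a = 0 := Subtype.ext h1
  exact sub_eq_zero.1 h2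

/-- the induced map normalizes the action of the stabilizer -/
private theorem pts_step (hp3 : 3 ≤ p) (hD : PtD h p x y κ π) {φ : MulAut (h.UU x)}
    (hr : ∀ r ∈ h.GG p, (∃ c : F, r x = c • x) → ∃ r' ∈ h.GG p, (∃ c : F, r' x = c • x) ∧
      ∀ u v : h.UU x, (v : V ≃ₗ[F] V) = r * (u : V ≃ₗ[F] V) * r⁻¹ →
        (φ v : V ≃ₗ[F] V) = r' * (φ u : V ≃ₗ[F] V) * r'⁻¹)
    {f : AddMonoid.End (h.perp2 x y)} (hf : PInd h x y φ f) (n : ℕ) :
    ∀ r ∈ h.GG p, ∀ c : F, r x = c • x → ∃ r' ∈ h.GG p, ∃ c' : F, r' x = c' • x ∧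
      ∀ a : h.perp2 x y, (f ^ n) (rho hD.pair c r a) = rho hD.pair c' r' ((f ^ n) a) := by
  induction n with
  | zero =>
    intro r hrG c hrx
    exact ⟨r, hrG, c, hrx, fun a => rfl⟩
  | succ n ih =>
    intro r hrG c hrx
    obtain ⟨r1, hr1G, ⟨c1, hr1x⟩, h1⟩ := hr r hrG ⟨c, hrx⟩
    obtain ⟨r2, hr2G, c2, hr2x, h2⟩ := ih r1 hr1G c1 hr1x
    refine ⟨r2, hr2G, c2, hr2x, fun a => ?_⟩
    have h3 : f (rho hD.pair c r a) = rho hD.pair c1 r1 (f a) := by
      obtain ⟨u, hu, hua⟩ := pt_surj hp3 hD a.2.1 a.2.2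
      have hc0 : c ≠ 0 := by
        rintro rfl
        rw [zero_smul] at hrx
        exact hD.pair.x_ne ((LinearEquiv.map_eq_zero_iff r).1 hrx)
      have hrI := h.GG_le p hrG
      have hr1I := h.GG_le p hr1G
      have hv : r * u * r⁻¹ ∈ h.UU x := (pt_nm hD hrI hc0 hrx u).1 hu
      have h4 := h1 ⟨u, hu⟩ ⟨r * u * r⁻¹, hv⟩ rfl
      have h5 := hf ⟨r * u * r⁻¹, hv⟩ (rho hD.pair c r a) (by
        rw [rho_coe]
        show _ = pa h x y (r * u * r⁻¹)
        rw [pt_act hD hrI hrx hu, hua])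
      have h6 := hf ⟨u, hu⟩ a hua.symm
      apply Subtype.ext
      rw [h5, h4, pt_act hD hr1I hr1x (φ ⟨u, hu⟩).2, ← h6, rho_coe]
    rw [pow_succ]
    show (f ^ n) (f (rho hD.pair c r a)) = rho hD.pair c2 r2 ((f ^ n) (f a))
    rw [h3, h2]

end

theorem pt_ts {p : ℕ} [Fact p.Prime] (hp5 : 5 ≤ p) {F V : Type} [Field F] [Finite F]
    [CharP F p] [AddCommGroup V] [Module F V] [Finite V] {h : HF F V} {x y : V} {κ : F}
    {π : Matrix.SpecialLinearGroup (Fin 2) h.F0 →* (V ≃ₗ[F] V)} (hD : PtD h p x y κ π)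
    (φ : MulAut (h.UU x)) (hφ : φ ^ p = 1)
    (hz : ∀ t, ((φ ⟨π (up t), pt_up_mem hD t⟩ : h.UU x) : V ≃ₗ[F] V) = π (up t))
    (hr : ∀ r ∈ h.GG p, (∃ c : F, r x = c • x) → ∃ r' ∈ h.GG p, (∃ c : F, r' x = c • x) ∧
      ∀ u v : h.UU x, (v : V ≃ₗ[F] V) = r * (u : V ≃ₗ[F] V) * r⁻¹ →
        (φ v : V ≃ₗ[F] V) = r' * (φ u : V ≃ₗ[F] V) * r'⁻¹) :
    ∃ s ∈ h.GG p, s x = x ∧
      ∀ u : h.UU x, pa h x y (s * (φ u : V ≃ₗ[F] V) * s⁻¹) = pa h x y (u : V ≃ₗ[F] V) := by
  have hp3 : 3 ≤ p := by omega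
  have h2 : (2 : F) ≠ 0 := HF.two_ne hp3
  obtain ⟨f, hf⟩ := pts_exists hp3 hD φ hz
  have hfp : f ^ p = 1 := by
    have h1 := pts_pow hf p
    rw [hφ] at h1
    exact pts_uniq hp3 hD h1 pts_one
  obtain ⟨g, hg⟩ : ∃ g : AddMonoid.End (h.perp2 x y), g = f ^ (p - 1) := ⟨_, rfl⟩
  have hp1 : p - 1 + 1 = p := by omega
  have hfg' : f * g = 1 := by
    rw [hg, ← pow_succ', hp1, hfp]
  have hgf' : g * f = 1 := by
    rw [hg, ← pow_succ, hp1, hfp]
  have hfg : ∀ a, f (g a) = a := fun a => DFunLike.congr_fun hfg' a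
  have hgf : ∀ a, g (f a) = a := fun a => DFunLike.congr_fun hgf' a
  have hΔ := pts_delta hp3 hD hz hf
  have hlin0 : ∀ c : F, h.σ c = c → ∀ a : h.perp2 x y, f (c • a) = c • f a :=
    fun c hc a => pts_lin0 hp3 hD hΔ hfg hc a
  -- linearity
  have hlin : ∀ (c : F) (a : h.perp2 x y), f (c • a) = c • f a := by
    by_cases hσ : ∀ c, h.σ c = c
    · exact fun c a => hlin0 c (hσ c) a
    · push Not at hσ
      by_cases hE : ∀ a : h.perp2 x y, a = 0
      · intro c a
        rw [hE (f (c • a)), hE (c • f a)]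
      · push Not at hE
        obtain ⟨e, he⟩ := hE
        -- the scalar
        have hτ : ∀ c : F, ∃ l : F, ∀ a : h.perp2 x y, f (c • a) = l • f a := by
          intro c
          obtain ⟨l, hl⟩ := pt_commutant hp5 hD hσ
            ((f : h.perp2 x y →+ h.perp2 x y).comp
              ((DistribSMul.toAddMonoidHom (h.perp2 x y) c).comp
                (g : h.perp2 x y →+ h.perp2 x y))) (by
            intro r hrG c' hrx a b hab
            obtain ⟨r2, hr2G, c2, hr2x, h3⟩ := pts_step hp3 hD hr hf (p - 1) r hrG c' hrx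
            rw [← hg] at h3
            have hb : b = rho hD.pair c' r a := Subtype.ext hab
            show ((f (c • g b) : h.perp2 x y) : V) =
              h.σ c' • h.p1 x y (r ((f (c • g a) : h.perp2 x y) : V))
            have h4 : ∀ d : h.perp2 x y, f (rho hD.pair c2 r2 d) = rho hD.pair c' r (f d) := by
              intro d
              have h5 := h3 (f d)
              rw [hgf] at h5
              rw [← h5, hfg]
            rw [hb, h3, ← map_smul, h4, rho_coe])
          refine ⟨l, fun a => ?_⟩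
          have h5 := hl (f a)
          have h6 : f (c • g (f a)) = l • f a := h5
          rwa [hgf] at h6
        choose τ hτ using hτ
        obtain ⟨e', he'⟩ : ∃ e' : h.perp2 x y, f e' = e := ⟨g e, hfg e⟩
        have hτ2 : ∀ c, τ c = c ∨ τ c = h.σ c := by
          intro c
          have h3 : h.σ (c + h.σ c) = c + h.σ c := by rw [map_add, h.invol, add_comm]
          have h4 : h.σ (-(c * h.σ c)) = -(c * h.σ c) := by rw [map_neg, map_mul, h.invol, mul_comm]
          have h5 : f (c • c • e') = τ c • τ c • e := by rw [hτ, hτ, he']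
          have h6 : c • c • e' = (c + h.σ c) • (c • e') + (-(c * h.σ c)) • e' := by module
          rw [h6, map_add, hlin0 _ h3, hlin0 _ h4, hτ, he'] at h5
          have h7 : ((τ c - c) * (τ c - h.σ c)) • e = 0 := by
            have h8 : ((τ c - c) * (τ c - h.σ c)) • e =
                τ c • τ c • e - ((c + h.σ c) • τ c • e + (-(c * h.σ c)) • e) := by module
            rw [h8, h5, sub_self]
          rcases smul_eq_zero.1 h7 with h8 | h8
          · rcases mul_eq_zero.1 h8 with h9 | h9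
            · exact Or.inl (sub_eq_zero.1 h9)
            · exact Or.inr (sub_eq_zero.1 h9)
          · exact absurd h8 he
        have hτ1 : ∀ c, τ c = c := by
          intro c0
          rcases hτ2 c0 with h3 | h3
          · exact h3
          · by_contra hne
            have hne' : h.σ c0 ≠ c0 := fun h4 => hne (h3.trans h4)
            -- then `f` is semilinear
            have hsemi : ∀ (c : F) (a : h.perp2 x y), f (c • a) = h.σ c • f a := by
              intro c a
              have hd : c0 - h.σ c0 ≠ 0 := sub_ne_zero.2 hne'.symm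
              obtain ⟨γ, hγ⟩ : ∃ γ, γ = (c - h.σ c) / (c0 - h.σ c0) := ⟨_, rfl⟩
              have hγ' : γ * (c0 - h.σ c0) = c - h.σ c := by rw [hγ, div_mul_cancel₀ _ hd]
              have hσγ : h.σ γ = γ := by
                have h4 := congrArg h.σ hγ'
                rw [map_mul, map_sub, map_sub, h.invol, h.invol] at h4
                have h5 : (h.σ γ - γ) * (c0 - h.σ c0) = 0 := by linear_combination -h4 - hγ'
                rcases mul_eq_zero.1 h5 with h6 | h6
                · exact sub_eq_zero.1 h6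
                · exact absurd h6 hd
              have hσα : h.σ (c - γ * c0) = c - γ * c0 := by
                rw [map_sub, map_mul, hσγ]
                linear_combination hγ'
              have h4 : c • a = (c - γ * c0) • a + γ • (c0 • a) := by module
              rw [h4, map_add, hlin0 _ hσα, hlin0 _ hσγ, hτ, h3]
              have h5 : h.σ c = (c - γ * c0) + γ * h.σ c0 := by linear_combination hγ'
              rw [h5]
              module
            have hiter : ∀ (n : ℕ) (c : F) (a : h.perp2 x y),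
                (f ^ (2 * n)) (c • a) = c • (f ^ (2 * n)) a := by
              intro n
              induction n with
              | zero => intro c a; rfl
              | succ n ih =>
                intro c a
                have h4 : 2 * (n + 1) = 2 * n + 1 + 1 := by ring
                rw [h4, pow_succ, pow_succ]
                show (f ^ (2 * n)) (f (f (c • a))) = c • (f ^ (2 * n)) (f (f a))
                rw [hsemi, hsemi, h.invol, ih]
            have hodd : Odd p := (Fact.out : p.Prime).odd_of_ne_two (by omega)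
            obtain ⟨m, hm⟩ := hodd
            obtain ⟨c, hc⟩ := hσ
            have h4 : (f ^ p) (c • e) = h.σ c • (f ^ p) e := by
              rw [hm, pow_succ]
              show (f ^ (2 * m)) (f (c • e)) = h.σ c • (f ^ (2 * m)) (f e)
              rw [hsemi, hiter]
            rw [hfp] at h4
            have h5 : c • e = h.σ c • e := h4
            have h6 : (h.σ c - c) • e = 0 := by rw [sub_smul, h5, sub_self]
            rcases smul_eq_zero.1 h6 with h7 | h7
            · exact hc (sub_eq_zero.1 h7)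
            · exact he h7
        intro c a
        rw [hτ, hτ1]
  -- isometry
  have hiso : ∀ a b : h.perp2 x y, h.B ((f a : h.perp2 x y) : V) ((f b : h.perp2 x y) : V) =
      h.B (a : V) (b : V) := by
    intro a b
    have h3 := hΔ a b
    by_cases hσ : ∀ c, h.σ c = c
    · rw [hσ, hσ] at h3
      have h4 := hD.kk
      rw [hσ] at h4
      have h5 : (h.ε + 1) * κ = 0 := by linear_combination h4
      have h6 : h.ε + 1 = 0 := (mul_eq_zero.1 h5).resolve_right hD.k0
      have h7 : 2 * (h.B ((f a : h.perp2 x y) : V) ((f b : h.perp2 x y) : V) -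
          h.B (a : V) (b : V)) = 0 := by
        linear_combination h3 + (h.B ((f a : h.perp2 x y) : V) ((f b : h.perp2 x y) : V) -
          h.B (a : V) (b : V)) * h6
      exact sub_eq_zero.1 ((mul_eq_zero.1 h7).resolve_left h2)
    · push Not at hσ
      obtain ⟨c, hc⟩ := hσ
      have h4 := hΔ a (c • b)
      rw [hlin] at h4
      have h5 : h.B ((f a : h.perp2 x y) : V) (((c • f b : h.perp2 x y)) : V) =
          c * h.B ((f a : h.perp2 x y) : V) ((f b : h.perp2 x y) : V) := h.smul_right _ _ _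
      have h6 : h.B (a : V) (((c • b : h.perp2 x y)) : V) = c * h.B (a : V) (b : V) :=
        h.smul_right _ _ _
      rw [h5, h6, map_mul, map_mul] at h4
      have h7 : (h.σ c - c) * (h.ε * (h.B ((f a : h.perp2 x y) : V) ((f b : h.perp2 x y) : V) -
          h.B (a : V) (b : V))) = 0 := by linear_combination h4 - h.σ c * h3
      have h8 := (mul_eq_zero.1 h7).resolve_left (sub_ne_zero_of_ne hc)
      exact sub_eq_zero.1 ((mul_eq_zero.1 h8).resolve_left h.eps_ne)
  -- the element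
  let fl : h.perp2 x y ≃ₗ[F] h.perp2 x y :=
    { toFun := f
      map_add' := fun a b => map_add f a b
      map_smul' := hlin
      invFun := g
      left_inv := hgf
      right_inv := hfg }
  have hfl : ∀ a, fl a = f a := fun _ => rfl
  have hflp : fl ^ p = 1 := by
    have h3 : ∀ (n : ℕ) (a : h.perp2 x y), (fl ^ n) a = (f ^ n) a := by
      intro n
      induction n with
      | zero => intro a; rfl
      | succ n ih =>
        intro a
        rw [pow_succ, pow_succ]
        exact ih (f a)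
    apply LinearEquiv.ext
    intro a
    rw [h3, hfp]
    rfl
  have hflG : fl ∈ (h.restr hD.pair).GG p :=
    Subgroup.subset_closure ⟨hiso, 1, by rw [pow_one]; exact hflp⟩
  have hG := h.ext_GG hD.pair hflG
  have hsG := (h.GG p).inv_mem hG
  have hinv : ∀ v, (h.ext hD.pair fl)⁻¹ (h.ext hD.pair fl v) = v :=
    fun v => (h.ext hD.pair fl).symm_apply_apply v
  have hsx : (h.ext hD.pair fl)⁻¹ x = x := by
    have h3 := hinv x
    rwa [h.ext_x] at h3
  refine ⟨(h.ext hD.pair fl)⁻¹, hsG, hsx, fun u => ?_⟩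
  have h3 := pt_act hD (h.GG_le p hsG) (c := 1) (by rw [one_smul]; exact hsx) (φ u).2
  obtain ⟨hxa, hya, -⟩ := pt_form hD u.2
  have h4 := hf u ⟨pa h x y (u : V ≃ₗ[F] V), hxa, hya⟩ rfl
  rw [h3, ← h4, map_one, one_smul, ← hfl, ← h.ext_perp hD.pair, hinv]
  exact pts_p1 hxa hya

end Pool.Agent.Helper54.OC
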