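import Pool.Agent.Helper54.OC.Tau
import Mathlib

/-!
# OC-12: the data of `Par` for `SL_m(F)`: the stabilizer of the point `e_a` and the hyperplane `v_b = 0`

`ap g v` is the matrix-vector product.  `slU a b`: the `g` which fix `e_a`, act trivially on `V / H`, `H = {v | v b = 0}`, and on `H / ⟨e_a⟩`.

PROOF.
* `sl_nm`: `⟸`: clear (`mem_nm'`).  `⟹`: `nm U` normalizes the center `{z t}` of `U` (`slU_cen`, or directly): if `g (z 1) g⁻¹ = u ∈ U`; better:
  `g` normalizes `{z t}` (`slU_cen` characterizes it, `g` permutes `U`), so `g (z 1) g⁻¹ = z s`; apply to `v`: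
  `g (z 1 - 1) v = (v b) g e_a` and `(z s - 1) g v = s ((g v) b) e_a`; take `v = e_b` and general `v`.
* `slU_cen`: `u = 1 + e_a f + x e_b^* + t e_a e_b^*` (with `f, x` supported outside `a, b`); commuting with `transvection` of `(a, i)` and `(i, b)`, `i ≠ a, b`
  gives `x i = 0`, `f i = 0`.
* `sl_form`: every `u ∈ U` is determined by `f`, `x`, `t`: `f j = ap u (e_j) a`, `x = ap u e_b` outside `a, b`, `t = (ap u e_b) a`.
-/

set_option autoImplicit false
open scoped Pointwise Matrix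

namespace Pool.Agent.Helper54.OC

section
variable {m : ℕ} {F : Type} [Field F]

/-- the matrix-vector product -/
def ap (g : Matrix.SpecialLinearGroup (Fin m) F) (v : Fin m → F) : Fin m → F :=
  (g : Matrix (Fin m) (Fin m) F) *ᵥ v

theorem ap_mul (g h : Matrix.SpecialLinearGroup (Fin m) F) (v : Fin m → F) :
    ap (g * h) v = ap g (ap h v) := by
  unfold ap
  rw [Matrix.mulVec_mulVec, Matrix.SpecialLinearGroup.coe_mul]

theorem ap_one (v : Fin m → F) : ap (1 : Matrix.SpecialLinearGroup (Fin m) F) v = v := by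
  unfold ap
  rw [Matrix.SpecialLinearGroup.coe_one, Matrix.one_mulVec]

theorem ap_add (g : Matrix.SpecialLinearGroup (Fin m) F) (v w : Fin m → F) :
    ap g (v + w) = ap g v + ap g w := Matrix.mulVec_add _ _ _

theorem ap_smul (g : Matrix.SpecialLinearGroup (Fin m) F) (c : F) (v : Fin m → F) :
    ap g (c • v) = c • ap g v := Matrix.mulVec_smul _ _ _

theorem ap_inv_ap (g : Matrix.SpecialLinearGroup (Fin m) F) (v : Fin m → F) :
    ap g⁻¹ (ap g v) = v := by rw [← ap_mul, inv_mul_cancel, ap_one]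

theorem ap_ap_inv (g : Matrix.SpecialLinearGroup (Fin m) F) (v : Fin m → F) :
    ap g (ap g⁻¹ v) = v := by rw [← ap_mul, mul_inv_cancel, ap_one]

theorem ap_ext {g h : Matrix.SpecialLinearGroup (Fin m) F} (H : ∀ v, ap g v = ap h v) :
    g = h := by
  apply Subtype.ext
  apply Matrix.ext_of_mulVec_single
  intro i
  exact H _

/-- the basis vectors -/
def ee (F : Type) [Field F] {m : ℕ} (i : Fin m) : Fin m → F := Pi.single i 1

/-- the unipotent radical of the stabilizer of `e_a` and of `v_b = 0` -/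
def slU (F : Type) [Field F] {m : ℕ} (a b : Fin m) :
    Subgroup (Matrix.SpecialLinearGroup (Fin m) F) where
  carrier := {g | ap g (ee F a) = ee F a ∧ (∀ v, (ap g v) b = v b) ∧
    ∀ v, v b = 0 → ∃ c : F, ap g v = v + c • ee F a}
  mul_mem' := by
    rintro g h ⟨hg, hg1, hg2⟩ ⟨hh, hh1, hh2⟩
    refine ⟨?_, ?_, ?_⟩
    · rw [ap_mul, hh, hg]
    · intro v
      rw [ap_mul, hg1, hh1]
    · intro v hv
      obtain ⟨c, hc⟩ := hh2 v hv
      obtain ⟨d, hd⟩ := hg2 v hv
      refine ⟨d + c, ?_⟩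
      rw [ap_mul, hc, ap_add, ap_smul, hg, hd, add_smul, add_assoc]
  one_mem' := ⟨ap_one _, fun v => by rw [ap_one], fun v _ => ⟨0, by rw [ap_one]; simp⟩⟩
  inv_mem' := by
    rintro g ⟨hg, hg1, hg2⟩
    have h0 : ap g⁻¹ (ee F a) = ee F a := by
      have := ap_inv_ap g (ee F a)
      rwa [hg] at this
    refine ⟨h0, ?_, ?_⟩
    · intro v
      have := hg1 (ap g⁻¹ v)
      rw [ap_ap_inv] at this
      exact this.symm
    · intro v hv
      obtain ⟨c, hc⟩ := hg2 v hv
      refine ⟨-c, ?_⟩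
      have h1 : ap g⁻¹ (ap g v) = v := ap_inv_ap g v
      rw [hc, ap_add, ap_smul, h0] at h1
      rw [neg_smul, ← sub_eq_add_neg]
      exact eq_sub_of_add_eq h1

/-- the center of `slU a b` -/
noncomputable def slZ {a b : Fin m} (hab : a ≠ b) (t : F) : Matrix.SpecialLinearGroup (Fin m) F :=
  Matrix.SpecialLinearGroup.transvection hab t

/-- the torus -/
noncomputable def slH {a b : Fin m} (hab : a ≠ b) (c : Fˣ) : Matrix.SpecialLinearGroup (Fin m) F :=
  Matrix.SpecialLinearGroup.diag2n hab (c : F) (Units.ne_zero c)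

private theorem sl_ee_self (i : Fin m) : (ee F i) i = 1 := by
  unfold ee
  rw [Pi.single_eq_same]

private theorem sl_ee_ne {i j : Fin m} (h : i ≠ j) : (ee F i) j = 0 := by
  unfold ee
  rw [Pi.single_eq_of_ne h.symm]

private theorem sl_ap_apply (g : Matrix.SpecialLinearGroup (Fin m) F) (v : Fin m → F)
    (i : Fin m) : ap g v i = ∑ j, (g : Matrix (Fin m) (Fin m) F) i j * v j := rfl

private theorem sl_transv_ap {i j : Fin m} (hij : i ≠ j) (t : F) (v : Fin m → F) :
    ap (Matrix.SpecialLinearGroup.transvection hij t) v = v + (t * v j) • ee F i := by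
  unfold ap
  have h : ((Matrix.SpecialLinearGroup.transvection hij t : Matrix.SpecialLinearGroup (Fin m) F) :
      Matrix (Fin m) (Fin m) F) = 1 + Matrix.single i j t := rfl
  rw [h, Matrix.add_mulVec, Matrix.one_mulVec]
  congr 1
  ext k
  rw [Matrix.single_mulVec]
  unfold ee
  by_cases hk : k = i
  · subst hk
    simp
  · simp [hk]

private theorem sl_ap_sub (g : Matrix.SpecialLinearGroup (Fin m) F) (v w : Fin m → F) :
    ap g (v - w) = ap g v - ap g w := Matrix.mulVec_sub _ _ _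

theorem slZ_ap {a b : Fin m} (hab : a ≠ b) (t : F) (v : Fin m → F) :
    ap (slZ hab t) v = v + (t * v b) • ee F a := sl_transv_ap hab t v

theorem slH_ap {a b : Fin m} (hab : a ≠ b) (c : Fˣ) (v : Fin m → F) :
    ap (slH hab c) v = v + (((c : F) - 1) * v a) • ee F a + (((c : F)⁻¹ - 1) * v b) • ee F b := by
  unfold ap slH
  rw [Matrix.SpecialLinearGroup.diag2n_coe]
  ext k
  rw [Matrix.mulVec_diagonal]
  simp only [Pi.add_apply, Pi.smul_apply, smul_eq_mul]
  by_cases hka : k = a
  · subst hka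
    rw [if_pos rfl, sl_ee_self, sl_ee_ne hab.symm]
    ring
  · rw [if_neg hka, sl_ee_ne (Ne.symm hka)]
    by_cases hkb : k = b
    · subst hkb
      rw [if_pos rfl, sl_ee_self]
      ring
    · rw [if_neg hkb, sl_ee_ne (Ne.symm hkb)]
      ring

theorem slZ_mem {a b : Fin m} (hab : a ≠ b) (t : F) : slZ hab t ∈ slU F a b := by
  refine ⟨?_, ?_, ?_⟩
  · rw [slZ_ap, sl_ee_ne hab, mul_zero, zero_smul, add_zero]
  · intro v
    rw [slZ_ap, Pi.add_apply, Pi.smul_apply, sl_ee_ne hab, smul_zero, add_zero]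
  · intro v hv
    exact ⟨t * v b, slZ_ap hab t v⟩

/-- the function `phi` of an element of `slU` -/
private theorem sl_phi {a b : Fin m} {u : Matrix.SpecialLinearGroup (Fin m) F}
    (hu : u ∈ slU F a b) {v : Fin m → F} (hv : v b = 0) :
    ap u v = v + ((ap u v) a - v a) • ee F a := by
  obtain ⟨c, hc⟩ := hu.2.2 v hv
  have h : (ap u v) a - v a = c := by
    rw [hc, Pi.add_apply, Pi.smul_apply, sl_ee_self, smul_eq_mul, mul_one]
    ring
  rw [h]
  exact hc

private theorem sl_form {a b : Fin m} {u : Matrix.SpecialLinearGroup (Fin m) F}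
    (hu : u ∈ slU F a b) (v : Fin m → F) :
    ap u v = v + ((ap u (v - v b • ee F b)) a - (v - v b • ee F b) a) • ee F a +
      v b • (ap u (ee F b) - ee F b) := by
  have h0 : (v - v b • ee F b) b = 0 := by
    rw [Pi.sub_apply, Pi.smul_apply, sl_ee_self, smul_eq_mul, mul_one, sub_self]
  have h1 := sl_phi hu h0
  have h2 : ap u v = ap u (v - v b • ee F b) + v b • ap u (ee F b) := by
    rw [← ap_smul, ← ap_add, sub_add_cancel]
  generalize hD : (ap u (v - v b • ee F b)) a - (v - v b • ee F b) a = D at h1 ⊢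
  rw [h2, h1, smul_sub]
  abel

private theorem sl_xb {a b : Fin m} {u : Matrix.SpecialLinearGroup (Fin m) F}
    (hu : u ∈ slU F a b) : (ap u (ee F b) - ee F b) b = 0 := by
  rw [Pi.sub_apply, hu.2.1, sub_self]

private theorem slZ_cen {a b : Fin m} (hab : a ≠ b) (t : F)
    {u : Matrix.SpecialLinearGroup (Fin m) F} (hu : u ∈ slU F a b) :
    slZ hab t * u = u * slZ hab t := by
  apply ap_ext
  intro v
  rw [ap_mul, ap_mul, slZ_ap, slZ_ap, ap_add, ap_smul, hu.1, hu.2.1]

private theorem slZ_inj {a b : Fin m} (hab : a ≠ b) {t : F} (h : slZ hab t = 1) : t = 0 := by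
  have h1 : ap (slZ hab t) (ee F b) = ee F b := by rw [h, ap_one]
  have h2 := congrFun h1 a
  rw [slZ_ap, Pi.add_apply, Pi.smul_apply, sl_ee_self, sl_ee_self, sl_ee_ne hab.symm] at h2
  simpa using h2

/-- commutators in `slU a b` -/
theorem slU_comm {a b : Fin m} (hab : a ≠ b) {u u' : Matrix.SpecialLinearGroup (Fin m) F}
    (hu : u ∈ slU F a b) (hu' : u' ∈ slU F a b) :
    u * u' * u⁻¹ * u'⁻¹ = slZ hab
      ((ap u (ap u' (ee F b) - ee F b)) a - (ap u' (ee F b) - ee F b) a -
        ((ap u' (ap u (ee F b) - ee F b)) a - (ap u (ee F b) - ee F b) a)) := by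
  generalize hτ : (ap u (ap u' (ee F b) - ee F b)) a - (ap u' (ee F b) - ee F b) a -
        ((ap u' (ap u (ee F b) - ee F b)) a - (ap u (ee F b) - ee F b) a) = τ
  have key : u * u' = slZ hab τ * (u' * u) := by
    apply ap_ext
    intro v
    rw [ap_mul, ap_mul, ap_mul, slZ_ap]
    have hb : (ap u' (ap u v)) b = v b := by rw [hu'.2.1, hu.2.1]
    rw [hb]
    have h1 := sl_form hu v
    have h2 := sl_form hu' v
    have h3 := sl_phi hu (sl_xb hu')
    have h4 := sl_phi hu' (sl_xb hu)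
    generalize hD1 : (ap u (v - v b • ee F b)) a - (v - v b • ee F b) a = D1 at h1
    generalize hD2 : (ap u' (v - v b • ee F b)) a - (v - v b • ee F b) a = D2 at h2
    generalize hE1 : (ap u (ap u' (ee F b) - ee F b)) a - (ap u' (ee F b) - ee F b) a = E1 at h3 hτ
    generalize hE2 : (ap u' (ap u (ee F b) - ee F b)) a - (ap u (ee F b) - ee F b) a = E2 at h4 hτ
    have h5 : ap u (ap u' v) = v + D1 • ee F a + v b • (ap u (ee F b) - ee F b) + D2 • ee F a +
        v b • (ap u' (ee F b) - ee F b + E1 • ee F a) := by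
      rw [h2, ap_add, ap_add, ap_smul, ap_smul, hu.1, h1, h3]
    have h6 : ap u' (ap u v) = v + D2 • ee F a + v b • (ap u' (ee F b) - ee F b) + D1 • ee F a +
        v b • (ap u (ee F b) - ee F b + E2 • ee F a) := by
      rw [h1, ap_add, ap_add, ap_smul, ap_smul, hu'.1, h2, h4]
    rw [h5, h6, ← hτ, smul_add, smul_add, sub_mul, sub_smul, mul_smul, mul_smul,
      smul_comm E1, smul_comm E2]
    abel
  have h7 : u * u' * u⁻¹ * u'⁻¹ = slZ hab τ * (u' * u) * u⁻¹ * u'⁻¹ := by rw [key]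
  rw [h7]
  group

theorem slU_cen {a b : Fin m} (hab : a ≠ b) {u : Matrix.SpecialLinearGroup (Fin m) F}
    (hu : u ∈ slU F a b) (hc : ∀ u' ∈ slU F a b, u * u' = u' * u) : ∃ t, u = slZ hab t := by
  have hcomm : ∀ u' ∈ slU F a b,
      (ap u (ap u' (ee F b) - ee F b)) a - (ap u' (ee F b) - ee F b) a -
        ((ap u' (ap u (ee F b) - ee F b)) a - (ap u (ee F b) - ee F b) a) = 0 := by
    intro u' hu'
    have h1 := slU_comm hab hu hu'
    rw [hc u' hu'] at h1
    have h2 : u' * u * u⁻¹ * u'⁻¹ = 1 := by group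
    rw [h2] at h1
    exact slZ_inj hab h1.symm
  have hx : ∀ i, i ≠ a → i ≠ b → (ap u (ee F b) - ee F b) i = 0 := by
    intro i hia hib
    have hmem : Matrix.SpecialLinearGroup.transvection hia.symm (1 : F) ∈ slU F a b := by
      refine ⟨?_, ?_, ?_⟩
      · rw [sl_transv_ap, sl_ee_ne hia.symm, mul_zero, zero_smul, add_zero]
      · intro v
        rw [sl_transv_ap, Pi.add_apply, Pi.smul_apply, sl_ee_ne hab, smul_zero, add_zero]
      · intro v _
        exact ⟨_, sl_transv_ap _ _ v⟩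
    have h1 := hcomm _ hmem
    have h2 : ap (Matrix.SpecialLinearGroup.transvection hia.symm (1 : F)) (ee F b) - ee F b =
        0 := by
      rw [sl_transv_ap, sl_ee_ne hib.symm, mul_zero, zero_smul, add_zero, sub_self]
    have h3 : ap u (0 : Fin m → F) = 0 := by
      have := ap_smul u (0 : F) (0 : Fin m → F)
      rwa [smul_zero, zero_smul] at this
    rw [h2, h3, sl_transv_ap, Pi.add_apply, Pi.smul_apply, sl_ee_self, smul_eq_mul, mul_one,
      one_mul, Pi.zero_apply] at h1
    linear_combination -h1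
  have hf : ∀ i, i ≠ a → i ≠ b → ap u (ee F i) = ee F i := by
    intro i hia hib
    have hmem : Matrix.SpecialLinearGroup.transvection hib (1 : F) ∈ slU F a b := by
      refine ⟨?_, ?_, ?_⟩
      · rw [sl_transv_ap, sl_ee_ne hab, mul_zero, zero_smul, add_zero]
      · intro v
        rw [sl_transv_ap, Pi.add_apply, Pi.smul_apply, sl_ee_ne hib, smul_zero, add_zero]
      · intro v hv
        refine ⟨0, ?_⟩
        rw [sl_transv_ap, hv, mul_zero, zero_smul, zero_smul]
    have h1 := hcomm _ hmem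
    have h2 : ap (Matrix.SpecialLinearGroup.transvection hib (1 : F)) (ee F b) - ee F b =
        ee F i := by
      rw [sl_transv_ap, sl_ee_self, mul_one, one_smul, add_sub_cancel_left]
    have h3 : ap (Matrix.SpecialLinearGroup.transvection hib (1 : F))
        (ap u (ee F b) - ee F b) = ap u (ee F b) - ee F b := by
      rw [sl_transv_ap, sl_xb hu, mul_zero, zero_smul, add_zero]
    rw [h2, h3, sub_self, sub_zero] at h1
    have h4 := sl_phi hu (sl_ee_ne (F := F) hib)
    rw [h1, zero_smul, add_zero] at h4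
    exact h4
  refine ⟨(ap u (ee F b) - ee F b) a, ?_⟩
  apply Subtype.ext
  apply Matrix.ext_of_mulVec_single
  intro i
  change ap u (ee F i) = ap (slZ hab ((ap u (ee F b) - ee F b) a)) (ee F i)
  rw [slZ_ap]
  by_cases hia : i = a
  · subst hia
    rw [hu.1, sl_ee_ne hab, mul_zero, zero_smul, add_zero]
  by_cases hib : i = b
  · subst hib
    rw [sl_ee_self, mul_one]
    ext k
    rw [Pi.add_apply, Pi.smul_apply]
    by_cases hka : k = a
    · subst hka
      rw [sl_ee_self, Pi.sub_apply, smul_eq_mul, mul_one]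
      ring
    · rw [sl_ee_ne (Ne.symm hka), smul_zero, add_zero]
      by_cases hkb : k = i
      · subst hkb
        rw [hu.2.1]
      · have := hx k hka hkb
        rw [Pi.sub_apply] at this
        exact sub_eq_zero.1 this
  · rw [hf i hia hib, sl_ee_ne hib, mul_zero, zero_smul, add_zero]

private theorem sl_pow_form {a b : Fin m}
    {u : Matrix.SpecialLinearGroup (Fin m) F} (hu : u ∈ slU F a b) (v : Fin m → F) (k : ℕ) :
    ap (u ^ k) v = v + (k : F) • (ap u v - v) +
      ((k.choose 2 : ℕ) : F) • (ap u (ap u v - v) - (ap u v - v)) := by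
  have hn1 : ∀ w : Fin m → F, w b = 0 → ∃ c : F, ap u w - w = c • ee F a := by
    intro w hw
    obtain ⟨c, hc⟩ := hu.2.2 w hw
    exact ⟨c, by rw [hc, add_sub_cancel_left]⟩
  have hn2 : (ap u v - v) b = 0 := by rw [Pi.sub_apply, hu.2.1, sub_self]
  obtain ⟨c, hc⟩ := hn1 _ hn2
  induction k with
  | zero => rw [pow_zero, ap_one]; simp
  | succ k ih =>
    rw [pow_succ', ap_mul, ih, hc, ap_add, ap_add, ap_smul, ap_smul, ap_smul, hu.1]
    have h1 : ap u (ap u v - v) = (ap u v - v) + c • ee F a := by rw [← hc]; abel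
    have h2 : ap u v = v + (ap u v - v) := by abel
    rw [h1]
    rw [h2]
    generalize hN : ap u v - v = N
    have h3 : v + N - v = N := by abel
    rw [h3]
    have h4 : ((k + 1 : ℕ).choose 2 : ℕ) = k + k.choose 2 := by
      rw [Nat.choose_succ_succ' k 1, Nat.choose_one_right]
    rw [h4]
    push_cast
    rw [smul_add, add_smul (k : F) 1 N, one_smul, add_smul]
    abel

theorem slU_pow {p : ℕ} [Fact p.Prime] [CharP F p] {a b : Fin m} (hab : a ≠ b)
    {u : Matrix.SpecialLinearGroup (Fin m) F} (hu : u ∈ slU F a b) : u ^ (p ^ 2) = 1 := by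
  have hp : p.Prime := Fact.out
  apply ap_ext
  intro v
  rw [sl_pow_form hu, ap_one]
  have h1 : ((p ^ 2 : ℕ) : F) = 0 := by
    rw [Nat.cast_pow, CharP.cast_eq_zero, zero_pow two_ne_zero]
  have h2 : (((p ^ 2).choose 2 : ℕ) : F) = 0 := by
    rw [CharP.cast_eq_zero_iff F p]
    apply hp.dvd_choose_pow two_ne_zero
    have := hp.two_le
    nlinarith
  rw [h1, h2, zero_smul, zero_smul, add_zero, add_zero]

private theorem sl_ee_ne_zero (i : Fin m) : ee F i ≠ 0 := by
  intro h
  have := congrFun h i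
  rw [sl_ee_self] at this
  exact one_ne_zero this

private theorem sl_ap_ne_zero (g : Matrix.SpecialLinearGroup (Fin m) F) {v : Fin m → F}
    (hv : v ≠ 0) : ap g v ≠ 0 := by
  intro h
  apply hv
  have h1 := ap_inv_ap g v
  rw [h] at h1
  have h2 : ap g⁻¹ (0 : Fin m → F) = 0 := by
    have := ap_smul g⁻¹ (0 : F) (0 : Fin m → F)
    rwa [smul_zero, zero_smul] at this
  rw [← h1, h2]

private theorem sl_of_z {a b : Fin m} (hab : a ≠ b) {g : Matrix.SpecialLinearGroup (Fin m) F}
    {s : F} (h : g * slZ hab 1 * g⁻¹ = slZ hab s) :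
    (∃ α : F, ap g (ee F a) = α • ee F a) ∧ ∃ β : F, ∀ v, (ap g v) b = β * v b := by
  have h1 : g * slZ hab 1 = slZ hab s * g := by rw [← h]; group
  have h2 : ∀ v, v b • ap g (ee F a) = (s * (ap g v) b) • ee F a := by
    intro v
    have h3 : ap (g * slZ hab 1) v = ap (slZ hab s * g) v := by rw [h1]
    rw [ap_mul, ap_mul, slZ_ap, slZ_ap, ap_add, ap_smul, one_mul] at h3
    exact add_left_cancel h3
  have h3 := h2 (ee F b)
  rw [sl_ee_self, one_smul] at h3
  refine ⟨⟨_, h3⟩, ?_⟩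
  have hα : s * (ap g (ee F b)) b ≠ 0 := by
    intro h4
    rw [h4, zero_smul] at h3
    exact sl_ap_ne_zero g (sl_ee_ne_zero a) h3
  have hs : s ≠ 0 := left_ne_zero_of_mul hα
  refine ⟨s⁻¹ * (s * (ap g (ee F b)) b), fun v => ?_⟩
  have h4 := congrFun (h2 v) a
  rw [h3, Pi.smul_apply, Pi.smul_apply, Pi.smul_apply, sl_ee_self, smul_eq_mul, smul_eq_mul,
    smul_eq_mul, mul_one, mul_one] at h4
  have h5 : s * (ap g v) b = s * ((ap g (ee F b)) b * v b) := by
    rw [← h4]
    ring
  have h6 := mul_left_cancel₀ hs h5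
  rw [h6, inv_mul_cancel_left₀ hs]

private theorem sl_conj_mem {a b : Fin m} {g x : Matrix.SpecialLinearGroup (Fin m) F} {α β : F}
    (hα : ap g (ee F a) = α • ee F a) (hβ : ∀ v, (ap g v) b = β * v b) (hx : x ∈ slU F a b) :
    g * x * g⁻¹ ∈ slU F a b := by
  have hα0 : α ≠ 0 := by
    intro h
    rw [h, zero_smul] at hα
    exact sl_ap_ne_zero g (sl_ee_ne_zero a) hα
  have hβ0 : β ≠ 0 := by
    intro h
    have h1 := hβ (ap g⁻¹ (ee F b))
    rw [ap_ap_inv, sl_ee_self, h, zero_mul] at h1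
    exact one_ne_zero h1
  have hginv : ap g⁻¹ (ee F a) = α⁻¹ • ee F a := by
    have h1 := ap_inv_ap g (ee F a)
    rw [hα, ap_smul] at h1
    rw [eq_inv_smul_iff₀ hα0]
    exact h1
  refine ⟨?_, ?_, ?_⟩
  · rw [ap_mul, ap_mul, hginv, ap_smul, hx.1, ap_smul, hα, smul_smul, inv_mul_cancel₀ hα0, one_smul]
  · intro v
    rw [ap_mul, ap_mul, hβ, hx.2.1, ← hβ, ap_ap_inv]
  · intro v hv
    have h1 : (ap g⁻¹ v) b = 0 := by
      have h2 := hβ (ap g⁻¹ v)
      rw [ap_ap_inv, hv] at h2
      rcases mul_eq_zero.1 h2.symm with h3 | h3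
      · exact absurd h3 hβ0
      · exact h3
    obtain ⟨c, hc⟩ := hx.2.2 _ h1
    refine ⟨c * α, ?_⟩
    rw [ap_mul, ap_mul, hc, ap_add, ap_ap_inv, ap_smul, hα, smul_smul]

theorem sl_nm {a b : Fin m} (hab : a ≠ b) {g : Matrix.SpecialLinearGroup (Fin m) F} :
    g ∈ nm (slU F a b) ↔ (∃ α : F, ap g (ee F a) = α • ee F a) ∧ ∃ β : F, ∀ v, (ap g v) b = β * v b := by
  constructor
  · intro h
    rw [mem_nm'] at h
    have h1 : g * slZ hab 1 * g⁻¹ ∈ slU F a b := (h _).1 (slZ_mem hab 1)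
    obtain ⟨s, hs⟩ := slU_cen hab h1 (by
      intro u' hu'
      have h2 : g⁻¹ * u' * g ∈ slU F a b := by
        rw [h]
        have h3 : g * (g⁻¹ * u' * g) * g⁻¹ = u' := by group
        rw [h3]
        exact hu'
      have h3 := slZ_cen hab 1 h2
      have h4 : g * slZ hab 1 * g⁻¹ * u' = g * (slZ hab 1 * (g⁻¹ * u' * g)) * g⁻¹ := by group
      rw [h4, h3]
      group)
    exact sl_of_z hab hs
  · rintro ⟨⟨α, hα⟩, β, hβ⟩
    rw [mem_nm']
    intro x
    refine ⟨sl_conj_mem hα hβ, fun hx => ?_⟩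
    have hα0 : α ≠ 0 := by
      intro h
      rw [h, zero_smul] at hα
      exact sl_ap_ne_zero g (sl_ee_ne_zero a) hα
    have hβ0 : β ≠ 0 := by
      intro h
      have h1 := hβ (ap g⁻¹ (ee F b))
      rw [ap_ap_inv, sl_ee_self, h, zero_mul] at h1
      exact one_ne_zero h1
    have hα' : ap g⁻¹ (ee F a) = α⁻¹ • ee F a := by
      have h1 := ap_inv_ap g (ee F a)
      rw [hα, ap_smul] at h1
      rw [eq_inv_smul_iff₀ hα0]
      exact h1
    have hβ' : ∀ v, (ap g⁻¹ v) b = β⁻¹ * v b := by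
      intro v
      have h2 := hβ (ap g⁻¹ v)
      rw [ap_ap_inv] at h2
      rw [h2, inv_mul_cancel_left₀ hβ0]
    have h3 := sl_conj_mem hα' hβ' hx
    have h4 : g⁻¹ * (g * x * g⁻¹) * g⁻¹⁻¹ = x := by group
    rwa [h4] at h3

/-- the same for the elements which normalize the center of `slU a b` only -/
theorem sl_nz {a b : Fin m} (hab : a ≠ b) {g : Matrix.SpecialLinearGroup (Fin m) F}
    (hg : ∀ t, ∃ s, g * slZ hab t * g⁻¹ = slZ hab s) : g ∈ nm (slU F a b) := by
  obtain ⟨s, hs⟩ := hg 1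
  rw [sl_nm hab]
  exact sl_of_z hab hs

end

end Pool.Agent.Helper54.OC
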