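import Pool.Agent.Helper54.OC.SLDefs
import Pool.Agent.Helper54.PR.SLQuasi

/-!
# OC-13: the conditions of `Par` for `SL_m(F)`, first part

`U = slU F a b`, `V = slU F b a`, `z = slZ`, `hc = slH`.

PROOF.  Write `x_g = g e_a` and `φ_g = (v ↦ (g⁻¹ v) b)` for the point and the hyperplane of `cj g U`; by `sl_nm` (conjugated), `h ∈ nm (cj g U)` iff `h x_g` is a
multiple of `x_g` and `φ_g ∘ h` is a multiple of `φ_g`; `cj g U = cj g' U` iff `g⁻¹ g' ∈ nm U`.
* `sl_w`: `w = ` the matrix with `w e_a = - e_b`, `w e_b = e_a`, `w e_i = e_i` (for example the product of three transvections).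
* `sl_faith`: `r e_a = α e_a`, `(r v) b = β v b`.  Triviality on `Z`: `α = β`.  For `u = ` transvection of `(i, b)`, `i ≠ a, b`: `r u r⁻¹ u⁻¹ ∈ Z` gives
  `r e_i ∈ α e_i + ⟨e_a⟩`.  So `α⁻¹ r` acts trivially on `e_a`, `H / ⟨e_a⟩`, `V / H`: it is in `U` once it has determinant one; `det r = α^m`.  The scalar `α` is in
  the center.
* `sl_cent`: `h = slH c`, `h r h⁻¹ r⁻¹` fixes `e_a`, acts trivially on `V / H` and `H / ⟨e_a⟩`.
* `sl_iU`: `u ∈ U` with `u e_b ∈ ⟨e_b⟩` and `(u v) a = β v a`: `u e_b = e_b` (the `b` coordinate is kept), and for `v b = 0`, `u v = v + c e_a`; with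
  `v = e_a`: `β = 1`, so `c = 0`.
* `sl_opp`: `x = x_g`, `φ = φ_g`, `φ x = 0`.  Suppose `x b = 0` or `φ e_a = 0`; we find `1 ≠ u ∈ U` with `u x ∈ ⟨x⟩`, `φ ∘ u ∈ ⟨φ⟩`.  If both are zero: `u = slZ 1`.
  If `x b = 0`, `φ e_a ≠ 0`: then `m ≥ 3` (for `m = 2`, `x ∈ ⟨e_a⟩`, `φ x = 0`); there is `y ≠ 0` with `y b = 0`, `φ y = 0` (`dim ≥ m - 2 ≥ 1`), and
  `u v = v + (v b) y`.  If `x b ≠ 0`, `φ e_a = 0`: there is a linear form `f ≠ 0` with `f e_a = 0`, `f x = 0` (`m ≥ 3`, or else `x ∈ ⟨e_a⟩`), and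
  `u v = v + (f v) e_a`.  So `x b ≠ 0`, `φ e_a ≠ 0`.  Scale: `x = e_b + y + t e_a`, `φ = e_a^* + f' + t' e_b^*`, `y a = y b = 0`, `f' e_a = f' e_b = 0`, `t + f' y + t' = 0`.
  `u v = v + (- f' v) e_a + (v b) (y + t e_a) ∈ U`: `u e_b = x`, `φ (u v) = v a`.  With `w` from `sl_w`, `V = cj w U`, `g⁻¹ u w ∈ nm U`, so `cj g U = cj u V`.
* `sl_uv`: `v = ` transvection of `(b, a)` with `1`, `u = slZ 1`: `v e_a = e_a + e_b = u e_b`, `(v⁻¹ x) b = x b - x a = - (u⁻¹ x) a`.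
* `sl_gen`: `PR.sl_gen`: transvections of `(i, j)`: in `U` if `i = a` or `j = b`, in `V` if `i = b` or `j = a`, otherwise a commutator of those of `(i, a)` and `(a, j)`.
-/

set_option autoImplicit false
open scoped Pointwise Matrix
namespace Pool.Agent.Helper54.OC
section
variable {m : ℕ} {F : Type} [Field F]

private theorem sp_self (i : Fin m) : (ee F i) i = 1 := by
  unfold ee
  rw [Pi.single_eq_same]

private theorem sp_ne {i j : Fin m} (h : i ≠ j) : (ee F i) j = 0 := by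
  unfold ee
  rw [Pi.single_eq_of_ne h.symm]

private theorem sp_ap_sub (g : Matrix.SpecialLinearGroup (Fin m) F) (v w : Fin m → F) :
    ap g (v - w) = ap g v - ap g w := Matrix.mulVec_sub _ _ _

private theorem sp_ap_neg (g : Matrix.SpecialLinearGroup (Fin m) F) (v : Fin m → F) :
    ap g (-v) = -ap g v := Matrix.mulVec_neg _ _

private theorem sp_ap_zero (g : Matrix.SpecialLinearGroup (Fin m) F) :
    ap g (0 : Fin m → F) = 0 := Matrix.mulVec_zero _

private theorem sp_tr {i j : Fin m} (hij : i ≠ j) (t : F) (v : Fin m → F) :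
    ap (Matrix.SpecialLinearGroup.transvection hij t) v = v + (t * v j) • ee F i :=
  slZ_ap hij t v

private theorem sp_dot_ee (f : Fin m → F) (i : Fin m) : f ⬝ᵥ ee F i = f i := by
  unfold ee
  rw [dotProduct_single, mul_one]

private theorem sp_ee_dot (v : Fin m → F) (i : Fin m) : ee F i ⬝ᵥ v = v i := by
  unfold ee
  rw [single_dotProduct, one_mul]

/-- `1 + x f` with `f x = 0` -/
private def rk (x f : Fin m → F) (h : f ⬝ᵥ x = 0) : Matrix.SpecialLinearGroup (Fin m) F :=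
  ⟨1 + Matrix.vecMulVec x f, by
    rw [Matrix.vecMulVec_eq Unit, Matrix.det_one_add_replicateCol_mul_replicateRow, h, add_zero]⟩

private theorem rk_ap (x f : Fin m → F) (h : f ⬝ᵥ x = 0) (v : Fin m → F) :
    ap (rk x f h) v = v + (f ⬝ᵥ v) • x := by
  unfold ap rk
  rw [Matrix.add_mulVec, Matrix.one_mulVec, Matrix.vecMulVec_mulVec]
  congr 1
  ext k
  simp [mul_comm]

private theorem sp_ap_ne_zero (g : Matrix.SpecialLinearGroup (Fin m) F) {v : Fin m → F}
    (hv : v ≠ 0) : ap g v ≠ 0 := by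
  intro h
  apply hv
  have h1 := ap_inv_ap g v
  rw [h, sp_ap_zero] at h1
  exact h1.symm

private theorem sp_ee_ne_zero (i : Fin m) : ee F i ≠ 0 := by
  intro h
  have := congrFun h i
  rw [sp_self] at this
  exact one_ne_zero this

/-- the center of `SL_m(F)` -/
abbrev slC (F : Type) [Field F] (m : ℕ) : Subgroup (Matrix.SpecialLinearGroup (Fin m) F) :=
  Subgroup.center (Matrix.SpecialLinearGroup (Fin m) F)

theorem slC_card {p : ℕ} [Fact p.Prime] [CharP F p] [Finite F] : ¬ p ∣ Nat.card (slC F m) := by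
  intro h
  have e := Matrix.SpecialLinearGroup.center_equiv_rootsOfUnity (n := Fin m) (R := F)
  rw [Nat.card_congr e.toEquiv] at h
  obtain ⟨x, hx⟩ := exists_prime_orderOf_dvd_card' p h
  have h1 : x ^ p = 1 := by rw [← hx]; exact pow_orderOf_eq_one x
  have h2 : (((x : Fˣ) : F)) ^ p = 1 := by
    have := congrArg (fun y : rootsOfUnity (max (Fintype.card (Fin m)) 1) F => ((y : Fˣ) : F)) h1
    simpa using this
  have h3 : (((x : Fˣ) : F)) = 1 := by
    have h4 : ((((x : Fˣ) : F)) - 1) ^ p = 0 := by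
      rw [sub_pow_char, h2, one_pow, sub_self]
    exact sub_eq_zero.1 (pow_eq_zero_iff (Fact.out : p.Prime).ne_zero |>.1 h4)
  have h5 : x = 1 := by
    apply Subtype.ext
    apply Units.ext
    simpa using h3
  rw [h5, orderOf_one] at hx
  exact (Fact.out : p.Prime).one_lt.ne hx


/-- the Weyl element -/
private noncomputable def slW {a b : Fin m} (hab : a ≠ b) : Matrix.SpecialLinearGroup (Fin m) F :=
  Matrix.SpecialLinearGroup.transvection hab 1 *
    Matrix.SpecialLinearGroup.transvection hab.symm (-1) *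
    Matrix.SpecialLinearGroup.transvection hab 1

private theorem slW_ap {a b : Fin m} (hab : a ≠ b) (v : Fin m → F) :
    ap (slW hab) v = v + (v b - v a) • ee F a - (v a + v b) • ee F b := by
  unfold slW
  rw [ap_mul, ap_mul, sp_tr, sp_tr, sp_tr]
  have h1 : (v + (1 * v b) • ee F a) a = v a + v b := by
    rw [Pi.add_apply, Pi.smul_apply, sp_self, smul_eq_mul, mul_one, one_mul]
  have h2 : (v + (1 * v b) • ee F a + (-1 * (v + (1 * v b) • ee F a) a) • ee F b) b = - v a := by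
    rw [h1, Pi.add_apply, Pi.add_apply, Pi.smul_apply, Pi.smul_apply, sp_self, sp_ne hab,
      smul_eq_mul, smul_eq_mul]
    ring
  rw [h2, h1]
  ext k
  simp only [Pi.add_apply, Pi.sub_apply, Pi.smul_apply, smul_eq_mul]
  ring

private theorem slW_a {a b : Fin m} (hab : a ≠ b) (v : Fin m → F) :
    (ap (slW hab) v) a = v b := by
  rw [slW_ap, Pi.sub_apply, Pi.add_apply, Pi.smul_apply, Pi.smul_apply, sp_self,
    sp_ne hab.symm, smul_eq_mul, smul_eq_mul]
  ring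

private theorem slW_b {a b : Fin m} (hab : a ≠ b) (v : Fin m → F) :
    (ap (slW hab) v) b = - v a := by
  rw [slW_ap, Pi.sub_apply, Pi.add_apply, Pi.smul_apply, Pi.smul_apply, sp_self,
    sp_ne hab, smul_eq_mul, smul_eq_mul]
  ring

private theorem slW_ea {a b : Fin m} (hab : a ≠ b) :
    ap (slW hab) (ee F a) = - ee F b := by
  rw [slW_ap, sp_self, sp_ne hab]
  ext k
  simp only [Pi.add_apply, Pi.sub_apply, Pi.smul_apply, smul_eq_mul, Pi.neg_apply]
  ring

private theorem slW_cj {a b : Fin m} (hab : a ≠ b) : cj (slW hab) (slU F a b) = slU F b a := by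
  ext x
  rw [mem_cj]
  have hmv : ∀ v, ap ((slW hab)⁻¹ * x * slW hab) v = ap (slW hab)⁻¹ (ap x (ap (slW hab) v)) := by
    intro v
    rw [ap_mul, ap_mul]
  have hbi : ∀ y, (ap (slW hab)⁻¹ y : Fin m → F) b = y a := by
    intro y
    have h0 := slW_a hab (ap (slW hab)⁻¹ y)
    rw [ap_ap_inv] at h0
    exact h0.symm
  constructor
  · rintro ⟨h1, h2, h3⟩
    rw [hmv, slW_ea, sp_ap_neg, sp_ap_neg] at h1
    have h1' : ap x (ee F b) = ee F b := by
      have h4 := congrArg (ap (slW hab)) h1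
      rw [sp_ap_neg, ap_ap_inv, slW_ea] at h4
      exact neg_injective h4
    refine ⟨h1', ?_, ?_⟩
    · intro v
      have h4 := h2 (ap (slW hab)⁻¹ v)
      rw [hmv, hbi, ap_ap_inv, hbi] at h4
      exact h4
    · intro v hv
      obtain ⟨c, hc⟩ := h3 (ap (slW hab)⁻¹ v) (by rw [hbi, hv])
      refine ⟨-c, ?_⟩
      rw [hmv, ap_ap_inv] at hc
      have h4 := congrArg (ap (slW hab)) hc
      rw [ap_ap_inv, ap_add, ap_ap_inv, ap_smul, slW_ea, smul_neg, ← neg_smul] at h4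
      exact h4
  · rintro ⟨h1, h2, h3⟩
    refine ⟨?_, ?_, ?_⟩
    · rw [hmv, slW_ea, sp_ap_neg, h1, ← slW_ea hab, ap_inv_ap]
    · intro v
      rw [hmv, hbi, h2, slW_a]
    · intro v hv
      obtain ⟨c, hc⟩ := h3 (ap (slW hab) v) (by rw [slW_a, hv])
      refine ⟨-c, ?_⟩
      rw [hmv, hc, ap_add, ap_inv_ap, ap_smul]
      have h4 : ap (slW hab)⁻¹ (ee F b) = - ee F a := by
        have h5 : ee F b = - ap (slW hab) (ee F a) := by rw [slW_ea, neg_neg]
        rw [h5, sp_ap_neg, ap_inv_ap]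
      rw [h4, smul_neg, neg_smul]

private theorem slH_k {a b : Fin m} (hab : a ≠ b) (c : Fˣ) (v : Fin m → F) (k : Fin m) :
    (ap (slH hab c) v) k = (if k = a then (c : F) else if k = b then (c : F)⁻¹ else 1) * v k := by
  rw [slH_ap]
  simp only [Pi.add_apply, Pi.smul_apply, smul_eq_mul]
  by_cases hka : k = a
  · subst hka
    rw [if_pos rfl, sp_self, sp_ne hab.symm]
    ring
  · rw [if_neg hka, sp_ne (Ne.symm hka)]
    by_cases hkb : k = b
    · subst hkb
      rw [if_pos rfl, sp_self]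
      ring
    · rw [if_neg hkb, sp_ne (Ne.symm hkb)]
      ring

private theorem ap_ext' {g h : Matrix.SpecialLinearGroup (Fin m) F}
    (H : ∀ v k, (ap g v) k = (ap h v) k) : g = h := ap_ext fun v => funext fun k => H v k

theorem sl_w {a b : Fin m} (hab : a ≠ b) : ∃ w : Matrix.SpecialLinearGroup (Fin m) F,
    cj w (slU F a b) = slU F b a ∧ ∀ c, w * slH hab c * w⁻¹ = slH hab c⁻¹ := by
  refine ⟨slW hab, slW_cj hab, fun c => ?_⟩
  rw [mul_inv_eq_iff_eq_mul]
  apply ap_ext'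
  intro v k
  rw [ap_mul, ap_mul, slH_k]
  by_cases hka : k = a
  · subst hka
    rw [if_pos rfl, slW_a, slW_a, slH_k, if_neg hab.symm, if_pos rfl, Units.val_inv_eq_inv_val]
  · rw [if_neg hka]
    by_cases hkb : k = b
    · subst hkb
      rw [if_pos rfl, slW_b, slW_b, slH_k, if_pos rfl, Units.val_inv_eq_inv_val, inv_inv]
      ring
    · rw [if_neg hkb, one_mul, slW_ap, slW_ap]
      simp only [Pi.add_apply, Pi.sub_apply, Pi.smul_apply, smul_eq_mul]
      rw [sp_ne (Ne.symm hka), sp_ne (Ne.symm hkb), slH_k, if_neg hka, if_neg hkb]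
      ring

theorem slH_mul {a b : Fin m} (hab : a ≠ b) (c d : Fˣ) :
    slH hab (c * d) = slH hab c * slH hab d := by
  apply ap_ext'
  intro v k
  rw [ap_mul, slH_k, slH_k, slH_k]
  by_cases hka : k = a
  · rw [if_pos hka, if_pos hka, if_pos hka, Units.val_mul, mul_assoc]
  · rw [if_neg hka, if_neg hka, if_neg hka]
    by_cases hkb : k = b
    · rw [if_pos hkb, if_pos hkb, if_pos hkb, Units.val_mul, mul_inv, mul_assoc]
    · rw [if_neg hkb, if_neg hkb, if_neg hkb, one_mul, one_mul]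

private theorem slH_a {a b : Fin m} (hab : a ≠ b) (c : Fˣ) :
    ap (slH hab c) (ee F a) = (c : F) • ee F a := by
  ext k
  rw [slH_k, Pi.smul_apply, smul_eq_mul]
  by_cases hka : k = a
  · rw [if_pos hka]
  · rw [sp_ne (Ne.symm hka), mul_zero, mul_zero]

private theorem slH_b {a b : Fin m} (hab : a ≠ b) (c : Fˣ) (v : Fin m → F) :
    (ap (slH hab c) v) b = (c : F)⁻¹ * v b := by
  rw [slH_k, if_neg hab.symm, if_pos rfl]

private theorem slH_nm {a b : Fin m} (hab : a ≠ b) (c : Fˣ) : slH hab c ∈ nm (slU F a b) :=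
  (sl_nm hab).2 ⟨⟨_, slH_a hab c⟩, _, slH_b hab c⟩

theorem slH_z {a b : Fin m} (hab : a ≠ b) (c : Fˣ) (t : F) :
    slH hab c * slZ hab t * (slH hab c)⁻¹ = slZ hab ((c : F) * (c : F) * t) := by
  rw [mul_inv_eq_iff_eq_mul]
  apply ap_ext
  intro v
  rw [ap_mul, ap_mul, slZ_ap, slZ_ap, ap_add, ap_smul, slH_a, slH_b, smul_smul]
  congr 2
  have := Units.ne_zero c
  field_simp

theorem slH_U {a b : Fin m} (hab : a ≠ b) (c : Fˣ) {u : Matrix.SpecialLinearGroup (Fin m) F}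
    (hu : u ∈ slU F a b) : slH hab c * u * (slH hab c)⁻¹ ∈ slU F a b :=
  (mem_nm'.1 (slH_nm hab c) u).1 hu

private theorem slZ_inj' {a b : Fin m} (hab : a ≠ b) {t s : F} (h : slZ hab t = slZ hab s) :
    t = s := by
  have h1 : (ap (slZ hab t) (ee F b)) a = (ap (slZ hab s) (ee F b)) a := by rw [h]
  rw [slZ_ap, slZ_ap] at h1
  simp only [Pi.add_apply, Pi.smul_apply, smul_eq_mul] at h1
  rw [sp_self, sp_self, mul_one, mul_one, mul_one, mul_one] at h1
  exact add_left_cancel h1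

theorem slH_comm {a b : Fin m} (hab : a ≠ b) (c : Fˣ) (t : F)
    {u u' : Matrix.SpecialLinearGroup (Fin m) F} (hu : u ∈ slU F a b) (hu' : u' ∈ slU F a b)
    (h : u * u' * u⁻¹ * u'⁻¹ = slZ hab t) :
    (slH hab c * u * (slH hab c)⁻¹) * u' * (slH hab c * u * (slH hab c)⁻¹)⁻¹ * u'⁻¹ =
      slZ hab ((c : F) * t) := by
  rw [slU_comm hab hu hu'] at h
  have ht := slZ_inj' hab h
  rw [slU_comm hab (slH_U hab c hu) hu']
  have hc0 := Units.ne_zero c
  -- the inverse of the torus element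
  have hinva : ap (slH hab c)⁻¹ (ee F a) = (c : F)⁻¹ • ee F a := by
    have h1 := ap_inv_ap (slH hab c) (ee F a)
    rw [slH_a, ap_smul] at h1
    rw [eq_inv_smul_iff₀ hc0]
    exact h1
  have hinv0 : ∀ v : Fin m → F, v b = 0 →
      ap (slH hab c)⁻¹ v = v + (((c : F)⁻¹ - 1) * v a) • ee F a := by
    intro v hv
    have h1 : ap (slH hab c) (v + (((c : F)⁻¹ - 1) * v a) • ee F a) = v := by
      rw [ap_add, ap_smul, slH_a, slH_ap, hv, mul_zero, zero_smul, add_zero, smul_smul, add_assoc,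
        ← add_smul]
      have h2 : ((c : F) - 1) * v a + ((c : F)⁻¹ - 1) * v a * (c : F) = 0 := by
        field_simp
        ring
      rw [h2, zero_smul, add_zero]
    have h3 := congrArg (ap (slH hab c)⁻¹) h1
    rw [ap_inv_ap] at h3
    exact h3.symm
  have hinvb : ap (slH hab c)⁻¹ (ee F b) = (c : F) • ee F b := by
    have h1 : ap (slH hab c) ((c : F) • ee F b) = ee F b := by
      ext k
      rw [slH_k, Pi.smul_apply, smul_eq_mul]
      by_cases hka : k = a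
      · subst hka
        rw [sp_ne hab.symm]
        ring
      · rw [if_neg hka]
        by_cases hkb : k = b
        · rw [if_pos hkb, inv_mul_cancel_left₀ hc0]
        · rw [sp_ne (Ne.symm hkb)]
          ring
    have h3 := congrArg (ap (slH hab c)⁻¹) h1
    rw [ap_inv_ap] at h3
    exact h3.symm
  obtain ⟨x, hx⟩ : ∃ x, ap u (ee F b) - ee F b = x := ⟨_, rfl⟩
  obtain ⟨x', hx'⟩ : ∃ x', ap u' (ee F b) - ee F b = x' := ⟨_, rfl⟩
  have hxb : x b = 0 := by rw [← hx, Pi.sub_apply, hu.2.1, sub_self]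
  have hxb' : x' b = 0 := by rw [← hx', Pi.sub_apply, hu'.2.1, sub_self]
  rw [hx, hx'] at ht
  rw [hx']
  obtain ⟨d, hd⟩ := hu.2.2 x' hxb'
  obtain ⟨e, he⟩ := hu'.2.2 x hxb
  -- the new `x`
  have h1 : ap (slH hab c * u * (slH hab c)⁻¹) (ee F b) - ee F b =
      (c : F) • ap (slH hab c) x := by
    rw [ap_mul, ap_mul, hinvb, ap_smul, ap_smul, ← hx, sp_ap_sub, smul_sub]
    congr 1
    rw [← ap_smul, ← hinvb, ap_ap_inv]
  have hhx : ap (slH hab c) x = x + (((c : F) - 1) * x a) • ee F a := by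
    rw [slH_ap, hxb, mul_zero, zero_smul, add_zero]
  have h2 : ap u' ((c : F) • ap (slH hab c) x) =
      (c : F) • (x + e • ee F a + (((c : F) - 1) * x a) • ee F a) := by
    rw [ap_smul, hhx, ap_add, ap_smul, hu'.1, he]
  have h3 : ap (slH hab c * u * (slH hab c)⁻¹) x' = x' + ((c : F) * d) • ee F a := by
    rw [ap_mul, ap_mul, hinv0 x' hxb', ap_add, ap_smul, hu.1, hd]
    have h4 : x' + d • ee F a + (((c : F)⁻¹ - 1) * x' a) • ee F a =
        (ap (slH hab c)⁻¹ x') + d • ee F a := by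
      rw [hinv0 x' hxb']
      abel
    rw [h4, ap_add, ap_ap_inv, ap_smul, slH_a, smul_smul, mul_comm d]
  rw [h1, h2, h3, hhx]
  congr 1
  rw [← ht, hd, he]
  simp only [Pi.add_apply, Pi.smul_apply, smul_eq_mul]
  rw [sp_self]
  ring

/-- the scalars of an element of the normalizer -/
private theorem nm_sc {a b : Fin m} (hab : a ≠ b) {r : Matrix.SpecialLinearGroup (Fin m) F}
    (hr : r ∈ nm (slU F a b)) : ∃ α β : F, α ≠ 0 ∧ β ≠ 0 ∧ ap r (ee F a) = α • ee F a ∧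
      (∀ v, (ap r v) b = β * v b) ∧ ap r⁻¹ (ee F a) = α⁻¹ • ee F a ∧
      ∀ v, (ap r⁻¹ v) b = β⁻¹ * v b := by
  obtain ⟨⟨α, hα⟩, β, hβ⟩ := (sl_nm hab).1 hr
  have hα0 : α ≠ 0 := by
    intro h
    rw [h, zero_smul] at hα
    exact sp_ap_ne_zero r (sp_ee_ne_zero a) hα
  have hβ0 : β ≠ 0 := by
    intro h
    have h1 := hβ (ap r⁻¹ (ee F b))
    rw [ap_ap_inv, sp_self, h, zero_mul] at h1
    exact one_ne_zero h1
  refine ⟨α, β, hα0, hβ0, hα, hβ, ?_, ?_⟩
  · have h1 := ap_inv_ap r (ee F a)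
    rw [hα, ap_smul] at h1
    rw [eq_inv_smul_iff₀ hα0]
    exact h1
  · intro v
    have h2 := hβ (ap r⁻¹ v)
    rw [ap_ap_inv] at h2
    rw [h2, inv_mul_cancel_left₀ hβ0]

/-- `1 + x e_b` with `x b = 0` is in `slU` -/
private theorem rk_col {a b : Fin m} (hab : a ≠ b) (x : Fin m → F) (h : ee F b ⬝ᵥ x = 0) :
    rk x (ee F b) h ∈ slU F a b := by
  have hx : x b = 0 := by rw [← sp_ee_dot x b]; exact h
  refine ⟨?_, ?_, ?_⟩
  · rw [rk_ap, sp_ee_dot, sp_ne hab, zero_smul, add_zero]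
  · intro v
    rw [rk_ap, Pi.add_apply, Pi.smul_apply, hx, smul_zero, add_zero]
  · intro v hv
    refine ⟨0, ?_⟩
    rw [rk_ap, sp_ee_dot, hv, zero_smul, zero_smul]

/-- `1 + e_a f` with `f e_a = 0` is in `slU` -/
private theorem rk_row {a b : Fin m} (hab : a ≠ b) (f : Fin m → F) (h : f ⬝ᵥ ee F a = 0) :
    rk (ee F a) f h ∈ slU F a b := by
  refine ⟨?_, ?_, ?_⟩
  · rw [rk_ap, h, zero_smul, add_zero]
  · intro v
    rw [rk_ap, Pi.add_apply, Pi.smul_apply, sp_ne hab, smul_zero, add_zero]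
  · intro v hv
    exact ⟨_, rk_ap _ _ h v⟩

private theorem sp_split (b : Fin m) (v : Fin m → F) :
    (v - v b • ee F b) b = 0 := by
  rw [Pi.sub_apply, Pi.smul_apply, sp_self, smul_eq_mul, mul_one, sub_self]

theorem sl_faith {a b : Fin m} (hab : a ≠ b) {r : Matrix.SpecialLinearGroup (Fin m) F}
    (hr : r ∈ nm (slU F a b)) (h1 : ∀ u ∈ slU F a b, ∃ t, r * u * r⁻¹ * u⁻¹ = slZ hab t)
    (h2 : ∀ t, r * slZ hab t * r⁻¹ = slZ hab t) : r ∈ slU F a b ⊔ slC F m := by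
  obtain ⟨α, β, hα0, hβ0, hα, hβ, hα', hβ'⟩ := nm_sc hab hr
  have hαβ : α = β := by
    have h3 : r * slZ hab 1 = slZ hab 1 * r := by
      have := h2 1
      rw [mul_inv_eq_iff_eq_mul] at this
      exact this
    have h4 : ap (r * slZ hab 1) (ee F b) = ap (slZ hab 1 * r) (ee F b) := by rw [h3]
    rw [ap_mul, ap_mul, slZ_ap, slZ_ap, ap_add, ap_smul, hβ, sp_self, hα, mul_one, mul_one,
      one_smul, one_mul] at h4
    have h5 := congrFun (add_left_cancel h4) a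
    rw [Pi.smul_apply, Pi.smul_apply, sp_self, smul_eq_mul, smul_eq_mul, mul_one, mul_one] at h5
    exact h5
  subst hαβ
  -- `r` on `H`
  have hH : ∀ v : Fin m → F, v b = 0 → ∃ c : F, ap r v = α • v + c • ee F a := by
    intro v hv
    have hv' : ee F b ⬝ᵥ v = 0 := by rw [sp_ee_dot, hv]
    obtain ⟨t, ht⟩ := h1 _ (rk_col hab v hv')
    have h3 : r * rk v (ee F b) hv' = slZ hab t * rk v (ee F b) hv' * r := by
      rw [← ht]
      group
    have h4 : ap (r * rk v (ee F b) hv') (ee F b) = ap (slZ hab t * rk v (ee F b) hv' * r) (ee F b) := by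
      rw [h3]
    rw [ap_mul, ap_mul, ap_mul, rk_ap, rk_ap, sp_ee_dot, sp_ee_dot, hβ, sp_self, mul_one, one_smul,
      slZ_ap, ap_add] at h4
    refine ⟨t * (ap r (ee F b) + α • v) b, ?_⟩
    rw [add_assoc] at h4
    exact add_left_cancel h4
  -- first reduction: `r (e_b)`
  have hxb : ee F b ⬝ᵥ (-(α⁻¹) • (ap r (ee F b) - α • ee F b)) = 0 := by
    rw [sp_ee_dot, Pi.smul_apply, Pi.sub_apply, hβ, Pi.smul_apply, sp_self, smul_eq_mul, smul_eq_mul,
      sub_self, mul_zero]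
  obtain ⟨u1, hu1U, hu1⟩ : ∃ u1 ∈ slU F a b, ∀ v, ap u1 v =
      v + v b • (-(α⁻¹) • (ap r (ee F b) - α • ee F b)) := by
    refine ⟨_, rk_col hab _ hxb, fun v => ?_⟩
    rw [rk_ap, sp_ee_dot]
  obtain ⟨r1, hr1⟩ : ∃ r1, r1 = u1 * r := ⟨_, rfl⟩
  have hr1b : ap r1 (ee F b) = α • ee F b := by
    rw [hr1, ap_mul, hu1, hβ, sp_self, mul_one, smul_smul, mul_neg, mul_inv_cancel₀ hα0, neg_smul,
      one_smul]
    abel
  have hr1H : ∀ v : Fin m → F, v b = 0 → ∃ c : F, ap r1 v = α • v + c • ee F a := by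
    intro v hv
    obtain ⟨c, hc⟩ := hH v hv
    refine ⟨c, ?_⟩
    rw [hr1, ap_mul, hu1, hβ, hv, mul_zero, zero_smul, add_zero, hc]
  have hr1all : ∀ v : Fin m → F, ap r1 v = α • v + ((ap r1 v) a - α * v a) • ee F a := by
    intro v
    have h3 : v = (v - v b • ee F b) + v b • ee F b := by abel
    obtain ⟨c, hc⟩ := hr1H _ (sp_split b v)
    have h4 : ap r1 v = α • v + c • ee F a := by
      conv_lhs => rw [h3]
      rw [ap_add, hc, ap_smul, hr1b, smul_sub, smul_comm (v b) α]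
      abel
    have h5 : (ap r1 v) a - α * v a = c := by
      rw [h4, Pi.add_apply, Pi.smul_apply, Pi.smul_apply, sp_self, smul_eq_mul, smul_eq_mul]
      ring
    rw [h5]
    exact h4
  -- the linear form
  obtain ⟨f, hf⟩ : ∃ f : Fin m → F, ∀ v, f ⬝ᵥ v = (ap r1 v) a - α * v a := by
    refine ⟨fun j => (r1 : Matrix (Fin m) (Fin m) F) a j - α * ee F a j, fun v => ?_⟩
    have h3 : (ap r1 v) a = (fun j => (r1 : Matrix (Fin m) (Fin m) F) a j) ⬝ᵥ v := rfl
    have h4 : (fun j => (r1 : Matrix (Fin m) (Fin m) F) a j - α * ee F a j) =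
        (fun j => (r1 : Matrix (Fin m) (Fin m) F) a j) - α • ee F a := rfl
    rw [h3, h4, sub_dotProduct, smul_dotProduct, sp_ee_dot, smul_eq_mul]
  have hfa : (-(α⁻¹) • f) ⬝ᵥ ee F a = 0 := by
    have h3 : ap r1 (ee F a) = α • ee F a := by
      rw [hr1, ap_mul, hα, ap_smul, hu1, sp_ne hab, zero_smul, add_zero]
    rw [smul_dotProduct, hf, h3, Pi.smul_apply, smul_eq_mul, smul_eq_mul, sub_self, mul_zero]
  obtain ⟨u2, hu2U, hu2⟩ : ∃ u2 ∈ slU F a b, ∀ v, ap u2 v = v + (-(α⁻¹) * (f ⬝ᵥ v)) • ee F a := by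
    refine ⟨_, rk_row hab _ hfa, fun v => ?_⟩
    rw [rk_ap, smul_dotProduct, smul_eq_mul]
  have hsc : ∀ v, ap (u2 * r1) v = α • v := by
    intro v
    rw [ap_mul, hu2]
    have hfa' : f ⬝ᵥ ee F a = 0 := by
      rw [smul_dotProduct, smul_eq_mul] at hfa
      rcases mul_eq_zero.1 hfa with h3 | h3
      · exact absurd h3 (neg_ne_zero.2 (inv_ne_zero hα0))
      · exact h3
    have h3 : f ⬝ᵥ ap r1 v = α * (f ⬝ᵥ v) := by
      rw [hr1all v, dotProduct_add, dotProduct_smul, dotProduct_smul, hfa', smul_zero, add_zero,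
        smul_eq_mul]
    rw [h3]
    have h4 : ap r1 v = α • v + (f ⬝ᵥ v) • ee F a := by
      rw [hf]
      exact hr1all v
    rw [h4, add_assoc, ← add_smul]
    have h5 : f ⬝ᵥ v + -α⁻¹ * (α * (f ⬝ᵥ v)) = 0 := by
      field_simp
      ring
    rw [h5, zero_smul, add_zero]
  have hcen : u2 * r1 ∈ slC F m := by
    rw [Subgroup.mem_center_iff]
    intro g
    apply ap_ext
    intro v
    rw [ap_mul g, ap_mul (u2 * r1) g, hsc, hsc, ap_smul]
  have hfin : r = (u2 * u1)⁻¹ * (u2 * r1) := by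
    rw [hr1]
    group
  rw [hfin]
  exact Subgroup.mul_mem _ (Subgroup.mem_sup_left (Subgroup.inv_mem _ (Subgroup.mul_mem _ hu2U hu1U)))
    (Subgroup.mem_sup_right hcen)

theorem sl_scal {a b : Fin m} (hab : a ≠ b) {r : Matrix.SpecialLinearGroup (Fin m) F}
    (hr : r ∈ nm (slU F a b)) : ∃ c : F, ∀ t, r * slZ hab t * r⁻¹ = slZ hab (c * t) := by
  obtain ⟨α, β, hα0, hβ0, hα, hβ, hα', hβ'⟩ := nm_sc hab hr
  refine ⟨α / β, fun t => ?_⟩
  rw [mul_inv_eq_iff_eq_mul]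
  apply ap_ext
  intro v
  rw [ap_mul, ap_mul, slZ_ap, slZ_ap, ap_add, ap_smul, hα, hβ, smul_smul]
  congr 2
  field_simp

theorem sl_cent {a b : Fin m} (hab : a ≠ b) {r : Matrix.SpecialLinearGroup (Fin m) F}
    (hr : r ∈ nm (slU F a b)) (c : Fˣ) : slH hab c * r * (slH hab c)⁻¹ * r⁻¹ ∈ slU F a b := by
  obtain ⟨α, β, hα0, hβ0, hα, hβ, hα', hβ'⟩ := nm_sc hab hr
  obtain ⟨γ, δ, hγ0, hδ0, hγ, hδ, hγ', hδ'⟩ := nm_sc hab (slH_nm hab c)
  refine ⟨?_, ?_, ?_⟩
  · rw [ap_mul, ap_mul, ap_mul, hα', ap_smul, ap_smul, ap_smul, hγ', ap_smul, ap_smul, hα, ap_smul,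
      hγ, smul_smul, smul_smul, smul_smul]
    have : α⁻¹ * (γ⁻¹ * (α * γ)) = 1 := by field_simp
    have h' : α⁻¹ * γ⁻¹ * α * γ = 1 := by field_simp
    first
      | rw [this, one_smul]
      | rw [h', one_smul]
  · intro v
    rw [ap_mul, ap_mul, ap_mul, hδ, hβ, hδ', hβ']
    field_simp
  · intro v hv
    obtain ⟨w, hw⟩ : ∃ w, ap r⁻¹ v = w := ⟨_, rfl⟩
    have hrw : ap r w = v := by rw [← hw, ap_ap_inv]
    have hwb : w b = 0 := by rw [← hw, hβ', hv, mul_zero]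
    -- the inverse of the torus on `H`
    have hinv0 : ∃ γ' : F, ap (slH hab c)⁻¹ w = w + γ' • ee F a := by
      refine ⟨((c : F)⁻¹ - 1) * w a, ?_⟩
      have h1 : ap (slH hab c) (w + (((c : F)⁻¹ - 1) * w a) • ee F a) = w := by
        rw [ap_add, ap_smul, slH_a, slH_ap, hwb, mul_zero, zero_smul, add_zero, smul_smul, add_assoc,
          ← add_smul]
        have hc0 := Units.ne_zero c
        have h2 : ((c : F) - 1) * w a + ((c : F)⁻¹ - 1) * w a * (c : F) = 0 := by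
          field_simp
          ring
        rw [h2, zero_smul, add_zero]
      have h3 := congrArg (ap (slH hab c)⁻¹) h1
      rw [ap_inv_ap] at h3
      exact h3.symm
    obtain ⟨γ', hγ'⟩ := hinv0
    refine ⟨((c : F) - 1) * v a + γ' * α * c, ?_⟩
    rw [ap_mul, ap_mul, ap_mul, hw, hγ', ap_add, ap_smul, hα, hrw, ap_add, smul_smul, ap_smul,
      slH_a, slH_ap, hv, mul_zero, zero_smul, add_zero, smul_smul, add_assoc, ← add_smul]

theorem sl_iU {a b : Fin m} (hab : a ≠ b) {u : Matrix.SpecialLinearGroup (Fin m) F}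
    (hu : u ∈ slU F a b) (h : u ∈ nm (slU F b a)) : u = 1 := by
  obtain ⟨α, β, hα0, hβ0, hα, hβ, -, -⟩ := nm_sc hab.symm h
  have hβ1 : β = 1 := by
    have h1 := hβ (ee F a)
    rw [hu.1, sp_self, mul_one] at h1
    exact h1.symm
  have hα1 : α = 1 := by
    have h1 := hu.2.1 (ee F b)
    rw [hα, Pi.smul_apply, sp_self, smul_eq_mul, mul_one] at h1
    exact h1
  subst hβ1 hα1
  rw [one_smul] at hα
  have hH : ∀ v : Fin m → F, v b = 0 → ap u v = v := by
    intro v hv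
    obtain ⟨c, hc⟩ := hu.2.2 v hv
    have h1 := hβ v
    rw [hc, Pi.add_apply, Pi.smul_apply, sp_self, smul_eq_mul, mul_one, one_mul] at h1
    have hc0 : c = 0 := by linear_combination h1
    rw [hc, hc0, zero_smul, add_zero]
  apply ap_ext
  intro v
  have h3 : v = (v - v b • ee F b) + v b • ee F b := by abel
  rw [ap_one]
  conv_lhs => rw [h3]
  rw [ap_add, hH _ (sp_split b v), ap_smul, hα]
  abel

private theorem cj_of_nm {X : Type} [Group X] {g h : X} {U : Subgroup X} (H : g⁻¹ * h ∈ nm U) :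
    cj g U = cj h U := by
  rw [mem_nm] at H
  have h1 : cj g (cj (g⁻¹ * h) U) = cj g U := by rw [H]
  rw [cj_cj] at h1
  have h2 : g * (g⁻¹ * h) = h := by group
  rw [h2] at h1
  exact h1.symm

theorem sl_opp {a b : Fin m} (hab : a ≠ b) (g : Matrix.SpecialLinearGroup (Fin m) F)
    (h : ∀ u ∈ slU F a b, u ∈ nm (cj g (slU F a b)) → u = 1) :
    ∃ u ∈ slU F a b, cj g (slU F a b) = cj u (slU F b a) := by
  obtain ⟨x, hx⟩ : ∃ x, ap g (ee F a) = x := ⟨_, rfl⟩
  obtain ⟨φ, hφ⟩ : ∃ φ : Fin m → F, ∀ v, φ ⬝ᵥ v = (ap g⁻¹ v) b :=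
    ⟨(g⁻¹ : Matrix.SpecialLinearGroup (Fin m) F).1 b, fun v => rfl⟩
  have hx0 : x ≠ 0 := by
    rw [← hx]
    exact sp_ap_ne_zero g (sp_ee_ne_zero a)
  have hgx : ap g⁻¹ x = ee F a := by rw [← hx, ap_inv_ap]
  have hφx : φ ⬝ᵥ x = 0 := by rw [hφ, hgx, sp_ne hab]
  -- the normalizer
  have hnm : ∀ u : Matrix.SpecialLinearGroup (Fin m) F, ap u x = x →
      (∀ v, φ ⬝ᵥ ap u v = φ ⬝ᵥ v) → u ∈ nm (cj g (slU F a b)) := by
    intro u hu1 hu2
    rw [nm_cj, mem_cj, sl_nm hab]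
    refine ⟨⟨1, ?_⟩, 1, fun v => ?_⟩
    · rw [ap_mul, ap_mul, hx, hu1, hgx, one_smul]
    · rw [ap_mul, ap_mul, ← hφ, hu2, hφ, ap_inv_ap, one_mul]
  have hxb : x b ≠ 0 := by
    intro hxb
    have hx' : ee F b ⬝ᵥ x = 0 := by rw [sp_ee_dot, hxb]
    have h1 := h _ (rk_col hab x hx') (hnm _
      (by rw [rk_ap, hx', zero_smul, add_zero])
      (fun v => by rw [rk_ap, dotProduct_add, dotProduct_smul, hφx, smul_zero, add_zero]))
    have h2 : ap (rk x (ee F b) hx') (ee F b) = ee F b := by rw [h1, ap_one]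
    rw [rk_ap, sp_ee_dot, sp_self, one_smul] at h2
    exact hx0 (by simpa using h2)
  have hφa : φ a ≠ 0 := by
    intro hφa
    have hφ' : φ ⬝ᵥ ee F a = 0 := by rw [sp_dot_ee, hφa]
    have h1 := h _ (rk_row hab φ hφ') (hnm _
      (by rw [rk_ap, hφx, zero_smul, add_zero])
      (fun v => by rw [rk_ap, dotProduct_add, dotProduct_smul, hφ', smul_zero, add_zero]))
    have h2 : ap (rk (ee F a) φ hφ') (ap g (ee F b)) = ap g (ee F b) := by rw [h1, ap_one]
    rw [rk_ap, hφ, ap_inv_ap, sp_self, one_smul] at h2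
    exact sp_ee_ne_zero (F := F) a (by simpa using h2)
  -- the element
  have hA : ee F b ⬝ᵥ ((x b)⁻¹ • x - ee F b) = 0 := by
    rw [sp_ee_dot, Pi.sub_apply, Pi.smul_apply, sp_self, smul_eq_mul, inv_mul_cancel₀ hxb, sub_self]
  obtain ⟨A, hAU, hA'⟩ : ∃ A ∈ slU F a b, ∀ v, ap A v = v + v b • ((x b)⁻¹ • x - ee F b) :=
    ⟨_, rk_col hab _ hA, fun v => by rw [rk_ap, sp_ee_dot]⟩
  have hB : (ee F a - (φ a)⁻¹ • φ + ((φ a)⁻¹ * φ b) • ee F b) ⬝ᵥ ee F a = 0 := by
    rw [add_dotProduct, sub_dotProduct, smul_dotProduct, smul_dotProduct, sp_ee_dot, sp_ee_dot,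
      sp_dot_ee, sp_self, sp_ne hab, smul_eq_mul, smul_eq_mul, inv_mul_cancel₀ hφa]
    ring
  obtain ⟨B, hBU, hB'⟩ : ∃ B ∈ slU F a b, ∀ v, ap B v =
      v + (v a - (φ a)⁻¹ * (φ ⬝ᵥ v) + (φ a)⁻¹ * φ b * v b) • ee F a := by
    refine ⟨_, rk_row hab _ hB, fun v => ?_⟩
    rw [rk_ap, add_dotProduct, sub_dotProduct, smul_dotProduct, smul_dotProduct, sp_ee_dot,
      sp_ee_dot, smul_eq_mul, smul_eq_mul]
  refine ⟨A * B, Subgroup.mul_mem _ hAU hBU, ?_⟩
  rw [← slW_cj hab, cj_cj]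
  apply cj_of_nm
  have hb0 : ap B (ee F b) = ee F b := by
    rw [hB', sp_ne hab.symm, sp_dot_ee, sp_self]
    have : (0 : F) - (φ a)⁻¹ * φ b + (φ a)⁻¹ * φ b * 1 = 0 := by ring
    rw [this, zero_smul, add_zero]
  have hu1 : ap (A * B) (ee F b) = (x b)⁻¹ • x := by
    rw [ap_mul, hb0, hA', sp_self, one_smul]
    abel
  have hu2 : ∀ v, φ ⬝ᵥ ap (A * B) v = φ a * v a := by
    intro v
    have hBb : (ap B v) b = v b := hBU.2.1 v
    rw [ap_mul, hA', hBb, dotProduct_add, dotProduct_smul, dotProduct_sub, dotProduct_smul, hφx,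
      hB', dotProduct_add, dotProduct_smul, sp_dot_ee, sp_dot_ee]
    simp only [smul_eq_mul]
    field_simp
    ring
  rw [sl_nm hab]
  refine ⟨⟨-(x b)⁻¹, ?_⟩, - φ a * 0 + φ a, fun v => ?_⟩
  · rw [ap_mul, ap_mul, slW_ea, sp_ap_neg, hu1, sp_ap_neg, ap_smul, hgx, neg_smul]
  · rw [ap_mul, ap_mul, ← hφ, hu2, slW_a]
    ring

theorem sl_uv {a b : Fin m} (hab : a ≠ b) :
    ∃ u ∈ slU F a b, ∃ v ∈ slU F b a, cj v (slU F a b) = cj u (slU F b a) := by
  refine ⟨slZ hab 1, slZ_mem hab 1, slZ hab.symm 1, slZ_mem hab.symm 1, ?_⟩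
  rw [← slW_cj hab, cj_cj]
  apply cj_of_nm
  have hva : ap (slZ hab.symm (1 : F))⁻¹ (ee F a + ee F b) = ee F a := by
    have h1 : ap (slZ hab.symm (1 : F)) (ee F a) = ee F a + ee F b := by
      rw [slZ_ap, sp_self, mul_one, one_smul]
    rw [← h1, ap_inv_ap]
  have hvb : ∀ y, (ap (slZ hab.symm (1 : F))⁻¹ y) b = y b - y a := by
    intro y
    obtain ⟨z, hz⟩ : ∃ z, y = ap (slZ hab.symm (1 : F)) z :=
      ⟨ap (slZ hab.symm (1 : F))⁻¹ y, by rw [ap_ap_inv]⟩
    rw [hz, ap_inv_ap, slZ_ap]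
    simp only [Pi.add_apply, Pi.smul_apply, smul_eq_mul]
    rw [sp_self, sp_ne hab.symm]
    ring
  rw [sl_nm hab]
  refine ⟨⟨-1, ?_⟩, -1, fun v => ?_⟩
  · rw [ap_mul, ap_mul, slW_ea, sp_ap_neg, slZ_ap, sp_self, mul_one, one_smul, sp_ap_neg,
      add_comm (ee F b), hva, neg_smul, one_smul]
  · rw [ap_mul, ap_mul, hvb, slZ_ap]
    simp only [Pi.add_apply, Pi.smul_apply, smul_eq_mul]
    rw [sp_self, sp_ne hab, slW_a, slW_b]
    ring

theorem slUV_gen {a b : Fin m} (hab : a ≠ b) : slU F a b ⊔ slU F b a = ⊤ := by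
  have hcolU : ∀ (c d : Fin m) (hcd : c ≠ d) (i : Fin m) (hid : i ≠ d) (t : F),
      Matrix.SpecialLinearGroup.transvection hid t ∈ slU F c d := by
    intro c d hcd i hid t
    refine ⟨?_, ?_, ?_⟩
    · rw [sp_tr, sp_ne hcd, mul_zero, zero_smul, add_zero]
    · intro v
      rw [sp_tr, Pi.add_apply, Pi.smul_apply, sp_ne hid, smul_zero, add_zero]
    · intro v hv
      exact ⟨0, by rw [sp_tr, hv, mul_zero, zero_smul, zero_smul]⟩
  have hrowU : ∀ (c d : Fin m) (hcd : c ≠ d) (j : Fin m) (hcj : c ≠ j) (t : F),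
      Matrix.SpecialLinearGroup.transvection hcj t ∈ slU F c d := by
    intro c d hcd j hcj t
    refine ⟨?_, ?_, ?_⟩
    · rw [sp_tr, sp_ne hcj, mul_zero, zero_smul, add_zero]
    · intro v
      rw [sp_tr, Pi.add_apply, Pi.smul_apply, sp_ne hcd, smul_zero, add_zero]
    · intro v _
      exact ⟨_, sp_tr hcj t v⟩
  apply PR.sl_gen
  intro i j hij t
  by_cases hia : i = a
  · subst hia
    exact Subgroup.mem_sup_left (hrowU _ _ hab _ hij t)
  by_cases hjb : j = b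
  · subst hjb
    exact Subgroup.mem_sup_left (hcolU _ _ hab _ hij t)
  by_cases hib : i = b
  · subst hib
    exact Subgroup.mem_sup_right (hrowU _ _ hab.symm _ hij t)
  by_cases hja : j = a
  · subst hja
    exact Subgroup.mem_sup_right (hcolU _ _ hab.symm _ hij t)
  have haj : a ≠ j := Ne.symm hja
  have h1 : Matrix.SpecialLinearGroup.transvection hij t =
      Matrix.SpecialLinearGroup.transvection hia t * Matrix.SpecialLinearGroup.transvection haj 1 *
      Matrix.SpecialLinearGroup.transvection hia (-t) *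
      Matrix.SpecialLinearGroup.transvection haj (-1) := by
    apply ap_ext'
    intro v k
    rw [ap_mul, ap_mul, ap_mul, sp_tr, sp_tr, sp_tr, sp_tr, sp_tr]
    simp only [Pi.add_apply, Pi.smul_apply, smul_eq_mul]
    rw [sp_self, sp_ne hij, sp_ne hia, sp_ne haj]
    ring
  rw [h1]
  have hia' := hcolU b a hab.symm i hia
  have haj' := hrowU a b hab j haj
  exact Subgroup.mul_mem _ (Subgroup.mul_mem _ (Subgroup.mul_mem _
    (Subgroup.mem_sup_right (hia' t)) (Subgroup.mem_sup_left (haj' 1)))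
    (Subgroup.mem_sup_right (hia' (-t)))) (Subgroup.mem_sup_left (haj' (-1)))

end
end Pool.Agent.Helper54.OC
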