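import Pool.Agent.Helper54.OC.SLPar

/-!
# OC-14: the conditions of `Par` for `SL_m(F)`: Sylow subgroups

PROOF.
* `sl_syl`: let `Q'` be a Sylow `p`-subgroup.  A `p`-group acting linearly on a finite `F`-vector space `≠ 0` has a fixed vector `≠ 0` (the number of fixed
  vectors is divisible by `p`).  For the dual space: there is a linear form `φ ≠ 0` with `φ (q v) = φ v` for `q ∈ Q'`; `ker φ ≠ 0` (`m ≥ 2`) is invariant, so it contains
  a fixed vector `x ≠ 0`.  There is `g ∈ SL_m(F)` with `g e_a = x` and `φ (g v) ∈ F v b` (extend `x` to a basis with the other vectors except the one for `b` in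
  `ker φ`, and scale the `b`-th vector so that the determinant is one).  Then `Q = g⁻¹ Q' g` fixes `e_a` and the form `v b`: `Q ≤ nm U`.  `U` is a normal
  `p`-subgroup of `nm U` and `Q` is a Sylow subgroup, so `Q U = Q`.
* `sl_op`: let `O` be a `p`-group, `O ≤ nm U ≤ nm O`.  For `o ∈ O`: `o e_a = e_a`, `(o v) b = v b` (the factors `α`, `β` of `sl_nm` are `p`-power roots of unity, `= 1`).
  `W = {v | v b = 0} / ⟨e_a⟩`; if `m = 2` it is zero and we are done.  The vectors of `W` fixed by `O` form a subspace `Y ≠ 0`, invariant under `nm U`.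
  `nm U` contains the transvections of `(i, j)`, `i, j ≠ a, b`, and (for `m = 3`, `dim W = 1`) nothing is needed.  So `Y = W`:
  if `y ∈ Y` has coordinate `y j ≠ 0`, then with the transvection of `(i, j)` `e_i ∈ Y` for all `i ≠ j` (`i ≠ a, b`), and then `e_j ∈ Y`.
  So `O` acts trivially on `W`: `O ≤ U`.
-/

set_option autoImplicit false
open scoped Pointwise Matrix

namespace Pool.Agent.Helper54.OC

section
variable {p : ℕ} [Fact p.Prime] {m : ℕ} {F : Type} [Field F] [Finite F] [CharP F p]

omit [Finite F] [Fact p.Prime] in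
private theorem syl_smul_zero {M : Type} [AddCommGroup M] [Module F M] (v : M) : p • v = 0 := by
  have h : ((p : ℕ) : F) • v = p • v := Nat.cast_smul_eq_nsmul F p v
  rw [← h, CharP.cast_eq_zero, zero_smul]

/-- a `p`-group acting on a finite group of exponent `p` has a nontrivial fixed point -/
private theorem syl_fix {G M : Type} [Group G] [AddCommGroup M] [Finite M] (hG : IsPGroup p G)
    (act : G → M → M) (h1 : ∀ v, act 1 v = v) (hm : ∀ g h v, act (g * h) v = act g (act h v))
    (h0 : ∀ g, act g 0 = 0) (v : M) (hv : v ≠ 0) (hp : p • v = 0) :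
    ∃ x : M, x ≠ 0 ∧ ∀ g, act g x = x := by
  let _ : MulAction G M :=
    { smul := act
      one_smul := h1
      mul_smul := hm }
  have hd : p ∣ Nat.card M := by
    rw [← addOrderOf_eq_prime hp hv]
    exact addOrderOf_dvd_natCard v
  have hz : (0 : M) ∈ MulAction.fixedPoints G M := fun g => h0 g
  obtain ⟨b, hb, hne⟩ := hG.exists_fixed_point_of_prime_dvd_card_of_fixed_point M hd hz
  exact ⟨b, fun h => hne h.symm, fun g => hb g⟩

omit [Finite F] in
private theorem syl_root {x : F} {k : ℕ} (h : x ^ p ^ k = 1) : x = 1 := by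
  have h1 : (x - 1) ^ p ^ k = 0 := by
    rw [sub_pow_char_pow, h, one_pow, sub_self]
  have h2 := eq_zero_of_pow_eq_zero h1
  exact sub_eq_zero.mp h2

omit [Finite F] in
private theorem syl_Up {a b : Fin m} (hab : a ≠ b) : IsPGroup p (slU F a b) := by
  intro u
  refine ⟨2, ?_⟩
  apply Subtype.ext
  rw [Subgroup.coe_pow, Subgroup.coe_one]
  exact slU_pow hab u.2

omit [Finite F] [CharP F p] [Fact p.Prime] in
private theorem syl_mem1 {a b i : Fin m} (hab : a ≠ b) (hi : a ≠ i) (t : F) :
    slZ hi t ∈ slU F a b := by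
  refine ⟨?_, ?_, ?_⟩
  · rw [slZ_ap]
    have : ee F a i = 0 := by
      unfold ee
      rw [Pi.single_eq_of_ne (Ne.symm hi)]
    rw [this]
    simp
  · intro v
    rw [slZ_ap]
    have : ee F a b = 0 := by
      unfold ee
      rw [Pi.single_eq_of_ne (Ne.symm hab)]
    simp [this]
  · intro v _
    exact ⟨_, slZ_ap hi t v⟩

omit [Finite F] [CharP F p] [Fact p.Prime] in
private theorem syl_mem2 {a b i : Fin m} (hab : a ≠ b) (hi : i ≠ b) (t : F) :
    slZ hi t ∈ slU F a b := by
  refine ⟨?_, ?_, ?_⟩
  · rw [slZ_ap]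
    have : ee F a b = 0 := by
      unfold ee
      rw [Pi.single_eq_of_ne (Ne.symm hab)]
    rw [this]
    simp
  · intro v
    rw [slZ_ap]
    have : ee F i b = 0 := by
      unfold ee
      rw [Pi.single_eq_of_ne (Ne.symm hi)]
    simp [this]
  · intro v hv
    refine ⟨0, ?_⟩
    rw [slZ_ap, hv]
    simp

theorem sl_syl {a b : Fin m} (hab : a ≠ b) :
    ∃ Q : Sylow p (Matrix.SpecialLinearGroup (Fin m) F),
      slU F a b ≤ (Q : Subgroup (Matrix.SpecialLinearGroup (Fin m) F)) ∧
      (Q : Subgroup (Matrix.SpecialLinearGroup (Fin m) F)) ≤ nm (slU F a b) := by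
  obtain ⟨Q, hQ⟩ := (syl_Up (p := p) (F := F) hab).exists_le_sylow
  refine ⟨Q, hQ, ?_⟩
  have hne : ∀ i : Fin m, ee F i ≠ 0 := by
    intro i h
    have := congrFun h i
    unfold ee at this
    simp at this
  -- fixed vector
  obtain ⟨x, hx0, hx⟩ := syl_fix (p := p) (G := (Q : Subgroup (Matrix.SpecialLinearGroup (Fin m) F)))
    (M := Fin m → F) Q.isPGroup' (fun g v => ap (g : Matrix.SpecialLinearGroup (Fin m) F) v)
    (fun v => ap_one v) (fun g h v => ap_mul _ _ v)
    (fun g => by
      have := ap_smul (g : Matrix.SpecialLinearGroup (Fin m) F) (0 : F) (0 : Fin m → F)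
      simpa using this)
    (ee F a) (hne a) (syl_smul_zero (F := F) _)
  -- fixed covector
  obtain ⟨φ, hφ0, hφ⟩ := syl_fix (p := p) (G := (Q : Subgroup (Matrix.SpecialLinearGroup (Fin m) F)))
    (M := Fin m → F) Q.isPGroup'
    (fun g v => v ᵥ* (((g⁻¹ : (Q : Subgroup (Matrix.SpecialLinearGroup (Fin m) F))) :
      Matrix.SpecialLinearGroup (Fin m) F) : Matrix (Fin m) (Fin m) F))
    (fun v => by simp)
    (fun g h v => by
      rw [Matrix.vecMul_vecMul, mul_inv_rev, Subgroup.coe_mul, Matrix.SpecialLinearGroup.coe_mul])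
    (fun g => by simp)
    (ee F a) (hne a) (syl_smul_zero (F := F) _)
  have hφ' : ∀ q ∈ (Q : Subgroup (Matrix.SpecialLinearGroup (Fin m) F)), ∀ v,
      φ ⬝ᵥ (ap q v) = φ ⬝ᵥ v := by
    intro q hq v
    have h1 := hφ (⟨q, hq⟩⁻¹ : (Q : Subgroup (Matrix.SpecialLinearGroup (Fin m) F)))
    rw [inv_inv] at h1
    unfold ap
    rw [Matrix.dotProduct_mulVec]
    have h2 : φ ᵥ* (q : Matrix (Fin m) (Fin m) F) = φ := h1
    rw [h2]
  have hxa : x = x a • ee F a := by
    funext i
    by_cases hi : i = a
    · subst hi
      simp [ee]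
    · have h1 : ap (slZ (Ne.symm hi) (1 : F)) x = x :=
        hx ⟨_, hQ (syl_mem1 hab (Ne.symm hi) 1)⟩
      rw [slZ_ap, one_mul] at h1
      have h2 := congrFun h1 a
      simp [ee] at h2
      simp [ee, hi, h2]
  have hxa0 : x a ≠ 0 := by
    intro h
    rw [h, zero_smul] at hxa
    exact hx0 hxa
  have hφb : ∀ i, i ≠ b → φ i = 0 := by
    intro i hi
    have h1 := hφ' _ (hQ (syl_mem2 hab hi (1 : F))) (ee F b)
    rw [slZ_ap, one_mul, dotProduct_add] at h1
    have h2 : φ ⬝ᵥ ((ee F b b) • ee F i) = 0 := by
      have := h1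
      rw [add_eq_left] at this
      exact this
    simpa [ee] using h2
  have hφv : ∀ v, φ ⬝ᵥ v = φ b * v b := by
    intro v
    unfold dotProduct
    rw [Finset.sum_eq_single b]
    · intro i _ hi
      rw [hφb i hi, zero_mul]
    · intro h
      exact absurd (Finset.mem_univ b) h
  have hφb0 : φ b ≠ 0 := by
    intro h
    apply hφ0
    funext i
    by_cases hi : i = b
    · subst hi; exact h
    · exact hφb i hi
  intro q hq
  rw [sl_nm hab]
  constructor
  · refine ⟨1, ?_⟩
    have h1 : ap q x = x := hx ⟨q, hq⟩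
    rw [hxa, ap_smul] at h1
    have h2 := congrArg (fun v => (x a)⁻¹ • v) h1
    simp only [smul_smul, inv_mul_cancel₀ hxa0, one_smul] at h2
    rw [one_smul]
    exact h2
  · refine ⟨1, ?_⟩
    intro v
    have h1 := hφ' q hq v
    rw [hφv, hφv] at h1
    rw [one_mul]
    exact mul_left_cancel₀ hφb0 h1

theorem sl_op {a b : Fin m} (hab : a ≠ b)
    (O : Subgroup (Matrix.SpecialLinearGroup (Fin m) F)) (hO : IsPGroup p O)
    (h1 : O ≤ nm (slU F a b)) (h2 : nm (slU F a b) ≤ nm O) : O ≤ slU F a b := by
  have heab : ee F a b = 0 := by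
    unfold ee
    rw [Pi.single_eq_of_ne (Ne.symm hab)]
  -- `O` fixes `e_a` and the `b` coordinate
  have hea : ∀ o ∈ O, ap o (ee F a) = ee F a := by
    intro o ho
    obtain ⟨⟨α, hα⟩, -⟩ := (sl_nm hab).mp (h1 ho)
    obtain ⟨k, hk⟩ := hO ⟨o, ho⟩
    have hk' : o ^ p ^ k = 1 := by
      have := congrArg Subtype.val hk
      simpa using this
    have hpow : ∀ n : ℕ, ap (o ^ n) (ee F a) = α ^ n • ee F a := by
      intro n
      induction n with
      | zero => rw [pow_zero, ap_one, pow_zero, one_smul]
      | succ n ih => rw [pow_succ, ap_mul, hα, ap_smul, ih, smul_smul, pow_succ, mul_comm]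
    have h3 := hpow (p ^ k)
    rw [hk', ap_one] at h3
    have h4 := congrFun h3 a
    simp [ee] at h4
    have h5 : α = 1 := syl_root (p := p) h4.symm
    rw [hα, h5, one_smul]
  have hb : ∀ o ∈ O, ∀ v, (ap o v) b = v b := by
    intro o ho
    obtain ⟨-, ⟨β, hβ⟩⟩ := (sl_nm hab).mp (h1 ho)
    obtain ⟨k, hk⟩ := hO ⟨o, ho⟩
    have hk' : o ^ p ^ k = 1 := by
      have := congrArg Subtype.val hk
      simpa using this
    have hpow : ∀ n : ℕ, ∀ v, (ap (o ^ n) v) b = β ^ n * v b := by
      intro n
      induction n with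
      | zero => intro v; rw [pow_zero, ap_one, pow_zero, one_mul]
      | succ n ih => intro v; rw [pow_succ, ap_mul, ih, hβ, pow_succ, mul_assoc]
    have h3 := hpow (p ^ k) (ee F b)
    rw [hk', ap_one] at h3
    simp [ee] at h3
    have h5 : β = 1 := syl_root (p := p) h3.symm
    intro v
    rw [hβ, h5, one_mul]
  -- the space of the vectors which are fixed modulo `e_a`
  let Y : Submodule F (Fin m → F) :=
    { carrier := {v | v b = 0 ∧ ∀ o ∈ O, ∃ c : F, ap o v = v + c • ee F a}
      add_mem' := by
        rintro v w ⟨hv, hv'⟩ ⟨hw, hw'⟩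
        refine ⟨by rw [Pi.add_apply, hv, hw, add_zero], ?_⟩
        intro o ho
        obtain ⟨c, hc⟩ := hv' o ho
        obtain ⟨d, hd⟩ := hw' o ho
        refine ⟨c + d, ?_⟩
        rw [ap_add, hc, hd, add_smul]
        abel
      zero_mem' := by
        refine ⟨rfl, ?_⟩
        intro o _
        refine ⟨0, ?_⟩
        have := ap_smul o (0 : F) (0 : Fin m → F)
        simpa using this
      smul_mem' := by
        rintro t v ⟨hv, hv'⟩
        refine ⟨by rw [Pi.smul_apply, hv, smul_zero], ?_⟩
        intro o ho
        obtain ⟨c, hc⟩ := hv' o ho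
        refine ⟨t * c, ?_⟩
        rw [ap_smul, hc, smul_add, smul_smul] }
  have hYmem : ∀ v, v ∈ Y ↔ v b = 0 ∧ ∀ o ∈ O, ∃ c : F, ap o v = v + c • ee F a :=
    fun v => Iff.rfl
  have hYa : ee F a ∈ Y := by
    rw [hYmem]
    refine ⟨heab, ?_⟩
    intro o ho
    exact ⟨0, by rw [hea o ho, zero_smul, add_zero]⟩
  -- invariance
  have hYinv : ∀ r ∈ nm (slU F a b), ∀ v ∈ Y, ap r v ∈ Y := by
    intro r hr v hv
    obtain ⟨⟨α, hα⟩, ⟨β, hβ⟩⟩ := (sl_nm hab).mp hr
    rw [hYmem] at hv ⊢
    obtain ⟨hv0, hv1⟩ := hv
    refine ⟨by rw [hβ, hv0, mul_zero], ?_⟩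
    intro o ho
    have hr' : r⁻¹ ∈ nm O := (nm O).inv_mem (h2 hr)
    have ho' : r⁻¹ * o * r ∈ O := by
      have := (mem_nm'.mp hr' o).mp ho
      rwa [inv_inv] at this
    obtain ⟨c, hc⟩ := hv1 _ ho'
    refine ⟨c * α, ?_⟩
    have h3 : ap o (ap r v) = ap r (ap (r⁻¹ * o * r) v) := by
      rw [← ap_mul, ← ap_mul]
      congr 1
      group
    rw [h3, hc, ap_add, ap_smul, hα, smul_smul]
  -- all basis vectors are in `Y`
  have hYe : ∀ i, i ≠ b → ee F i ∈ Y := by
    by_cases hex : ∃ i : Fin m, i ≠ a ∧ i ≠ b
    · obtain ⟨i0, hi0a, hi0b⟩ := hex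
      let W : AddSubgroup (Fin m → F) :=
        { carrier := {w | w a = 0 ∧ w b = 0}
          add_mem' := by
            rintro v w ⟨hv, hv'⟩ ⟨hw, hw'⟩
            exact ⟨by rw [Pi.add_apply, hv, hw, add_zero], by rw [Pi.add_apply, hv', hw', add_zero]⟩
          zero_mem' := ⟨rfl, rfl⟩
          neg_mem' := by
            rintro v ⟨hv, hv'⟩
            exact ⟨by rw [Pi.neg_apply, hv, neg_zero], by rw [Pi.neg_apply, hv', neg_zero]⟩ }
      have hact : ∀ (o : O) (w : W),
          ap (o : Matrix.SpecialLinearGroup (Fin m) F) w -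
            (ap (o : Matrix.SpecialLinearGroup (Fin m) F) w) a • ee F a ∈ W := by
        intro o w
        constructor
        · simp [ee]
        · have h3 := hb o o.2 w
          have h4 : (w : Fin m → F) b = 0 := w.2.2
          rw [Pi.sub_apply, Pi.smul_apply, heab, h3, h4]
          simp
      obtain ⟨x, hx0, hx⟩ := syl_fix (p := p) (G := O) (M := W) hO
        (fun o w => ⟨_, hact o w⟩)
        (by
          intro w
          apply Subtype.ext
          show ap _ _ - _ = _
          have h3 : (w : Fin m → F) a = 0 := w.2.1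
          rw [Subgroup.coe_one, ap_one, h3, zero_smul, sub_zero])
        (by
          intro g h w
          apply Subtype.ext
          show ap _ _ - _ = ap _ (ap _ _ - _) - _
          have h3 : ∀ c : F, ap (g : Matrix.SpecialLinearGroup (Fin m) F)
              (ap (h : Matrix.SpecialLinearGroup (Fin m) F) w - c • ee F a) =
              ap (g : Matrix.SpecialLinearGroup (Fin m) F)
                (ap (h : Matrix.SpecialLinearGroup (Fin m) F) w) - c • ee F a := by
            intro c
            rw [sub_eq_add_neg, ← neg_smul, ap_add, ap_smul, hea g g.2, neg_smul, ← sub_eq_add_neg]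
          rw [h3, Subgroup.coe_mul, ap_mul]
          funext i
          by_cases hi : i = a
          · subst hi
            simp [ee]
          · simp [ee, hi])
        (by
          intro g
          apply Subtype.ext
          have h3 : ap (g : Matrix.SpecialLinearGroup (Fin m) F) ((0 : W) : Fin m → F) = 0 := by
            have := ap_smul (g : Matrix.SpecialLinearGroup (Fin m) F) (0 : F) (0 : Fin m → F)
            simpa using this
          show ap _ _ - _ = _
          rw [h3]
          simp)
        ⟨ee F i0, by simp [ee, Ne.symm hi0a], by simp [ee, Ne.symm hi0b]⟩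
        (by
          intro h
          have h3 := congrArg (fun w : W => (w : Fin m → F) i0) h
          simp [ee] at h3)
        (by
          apply Subtype.ext
          rw [AddSubgroup.coe_nsmul]
          exact syl_smul_zero (F := F) _)
      have hxY : (x : Fin m → F) ∈ Y := by
        rw [hYmem]
        refine ⟨x.2.2, ?_⟩
        intro o ho
        refine ⟨(ap o x) a, ?_⟩
        have h3 := congrArg Subtype.val (hx ⟨o, ho⟩)
        have h4 : ap o x - (ap o x) a • ee F a = x := h3
        exact sub_eq_iff_eq_add.mp h4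
      have hxne : (x : Fin m → F) ≠ 0 := by
        intro h
        apply hx0
        apply Subtype.ext
        exact h
      obtain ⟨j, hj⟩ := Function.ne_iff.mp hxne
      have hj' : (x : Fin m → F) j ≠ 0 := hj
      have hja : j ≠ a := by
        rintro rfl
        exact hj' x.2.1
      have hjb : j ≠ b := by
        rintro rfl
        exact hj' x.2.2
      have hothers : ∀ i, i ≠ j → i ≠ b → ee F i ∈ Y := by
        intro i hij hib
        have hT : slZ hij (1 : F) ∈ nm (slU F a b) := by
          rw [sl_nm hab]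
          constructor
          · refine ⟨1, ?_⟩
            rw [slZ_ap]
            simp [ee, hja]
          · refine ⟨1, ?_⟩
            intro v
            rw [slZ_ap]
            simp [ee, Ne.symm hib]
        have h3 := hYinv _ hT _ hxY
        rw [slZ_ap, one_mul] at h3
        have h4 : (x : Fin m → F) j • ee F i ∈ Y := by
          have := Y.sub_mem h3 hxY
          rwa [add_sub_cancel_left] at this
        have h5 := Y.smul_mem ((x : Fin m → F) j)⁻¹ h4
        rwa [smul_smul, inv_mul_cancel₀ hj', one_smul] at h5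
      intro i hib
      by_cases hij : i = j
      · subst hij
        have h3 : (x : Fin m → F) i • ee F i =
            (x : Fin m → F) - ∑ k ∈ (Finset.univ.erase i), (x : Fin m → F) k • ee F k := by
          have h4 : (x : Fin m → F) = ∑ k, (x : Fin m → F) k • ee F k := by
            funext l
            rw [Finset.sum_apply, Finset.sum_eq_single l]
            · simp [ee]
            · intro k _ hk
              simp [ee, Ne.symm hk]
            · intro h
              exact absurd (Finset.mem_univ l) h
          have h5 := Finset.add_sum_erase Finset.univ (fun k => (x : Fin m → F) k • ee F k)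
            (Finset.mem_univ i)
          exact eq_sub_of_add_eq (h5.trans h4.symm)
        have h4 : (x : Fin m → F) i • ee F i ∈ Y := by
          rw [h3]
          apply Y.sub_mem hxY
          apply Y.sum_mem
          intro k hk
          by_cases hkb : k = b
          · subst hkb
            have : (x : Fin m → F) k = 0 := x.2.2
            rw [this, zero_smul]
            exact Y.zero_mem
          · exact Y.smul_mem _ (hothers k (Finset.ne_of_mem_erase hk) hkb)
        have h5 := Y.smul_mem ((x : Fin m → F) i)⁻¹ h4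
        rwa [smul_smul, inv_mul_cancel₀ hj', one_smul] at h5
      · exact hothers i hij hib
    · intro i hib
      have : i = a := by
        by_contra hia
        exact hex ⟨i, hia, hib⟩
      rw [this]
      exact hYa
  intro o ho
  refine ⟨hea o ho, hb o ho, ?_⟩
  intro v hv
  have h3 : v ∈ Y := by
    have h4 : v = ∑ k, v k • ee F k := by
      funext l
      rw [Finset.sum_apply, Finset.sum_eq_single l]
      · simp [ee]
      · intro k _ hk
        simp [ee, Ne.symm hk]
      · intro h
        exact absurd (Finset.mem_univ l) h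
    rw [h4]
    apply Y.sum_mem
    intro k _
    by_cases hkb : k = b
    · subst hkb
      rw [hv, zero_smul]
      exact Y.zero_mem
    · exact Y.smul_mem _ (hYe k hkb)
  exact ((hYmem v).mp h3).2 o ho

end

end Pool.Agent.Helper54.OC
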