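import Pool.Agent.Helper54.CL.Quasi
import Pool.Agent.Helper54.PR.SLQuasi

/-!
# OC-28: the normalizer of `SL_2 ⊗ O(T)` acting on `F² ⊗ T`: the factor `SL_2(F)` is normalized

`T` with a symmetric form `hT`; `F² ⊗ T = T × T`; `tn m k (t1, t2) = (m11 k t1 + m12 k t2, m21 k t1 + m22 k t2)`.  `I` is a group of linear maps of the form `tn m k`, `k`
an isometry, which contains all `tn m 1`, `m ∈ SL_2(F)`, and all `tn 1 k`, `k ∈ GG`.  `φ` normalizes `I`, `φ^p = 1`.

PROOF.  `N = {tn m 1 | m ∈ SL_2(F)}`, isomorphic to `SL_2(F)` (`T ≠ 0`), `N_j = φ^j N φ^(-j)`.  `N` and so all `N_j` are normal subgroups of `I`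
(`(tn m k) (tn m' 1) (tn m k)⁻¹ = tn (m m' m⁻¹) 1`; `m` is invertible; `φ I φ⁻¹ = I`, finite).  Suppose `N_1 ≠ N`; then `N_i ≠ N_j` for `0 ≤ i < j < p` (`p` prime).
(1) `N_i` and `N_j` commute for `i ≠ j`: `D = N_i ∩ N_j` is normal in both; `N_i` is quasisimple (`sl_qs`), so `D = N_i`, or `D` is in the center of `N_i`.  In the first case
    `N_i ≤ N_j`, so `N_i = N_j` (same order), a contradiction.  So `D` is central in `N_i` and in `N_j`.  For `n ∈ N_i` the map `N_j → D`, `x ↦ n x n⁻¹ x⁻¹`, is a homomorphism, so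
    trivial, since `N_j` is perfect.
(2) A linear map which commutes with `N` is `tn 1 k`, `k ∈ GL(T)`.  So `N_j = {tn 1 k | k ∈ M_j}` for `j = 1, 2, 3` (`p ≥ 5`), the `M_j ≤ GL(T)` commute with each other, and they are
    isomorphic to `SL_2(F)`.  Let `tn 1 k ∈ I`, `k^p = 1`: `tn 1 k = tn m k0`, so `m = μ 1`, `k = μ k0`, `k0` an isometry, `1 = k^p = μ^p k0^p` gives `μ^(2p) = 1`, `μ² = 1`
    (characteristic `p`), so `k` is an isometry and `k ∈ GG`.  `SL_2(F)` is generated by elements of order `p` (`sl_gen`), so `M_j ≤ GG`.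
    `M_j` is normalized by `GG`.
(3) An element of order `p` of `M_1` shows `finrank T ≥ 3` (`finrank_ge_three`) and there is an isotropic vector (`exists_fixed`).  If `finrank T ≠ 4`, then `hT.Ok` and `GG` is
    quasisimple (`qs_GG`); `M_1` and `M_2` are not abelian, so not central, so `M_1 = GG = M_2`, but they commute: a contradiction.
(4) `finrank T = 4`.  Let `S_j ≤ M_j` be the image of `{up t}`, of order `q = |F|`.  `S_1 S_2 S_3` is a group `R`, and it has order `q³`: `s1 s2 s3 = 1` implies that `s3 ∈ M_3` commutes with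
    `M_3`, so `s3² = 1`, `s3 = 1`, and in the same way `s1 = s2 = 1`.  `R` is a `p`-group of isometries.  As in `pt_syl` there is an isotropic `z ≠ 0` fixed by `R` (the span `Y` of all
    `r v - v` is invariant and not zero, it contains a fixed vector `z ≠ 0`, and `z ⊥ Y` by `fixed_perp`).  Let `Pair z w`.  `psi r` is an isometry of the plane
    `perp2 z w` of `p`-power order, so trivial (`finrank_ge_three`, `finrank_perp2`), and `R ≤ UU z` (`psi_ker`).  By `UU_form'` and `Adm` (`2 t = - B a a`) an element of `UU z` is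
    determined by `a ∈ perp2 z w`: `|R| ≤ q²`, a contradiction.
-/

set_option autoImplicit false

namespace Pool.Agent.Helper54.OC

open Pool.Agent.Helper54.CL

/-- `m ⊗ k` -/
def tn {F T : Type} [Field F] [AddCommGroup T] [Module F T] (m : Matrix (Fin 2) (Fin 2) F)
    (k : T ≃ₗ[F] T) (e : T × T) : T × T :=
  (m 0 0 • k e.1 + m 0 1 • k e.2, m 1 0 • k e.1 + m 1 1 • k e.2)

theorem tn_tn {F T : Type} [Field F] [AddCommGroup T] [Module F T]
    (m m' : Matrix (Fin 2) (Fin 2) F) (k k' : T ≃ₗ[F] T) (e : T × T) :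
    tn m k (tn m' k' e) = tn (m * m') (k * k') e := by
  unfold tn
  have h1 : ∀ v, (k * k') v = k (k' v) := fun v => rfl
  simp only [Matrix.mul_apply, Fin.sum_univ_two, map_add, map_smul, h1, Prod.mk.injEq]
  constructor <;> module

structure TD {F T : Type} [Field F] [AddCommGroup T] [Module F T] (p : ℕ) (hT : HF F T)
    (I : Subgroup ((T × T) ≃ₗ[F] (T × T))) (φ : (T × T) ≃ₗ[F] (T × T)) : Prop where
  o : hT.IsO
  t0 : ∃ t : T, t ≠ 0
  I1 : ∀ i ∈ I, ∃ (m : Matrix (Fin 2) (Fin 2) F) (k : T ≃ₗ[F] T), k ∈ hT.Iso ∧ ∀ e, i e = tn m k e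
  I2 : ∀ m : Matrix.SpecialLinearGroup (Fin 2) F, ∃ i ∈ I,
    ∀ e, i e = tn (m : Matrix (Fin 2) (Fin 2) F) 1 e
  I3 : ∀ k ∈ hT.GG p, ∃ i ∈ I, ∀ e, i e = tn 1 k e
  ord : φ ^ p = 1
  nm : ∀ i ∈ I, φ * i * φ⁻¹ ∈ I

section tqgroup

private theorem tq_cent {G X : Type} [Group G] [Group X] [Finite X] (hX : PR.QS X)
    {I : Subgroup G} {f g : X →* G} (hf : Function.Injective f) (hg : Function.Injective g)
    (hfI : ∀ u, f u ∈ I)
    (hgn : ∀ i ∈ I, ∀ u, ∃ v, i * g u * i⁻¹ = g v)
    (hne : f.range ≠ g.range) (u : X) (hu : f u ∈ g.range) : u ∈ Subgroup.center X := by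
  have hN : (g.range.comap f).Normal := by
    constructor
    intro n hn w
    obtain ⟨v, hv⟩ := hn
    obtain ⟨v', hv'⟩ := hgn (f w) (hfI w) v
    refine ⟨v', ?_⟩
    rw [← hv', map_mul, map_mul, map_inv, hv]
  rcases hX.2 _ hN with h1 | h1
  · exact h1 hu
  · exfalso
    apply hne
    have h2 : f.range ≤ g.range := by
      rintro _ ⟨w, rfl⟩
      have h3 : w ∈ g.range.comap f := by rw [h1]; exact Subgroup.mem_top w
      exact h3
    have hc1 : Nat.card f.range = Nat.card X :=
      (Nat.card_congr (MonoidHom.ofInjective hf).toEquiv).symm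
    have hc2 : Nat.card g.range = Nat.card X :=
      (Nat.card_congr (MonoidHom.ofInjective hg).toEquiv).symm
    have hfin : Finite g.range := Finite.of_equiv X (MonoidHom.ofInjective hg).toEquiv
    exact Subgroup.eq_of_le_of_card_ge h2 (by rw [hc1, hc2])

private theorem tq_comm {G X : Type} [Group G] [Group X] [Finite X] (hX : PR.QS X)
    {I : Subgroup G} {f g : X →* G} (hf : Function.Injective f) (hg : Function.Injective g)
    (hfI : ∀ u, f u ∈ I) (hgI : ∀ u, g u ∈ I)
    (hfn : ∀ i ∈ I, ∀ u, ∃ v, i * f u * i⁻¹ = f v) (hgn : ∀ i ∈ I, ∀ u, ∃ v, i * g u * i⁻¹ = g v)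
    (hne : f.range ≠ g.range) (u v : X) : f u * g v = g v * f u := by
  have hd : ∀ v, ∃ w, f u * g v * (f u)⁻¹ * (g v)⁻¹ = g w ∧ w ∈ Subgroup.center X := by
    intro v
    obtain ⟨w, hw⟩ := hgn (f u) (hfI u) v
    obtain ⟨u', hu'⟩ := hfn (g v) (hgI v) u⁻¹
    refine ⟨w * v⁻¹, ?_, ?_⟩
    · rw [hw, map_mul, map_inv]
    · apply tq_cent hX hg hf hgI hfn (Ne.symm hne)
      refine ⟨u * u', ?_⟩
      rw [map_mul, map_mul, ← hu', map_inv, map_inv, ← hw]
      group
  let c : X →* G :=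
    { toFun := fun v => f u * g v * (f u)⁻¹ * (g v)⁻¹
      map_one' := by rw [map_one]; group
      map_mul' := by
        intro a b
        obtain ⟨w, hw, hwc⟩ := hd b
        have h1 : g a * (f u * g b * (f u)⁻¹ * (g b)⁻¹) = (f u * g b * (f u)⁻¹ * (g b)⁻¹) * g a := by
          rw [hw, ← map_mul, ← map_mul, Subgroup.mem_center_iff.1 hwc a]
        rw [map_mul]
        calc f u * (g a * g b) * (f u)⁻¹ * (g a * g b)⁻¹
            = f u * g a * (f u)⁻¹ * ((f u * g b * (f u)⁻¹ * (g b)⁻¹) * (g a)⁻¹) := by group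
          _ = f u * g a * (f u)⁻¹ * ((g a)⁻¹ * (g a * (f u * g b * (f u)⁻¹ * (g b)⁻¹)) * (g a)⁻¹) := by
              group
          _ = f u * g a * (f u)⁻¹ * ((g a)⁻¹ * ((f u * g b * (f u)⁻¹ * (g b)⁻¹) * g a) * (g a)⁻¹) := by
              rw [h1]
          _ = f u * g a * (f u)⁻¹ * (g a)⁻¹ * (f u * g b * (f u)⁻¹ * (g b)⁻¹) := by group }
  have hc : ∀ a, c a = f u * g a * (f u)⁻¹ * (g a)⁻¹ := fun a => rfl
  have h1 : c v = 1 := by
    apply PR.lrq_perfect_hom hX.1 c
    intro a b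
    obtain ⟨w, hw, hwc⟩ := hd a
    obtain ⟨w', hw', hwc'⟩ := hd b
    rw [hc, hc, hw, hw', ← map_mul, ← map_mul, Subgroup.mem_center_iff.1 hwc' w]
  rw [hc, mul_inv_eq_one, mul_inv_eq_iff_eq_mul] at h1
  exact h1

end tqgroup

section tqlin
variable {F T : Type} [Field F] [AddCommGroup T] [Module F T]

private theorem tn_one_one (e : T × T) : tn (1 : Matrix (Fin 2) (Fin 2) F) 1 e = e := by
  have h1 : ∀ v : T, (1 : T ≃ₗ[F] T) v = v := fun v => rfl
  unfold tn
  simp [h1]

/-- `1 ⊗ k` -/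
private def kap : (T ≃ₗ[F] T) →* ((T × T) ≃ₗ[F] (T × T)) where
  toFun k := LinearEquiv.prodCongr k k
  map_one' := LinearEquiv.ext fun e => rfl
  map_mul' a b := LinearEquiv.ext fun e => rfl

private theorem kap_apply (k : T ≃ₗ[F] T) (e : T × T) : kap k e = (k e.1, k e.2) := rfl

private theorem kap_tn (k : T ≃ₗ[F] T) (e : T × T) :
    kap k e = tn (1 : Matrix (Fin 2) (Fin 2) F) k e := by
  rw [kap_apply]
  unfold tn
  simp

private theorem kap_inj : Function.Injective (kap (F := F) (T := T)) := by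
  intro a b hab
  apply LinearEquiv.ext
  intro t
  have h1 := congrArg (fun g : (T × T) ≃ₗ[F] (T × T) => (g (t, 0)).1) hab
  exact h1

private def tauL (m : Matrix (Fin 2) (Fin 2) F) : (T × T) →ₗ[F] (T × T) where
  toFun e := tn m 1 e
  map_add' := by
    intro a b
    have h1 : ∀ v : T, (1 : T ≃ₗ[F] T) v = v := fun v => rfl
    unfold tn
    ext <;> simp only [h1, Prod.fst_add, Prod.snd_add] <;> module
  map_smul' := by
    intro c a
    have h1 : ∀ v : T, (1 : T ≃ₗ[F] T) v = v := fun v => rfl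
    unfold tn
    ext <;> simp only [h1, Prod.smul_fst, Prod.smul_snd, RingHom.id_apply] <;> module

/-- `m ⊗ 1` -/
private def tau : Matrix.SpecialLinearGroup (Fin 2) F →* ((T × T) ≃ₗ[F] (T × T)) where
  toFun m := LinearEquiv.ofLinear (tauL (m : Matrix (Fin 2) (Fin 2) F))
    (tauL ((m⁻¹ : Matrix.SpecialLinearGroup (Fin 2) F) : Matrix (Fin 2) (Fin 2) F))
    (by
      apply LinearMap.ext
      intro e
      show tn _ 1 (tn _ 1 e) = e
      rw [tn_tn, ← Matrix.SpecialLinearGroup.coe_mul, mul_inv_cancel, one_mul,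
        Matrix.SpecialLinearGroup.coe_one, tn_one_one])
    (by
      apply LinearMap.ext
      intro e
      show tn _ 1 (tn _ 1 e) = e
      rw [tn_tn, ← Matrix.SpecialLinearGroup.coe_mul, inv_mul_cancel, one_mul,
        Matrix.SpecialLinearGroup.coe_one, tn_one_one])
  map_one' := by
    apply LinearEquiv.ext
    intro e
    show tn _ 1 e = e
    rw [Matrix.SpecialLinearGroup.coe_one, tn_one_one]
  map_mul' a b := by
    apply LinearEquiv.ext
    intro e
    show tn _ 1 e = tn _ 1 (tn _ 1 e)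
    rw [tn_tn, ← Matrix.SpecialLinearGroup.coe_mul, one_mul]

private theorem tau_apply (m : Matrix.SpecialLinearGroup (Fin 2) F) (e : T × T) :
    tau m e = tn (m : Matrix (Fin 2) (Fin 2) F) 1 e := rfl

private theorem tn_left (m : Matrix (Fin 2) (Fin 2) F) (k : T ≃ₗ[F] T) (t : T) :
    tn m k (t, 0) = (m 0 0 • k t, m 1 0 • k t) := by
  unfold tn
  simp

private theorem tn_right (m : Matrix (Fin 2) (Fin 2) F) (k : T ≃ₗ[F] T) (t : T) :
    tn m k (0, t) = (m 0 1 • k t, m 1 1 • k t) := by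
  unfold tn
  simp

private theorem tau_inj (h0 : ∃ t : T, t ≠ 0) : Function.Injective (tau (F := F) (T := T)) := by
  rw [injective_iff_map_eq_one]
  intro m hm
  obtain ⟨t, ht⟩ := h0
  have e1 : tn (m : Matrix (Fin 2) (Fin 2) F) 1 (t, 0) = (t, 0) := by rw [← tau_apply, hm]; rfl
  have e2 : tn (m : Matrix (Fin 2) (Fin 2) F) 1 (0, t) = (0, t) := by rw [← tau_apply, hm]; rfl
  rw [tn_left] at e1
  rw [tn_right] at e2
  have h1 : (1 : T ≃ₗ[F] T) t = t := rfl
  rw [h1, Prod.mk.injEq] at e1 e2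
  have key : ∀ c : F, c • t = t → c = 1 := by
    intro c hc
    have h2 : (c - 1) • t = 0 := by rw [sub_smul, hc, one_smul, sub_self]
    exact sub_eq_zero.1 ((smul_eq_zero.1 h2).resolve_right ht)
  have f1 := key _ e1.1
  have f2 := (smul_eq_zero.1 e1.2).resolve_right ht
  have f3 := (smul_eq_zero.1 e2.1).resolve_right ht
  have f4 := key _ e2.2
  apply Subtype.ext
  ext i j
  fin_cases i <;> fin_cases j
  · exact f1
  · exact f3
  · exact f2
  · exact f4

/-- a linear map commuting with `SL_2 ⊗ 1` is `1 ⊗ k` -/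
private theorem cent_kap {g : (T × T) ≃ₗ[F] (T × T)} (hg : ∀ m, g * tau m = tau m * g) :
    ∃ k : T ≃ₗ[F] T, kap k = g := by
  have hgi : ∀ m, g⁻¹ * tau m = tau m * g⁻¹ := by
    intro m
    rw [inv_mul_eq_iff_eq_mul, ← mul_assoc, hg, mul_assoc, mul_inv_cancel, mul_one]
  have key : ∀ g : (T × T) ≃ₗ[F] (T × T), (∀ m, g * tau m = tau m * g) →
      ∀ e, g e = ((g (e.1, 0)).1, (g (e.2, 0)).1) := by
    intro g hg
    have h01 : (0 : Fin 2) ≠ 1 := by decide
    have hU : ∀ e : T × T, tau (Matrix.SpecialLinearGroup.transvection h01 (1 : F)) e =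
        (e.1 + e.2, e.2) := by
      intro e
      rw [tau_apply]
      unfold tn
      have h1 : ∀ v : T, (1 : T ≃ₗ[F] T) v = v := fun v => rfl
      simp [Matrix.SpecialLinearGroup.transvection_coe, h1, Matrix.single]
    have hL : ∀ e : T × T, tau (Matrix.SpecialLinearGroup.transvection h01.symm (1 : F)) e =
        (e.1, e.1 + e.2) := by
      intro e
      rw [tau_apply]
      unfold tn
      have h1 : ∀ v : T, (1 : T ≃ₗ[F] T) v = v := fun v => rfl
      simp [Matrix.SpecialLinearGroup.transvection_coe, h1, Matrix.single]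
    have hc : ∀ m e, g (tau m e) = tau m (g e) := fun m e =>
      congrArg (fun f : (T × T) ≃ₗ[F] (T × T) => f e) (hg m)
    have a1 : ∀ t, (g (t, 0)).2 = 0 := by
      intro t
      have h1 := hc (Matrix.SpecialLinearGroup.transvection h01 (1 : F)) (t, 0)
      rw [hU, hU] at h1
      have h2 := congrArg Prod.fst h1
      simp only [add_zero] at h2
      exact (left_eq_add.1 h2)
    have a2 : ∀ t, g (t, t) = ((g (t, 0)).1, (g (t, 0)).1) := by
      intro t
      have h1 := hc (Matrix.SpecialLinearGroup.transvection h01.symm (1 : F)) (t, 0)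
      rw [hL, hL] at h1
      simp only [add_zero] at h1
      rw [h1, a1, add_zero]
    have a3 : ∀ t, g (0, t) = (0, (g (t, 0)).1) := by
      intro t
      have h1 : ((0 : T), t) = (t, t) - (t, 0) := by simp
      rw [h1, map_sub, a2]
      ext
      · simp
      · simp [a1]
    intro e
    have h1 : e = (e.1, 0) + (0, e.2) := by simp
    conv_lhs => rw [h1, map_add, a3]
    ext
    · simp
    · simp [a1]
  have k1 := key g hg
  have k2 := key g⁻¹ hgi
  have i1 : ∀ e, g (g⁻¹ e) = e := fun e => g.apply_symm_apply e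
  have i2 : ∀ e, g⁻¹ (g e) = e := fun e => g.symm_apply_apply e
  refine ⟨LinearEquiv.ofLinear
    (LinearMap.fst F T T ∘ₗ (g : (T × T) →ₗ[F] (T × T)) ∘ₗ LinearMap.inl F T T)
    (LinearMap.fst F T T ∘ₗ ((g⁻¹ : (T × T) ≃ₗ[F] (T × T)) : (T × T) →ₗ[F] (T × T)) ∘ₗ
      LinearMap.inl F T T) ?_ ?_, ?_⟩
  · apply LinearMap.ext
    intro t
    show (g ((g⁻¹ (t, 0)).1, 0)).1 = t
    have h1 := i1 (t, 0)
    rw [k1] at h1
    exact congrArg Prod.fst h1
  · apply LinearMap.ext
    intro t
    show (g⁻¹ ((g (t, 0)).1, 0)).1 = t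
    have h1 := i2 (t, 0)
    rw [k2] at h1
    exact congrArg Prod.fst h1
  · apply LinearEquiv.ext
    intro e
    rw [k1 e]
    rfl

private theorem lift_kap {X : Type} [Group X] {f : X →* ((T × T) ≃ₗ[F] (T × T))}
    (hf : ∀ m, ∃ k : T ≃ₗ[F] T, kap k = f m) :
    ∃ f' : X →* (T ≃ₗ[F] T), ∀ m, kap (f' m) = f m := by
  choose r hr using hf
  refine ⟨{ toFun := r, map_one' := ?_, map_mul' := ?_ }, hr⟩
  · apply kap_inj
    rw [hr, map_one, map_one]
  · intro a b
    apply kap_inj
    rw [hr, map_mul, map_mul, hr, hr]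

end tqlin

section tqgg
variable {p : ℕ} [Fact p.Prime] {F T : Type} [Field F] [Finite F] [CharP F p] [AddCommGroup T]
  [Module F T] [Finite T]

/-- a `p`-group of isometries which is not trivial has an isotropic fixed vector -/
private theorem tq_fixed (h : HF F T) {Q : Subgroup (T ≃ₗ[F] T)}
    (hQ : IsPGroup p Q) (hQI : Q ≤ h.Iso) (hne : ∃ q ∈ Q, q ≠ 1) :
    ∃ z : T, z ≠ 0 ∧ h.B z z = 0 ∧ ∀ q ∈ Q, q z = z := by
  let Y : Submodule F T := Submodule.span F {w | ∃ q ∈ Q, ∃ v, w = q v - v}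
  have hY : ∀ q ∈ Q, ∀ v ∈ Y, q v ∈ Y := by
    intro q hq v hv
    induction hv using Submodule.span_induction with
    | mem w hw =>
      obtain ⟨q', hq', v', rfl⟩ := hw
      have e1 : q (q' v' - v') = ((q * q') v' - v') - (q v' - v') := by
        rw [map_sub]
        show q (q' v') - q v' = (q (q' v') - v') - (q v' - v')
        abel
      rw [e1]
      exact Submodule.sub_mem _ (Submodule.subset_span ⟨q * q', Q.mul_mem hq hq', v', rfl⟩)
        (Submodule.subset_span ⟨q, hq, v', rfl⟩)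
    | zero => rw [map_zero]; exact Submodule.zero_mem _
    | add a b _ _ ha hb => rw [map_add]; exact Submodule.add_mem _ ha hb
    | smul c a _ ha => rw [map_smul]; exact Submodule.smul_mem _ _ ha
  let _ : MulAction Q Y :=
    { smul := fun q v => ⟨(q : T ≃ₗ[F] T) (v : T), hY q q.2 v v.2⟩
      one_smul := fun v => Subtype.ext rfl
      mul_smul := fun a b v => Subtype.ext rfl }
  obtain ⟨q, hq, hq1⟩ := hne
  obtain ⟨v, hv⟩ : ∃ v, q v ≠ v := by
    by_contra hcon
    push Not at hcon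
    exact hq1 (LinearEquiv.ext hcon)
  have hcard : p ∣ Nat.card Y := by
    let y : Y := ⟨q v - v, Submodule.subset_span ⟨q, hq, v, rfl⟩⟩
    have hy : y ≠ 0 := by
      intro h0
      have h1 : q v - v = 0 := congrArg Subtype.val h0
      exact hv (sub_eq_zero.1 h1)
    have hy2 : p • y = 0 := by
      rw [← Nat.cast_smul_eq_nsmul F, CharP.cast_eq_zero, zero_smul]
    rw [← addOrderOf_eq_prime hy2 hy]
    exact addOrderOf_dvd_natCard y
  obtain ⟨z, hz, hz0⟩ := hQ.exists_fixed_point_of_prime_dvd_card_of_fixed_point Y hcard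
    (a := (0 : Y)) (fun q => Subtype.ext (map_zero (q : T ≃ₗ[F] T)))
  have hzq : ∀ q ∈ Q, q (z : T) = z := fun q hq => congrArg Subtype.val (hz ⟨q, hq⟩)
  have hzY : ∀ v ∈ Y, h.B (z : T) v = 0 := by
    intro v hv
    induction hv using Submodule.span_induction with
    | mem w hw =>
      obtain ⟨q', hq', v', rfl⟩ := hw
      exact h.fixed_perp (hQI hq') (hzq q' hq') v'
    | zero => exact h.zero_right _
    | add a b _ _ ha hb => rw [h.add_right, ha, hb, add_zero]
    | smul c a _ ha => rw [h.smul_right, ha, mul_zero]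
  exact ⟨z, fun h0 => hz0 (Subtype.ext h0.symm), hzY _ z.2, hzq⟩

private theorem tq_h01 : (0 : Fin 2) ≠ 1 := by decide

/-- the upper triangular group, as a homomorphism from the additive group -/
private def tup : Multiplicative F →* Matrix.SpecialLinearGroup (Fin 2) F where
  toFun t := Matrix.SpecialLinearGroup.transvection tq_h01 t.toAdd
  map_one' := Matrix.SpecialLinearGroup.transvection_coeff_zero tq_h01
  map_mul' a b := Matrix.SpecialLinearGroup.transvection_add tq_h01 a.toAdd b.toAdd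

omit [Fact p.Prime] [Finite F] in
private theorem tv_pow {i j : Fin 2} (hij : i ≠ j) (t : F) :
    (Matrix.SpecialLinearGroup.transvection hij t) ^ p = 1 := by
  have h1 : ∀ n : ℕ, (Matrix.SpecialLinearGroup.transvection hij t) ^ n =
      Matrix.SpecialLinearGroup.transvection hij ((n : F) * t) := by
    intro n
    induction n with
    | zero => simp
    | succ n ih =>
      rw [pow_succ, ih, ← Matrix.SpecialLinearGroup.transvection_add]
      congr 1
      push_cast
      ring
  rw [h1, CharP.cast_eq_zero, zero_mul, Matrix.SpecialLinearGroup.transvection_coeff_zero]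

omit [Finite F] [Finite T] in
/-- homomorphisms from `SL_2` into `1 ⊗ GL(T)` and `I` have values in `GG` -/
private theorem in_GG {hT : HF F T} (hO : hT.IsO) (h0 : ∃ t : T, t ≠ 0)
    {I : Subgroup ((T × T) ≃ₗ[F] (T × T))}
    (I1 : ∀ i ∈ I, ∃ (m : Matrix (Fin 2) (Fin 2) F) (k : T ≃ₗ[F] T), k ∈ hT.Iso ∧ ∀ e, i e = tn m k e)
    {f : Matrix.SpecialLinearGroup (Fin 2) F →* (T ≃ₗ[F] T)} (hf : ∀ m, kap (f m) ∈ I)
    (m : Matrix.SpecialLinearGroup (Fin 2) F) : f m ∈ hT.GG p := by
  have hmain : ∀ k : T ≃ₗ[F] T, kap k ∈ I → k ^ p = 1 → k ∈ hT.GG p := by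
    intro k hk hkp
    obtain ⟨m, k0, hk0, hm⟩ := I1 _ hk
    obtain ⟨c, hc⟩ : ∃ c, c = m 0 0 := ⟨_, rfl⟩
    have hkk : ∀ t, k t = c • k0 t := by
      intro t
      have h1 := hm (t, 0)
      rw [kap_apply, tn_left, ← hc] at h1
      exact congrArg Prod.fst h1
    have hB : ∀ x y, hT.B (k x) (k y) = (c * c) * hT.B x y := by
      intro x y
      rw [hkk, hkk, hT.smul_left, hT.smul_right, hk0, hO.1]
      ring
    have hBn : ∀ n x y, hT.B ((k ^ n) x) ((k ^ n) y) = (c * c) ^ n * hT.B x y := by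
      intro n
      induction n with
      | zero =>
        intro x y
        rw [pow_zero, pow_zero, one_mul]
        rfl
      | succ n ih =>
        intro x y
        rw [pow_succ']
        show hT.B (k ((k ^ n) x)) (k ((k ^ n) y)) = _
        rw [hB, ih, pow_succ]
        ring
    obtain ⟨t, ht⟩ := h0
    obtain ⟨y, hy⟩ : ∃ y, hT.B t y ≠ 0 := by
      by_contra hcon
      push Not at hcon
      exact ht (hT.nondeg t hcon)
    have h2 := hBn p t y
    rw [hkp] at h2
    have h3 : hT.B t y = (c * c) ^ p * hT.B t y := h2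
    have h4 : (c * c) ^ p = 1 := by
      have h5 : ((c * c) ^ p - 1) * hT.B t y = 0 := by linear_combination -h3
      exact sub_eq_zero.1 ((mul_eq_zero.1 h5).resolve_right hy)
    have h6 : c * c = 1 := by
      have h7 : (c * c - 1) ^ p = 0 := by rw [sub_pow_char, h4, one_pow, sub_self]
      exact sub_eq_zero.1 (pow_eq_zero_iff (Fact.out : p.Prime).ne_zero |>.1 h7)
    refine Subgroup.subset_closure ⟨?_, 1, by rw [pow_one]; exact hkp⟩
    intro x y
    rw [hB, h6, one_mul]
  have htop := PR.sl_gen ((hT.GG p).comap f) (by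
    intro i j hij t
    refine hmain _ (hf _) ?_
    rw [← map_pow, tv_pow, map_one])
  have h1 : m ∈ (hT.GG p).comap f := by rw [htop]; exact Subgroup.mem_top m
  exact h1

private theorem sl_not_comm : ¬ ∀ u v : Matrix.SpecialLinearGroup (Fin 2) F, u * v = v * u := by
  intro h
  have h1 : Matrix.SpecialLinearGroup.transvection tq_h01 (1 : F) ∈
      Subgroup.center (Matrix.SpecialLinearGroup (Fin 2) F) := by
    rw [Subgroup.mem_center_iff]
    intro g
    exact h _ _
  rw [Matrix.SpecialLinearGroup.transvection_mem_center_iff] at h1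
  exact one_ne_zero h1

private theorem tens_contra (hp5 : 5 ≤ p) {hT : HF F T} (hO : hT.IsO)
    {f1 f2 f3 : Matrix.SpecialLinearGroup (Fin 2) F →* (T ≃ₗ[F] T)}
    (i1 : Function.Injective f1) (i2 : Function.Injective f2) (i3 : Function.Injective f3)
    (g1 : ∀ m, f1 m ∈ hT.GG p) (g2 : ∀ m, f2 m ∈ hT.GG p) (g3 : ∀ m, f3 m ∈ hT.GG p)
    (n1 : ∀ k ∈ hT.GG p, ∀ m, ∃ m', k * f1 m * k⁻¹ = f1 m')
    (c12 : ∀ u v, f1 u * f2 v = f2 v * f1 u) (c13 : ∀ u v, f1 u * f3 v = f3 v * f1 u)
    (c23 : ∀ u v, f2 u * f3 v = f3 v * f2 u) : False := by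
  have hfd : FiniteDimensional F T := inferInstance
  have h2 : (2 : F) ≠ 0 := HF.two_ne (p := p) (by omega)
  have hu1 : f1 (Matrix.SpecialLinearGroup.transvection tq_h01 (1 : F)) ≠ 1 := by
    intro h
    have h3 := i1 (h.trans (map_one f1).symm)
    have h4 : Matrix.SpecialLinearGroup.transvection tq_h01 (1 : F) ∈
        Subgroup.center (Matrix.SpecialLinearGroup (Fin 2) F) := by
      rw [h3]; exact Subgroup.one_mem _
    rw [Matrix.SpecialLinearGroup.transvection_mem_center_iff] at h4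
    exact one_ne_zero h4
  have hup1 : (f1 (Matrix.SpecialLinearGroup.transvection tq_h01 (1 : F))) ^ p ^ 1 = 1 := by
    rw [pow_one, ← map_pow, tv_pow, map_one]
  have hi1 := hT.GG_le p (g1 (Matrix.SpecialLinearGroup.transvection tq_h01 (1 : F)))
  have hr3 : 3 ≤ Module.finrank F T := hT.finrank_ge_three (p := p) (by omega) hO hi1 hup1 hu1
  by_cases hr4 : Module.finrank F T = 4
  swap
  · obtain ⟨x, w, hx0, hxx, -, -⟩ := hT.exists_fixed hi1 hup1 hu1
    have hok : hT.Ok := ⟨⟨x, hx0, hxx⟩, fun _ => by omega⟩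
    have hqs := hT.qs_GG hp5 hok
    have hN : (f1.range.subgroupOf (hT.GG p)).Normal := by
      constructor
      rintro n hn g
      obtain ⟨m, hm⟩ := Subgroup.mem_subgroupOf.1 hn
      obtain ⟨m', hm'⟩ := n1 g g.2 m
      refine Subgroup.mem_subgroupOf.2 ⟨m', ?_⟩
      rw [← hm', hm]
      rfl
    rcases hqs.2 _ hN with h3 | h3
    · apply sl_not_comm (F := F)
      intro u v
      apply i1
      have h4 : (⟨f1 v, g1 v⟩ : hT.GG p) ∈ Subgroup.center (hT.GG p) :=
        h3 (Subgroup.mem_subgroupOf.2 ⟨v, rfl⟩)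
      have h5 := Subgroup.mem_center_iff.1 h4 ⟨f1 u, g1 u⟩
      rw [map_mul, map_mul]
      exact congrArg Subtype.val h5
    · have h4 : ∀ v, ∃ w, f1 w = f2 v := by
        intro v
        have h5 : (⟨f2 v, g2 v⟩ : hT.GG p) ∈ f1.range.subgroupOf (hT.GG p) := by
          rw [h3]; exact Subgroup.mem_top _
        exact Subgroup.mem_subgroupOf.1 h5
      apply sl_not_comm (F := F)
      intro u v
      apply i2
      obtain ⟨w, hw⟩ := h4 u
      rw [map_mul, map_mul, ← hw]
      exact c12 w v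
  · -- the counting argument in dimension 4
    have hpinj : ∀ t : Multiplicative F, tup t ∈
        Subgroup.center (Matrix.SpecialLinearGroup (Fin 2) F) → t = 1 := by
      intro t ht
      have h3 : Matrix.SpecialLinearGroup.transvection tq_h01 t.toAdd ∈
        Subgroup.center (Matrix.SpecialLinearGroup (Fin 2) F) := ht
      rw [Matrix.SpecialLinearGroup.transvection_mem_center_iff] at h3
      exact h3
    have hpp : ∀ t : Multiplicative F, (tup t) ^ p = 1 := fun t => tv_pow tq_h01 t.toAdd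
    let Ψ : Multiplicative F × Multiplicative F × Multiplicative F →* (T ≃ₗ[F] T) :=
      { toFun := fun s => f1 (tup s.1) * f2 (tup s.2.1) * f3 (tup s.2.2)
        map_one' := by
          show f1 (tup 1) * f2 (tup 1) * f3 (tup 1) = 1
          rw [map_one, map_one, map_one, map_one, one_mul, one_mul]
        map_mul' := by
          rintro ⟨a, b, c⟩ ⟨a', b', c'⟩
          show f1 (tup (a * a')) * f2 (tup (b * b')) * f3 (tup (c * c')) =
            f1 (tup a) * f2 (tup b) * f3 (tup c) * (f1 (tup a') * f2 (tup b') * f3 (tup c'))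
          simp only [map_mul]
          calc f1 (tup a) * f1 (tup a') * (f2 (tup b) * f2 (tup b')) * (f3 (tup c) * f3 (tup c'))
              = f1 (tup a) * (f1 (tup a') * f2 (tup b)) * (f2 (tup b') * f3 (tup c)) *
                f3 (tup c') := by group
            _ = f1 (tup a) * (f2 (tup b) * f1 (tup a')) * (f3 (tup c) * f2 (tup b')) *
                f3 (tup c') := by rw [c12, c23]
            _ = f1 (tup a) * f2 (tup b) * (f1 (tup a') * f3 (tup c)) * f2 (tup b') *
                f3 (tup c') := by group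
            _ = f1 (tup a) * f2 (tup b) * (f3 (tup c) * f1 (tup a')) * f2 (tup b') *
                f3 (tup c') := by rw [c13]
            _ = _ := by group }
    have hΨ : ∀ a b c, Ψ (a, b, c) = f1 (tup a) * f2 (tup b) * f3 (tup c) := fun a b c => rfl
    have hΨi : Function.Injective Ψ := by
      rw [injective_iff_map_eq_one]
      rintro ⟨a, b, c⟩ h3
      rw [hΨ] at h3
      have hc : c = 1 := by
        apply hpinj
        rw [Subgroup.mem_center_iff]
        intro g
        apply i3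
        have h4 : f3 (tup c) = f2 (tup b)⁻¹ * f1 (tup a)⁻¹ := by
          have h5 : f1 (tup a) * f2 (tup b) * f3 (tup c) = 1 := h3
          rw [mul_eq_one_iff_eq_inv', mul_inv_rev] at h5
          rw [h5, map_inv, map_inv]
        rw [map_mul, map_mul, h4]
        calc f3 g * (f2 (tup b)⁻¹ * f1 (tup a)⁻¹) = (f2 (tup b)⁻¹ * f3 g) * f1 (tup a)⁻¹ := by
              rw [c23, mul_assoc]
          _ = f2 (tup b)⁻¹ * (f1 (tup a)⁻¹ * f3 g) := by rw [c13, mul_assoc]
          _ = _ := by rw [mul_assoc]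
      rw [hc, map_one, map_one, mul_one] at h3
      have hb : b = 1 := by
        apply hpinj
        rw [Subgroup.mem_center_iff]
        intro g
        apply i2
        have h4 : f2 (tup b) = f1 (tup a)⁻¹ := by
          rw [mul_eq_one_iff_eq_inv'] at h3
          rw [h3, map_inv]
        rw [map_mul, map_mul, h4, c12]
      rw [hb, map_one, map_one, mul_one] at h3
      have ha : a = 1 := by
        apply hpinj
        have h4 := i1 (h3.trans (map_one f1).symm)
        rw [h4]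
        exact Subgroup.one_mem _
      rw [ha, hb, hc]
      rfl
    have hΨp : ∀ s, (Ψ s) ^ p = 1 := by
      rintro ⟨a, b, c⟩
      rw [← map_pow]
      have h3 : ((a, b, c) : Multiplicative F × Multiplicative F × Multiplicative F) ^ p = 1 := by
        have h4 : ∀ t : Multiplicative F, t ^ p = 1 := by
          intro t
          apply Multiplicative.toAdd.injective
          rw [toAdd_pow, toAdd_one, ← Nat.cast_smul_eq_nsmul F, CharP.cast_eq_zero, zero_smul]
        rw [Prod.pow_mk, Prod.pow_mk, h4, h4, h4]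
        rfl
      rw [h3, map_one]
    have hR1 : IsPGroup p Ψ.range := by
      rintro ⟨_, s, rfl⟩
      refine ⟨1, ?_⟩
      apply Subtype.ext
      rw [pow_one]
      exact hΨp s
    have hRI : Ψ.range ≤ hT.Iso := by
      rintro _ ⟨⟨a, b, c⟩, rfl⟩
      rw [hΨ]
      exact hT.Iso.mul_mem (hT.Iso.mul_mem (hT.GG_le p (g1 _)) (hT.GG_le p (g2 _)))
        (hT.GG_le p (g3 _))
    have hRn : ∃ q ∈ Ψ.range, q ≠ 1 := by
      refine ⟨_, ⟨(Multiplicative.ofAdd 1, 1, 1), rfl⟩, ?_⟩
      have e1 : f2 (tup 1) = 1 := by rw [map_one, map_one]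
      have e2 : f3 (tup 1) = 1 := by rw [map_one, map_one]
      rw [hΨ, e1, e2, mul_one, mul_one]
      exact hu1
    obtain ⟨z, hz0, hzz, hz⟩ := tq_fixed hT hR1 hRI hRn
    obtain ⟨w, hp⟩ := hT.exists_partner h2 hz0 hzz
    have hr2 := hT.finrank_perp2 hp
    have hUU : ∀ r ∈ Ψ.range, r ∈ hT.UU z := by
      intro r hr
      have hst : r ∈ hT.stabX z := ⟨hRI hr, hz r hr⟩
      have h3 := (hT.psi_ker hp ⟨r, hst⟩).1 ?_
      · exact h3
      · by_contra h4
        have h5 : (hT.psi hp ⟨r, hst⟩) ^ p ^ 1 = 1 := by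
          rw [pow_one, ← map_pow]
          have h6 : (⟨r, hst⟩ : hT.stabX z) ^ p = 1 := by
            apply Subtype.ext
            obtain ⟨s, rfl⟩ := hr
            exact hΨp s
          rw [h6, map_one]
        have h7 := (hT.restr hp).finrank_ge_three (p := p) (by omega)
          ((hT.restr_isO hp).2 hO) (hT.psi_iso hp ⟨r, hst⟩) h5 h4
        omega
    have hEE : ∀ s, ∃ (a : hT.perp2 z w) (t : F), hT.Adm (a : T) t ∧
        ∀ v, Ψ s v = hT.E z (a : T) t v := by
      intro s
      obtain ⟨a, t, h3, h4, h5, h6⟩ := hT.UU_form' hp (hUU _ ⟨s, rfl⟩)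
      exact ⟨⟨a, h3, h4⟩, t, h5, h6⟩
    choose A t hA hE using hEE
    have hAi : Function.Injective A := by
      intro s s' hs
      apply hΨi
      have h3 : t s = t s' := by
        have h4 := hA s
        have h5 := hA s'
        unfold HF.Adm at h4 h5
        rw [hs] at h4
        rw [hO.1, hO.2, one_mul] at h4 h5
        have h6 : 2 * t s = 2 * t s' := by linear_combination h4 - h5
        exact mul_left_cancel₀ h2 h6
      apply LinearEquiv.ext
      intro v
      rw [hE, hE, hs, h3]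
    have hcard := Nat.card_le_card_of_injective A hAi
    have hc1 : Nat.card (Multiplicative F × Multiplicative F × Multiplicative F) =
        Nat.card F ^ 3 := by
      rw [Nat.card_prod, Nat.card_prod]
      have h3 : Nat.card (Multiplicative F) = Nat.card F := Nat.card_congr Multiplicative.toAdd
      rw [h3]
      ring
    have hc2 : Nat.card (hT.perp2 z w) = Nat.card F ^ 2 := by
      have h3 : Module.finrank F (hT.perp2 z w) = 2 := by omega
      rw [Module.natCard_eq_pow_finrank (K := F), h3]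
    rw [hc1, hc2] at hcard
    have hq : 1 < Nat.card F := Finite.one_lt_card
    have h3 : Nat.card F ^ 2 < Nat.card F ^ 3 := Nat.pow_lt_pow_right hq (by norm_num)
    omega

end tqgg

theorem tens_norm {p : ℕ} [Fact p.Prime] (hp5 : 5 ≤ p) {F T : Type} [Field F] [Finite F]
    [CharP F p] [AddCommGroup T] [Module F T] [Finite T] {hT : HF F T}
    {I : Subgroup ((T × T) ≃ₗ[F] (T × T))} {φ : (T × T) ≃ₗ[F] (T × T)} (hD : TD p hT I φ)
    (m : Matrix.SpecialLinearGroup (Fin 2) F) : ∃ m' : Matrix.SpecialLinearGroup (Fin 2) F,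
      ∀ e, φ (tn (m : Matrix (Fin 2) (Fin 2) F) 1 e) = tn (m' : Matrix (Fin 2) (Fin 2) F) 1 (φ e) := by
  have hp : p.Prime := Fact.out
  have h0 := hD.t0
  have hF : 4 ≤ Nat.card F := by
    have h1 : addOrderOf (1 : F) = p := by
      apply addOrderOf_eq_prime
      · rw [nsmul_eq_mul, CharP.cast_eq_zero, zero_mul]
      · exact one_ne_zero
    have h2 : p ∣ Nat.card F := by
      rw [← h1]
      exact addOrderOf_dvd_natCard 1
    have h3 := Nat.le_of_dvd Nat.card_pos h2
    omega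
  have hfin : Finite (Matrix.SpecialLinearGroup (Fin 2) F) :=
    Finite.of_injective (fun m => (m : Matrix (Fin 2) (Fin 2) F)) Subtype.val_injective
  have hqs := PR.sl_qs (F := F) hF (m := 2) le_rfl
  -- the elements of `I`
  have I1' : ∀ i ∈ I, ∃ (m : Matrix (Fin 2) (Fin 2) F) (k : T ≃ₗ[F] T), m.det ≠ 0 ∧
      ∀ e, i e = tn m k e := by
    intro i hi
    obtain ⟨m, k, -, hm⟩ := hD.I1 i hi
    obtain ⟨m2, k2, -, hm2⟩ := hD.I1 i⁻¹ (I.inv_mem hi)
    refine ⟨m, k, ?_, hm⟩
    have h1 : ∀ e, tn (m * m2) (k * k2) e = e := by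
      intro e
      rw [← tn_tn, ← hm2, ← hm]
      exact i.apply_symm_apply e
    obtain ⟨t, ht⟩ := h0
    have e1 := h1 (t, 0)
    have e2 := h1 (0, t)
    rw [tn_left, Prod.mk.injEq] at e1
    rw [tn_right, Prod.mk.injEq] at e2
    have hkt : (k * k2) t ≠ 0 := by
      intro h2
      exact ht ((k * k2).map_eq_zero_iff.1 h2)
    have f1 : (m * m2) 0 0 ≠ 0 := by
      intro h2
      rw [h2, zero_smul] at e1
      exact ht e1.1.symm
    have f2 := (smul_eq_zero.1 e1.2).resolve_right hkt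
    have f4 : (m * m2) 1 1 ≠ 0 := by
      intro h2
      rw [h2, zero_smul] at e2
      exact ht e2.2.symm
    have h3 : (m * m2).det ≠ 0 := by
      rw [Matrix.det_fin_two, f2, mul_zero, sub_zero]
      exact mul_ne_zero f1 f4
    rw [Matrix.det_mul] at h3
    exact left_ne_zero_of_mul h3
  have tauI : ∀ m, tau m ∈ I := by
    intro m
    obtain ⟨i, hi, hm⟩ := hD.I2 m
    have h1 : i = tau m := LinearEquiv.ext fun e => hm e
    rw [← h1]
    exact hi
  have kapI : ∀ k ∈ hT.GG p, kap k ∈ I := by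
    intro k hk
    obtain ⟨i, hi, hm⟩ := hD.I3 k hk
    have h1 : i = kap k := LinearEquiv.ext fun e => by rw [hm, kap_tn]
    rw [← h1]
    exact hi
  have hN : ∀ i ∈ I, ∀ m, ∃ m', i * tau m * i⁻¹ = tau m' := by
    intro i hi m'
    obtain ⟨m, k, hd, hm⟩ := I1' i hi
    have hu : IsUnit m.det := isUnit_iff_ne_zero.2 hd
    refine ⟨⟨m * (m' : Matrix (Fin 2) (Fin 2) F) * m⁻¹, ?_⟩, ?_⟩
    · rw [Matrix.det_mul, Matrix.det_mul, m'.2, mul_one, ← Matrix.det_mul,
        Matrix.mul_nonsing_inv _ hu, Matrix.det_one]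
    · rw [mul_inv_eq_iff_eq_mul]
      apply LinearEquiv.ext
      intro e
      show i (tau m' e) = tau _ (i e)
      rw [hm, hm, tau_apply, tau_apply, tn_tn, tn_tn]
      have h1 : m * (m' : Matrix (Fin 2) (Fin 2) F) * m⁻¹ * m = m * (m' : Matrix (Fin 2) (Fin 2) F) :=
        Matrix.nonsing_inv_mul_cancel_right _ _ hu
      show _ = tn (m * (m' : Matrix (Fin 2) (Fin 2) F) * m⁻¹ * m) (1 * k) e
      rw [h1, mul_one, one_mul]
  have hφ : ∀ (j : ℕ), ∀ i ∈ I, φ ^ j * i * (φ ^ j)⁻¹ ∈ I := by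
    intro j
    induction j with
    | zero =>
      intro i hi
      rw [pow_zero, one_mul, inv_one, mul_one]
      exact hi
    | succ j ih =>
      intro i hi
      have h1 := hD.nm _ (ih i hi)
      have h2 : φ ^ (j + 1) * i * (φ ^ (j + 1))⁻¹ = φ * (φ ^ j * i * (φ ^ j)⁻¹) * φ⁻¹ := by
        rw [pow_succ']
        group
      rw [h2]
      exact h1
  have hφ' : ∀ (j : ℕ), ∀ i ∈ I, (φ ^ j)⁻¹ * i * φ ^ j ∈ I := by
    intro j i hi
    have h1 : (p - 1) * j + j = p * j := by
      rw [Nat.sub_mul, one_mul, Nat.sub_add_cancel (Nat.le_mul_of_pos_left _ hp.pos)]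
    have h2 : φ ^ ((p - 1) * j) * φ ^ j = 1 := by
      rw [← pow_add, h1, pow_mul, hD.ord, one_pow]
    have h3 : φ ^ ((p - 1) * j) = (φ ^ j)⁻¹ := eq_inv_of_mul_eq_one_left h2
    have h4 := hφ ((p - 1) * j) i hi
    rw [h3, inv_inv] at h4
    exact h4
  obtain ⟨f, hf⟩ : ∃ f : ℕ → (Matrix.SpecialLinearGroup (Fin 2) F →* ((T × T) ≃ₗ[F] (T × T))),
      ∀ j m, f j m = φ ^ j * tau m * (φ ^ j)⁻¹ :=
    ⟨fun j => (MulAut.conj (φ ^ j)).toMonoidHom.comp tau, fun j m => rfl⟩
  have hfI : ∀ j m, f j m ∈ I := by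
    intro j m
    rw [hf]
    exact hφ j _ (tauI m)
  have hfn : ∀ j, ∀ i ∈ I, ∀ m, ∃ m', i * f j m * i⁻¹ = f j m' := by
    intro j i hi m
    obtain ⟨m', hm'⟩ := hN _ (hφ' j i hi) m
    refine ⟨m', ?_⟩
    rw [hf, hf, ← hm']
    group
  have hfi : ∀ j, Function.Injective (f j) := by
    intro j m m' h1
    rw [hf, hf] at h1
    exact tau_inj h0 (mul_left_cancel (mul_right_cancel h1))
  by_contra hcon
  have hS : ¬ ∀ m, ∃ m', φ * tau m * φ⁻¹ = tau m' := by
    intro h1
    apply hcon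
    obtain ⟨m', hm'⟩ := h1 m
    refine ⟨m', fun e => ?_⟩
    rw [mul_inv_eq_iff_eq_mul] at hm'
    exact congrArg (fun g : (T × T) ≃ₗ[F] (T × T) => g e) hm'
  have hne : ∀ i j, i < j → j < p → (f i).range ≠ (f j).range := by
    intro i j hij hjp hr
    apply hS
    obtain ⟨d, rfl⟩ : ∃ d, j = i + d := ⟨j - i, by omega⟩
    have hd : ∀ m, ∃ m', φ ^ d * tau m * (φ ^ d)⁻¹ = tau m' := by
      intro m
      have h1 : f (i + d) m ∈ (f i).range := by rw [hr]; exact ⟨m, rfl⟩
      obtain ⟨m', hm'⟩ := h1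
      refine ⟨m', ?_⟩
      rw [hf, hf, pow_add] at hm'
      have h2 : φ ^ i * φ ^ d * tau m * (φ ^ i * φ ^ d)⁻¹ =
          φ ^ i * (φ ^ d * tau m * (φ ^ d)⁻¹) * (φ ^ i)⁻¹ := by group
      rw [h2] at hm'
      exact (mul_left_cancel (mul_right_cancel hm')).symm
    have he : ∀ (e : ℕ) (m : Matrix.SpecialLinearGroup (Fin 2) F), ∃ m' , (φ ^ d) ^ e * tau m * ((φ ^ d) ^ e)⁻¹ = tau m' := by
      intro e
      induction e with
      | zero =>
        intro m
        exact ⟨m, by rw [pow_zero, one_mul, inv_one, mul_one]⟩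
      | succ e ih =>
        intro m
        obtain ⟨m1, hm1⟩ := ih m
        obtain ⟨m2, hm2⟩ := hd m1
        refine ⟨m2, ?_⟩
        rw [← hm2, ← hm1, pow_succ' (φ ^ d) e]
        group
    have hcop : Nat.Coprime d p :=
      (Nat.coprime_of_lt_prime (by omega) (by omega) hp).symm
    obtain ⟨e, -, he1⟩ := Nat.exists_mul_mod_eq_one_of_coprime hcop hp.one_lt
    have h3 : (φ ^ d) ^ e = φ := by
      rw [← pow_mul, pow_eq_pow_mod (d * e) hD.ord, he1, pow_one]
    intro m
    obtain ⟨m', hm'⟩ := he e m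
    rw [h3] at hm'
    exact ⟨m', hm'⟩
  have hcomm : ∀ i j, i < j → j < p → ∀ u v, f i u * f j v = f j v * f i u := fun i j hij hjp u v =>
    tq_comm hqs (hfi i) (hfi j) (hfI i) (hfI j) (hfn i) (hfn j) (hne i j hij hjp) u v
  have hf0 : ∀ m, f 0 m = tau m := by
    intro m
    rw [hf, pow_zero, one_mul, inv_one, mul_one]
  have hlift : ∀ j, 0 < j → j < p → ∃ f' : Matrix.SpecialLinearGroup (Fin 2) F →* (T ≃ₗ[F] T),
      ∀ m, kap (f' m) = f j m := by
    intro j hj hjp
    apply lift_kap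
    intro m
    apply cent_kap
    intro m'
    rw [← hf0, hcomm 0 j hj hjp]
  obtain ⟨f1, hf1⟩ := hlift 1 (by omega) (by omega)
  obtain ⟨f2, hf2⟩ := hlift 2 (by omega) (by omega)
  obtain ⟨f3, hf3⟩ := hlift 3 (by omega) (by omega)
  have hinj : ∀ (j : ℕ) (f' : Matrix.SpecialLinearGroup (Fin 2) F →* (T ≃ₗ[F] T)),
      (∀ m, kap (f' m) = f j m) → Function.Injective f' := by
    intro j f' h1 a b hab
    apply hfi j
    rw [← h1, ← h1, hab]
  have hmem : ∀ (j : ℕ) (f' : Matrix.SpecialLinearGroup (Fin 2) F →* (T ≃ₗ[F] T)),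
      (∀ m, kap (f' m) = f j m) → ∀ m, f' m ∈ hT.GG p := by
    intro j f' h1 m
    exact in_GG hD.o h0 hD.I1 (f := f') (fun m => by rw [h1]; exact hfI j m) m
  have hcc : ∀ (i j : ℕ) (f' f'' : Matrix.SpecialLinearGroup (Fin 2) F →* (T ≃ₗ[F] T)),
      (∀ m, kap (f' m) = f i m) → (∀ m, kap (f'' m) = f j m) → i < j → j < p →
      ∀ u v, f' u * f'' v = f'' v * f' u := by
    intro i j f' f'' h1 h2 hij hjp u v
    apply kap_inj
    rw [map_mul, map_mul, h1, h2, hcomm i j hij hjp]
  refine tens_contra hp5 hD.o (hinj 1 f1 hf1) (hinj 2 f2 hf2) (hinj 3 f3 hf3) (hmem 1 f1 hf1)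
    (hmem 2 f2 hf2) (hmem 3 f3 hf3) ?_ (hcc 1 2 f1 f2 hf1 hf2 (by omega) (by omega))
    (hcc 1 3 f1 f3 hf1 hf3 (by omega) (by omega)) (hcc 2 3 f2 f3 hf2 hf3 (by omega) (by omega))
  intro k hk m
  obtain ⟨m', hm'⟩ := hfn 1 (kap k) (kapI k hk) m
  refine ⟨m', ?_⟩
  apply kap_inj
  rw [map_mul, map_mul, map_inv, hf1, hf1, hm']

end Pool.Agent.Helper54.OC
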