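import Mathlib

/-!
# OC-18: elements of `SL_2(K)`
-/

set_option autoImplicit false

namespace Pool.Agent.Helper54.OC

section
variable {K : Type} [Field K]

def up (t : K) : Matrix.SpecialLinearGroup (Fin 2) K :=
  ⟨!![1, t; 0, 1], by simp [Matrix.det_fin_two]⟩

def lo (t : K) : Matrix.SpecialLinearGroup (Fin 2) K :=
  ⟨!![1, 0; t, 1], by simp [Matrix.det_fin_two]⟩

def dg (c : Kˣ) : Matrix.SpecialLinearGroup (Fin 2) K :=
  ⟨!![(c : K), 0; 0, ((c⁻¹ : Kˣ) : K)], by simp [Matrix.det_fin_two]⟩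

def ww (K : Type) [Field K] : Matrix.SpecialLinearGroup (Fin 2) K :=
  ⟨!![0, 1; -1, 0], by simp [Matrix.det_fin_two]⟩

theorem up_coe (t : K) : (up t : Matrix (Fin 2) (Fin 2) K) = !![1, t; 0, 1] := rfl

theorem lo_coe (t : K) : (lo t : Matrix (Fin 2) (Fin 2) K) = !![1, 0; t, 1] := rfl

theorem dg_coe (c : Kˣ) :
    (dg c : Matrix (Fin 2) (Fin 2) K) = !![(c : K), 0; 0, ((c⁻¹ : Kˣ) : K)] := rfl

theorem ww_coe : (ww K : Matrix (Fin 2) (Fin 2) K) = !![0, 1; -1, 0] := rfl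

theorem up_add (s t : K) : up (s + t) = up s * up t := by
  apply Subtype.ext
  show (up (s + t) : Matrix (Fin 2) (Fin 2) K) =
    (up s : Matrix (Fin 2) (Fin 2) K) * (up t : Matrix (Fin 2) (Fin 2) K)
  rw [up_coe, up_coe, up_coe, Matrix.mul_fin_two]
  simp [add_comm]

theorem lo_add (s t : K) : lo (s + t) = lo s * lo t := by
  apply Subtype.ext
  show (lo (s + t) : Matrix (Fin 2) (Fin 2) K) =
    (lo s : Matrix (Fin 2) (Fin 2) K) * (lo t : Matrix (Fin 2) (Fin 2) K)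
  rw [lo_coe, lo_coe, lo_coe, Matrix.mul_fin_two]
  simp

theorem dg_mul (c d : Kˣ) : dg (c * d) = dg c * dg d := by
  apply Subtype.ext
  show (dg (c * d) : Matrix (Fin 2) (Fin 2) K) =
    (dg c : Matrix (Fin 2) (Fin 2) K) * (dg d : Matrix (Fin 2) (Fin 2) K)
  rw [dg_coe, dg_coe, dg_coe, Matrix.mul_fin_two]
  simp [mul_comm]

theorem dg_one : dg (1 : Kˣ) = 1 := by
  apply Subtype.ext
  rw [dg_coe, Matrix.SpecialLinearGroup.coe_one]
  ext i j
  fin_cases i <;> fin_cases j <;> simp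

theorem dg_inv (c : Kˣ) : (dg c)⁻¹ = dg c⁻¹ := by
  rw [inv_eq_iff_mul_eq_one, ← dg_mul, mul_inv_cancel, dg_one]

theorem dg_up (c : Kˣ) (t : K) : dg c * up t * (dg c)⁻¹ = up ((c : K) * (c : K) * t) := by
  rw [mul_inv_eq_iff_eq_mul]
  apply Subtype.ext
  show (dg c : Matrix (Fin 2) (Fin 2) K) * (up t : Matrix (Fin 2) (Fin 2) K) =
    (up ((c : K) * (c : K) * t) : Matrix (Fin 2) (Fin 2) K) * (dg c : Matrix (Fin 2) (Fin 2) K)
  rw [dg_coe, up_coe, up_coe, Matrix.mul_fin_two, Matrix.mul_fin_two]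
  have hc : (c : K) ≠ 0 := c.ne_zero
  ext i j
  fin_cases i <;> fin_cases j <;> simp <;> field_simp

theorem ww_dg (c : Kˣ) : ww K * dg c * (ww K)⁻¹ = dg c⁻¹ := by
  rw [mul_inv_eq_iff_eq_mul]
  apply Subtype.ext
  show (ww K : Matrix (Fin 2) (Fin 2) K) * (dg c : Matrix (Fin 2) (Fin 2) K) =
    (dg c⁻¹ : Matrix (Fin 2) (Fin 2) K) * (ww K : Matrix (Fin 2) (Fin 2) K)
  rw [dg_coe, dg_coe, ww_coe, Matrix.mul_fin_two, Matrix.mul_fin_two]
  ext i j
  fin_cases i <;> fin_cases j <;> simp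

theorem up_zero : up (0 : K) = 1 := by
  apply Subtype.ext
  rw [up_coe, Matrix.SpecialLinearGroup.coe_one]
  ext i j
  fin_cases i <;> fin_cases j <;> simp

theorem up_inj {t : K} (h : up t = 1) : t = 0 := by
  have h1 : (up t : Matrix (Fin 2) (Fin 2) K) 0 1 = (1 : Matrix (Fin 2) (Fin 2) K) 0 1 := by
    rw [h, Matrix.SpecialLinearGroup.coe_one]
  simpa [up_coe] using h1

end

end Pool.Agent.Helper54.OC
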